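import Pool.Agent.Lib.H90Q.A03

open scoped Classical ComplexConjugate BigOperators

noncomputable section

namespace Pool.Agent.Lib.H90Q

/-- Orthonormality: `Representation.char_orthonormal` and `char_inv`. If the two representations are not equivalent the product is `0`, and then
`χ ≠ ψ` because the product of `χ` with itself is `1`; if they are equivalent then `χ = ψ` (`Representation.char_iso`). -/
theorem irr_ortho {X : Type*} [Group X] [Fintype X] {χ ψ : X → ℂ} (hχ : IsIrr χ) (hψ : IsIrr ψ) :
    (Nat.card X : ℂ)⁻¹ * ∑ x, χ x * conj (ψ x) = if χ = ψ then 1 else 0 := by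
  have hψc : IsChar ψ := isChar_of_isIrr hψ
  obtain ⟨n, ρ, hρ, rfl⟩ := hχ
  obtain ⟨k, σ, hσ, rfl⟩ := hψ
  have h0 : (Nat.card X : ℂ) ≠ 0 := by
    simp [Nat.card_eq_fintype_card, Fintype.card_ne_zero]
  let _ : Invertible (Nat.card X : ℂ) := invertibleOfNonzero h0
  have h1 : ∑ x, ρ.character x * conj (σ.character x) =
      ∑ x, ρ.character x * σ.character x⁻¹ :=
    Finset.sum_congr rfl fun x _ => by rw [char_inv hψc x]
  rw [h1, Representation.char_orthonormal ρ σ]
  by_cases hE : Nonempty (σ.Equiv ρ)
  · rw [if_pos hE, if_pos]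
    exact (Representation.char_iso hE.some).symm
  · rw [if_neg hE, if_neg]
    intro heq
    have h2 := Representation.char_orthonormal ρ ρ
    rw [if_pos ⟨Representation.Equiv.refl ρ⟩] at h2
    have h3 := Representation.char_orthonormal ρ σ
    rw [if_neg hE, ← heq, h2] at h3
    exact one_ne_zero h3

/-- There are finitely many irreducible characters: they are linearly independent in the finite dimensional space `X → ℂ`. -/
theorem irr_finite (X : Type*) [Group X] [Finite X] : {χ : X → ℂ | IsIrr χ}.Finite := by
  have : Fintype X := Fintype.ofFinite X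
  have hli : LinearIndependent ℂ (fun χ : {χ : X → ℂ | IsIrr χ} => (χ : X → ℂ)) := by
    rw [linearIndependent_iff']
    intro s g hg i hi
    have h1 : ∀ x, ∑ j ∈ s, g j * (j : X → ℂ) x = 0 := by
      intro x
      have := congrFun hg x
      simpa [Finset.sum_apply, Pi.smul_apply, smul_eq_mul] using this
    have h2 : (Nat.card X : ℂ)⁻¹ * ∑ x, (∑ j ∈ s, g j * (j : X → ℂ) x) * conj ((i : X → ℂ) x) = g i := by
      have h3 : ∑ x, (∑ j ∈ s, g j * (j : X → ℂ) x) * conj ((i : X → ℂ) x) =
          ∑ j ∈ s, g j * ∑ x, (j : X → ℂ) x * conj ((i : X → ℂ) x) := by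
        simp_rw [Finset.sum_mul, Finset.mul_sum]
        rw [Finset.sum_comm]
        refine Finset.sum_congr rfl fun j _ => Finset.sum_congr rfl fun x _ => by ring
      rw [h3, Finset.mul_sum]
      have h4 : ∀ j ∈ s, (Nat.card X : ℂ)⁻¹ * (g j * ∑ x, (j : X → ℂ) x * conj ((i : X → ℂ) x)) =
          if j = i then g j else 0 := by
        intro j _
        have h5 := irr_ortho j.2 i.2
        rw [mul_left_comm, h5]
        by_cases hji : j = i
        · rw [if_pos hji, if_pos (by rw [hji]), mul_one]
        · rw [if_neg hji, if_neg (fun h => hji (Subtype.ext h)), mul_zero]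
      rw [Finset.sum_congr rfl h4, Finset.sum_ite_eq' s i, if_pos hi]
    rw [← h2]
    simp [h1]
  exact hli.setFinite

end Pool.Agent.Lib.H90Q
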