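import Pool.Agent.Lib.H90Q.A02
import Pool.Agent.Lib.H90Q.A04

open scoped Classical ComplexConjugate BigOperators

noncomputable section

namespace Pool.Agent.Lib.H90Q

/-- The regular representation on functions. -/
private def regRep (X : Type*) [Group X] : Representation ℂ X (X → ℂ) where
  toFun g :=
    { toFun := fun v h => v (g⁻¹ * h)
      map_add' := fun _ _ => rfl
      map_smul' := fun _ _ => rfl }
  map_one' := by
    ext v h
    simp
  map_mul' a b := by
    ext v h
    simp [mul_assoc]

private theorem regRep_char {X : Type*} [Group X] [Fintype X] (g : X) :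
    (regRep X).character g = if g = 1 then (Fintype.card X : ℂ) else 0 := by
  have h1 : (regRep X).character g = LinearMap.trace ℂ (X → ℂ) (regRep X g) := rfl
  rw [h1, LinearMap.trace_eq_matrix_trace ℂ (Pi.basisFun ℂ X), Matrix.trace]
  have h2 : ∀ h : X, (LinearMap.toMatrix (Pi.basisFun ℂ X) (Pi.basisFun ℂ X) (regRep X g)).diag h
      = if g = 1 then (1 : ℂ) else 0 := by
    intro h
    rw [Matrix.diag_apply, LinearMap.toMatrix_apply, Pi.basisFun_repr, Pi.basisFun_apply]
    change (Pi.single h (1 : ℂ) : X → ℂ) (g⁻¹ * h) = _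
    by_cases hg : g = 1
    · subst hg
      simp
    · rw [if_neg hg, Pi.single_eq_of_ne]
      intro h3
      apply hg
      have h4 : g⁻¹ = 1 := by
        have h5 : g⁻¹ * h = 1 * h := by rw [h3, one_mul]
        exact mul_right_cancel h5
      exact inv_eq_one.mp h4
  rw [Finset.sum_congr rfl (fun h _ => h2 h), Finset.sum_const, Finset.card_univ, nsmul_eq_mul]
  split_ifs
  · rw [mul_one]
  · rw [mul_zero]

private theorem irr_conv {X : Type*} [Group X] [Fintype X] (f : X → ℂ)
    (hf : ∀ a x, f (a * x * a⁻¹) = f x) (φ : X → ℂ) (hφ : IsIrr φ)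
    (h : ∑ x, f x * conj (φ x) = 0) (y : X) : ∑ x, conj (f x) * φ (x * y) = 0 := by
  obtain ⟨n, ρ, hirr, rfl⟩ := hφ
  set T : (Fin n → ℂ) →ₗ[ℂ] (Fin n → ℂ) := ∑ x, conj (f x) • ρ x with hT
  have hcomm : ∀ a : X, T * ρ a = ρ a * T := by
    intro a
    rw [hT, Finset.sum_mul, Finset.mul_sum]
    refine Fintype.sum_equiv (MulAut.conj a⁻¹).toEquiv _ _ fun x => ?_
    have e1 : (MulAut.conj a⁻¹).toEquiv x = a⁻¹ * x * a := by
      simp
    rw [e1]
    have e2 : f (a⁻¹ * x * a) = f x := by
      have := hf a⁻¹ x
      rwa [inv_inv] at this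
    rw [e2, smul_mul_assoc, mul_smul_comm, ← map_mul, ← map_mul]
    congr 2
    group
  have hT0 : T = 0 := by
    obtain ⟨c, hc⟩ := (Representation.IsIrreducible.algebraMap_intertwiningMap_bijective_of_isAlgClosed
      (ρ := ρ)).2
      (⟨T, fun a => hcomm a⟩ : Representation.IntertwiningMap ρ ρ)
    have hTc : T = c • LinearMap.id := by
      have h7 := congrArg Representation.IntertwiningMap.toLinearMap hc
      rw [Algebra.algebraMap_eq_smul_one] at h7
      exact h7.symm
    have htr : LinearMap.trace ℂ _ T = 0 := by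
      rw [hT, map_sum]
      have e3 : ∀ x, LinearMap.trace ℂ (Fin n → ℂ) (conj (f x) • ρ x) = conj (f x * conj (ρ.character x)) := by
        intro x
        rw [map_smul, smul_eq_mul, map_mul, Complex.conj_conj]
        rfl
      rw [Finset.sum_congr rfl (fun x _ => e3 x), ← map_sum, h, map_zero]
    rw [hTc, map_smul, LinearMap.trace_id, smul_eq_mul, Module.finrank_fin_fun] at htr
    rcases mul_eq_zero.mp htr with h0 | h0
    · rw [hTc, h0, zero_smul]
    · have hn : n = 0 := by exact_mod_cast h0
      subst hn
      exact LinearMap.ext fun v => Subsingleton.elim _ _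
  have e4 : ∑ x, conj (f x) * ρ.character (x * y) = LinearMap.trace ℂ _ (T * ρ y) := by
    rw [hT, Finset.sum_mul, map_sum]
    refine Finset.sum_congr rfl fun x _ => ?_
    rw [smul_mul_assoc, map_smul, smul_eq_mul, ← map_mul]
    rfl
  rw [e4, hT0, zero_mul, map_zero]

private theorem char_conv {X : Type*} [Group X] [Fintype X] (f : X → ℂ)
    (hf : ∀ a x, f (a * x * a⁻¹) = f x) (h : ∀ χ, IsIrr χ → ∑ x, f x * conj (χ x) = 0) (y : X)
    (s : Multiset (X → ℂ)) : (∀ φ ∈ s, IsIrr φ) → ∑ x, conj (f x) * s.sum (x * y) = 0 := by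
  induction s using Multiset.induction_on with
  | empty =>
    intro _
    simp
  | cons a s ih =>
    intro hs
    rw [Multiset.sum_cons]
    have h1 := irr_conv f hf a (hs a (Multiset.mem_cons_self a s)) (h a (hs a (Multiset.mem_cons_self a s))) y
    have h2 := ih fun φ hφ => hs φ (Multiset.mem_cons_of_mem hφ)
    simp only [Pi.add_apply, mul_add, Finset.sum_add_distrib]
    rw [h1, h2, add_zero]

/-- Completeness. Let `ρ` be any representation on a finite dimensional space and `T ρ = ∑ x, conj (f x) • ρ x`; `T ρ` commutes with `ρ` because `f` is a class function.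
If `ρ` is irreducible, Schur (`Representation.IsIrreducible.algebraMap_intertwiningMap_bijective_of_isAlgClosed`) gives `T ρ = c`, and
`c * dim = trace = ∑ x, conj (f x) * χ x = conj (∑ x, f x * conj (χ x)) = 0`, so `T ρ = 0`. Every representation is a direct sum of irreducible
ones (as in `A02`; or use semisimplicity: the kernel of `T ρ` is a subrepresentation, if it is not everything a complement contains an irreducible subrepresentation,
on which `T` vanishes, contradiction). Apply this to the regular representation (`Representation.leftRegular` or `ofMulAction`) and the vector `1`: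
`∑ x, conj (f x) • single x 1 = 0`, so `f = 0`. -/
theorem complete {X : Type*} [Group X] [Fintype X] (f : X → ℂ) (hf : ∀ a x, f (a * x * a⁻¹) = f x)
    (h : ∀ χ, IsIrr χ → ∑ x, f x * conj (χ x) = 0) : f = 0 := by
  obtain ⟨s, hs, hsum⟩ := char_decomp (isChar_of_rep (regRep X))
  funext z
  have h1 := char_conv f hf h z⁻¹ s hs
  rw [← hsum] at h1
  have h2 : ∀ x, conj (f x) * (regRep X).character (x * z⁻¹)
      = if x = z then conj (f x) * (Fintype.card X : ℂ) else 0 := by
    intro x
    rw [regRep_char]
    by_cases hx : x = z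
    · subst hx
      simp
    · rw [if_neg hx, if_neg, mul_zero]
      intro h3
      exact hx (mul_inv_eq_one.mp h3)
  rw [Finset.sum_congr rfl (fun x _ => h2 x), Finset.sum_ite_eq' Finset.univ z, if_pos (Finset.mem_univ z)] at h1
  have h3 : (Fintype.card X : ℂ) ≠ 0 := by
    exact_mod_cast Fintype.card_ne_zero
  have h4 := (mul_eq_zero.mp h1).resolve_right h3
  have h5 := congrArg conj h4
  rwa [Complex.conj_conj, map_zero] at h5

end Pool.Agent.Lib.H90Q
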