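import Pool.Agent.Lib.H90Q.A01

open scoped Classical ComplexConjugate BigOperators

noncomputable section

namespace Pool.Agent.Lib.H90Q

/-- Two representations on the same space with the same invariant subspaces are both irreducible or
both reducible. -/
private theorem a06_irr {X Y V : Type*} [Group X] [Group Y] [AddCommGroup V] [Module ℂ V]
    (ρ : Representation ℂ X V) (σ : Representation ℂ Y V)
    (h : ∀ W : Submodule ℂ V, (∀ x, ∀ v ∈ W, ρ x v ∈ W) ↔ ∀ y, ∀ v ∈ W, σ y v ∈ W)
    (hρ : ρ.IsIrreducible) : σ.IsIrreducible := by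
  let e : Subrepresentation ρ ≃o Subrepresentation σ :=
    { toFun := fun W => ⟨W.toSubmodule,
        (h W.toSubmodule).1 fun x v hv => W.apply_mem_toSubmodule x hv⟩
      invFun := fun W => ⟨W.toSubmodule,
        (h W.toSubmodule).2 fun x v hv => W.apply_mem_toSubmodule x hv⟩
      left_inv := fun _ => rfl
      right_inv := fun _ => rfl
      map_rel_iff' := Iff.rfl }
  exact e.isSimpleOrder_iff.1 hρ

/-- Composition with a homomorphism: `ρ.comp f`. -/
theorem isChar_comp {X Y : Type*} [Group X] [Group Y] (f : X →* Y) {χ : Y → ℂ} (h : IsChar χ) : IsChar (fun x => χ (f x)) := by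
  obtain ⟨n, ρ, rfl⟩ := h
  exact ⟨n, (ρ : Y →* _).comp f, rfl⟩

/-- Inflation along a surjective homomorphism keeps irreducibility (the same invariant subspaces). -/
theorem isIrr_comp {X Y : Type*} [Group X] [Group Y] (f : X →* Y) (hf : Function.Surjective f) {χ : Y → ℂ} (h : IsIrr χ) :
    IsIrr (fun x => χ (f x)) := by
  obtain ⟨n, ρ, hρ, rfl⟩ := h
  refine ⟨n, (ρ : Y →* _).comp f, a06_irr ρ _ (fun W => ⟨fun h x v hv => h (f x) v hv,
    fun h y v hv => ?_⟩) hρ, rfl⟩
  obtain ⟨x, rfl⟩ := hf y
  exact h x v hv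

/-- A representation with trace equal to the dimension on a finite group is trivial. -/
private theorem a06_triv {K : Type*} [Group K] [Finite K] {n : ℕ}
    (ρ : Representation ℂ K (Fin n → ℂ)) (h : ∀ k, ρ.character k = n) (k : K) : ρ k = 1 := by
  have := Fintype.ofFinite K
  have hc : (Nat.card K : ℂ) ≠ 0 := Nat.cast_ne_zero.2 Nat.card_pos.ne'
  have : Invertible (Nat.card K : ℂ) := invertibleOfNonzero hc
  have h1 := Representation.card_inv_mul_sum_char_eq_finrank ρ
  have h2 : (Nat.card K : ℂ)⁻¹ * ∑ g : K, ρ.character g = n := by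
    rw [Finset.sum_congr rfl fun g _ => h g, Finset.sum_const, Finset.card_univ,
      Fintype.card_eq_nat_card, nsmul_eq_mul, inv_mul_cancel_left₀ hc]
  rw [h2] at h1
  have h3 : Module.finrank ℂ ρ.invariants = Module.finrank ℂ (Fin n → ℂ) := by
    rw [Module.finrank_fin_fun]
    exact_mod_cast h1.symm
  have h4 : ρ.invariants = ⊤ := Submodule.eq_top_of_finrank_eq h3
  refine LinearMap.ext fun v => ?_
  have h5 : v ∈ ρ.invariants := by rw [h4]; trivial
  exact (Representation.mem_invariants ρ v).1 h5 k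

/-- Deflation: an irreducible character that is constant on the fibres of a surjective homomorphism comes from the quotient.
Proof: `ρ` irreducible with character `χ`; for `k` in the kernel `χ k = χ 1 = n`; `ρ k` has finite order so its eigenvalues are roots of unity whose sum is `n`, so all are `1`
and `ρ k = 1` (it is diagonalisable). So `ρ` factors through `Y` (`QuotientGroup`, or `MonoidHom.liftOfSurjective`). -/
theorem isIrr_descend {X Y : Type*} [Group X] [Group Y] [Finite X] (f : X →* Y) (hf : Function.Surjective f) {χ : Y → ℂ}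
    (h : IsIrr (fun x => χ (f x))) : IsIrr χ := by
  obtain ⟨n, ρ, hρ, hχ⟩ := h
  have h1 : ∀ k : f.ker, ρ (k : X) = 1 := by
    intro k
    refine a06_triv ((ρ : X →* _).comp f.ker.subtype) (fun k => ?_) k
    have h2 : ρ.character (k : X) = χ 1 := by
      rw [hχ]
      show χ (f k) = χ 1
      rw [MonoidHom.mem_ker.1 k.2]
    have h3 : ρ.character 1 = χ 1 := by
      rw [hχ]
      show χ (f 1) = χ 1
      rw [map_one]
    have h4 : ρ.character (k : X) = n := by
      rw [h2, ← h3, Representation.char_one, Module.finrank_fin_fun]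
    exact h4
  have h2 : ∀ x x' : X, f x = f x' → ρ x = ρ x' := by
    intro x x' hx
    have h3 : x'⁻¹ * x ∈ f.ker := by
      rw [MonoidHom.mem_ker, map_mul, map_inv, hx, inv_mul_cancel]
    have h4 := h1 ⟨_, h3⟩
    have h5 : ρ (x' * (x'⁻¹ * x)) = ρ x' * ρ (x'⁻¹ * x) := map_mul ρ _ _
    rw [mul_inv_cancel_left] at h5
    rw [h5]
    exact (congrArg (ρ x' * ·) h4).trans (mul_one _)
  let s : Y → X := Function.surjInv hf
  have hs : ∀ y, f (s y) = y := Function.surjInv_eq hf
  let σ : Representation ℂ Y (Fin n → ℂ) :=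
    { toFun := fun y => ρ (s y)
      map_one' := by
        rw [h2 (s 1) 1 (by rw [hs, map_one]), map_one]
      map_mul' := fun a b => by
        rw [h2 (s (a * b)) (s a * s b) (by rw [map_mul, hs, hs, hs]), map_mul] }
  have hσ : ∀ x, σ (f x) = ρ x := fun x => h2 _ _ (hs (f x))
  refine ⟨n, σ, a06_irr ρ σ (fun W => ⟨fun h y v hv => h (s y) v hv, fun h x v hv => ?_⟩) hρ, ?_⟩
  · rw [← hσ x]
    exact h (f x) v hv
  · funext y
    have h6 := congrFun hχ (s y)
    have h7 : ρ.character (s y) = χ y := by rw [h6, hs]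
    exact h7

/-- Twist by a one dimensional character: `x ↦ l x • ρ x`; the invariant subspaces are the same because `l x ≠ 0`. -/
theorem isIrr_twist {X : Type*} [Group X] {χ l : X → ℂ} (h : IsIrr χ) (hl1 : l 1 = 1) (hl : ∀ a b, l (a * b) = l a * l b) :
    IsIrr (fun x => l x * χ x) := by
  obtain ⟨n, ρ, hρ, rfl⟩ := h
  have h0 : ∀ x, l x ≠ 0 := by
    intro x hx
    have h1 := hl x x⁻¹
    rw [mul_inv_cancel, hl1, hx, zero_mul] at h1
    exact one_ne_zero h1
  let σ : Representation ℂ X (Fin n → ℂ) :=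
    { toFun := fun x => l x • ρ x
      map_one' := by rw [hl1, map_one, one_smul]
      map_mul' := fun a b => by rw [hl, map_mul, smul_mul_smul_comm] }
  refine ⟨n, σ, a06_irr ρ σ (fun W => ⟨fun h x v hv => W.smul_mem _ (h x v hv), fun h x v hv => ?_⟩)
    hρ, ?_⟩
  · have h1 : l x • ρ x v ∈ W := h x v hv
    have h2 := W.smul_mem (l x)⁻¹ h1
    rwa [inv_smul_smul₀ (h0 x)] at h2
  · funext x
    show LinearMap.trace ℂ _ (l x • ρ x) = l x * LinearMap.trace ℂ _ (ρ x)
    rw [map_smul, smul_eq_mul]

/-- Multiplicative functions are irreducible characters (dimension one). -/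
theorem isIrr_lin {X : Type*} [Group X] {l : X → ℂ} (hl1 : l 1 = 1) (hl : ∀ a b, l (a * b) = l a * l b) : IsIrr l := by
  have h1 : IsIrr (fun _ : X => (1 : ℂ)) := by
    let σ : Representation ℂ X (Fin 1 → ℂ) :=
      { toFun := fun _ => 1
        map_one' := rfl
        map_mul' := fun _ _ => (mul_one 1).symm }
    have hs : IsSimpleOrder (Submodule ℂ (Fin 1 → ℂ)) := by
      have h2 : IsSimpleModule ℂ (Fin 1 → ℂ) :=
        isSimpleModule_iff_finrank_eq_one.2 (by rw [Module.finrank_fin_fun])
      exact (isSimpleModule_iff ℂ (Fin 1 → ℂ)).1 h2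
    let e : Submodule ℂ (Fin 1 → ℂ) ≃o Subrepresentation σ :=
      { toFun := fun W => ⟨W, fun _ v hv => hv⟩
        invFun := fun W => W.toSubmodule
        left_inv := fun _ => rfl
        right_inv := fun _ => rfl
        map_rel_iff' := Iff.rfl }
    refine ⟨1, σ, e.isSimpleOrder_iff.1 hs, ?_⟩
    funext x
    show LinearMap.trace ℂ (Fin 1 → ℂ) 1 = 1
    rw [LinearMap.trace_one, Module.finrank_fin_fun, Nat.cast_one]
  have h2 := isIrr_twist h1 hl1 hl
  have h3 : (fun x => l x * (1 : ℂ)) = l := by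
    funext x
    rw [mul_one]
  rw [h3] at h2
  exact h2

end Pool.Agent.Lib.H90Q
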