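import Pool.Agent.Lib.H90Q.A04

open scoped Classical ComplexConjugate BigOperators

noncomputable section

namespace Pool.Agent.Lib.H90Q

/-- Character values are algebraic integers. -/
theorem isIntegral_char {X : Type*} [Group X] [Finite X] {χ : X → ℂ} (h : IsChar χ) (x : X) : IsIntegral ℤ (χ x) := by
  obtain ⟨n, ρ, rfl⟩ := h
  have hs : (ρ x).charpoly.Splits := IsAlgClosed.splits _
  have ht : ρ.character x = (ρ x).charpoly.roots.sum := Module.End.trace_eq_sum_roots_charpoly_of_splits hs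
  rw [ht]
  refine IsIntegral.multiset_sum ?_
  intro μ hμ
  have h0 : (ρ x).charpoly ≠ 0 := (LinearMap.charpoly_monic _).ne_zero
  have h1 : (ρ x).charpoly.IsRoot μ := (Polynomial.mem_roots h0).1 hμ
  have h2 : Module.End.HasEigenvalue (ρ x) μ := (Module.End.hasEigenvalue_iff_isRoot_charpoly _ _).2 h1
  obtain ⟨v, hv⟩ := h2.exists_hasEigenvector
  have hp : ∀ k : ℕ, (ρ x ^ k) v = μ ^ k • v := by
    intro k
    exact hv.pow_apply k
  have h3 := hp (orderOf x)
  rw [← map_pow, pow_orderOf_eq_one, map_one, Module.End.one_apply] at h3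
  have h4 : μ ^ orderOf x = 1 := by
    by_contra hne
    have h5 : (μ ^ orderOf x - 1) • v = 0 := by
      rw [sub_smul, one_smul, ← h3, sub_self]
    rcases smul_eq_zero.1 h5 with h6 | h6
    · exact hne (sub_eq_zero.1 h6)
    · exact hv.2 h6
  refine ⟨Polynomial.X ^ orderOf x - 1, ?_, ?_⟩
  · exact Polynomial.monic_X_pow_sub_C 1 (orderOf_pos x).ne'
  · simp [h4]

/-- The degree of an irreducible character divides the order of the group. -/
theorem irr_dvd {X : Type*} [Group X] [Finite X] {χ : X → ℂ} (h : IsIrr χ) : ∃ n : ℕ, 0 < n ∧ χ 1 = n ∧ n ∣ Nat.card X := by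
  haveI := Fintype.ofFinite X
  obtain ⟨n, hn, hn1⟩ := irr_one h
  refine ⟨n, hn, hn1, ?_⟩
  have hchar := isChar_of_isIrr h
  have horth := irr_ortho h h
  rw [if_pos rfl] at horth
  have hcard : (Nat.card X : ℂ) ≠ 0 := by
    exact_mod_cast Nat.card_pos.ne'
  have horth' : ∑ x : X, χ x * conj (χ x) = (Nat.card X : ℂ) := by
    have := horth
    field_simp at this
    exact this
  obtain ⟨m, ρ, hρ, hc⟩ := h
  haveI := hρ
  have hmn : m = n := by
    have : χ 1 = (m : ℂ) := by
      rw [← hc, Representation.char_one]; simp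
    rw [hn1] at this; exact_mod_cast this.symm
  subst hmn
  have hconj : ∀ a x : X, χ (a * x * a⁻¹) = χ x := fun a x => char_conj hchar a x
  have hcomm : ∀ g : X, (∑ x : X, conj (χ x) • ρ x) * ρ g = ρ g * (∑ x : X, conj (χ x) • ρ x) := by
    intro g
    have e1 : (∑ x : X, conj (χ x) • ρ x) * ρ g = ∑ x : X, conj (χ x) • ρ (x * g) := by
      rw [Finset.sum_mul]
      exact Finset.sum_congr rfl (fun x _ => by rw [smul_mul_assoc, map_mul])
    have e2 : ρ g * (∑ x : X, conj (χ x) • ρ x) = ∑ x : X, conj (χ x) • ρ (g * x) := by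
      rw [Finset.mul_sum]
      exact Finset.sum_congr rfl (fun x _ => by rw [mul_smul_comm, map_mul])
    rw [e1, e2]
    have : ∀ x : X, conj (χ x) • ρ (g * x) = conj (χ (g * x * g⁻¹)) • ρ ((g * x * g⁻¹) * g) := by
      intro x
      rw [hconj g x]; congr 2; group
    rw [Finset.sum_congr rfl (fun x _ => this x)]
    exact (Equiv.sum_comp (MulAut.conj g).toEquiv (fun y => conj (χ y) • ρ (y * g))).symm
  obtain ⟨c, hc'⟩ : ∃ c : ℂ, (∑ x : X, conj (χ x) • ρ x) = algebraMap ℂ (Module.End ℂ (Fin m → ℂ)) c := by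
    have hb := Representation.IsIrreducible.algebraMap_intertwiningMap_bijective_of_isAlgClosed (ρ := ρ)
    obtain ⟨c, hc'⟩ := hb.2 ⟨∑ x : X, conj (χ x) • ρ x, fun g => hcomm g⟩
    refine ⟨c, ?_⟩
    have := congrArg (fun f => f.toLinearMap) hc'
    simp only at this
    rw [← this]
    rfl
  have htr : c * m = (Nat.card X : ℂ) := by
    have h1 := congrArg (LinearMap.trace ℂ (Fin m → ℂ)) hc'
    rw [map_sum] at h1
    have h2 : ∀ x : X, LinearMap.trace ℂ (Fin m → ℂ) (conj (χ x) • ρ x) = χ x * conj (χ x) := by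
      intro x
      rw [map_smul, smul_eq_mul, mul_comm]
      congr 1
      rw [← hc]; rfl
    rw [Finset.sum_congr rfl (fun x _ => h2 x), horth', Algebra.algebraMap_eq_smul_one, map_smul, LinearMap.trace_one] at h1
    rw [h1]; simp
  have hint : IsIntegral (integralClosure ℤ ℂ) (∑ x : X, conj (χ x) • ρ x) := by
    have hv : ∀ x : X, conj (χ x) ∈ integralClosure ℤ ℂ := by
      intro x
      rw [mem_integralClosure_iff, ← char_inv hchar x]
      exact isIntegral_char hchar _
    let a : MonoidAlgebra (integralClosure ℤ ℂ) X := ∑ x : X, MonoidAlgebra.single x ⟨conj (χ x), hv x⟩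
    let φ : MonoidAlgebra (integralClosure ℤ ℂ) X →ₐ[integralClosure ℤ ℂ] Module.End ℂ (Fin m → ℂ) :=
      MonoidAlgebra.lift (integralClosure ℤ ℂ) _ X ρ
    haveI : Module.Finite (integralClosure ℤ ℂ) (MonoidAlgebra (integralClosure ℤ ℂ) X) := inferInstance
    have h1 : IsIntegral (integralClosure ℤ ℂ) a := IsIntegral.of_finite _ a
    have h2 := h1.map φ
    have h3 : φ a = ∑ x : X, conj (χ x) • ρ x := by
      simp only [a, map_sum, φ, MonoidAlgebra.lift_single]
      rfl
    rwa [h3] at h2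
  rw [hc'] at hint
  haveI : Nontrivial (Fin m → ℂ) := by
    haveI : Nonempty (Fin m) := ⟨⟨0, hn⟩⟩
    infer_instance
  have hinj : Function.Injective (algebraMap ℂ (Module.End ℂ (Fin m → ℂ))) := (algebraMap ℂ _).injective
  have hint2 : IsIntegral (integralClosure ℤ ℂ) c := (isIntegral_algebraMap_iff hinj).1 hint
  have hint3 : IsIntegral ℤ c := isIntegral_trans (R := ℤ) (A := integralClosure ℤ ℂ) c hint2
  have hm0 : (m : ℂ) ≠ 0 := by exact_mod_cast hn.ne'
  have hcq : c = algebraMap ℚ ℂ ((Nat.card X : ℚ) / m) := by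
    rw [eq_ratCast]
    push_cast
    rw [eq_div_iff hm0]; exact htr
  rw [hcq] at hint3
  have hint4 : IsIntegral ℤ ((Nat.card X : ℚ) / m) := (isIntegral_algebraMap_iff (algebraMap ℚ ℂ).injective).1 hint3
  obtain ⟨z, hz⟩ := IsIntegrallyClosed.isIntegral_iff.1 hint4
  have hm1 : (m : ℚ) ≠ 0 := by exact_mod_cast hn.ne'
  have hz2 : (z : ℚ) * m = Nat.card X := by
    rw [eq_intCast] at hz
    rw [hz]; field_simp
  have hz3 : z * (m : ℤ) = (Nat.card X : ℤ) := by exact_mod_cast hz2
  have : (m : ℤ) ∣ (Nat.card X : ℤ) := ⟨z, by rw [mul_comm]; exact hz3.symm⟩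
  exact_mod_cast this

end Pool.Agent.Lib.H90Q
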