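import Mathlib

/-!
# MP_a8e959_al: group theoretic definitions (helper61)

`PSolvable`, `Picky`, `SubSet` (the subnormalizer set) and `SubG` (the group generated by it).
-/

namespace Pool.Agent.Lib.H90Q

/-- The group `G` is `p`-solvable: there is a chain of normal subgroups from `⊥` to `⊤`, every index of which is a power of `p` or
prime to `p`. -/
def PSolvable (p : ℕ) (G : Type*) [Group G] : Prop :=
  ∃ (n : ℕ) (K : ℕ → Subgroup G), K 0 = ⊥ ∧ K n = ⊤ ∧ (∀ i, (K i).Normal) ∧ Monotone K ∧
    ∀ i, (∃ k, (K i).relIndex (K (i + 1)) = p ^ k) ∨ ¬ p ∣ (K i).relIndex (K (i + 1))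

variable {G : Type*} [Group G]

/-- The element `x` lies in exactly one Sylow `p`-subgroup of `G`. -/
def Picky (p : ℕ) (x : G) : Prop := ∃! Q : Sylow p G, x ∈ Q

/-- The subnormalizer set `S_G(x)`: all `g` for which `⟨x⟩` is subnormal in `⟨x, g⟩`. -/
def SubSet (x : G) : Set G :=
  {g | ((Subgroup.zpowers x).subgroupOf (Subgroup.closure {x, g})).IsSubnormal}

/-- `Sub_G(x)`, the subgroup generated by the subnormalizer set of `x`. -/
def SubG (x : G) : Subgroup G := Subgroup.closure (SubSet x)

end Pool.Agent.Lib.H90Q
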