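import Pool.Agent.Lib.H90Q.Defs
import Pool.Agent.Lib.H90Q.GT0

/-!
# MP_a8e959_al: the conclusion of Q1
-/

open scoped Classical ComplexConjugate BigOperators

noncomputable section

namespace Pool.Agent.Lib.H90Q

variable {G : Type*} [Group G]

/-- The elements `x y`, `y` of order prime to `p` in the centraliser of `x`. -/
def SecSet (p : ℕ) (x : G) : Set G :=
  {g | ∃ y, y * x = x * y ∧ (orderOf y).Coprime p ∧ g = x * y}

/-- `S` is a set `S_p(x)`: it consists of elements `x y` and contains exactly one element of every class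
of `C_G(x)` of such elements. -/
def IsReps (p : ℕ) (x : G) (S : Set G) : Prop :=
  S ⊆ SecSet p x ∧ ∀ g ∈ SecSet p x, ∃! s, s ∈ S ∧ ∃ c, c * x = x * c ∧ s = c * g * c⁻¹

/-- `Irr^S(H)`: the irreducible characters of `H` which are not zero at some element of `S`. -/
def IrrOn (H : Subgroup G) (S : Set G) : Set (G → ℂ) := {χ | χ ∈ IrrS H ∧ ∃ g ∈ S, χ g ≠ 0}

/-- The conclusion of Q1 for `x`, with `S` for `S_p(x)`. -/
def Q1Concl (p : ℕ) (x : G) (S : Set G) : Prop :=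
  ∃ f : (G → ℂ) → (G → ℂ), Set.BijOn f (IrrOn ⊤ S) (IrrOn (SubG x) S) ∧
    (∀ χ ∈ IrrOn ⊤ S, ∃ m n : ℕ, χ 1 = m ∧ f χ 1 = n ∧ padicValNat p m = padicValNat p n) ∧
    (∀ χ ∈ IrrOn ⊤ S, ∀ g ∈ S, χ g = f χ g ∨ χ g = -f χ g) ∧
    ∀ g ∈ S, Set.BijOn f (IrrOn ⊤ {g}) (IrrOn (SubG x) {g})

/-- The same with a sign which depends only on `χ`. -/
def Q1Sharp (p : ℕ) (x : G) (S : Set G) : Prop :=
  ∃ f : (G → ℂ) → (G → ℂ), Set.BijOn f (IrrOn ⊤ S) (IrrOn (SubG x) S) ∧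
    (∀ χ ∈ IrrOn ⊤ S, ∃ m n : ℕ, χ 1 = m ∧ f χ 1 = n ∧ padicValNat p m = padicValNat p n) ∧
    (∀ χ ∈ IrrOn ⊤ S, (∀ g ∈ S, χ g = f χ g) ∨ ∀ g ∈ S, χ g = -f χ g) ∧
    ∀ g ∈ S, Set.BijOn f (IrrOn ⊤ {g}) (IrrOn (SubG x) {g})

/-- The third clause follows from the others. -/
theorem bijOn_of_sign {x : G} {S : Set G} {f : (G → ℂ) → (G → ℂ)}
    (h1 : Set.BijOn f (IrrOn ⊤ S) (IrrOn (SubG x) S))
    (h2 : ∀ χ ∈ IrrOn ⊤ S, ∀ g ∈ S, χ g = f χ g ∨ χ g = -f χ g) :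
    ∀ g ∈ S, Set.BijOn f (IrrOn ⊤ {g}) (IrrOn (SubG x) {g}) := by
  intro g hg
  have hsub : ∀ (H : Subgroup G), IrrOn H {g} ⊆ IrrOn H S := by
    rintro H χ ⟨hχ, g', hg', hne⟩
    rw [Set.mem_singleton_iff] at hg'
    exact ⟨hχ, g, hg, hg' ▸ hne⟩
  refine ⟨?_, h1.2.1.mono (hsub _), ?_⟩
  · intro χ hχ
    have hm := h1.1 (hsub _ hχ)
    refine ⟨hm.1, g, rfl, ?_⟩
    obtain ⟨g', hg', hne⟩ := hχ.2
    rw [Set.mem_singleton_iff] at hg'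
    subst hg'
    intro h0
    rcases h2 χ (hsub _ hχ) g' hg with h | h
    · rw [h, h0] at hne
      exact hne rfl
    · rw [h, h0, neg_zero] at hne
      exact hne rfl
  · intro ψ hψ
    obtain ⟨χ, hχ, rfl⟩ := h1.2.2 (hsub _ hψ)
    refine ⟨χ, ⟨hχ.1, g, rfl, ?_⟩, rfl⟩
    obtain ⟨g', hg', hne⟩ := hψ.2
    rw [Set.mem_singleton_iff] at hg'
    subst hg'
    intro h0
    rcases h2 χ hχ g' hg with h | h
    · rw [h0] at h
      exact hne h.symm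
    · rw [h0] at h
      exact hne (neg_eq_zero.1 h.symm)

/-- `Q1Sharp` implies `Q1Concl`. -/
theorem Q1Sharp.concl {p : ℕ} {x : G} {S : Set G} (h : Q1Sharp p x S) : Q1Concl p x S := by
  obtain ⟨f, h1, h2, h3, h4⟩ := h
  refine ⟨f, h1, h2, fun χ hχ g hg => ?_, h4⟩
  rcases h3 χ hχ with h | h
  · exact Or.inl (h g hg)
  · exact Or.inr (h g hg)

end Pool.Agent.Lib.H90Q
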