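import Mathlib
import Pool.Agent.Lib.H90Q.GT0

/-!
# MP_a8e959_al: picky elements, the subnormalizer (helper61)
-/

namespace Pool.Agent.Lib.H90Q

variable {G : Type*} [Group G]

/-- If `x ∈ P` is picky and `g x g⁻¹ ∈ P` then `g` normalises `P`. -/
theorem gt3_conj {p : ℕ} {x : G} (hx : Picky p x) (P : Sylow p G) (hxP : x ∈ P) {g : G}
    (hg : g * x * g⁻¹ ∈ P) : g ∈ Subgroup.normalizer ((P : Subgroup G) : Set G) := by
  have h1 : x ∈ (g⁻¹ • P : Sylow p G) := by
    have h : x ∈ ((g⁻¹ • P : Sylow p G) : Subgroup G) := by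
      rw [Sylow.coe_subgroup_smul, Subgroup.mem_pointwise_smul_iff_inv_smul_mem]
      have e : (MulAut.conj g⁻¹)⁻¹ • x = g * x * g⁻¹ := by
        rw [← map_inv, inv_inv, MulAut.smul_def, MulAut.conj_apply]
      rw [e]
      exact hg
    exact h
  have h2 : (g⁻¹ • P : Sylow p G) = P := hx.unique h1 hxP
  have h3 := (Sylow.smul_eq_iff_mem_normalizer).mp h2
  exact (Subgroup.inv_mem_iff _).mp h3

/-- The centraliser of a picky element `x ∈ P` is contained in the normaliser of `P`. -/
theorem gt3_centralizer {p : ℕ} {x : G} (hx : Picky p x) (P : Sylow p G) (hxP : x ∈ P) :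
    Subgroup.centralizer {x} ≤ Subgroup.normalizer ((P : Subgroup G) : Set G) := by
  intro g hg
  refine gt3_conj hx P hxP ?_
  have h := Subgroup.mem_centralizer_iff.mp hg x rfl
  have e : g * x * g⁻¹ = x := by rw [← h, mul_inv_cancel_right]
  rw [e]; exact hxP

/-- The subnormalizer set of a picky element of an abelian Sylow subgroup `P` is the normaliser of `P`. -/
theorem gt3_subSet [Finite G] {p : ℕ} (hp : p.Prime) {x : G} (hx : Picky p x) (P : Sylow p G) (hxP : x ∈ P)
    (hP : ∀ a ∈ P, ∀ b ∈ P, a * b = b * a) :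
    SubSet x = (Subgroup.normalizer ((P : Subgroup G) : Set G) : Set G) := by
  have : Fact p.Prime := ⟨hp⟩
  ext g
  constructor
  · intro hg
    -- every member of a subnormal chain normalises `P`
    set T : Subgroup G := Subgroup.closure {x, g} with hT
    have hxT : x ∈ T := Subgroup.subset_closure (by simp)
    have hgT : g ∈ T := Subgroup.subset_closure (by simp)
    have key : ∀ A : Subgroup T, A.IsSubnormal → (∀ a ∈ A, (a : G) ∈ Subgroup.normalizer ((P : Subgroup G) : Set G)) →
        (⟨x, hxT⟩ : T) ∈ A → ∀ a : T, (a : G) ∈ Subgroup.normalizer ((P : Subgroup G) : Set G) := by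
      intro A hA
      induction hA with
      | top => intro h _ a; exact h a (Subgroup.mem_top a)
      | step A B hAB hB hn ih =>
        intro h hxA
        refine ih ?_ (hAB hxA)
        intro b hb
        refine gt3_conj hx P hxP ?_
        have h1 : b * ⟨x, hxT⟩ * b⁻¹ ∈ A := by
          have h2 := hn.conj_mem (⟨⟨x, hxT⟩, hAB hxA⟩ : B) (by
            rw [Subgroup.mem_subgroupOf]; exact hxA) ⟨b, hb⟩
          rw [Subgroup.mem_subgroupOf] at h2
          exact h2
        have h2 : (b : G) * x * (b : G)⁻¹ ∈ Subgroup.normalizer ((P : Subgroup G) : Set G) := h _ h1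
        -- a `p`-element normalising `P` lies in `P`
        have h3 : IsPGroup p (Subgroup.zpowers ((b : G) * x * (b : G)⁻¹)) := by
          obtain ⟨k, hk⟩ := P.2 ⟨x, hxP⟩
          have hk' : x ^ p ^ k = 1 := congrArg Subtype.val hk
          have h4 : ((b : G) * x * (b : G)⁻¹) ^ p ^ k = 1 := by
            rw [conj_pow, hk', mul_one, mul_inv_cancel]
          have h5 : Nat.card (Subgroup.zpowers ((b : G) * x * (b : G)⁻¹)) ∣ p ^ k := by
            rw [Nat.card_zpowers]; exact orderOf_dvd_of_pow_eq_one h4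
          obtain ⟨j, -, hj⟩ := (Nat.dvd_prime_pow hp).mp h5
          exact IsPGroup.of_card hj
        have h4 := h3.inf_normalizer_sylow P
        have h5 : (b : G) * x * (b : G)⁻¹ ∈ Subgroup.zpowers ((b : G) * x * (b : G)⁻¹) ⊓
            Subgroup.normalizer ((P : Subgroup G) : Set G) :=
          ⟨Subgroup.mem_zpowers _, h2⟩
        exact ((SetLike.ext_iff.mp h4 _).mp h5).2
    refine key _ hg ?_ ?_ ⟨g, hgT⟩
    · intro a ha
      have h1 : (a : G) ∈ Subgroup.zpowers x := Subgroup.mem_subgroupOf.mp ha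
      have h2 : Subgroup.zpowers x ≤ (P : Subgroup G) := by
        rw [Subgroup.zpowers_le]; exact hxP
      exact Subgroup.le_normalizer (h2 h1)
    · rw [Subgroup.mem_subgroupOf]; exact Subgroup.mem_zpowers x
  · intro hg
    change ((Subgroup.zpowers x).subgroupOf (Subgroup.closure {x, g})).IsSubnormal
    set T : Subgroup G := Subgroup.closure {x, g} with hT
    have hTN : T ≤ Subgroup.normalizer ((P : Subgroup G) : Set G) := by
      rw [hT, Subgroup.closure_le]
      intro a ha
      rcases ha with rfl | ha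
      · exact Subgroup.le_normalizer hxP
      · rw [Set.mem_singleton_iff.mp ha]; exact hg
    have hxP' : Subgroup.zpowers x ≤ (P : Subgroup G) := by
      rw [Subgroup.zpowers_le]; exact hxP
    refine Subgroup.IsSubnormal.step _ ((P : Subgroup G).subgroupOf T) ?_ ?_ ?_
    · intro a ha
      rw [Subgroup.mem_subgroupOf] at ha ⊢
      exact hxP' ha
    · refine Subgroup.Normal.isSubnormal ⟨fun a ha t => ?_⟩
      rw [Subgroup.mem_subgroupOf] at ha ⊢
      exact (Subgroup.mem_normalizer_iff.mp (hTN t.2) (a : G)).mp ha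
    · refine ⟨fun a ha b => ?_⟩
      have hb : ((b : T) : G) ∈ (P : Subgroup G) := Subgroup.mem_subgroupOf.mp b.2
      have ha' : ((a : T) : G) ∈ (P : Subgroup G) := Subgroup.mem_subgroupOf.mp a.2
      have h1 : b * a * b⁻¹ = a := by
        have h2 : ((b : T) : G) * ((a : T) : G) = ((a : T) : G) * ((b : T) : G) := hP _ hb _ ha'
        have h3 : b * a = a * b := Subtype.ext (Subtype.ext h2)
        rw [h3, mul_inv_cancel_right]
      rw [h1]; exact ha

/-- For a picky element `x` of an abelian Sylow subgroup `P`: `Sub_G(x) = N_G(P)`. -/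
theorem gt3_subG [Finite G] {p : ℕ} (hp : p.Prime) {x : G} (hx : Picky p x) (P : Sylow p G) (hxP : x ∈ P)
    (hP : ∀ a ∈ P, ∀ b ∈ P, a * b = b * a) :
    SubG x = Subgroup.normalizer ((P : Subgroup G) : Set G) := by
  unfold SubG
  rw [gt3_subSet hp hx P hxP hP, Subgroup.closure_eq]

end Pool.Agent.Lib.H90Q
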