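import Mathlib
import Pool.Agent.Lib.H90Q.GT0

/-!
# MP_a8e959_al: Hall and Higman for an abelian Sylow subgroup (helper61)
-/

namespace Pool.Agent.Lib.H90Q

variable {G : Type*} [Group G]

/-- A group whose centre has index prime to `p`: the product of two elements of order prime to `p` has order prime to `p`
(`g ↦ g ^ |G : Z(G)|` is a homomorphism into the centre). -/
private lemma gt1_mul {M : Type*} [Group M] [Finite M] {p : ℕ} (hp : p.Prime)
    (hm : ¬ p ∣ (Subgroup.center M).index) {a b : M} (ha : ¬ p ∣ orderOf a) (hb : ¬ p ∣ orderOf b) :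
    ¬ p ∣ orderOf (a * b) := by
  set m := (Subgroup.center M).index with hmdef
  have h1 : ∀ g : M, g ^ m ∈ Subgroup.center M := fun g => by
    have h := (MonoidHom.transferCenterPow M g).2
    rwa [MonoidHom.transferCenterPow_apply] at h
  have h2 : (a * b) ^ m = a ^ m * b ^ m := by
    have h := congrArg Subtype.val ((MonoidHom.transferCenterPow M).map_mul a b)
    rw [Subgroup.coe_mul, MonoidHom.transferCenterPow_apply, MonoidHom.transferCenterPow_apply,
      MonoidHom.transferCenterPow_apply] at h
    exact h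
  have h3 : (a * b) ^ (m * (orderOf a * orderOf b)) = 1 := by
    rw [pow_mul, h2]
    have hc : Commute (a ^ m) (b ^ m) := (Subgroup.mem_center_iff.mp (h1 a) (b ^ m)).symm
    rw [hc.mul_pow, ← pow_mul, ← pow_mul]
    have e1 : a ^ (m * (orderOf a * orderOf b)) = 1 := by
      rw [show m * (orderOf a * orderOf b) = orderOf a * (m * orderOf b) by ring, pow_mul,
        pow_orderOf_eq_one, one_pow]
    have e2 : b ^ (m * (orderOf a * orderOf b)) = 1 := by
      rw [show m * (orderOf a * orderOf b) = orderOf b * (m * orderOf a) by ring, pow_mul,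
        pow_orderOf_eq_one, one_pow]
    rw [e1, e2, one_mul]
  intro hd
  have h4 := hd.trans (orderOf_dvd_of_pow_eq_one h3)
  rcases (Nat.Prime.dvd_mul hp).mp h4 with h | h
  · exact hm h
  · rcases (Nat.Prime.dvd_mul hp).mp h with h | h
    · exact ha h
    · exact hb h

/-- If no normal subgroup except `⊥` has order prime to `p`, `M` is normal in `G` and the centre of `M` has index prime to `p` in
`M`, then `M` is a `p`-group. -/
private lemma gt1_pgroup [Finite G] {p : ℕ} (hp : p.Prime)
    (hno : ∀ R : Subgroup G, R.Normal → ¬ p ∣ Nat.card R → R = ⊥) (M : Subgroup G) (hM : M.Normal)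
    (hm : ¬ p ∣ (Subgroup.center M).index) : IsPGroup p M := by
  have hmul : ∀ {a b : G}, a ∈ M → b ∈ M → ¬ p ∣ orderOf a → ¬ p ∣ orderOf b → ¬ p ∣ orderOf (a * b) := by
    intro a b ha hb h1 h2
    have h := gt1_mul (M := M) hp hm (a := ⟨a, ha⟩) (b := ⟨b, hb⟩)
      (by rwa [Subgroup.orderOf_mk]) (by rwa [Subgroup.orderOf_mk])
    rwa [← Subgroup.orderOf_coe] at h
  let R : Subgroup G :=
    { carrier := {g | g ∈ M ∧ ¬ p ∣ orderOf g}
      mul_mem' := fun {a b} ha hb => ⟨M.mul_mem ha.1 hb.1, hmul ha.1 hb.1 ha.2 hb.2⟩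
      one_mem' := ⟨M.one_mem, by rw [orderOf_one]; exact hp.one_lt.ne' ∘ Nat.dvd_one.mp⟩
      inv_mem' := fun {a} ha => ⟨M.inv_mem ha.1, by rw [orderOf_inv]; exact ha.2⟩ }
  have hRn : R.Normal := ⟨fun a ha g => ⟨hM.conj_mem a ha.1 g, by
    have e : orderOf (g * a * g⁻¹) = orderOf a := by
      rw [← MulAut.conj_apply, MulEquiv.orderOf_eq]
    rw [e]; exact ha.2⟩⟩
  have hRc : ¬ p ∣ Nat.card R := by
    intro hd
    have : Fact p.Prime := ⟨hp⟩
    obtain ⟨g, hg⟩ := exists_prime_orderOf_dvd_card' (G := R) p hd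
    have := g.2.2
    rw [Subgroup.orderOf_coe, hg] at this
    exact this dvd_rfl
  have hR := hno R hRn hRc
  intro g
  obtain ⟨a, b, hb, hab⟩ := Nat.exists_eq_pow_mul_and_not_dvd (orderOf_pos (g : G)).ne' p hp.ne_one
  refine ⟨a, ?_⟩
  have h1 : (g : G) ^ p ^ a ∈ R := by
    refine ⟨M.pow_mem g.2 _, ?_⟩
    have e : orderOf ((g : G) ^ p ^ a) = b := by
      rw [orderOf_pow, hab, Nat.gcd_eq_right (Dvd.intro _ rfl), Nat.mul_div_cancel_left _ (pow_pos hp.pos a)]
    rw [e]; exact hb
  rw [hR, Subgroup.mem_bot] at h1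
  exact Subtype.ext (by simpa using h1)

/-- **Hall and Higman**, abelian Sylow subgroup: if `G` is `p`-solvable, has no normal subgroup of order prime to `p` except the
trivial one and has an abelian Sylow `p`-subgroup `P`, then `P` is normal and contains its centraliser. -/
theorem gt1_hall_higman [Finite G] {p : ℕ} (hp : p.Prime) (hs : PSolvable p G)
    (hno : ∀ R : Subgroup G, R.Normal → ¬ p ∣ Nat.card R → R = ⊥) (P : Sylow p G)
    (hP : ∀ a ∈ P, ∀ b ∈ P, a * b = b * a) :
    (P : Subgroup G).Normal ∧ Subgroup.centralizer ((P : Subgroup G) : Set G) ≤ (P : Subgroup G) := by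
  have : Fact p.Prime := ⟨hp⟩
  obtain ⟨n, K, h0, hn, hKn, hmono, hidx⟩ := hs
  set Q : Subgroup G := (P : Subgroup G).normalCore with hQ
  have hQP : Q ≤ (P : Subgroup G) := Subgroup.normalCore_le _
  have hQn : Q.Normal := Subgroup.normalCore_normal _
  set C : Subgroup G := Subgroup.centralizer (Q : Set G) with hC
  have hCn : C.Normal := Subgroup.normal_centralizer
  have key : ∀ i, K i ⊓ C ≤ Q := by
    intro i
    induction i with
    | zero => rw [h0, bot_inf_eq]; exact bot_le
    | succ i ih =>
      have := hKn i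
      have := hKn (i + 1)
      set M : Subgroup G := K (i + 1) ⊓ C with hM
      have hMn : M.Normal := Subgroup.normal_inf_normal _ _
      have hMP : IsPGroup p M → M ≤ Q := fun h =>
        Subgroup.normal_le_normalCore.mpr (h.le_sylow_of_normal P)
      refine hMP ?_
      -- the index of `Q` in `M` divides the index of `K i` in `K (i+1)`
      have e1 : Q.relIndex M ∣ (K i).relIndex (K (i + 1)) := by
        have e2 : (K i ⊓ M).relIndex M = (K i).relIndex M := Subgroup.inf_relIndex_right _ _
        have e3 : (K i ⊓ M) ≤ Q := by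
          refine le_trans ?_ ih
          exact le_inf inf_le_left (inf_le_right.trans inf_le_right)
        have e4 : Q.relIndex M ∣ (K i ⊓ M).relIndex M := Subgroup.relIndex_dvd_of_le_left M e3
        rw [e2] at e4
        refine e4.trans ?_
        have e5 : ∀ T : Subgroup G, (K i).relIndex T = Nat.card (T.map (QuotientGroup.mk' (K i))) := by
          intro T
          rw [← Subgroup.relIndex_ker, QuotientGroup.ker_mk']
        rw [e5, e5]
        exact Subgroup.card_dvd_of_le (Subgroup.map_mono inf_le_left)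
      have hpow : ∀ g ∈ M, g ^ (Q.relIndex M) ∈ Q := by
        intro g hg
        have h1 : Q.relIndex M = Nat.card (M.map (QuotientGroup.mk' Q)) := by
          rw [← Subgroup.relIndex_ker, QuotientGroup.ker_mk']
        have h2 : (QuotientGroup.mk' Q g) ^ (Q.relIndex M) = 1 := by
          rw [h1]
          have h3 := pow_card_eq_one' (G := M.map (QuotientGroup.mk' Q))
            (x := ⟨QuotientGroup.mk' Q g, Subgroup.mem_map_of_mem _ hg⟩)
          exact congrArg Subtype.val h3
        rw [← map_pow] at h2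
        exact (QuotientGroup.eq_one_iff _).mp h2
      rcases hidx i with ⟨k, hk⟩ | hk
      · rw [hk] at e1
        obtain ⟨j, -, hj⟩ := (Nat.dvd_prime_pow hp).mp e1
        intro g
        have h1 : (g : G) ^ (Q.relIndex M) ∈ (P : Subgroup G) := hQP (hpow g g.2)
        obtain ⟨l, hl⟩ := P.2 ⟨_, h1⟩
        refine ⟨j + l, ?_⟩
        have h2 : ((g : G) ^ (Q.relIndex M)) ^ p ^ l = 1 := congrArg Subtype.val hl
        rw [hj, ← pow_mul, ← pow_add] at h2
        exact Subtype.ext (by simpa using h2)
      · have hm : ¬ p ∣ Q.relIndex M := fun h => hk (h.trans e1)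
        refine gt1_pgroup hp hno M hMn (fun h => hm (h.trans ?_))
        refine Subgroup.index_dvd_of_le ?_
        intro g hg
        rw [Subgroup.mem_center_iff]
        intro a
        have h1 : (g : G) ∈ Q := Subgroup.mem_subgroupOf.mp hg
        have h2 : (a : G) ∈ C := (inf_le_right : M ≤ C) a.2
        have h3 := Subgroup.mem_centralizer_iff.mp h2 (g : G) h1
        exact Subtype.ext h3.symm
  have hCQ : C ≤ Q := by
    have h := key n
    rwa [hn, top_inf_eq] at h
  have hPC : (P : Subgroup G) ≤ C := by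
    intro a ha
    rw [Subgroup.mem_centralizer_iff]
    intro b hb
    exact hP b (hQP hb) a ha
  have hPQ : (P : Subgroup G) = Q := le_antisymm (hPC.trans hCQ) hQP
  refine ⟨hPQ ▸ hQn, ?_⟩
  have h : Subgroup.centralizer (((P : Subgroup G)) : Set G) = C := by
    rw [hC, ← hPQ]
  rw [h, hPQ]
  exact hCQ

end Pool.Agent.Lib.H90Q
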