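import Mathlib
import Pool.Agent.Lib.H90Q.GT1

/-!
# MP_a8e959_al: the normal subgroups `L = O_{p'}(G)` and `L P` (helper61)
-/

namespace Pool.Agent.Lib.H90Q

variable {G : Type*} [Group G]

/-- A quotient of a `p`-solvable finite group is `p`-solvable. -/
theorem gt2_quot {p : ℕ} (hp : p.Prime) (hs : PSolvable p G) (N : Subgroup G) [N.Normal] :
    PSolvable p (G ⧸ N) := by
  obtain ⟨n, K, h0, hn, hKn, hmono, hidx⟩ := hs
  refine ⟨n, fun i => (K i).map (QuotientGroup.mk' N), ?_, ?_, ?_, ?_, ?_⟩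
  · simp only [h0, Subgroup.map_bot]
  · simp only [hn]
    exact Subgroup.map_top_of_surjective _ (QuotientGroup.mk'_surjective N)
  · exact fun i => (hKn i).map _ (QuotientGroup.mk'_surjective N)
  · exact fun i j hij => Subgroup.map_mono (hmono hij)
  · intro i
    have := hKn (i + 1)
    have hle : K i ≤ K (i + 1) := hmono (Nat.le_succ i)
    have h1 : ((K i).map (QuotientGroup.mk' N)).relIndex ((K (i + 1)).map (QuotientGroup.mk' N)) ∣
        (K i).relIndex (K (i + 1)) := by
      rw [Subgroup.relIndex_map_map, QuotientGroup.ker_mk']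
      have h2 : K (i + 1) ⊔ N = K (i + 1) ⊔ (K i ⊔ N) := by
        rw [← sup_assoc, sup_eq_left.mpr hle]
      rw [h2, Subgroup.relIndex_sup_right]
      exact Subgroup.relIndex_dvd_of_le_left _ le_sup_left
    rcases hidx i with ⟨k, hk⟩ | hk
    · left
      rw [hk] at h1
      obtain ⟨j, -, hj⟩ := (Nat.dvd_prime_pow hp).mp h1
      exact ⟨j, hj⟩
    · right
      exact fun h => hk (h.trans h1)

/-- There is a largest normal subgroup of order prime to `p`. -/
theorem gt2_core [Finite G] {p : ℕ} (hp : p.Prime) :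
    ∃ L : Subgroup G, L.Normal ∧ ¬ p ∣ Nat.card L ∧
      ∀ M : Subgroup G, M.Normal → ¬ p ∣ Nat.card M → M ≤ L := by
  have hne : ∃ L : Subgroup G, L ∈ {L : Subgroup G | L.Normal ∧ ¬ p ∣ Nat.card L} :=
    ⟨⊥, Subgroup.normal_bot, by rw [Subgroup.card_bot]; exact hp.one_lt.ne' ∘ Nat.dvd_one.mp⟩
  obtain ⟨L, hL, hmax⟩ := Set.exists_max_image {L : Subgroup G | L.Normal ∧ ¬ p ∣ Nat.card L}
    (fun L => Nat.card L) (Set.toFinite _) hne
  refine ⟨L, hL.1, hL.2, fun M hM hMp => ?_⟩
  have := hL.1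
  have h1 : Nat.card L * L.relIndex (L ⊔ M) = Nat.card (L ⊔ M : Subgroup G) := by
    have h := Subgroup.relIndex_mul_relIndex (⊥ : Subgroup G) L (L ⊔ M) bot_le le_sup_left
    rwa [Subgroup.relIndex_bot_left, Subgroup.relIndex_bot_left] at h
  have h2 : ¬ p ∣ Nat.card (L ⊔ M : Subgroup G) := by
    rw [← h1, Subgroup.relIndex_sup_left]
    intro h
    rcases (Nat.Prime.dvd_mul hp).mp h with h | h
    · exact hL.2 h
    · exact hMp (h.trans (Subgroup.relIndex_dvd_card _ _))
  have h3 := hmax (L ⊔ M) ⟨Subgroup.sup_normal L M, h2⟩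
  have h4 : L = L ⊔ M := Subgroup.eq_of_le_of_card_ge le_sup_left h3
  rw [h4]
  exact le_sup_right

/-- `G` `p`-solvable with abelian Sylow `p`-subgroup `P`: the normal subgroup `L = O_{p'}(G)` satisfies: `L P` is normal in `G`
and contains the centraliser of `P`. -/
theorem gt2_LP [Finite G] {p : ℕ} (hp : p.Prime) (hs : PSolvable p G) (P : Sylow p G)
    (hP : ∀ a ∈ P, ∀ b ∈ P, a * b = b * a) :
    ∃ L : Subgroup G, L.Normal ∧ ¬ p ∣ Nat.card L ∧
      (∀ M : Subgroup G, M.Normal → ¬ p ∣ Nat.card M → M ≤ L) ∧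
      ((P : Subgroup G) ⊔ L).Normal ∧ Subgroup.centralizer ((P : Subgroup G) : Set G) ≤ (P : Subgroup G) ⊔ L := by
  have : Fact p.Prime := ⟨hp⟩
  obtain ⟨L, hLn, hLp, hLmax⟩ := gt2_core (G := G) hp
  refine ⟨L, hLn, hLp, hLmax, ?_⟩
  have hf : Function.Surjective (QuotientGroup.mk' L) := QuotientGroup.mk'_surjective L
  have hno : ∀ R : Subgroup (G ⧸ L), R.Normal → ¬ p ∣ Nat.card R → R = ⊥ := by
    intro R hR hRp
    have h1 : Nat.card (R.comap (QuotientGroup.mk' L)) = Nat.card L * Nat.card R := by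
      have h2 := Subgroup.relIndex_mul_relIndex (⊥ : Subgroup G) L (R.comap (QuotientGroup.mk' L)) bot_le
        (by
          have h := Subgroup.ker_le_comap (QuotientGroup.mk' L) R
          rwa [QuotientGroup.ker_mk'] at h)
      rw [Subgroup.relIndex_bot_left, Subgroup.relIndex_bot_left] at h2
      rw [← h2]
      congr 1
      have h3 : (QuotientGroup.mk' L).ker.relIndex (R.comap (QuotientGroup.mk' L)) =
          Nat.card ((R.comap (QuotientGroup.mk' L)).map (QuotientGroup.mk' L)) := Subgroup.relIndex_ker _ _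
      rw [QuotientGroup.ker_mk', Subgroup.map_comap_eq_self_of_surjective hf] at h3
      exact h3
    have h2 := hLmax (R.comap (QuotientGroup.mk' L)) (hR.comap _) (by
      rw [h1]
      intro h
      rcases (Nat.Prime.dvd_mul hp).mp h with h | h
      · exact hLp h
      · exact hRp h)
    rw [eq_bot_iff]
    intro r hr
    obtain ⟨g, rfl⟩ := hf r
    rw [Subgroup.mem_bot]
    exact (QuotientGroup.eq_one_iff g).mpr (h2 hr)
  have h := gt1_hall_higman hp (gt2_quot hp hs L) hno (P.mapSurjective hf) (by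
    intro a ha b hb
    have ha' : a ∈ (P : Subgroup G).map (QuotientGroup.mk' L) := ha
    have hb' : b ∈ (P : Subgroup G).map (QuotientGroup.mk' L) := hb
    obtain ⟨a, ha1, rfl⟩ := Subgroup.mem_map.mp ha'
    obtain ⟨b, hb1, rfl⟩ := Subgroup.mem_map.mp hb'
    rw [← map_mul, ← map_mul, hP a ha1 b hb1])
  rw [Sylow.coe_mapSurjective] at h
  have e : ((P : Subgroup G).map (QuotientGroup.mk' L)).comap (QuotientGroup.mk' L) = (P : Subgroup G) ⊔ L := by
    rw [Subgroup.comap_map_eq, QuotientGroup.ker_mk']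
  refine ⟨e ▸ h.1.comap _, ?_⟩
  rw [← e]
  intro c hc
  rw [Subgroup.mem_comap]
  refine h.2 ?_
  rw [Subgroup.mem_centralizer_iff]
  intro b hb
  obtain ⟨b, hb, rfl⟩ := hb
  rw [← map_mul, ← map_mul, Subgroup.mem_centralizer_iff.mp hc b hb]

end Pool.Agent.Lib.H90Q
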