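import Mathlib
import Pool.Agent.Lib.H90Q.GT2
import Pool.Agent.Lib.H90Q.GT3

/-!
# MP_a8e959_al: the set-up (section D of the proof) (helper61)
-/

namespace Pool.Agent.Lib.H90Q

variable {G : Type*} [Group G]

/-- The situation in which the correspondence is constructed: `L` is a normal subgroup of order prime to `p`, `P` an abelian
`p`-subgroup, `P L` is normal in `G`, `N_G(P) = P H` with `H` of order prime to `p`, `G = L P H`, `L ∩ H = C_L(P) = C_L(x)`,
`H / (L ∩ H)` is abelian and `C_G(x) ≤ N_G(P)`. -/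
structure Setup (p : ℕ) (L P H : Subgroup G) (x : G) : Prop where
  hLn : L.Normal
  hLp : ¬ p ∣ Nat.card L
  hPp : IsPGroup p P
  hPab : ∀ a ∈ P, ∀ b ∈ P, a * b = b * a
  hPL : (P ⊔ L).Normal
  hHN : H ≤ Subgroup.normalizer (P : Set G)
  hHp : ¬ p ∣ Nat.card H
  hN : ∀ g ∈ Subgroup.normalizer (P : Set G), ∃ u ∈ P, ∃ h ∈ H, g = u * h
  hG : ∀ g : G, ∃ l ∈ L, ∃ u ∈ P, ∃ h ∈ H, g = l * u * h
  hC : L ⊓ H = L ⊓ Subgroup.centralizer (P : Set G)
  hCx : L ⊓ Subgroup.centralizer {x} = L ⊓ Subgroup.centralizer (P : Set G)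
  hab : ∀ a ∈ H, ∀ b ∈ H, a * b * a⁻¹ * b⁻¹ ∈ L
  hxP : x ∈ P
  hxN : Subgroup.centralizer {x} ≤ Subgroup.normalizer (P : Set G)

/-- An element of a `p`-group which lies in a subgroup of order prime to `p` is trivial. -/
private lemma gt5_one [Finite G] {p : ℕ} (hp : p.Prime) {P : Subgroup G} (hPp : IsPGroup p P) {K : Subgroup G}
    (hK : ¬ p ∣ Nat.card K) {w : G} (hw : w ∈ P) (hwK : w ∈ K) : w = 1 := by
  obtain ⟨k, hk⟩ := hPp ⟨w, hw⟩
  have hk' : w ^ p ^ k = 1 := congrArg Subtype.val hk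
  have h0 : orderOf w ∣ Nat.card K := by
    have h := orderOf_dvd_natCard (⟨w, hwK⟩ : K)
    rwa [Subgroup.orderOf_mk] at h
  have h1 : orderOf w ∣ Nat.gcd (p ^ k) (Nat.card K) := Nat.dvd_gcd (orderOf_dvd_of_pow_eq_one hk') h0
  have h2 : Nat.gcd (p ^ k) (Nat.card K) = 1 := Nat.Coprime.pow_left k ((Nat.Prime.coprime_iff_not_dvd hp).mpr hK)
  rw [h2, Nat.dvd_one] at h1
  exact orderOf_eq_one_iff.mp h1

/-- The set-up exists for every picky element of an abelian Sylow `p`-subgroup with abelian automiser of a `p`-solvable group. -/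
theorem gt5_setup [Finite G] {p : ℕ} (hp : p.Prime) (hs : PSolvable p G) (P : Sylow p G)
    (hP : ∀ a ∈ P, ∀ b ∈ P, a * b = b * a)
    (hab : ∀ a ∈ Subgroup.normalizer ((P : Subgroup G) : Set G), ∀ b ∈ Subgroup.normalizer ((P : Subgroup G) : Set G),
      a * b * a⁻¹ * b⁻¹ ∈ Subgroup.centralizer ((P : Subgroup G) : Set G))
    {x : G} (hx : Picky p x) (hxP : x ∈ P) :
    ∃ L H : Subgroup G, Setup p L (P : Subgroup G) H x := by
  have : Fact p.Prime := ⟨hp⟩
  obtain ⟨L, hLn, hLp, -, hPL, hcent⟩ := gt2_LP hp hs P hP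
  set N : Subgroup G := Subgroup.normalizer ((P : Subgroup G) : Set G) with hNdef
  have hPN : (P : Subgroup G) ≤ N := Subgroup.le_normalizer
  -- the complement
  set P' : Subgroup N := (P : Subgroup G).subgroupOf N with hP'
  have hP'n : P'.Normal := ⟨fun a ha t => by
    rw [Subgroup.mem_subgroupOf] at ha ⊢
    exact (Subgroup.mem_normalizer_iff.mp t.2 (a : G)).mp ha⟩
  have hco : Nat.Coprime (Nat.card P') P'.index := by
    have h := Sylow.card_coprime_index (P.subtype hPN)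
    rwa [Sylow.coe_subtype] at h
  have hndvd : ¬ p ∣ P'.index := by
    have h := Sylow.not_dvd_index (P.subtype hPN)
    rwa [Sylow.coe_subtype] at h
  obtain ⟨H', hH'⟩ := Subgroup.exists_right_complement'_of_coprime hco
  have hH'c : ¬ p ∣ Nat.card H' := by
    rw [← hH'.symm.index_eq_card]; exact hndvd
  have hP'p : IsPGroup p P' := by
    have h := (P.subtype hPN).2
    rwa [Sylow.coe_subtype] at h
  have hdec : ∀ g : N, ∃ u ∈ P', ∃ h ∈ H', u * h = g := by
    intro g
    obtain ⟨⟨u, h⟩, hu, -⟩ := hH'.existsUnique g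
    exact ⟨u, u.2, h, h.2, hu⟩
  set H : Subgroup G := H'.map N.subtype with hH
  have hHN : H ≤ N := Subgroup.map_subtype_le H'
  have hHcard : Nat.card H = Nat.card H' := Subgroup.card_map_of_injective N.subtype_injective
  have hHp : ¬ p ∣ Nat.card H := by rw [hHcard]; exact hH'c
  have hN : ∀ g ∈ N, ∃ u ∈ (P : Subgroup G), ∃ h ∈ H, g = u * h := by
    intro g hg
    obtain ⟨u, hu, h, hh, e⟩ := hdec ⟨g, hg⟩
    exact ⟨u, Subgroup.mem_subgroupOf.mp hu, h, Subgroup.mem_map_of_mem _ hh, (congrArg Subtype.val e).symm⟩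
  -- elements of `L` normalising `P`
  have hLH : ∀ l ∈ L, l ∈ N → l ∈ H := by
    intro l hl hlN
    set M' : Subgroup N := L.subgroupOf N with hM'
    have hM'n : M'.Normal := by rw [hM']; exact Subgroup.normal_subgroupOf
    have hM'c : Nat.card M' ∣ Nat.card L := by
      have h1 : Nat.card M' = Nat.card (M'.map N.subtype) :=
        (Subgroup.card_map_of_injective N.subtype_injective).symm
      rw [h1]
      refine Subgroup.card_dvd_of_le ?_
      rw [Subgroup.map_le_iff_le_comap]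
      exact le_rfl
    have hc : ¬ p ∣ Nat.card (M' ⊔ H' : Subgroup N) := by
      have h1 : Nat.card M' * M'.relIndex (M' ⊔ H') = Nat.card (M' ⊔ H' : Subgroup N) := by
        have h := Subgroup.relIndex_mul_relIndex (⊥ : Subgroup N) M' (M' ⊔ H') bot_le le_sup_left
        rwa [Subgroup.relIndex_bot_left, Subgroup.relIndex_bot_left] at h
      rw [← h1, Subgroup.relIndex_sup_left]
      intro h
      rcases (Nat.Prime.dvd_mul hp).mp h with h | h
      · exact hLp (h.trans hM'c)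
      · exact hH'c (h.trans (Subgroup.relIndex_dvd_card _ _))
    obtain ⟨u, hu, h, hh, e⟩ := hdec ⟨l, hlN⟩
    have h1 : u ∈ M' ⊔ H' := by
      have h2 : u = ⟨l, hlN⟩ * h⁻¹ := by rw [← e, mul_inv_cancel_right]
      rw [h2]
      exact Subgroup.mul_mem _ (Subgroup.mem_sup_left (Subgroup.mem_subgroupOf.mpr hl))
        (Subgroup.mem_sup_right (H'.inv_mem hh))
    have h2 : u = 1 := gt5_one hp hP'p hc hu h1
    rw [h2, one_mul] at e
    have h3 : (h : G) = l := congrArg Subtype.val e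
    rw [← h3]
    exact Subgroup.mem_map_of_mem _ hh
  have hPLone : ∀ w ∈ (P : Subgroup G), w ∈ L → w = 1 := fun w hw hwL => gt5_one hp P.2 hLp hw hwL
  have hPHone : ∀ w ∈ (P : Subgroup G), w ∈ H → w = 1 := fun w hw hwH => gt5_one hp P.2 hHp hw hwH
  have hLC : ∀ l ∈ L, l ∈ N → l ∈ Subgroup.centralizer ((P : Subgroup G) : Set G) := by
    intro l hl hlN
    rw [Subgroup.mem_centralizer_iff]
    intro v hv
    have h1 : l * v * l⁻¹ * v⁻¹ ∈ (P : Subgroup G) :=
      Subgroup.mul_mem _ ((Subgroup.mem_normalizer_iff.mp hlN v).mp hv) (Subgroup.inv_mem _ hv)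
    have h2 : l * v * l⁻¹ * v⁻¹ ∈ L := by
      have h3 : l * v * l⁻¹ * v⁻¹ = l * (v * l⁻¹ * v⁻¹) := by group
      rw [h3]
      exact L.mul_mem hl (hLn.conj_mem _ (L.inv_mem hl) v)
    have h3 := hPLone _ h1 h2
    have h4 : l * v = v * l := by
      calc l * v = (l * v * l⁻¹ * v⁻¹) * (v * l) := by group
        _ = v * l := by rw [h3, one_mul]
    exact h4.symm
  have hcN : Subgroup.centralizer ((P : Subgroup G) : Set G) ≤ N := by
    intro c hc
    rw [hNdef, Subgroup.mem_normalizer_iff]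
    intro v
    constructor
    · intro hv
      have h1 := Subgroup.mem_centralizer_iff.mp hc v hv
      rw [← h1, mul_inv_cancel_right]; exact hv
    · intro hv
      have h1 := Subgroup.mem_centralizer_iff.mp hc _ hv
      have h2 : c * v * c⁻¹ = v := by
        have h3 : c * v * c⁻¹ * c = c * (c * v * c⁻¹) := h1
        have h4 : c * v = c * (c * v * c⁻¹) := by rwa [inv_mul_cancel_right] at h3
        exact (mul_left_cancel h4).symm
      rw [← h2]; exact hv
  have hC : L ⊓ H = L ⊓ Subgroup.centralizer ((P : Subgroup G) : Set G) := by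
    apply le_antisymm
    · exact fun l hl => ⟨hl.1, hLC l hl.1 (hHN hl.2)⟩
    · exact fun l hl => ⟨hl.1, hLH l hl.1 (hcN hl.2)⟩
  have hxN : Subgroup.centralizer {x} ≤ N := gt3_centralizer hx P hxP
  refine ⟨L, H, hLn, hLp, P.2, hP, hPL, hHN, hHp, hN, ?_, hC, ?_, ?_, hxP, hxN⟩
  · intro g
    have h1 : N ⊔ ((P : Subgroup G) ⊔ L) = ⊤ := Sylow.normalizer_sup_eq_top' P le_sup_left
    have h2 : L ⊔ N = ⊤ := by
      rw [← h1, ← sup_assoc, sup_eq_left.mpr hPN, sup_comm]
    have h3 : g ∈ ((L ⊔ N : Subgroup G) : Set G) := by rw [h2]; exact Set.mem_univ g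
    rw [Subgroup.normal_mul] at h3
    obtain ⟨l, hl, m, hm, e⟩ := Set.mem_mul.mp h3
    obtain ⟨u, hu, h, hh, e2⟩ := hN m hm
    exact ⟨l, hl, u, hu, h, hh, by rw [← e, e2, mul_assoc]⟩
  · apply le_antisymm
    · exact fun l hl => ⟨hl.1, hLC l hl.1 (hxN hl.2)⟩
    · intro l hl
      refine ⟨hl.1, Subgroup.mem_centralizer_iff.mpr ?_⟩
      intro y hy
      rw [Set.mem_singleton_iff.mp hy]
      exact Subgroup.mem_centralizer_iff.mp hl.2 x hxP
  · intro a ha b hb
    set c : G := a * b * a⁻¹ * b⁻¹ with hc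
    have hcH : c ∈ H := H.mul_mem (H.mul_mem (H.mul_mem ha hb) (H.inv_mem ha)) (H.inv_mem hb)
    have hcP : c ∈ (((P : Subgroup G) ⊔ L : Subgroup G) : Set G) := hcent (hab a (hHN ha) b (hHN hb))
    rw [Subgroup.mul_normal] at hcP
    obtain ⟨u, hu, l, hl, e⟩ := Set.mem_mul.mp hcP
    have hlN : l ∈ N := by
      have h1 : l = u⁻¹ * c := by rw [← e, inv_mul_cancel_left]
      rw [h1]
      exact N.mul_mem (N.inv_mem (hPN hu)) (hHN hcH)
    have hlH : l ∈ H := hLH l hl hlN
    have hu1 : u = 1 := by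
      refine hPHone u hu ?_
      have h1 : u = c * l⁻¹ := by rw [← e, mul_inv_cancel_right]
      rw [h1]
      exact H.mul_mem hcH (H.inv_mem hlH)
    rw [← e, hu1, one_mul]
    exact hl

end Pool.Agent.Lib.H90Q
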