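import Pool.Agent.Lib.H90Q.Defs
import Pool.Agent.Lib.H90Q.GT5

/-!
# MP_a8e959_al: definitions for the parametrisation (sections D and G of the proof) (helper61)

The structure `Tri p K L P H` is used twice: for `K = ⊤` (the group `G` with `L = O_{p'}(G)`) and for `K = N_G(P)` with `L` replaced
by `C = L ∩ H`.
-/

open scoped Classical ComplexConjugate BigOperators

noncomputable section

namespace Pool.Agent.Lib.H90Q

variable {G : Type*} [Group G]

/-- `K = L P H`; `L` and `P L` are normalised by `K`, `P` by `H`; `L` and `H` have order prime to `p`, `P` is an abelian `p`-group;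
`L ∩ H = C_L(P)`. -/
structure Tri (p : ℕ) (K L P H : Subgroup G) : Prop where
  hLK : L ≤ K
  hPK : P ≤ K
  hHK : H ≤ K
  hL : ∀ k ∈ K, Nz k L
  hPL : ∀ k ∈ K, Nz k (P ⊔ L)
  hLp : ¬ p ∣ Nat.card L
  hHp : ¬ p ∣ Nat.card H
  hPp : IsPGroup p P
  hPab : ∀ a ∈ P, ∀ b ∈ P, a * b = b * a
  hHP : ∀ h ∈ H, Nz h P
  hK : ∀ k ∈ K, ∃ l ∈ L, ∃ u ∈ P, ∃ h ∈ H, k = l * u * h
  hC : ∀ l ∈ L, (l ∈ H ↔ ∀ u ∈ P, l * u = u * l)

/-- The canonical extension `θh` of `θ` from `L` to `P L`: the values on `P` are real and not zero, and if `p = 2` they are congruent to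
`θ 1` modulo `4`. -/
def CanExt (p : ℕ) (P L : Subgroup G) (θ θh : G → ℂ) : Prop :=
  θh ∈ IrrS (P ⊔ L) ∧ (∀ l ∈ L, θh l = θ l) ∧
    ∀ u ∈ P, θh u ≠ 0 ∧ conj (θh u) = θh u ∧ (p = 2 → ∃ k : ℤ, θh u = θ 1 + 4 * k)

/-- The stabiliser in `H` of the pair `θ, l`. -/
def stPair (H : Subgroup G) (θ l : G → ℂ) : Set G := {h | h ∈ H ∧ cj h θ = θ ∧ cj h l = l}

variable [Fintype G]

/-- For `P ∩ K = 1`: the function `u k ↦ l u` on `P K` (zero off `P K`). -/
def prl (P K : Subgroup G) (l : G → ℂ) : G → ℂ := fun g => ∑ u : G, if u ∈ P ∧ u⁻¹ * g ∈ K then l u else 0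

/-- For `P ∩ K = 1`: the function `u k ↦ l u * f k` on `P K` (zero off `P K`). -/
def tens (P K : Subgroup G) (l f : G → ℂ) : G → ℂ :=
  fun g => ∑ u : G, if u ∈ P ∧ u⁻¹ * g ∈ K then l u * f (u⁻¹ * g) else 0

/-- The block of `K` belonging to `θh` (a character of `P L`) and the linear character `l` of `P`. -/
def Blk (K P L : Subgroup G) (θh l : G → ℂ) : Set (G → ℂ) :=
  {χ | χ ∈ IrrS K ∧ Over (P ⊔ L) χ (θh * prl P L l)}

/-- The statement of the core (section F): for `C ≤ S ≤ H` fixing `θ` there is a bijection `α ↦ F α` from the characters of `L P S`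
over `θh` onto the characters of `S` over `θs` with `α (z u) = ε F α (u)` for `z ∈ x^H`, `u ∈ S` commuting with `x`, and `α` has degree
prime to `p`. -/
def CoreStmt (p : ℕ) (L P H : Subgroup G) (x : G) : Prop :=
  ∀ S : Subgroup G, S ≤ H → L ⊓ H ≤ S → ∀ θ θs θh : G → ℂ, θ ∈ IrrS L → (∀ u ∈ P, cj u θ = θ) →
    GC p L (P : Set G) θ θs → CanExt p P L θ θh → (∀ s ∈ S, cj s θ = θ) →
    ∃ ε : ℂ, (ε = 1 ∨ ε = -1) ∧ ∃ F : (G → ℂ) → (G → ℂ),
      Set.BijOn F {α | α ∈ IrrS (P ⊔ L ⊔ S) ∧ Over (P ⊔ L) α θh} {β | β ∈ IrrS S ∧ Over (L ⊓ H) β θs} ∧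
      ∀ α, α ∈ IrrS (P ⊔ L ⊔ S) → Over (P ⊔ L) α θh →
        (∃ n : ℕ, α 1 = n ∧ ¬ p ∣ n) ∧
        ∀ h ∈ H, ∀ u ∈ S, u * x = x * u → α (h * x * h⁻¹ * u) = ε * F α u

omit [Fintype G] in
/-- The group `G` itself. -/
theorem tri_top {p : ℕ} {L P H : Subgroup G} {x : G} (h : Setup p L P H x) : Tri p ⊤ L P H where
  hLK := le_top
  hPK := le_top
  hHK := le_top
  hL := fun k _ g => by
    constructor
    · exact fun hg => h.hLn.conj_mem g hg k
    · intro hg
      have h1 := h.hLn.conj_mem _ hg k⁻¹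
      have h2 : k⁻¹ * (k * g * k⁻¹) * k⁻¹⁻¹ = g := by group
      rwa [h2] at h1
  hPL := fun k _ g => by
    constructor
    · exact fun hg => h.hPL.conj_mem g hg k
    · intro hg
      have h1 := h.hPL.conj_mem _ hg k⁻¹
      have h2 : k⁻¹ * (k * g * k⁻¹) * k⁻¹⁻¹ = g := by group
      rwa [h2] at h1
  hLp := h.hLp
  hHp := h.hHp
  hPp := h.hPp
  hPab := h.hPab
  hHP := fun a ha g => Subgroup.mem_normalizer_iff.mp (h.hHN ha) g
  hK := fun k _ => h.hG k
  hC := fun l hl => by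
    constructor
    · intro hlH u hu
      have h1 : l ∈ L ⊓ Subgroup.centralizer (P : Set G) := h.hC ▸ (⟨hl, hlH⟩ : l ∈ L ⊓ H)
      exact (Subgroup.mem_centralizer_iff.mp h1.2 u hu).symm
    · intro hc
      have h1 : l ∈ L ⊓ H := by
        rw [h.hC]
        exact ⟨hl, Subgroup.mem_centralizer_iff.mpr fun u hu => (hc u hu).symm⟩
      exact h1.2

omit [Fintype G] in
/-- The normaliser of `P`, with `L ∩ H` in the role of `L`. -/
theorem tri_norm {p : ℕ} {L P H : Subgroup G} {x : G} (h : Setup p L P H x) :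
    Tri p (Subgroup.normalizer (P : Set G)) (L ⊓ H) P H where
  hLK := inf_le_right.trans h.hHN
  hPK := Subgroup.le_normalizer
  hHK := h.hHN
  hL := by
    have key : ∀ k ∈ Subgroup.normalizer (P : Set G), ∀ g ∈ L ⊓ H, k * g * k⁻¹ ∈ L ⊓ H := by
      intro k hk g hg
      rw [h.hC] at hg ⊢
      refine ⟨h.hLn.conj_mem g hg.1 k, Subgroup.mem_centralizer_iff.mpr fun u hu => ?_⟩
      have h1 : k⁻¹ * u * k ∈ P := by
        have h2 := (Subgroup.mem_normalizer_iff.mp (Subgroup.inv_mem _ hk) u).mp hu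
        rwa [inv_inv] at h2
      have h2 := Subgroup.mem_centralizer_iff.mp hg.2 _ h1
      calc u * (k * g * k⁻¹) = k * ((k⁻¹ * u * k) * g) * k⁻¹ := by group
        _ = k * (g * (k⁻¹ * u * k)) * k⁻¹ := by rw [h2]
        _ = k * g * k⁻¹ * u := by group
    intro k hk g
    constructor
    · exact key k hk g
    · intro hg
      have h1 := key k⁻¹ (Subgroup.inv_mem _ hk) _ hg
      have h2 : k⁻¹ * (k * g * k⁻¹) * k⁻¹⁻¹ = g := by group
      rwa [h2] at h1
  hPL := by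
    have key : ∀ k ∈ Subgroup.normalizer (P : Set G), ∀ g ∈ P ⊔ (L ⊓ H), k * g * k⁻¹ ∈ P ⊔ (L ⊓ H) := by
      intro k hk g hg
      have h1 : P ⊔ (L ⊓ H) ≤ (P ⊔ (L ⊓ H)).comap (MulAut.conj k).toMonoidHom := by
        refine sup_le ?_ ?_
        · intro u hu
          exact Subgroup.mem_sup_left ((Subgroup.mem_normalizer_iff.mp hk u).mp hu)
        · intro g hg
          refine Subgroup.mem_sup_right ?_
          change k * g * k⁻¹ ∈ L ⊓ H
          rw [h.hC] at hg ⊢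
          refine ⟨h.hLn.conj_mem g hg.1 k, Subgroup.mem_centralizer_iff.mpr fun u hu => ?_⟩
          have h1 : k⁻¹ * u * k ∈ P := by
            have h2 := (Subgroup.mem_normalizer_iff.mp (Subgroup.inv_mem _ hk) u).mp hu
            rwa [inv_inv] at h2
          have h2 := Subgroup.mem_centralizer_iff.mp hg.2 _ h1
          calc u * (k * g * k⁻¹) = k * ((k⁻¹ * u * k) * g) * k⁻¹ := by group
            _ = k * (g * (k⁻¹ * u * k)) * k⁻¹ := by rw [h2]
            _ = k * g * k⁻¹ * u := by group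
      exact h1 hg
    intro k hk g
    constructor
    · exact key k hk g
    · intro hg
      have h1 := key k⁻¹ (Subgroup.inv_mem _ hk) _ hg
      have h2 : k⁻¹ * (k * g * k⁻¹) * k⁻¹⁻¹ = g := by group
      rwa [h2] at h1
  hLp := fun hd => h.hLp (hd.trans (Subgroup.card_dvd_of_le inf_le_left))
  hHp := h.hHp
  hPp := h.hPp
  hPab := h.hPab
  hHP := fun a ha g => Subgroup.mem_normalizer_iff.mp (h.hHN ha) g
  hK := fun k hk => by
    obtain ⟨u, hu, a, ha, e⟩ := h.hN k hk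
    exact ⟨1, Subgroup.one_mem _, u, hu, a, ha, by rw [one_mul, e]⟩
  hC := fun l hl => by
    constructor
    · intro _ u hu
      have h1 : l ∈ L ⊓ Subgroup.centralizer (P : Set G) := h.hC ▸ hl
      exact (Subgroup.mem_centralizer_iff.mp h1.2 u hu).symm
    · intro _
      exact hl.2

end Pool.Agent.Lib.H90Q
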