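import Pool.Agent.Lib.H90Q.A17
import Pool.Agent.Lib.H90Q.GT5

open scoped Classical ComplexConjugate BigOperators

noncomputable section

namespace Pool.Agent.Lib.H90Q

variable {G : Type*} [Group G] [Fintype G]

theorem F4_mem_CM {M : Subgroup G} {z d : G} : d ∈ CM M {z} ↔ d ∈ M ∧ d * z = z * d := by
  unfold CM
  rw [Subgroup.mem_inf, Subgroup.mem_centralizer_singleton_iff]

theorem F4_mem_CMP {M P : Subgroup G} {d : G} : d ∈ CM M (P : Set G) ↔ d ∈ M ∧ ∀ z ∈ P, z * d = d * z := by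
  unfold CM
  rw [Subgroup.mem_inf, Subgroup.mem_centralizer_iff]
  rfl

/-- `C_L(P) = L ∩ H`. -/
theorem F4_C {p : ℕ} {L P H : Subgroup G} {x : G} (hs : Setup p L P H x) : CM L (P : Set G) = L ⊓ H := hs.hC.symm

/-- `C_L(x) = L ∩ H`. -/
theorem F4_Cx {p : ℕ} {L P H : Subgroup G} {x : G} (hs : Setup p L P H x) : CM L {x} = L ⊓ H := by
  rw [hs.hC, ← hs.hCx]
  rfl

/-- Everything normalises `L`. -/
theorem F4_nzL {p : ℕ} {L P H : Subgroup G} {x : G} (hs : Setup p L P H x) (g : G) : Nz g L := by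
  intro y
  constructor
  · intro hy
    exact hs.hLn.conj_mem y hy g
  · intro hy
    have := hs.hLn.conj_mem _ hy g⁻¹
    simpa [mul_assoc] using this

/-- `H` normalises `P`. -/
theorem F4_nzP {p : ℕ} {L P H : Subgroup G} {x : G} (hs : Setup p L P H x) {h : G} (hh : h ∈ H) : Nz h P := by
  intro y
  exact Subgroup.mem_normalizer_iff.1 (hs.hHN hh) y

/-- `H` normalises `L ∩ H`. -/
theorem F4_nzC {p : ℕ} {L P H : Subgroup G} {x : G} (hs : Setup p L P H x) {h : G} (hh : h ∈ H) : Nz h (L ⊓ H) := by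
  intro y
  rw [Subgroup.mem_inf, Subgroup.mem_inf]
  exact and_congr (F4_nzL hs h y) (nz_mem hh y)

/-- The conjugates of `x` under `H`: they lie in `P`, have `p`-power order, and the same centraliser in `L`. -/
theorem F4_z {p : ℕ} [Fact p.Prime] {L P H : Subgroup G} {x : G} (hs : Setup p L P H x) {h : G} (hh : h ∈ H) :
    h * x * h⁻¹ ∈ P ∧ (∃ a : ℕ, orderOf (h * x * h⁻¹) = p ^ a) ∧ CM L {h * x * h⁻¹} = L ⊓ H := by
  have h1 : h * x * h⁻¹ ∈ P := (F4_nzP hs hh x).1 hs.hxP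
  refine ⟨h1, ?_, ?_⟩
  · obtain ⟨k, hk⟩ := hs.hPp ⟨_, h1⟩
    have hk' : (h * x * h⁻¹) ^ p ^ k = 1 := congrArg Subtype.val hk
    obtain ⟨a, _, ha⟩ := (Nat.dvd_prime_pow (Fact.out : p.Prime)).1 (orderOf_dvd_of_pow_eq_one hk')
    exact ⟨a, ha⟩
  · apply le_antisymm
    · intro y hy
      rw [F4_mem_CM] at hy
      have h2 : h⁻¹ * y * h ∈ L ⊓ H := by
        rw [← F4_Cx hs, F4_mem_CM]
        refine ⟨?_, ?_⟩
        · have := (F4_nzL hs h⁻¹ y).1 hy.1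
          simpa using this
        · have h3 := hy.2
          calc h⁻¹ * y * h * x = h⁻¹ * (y * (h * x * h⁻¹)) * h := by group
            _ = h⁻¹ * ((h * x * h⁻¹) * y) * h := by rw [h3]
            _ = x * (h⁻¹ * y * h) := by group
      have h3 := (F4_nzC hs hh _).1 h2
      have e : h * (h⁻¹ * y * h) * h⁻¹ = y := by group
      rwa [e] at h3
    · intro y hy
      rw [F4_mem_CM]
      rw [← F4_C hs, F4_mem_CMP] at hy
      exact ⟨hy.1, (hy.2 _ h1).symm⟩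

/-- `C_S(x)` is normalised by `H`, for `L ∩ H ≤ S ≤ H`. Proof: for `d ∈ C_S(x)` and `h ∈ H` we have `h d h⁻¹ = (h d h⁻¹ d⁻¹) d` with `h d h⁻¹ d⁻¹ ∈ L ∩ H = C_L(P)`, which centralises `x ∈ P`. -/
theorem F4_nzD {p : ℕ} {L P H S : Subgroup G} {x : G} (hs : Setup p L P H x) (hSH : S ≤ H) (hCS : L ⊓ H ≤ S) {h : G} (hh : h ∈ H) :
    Nz h (CM S {x}) := by
  have key : ∀ t ∈ H, ∀ d ∈ CM S {x}, t * d * t⁻¹ ∈ CM S {x} := by
    intro t ht d hd
    rw [F4_mem_CM] at hd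
    have hdH := hSH hd.1
    have h1 : t * d * t⁻¹ * d⁻¹ ∈ L ⊓ H :=
      Subgroup.mem_inf.2 ⟨hs.hab t ht d hdH, H.mul_mem (H.mul_mem (H.mul_mem ht hdH) (H.inv_mem ht)) (H.inv_mem hdH)⟩
    have e : t * d * t⁻¹ = (t * d * t⁻¹ * d⁻¹) * d := by group
    rw [e, F4_mem_CM]
    refine ⟨S.mul_mem (hCS h1) hd.1, ?_⟩
    rw [← F4_Cx hs, F4_mem_CM] at h1
    rw [mul_assoc, hd.2, ← mul_assoc, h1.2, mul_assoc]
  intro y
  constructor
  · exact key h hh y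
  · intro hy
    have h2 := key h⁻¹ (H.inv_mem hh) _ hy
    simpa [mul_assoc] using h2

/-- `C_S(x ^ h) = C_S(x)`. -/
theorem F4_D {p : ℕ} {L P H S : Subgroup G} {x : G} (hs : Setup p L P H x) (hSH : S ≤ H) (hCS : L ⊓ H ≤ S) {h : G} (hh : h ∈ H) :
    CM S {h * x * h⁻¹} = CM S {x} := by
  have hconj : ∀ t ∈ H, ∀ s ∈ S, t * s * t⁻¹ ∈ S := by
    intro t ht s hs'
    have hsH := hSH hs'
    have h1 : t * s * t⁻¹ * s⁻¹ ∈ L ⊓ H :=
      Subgroup.mem_inf.2 ⟨hs.hab t ht s hsH, H.mul_mem (H.mul_mem (H.mul_mem ht hsH) (H.inv_mem ht)) (H.inv_mem hsH)⟩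
    have e : t * s * t⁻¹ = (t * s * t⁻¹ * s⁻¹) * s := by group
    rw [e]
    exact S.mul_mem (hCS h1) hs'
  ext y
  constructor
  · intro hy
    rw [F4_mem_CM] at hy
    have h1 : h⁻¹ * y * h ∈ CM S {x} := by
      rw [F4_mem_CM]
      refine ⟨?_, ?_⟩
      · have := hconj h⁻¹ (H.inv_mem hh) y hy.1
        simpa using this
      · have h3 := hy.2
        calc h⁻¹ * y * h * x = h⁻¹ * (y * (h * x * h⁻¹)) * h := by group
          _ = h⁻¹ * ((h * x * h⁻¹) * y) * h := by rw [h3]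
          _ = x * (h⁻¹ * y * h) := by group
    have h2 := (F4_nzD hs hSH hCS hh _).1 h1
    have e : h * (h⁻¹ * y * h) * h⁻¹ = y := by group
    rwa [e] at h2
  · intro hy
    have h1 := (F4_nzD hs hSH hCS (H.inv_mem hh) y).1 hy
    rw [inv_inv, F4_mem_CM] at h1
    rw [F4_mem_CM]
    refine ⟨(F4_mem_CM.1 hy).1, ?_⟩
    have h3 := h1.2
    calc y * (h * x * h⁻¹) = h * ((h⁻¹ * y * h) * x) * h⁻¹ := by group
      _ = h * (x * (h⁻¹ * y * h)) * h⁻¹ := by rw [h3]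
      _ = h * x * h⁻¹ * y := by group

/-- `L ∩ H ≤ C_S(x)`. -/
theorem F4_CD {p : ℕ} {L P H S : Subgroup G} {x : G} (hs : Setup p L P H x) (hCS : L ⊓ H ≤ S) : L ⊓ H ≤ CM S {x} := by
  intro y hy
  have h1 := hy
  rw [← F4_Cx hs, F4_mem_CM] at h1
  exact F4_mem_CM.2 ⟨hCS hy, h1.2⟩

/-- elements of `L ⊔ S` -/
theorem F4_mem {p : ℕ} {L P H S : Subgroup G} {x : G} (hs : Setup p L P H x) {g : G} : g ∈ L ⊔ S ↔ ∃ l ∈ L, ∃ s ∈ S, g = l * s := by
  haveI := hs.hLn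
  rw [← SetLike.mem_coe, Subgroup.normal_mul, Set.mem_mul]
  constructor
  · rintro ⟨l, hl, s, hs', rfl⟩
    exact ⟨l, hl, s, hs', rfl⟩
  · rintro ⟨l, hl, s, hs', rfl⟩
    exact ⟨l, hl, s, hs', rfl⟩

/-- `L ⊔ S` is a `p'`-group for `S ≤ H` -/
theorem F4_card {p : ℕ} [Fact p.Prime] {L P H S : Subgroup G} {x : G} (hs : Setup p L P H x) (hSH : S ≤ H) :
    ¬ p ∣ Nat.card (L ⊔ S : Subgroup G) := by
  haveI := hs.hLn
  have hp : p.Prime := Fact.out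
  have h1 : Nat.card (L ⊔ S : Subgroup G) = Nat.card L * L.relIndex S := by
    rw [← A15_relIndex (le_sup_left : L ≤ L ⊔ S), Subgroup.relIndex_sup_left]
  rw [h1]
  intro h
  rcases (Nat.Prime.dvd_mul hp).1 h with h2 | h2
  · exact hs.hLp h2
  · exact hs.hHp (h2.trans ((Subgroup.relIndex_dvd_card L S).trans (Subgroup.card_dvd_of_le hSH)))

/-- commutators of `L ⊔ S` lie in `L` -/
theorem F4_comm {p : ℕ} {L P H S : Subgroup G} {x : G} (hs : Setup p L P H x) (hSH : S ≤ H) :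
    ∀ a ∈ L ⊔ S, ∀ b ∈ L ⊔ S, a * b * a⁻¹ * b⁻¹ ∈ L := by
  haveI := hs.hLn
  intro a ha b hb
  obtain ⟨l, hl, s, hs', rfl⟩ := (F4_mem hs).1 ha
  obtain ⟨m, hm, t, ht, rfl⟩ := (F4_mem hs).1 hb
  rw [← QuotientGroup.eq_one_iff]
  have hl' : (l : G ⧸ L) = 1 := (QuotientGroup.eq_one_iff l).2 hl
  have hm' : (m : G ⧸ L) = 1 := (QuotientGroup.eq_one_iff m).2 hm
  have hst : (s * t * s⁻¹ * t⁻¹ : G) ∈ L := hs.hab s (hSH hs') t (hSH ht)
  have hst' := (QuotientGroup.eq_one_iff (s * t * s⁻¹ * t⁻¹)).2 hst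
  simp only [QuotientGroup.mk_mul, QuotientGroup.mk_inv] at hst' ⊢
  rw [hl', hm']
  simpa using hst'

/-- commutators of `S` lie in `L ∩ H` -/
theorem F4_commS {p : ℕ} {L P H S : Subgroup G} {x : G} (hs : Setup p L P H x) (hSH : S ≤ H) :
    ∀ a ∈ S, ∀ b ∈ S, a * b * a⁻¹ * b⁻¹ ∈ L ⊓ H := by
  intro a ha b hb
  have ha' := hSH ha
  have hb' := hSH hb
  exact Subgroup.mem_inf.2 ⟨hs.hab a ha' b hb', H.mul_mem (H.mul_mem (H.mul_mem ha' hb') (H.inv_mem ha')) (H.inv_mem hb')⟩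

/-- The group `K = L ⊔ C_S(x)` and `z = h x h⁻¹`: `z` normalises `K`, centralises `K / L`, and `C_K(z) = C_S(x)`.
Proof: `z` centralises `C_S(x)` (`F4_D`), `z⁻¹ (l d) z (l d)⁻¹ = (z⁻¹ l z) l⁻¹`; `l d` commutes with `z` iff `l` does, iff `l ∈ L ∩ H ≤ C_S(x)`. -/
theorem F4_K {p : ℕ} [Fact p.Prime] {L P H S : Subgroup G} {x : G} (hs : Setup p L P H x) (hSH : S ≤ H) (hCS : L ⊓ H ≤ S) {h : G} (hh : h ∈ H) :
    Nz (h * x * h⁻¹) (L ⊔ CM S {x}) ∧ (∀ k ∈ L ⊔ CM S {x}, (h * x * h⁻¹)⁻¹ * k * (h * x * h⁻¹) * k⁻¹ ∈ L) ∧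
      CM (L ⊔ CM S {x}) {h * x * h⁻¹} = CM S {x} := by
  have hzd : ∀ d ∈ CM S {x}, d * (h * x * h⁻¹) = (h * x * h⁻¹) * d := by
    intro d hd
    rw [← F4_D hs hSH hCS hh, F4_mem_CM] at hd
    exact hd.2
  generalize hz : h * x * h⁻¹ = z at *
  have key : ∀ t : G, (∀ d ∈ CM S {x}, d * t = t * d) → ∀ k ∈ L ⊔ CM S {x}, t * k * t⁻¹ ∈ L ⊔ CM S {x} := by
    intro t ht k hk
    obtain ⟨l, hl, d, hd, rfl⟩ := (F4_mem hs).1 hk
    refine (F4_mem hs).2 ⟨t * l * t⁻¹, (F4_nzL hs t l).1 hl, d, hd, ?_⟩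
    have h1 := ht d hd
    calc t * (l * d) * t⁻¹ = t * l * t⁻¹ * (t * d) * t⁻¹ := by group
      _ = t * l * t⁻¹ * (d * t) * t⁻¹ := by rw [h1]
      _ = t * l * t⁻¹ * d := by group
  refine ⟨?_, ?_, ?_⟩
  · intro y
    constructor
    · exact key z hzd y
    · intro hy
      have hzd' : ∀ d ∈ CM S {x}, d * z⁻¹ = z⁻¹ * d := by
        intro d hd
        have h1 := hzd d hd
        calc d * z⁻¹ = z⁻¹ * (z * d) * z⁻¹ := by group
          _ = z⁻¹ * (d * z) * z⁻¹ := by rw [h1]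
          _ = z⁻¹ * d := by group
      have h2 := key z⁻¹ hzd' _ hy
      simpa [mul_assoc] using h2
  · intro k hk
    obtain ⟨l, hl, d, hd, rfl⟩ := (F4_mem hs).1 hk
    have h1 := hzd d hd
    have e : z⁻¹ * (l * d) * z * (l * d)⁻¹ = (z⁻¹ * l * z) * l⁻¹ := by
      calc z⁻¹ * (l * d) * z * (l * d)⁻¹ = z⁻¹ * l * (d * z) * d⁻¹ * l⁻¹ := by group
        _ = z⁻¹ * l * (z * d) * d⁻¹ * l⁻¹ := by rw [h1]
        _ = (z⁻¹ * l * z) * l⁻¹ := by group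
    rw [e]
    refine L.mul_mem ?_ (L.inv_mem hl)
    have := (F4_nzL hs z⁻¹ l).1 hl
    simpa using this
  · ext k
    rw [F4_mem_CM]
    constructor
    · rintro ⟨hk, hkz⟩
      obtain ⟨l, hl, d, hd, rfl⟩ := (F4_mem hs).1 hk
      have h1 := hzd d hd
      have h2 : l * z = z * l := by
        have h3 : l * z * d = z * l * d := by
          calc l * z * d = l * (z * d) := by group
            _ = l * (d * z) := by rw [h1]
            _ = l * d * z := by group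
            _ = z * (l * d) := hkz
            _ = z * l * d := by group
        exact mul_right_cancel h3
      have h4 : l ∈ CM L {z} := F4_mem_CM.2 ⟨hl, h2⟩
      rw [← hz, (F4_z hs hh).2.2] at h4
      exact Subgroup.mul_mem _ (F4_CD hs hCS h4) hd
    · intro hk
      exact ⟨(le_sup_right : CM S {x} ≤ L ⊔ CM S {x}) hk, hzd k hk⟩

/-- `K ∩ S = C_S(x)` and `L ⊔ S = K S`. -/
theorem F4_KS {p : ℕ} {L P H S : Subgroup G} {x : G} (hs : Setup p L P H x) (hSH : S ≤ H) (hCS : L ⊓ H ≤ S) :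
    (L ⊔ CM S {x}) ⊓ S = CM S {x} ∧ (L ⊔ CM S {x} ≤ L ⊔ S) ∧ ∀ t ∈ L ⊔ S, ∃ k ∈ L ⊔ CM S {x}, ∃ s ∈ S, t = k * s := by
  have hDS : CM S {x} ≤ S := fun y hy => (F4_mem_CM.1 hy).1
  refine ⟨?_, sup_le_sup_left hDS L, ?_⟩
  · apply le_antisymm
    · intro k hk
      obtain ⟨hk1, hk2⟩ := Subgroup.mem_inf.1 hk
      obtain ⟨l, hl, d, hd, rfl⟩ := (F4_mem hs).1 hk1
      have h1 : l ∈ S := by
        have := S.mul_mem hk2 (S.inv_mem (hDS hd))
        simpa using this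
      have h2 : l ∈ L ⊓ H := Subgroup.mem_inf.2 ⟨hl, hSH h1⟩
      exact Subgroup.mul_mem _ (F4_CD hs hCS h2) hd
    · intro d hd
      exact Subgroup.mem_inf.2 ⟨(le_sup_right : CM S {x} ≤ L ⊔ CM S {x}) hd, hDS hd⟩
  · intro t ht
    obtain ⟨l, hl, s, hs', rfl⟩ := (F4_mem hs).1 ht
    exact ⟨l, (le_sup_left : L ≤ L ⊔ CM S {x}) hl, s, hs', rfl⟩

/-- `H` normalises `K`. -/
theorem F4_nzK {p : ℕ} {L P H S : Subgroup G} {x : G} (hs : Setup p L P H x) (hSH : S ≤ H) (hCS : L ⊓ H ≤ S) {s : G} (hsH : s ∈ H) :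
    Nz s (L ⊔ CM S {x}) := by
  have key : ∀ t ∈ H, ∀ k ∈ L ⊔ CM S {x}, t * k * t⁻¹ ∈ L ⊔ CM S {x} := by
    intro t ht k hk
    obtain ⟨l, hl, d, hd, rfl⟩ := (F4_mem hs).1 hk
    refine (F4_mem hs).2 ⟨t * l * t⁻¹, (F4_nzL hs t l).1 hl, t * d * t⁻¹, (F4_nzD hs hSH hCS ht d).1 hd, ?_⟩
    group
  intro y
  constructor
  · exact key s hsH y
  · intro hy
    have h2 := key s⁻¹ (H.inv_mem hsH) _ hy
    simpa [mul_assoc] using h2

/-- The group `T = L P S`: `L P` is normalised by `T` and `T = (L P) (L S)`, `L P ∩ L S = L`.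
Proof of the last: `u = l s` with `u ∈ P`, so `s = l⁻¹ u ∈ H`; `|L S|` is prime to `p` (`F4_card`) and `u ∈ L S` is a `p`-element, so `u = 1`. -/
theorem F4_T {p : ℕ} [Fact p.Prime] {L P H S : Subgroup G} {x : G} (hs : Setup p L P H x) (hSH : S ≤ H) :
    (∀ g : G, Nz g (L ⊔ P)) ∧ (∀ t ∈ L ⊔ P ⊔ S, ∃ m ∈ L ⊔ P, ∃ u ∈ L ⊔ S, t = m * u) ∧ (L ⊔ P) ⊓ (L ⊔ S) = L := by
  have hn : (L ⊔ P).Normal := by
    rw [sup_comm]
    exact hs.hPL
  refine ⟨?_, ?_, ?_⟩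
  · intro g y
    constructor
    · intro hy
      exact hn.conj_mem y hy g
    · intro hy
      have := hn.conj_mem _ hy g⁻¹
      simpa [mul_assoc] using this
  · intro t ht
    haveI := hn
    rw [← SetLike.mem_coe, Subgroup.normal_mul, Set.mem_mul] at ht
    obtain ⟨m, hm, s, hs', rfl⟩ := ht
    exact ⟨m, hm, s, (le_sup_right : S ≤ L ⊔ S) hs', rfl⟩
  · apply le_antisymm
    · intro y hy
      obtain ⟨h1, h2⟩ := Subgroup.mem_inf.1 hy
      obtain ⟨l, hl, u, hu, rfl⟩ := (F4_mem hs).1 h1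
      have h3 : u ∈ L ⊔ S := by
        have := Subgroup.mul_mem _ (Subgroup.inv_mem _ ((le_sup_left : L ≤ L ⊔ S) hl)) h2
        simpa using this
      have hp : p.Prime := Fact.out
      obtain ⟨k, hk⟩ := hs.hPp ⟨u, hu⟩
      have hk' : u ^ p ^ k = 1 := congrArg Subtype.val hk
      have h0 : orderOf u ∣ Nat.card (L ⊔ S : Subgroup G) := by
        have h := orderOf_dvd_natCard (⟨u, h3⟩ : (L ⊔ S : Subgroup G))
        rwa [Subgroup.orderOf_mk] at h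
      have h4 : orderOf u ∣ Nat.gcd (p ^ k) (Nat.card (L ⊔ S : Subgroup G)) := Nat.dvd_gcd (orderOf_dvd_of_pow_eq_one hk') h0
      have h5 : Nat.gcd (p ^ k) (Nat.card (L ⊔ S : Subgroup G)) = 1 :=
        Nat.Coprime.pow_left k ((Nat.Prime.coprime_iff_not_dvd hp).mpr (F4_card hs hSH))
      rw [h5, Nat.dvd_one] at h4
      rw [orderOf_eq_one_iff.mp h4, mul_one]
      exact hl
    · exact le_inf le_sup_left le_sup_left

end Pool.Agent.Lib.H90Q
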