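import Pool.Agent.Lib.H90Q.B8

open scoped Classical ComplexConjugate BigOperators

noncomputable section

namespace Pool.Agent.Lib.H90Q

variable {G : Type*} [Group G] [Fintype G]

/-- `gcBij_bot` and `gcBij_step`, induction (for instance strong induction on `|A|`: `A` is `⊥` or `A = A' ⊔ ⟨z⟩` with `A' < A` maximal, `z ∈ A`, `z ∉ A'`). -/
theorem gcBij {p : ℕ} [Fact p.Prime] {M A : Subgroup G} (hM : ¬ p ∣ Nat.card M) (hn : ∀ b ∈ A, Nz b M)
    (hp : ∀ z ∈ A, ∃ a : ℕ, z ^ (p ^ a) = 1) (hab : ∀ b ∈ A, ∀ c ∈ A, b * c = c * b) : GCBij p M A := by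
  have key : ∀ S : Finset G, (∀ x ∈ S, x ∈ A) → GCBij p M (Subgroup.closure (S : Set G)) := by
    intro S
    induction S using Finset.induction_on with
    | empty =>
      intro _
      rw [Finset.coe_empty, Subgroup.closure_empty]
      exact gcBij_bot p M
    | insert z S _ ih =>
      intro h
      have hzA : z ∈ A := h z (Finset.mem_insert_self z S)
      have hS : ∀ x ∈ S, x ∈ A := fun x hx => h x (Finset.mem_insert_of_mem hx)
      have hle : Subgroup.closure (S : Set G) ≤ A := (Subgroup.closure_le A).2 hS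
      obtain ⟨a, ha⟩ := hp z hzA
      have e : Subgroup.closure ((insert z S : Finset G) : Set G) =
          Subgroup.closure (S : Set G) ⊔ Subgroup.zpowers z := by
        rw [Finset.coe_insert, Set.insert_eq, Subgroup.closure_union, Subgroup.zpowers_eq_closure, sup_comm]
      rw [e]
      exact gcBij_step hM (fun b hb => hn b (hle hb)) (hn z hzA) ha
        (fun b hb => hab b (hle hb) z hzA) (ih hS)
  have h1 := key (Finset.univ.filter (fun g : G => g ∈ A)) (fun x hx => (Finset.mem_filter.1 hx).2)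
  have e : ((Finset.univ.filter (fun g : G => g ∈ A) : Finset G) : Set G) = (A : Set G) := by
    ext x
    simp
  rw [e, Subgroup.closure_eq] at h1
  exact h1

/-- an element normalising `M` and `A` fixes `χ` iff it fixes the correspondent -/
theorem gc_inv_iff {p : ℕ} {M A : Subgroup G} (h0 : GCBij p M A) {b : G} (hM : Nz b M) (hA : Nz b A) {χ ψ : G → ℂ}
    (hinv : InvS A χ) (h : GC p M A χ ψ) : cj b χ = χ ↔ cj b ψ = ψ := by
  have h1 := gc_cj hM hA h
  constructor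
  · intro hb
    rw [hb] at h1
    exact (h0.uniq χ ψ (cj b ψ) hinv h h1).symm
  · intro hb
    rw [hb] at h1
    refine (h0.inj χ (cj b χ) ψ hinv ?_ h h1).symm
    intro a ha
    have h2 : b⁻¹ * a * b ∈ A := by
      rw [hA]
      have h3 : b * (b⁻¹ * a * b) * b⁻¹ = a := by group
      rw [h3]
      exact ha
    have h4 : a * b = b * (b⁻¹ * a * b) := by group
    rw [cj_cj, h4, ← cj_cj, hinv _ h2]

/-- If `x ∈ P` has `C_L(x) = C_L(P)` then `x`-invariant and `P`-invariant irreducible characters of `L` are the same. Proof: let `ψ` be the `⟨x⟩`-correspondent of `θ` (`glaub_exists`), `θ'` the `P`-invariant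
character with `GC p L P θ' ψ` (`surj`); `C_L(x) = C_L(P)`, so `GC p L {x} θ' ψ`, and `glaub_inj` gives `θ = θ'`. -/
theorem inv_of_single {p : ℕ} [Fact p.Prime] {L P : Subgroup G} (hL : ¬ p ∣ Nat.card L) (hn : ∀ b ∈ P, Nz b L)
    (hp : ∀ z ∈ P, ∃ a : ℕ, z ^ (p ^ a) = 1) (hab : ∀ b ∈ P, ∀ c ∈ P, b * c = c * b) {x : G} (hx : x ∈ P)
    (hC : CM L {x} = CM L (P : Set G)) {θ : G → ℂ} (hθ : θ ∈ IrrS L) (hinv : cj x θ = θ) : InvS P θ := by
  obtain ⟨a, ha⟩ := hp x hx
  obtain ⟨ψ, h1, -, -⟩ := glaub_exists hL (hn x hx) ha hθ hinv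
  have hB := gcBij hL hn hp hab
  have hψ : ψ ∈ IrrS (CM L (P : Set G)) := by
    rw [← hC]
    exact h1.2.1
  obtain ⟨θ', hθ', h2⟩ := hB.surj ψ hψ
  have h3 : GC p L {x} θ' ψ := by
    refine ⟨h2.1, h1.2.1, ?_⟩
    rw [hC]
    exact h2.2.2
  have h4 : θ = θ' := glaub_inj hL (hn x hx) ha hinv (hθ' x hx) h1 h3
  rw [h4]
  exact hθ'

/-- Twisting by linear characters: `l` a linear character of `M`, `D = C_M(A)`: the multiplicity of `rs D l * ψ` in `l * χ` on `D` is that of `ψ` in `χ`. -/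
theorem gc_twist {p : ℕ} {M N A : Subgroup G} {χ ψ l : G → ℂ} (hl : l ∈ LinS M N) (h : GC p M A χ ψ) :
    GC p M A (l * χ) (rs (CM M A) l * ψ) := by
  have hDM : ∀ x ∈ CM M (A : Set G), x ∈ M := fun x hx => (mem_CM.1 hx).1
  have hlD : rs (CM M (A : Set G)) l ∈ LinS (CM M (A : Set G)) (⊥ : Subgroup G) := by
    refine ⟨fun g hg => by simp [rs, hg], fun g hg => ?_, fun a ha b hb => ?_⟩
    · rw [Subgroup.mem_bot] at hg
      rw [hg]
      simp [rs, lin_one hl]
    · have hab := (CM M (A : Set G)).mul_mem ha hb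
      simp only [rs, if_pos ha, if_pos hb, if_pos hab]
      exact hl.2.2 a (hDM a ha) b (hDM b hb)
  refine ⟨lin_mul_irr hl h.1, lin_mul_irr hlD h.2.1, ?_⟩
  have e : mu (CM M (A : Set G)) (l * χ) (rs (CM M (A : Set G)) l * ψ) = mu (CM M (A : Set G)) χ ψ := by
    unfold mu
    congr 2
    unfold ip
    congr 1
    refine Finset.sum_congr rfl fun x _ => ?_
    by_cases hx : x ∈ CM M (A : Set G)
    · rw [if_pos hx, if_pos hx]
      have h1 : l x * conj (l x) = 1 := lin_mul_conj hl (hDM x hx)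
      simp only [Pi.mul_apply, rs, if_pos hx, map_mul]
      linear_combination (χ x * conj (ψ x)) * h1
    · rw [if_neg hx, if_neg hx]
  rw [e]
  exact h.2.2

private theorem b9_mod {p : ℕ} [Fact p.Prime] {M A D : Subgroup G} (hM : GCBij p M A) {χ ψ θ₁ : G → ℂ} (hχ : InvS A χ)
    (h : GC p M A χ ψ) (hD : D ≤ CM M (A : Set G)) (hθ : θ₁ ∈ IrrS D) :
    mu D χ θ₁ ≡ mu (CM M (A : Set G)) χ ψ * mu D ψ θ₁ [MOD p] := by
  have hEM : CM M (A : Set G) ≤ M := fun x hx => (mem_CM.1 hx).1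
  rw [mu_trans hEM hD (charS_of_irrS h.1) hθ]
  have hψ : ψ ∈ irr (CM M (A : Set G)) := mem_irr.2 h.2.1
  rw [← Finset.add_sum_erase _ _ hψ]
  have h1 : ∑ φ ∈ (irr (CM M (A : Set G))).erase ψ, mu (CM M (A : Set G)) χ φ * mu D φ θ₁ ≡ 0 [MOD p] := by
    rw [Nat.modEq_zero_iff_dvd]
    refine Finset.dvd_sum fun φ hφ => ?_
    obtain ⟨hne, hφ'⟩ := Finset.mem_erase.1 hφ
    refine Dvd.dvd.mul_right ?_ _
    by_contra hnd
    exact hne (hM.uniq χ φ ψ hχ ⟨h.1, mem_irr.1 hφ', hnd⟩ h)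
  have h2 := Nat.ModEq.add_left (mu (CM M (A : Set G)) χ ψ * mu D ψ θ₁) h1
  rwa [add_zero] at h2

private theorem b9_le {L M A : Subgroup G} (hLM : L ≤ M) : CM L (A : Set G) ≤ CM M (A : Set G) := by
  intro x hx
  obtain ⟨h1, h2⟩ := mem_CM.1 hx
  exact mem_CM.2 ⟨hLM h1, h2⟩

/-- Compatibility with a normal subgroup, first direction. `L ≤ M` normalised by `M`, both normalised by `A`; `θ ∈ Irr L` is `A`-invariant and `M`-invariant, `χ ∈ Irr M` is `A`-invariant and lies over `θ`, and `p` does not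
divide `mu L χ θ`. Then the correspondent `ψ` of `χ` lies over the correspondent `θ₁` of `θ`. Proof: the multiplicity of `θ₁` in `χ` restricted to `C_L(A)` is `mu L χ θ * mu θ θ₁` (`clifford_inv`), which is prime to `p`;
by `mu_trans` through `C_M(A)` it is congruent to `mu χ ψ * mu ψ θ₁`. -/
theorem gc_over {p : ℕ} [Fact p.Prime] {L M A : Subgroup G} (hLM : L ≤ M) (hn : ∀ t ∈ M, Nz t L)
    (hL : GCBij p L A) (hM : GCBij p M A) {χ θ ψ θ₁ : G → ℂ} (hθ : InvS A θ) (hθM : ∀ t ∈ M, cj t θ = θ) (hχ : InvS A χ)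
    (hov : Over L χ θ) (hpe : ¬ p ∣ mu L χ θ) (h : GC p M A χ ψ) (h1 : GC p L A θ θ₁) : Over (CM L A) ψ θ₁ := by
  have hp : p.Prime := Fact.out
  have hDL : CM L (A : Set G) ≤ L := fun x hx => (mem_CM.1 hx).1
  have hmod := b9_mod hM hχ h (b9_le hLM) h1.2.1
  obtain ⟨-, hres⟩ := clifford_inv hLM hn h.1 h1.1 hov hθM
  have e1 : mu (CM L (A : Set G)) χ θ₁ = mu L χ θ * mu (CM L (A : Set G)) θ θ₁ := by
    have h2 : (mu (CM L (A : Set G)) χ θ₁ : ℂ) = (mu L χ θ : ℂ) * (mu (CM L (A : Set G)) θ θ₁ : ℂ) := by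
      rw [mu_spec (hDL.trans hLM) (charS_of_irrS h.1) h1.2.1, mu_spec hDL (charS_of_irrS h1.1) h1.2.1,
        ← ip_smul_left]
      refine ip_congr _ (fun x hx => ?_) fun _ _ => rfl
      rw [hres x (hDL hx)]
      simp
    exact_mod_cast h2
  have hnd : ¬ p ∣ mu (CM L (A : Set G)) χ θ₁ := by
    rw [e1]
    intro h2
    rcases (Nat.Prime.dvd_mul hp).1 h2 with h3 | h3
    · exact hpe h3
    · exact h1.2.2 h3
  have hDE : CM L (A : Set G) ≤ CM M (A : Set G) := b9_le hLM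
  rw [A15_over_iff hDE (charS_of_irrS h.2.1) h1.2.1]
  rcases Nat.eq_zero_or_pos (mu (CM L (A : Set G)) ψ θ₁) with h2 | h2
  · exfalso
    apply hnd
    rw [h2, mul_zero] at hmod
    exact (Nat.modEq_zero_iff_dvd).1 hmod
  · exact h2

private def B9Y (X : Type*) (f : X → ℕ) : Type _ := {y : X × ℕ // y.2 < f y.1}

private def b9_equiv (X : Type*) (f : X → ℕ) : B9Y X f ≃ Σ x : X, Fin (f x) where
  toFun y := ⟨y.1.1, ⟨y.1.2, y.2⟩⟩
  invFun s := ⟨(s.1, s.2.1), s.2.2⟩
  left_inv _ := rfl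
  right_inv _ := rfl

private theorem b9_fixed {p : ℕ} [Fact p.Prime] {A X : Type*} [Group A] [MulAction A X] [Fintype X] (hA : IsPGroup p A)
    (f : X → ℕ) (hf : ∀ (a : A) x, f (a • x) = f x) (S : Finset X) (hS : ∀ x, x ∈ S ↔ ∀ a : A, a • x = x) :
    ∑ x, f x ≡ ∑ x ∈ S, f x [MOD p] := by
  let inst : MulAction A (B9Y X f) :=
    { smul := fun a y => ⟨(a • y.1.1, y.1.2), by
        have := y.2
        simpa [hf] using this⟩
      one_smul := fun y => Subtype.ext (Prod.ext (one_smul A y.1.1) rfl)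
      mul_smul := fun a b y => Subtype.ext (Prod.ext (mul_smul a b y.1.1) rfl) }
  have hfin : Finite (B9Y X f) := Finite.of_equiv _ (b9_equiv X f).symm
  have h1 := hA.card_modEq_card_fixedPoints (B9Y X f)
  have e1 : Nat.card (B9Y X f) = ∑ x, f x := by
    rw [Nat.card_congr (b9_equiv X f), Nat.card_sigma]
    simp
  let Z := {x : X // ∀ a : A, a • x = x}
  have eq2 : MulAction.fixedPoints A (B9Y X f) ≃ Σ x : Z, Fin (f x.1) :=
    { toFun := fun y => ⟨⟨y.1.1.1, fun a => by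
          have h2 := y.2 a
          exact congrArg (fun w : B9Y X f => w.1.1) h2⟩, ⟨y.1.1.2, y.1.2⟩⟩
      invFun := fun s => ⟨⟨(s.1.1, s.2.1), s.2.2⟩, fun a => Subtype.ext (Prod.ext (s.1.2 a) rfl)⟩
      left_inv := fun _ => rfl
      right_inv := fun _ => rfl }
  have e2 : Nat.card (MulAction.fixedPoints A (B9Y X f)) =
      ∑ x ∈ S, f x := by
    rw [Nat.card_congr eq2, Nat.card_sigma]
    simp only [Nat.card_eq_fintype_card, Fintype.card_fin]
    exact (Finset.sum_subtype S hS f).symm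
  rw [e1, e2] at h1
  exact h1

private abbrev B9X (L : Subgroup G) : Type _ := {φ : G → ℂ // φ ∈ irr L}

private def b9_act {L A : Subgroup G} (hnL : ∀ b ∈ A, Nz b L) : MulAction A (B9X L) where
  smul a φ := ⟨cj (a : G) φ.1, mem_irr.2 (cj_irrS (hnL a a.2) (mem_irr.1 φ.2))⟩
  one_smul φ := Subtype.ext (cj_one φ.1)
  mul_smul a b φ := Subtype.ext (cj_cj (a : G) (b : G) φ.1).symm

/-- Second direction: if `ψ` lies over `θ₁` with multiplicity prime to `p` then `χ` lies over `θ`. Proof: the multiplicity of `θ₁` in `χ` restricted to `C_L(A)` is, by `mu_trans` through `C_M(A)`, congruent to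
`mu χ ψ * mu ψ θ₁`, prime to `p` (all other constituents of `χ` on `C_M(A)` have multiplicity divisible by `p`). By `mu_trans` through `L` it is `∑_(θ' ∈ Irr L) mu L χ θ' * mu θ' θ₁`. The group `A` permutes `Irr L`, the summand is constant on
the `A`-orbits (`χ` is `A`-invariant; `A` centralises `C_L(A)`, so `mu (cj b θ') θ₁ = mu θ' θ₁`), and the orbits have `p`-power length; so modulo `p` only the `A`-invariant `θ'` count
(`MulAction` fixed point count, or `Finset.sum` over orbits), and for those `mu θ' θ₁` is divisible by `p` unless `θ' = θ` (`inj`). Hence `mu L χ θ ≠ 0`. -/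
theorem over_of_gc {p : ℕ} [Fact p.Prime] {L M A : Subgroup G} (hLM : L ≤ M) (hA : ∀ z ∈ A, ∃ a : ℕ, z ^ (p ^ a) = 1)
    (hnL : ∀ b ∈ A, Nz b L) (hL : GCBij p L A) (hM : GCBij p M A) {χ θ ψ θ₁ : G → ℂ} (hθ : InvS A θ) (hχ : InvS A χ)
    (h : GC p M A χ ψ) (h1 : GC p L A θ θ₁) (hpe : ¬ p ∣ mu (CM L A) ψ θ₁) : Over L χ θ := by
  have hp : p.Prime := Fact.out
  have hDL : CM L (A : Set G) ≤ L := fun x hx => (mem_CM.1 hx).1
  have hmod := b9_mod hM hχ h (b9_le hLM) h1.2.1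
  have hnd : ¬ p ∣ mu (CM L (A : Set G)) χ θ₁ := by
    intro h2
    have h3 : p ∣ mu (CM M (A : Set G)) χ ψ * mu (CM L (A : Set G)) ψ θ₁ :=
      (Nat.modEq_zero_iff_dvd).1 (hmod.symm.trans ((Nat.modEq_zero_iff_dvd).2 h2))
    rcases (Nat.Prime.dvd_mul hp).1 h3 with h4 | h4
    · exact h.2.2 h4
    · exact hpe h4
  rw [A15_over_iff hLM (charS_of_irrS h.1) h1.1]
  rcases Nat.eq_zero_or_pos (mu L χ θ) with hz | hz
  swap
  · exact hz
  exfalso
  apply hnd
  rw [mu_trans hLM hDL (charS_of_irrS h.1) h1.2.1]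
  let inst : MulAction A (B9X L) := b9_act hnL
  have hPA : IsPGroup p A := by
    intro g
    obtain ⟨a, ha⟩ := hA g g.2
    exact ⟨a, Subtype.ext (by simpa using ha)⟩
  have hinv : ∀ (a : A) (φ : B9X L), (fun φ : B9X L => mu L χ φ.1 * mu (CM L (A : Set G)) φ.1 θ₁) (a • φ) =
      (fun φ : B9X L => mu L χ φ.1 * mu (CM L (A : Set G)) φ.1 θ₁) φ := by
    intro a φ
    show mu L χ (cj (a : G) φ.1) * mu (CM L (A : Set G)) (cj (a : G) φ.1) θ₁ = mu L χ φ.1 * mu (CM L (A : Set G)) φ.1 θ₁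
    have e1 : mu L χ (cj (a : G) φ.1) = mu L χ φ.1 := by
      unfold mu
      have h2 := ip_cj (hnL a a.2) χ φ.1
      rw [hχ a a.2] at h2
      rw [h2]
    have e2 : mu (CM L (A : Set G)) (cj (a : G) φ.1) θ₁ = mu (CM L (A : Set G)) φ.1 θ₁ := by
      unfold mu
      rw [ip_congr (CM L (A : Set G)) (f' := φ.1) (g' := θ₁) (fun x hx => ?_) fun _ _ => rfl]
      have h3 := (mem_CM.1 hx).2 a a.2
      show φ.1 ((a : G)⁻¹ * x * a) = φ.1 x
      have h4 : (a : G)⁻¹ * x * a = x := by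
        rw [mul_assoc, h3]
        group
      rw [h4]
    rw [e1, e2]
  have h2 := b9_fixed (A := A) (X := B9X L) hPA (fun φ : B9X L => mu L χ φ.1 * mu (CM L (A : Set G)) φ.1 θ₁) hinv
    (Finset.univ.filter (fun φ : B9X L => InvS A φ.1)) (fun φ => by
      constructor
      · intro h2 a
        exact Subtype.ext ((Finset.mem_filter.1 h2).2 a a.2)
      · intro h2
        refine Finset.mem_filter.2 ⟨Finset.mem_univ _, fun a ha => ?_⟩
        exact congrArg (fun w : B9X L => w.1) (h2 ⟨a, ha⟩))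
  have h3 : ∑ φ ∈ irr L, mu L χ φ * mu (CM L (A : Set G)) φ θ₁ =
      ∑ φ : B9X L, mu L χ φ.1 * mu (CM L (A : Set G)) φ.1 θ₁ :=
    (Finset.sum_coe_sort (irr L) (fun φ => mu L χ φ * mu (CM L (A : Set G)) φ θ₁)).symm
  rw [h3]
  refine (Nat.modEq_zero_iff_dvd).1 (h2.trans ((Nat.modEq_zero_iff_dvd).2 ?_))
  apply Finset.dvd_sum
  intro φ hφ
  have h5 : InvS A φ.1 := (Finset.mem_filter.1 hφ).2
  by_cases h6 : φ.1 = θ
  · rw [h6, hz, zero_mul]
    exact dvd_zero p
  · refine Dvd.dvd.mul_left ?_ _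
    by_contra h7
    exact h6 (hL.inj φ.1 θ θ₁ h5 hθ ⟨mem_irr.1 φ.2, h1.2.1, h7⟩ h1)

end Pool.Agent.Lib.H90Q
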