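import Pool.Agent.Lib.H90Q.K05

open scoped Classical ComplexConjugate BigOperators

noncomputable section

namespace Pool.Agent.Lib.H90Q

variable {G : Type*} [Group G] [Fintype G]

private lemma K07_card (M : Subgroup G) : (∑ g : G, if g ∈ M then (1 : ℂ) else 0) = (Nat.card M : ℂ) := by
  rw [Finset.sum_boole, Nat.card_eq_fintype_card, Fintype.card_subtype]

/-- A sum over `K = T H` of a function with `F (t a) = F a` for `t ∈ T`: count the pairs `(t, b)`, `t ∈ T`, `b ∈ H`, with `t b = a`; there are `|T ∩ H|` of them for every `a ∈ K`. -/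
theorem sum_TH {T H K : Subgroup G} (hT : T ≤ K) (hH : H ≤ K) (hK : ∀ k ∈ K, ∃ t ∈ T, ∃ b ∈ H, k = t * b) {F : G → ℂ}
    (hF : ∀ t ∈ T, ∀ a, F (t * a) = F a) :
    (Nat.card (T ⊓ H : Subgroup G) : ℂ) * ∑ a : G, (if a ∈ K then F a else 0) = (Nat.card T : ℂ) * ∑ b : G, (if b ∈ H then F b else 0) := by
  have key : ∀ a : G, (∑ t : G, if t ∈ T ∧ t⁻¹ * a ∈ H then (1 : ℂ) else 0) =
      if a ∈ K then (Nat.card (T ⊓ H : Subgroup G) : ℂ) else 0 := by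
    intro a
    by_cases ha : a ∈ K
    · rw [if_pos ha]
      obtain ⟨t0, ht0, b0, hb0, rfl⟩ := hK a ha
      rw [← K07_card]
      symm
      refine Fintype.sum_equiv (Equiv.mulLeft t0) _ _ fun s => ?_
      change (if s ∈ T ⊓ H then (1 : ℂ) else 0) = if t0 * s ∈ T ∧ (t0 * s)⁻¹ * (t0 * b0) ∈ H then 1 else 0
      have e1 : t0 * s ∈ T ↔ s ∈ T := Subgroup.mul_mem_cancel_left _ ht0
      have e2 : (t0 * s)⁻¹ * (t0 * b0) ∈ H ↔ s ∈ H := by
        have e : (t0 * s)⁻¹ * (t0 * b0) = s⁻¹ * b0 := by group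
        rw [e, Subgroup.mul_mem_cancel_right _ hb0, Subgroup.inv_mem_iff]
      rw [e1, e2]
      by_cases hs : s ∈ T ∧ s ∈ H
      · rw [if_pos hs, if_pos (show s ∈ T ⊓ H from hs)]
      · rw [if_neg hs, if_neg (show ¬ s ∈ T ⊓ H from hs)]
    · rw [if_neg ha]
      refine Finset.sum_eq_zero fun t _ => if_neg ?_
      rintro ⟨h1, h2⟩
      apply ha
      have e : a = t * (t⁻¹ * a) := by group
      rw [e]
      exact K.mul_mem (hT h1) (hH h2)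
  have h1 : (∑ t : G, ∑ b : G, if t ∈ T ∧ b ∈ H then F (t * b) else 0) =
      (Nat.card T : ℂ) * ∑ b : G, (if b ∈ H then F b else 0) := by
    rw [← K07_card, Finset.sum_mul]
    refine Finset.sum_congr rfl fun t _ => ?_
    rw [Finset.mul_sum]
    refine Finset.sum_congr rfl fun b _ => ?_
    by_cases ht : t ∈ T
    · by_cases hb : b ∈ H
      · rw [if_pos ⟨ht, hb⟩, if_pos ht, if_pos hb, one_mul, hF t ht]
      · rw [if_neg (fun h => hb h.2), if_neg hb, mul_zero]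
    · rw [if_neg (fun h => ht h.1), if_neg ht, zero_mul]
  have h2 : (∑ t : G, ∑ b : G, if t ∈ T ∧ b ∈ H then F (t * b) else 0) =
      ∑ a : G, ∑ t : G, if t ∈ T ∧ t⁻¹ * a ∈ H then F a else 0 := by
    rw [Finset.sum_comm (s := Finset.univ (α := G)) (t := Finset.univ (α := G))
      (f := fun a t => if t ∈ T ∧ t⁻¹ * a ∈ H then F a else 0)]
    refine Finset.sum_congr rfl fun t _ => ?_
    refine Fintype.sum_equiv (Equiv.mulLeft t) _ _ fun b => ?_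
    change (if t ∈ T ∧ b ∈ H then F (t * b) else 0) = if t ∈ T ∧ t⁻¹ * (t * b) ∈ H then F (t * b) else 0
    rw [inv_mul_cancel_left]
  rw [← h1, h2, Finset.mul_sum]
  refine Finset.sum_congr rfl fun a _ => ?_
  have h3 : (∑ t : G, if t ∈ T ∧ t⁻¹ * a ∈ H then F a else 0) =
      (∑ t : G, if t ∈ T ∧ t⁻¹ * a ∈ H then (1 : ℂ) else 0) * F a := by
    rw [Finset.sum_mul]
    refine Finset.sum_congr rfl fun t _ => ?_
    by_cases h : t ∈ T ∧ t⁻¹ * a ∈ H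
    · rw [if_pos h, if_pos h, one_mul]
    · rw [if_neg h, if_neg h, zero_mul]
  rw [h3, key]
  by_cases ha : a ∈ K
  · rw [if_pos ha, if_pos ha]
  · rw [if_neg ha, if_neg ha, mul_zero, zero_mul]

/-- Values of the induced function at `x y`, `x ∈ P`, `y ∈ H`. `sum_TH` for `F a = f (a g a⁻¹)` with `T = P L S`, `T ∩ H = S` (`tri_capS`). For `b ∈ H`: `b x b⁻¹ ∈ P`, so `b x y b⁻¹ ∈ T` iff `b y b⁻¹ ∈ T` iff
`b y b⁻¹ ∈ S`, and then `prl P (L ⊔ S) ll` is `ll (b x b⁻¹)` there (`prl_apply`, `tri_PLS`). -/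
theorem blk_value {p : ℕ} (hp : p.Prime) {K L P H S : Subgroup G} (h : Tri p K L P H) (hSH : S ≤ H) (hCS : L ⊓ H ≤ S) {ll α : G → ℂ}
    (hl : ll ∈ LinS P ⊥) (hS : ∀ s ∈ S, cj s ll = ll) (hα : IsCF (P ⊔ L ⊔ S) α) {x y : G} (hx : x ∈ P) (hy : y ∈ H) :
    ind (P ⊔ L ⊔ S) K (prl P (L ⊔ S) ll * α) (x * y) = (Nat.card S : ℂ)⁻¹ *
      ∑ b : G, if b ∈ H ∧ b * y * b⁻¹ ∈ S then ll (b * x * b⁻¹) * α (b * x * b⁻¹ * (b * y * b⁻¹)) else 0 := by
  have hTK : P ⊔ L ⊔ S ≤ K := sup_le (sup_le h.hPK h.hLK) (hSH.trans h.hHK)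
  have hlin := (tri_lin hp h hSH hl hS).1
  have hcf := cf_charS (charS_of_irrS (lin_irrS hlin))
  have hTH : (P ⊔ L ⊔ S) ⊓ H = S := by
    ext g
    constructor
    · rintro ⟨h1, h2⟩
      exact (tri_capS hp h hSH hCS h2).mp h1
    · intro hg
      exact ⟨(tri_capS hp h hSH hCS (hSH hg)).mpr hg, hSH hg⟩
  have hKdec : ∀ k ∈ K, ∃ t ∈ P ⊔ L ⊔ S, ∃ b ∈ H, k = t * b := by
    intro k hk
    obtain ⟨l, hl', u, hu, b, hb, rfl⟩ := h.hK k hk
    exact ⟨l * u, Subgroup.mem_sup_left (Subgroup.mul_mem _ (Subgroup.mem_sup_right hl') (Subgroup.mem_sup_left hu)), b, hb, rfl⟩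
  have hF : ∀ t ∈ P ⊔ L ⊔ S, ∀ a, (fun a => (prl P (L ⊔ S) ll * α) (a * (x * y) * a⁻¹)) (t * a) =
      (fun a => (prl P (L ⊔ S) ll * α) (a * (x * y) * a⁻¹)) a := by
    intro t ht a
    change prl P (L ⊔ S) ll (t * a * (x * y) * (t * a)⁻¹) * α (t * a * (x * y) * (t * a)⁻¹) =
      prl P (L ⊔ S) ll (a * (x * y) * a⁻¹) * α (a * (x * y) * a⁻¹)
    have e : t * a * (x * y) * (t * a)⁻¹ = t * (a * (x * y) * a⁻¹) * t⁻¹ := by group
    rw [e, hcf.2 t ht, hα.2 t ht]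
  have h1 := sum_TH (F := fun a => (prl P (L ⊔ S) ll * α) (a * (x * y) * a⁻¹)) hTK h.hHK hKdec hF
  rw [hTH] at h1
  have hxy : x * y ∈ K := K.mul_mem (h.hPK hx) (h.hHK hy)
  have hSne : (Nat.card S : ℂ) ≠ 0 := by exact_mod_cast Nat.card_pos.ne'
  have hTne : (Nat.card (P ⊔ L ⊔ S : Subgroup G) : ℂ) ≠ 0 := by exact_mod_cast Nat.card_pos.ne'
  have h2 : (∑ b : G, if b ∈ H then (prl P (L ⊔ S) ll * α) (b * (x * y) * b⁻¹) else 0) =
      ∑ b : G, if b ∈ H ∧ b * y * b⁻¹ ∈ S then ll (b * x * b⁻¹) * α (b * x * b⁻¹ * (b * y * b⁻¹)) else 0 := by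
    refine Finset.sum_congr rfl fun b _ => ?_
    by_cases hb : b ∈ H
    · have e : b * (x * y) * b⁻¹ = b * x * b⁻¹ * (b * y * b⁻¹) := by group
      have hx' : b * x * b⁻¹ ∈ P := (h.hHP b hb x).mp hx
      have hy' : b * y * b⁻¹ ∈ H := H.mul_mem (H.mul_mem hb hy) (H.inv_mem hb)
      rw [if_pos hb, e]
      by_cases hS' : b * y * b⁻¹ ∈ S
      · rw [if_pos ⟨hb, hS'⟩]
        change prl P (L ⊔ S) ll (b * x * b⁻¹ * (b * y * b⁻¹)) * α (b * x * b⁻¹ * (b * y * b⁻¹)) = _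
        rw [prl_apply (tri_PLS hp h hSH) ll hx' (Subgroup.mem_sup_right hS')]
      · rw [if_neg (fun h => hS' h.2)]
        have h3 : b * x * b⁻¹ * (b * y * b⁻¹) ∉ P ⊔ L ⊔ S := by
          intro h3
          rw [Subgroup.mul_mem_cancel_left _ (Subgroup.mem_sup_left (Subgroup.mem_sup_left hx'))] at h3
          exact hS' ((tri_capS hp h hSH hCS hy').mp h3)
        change prl P (L ⊔ S) ll (b * x * b⁻¹ * (b * y * b⁻¹)) * α (b * x * b⁻¹ * (b * y * b⁻¹)) = 0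
        rw [hα.1 _ h3, mul_zero]
    · rw [if_neg hb, if_neg (fun h => hb h.1)]
  unfold ind
  rw [if_pos hxy, ← h2]
  have h3 : (∑ a : G, if a ∈ K then (prl P (L ⊔ S) ll * α) (a * (x * y) * a⁻¹) else 0) =
      (Nat.card S : ℂ)⁻¹ * ((Nat.card (P ⊔ L ⊔ S : Subgroup G) : ℂ) *
        ∑ b : G, if b ∈ H then (prl P (L ⊔ S) ll * α) (b * (x * y) * b⁻¹) else 0) := by
    rw [← h1, inv_mul_cancel_left₀ hSne]
  rw [h3, mul_left_comm, inv_mul_cancel_left₀ hTne]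

/-- The degree. `ind_one`; `|K : P L S| = |H : S|`, which is prime to `p` (divides `|H|`): `sum_TH` with `F = 1`, or `blk_value` at `x = y = 1`. -/
theorem blk_degree {p : ℕ} (hp : p.Prime) {K L P H S : Subgroup G} (h : Tri p K L P H) (hSH : S ≤ H) (hCS : L ⊓ H ≤ S) {ll α : G → ℂ}
    (hl : ll ∈ LinS P ⊥) (hS : ∀ s ∈ S, cj s ll = ll) (hα : IsCF (P ⊔ L ⊔ S) α) {n : ℕ} (hn : α 1 = n) (hnp : ¬ p ∣ n) :
    ∃ m : ℕ, ind (P ⊔ L ⊔ S) K (prl P (L ⊔ S) ll * α) 1 = m ∧ ¬ p ∣ m := by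
  have hSne : (Nat.card S : ℂ) ≠ 0 := by exact_mod_cast Nat.card_pos.ne'
  have h1 := blk_value hp h hSH hCS hl hS hα P.one_mem H.one_mem
  rw [mul_one] at h1
  have h2 : (∑ b : G, if b ∈ H ∧ b * 1 * b⁻¹ ∈ S then ll (b * 1 * b⁻¹) * α (b * 1 * b⁻¹ * (b * 1 * b⁻¹)) else 0) =
      (Nat.card H : ℂ) * n := by
    rw [← K07_card, Finset.sum_mul]
    refine Finset.sum_congr rfl fun b _ => ?_
    rw [mul_one, mul_inv_cancel, mul_one]
    by_cases hb : b ∈ H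
    · rw [if_pos ⟨hb, S.one_mem⟩, if_pos hb, lin_one hl, hn]
    · rw [if_neg (fun h => hb h.1), if_neg hb, zero_mul]
  rw [h2] at h1
  have h3 : Nat.card S * S.relIndex H = Nat.card H := by
    have h4 := Subgroup.relIndex_mul_relIndex (⊥ : Subgroup G) S H bot_le hSH
    rwa [Subgroup.relIndex_bot_left, Subgroup.relIndex_bot_left] at h4
  refine ⟨S.relIndex H * n, ?_, ?_⟩
  · rw [h1, ← h3]
    push_cast
    rw [mul_assoc, inv_mul_cancel_left₀ hSne]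
  · intro hd
    rcases (Nat.Prime.dvd_mul hp).mp hd with hd | hd
    · exact h.hHp (hd.trans (Subgroup.relIndex_dvd_card _ _))
    · exact hnp hd

end Pool.Agent.Lib.H90Q
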