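import Pool.Agent.Lib.H90Q.K05

open scoped Classical ComplexConjugate BigOperators

noncomputable section

namespace Pool.Agent.Lib.H90Q

variable {G : Type*} [Group G] [Fintype G]

/-- The block depends only on the `H`-orbit: `Over (P ⊔ L) (cj b χ) (cj b φ) ↔ Over (P ⊔ L) χ φ`, `cj b χ = χ` for `b ∈ K` and `χ ∈ Irr K` (`ip_cj_inv`, `tri_phi_cj`). -/
theorem blk_cj {p : ℕ} {K L P H : Subgroup G} (h : Tri p K L P H) {b : G} (hb : b ∈ H) (θh ll : G → ℂ) :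
    Blk K P L (cj b θh) (cj b ll) = Blk K P L θh ll := by
  ext χ
  constructor
  · rintro ⟨hχ, ho⟩
    refine ⟨hχ, ?_⟩
    rw [← tri_phi_cj h hb] at ho
    have hcf := (cf_charS (charS_of_irrS hχ)).2 b⁻¹ (K.inv_mem (h.hHK hb))
    have e := ip_cj_inv (h.hPL b (h.hHK hb)) (f := χ) (fun x _ => by
      have := hcf x
      rwa [inv_inv] at this) (θh * prl P L ll)
    unfold Over at ho ⊢
    rwa [e] at ho
  · rintro ⟨hχ, ho⟩
    refine ⟨hχ, ?_⟩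
    rw [← tri_phi_cj h hb]
    have hcf := (cf_charS (charS_of_irrS hχ)).2 b⁻¹ (K.inv_mem (h.hHK hb))
    have e := ip_cj_inv (h.hPL b (h.hHK hb)) (f := χ) (fun x _ => by
      have := hcf x
      rwa [inv_inv] at this) (θh * prl P L ll)
    unfold Over at ho ⊢
    rwa [e]

/-- Characters of a block lie over `θ`: `over_trans`, on `L` the function `θh * prl P L ll` is `θ`. -/
theorem blk_over {p : ℕ} (hp : p.Prime) {K L P H : Subgroup G} (h : Tri p K L P H) {ll θ θh χ : G → ℂ} (hl : ll ∈ LinS P ⊥)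
    (hθ : θ ∈ IrrS L) (hθh : CanExt p P L θ θh) (hχ : χ ∈ Blk K P L θh ll) : Over L χ θ := by
  have hφ := tri_phi hp h hl hθh
  refine over_trans (M := P ⊔ L) le_sup_right (sup_le h.hPK h.hLK) hχ.1 hφ hθ hχ.2 ?_
  have h1 : ip L (θh * prl P L ll) θ = ip L θ θ := ip_congr L (fun x hx => by
    have e := prl_apply (tri_PL hp h) ll P.one_mem hx
    rw [one_mul] at e
    change θh x * prl P L ll x = θ x
    rw [e, lin_one hl, mul_one, hθh.2.1 x hx]) (fun x _ => rfl)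
  unfold Over
  rw [h1, irrS_ortho hθ hθ, if_pos rfl]
  exact one_ne_zero

/-- Two blocks with a common element are conjugate. `clifford` for `P ⊔ L` in `K`: `θh' * prl P L ll' = cj k (θh * prl P L ll)`, `k = l u b` (`h.hK`); conjugation by `l * u ∈ P ⊔ L` is trivial (after
`cj b`), so it is `cj b`; `tri_phi_cj`, `canExt_cj`, `tri_phi_inj`. -/
theorem blk_conj {p : ℕ} (hp : p.Prime) {K L P H : Subgroup G} (h : Tri p K L P H) {ll ll' θ θ' θh θh' χ : G → ℂ}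
    (hl : ll ∈ LinS P ⊥) (hl' : ll' ∈ LinS P ⊥) (hθ : θ ∈ IrrS L) (hθ' : θ' ∈ IrrS L) (hθh : CanExt p P L θ θh) (hθh' : CanExt p P L θ' θh')
    (hχ : χ ∈ Blk K P L θh ll) (hχ' : χ ∈ Blk K P L θh' ll') : ∃ b ∈ H, θ' = cj b θ ∧ ll' = cj b ll := by
  have hφ := tri_phi hp h hl hθh
  have hφ' := tri_phi hp h hl' hθh'
  obtain ⟨t, ht, e⟩ := clifford (N := P ⊔ L) (T := K) (sup_le h.hPK h.hLK) h.hPL hχ.1 hφ hφ' hχ.2 hχ'.2
  obtain ⟨l, hl1, u, hu, b, hb, rfl⟩ := h.hK t ht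
  have h1 : l * u ∈ P ⊔ L := Subgroup.mul_mem _ (Subgroup.mem_sup_right hl1) (Subgroup.mem_sup_left hu)
  have h3 : cj (l * u * b) (θh * prl P L ll) = cj b (θh * prl P L ll) := by
    rw [← cj_cj]
    exact cj_mem h1 (cf_charS (charS_of_irrS (cj_irrS (h.hPL b (h.hHK hb)) hφ)))
  rw [h3, tri_phi_cj h hb] at e
  have hcan := canExt_cj (h.hHP b hb) (h.hL b (h.hHK hb)) hθh
  exact ⟨b, hb, tri_phi_inj hp h hl' (lin_cj (h.hHP b hb) hl) hθ' (cj_irrS (h.hL b (h.hHK hb)) hθ) hθh' hcan e⟩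

/-- Every character of `K` over `θ` lies in a block of `θ`. `over_split`: `χ` over `φ ∈ Irr (P ⊔ L)` over `θ`; `abel_trans`: `φ = ν * θh`, `ν ∈ LinS (P ⊔ L) L`; `ll = rs P ν`, and `ν = prl P L ll`
(both are multiplicative on `P L` and agree on `P` and `L`). -/
theorem blk_cover {p : ℕ} (hp : p.Prime) {K L P H : Subgroup G} (h : Tri p K L P H) {θ θh χ : G → ℂ} (hθ : θ ∈ IrrS L)
    (hθh : CanExt p P L θ θh) (hχ : χ ∈ IrrS K) (hov : Over L χ θ) : ∃ ll ∈ LinS P ⊥, χ ∈ Blk K P L θh ll := by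
  have hLM : L ≤ P ⊔ L := le_sup_right
  have hMK : P ⊔ L ≤ K := sup_le h.hPK h.hLK
  have hc : ∀ k ∈ L, ∀ u ∈ P, ∃ u' ∈ P, ∃ k' ∈ L, k * u = u' * k' := fun k hk u hu =>
    ⟨u, hu, u⁻¹ * k * u⁻¹⁻¹, (h.hL _ (h.hPK (P.inv_mem hu)) k).mp hk, by group⟩
  have hab : ∀ a ∈ P ⊔ L, ∀ b ∈ P ⊔ L, a * b * a⁻¹ * b⁻¹ ∈ L := by
    intro a ha b hb
    obtain ⟨u, hu, k, hk, rfl⟩ := (mem_PK hc).mp ha
    obtain ⟨v, hv, m, hm, rfl⟩ := (mem_PK hc).mp hb
    have h1 : v⁻¹ * k * v⁻¹⁻¹ ∈ L := (h.hL _ (h.hPK (P.inv_mem hv)) k).mp hk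
    have h2 : u⁻¹ * m * u⁻¹⁻¹ ∈ L := (h.hL _ (h.hPK (P.inv_mem hu)) m).mp hm
    have h3 : (v⁻¹ * k * v⁻¹⁻¹) * m * ((u⁻¹ * m * u⁻¹⁻¹) * k)⁻¹ ∈ L :=
      L.mul_mem (L.mul_mem h1 hm) (L.inv_mem (L.mul_mem h2 hk))
    have h4 := (h.hL _ (h.hPK (P.mul_mem hu hv)) _).mp h3
    have huv : v * u = u * v := h.hPab v hv u hu
    have e : u * k * (v * m) * (u * k)⁻¹ * (v * m)⁻¹ =
        (u * v) * ((v⁻¹ * k * v⁻¹⁻¹) * m * ((u⁻¹ * m * u⁻¹⁻¹) * k)⁻¹) * (u * v)⁻¹ := by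
      have e1 : (v * m) * (u * k) = (u * v) * ((u⁻¹ * m * u⁻¹⁻¹) * k) := by rw [← huv]; group
      have e2 : (u * k) * (v * m) = (u * v) * ((v⁻¹ * k * v⁻¹⁻¹) * m) := by group
      calc u * k * (v * m) * (u * k)⁻¹ * (v * m)⁻¹ = (u * k) * (v * m) * ((v * m) * (u * k))⁻¹ := by group
        _ = (u * v) * ((v⁻¹ * k * v⁻¹⁻¹) * m) * ((u * v) * ((u⁻¹ * m * u⁻¹⁻¹) * k))⁻¹ := by rw [e1, e2]
        _ = _ := by group
    rw [e]
    exact h4
  obtain ⟨φ, hφ, ho1, ho2⟩ := over_split hLM hMK hχ hθ hov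
  have ho3 : Over L θh θ := by
    have h1 : ip L θh θ = ip L θ θ := ip_congr L (fun x hx => hθh.2.1 x hx) (fun x _ => rfl)
    unfold Over
    rw [h1, irrS_ortho hθ hθ, if_pos rfl]
    exact one_ne_zero
  obtain ⟨ν, hν, e⟩ := abel_trans hLM hab hθh.1 hφ hθ ho3 ho2
  refine ⟨rs P ν, ⟨fun g hg => if_neg hg, fun g hg => ?_, fun a ha b hb => ?_⟩, hχ, ?_⟩
  · rw [Subgroup.mem_bot.mp hg]
    change (if (1 : G) ∈ P then ν 1 else 0) = 1
    rw [if_pos P.one_mem]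
    exact lin_one hν
  · change (if a * b ∈ P then ν (a * b) else 0) = (if a ∈ P then ν a else 0) * (if b ∈ P then ν b else 0)
    rw [if_pos ha, if_pos hb, if_pos (P.mul_mem ha hb)]
    exact hν.2.2 a (Subgroup.mem_sup_left ha) b (Subgroup.mem_sup_left hb)
  · have hνp : prl P L (rs P ν) = ν := by
      funext g
      by_cases hg : g ∈ P ⊔ L
      · obtain ⟨u, hu, k, hk, rfl⟩ := (mem_PK hc).mp hg
        rw [prl_apply (tri_PL hp h) _ hu hk, hν.2.2 u (Subgroup.mem_sup_left hu) k (Subgroup.mem_sup_right hk),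
          hν.2.1 k hk, mul_one]
        exact if_pos hu
      · rw [hν.1 g hg]
        refine prl_zero _ fun u hu k hk e => hg ?_
        rw [e]
        exact Subgroup.mul_mem _ (Subgroup.mem_sup_left hu) (Subgroup.mem_sup_right hk)
    rw [hνp, mul_comm, ← e]
    exact ho1

end Pool.Agent.Lib.H90Q
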