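import Pool.Agent.Lib.H90Q.K04

open scoped Classical ComplexConjugate BigOperators

noncomputable section

namespace Pool.Agent.Lib.H90Q

variable {G : Type*} [Group G] [Fintype G]

omit [Fintype G] in
private theorem K10_hc {P S : Subgroup G} (hn : ∀ s ∈ S, Nz s P) : ∀ k ∈ S, ∀ u ∈ P, ∃ u' ∈ P, ∃ k' ∈ S, k * u = u' * k' :=
  fun k hk u hu => ⟨k * u * k⁻¹, (hn k hk u).1 hu, k, hk, by group⟩

omit [Fintype G] in
private theorem K10_uniq {P S : Subgroup G} (hPS : ∀ u ∈ P, u ∈ S → u = 1) {u u' k k' : G} (hu : u ∈ P) (hu' : u' ∈ P) (hk : k ∈ S)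
    (hk' : k' ∈ S) (h : u * k = u' * k') : u = u' ∧ k = k' := by
  have h1 : u'⁻¹ * u = k' * k⁻¹ := by
    rw [inv_mul_eq_iff_eq_mul, ← mul_assoc, ← h, mul_inv_cancel_right]
  have h2 : u'⁻¹ * u = 1 := by
    refine hPS _ (P.mul_mem (P.inv_mem hu') hu) ?_
    rw [h1]
    exact S.mul_mem hk' (S.inv_mem hk)
  have h3 : u = u' := (inv_mul_eq_one.1 h2).symm
  subst h3
  exact ⟨rfl, mul_left_cancel h⟩

private theorem K10_nz_sup {A B : Subgroup G} {a : G} (hA : Nz a A) (hB : Nz a B) : Nz a (A ⊔ B) := by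
  have key : ∀ b : G, Nz b A → Nz b B → ∀ g ∈ A ⊔ B, b * g * b⁻¹ ∈ A ⊔ B := by
    intro b h1 h2 g hg
    have h3 : A ⊔ B ≤ (A ⊔ B).comap (MulAut.conj b).toMonoidHom :=
      sup_le (fun u hu => Subgroup.mem_sup_left ((h1 u).1 hu)) (fun u hu => Subgroup.mem_sup_right ((h2 u).1 hu))
    exact h3 hg
  intro g
  constructor
  · exact key a hA hB g
  · intro h
    have h1 := key a⁻¹ (nz_inv hA) (nz_inv hB) _ h
    have h2 : a⁻¹ * (a * g * a⁻¹) * a⁻¹⁻¹ = g := by group
    rwa [h2] at h1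

/-- a sum over `P S` -/
private theorem K10_sum {P S : Subgroup G} (hn : ∀ s ∈ S, Nz s P) (hPS : ∀ u ∈ P, u ∈ S → u = 1) (F : G → ℂ) :
    ∑ g : G, (if g ∈ P ⊔ S then F g else 0) = ∑ s : G, (if s ∈ S then ∑ u : G, (if u ∈ P then F (u * s) else 0) else 0) := by
  have e1 : Finset.univ.filter (fun g : G => g ∈ P ⊔ S) =
      (Finset.univ.filter (fun u : G => u ∈ P) ×ˢ Finset.univ.filter (fun s : G => s ∈ S)).image (fun x => x.1 * x.2) := by
    ext g
    simp only [Finset.mem_filter, Finset.mem_univ, true_and, Finset.mem_image, Finset.mem_product, Prod.exists]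
    rw [mem_PK (K10_hc hn)]
    constructor
    · rintro ⟨u, hu, k, hk, rfl⟩
      exact ⟨u, k, ⟨hu, hk⟩, rfl⟩
    · rintro ⟨u, k, ⟨hu, hk⟩, rfl⟩
      exact ⟨u, hu, k, hk, rfl⟩
  rw [← Finset.sum_filter, e1, Finset.sum_image, Finset.sum_product_right, Finset.sum_filter]
  · refine Finset.sum_congr rfl fun s _ => ?_
    by_cases hs : s ∈ S
    · rw [if_pos hs, if_pos hs, Finset.sum_filter]
    · rw [if_neg hs, if_neg hs]
  · rintro ⟨u, k⟩ hx ⟨u', k'⟩ hx' h
    have hx1 : u ∈ P ∧ k ∈ S := by simpa using hx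
    have hx2 : u' ∈ P ∧ k' ∈ S := by simpa using hx'
    obtain ⟨h1, h2⟩ := K10_uniq hPS hx1.1 hx2.1 hx1.2 hx2.2 h
    rw [h1, h2]

private theorem K10_card {P S : Subgroup G} (hn : ∀ s ∈ S, Nz s P) (hPS : ∀ u ∈ P, u ∈ S → u = 1) :
    (Nat.card (P ⊔ S : Subgroup G) : ℂ) = (Nat.card P : ℂ) * (Nat.card S : ℂ) := by
  have h1 := K10_sum hn hPS (fun _ => 1)
  rw [A15_sum_mem, mul_one] at h1
  rw [h1]
  have h2 : ∑ u : G, (if u ∈ P then (1 : ℂ) else 0) = (Nat.card P : ℂ) := by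
    rw [A15_sum_mem, mul_one]
  rw [h2, A15_sum_mem, mul_comm]

/-- the average over `P` -/
private def K10_av (P S : Subgroup G) (f : G → ℂ) (s : G) : ℂ :=
  if s ∈ S then (Nat.card P : ℂ)⁻¹ * ∑ u : G, (if u ∈ P then f (u * s) else 0) else 0

private theorem K10_ip {P S : Subgroup G} (hn : ∀ s ∈ S, Nz s P) (hPS : ∀ u ∈ P, u ∈ S → u = 1) (f β : G → ℂ) :
    ip (P ⊔ S) f (tens P S (fun _ => 1) β) = ip S (K10_av P S f) β := by
  unfold ip
  rw [K10_sum hn hPS, K10_card hn hPS, mul_inv, mul_comm (Nat.card P : ℂ)⁻¹, mul_assoc, Finset.mul_sum]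
  congr 1
  refine Finset.sum_congr rfl fun s _ => ?_
  unfold K10_av
  by_cases hs : s ∈ S
  · rw [if_pos hs, if_pos hs, if_pos hs, mul_assoc, Finset.sum_mul]
    congr 1
    refine Finset.sum_congr rfl fun u _ => ?_
    by_cases hu : u ∈ P
    · rw [if_pos hu, if_pos hu, tens_apply hPS _ _ hu hs, one_mul]
    · rw [if_neg hu, if_neg hu, zero_mul]
  · rw [if_neg hs, if_neg hs, mul_zero]

private theorem K10_av_infl {P S C : Subgroup G} (hPS : ∀ u ∈ P, u ∈ S → u = 1) (hCS : C ≤ S) (β : G → ℂ) {c : G} (hc : c ∈ C) :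
    K10_av P C (tens P S (fun _ => 1) β) c = β c := by
  unfold K10_av
  have h1 : ∀ u : G, (if u ∈ P then tens P S (fun _ => 1) β (u * c) else 0) = if u ∈ P then β c else 0 := by
    intro u
    by_cases hu : u ∈ P
    · rw [if_pos hu, if_pos hu, tens_apply hPS _ _ hu (hCS hc), one_mul]
    · rw [if_neg hu, if_neg hu]
  rw [if_pos hc, Finset.sum_congr rfl (fun u _ => h1 u), A15_sum_mem, inv_mul_cancel_left₀ (A15_card_ne P)]

private theorem K10_over {P S C : Subgroup G} (hn : ∀ s ∈ S, Nz s P) (hPS : ∀ u ∈ P, u ∈ S → u = 1) (hCS : C ≤ S) (β θs : G → ℂ) :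
    ip (P ⊔ C) (tens P S (fun _ => 1) β) (tens P C (fun _ => 1) θs) = ip C β θs := by
  rw [K10_ip (fun s hs => hn s (hCS hs)) (fun u hu hu' => hPS u hu (hCS hu'))]
  exact ip_congr C (fun c hc => K10_av_infl hPS hCS β hc) (fun _ _ => rfl)

/-- Inflation from `S` to `P S`. `S` normalises `P`, `P ∩ S = 1`: for `β ∈ Irr S` the function `u s ↦ β s` is in `Irr (P S)` (norm one and `CharS` by `A06.isChar_comp`, or `A06.isIrr_comp` for the
projection `P S → S`). -/
theorem infl_irrS {P S : Subgroup G} (hn : ∀ s ∈ S, Nz s P) (hPS : ∀ u ∈ P, u ∈ S → u = 1) {β : G → ℂ} (hβ : β ∈ IrrS S) :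
    tens P S (fun _ => 1) β ∈ IrrS (P ⊔ S) := by
  obtain hc := K10_hc hn
  choose u hu k hk e using fun g : (P ⊔ S : Subgroup G) => (mem_PK hc).1 g.2
  let π : (P ⊔ S : Subgroup G) →* S := MonoidHom.mk' (fun g => (⟨k g, hk g⟩ : S)) (by
    intro a b
    refine Subtype.ext ?_
    change k (a * b) = k a * k b
    have h1 : u (a * b) * k (a * b) = (u a * (k a * u b * (k a)⁻¹)) * (k a * k b) := by
      rw [← e (a * b)]
      change (a : G) * (b : G) = _
      rw [e a, e b]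
      group
    exact (K10_uniq hPS (hu _) (P.mul_mem (hu a) ((hn _ (hk a) _).1 (hu b))) (hk _) (S.mul_mem (hk a) (hk b)) h1).2)
  have hπ : ∀ g : (P ⊔ S : Subgroup G), tens P S (fun _ => 1) β (g : G) = β (π g) := by
    intro g
    have h1 : tens P S (fun _ => 1) β (u g * k g) = 1 * β (k g) := tens_apply hPS _ _ (hu g) (hk g)
    rw [← e g, one_mul] at h1
    exact h1
  have hsurj : Function.Surjective π := by
    rintro ⟨s, hs⟩
    refine ⟨⟨s, Subgroup.mem_sup_right hs⟩, Subtype.ext ?_⟩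
    change k ⟨s, Subgroup.mem_sup_right hs⟩ = s
    have h1 := e ⟨s, Subgroup.mem_sup_right hs⟩
    have h2 : u ⟨s, Subgroup.mem_sup_right hs⟩ * k ⟨s, Subgroup.mem_sup_right hs⟩ = 1 * s := by
      rw [← h1, one_mul]
    exact (K10_uniq hPS (hu _) P.one_mem (hk _) hs h2).2
  refine ⟨fun g hg => tens_zero _ _ fun u hu k hk h => hg ((mem_PK hc).2 ⟨u, hu, k, hk, h⟩), ?_⟩
  have h1 := isIrr_comp π hsurj hβ.2
  have h2 : (fun g : (P ⊔ S : Subgroup G) => tens P S (fun _ => 1) β (g : G)) = fun x => β (π x) := funext hπ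
  rw [h2]
  exact h1

/-- Inflation is a bijection from `Irr(S|θs)` onto the characters of `P S` over `u c ↦ θs c`; `C ≤ S` is centralised by `P` and normalised by `S`.
Proof. Into: `ip (P ⊔ C) (infl β) (infl θs) = ip C β θs`. Injective: values at `s`. Surjective: let `α` be over `infl θs`. By `clifford` (the subgroup `P ⊔ C` is normal in `P ⊔ S`) every constituent of `α` on
`P ⊔ C` is a conjugate of `infl θs`, so it is `1` times its degree on `P`: so `α u = α 1` for `u ∈ P` (`charS_expand`). Put `a s = |P|⁻¹ ∑_(u ∈ P) α (u s)`, `s ∈ S`, a class function of `S` with `a 1 = α 1 ≠ 0`.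
`ip (P ⊔ S) α (infl β) = ip S a β` for `β ∈ Irr S`, so by `cf_expand` one of them is not `0`, and then `α = infl β` (`irrS_ortho`). -/
theorem infl_bij {P S C : Subgroup G} (hn : ∀ s ∈ S, Nz s P) (hPS : ∀ u ∈ P, u ∈ S → u = 1) (hCS : C ≤ S) (hCn : ∀ s ∈ S, Nz s C)
    (hCP : ∀ c ∈ C, ∀ u ∈ P, c * u = u * c) {θs : G → ℂ} (hθs : θs ∈ IrrS C) :
    Set.BijOn (tens P S (fun _ => 1)) {β | β ∈ IrrS S ∧ Over C β θs} {α | α ∈ IrrS (P ⊔ S) ∧ Over (P ⊔ C) α (tens P C (fun _ => 1) θs)} := by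
  have hnC : ∀ s ∈ C, Nz s P := fun s hs => hn s (hCS hs)
  have hPC : ∀ u ∈ P, u ∈ C → u = 1 := fun u hu hu' => hPS u hu (hCS hu')
  have hθt := infl_irrS hnC hPC hθs
  have hNT : P ⊔ C ≤ P ⊔ S := sup_le_sup_left hCS P
  have hmem := fun g : G => mem_PK (g := g) (K10_hc hn)
  have hnP : ∀ t ∈ P ⊔ S, Nz t P := by
    intro t ht
    obtain ⟨u, hu, s, hs, rfl⟩ := (hmem t).1 ht
    exact nz_mul (nz_mem hu) (hn s hs)
  have hnT : ∀ t ∈ P ⊔ S, Nz t (P ⊔ C) := by
    intro t ht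
    obtain ⟨u, hu, s, hs, rfl⟩ := (hmem t).1 ht
    exact nz_mul (nz_mem (Subgroup.mem_sup_left hu)) (K10_nz_sup (hn s hs) (hCn s hs))
  refine ⟨?_, ?_, ?_⟩
  · rintro β ⟨hβ, hov⟩
    refine ⟨infl_irrS hn hPS hβ, ?_⟩
    unfold Over
    rw [K10_over hn hPS hCS]
    exact hov
  · rintro β ⟨hβ, -⟩ β' ⟨hβ', -⟩ h
    funext s
    by_cases hs : s ∈ S
    · have h1 := congrFun h (1 * s)
      rw [tens_apply hPS _ _ P.one_mem hs, tens_apply hPS _ _ P.one_mem hs, one_mul, one_mul] at h1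
      exact h1
    · rw [hβ.1 s hs, hβ'.1 s hs]
  · rintro α ⟨hα, hov⟩
    have hcf := cf_charS (charS_of_irrS hα)
    -- `α` is constant on `P`
    have hconst : ∀ u ∈ P, α u = α 1 := by
      have hres := clifford_res hNT hnT hα hθt hov
      have h1 : ∀ u ∈ P, α u = (mu (P ⊔ C) α (tens P C (fun _ => 1) θs) : ℂ) * ∑ φ ∈ orb (P ⊔ S) (tens P C (fun _ => 1) θs), θs 1 := by
        intro u hu
        have h2 := congrFun hres u
        have h3 : rs (P ⊔ C) α u = α u := by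
          unfold rs
          rw [if_pos (Subgroup.mem_sup_left hu)]
        rw [← h3, h2, Pi.smul_apply, Finset.sum_apply, smul_eq_mul]
        congr 1
        refine Finset.sum_congr rfl fun φ hφ => ?_
        obtain ⟨t, ht, rfl⟩ := mem_orb.1 hφ
        have h4 : t⁻¹ * u * t ∈ P := by
          rw [hnP t ht]
          have h5 : t * (t⁻¹ * u * t) * t⁻¹ = u := by group
          rw [h5]
          exact hu
        have h6 := tens_apply hPC (fun _ => 1) θs h4 C.one_mem
        rw [mul_one, one_mul] at h6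
        exact h6
      intro u hu
      rw [h1 u hu, h1 1 P.one_mem]
    -- the average is a class function
    have hav : IsCF S (K10_av P S α) := by
      refine ⟨fun g hg => if_neg hg, fun t ht g => ?_⟩
      unfold K10_av
      by_cases hg : g ∈ S
      · rw [if_pos hg, if_pos (S.mul_mem (S.mul_mem ht hg) (S.inv_mem ht))]
        congr 1
        rw [← Equiv.sum_comp (MulAut.conj t).toEquiv]
        refine Finset.sum_congr rfl fun u _ => ?_
        have e1 : (MulAut.conj t).toEquiv u = t * u * t⁻¹ := rfl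
        rw [e1]
        by_cases hu : u ∈ P
        · rw [if_pos hu, if_pos ((hn t ht u).1 hu)]
          have e2 : t * u * t⁻¹ * (t * g * t⁻¹) = t * (u * g) * t⁻¹ := by group
          rw [e2, hcf.2 t (Subgroup.mem_sup_right ht)]
        · rw [if_neg hu, if_neg (fun h => hu ((hn t ht u).2 h))]
      · rw [if_neg hg, if_neg (fun h => hg ((A15_conj_mem ht g).1 h))]
    have hav1 : K10_av P S α 1 = α 1 := by
      unfold K10_av
      have h1 : ∀ u : G, (if u ∈ P then α (u * 1) else 0) = if u ∈ P then α 1 else 0 := by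
        intro u
        by_cases hu : u ∈ P
        · rw [if_pos hu, if_pos hu, mul_one, hconst u hu]
        · rw [if_neg hu, if_neg hu]
      rw [if_pos S.one_mem, Finset.sum_congr rfl (fun u _ => h1 u), A15_sum_mem, inv_mul_cancel_left₀ (A15_card_ne P)]
    obtain ⟨n, hn0, hn1⟩ := irrS_one hα
    have hne : α 1 ≠ 0 := by
      rw [hn1]
      exact_mod_cast hn0.ne'
    obtain ⟨β, hβ, hβne⟩ : ∃ β ∈ IrrS S, ip S (K10_av P S α) β ≠ 0 := by
      by_contra hcon
      push Not at hcon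
      apply hne
      rw [← hav1, cf_expand hav]
      rw [Finset.sum_eq_zero]
      · rfl
      · intro φ hφ
        rw [hcon φ (mem_irr.1 hφ), zero_smul]
    have hinfl := infl_irrS hn hPS hβ
    have heq : α = tens P S (fun _ => 1) β := by
      by_contra hne2
      apply hβne
      rw [← K10_ip hn hPS, irrS_ortho hα hinfl, if_neg hne2]
    refine ⟨β, ⟨hβ, ?_⟩, heq.symm⟩
    unfold Over at hov ⊢
    rw [heq, K10_over hn hPS hCS] at hov
    exact hov

end Pool.Agent.Lib.H90Q
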