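import Mathlib

namespace Pool.Agent.Lib.H90Q

/-- Glueing of block bijections. For every pair `(B i, B' i)` there is a bijection `B i → B' i` with the property `R`; the blocks are disjoint or (both) equal; then there is a bijection between the unions with
the property `R`. Proof: for each `i` choose the bijection `F (B i, B' i)`, depending only on the pair of sets; for `a` in the union choose an index `i` with `a ∈ B i` and put `f a = F (B i, B' i) a`; the pair does not depend on the
choice of `i`. -/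
theorem glue {ι α β : Type*} (B : ι → Set α) (B' : ι → Set β) (R : α → β → Prop)
    (h1 : ∀ i j, (B i ∩ B j).Nonempty → B i = B j ∧ B' i = B' j) (h2 : ∀ i j, (B' i ∩ B' j).Nonempty → B i = B j ∧ B' i = B' j)
    (h3 : ∀ i, ∃ f : α → β, Set.BijOn f (B i) (B' i) ∧ ∀ a ∈ B i, R a (f a)) [Nonempty β] :
    ∃ f : α → β, Set.BijOn f (⋃ i, B i) (⋃ i, B' i) ∧ ∀ a ∈ ⋃ i, B i, R a (f a) := by
  classical
  let P : Set α → Set β → (α → β) → Prop := fun S S' f => Set.BijOn f S S' ∧ ∀ a ∈ S, R a (f a)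
  let F : Set α → Set β → α → β := fun S S' =>
    if h : ∃ f : α → β, P S S' f then h.choose else fun _ => Classical.arbitrary β
  have hF : ∀ i, P (B i) (B' i) (F (B i) (B' i)) := by
    intro i
    have h : ∃ f : α → β, P (B i) (B' i) f := h3 i
    have h' : F (B i) (B' i) = h.choose := dif_pos h
    rw [h']
    exact h.choose_spec
  let f : α → β := fun a =>
    if h : ∃ i, a ∈ B i then F (B h.choose) (B' h.choose) a else Classical.arbitrary β
  have hf : ∀ i, ∀ a ∈ B i, f a = F (B i) (B' i) a := by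
    intro i a ha
    have h : ∃ i, a ∈ B i := ⟨i, ha⟩
    have h' : f a = F (B h.choose) (B' h.choose) a := dif_pos h
    have h'' := h1 i h.choose ⟨a, ha, h.choose_spec⟩
    rw [h', ← h''.1, ← h''.2]
  refine ⟨f, ⟨?_, ?_, ?_⟩, ?_⟩
  · intro a ha
    obtain ⟨i, hi⟩ := Set.mem_iUnion.mp ha
    rw [hf i a hi]
    exact Set.mem_iUnion.mpr ⟨i, (hF i).1.mapsTo hi⟩
  · intro a ha a' ha' haa
    obtain ⟨i, hi⟩ := Set.mem_iUnion.mp ha
    obtain ⟨j, hj⟩ := Set.mem_iUnion.mp ha'
    have e1 := (hF i).1.mapsTo hi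
    have e2 := (hF j).1.mapsTo hj
    rw [← hf i a hi] at e1
    rw [← hf j a' hj, ← haa] at e2
    have h := h2 i j ⟨_, e1, e2⟩
    have hj' : a' ∈ B i := h.1 ▸ hj
    rw [hf i a hi, hf i a' hj'] at haa
    exact (hF i).1.injOn hi hj' haa
  · intro b hb
    obtain ⟨i, hi⟩ := Set.mem_iUnion.mp hb
    obtain ⟨a, ha, hab⟩ := (hF i).1.surjOn hi
    refine ⟨a, Set.mem_iUnion.mpr ⟨i, ha⟩, ?_⟩
    rw [hf i a ha]
    exact hab
  · intro a ha
    obtain ⟨i, hi⟩ := Set.mem_iUnion.mp ha
    rw [hf i a hi]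
    exact (hF i).2 a hi

end Pool.Agent.Lib.H90Q
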