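import Mathlib

/-!
# MP_a8e959_al: an element of order prime to `p` of `P k` is conjugate to `k` (helper61)
-/

namespace Pool.Agent.Lib.H90Q

variable {G : Type*} [Group G]

/-- `w = v (k v k⁻¹)⁻¹` commutes with `k`: then `v = w ^ m (k ^ m v k ^ (-m))`. -/
private lemma gt4_pow {v k w : G} (hw : v = w * (k * v * k⁻¹)) (hc : k * w = w * k) (m : ℕ) :
    v = w ^ m * (k ^ m * v * (k ^ m)⁻¹) := by
  induction m with
  | zero => simp
  | succ m ih =>
    have hc' : k ^ m * w = w * k ^ m := ((show Commute k w from hc).pow_left m)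
    calc v = w ^ m * (k ^ m * v * (k ^ m)⁻¹) := ih
      _ = w ^ m * (k ^ m * (w * (k * v * k⁻¹)) * (k ^ m)⁻¹) := by rw [← hw]
      _ = w ^ m * ((k ^ m * w) * (k * v * k⁻¹) * (k ^ m)⁻¹) := by group
      _ = w ^ m * ((w * k ^ m) * (k * v * k⁻¹) * (k ^ m)⁻¹) := by rw [hc']
      _ = w ^ (m + 1) * (k ^ (m + 1) * v * (k ^ (m + 1))⁻¹) := by
        rw [pow_succ w, pow_succ k, mul_inv_rev]
        simp only [mul_assoc]

/-- An element of a `p`-group killed by a power prime to `p` is trivial. -/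
private lemma gt4_one {p : ℕ} (hp : p.Prime) {P : Subgroup G} (hPp : IsPGroup p P) {w : G} (hw : w ∈ P) {n : ℕ}
    (hn : ¬ p ∣ n) (h : w ^ n = 1) : w = 1 := by
  obtain ⟨k, hk⟩ := hPp ⟨w, hw⟩
  have hk' : w ^ p ^ k = 1 := congrArg Subtype.val hk
  have h1 : orderOf w ∣ Nat.gcd (p ^ k) n := Nat.dvd_gcd (orderOf_dvd_of_pow_eq_one hk') (orderOf_dvd_of_pow_eq_one h)
  have h2 : Nat.gcd (p ^ k) n = 1 := Nat.Coprime.pow_left k ((Nat.Prime.coprime_iff_not_dvd hp).mpr hn)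
  rw [h2, Nat.dvd_one] at h1
  exact orderOf_eq_one_iff.mp h1

/-- `P` an abelian `p`-subgroup, `k` an element of order prime to `p` normalising `P`, `u ∈ P`. If `u k` has order prime to `p` then
`u k` is conjugate to `k` by an element of `P`. -/
theorem gt4_conj [Finite G] {p : ℕ} (hp : p.Prime) (P : Subgroup G) (hPp : IsPGroup p P)
    (hP : ∀ a ∈ P, ∀ b ∈ P, a * b = b * a) {k u : G} (hk : k ∈ Subgroup.normalizer (P : Set G))
    (hkp : ¬ p ∣ orderOf k) (hu : u ∈ P) (hy : ¬ p ∣ orderOf (u * k)) :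
    ∃ v ∈ P, v⁻¹ * (u * k) * v = k := by
  have hσ : ∀ v ∈ P, k * v * k⁻¹ ∈ P := fun v hv => (Subgroup.mem_normalizer_iff.mp hk v).mp hv
  let φ : P →* P :=
    { toFun := fun v => ⟨v * (k * v * k⁻¹)⁻¹, P.mul_mem v.2 (P.inv_mem (hσ v v.2))⟩
      map_one' := Subtype.ext (by simp)
      map_mul' := fun a b => Subtype.ext (by
        have h1 : (b : G) * (k * a * k⁻¹)⁻¹ = (k * a * k⁻¹)⁻¹ * b := hP _ b.2 _ (P.inv_mem (hσ a a.2))
        have h2 : (k * (a : G) * k⁻¹) * (k * b * k⁻¹) = (k * b * k⁻¹) * (k * a * k⁻¹) := hP _ (hσ a a.2) _ (hσ b b.2)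
        have h3 : (k * ((a : G) * b) * k⁻¹) = (k * b * k⁻¹) * (k * a * k⁻¹) := by rw [← h2]; group
        change (a : G) * b * (k * (a * b) * k⁻¹)⁻¹ = a * (k * a * k⁻¹)⁻¹ * (b * (k * b * k⁻¹)⁻¹)
        rw [h3, mul_inv_rev]
        calc (a : G) * b * ((k * a * k⁻¹)⁻¹ * (k * b * k⁻¹)⁻¹)
            = a * (b * (k * a * k⁻¹)⁻¹) * (k * b * k⁻¹)⁻¹ := by group
          _ = a * ((k * a * k⁻¹)⁻¹ * b) * (k * b * k⁻¹)⁻¹ := by rw [h1]
          _ = a * (k * a * k⁻¹)⁻¹ * (b * (k * b * k⁻¹)⁻¹) := by group) }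
  have hφ : ∀ v : P, ((φ v : P) : G) = v * (k * v * k⁻¹)⁻¹ := fun v => rfl
  set n := orderOf k * orderOf (u * k) with hn
  have hnp : ¬ p ∣ n := by
    intro h
    rcases (Nat.Prime.dvd_mul hp).mp h with h | h
    · exact hkp h
    · exact hy h
  have hkn : k ^ n = 1 := by rw [hn, pow_mul, pow_orderOf_eq_one, one_pow]
  have hyn : (u * k) ^ n = 1 := by rw [hn, mul_comm, pow_mul, pow_orderOf_eq_one, one_pow]
  -- `φ` is injective on its range
  have hinj : ∀ w ∈ φ.range, φ w = 1 → w = 1 := by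
    rintro w ⟨v, rfl⟩ h
    have h1 : ((φ v : P) : G) * (k * (φ v : P) * k⁻¹)⁻¹ = 1 := by rw [← hφ, h]; rfl
    have h2 : k * ((φ v : P) : G) = ((φ v : P) : G) * k := by
      have := mul_inv_eq_one.mp h1
      calc k * ((φ v : P) : G) = (k * ((φ v : P) : G) * k⁻¹) * k := by group
        _ = ((φ v : P) : G) * k := by rw [← this]
    have h3 : (v : G) = ((φ v : P) : G) * (k * v * k⁻¹) := by rw [hφ]; group
    have h4 := gt4_pow h3 h2 n
    rw [hkn, one_mul, inv_one, mul_one] at h4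
    have h5 : ((φ v : P) : G) ^ n = 1 := by
      have : (1 : G) * v = ((φ v : P) : G) ^ n * v := by rw [one_mul]; exact h4
      exact (mul_right_cancel this).symm
    exact Subtype.ext (gt4_one hp hPp (φ v).2 hnp h5)
  let θ : φ.range → φ.range := fun w => ⟨φ w, ⟨w, rfl⟩⟩
  have hθ : Function.Injective θ := by
    intro a b hab
    have h1 : φ (a : P) = φ (b : P) := congrArg Subtype.val hab
    have h2 : φ ((a : P) * (b : P)⁻¹) = 1 := by rw [map_mul, map_inv, h1, mul_inv_cancel]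
    have h3 := hinj _ (φ.range.mul_mem a.2 (φ.range.inv_mem b.2)) h2
    exact Subtype.ext (mul_inv_eq_one.mp h3)
  have hθs : Function.Surjective θ := Finite.surjective_of_injective hθ
  obtain ⟨⟨w, ⟨v, hv⟩⟩, hw⟩ := hθs ⟨φ ⟨u, hu⟩, ⟨_, rfl⟩⟩
  have hw' : φ w = φ ⟨u, hu⟩ := congrArg Subtype.val hw
  -- `u = φ v * c` with `c` in the kernel
  set c : P := (⟨u, hu⟩ : P) * w⁻¹ with hc
  have hcφ : φ c = 1 := by rw [hc, map_mul, map_inv, hw', mul_inv_cancel]
  have hcomm : k * (c : G) = c * k := by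
    have h1 : (c : G) * (k * c * k⁻¹)⁻¹ = 1 := by rw [← hφ, hcφ]; rfl
    have := mul_inv_eq_one.mp h1
    calc k * (c : G) = (k * (c : G) * k⁻¹) * k := by group
      _ = (c : G) * k := by rw [← this]
  have hu' : u = (c : G) * (v * (k * v * k⁻¹)⁻¹) := by
    have h1 : (c : G) * (w : G) = u := by
      have h2 : c * w = ⟨u, hu⟩ := by rw [hc, inv_mul_cancel_right]
      exact congrArg Subtype.val h2
    rw [← h1, ← hφ, hv]
  have hconj : (v : G)⁻¹ * (u * k) * v = c * k := by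
    have h1 : (v : G)⁻¹ * c = c * (v : G)⁻¹ := hP _ (P.inv_mem v.2) _ c.2
    calc (v : G)⁻¹ * (u * k) * v = ((v : G)⁻¹ * c) * v * (k * v * k⁻¹)⁻¹ * k * v := by rw [hu']; group
      _ = (c * (v : G)⁻¹) * v * (k * v * k⁻¹)⁻¹ * k * v := by rw [h1]
      _ = c * k := by group
  have hck : ((c : G) * k) ^ n = 1 := by
    rw [← hconj]
    have h1 : ((v : G)⁻¹ * (u * k) * v) ^ n = (v : G)⁻¹ * (u * k) ^ n * v := by
      have h2 := conj_pow (i := n) (a := (v : G)⁻¹) (b := u * k)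
      rwa [inv_inv] at h2
    rw [h1, hyn, mul_one, inv_mul_cancel]
  have hcn : (c : G) ^ n = 1 := by
    have h1 : Commute (c : G) k := hcomm.symm
    rw [h1.mul_pow, hkn, mul_one] at hck
    exact hck
  have hc1 : (c : G) = 1 := gt4_one hp hPp c.2 hnp hcn
  refine ⟨v, v.2, ?_⟩
  rw [hconj, hc1, one_mul]

end Pool.Agent.Lib.H90Q
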