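import Pool.Agent.Lib.H90Q.A19

open scoped Classical ComplexConjugate BigOperators

noncomputable section

namespace Pool.Agent.Lib.H90Q

variable {G : Type*} [Group G] [Fintype G]

/-- Nonvanishing. `L` normal in `G`, `x` of order a power of `p`, `y` of order prime to `p` commuting with `x`, `χ (x y) ≠ 0`: `χ` lies over some `x`-invariant `θ ∈ Irr L`.
Proof. `T = L ⊔ zpowers (x * y)`; `rs T χ` is a sum of irreducible characters `Ψ` of `T` (`charS_expand`), one of them, with `mu T χ Ψ > 0`, has `Ψ (x y) ≠ 0`. `T / L` is cyclic, generated by `x y`. If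
`l ∈ LinS T L` and `l * Ψ = Ψ` then `l (x y) = 1`, so `l = 1` on `T` (the set where it is `1` is a subgroup containing `L` and `x y`): so by `abel_norm` `ip L Ψ Ψ = 1`, and
`rs L Ψ` is irreducible (`charS_rs`, `irrS_of_norm_one`): `θ = rs L Ψ`. It is invariant under `x y` (`Ψ` is a class function of `T`), hence under all powers of `x y`,
and `x` is a power of `x y` (coprime orders of commuting elements). `χ` over `Ψ` over `θ`: `over_trans`. -/
theorem nonvanish_over {p : ℕ} (hp : p.Prime) {L : Subgroup G} (hn : ∀ g, Nz g L) {x y : G} {a : ℕ} (hx : x ^ p ^ a = 1) (hxy : y * x = x * y)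
    (hy : (orderOf y).Coprime p) {χ : G → ℂ} (hχ : χ ∈ IrrS ⊤) (hne : χ (x * y) ≠ 0) : ∃ θ ∈ IrrS L, cj x θ = θ ∧ Over L χ θ := by
  set g := x * y with hg
  have hLn : L.Normal := ⟨fun l hl b => (hn b l).mp hl⟩
  set T : Subgroup G := L ⊔ Subgroup.zpowers g with hT
  have hLT : L ≤ T := le_sup_left
  have hgT : g ∈ T := Subgroup.mem_sup_right (Subgroup.mem_zpowers g)
  -- `T / L` is cyclic
  have hmap : ∀ a ∈ T, QuotientGroup.mk' L a ∈ Subgroup.zpowers (QuotientGroup.mk' L g) := by
    intro a ha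
    have h1 : T ≤ (Subgroup.zpowers (QuotientGroup.mk' L g)).comap (QuotientGroup.mk' L) := by
      refine sup_le (fun l hl => ?_) ?_
      · rw [Subgroup.mem_comap]
        have e : QuotientGroup.mk' L l = 1 := (QuotientGroup.eq_one_iff l).mpr hl
        rw [e]
        exact Subgroup.one_mem _
      · rw [Subgroup.zpowers_le, Subgroup.mem_comap]
        exact Subgroup.mem_zpowers _
    exact h1 ha
  have hab : ∀ a ∈ T, ∀ b ∈ T, a * b * a⁻¹ * b⁻¹ ∈ L := by
    intro a ha b hb
    obtain ⟨i, hi⟩ := Subgroup.mem_zpowers_iff.mp (hmap a ha)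
    obtain ⟨j, hj⟩ := Subgroup.mem_zpowers_iff.mp (hmap b hb)
    have e : QuotientGroup.mk' L (a * b * a⁻¹ * b⁻¹) = 1 := by
      rw [map_mul, map_mul, map_mul, map_inv, map_inv, ← hi, ← hj]
      group
    exact (QuotientGroup.eq_one_iff _).mp e
  -- the constituent
  have hχc := charS_of_irrS hχ
  have hexp := congrFun (charS_expand (K := T) le_top hχc) g
  have hL1 : rs T χ g = χ g := if_pos hgT
  rw [hL1, Finset.sum_apply] at hexp
  obtain ⟨Ψ, hΨ, hΨ0⟩ : ∃ Ψ ∈ irr T, ((mu T χ Ψ : ℂ) • Ψ) g ≠ 0 := by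
    by_contra hcon
    push Not at hcon
    rw [Finset.sum_eq_zero hcon] at hexp
    exact hne hexp
  have hΨ' : Ψ ∈ IrrS T := mem_irr.mp hΨ
  have hmu : (mu T χ Ψ : ℂ) ≠ 0 := fun h => hΨ0 (by rw [h, zero_smul]; rfl)
  have hΨg : Ψ g ≠ 0 := fun h => hΨ0 (by
    change (mu T χ Ψ : ℂ) * Ψ g = 0
    rw [h, mul_zero])
  have hov : Over T χ Ψ := by
    unfold Over
    rw [← mu_spec (K := T) le_top hχc hΨ']
    exact hmu
  -- the norm on `L` is one
  have hnorm : ip L Ψ Ψ = 1 := by
    rw [abel_norm hLT hab hΨ']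
    have h1 : (lin_finite T L).toFinset.filter (fun l => l * Ψ = Ψ) = {fun x => if x ∈ T then (1 : ℂ) else 0} := by
      ext l
      rw [Finset.mem_filter, Set.Finite.mem_toFinset, Finset.mem_singleton]
      constructor
      · rintro ⟨hl, he⟩
        have hlg : l g = 1 := by
          have h2 := congrFun he g
          change l g * Ψ g = Ψ g at h2
          exact mul_right_cancel₀ hΨg (by rw [h2, one_mul])
        let U : Subgroup G :=
          { carrier := {t | t ∈ T ∧ l t = 1}
            mul_mem' := fun {a b} ha hb => ⟨T.mul_mem ha.1 hb.1, by rw [hl.2.2 a ha.1 b hb.1, ha.2, hb.2, mul_one]⟩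
            one_mem' := ⟨T.one_mem, lin_one hl⟩
            inv_mem' := fun {a} ha => ⟨T.inv_mem ha.1, by
              have h3 := hl.2.2 a ha.1 a⁻¹ (T.inv_mem ha.1)
              rw [mul_inv_cancel, lin_one hl, ha.2, one_mul] at h3
              exact h3.symm⟩ }
        have hU : T ≤ U := sup_le (fun t ht => ⟨hLT ht, hl.2.1 t ht⟩) (by
          rw [Subgroup.zpowers_le]; exact ⟨hgT, hlg⟩)
        funext t
        by_cases ht : t ∈ T
        · rw [if_pos ht]; exact (hU ht).2
        · rw [if_neg ht]; exact hl.1 t ht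
      · rintro rfl
        refine ⟨lin_triv hLT, ?_⟩
        funext t
        change (if t ∈ T then (1 : ℂ) else 0) * Ψ t = Ψ t
        by_cases ht : t ∈ T
        · rw [if_pos ht, one_mul]
        · rw [if_neg ht, zero_mul, hΨ'.1 t ht]
    rw [h1, Finset.card_singleton, Nat.cast_one]
  have hΨc := charS_of_irrS hΨ'
  have hcf := cf_charS hΨc
  have hrs : ∀ t ∈ L, rs L Ψ t = Ψ t := fun t ht => if_pos ht
  have hθ : rs L Ψ ∈ IrrS L := irrS_of_norm_one (charS_rs hLT hΨc) (by
    rw [ip_congr L hrs hrs]; exact hnorm)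
  refine ⟨rs L Ψ, hθ, ?_, ?_⟩
  · -- `x` is a power of `x y`
    have hxT : x ∈ T := by
      have hco : Nat.Coprime (p ^ a) (orderOf y) := Nat.Coprime.pow_left a hy.symm
      obtain ⟨n, hn1, hn2⟩ := Nat.chineseRemainder hco 1 0
      have h1 : g ^ n = x := by
        rw [hg, (show Commute x y from hxy.symm).mul_pow]
        have h2 : y ^ n = 1 := orderOf_dvd_iff_pow_eq_one.mp ((Nat.modEq_zero_iff_dvd).mp hn2)
        have h3 : x ^ n = x ^ 1 := by
          rw [pow_eq_pow_iff_modEq]
          exact Nat.ModEq.of_dvd (orderOf_dvd_of_pow_eq_one hx) hn1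
        rw [h2, h3, pow_one, mul_one]
      rw [← h1]
      exact T.pow_mem hgT n
    funext t
    change (if x⁻¹ * t * x ∈ L then Ψ (x⁻¹ * t * x) else 0) = if t ∈ L then Ψ t else 0
    have h1 : x⁻¹ * t * x ∈ L ↔ t ∈ L := by
      have h2 := hn x⁻¹ t
      rw [inv_inv] at h2
      exact h2.symm
    have h3 : Ψ (x⁻¹ * t * x) = Ψ t := by
      have h4 := hcf.2 x⁻¹ (T.inv_mem hxT) t
      rwa [inv_inv] at h4
    by_cases ht : t ∈ L
    · rw [if_pos (h1.mpr ht), if_pos ht, h3]
    · rw [if_neg (fun h => ht (h1.mp h)), if_neg ht]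
  · refine over_trans hLT le_top hχ hΨ' hθ hov ?_
    unfold Over
    rw [ip_congr L (fun t _ => rfl) hrs, hnorm]
    exact one_ne_zero

end Pool.Agent.Lib.H90Q
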