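import Pool.Agent.Lib.H90Q.A17

open scoped Classical ComplexConjugate BigOperators

noncomputable section

namespace Pool.Agent.Lib.H90Q

variable {G : Type*} [Group G] [Fintype G]

private theorem F1_count {M U N T : Subgroup G} (hMT : M ≤ T) (hUT : U ≤ T) (hT : ∀ t ∈ T, ∃ m ∈ M, ∃ u ∈ U, t = m * u) (hN : M ⊓ U = N)
    (F : G → ℂ) : ∑ m : G, ∑ v : G, (if m ∈ M then (if v ∈ U then F (m * v) else 0) else 0)
      = (Nat.card N : ℂ) * ∑ t : G, (if t ∈ T then F t else 0) := by
  have h1 : ∀ m : G, ∑ v : G, (if m ∈ M then (if v ∈ U then F (m * v) else 0) else 0)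
      = ∑ t : G, (if m ∈ M ∧ m⁻¹ * t ∈ U then F t else 0) := by
    intro m
    rw [← Equiv.sum_comp (Equiv.mulLeft m) (fun t => if m ∈ M ∧ m⁻¹ * t ∈ U then F t else 0)]
    refine Finset.sum_congr rfl fun v _ => ?_
    simp only [Equiv.coe_mulLeft, inv_mul_cancel_left]
    by_cases hm : m ∈ M <;> by_cases hv : v ∈ U <;> simp [hm, hv]
  rw [Finset.sum_congr rfl fun m _ => h1 m, Finset.sum_comm, Finset.mul_sum]
  refine Finset.sum_congr rfl fun t _ => ?_
  by_cases ht : t ∈ T
  · obtain ⟨m0, hm0, v0, hv0, rfl⟩ := hT t ht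
    rw [if_pos ht, ← A15_sum_mem N (F (m0 * v0)),
      ← Equiv.sum_comp ((Equiv.inv G).trans (Equiv.mulRight m0)) (fun n => if n ∈ N then F (m0 * v0) else 0)]
    refine Finset.sum_congr rfl fun m _ => ?_
    have h2 : (m ∈ M ∧ m⁻¹ * (m0 * v0) ∈ U) ↔ ((Equiv.inv G).trans (Equiv.mulRight m0)) m ∈ N := by
      rw [← hN, Subgroup.mem_inf]
      simp only [Equiv.trans_apply, Equiv.inv_apply, Equiv.coe_mulRight]
      rw [← mul_assoc, Subgroup.mul_mem_cancel_right U hv0]
      refine and_congr_left fun _ => ?_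
      rw [Subgroup.mul_mem_cancel_right M hm0, Subgroup.inv_mem_iff]
    by_cases h3 : m ∈ M ∧ m⁻¹ * (m0 * v0) ∈ U
    · rw [if_pos h3, if_pos (h2.1 h3)]
    · rw [if_neg h3, if_neg (fun h => h3 (h2.2 h))]
  · rw [if_neg ht, mul_zero]
    refine Finset.sum_eq_zero fun m _ => ?_
    rw [if_neg]
    rintro ⟨h2, h3⟩
    apply ht
    have := T.mul_mem (hMT h2) (hUT h3)
    rwa [mul_inv_cancel_left] at this

private theorem F1_card {M U N T : Subgroup G} (hMT : M ≤ T) (hUT : U ≤ T) (hT : ∀ t ∈ T, ∃ m ∈ M, ∃ u ∈ U, t = m * u) (hN : M ⊓ U = N) :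
    Nat.card M * Nat.card U = Nat.card N * Nat.card T := by
  have h1 := F1_count hMT hUT hT hN (fun _ => (1 : ℂ))
  have h2 : ∀ m : G, ∑ v : G, (if m ∈ M then (if v ∈ U then (1 : ℂ) else 0) else 0) =
      if m ∈ M then (Nat.card U : ℂ) else 0 := by
    intro m
    by_cases hm : m ∈ M
    · simp only [if_pos hm]
      rw [A15_sum_mem U 1, mul_one]
    · simp only [if_neg hm, Finset.sum_const_zero]
  rw [Finset.sum_congr rfl fun m _ => h2 m, A15_sum_mem M, A15_sum_mem T, mul_one] at h1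
  exact_mod_cast h1

private theorem F1_ip_nat {U T : Subgroup G} (hUT : U ≤ T) {f g : G → ℂ} (hf : f ∈ CharS T) (hg : g ∈ CharS T) :
    ip U f g = ((∑ φ ∈ irr U, mu U f φ * mu U g φ : ℕ) : ℂ) := by
  have h1 : ip U f g = ip U (rs U f) (rs U g) :=
    ip_congr U (fun x hx => (if_pos hx).symm) (fun x hx => (if_pos hx).symm)
  rw [h1, parseval (cf_charS (charS_rs hUT hf)) (cf_charS (charS_rs hUT hg))]
  push_cast
  refine Finset.sum_congr rfl fun φ hφ => ?_
  have h2 : ∀ h : G → ℂ, h ∈ CharS T → ip U (rs U h) φ = (mu U h φ : ℂ) := by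
    intro h hh
    rw [mu_spec hUT hh (mem_irr.1 hφ)]
    exact ip_congr U (fun x hx => if_pos hx) (fun _ _ => rfl)
  rw [h2 f hf, h2 g hg, Complex.conj_natCast]

private theorem F1_rs {K U : Subgroup G} (hKU : K ≤ U) (f g : G → ℂ) : ip K (rs U f) g = ip K f g := by
  refine ip_congr K (fun x hx => ?_) (fun _ _ => rfl)
  unfold rs
  rw [if_pos (hKU hx)]

private theorem F1_rs2 (U : Subgroup G) (f g : G → ℂ) : ip U (rs U f) (rs U g) = ip U f g := by
  refine ip_congr U (fun x hx => ?_) (fun x hx => ?_) <;>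
  · unfold rs
    rw [if_pos hx]

/-- Mackey for `T = M U`, `N = M ∩ U`: the restriction to `U` of the induced function. Proof: for `u ∈ U` every `a ∈ T` is `m * v` with `m ∈ M`, `v ∈ U` in exactly
`|N|` ways, and `f (m * y * m⁻¹) = f y`; so `|N| * ∑_(a ∈ T) f (a u a⁻¹) = |M| * ∑_(v ∈ U) f (v u v⁻¹)`. -/
theorem mackey {M U N T : Subgroup G} (hMT : M ≤ T) (hUT : U ≤ T) (hT : ∀ t ∈ T, ∃ m ∈ M, ∃ u ∈ U, t = m * u) (hN : M ⊓ U = N)
    {f : G → ℂ} (hf : IsCF M f) : rs U (ind M T f) = ind N U (rs N f) := by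
  funext u
  by_cases hu : u ∈ U
  · have hN0 : (Nat.card N : ℂ) ≠ 0 := A15_card_ne N
    have hM0 : (Nat.card M : ℂ) ≠ 0 := A15_card_ne M
    have e1 : rs U (ind M T f) u = (Nat.card M : ℂ)⁻¹ * ∑ a : G, (if a ∈ T then f (a * u * a⁻¹) else 0) := by
      unfold rs ind
      rw [if_pos hu, if_pos (hUT hu)]
    have e2 : ind N U (rs N f) u = (Nat.card N : ℂ)⁻¹ * ∑ v : G, (if v ∈ U then f (v * u * v⁻¹) else 0) := by
      unfold ind
      rw [if_pos hu]
      congr 1
      refine Finset.sum_congr rfl fun v _ => ?_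
      by_cases hv : v ∈ U
      · rw [if_pos hv, if_pos hv]
        unfold rs
        by_cases h : v * u * v⁻¹ ∈ N
        · rw [if_pos h]
        · rw [if_neg h]
          refine (hf.1 _ fun hM => h ?_).symm
          rw [← hN]
          exact ⟨hM, U.mul_mem (U.mul_mem hv hu) (U.inv_mem hv)⟩
      · rw [if_neg hv, if_neg hv]
    have e3 := F1_count hMT hUT hT hN (fun a => f (a * u * a⁻¹))
    have e4 : ∀ m : G, ∑ v : G, (if m ∈ M then (if v ∈ U then f (m * v * u * (m * v)⁻¹) else 0) else 0) =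
        if m ∈ M then ∑ v : G, (if v ∈ U then f (v * u * v⁻¹) else 0) else 0 := by
      intro m
      by_cases hm : m ∈ M
      · simp only [if_pos hm]
        refine Finset.sum_congr rfl fun v _ => ?_
        by_cases hv : v ∈ U
        · rw [if_pos hv, if_pos hv, ← hf.2 m hm (v * u * v⁻¹)]
          congr 1
          group
        · rw [if_neg hv, if_neg hv]
      · simp only [if_neg hm, Finset.sum_const_zero]
    rw [Finset.sum_congr rfl fun m _ => e4 m, A15_sum_mem M] at e3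
    rw [e1, e2, inv_mul_eq_iff_eq_mul₀ hM0, ← mul_assoc, mul_comm (Nat.card M : ℂ), mul_assoc, e3,
      ← mul_assoc, inv_mul_cancel₀ hN0, one_mul]
  · unfold rs ind
    rw [if_neg hu, if_neg hu]

/-- Norm of the character induced from a normal subgroup, invariant `θ`: by `frob` and `ind_normal` it is `|T : N|`. -/
theorem ind_norm_inv {N T : Subgroup G} (hNT : N ≤ T) (hn : ∀ t ∈ T, Nz t N) {θ : G → ℂ} (hθ : θ ∈ IrrS N) (hinv : ∀ t ∈ T, cj t θ = θ) :
    ip T (ind N T θ) (ind N T θ) = (N.relIndex T : ℂ) := by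
  have hcf : IsCF N θ := cf_charS (charS_of_irrS hθ)
  have h1 : ∀ x ∈ N, ind N T θ x = ((N.relIndex T : ℂ) • θ) x := by
    intro x hx
    rw [ind_normal hNT hn hcf hx]
    have h2 : ∑ t : G, (if t ∈ T then cj t θ x else 0) = ∑ t : G, (if t ∈ T then θ x else 0) := by
      refine Finset.sum_congr rfl fun t _ => ?_
      by_cases ht : t ∈ T
      · rw [if_pos ht, if_pos ht, hinv t ht]
      · rw [if_neg ht, if_neg ht]
    rw [h2, A15_sum_mem, Pi.smul_apply, smul_eq_mul, ← A15_relIndex hNT]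
    push_cast
    have hN0 : (Nat.card N : ℂ) ≠ 0 := A15_card_ne N
    field_simp
  rw [frob hNT hcf (ind_cf hNT hcf), ip_conj N (ind N T θ) θ, ip_congr N h1 (fun _ _ => rfl), ip_smul_left,
    irrS_ortho hθ hθ, if_pos rfl, mul_one, Complex.conj_natCast]

/-- Restriction is a bijection. `T = M U`, `M` normal in `T`, `N = M ∩ U`, `Θ ∈ Irr M` is `T`-invariant and restricts to `θ ∈ Irr N`.
Proof. `ind M T Θ = ∑ e_α α` (`charS_expand'`), `e_α = mu M α Θ > 0` exactly for `α ∈ irrOver T M Θ` (`frob`), and `∑ e_α ^ 2 = |T : M|` (`ind_norm_inv`). By `mackey`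
`ind N U θ = ∑ e_α rs U α`, and `|U : N| = |T : M|` is its norm (`θ` is `U`-invariant), i.e. `∑ e_α e_β ip U α β = ∑ e_α ^ 2`, where `ip U α β` are natural numbers and `ip U α α ≥ 1`.
So `ip U α β = 0` for `α ≠ β` and `ip U α α = 1` (`irrS_of_norm_one`). Every `β ∈ irrOver U N θ` is a constituent of `ind N U θ` (`frob`), so it is one of the `rs U α`. -/
theorem res_bij {M U N T : Subgroup G} (hMT : M ≤ T) (hUT : U ≤ T) (hT : ∀ t ∈ T, ∃ m ∈ M, ∃ u ∈ U, t = m * u) (hN : M ⊓ U = N)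
    (hnM : ∀ t ∈ T, Nz t M) {Θ θ : G → ℂ} (hΘ : Θ ∈ IrrS M) (hθ : θ ∈ IrrS N) (hres : ∀ x ∈ N, Θ x = θ x) (hinv : ∀ t ∈ T, cj t Θ = Θ) :
    Set.BijOn (rs U) (irrOver T M Θ) (irrOver U N θ) := by
  have hNM : N ≤ M := hN ▸ inf_le_left
  have hNU : N ≤ U := hN ▸ inf_le_right
  have hΘc : Θ ∈ CharS M := charS_of_irrS hΘ
  have hΘcf : IsCF M Θ := cf_charS hΘc
  obtain ⟨I, hI⟩ : ∃ I, I = ind M T Θ := ⟨_, rfl⟩
  have hIc : I ∈ CharS T := hI ▸ ind_charS hMT hΘc
  have hrsN : rs N Θ = θ := by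
    funext x
    unfold rs
    by_cases hx : x ∈ N
    · rw [if_pos hx, hres x hx]
    · rw [if_neg hx, hθ.1 x hx]
  have hIU : rs U I = ind N U θ := by
    rw [hI, mackey hMT hUT hT hN hΘcf, hrsN]
  -- `N` is normal in `U`, `θ` is invariant
  have hnN : ∀ u ∈ U, Nz u N := by
    intro u hu g
    rw [← hN, Subgroup.mem_inf, Subgroup.mem_inf]
    refine and_congr (hnM u (hUT hu) g) ?_
    rw [Subgroup.mul_mem_cancel_right U (U.inv_mem hu), Subgroup.mul_mem_cancel_left U hu]
  have hθinv : ∀ u ∈ U, cj u θ = θ := by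
    intro u hu
    funext g
    have h1 := congrFun (hinv u (hUT hu)) g
    rw [cj_apply] at h1 ⊢
    by_cases hg : g ∈ N
    · have h2 : u⁻¹ * g * u ∈ N := by
        have := (hnN u⁻¹ (U.inv_mem hu) g).1 hg
        rwa [inv_inv] at this
      rw [← hres _ h2, h1, hres g hg]
    · have h2 : u⁻¹ * g * u ∉ N := by
        intro h3
        apply hg
        have := (hnN u hu _).1 h3
        have e : u * (u⁻¹ * g * u) * u⁻¹ = g := by group
        rwa [e] at this
      rw [hθ.1 _ h2, hθ.1 g hg]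
  have hidx : N.relIndex U = M.relIndex T := by
    have h1 := F1_card hMT hUT hT hN
    have h2 := A15_relIndex hNU
    have h3 := A15_relIndex hMT
    have h4 : 0 < Nat.card N := Nat.card_pos
    have h5 : 0 < Nat.card M := Nat.card_pos
    rw [← h2, ← h3] at h1
    have h6 : (Nat.card M * Nat.card N) * N.relIndex U = (Nat.card M * Nat.card N) * M.relIndex T := by
      calc (Nat.card M * Nat.card N) * N.relIndex U = Nat.card M * (Nat.card N * N.relIndex U) := by ring
        _ = Nat.card N * (Nat.card M * M.relIndex T) := h1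
        _ = (Nat.card M * Nat.card N) * M.relIndex T := by ring
    exact Nat.eq_of_mul_eq_mul_left (by positivity) h6
  -- multiplicities
  have he : ∀ α ∈ irr T, mu T I α = mu M α Θ := by
    intro α hα
    have hα' := mem_irr.1 hα
    have hαc := charS_of_irrS hα'
    have h1 : (mu T I α : ℂ) = (mu M α Θ : ℂ) := by
      rw [mu_spec le_rfl hIc hα', hI, frob hMT hΘcf (cf_charS hαc), ip_conj M α Θ, ← mu_spec hMT hαc hΘ,
        Complex.conj_natCast]
    exact_mod_cast h1
  have hexp : I = ∑ α ∈ irr T, (mu T I α : ℂ) • α := charS_expand' hIc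
  have hnorm1 : ip T I I = (M.relIndex T : ℂ) := by
    rw [hI]
    exact ind_norm_inv hMT hnM hΘ hinv
  have hnorm2 : ip T I I = ((∑ α ∈ irr T, mu T I α * mu T I α : ℕ) : ℂ) := F1_ip_nat le_rfl hIc hIc
  have hnorm3 : ip U I I = (M.relIndex T : ℂ) := by
    have h1 : ip U I I = ip U (rs U I) (rs U I) :=
      ip_congr U (fun x hx => (if_pos hx).symm) (fun x hx => (if_pos hx).symm)
    rw [h1, hIU, ind_norm_inv hNU hnN hθ hθinv, hidx]
  obtain ⟨nn, hnn⟩ : ∃ nn : (G → ℂ) → (G → ℂ) → ℕ, nn = fun α β => ∑ φ ∈ irr U, mu U α φ * mu U β φ := ⟨_, rfl⟩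
  have hipn : ∀ α ∈ irr T, ∀ β ∈ irr T, ip U α β = (nn α β : ℂ) := by
    intro α hα β hβ
    rw [hnn]
    exact F1_ip_nat hUT (charS_of_irrS (mem_irr.1 hα)) (charS_of_irrS (mem_irr.1 hβ))
  have hnorm4 : ip U I I = ((∑ α ∈ irr T, ∑ β ∈ irr T, mu T I α * mu T I β * nn α β : ℕ) : ℂ) := by
    have h1 : ip U I I = ip U (∑ α ∈ irr T, (mu T I α : ℂ) • α) (∑ β ∈ irr T, (mu T I β : ℂ) • β) := by
      rw [← hexp]
    have h2 : ∀ α ∈ irr T, ip U α (∑ β ∈ irr T, (mu T I β : ℂ) • β) = ∑ β ∈ irr T, (mu T I β : ℂ) * (nn α β : ℂ) := by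
      intro α hα
      rw [ip_conj U (∑ β ∈ irr T, (mu T I β : ℂ) • β) α, ip_sum_left, map_sum]
      refine Finset.sum_congr rfl fun β hβ => ?_
      rw [ip_smul_left, map_mul, Complex.conj_natCast, ← ip_conj U β α, hipn α hα β hβ]
    rw [h1, ip_sum_left]
    push_cast
    refine Finset.sum_congr rfl fun α hα => ?_
    rw [ip_smul_left, h2 α hα, Finset.mul_sum]
    exact Finset.sum_congr rfl fun β _ => by ring
  have hdiag : ∀ α ∈ irr T, 1 ≤ nn α α := by
    intro α hα
    have hα' := mem_irr.1 hα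
    have hαc := charS_of_irrS hα'
    rcases Nat.eq_zero_or_pos (nn α α) with h0 | h0
    · exfalso
      rw [hnn] at h0
      simp only at h0
      rw [Finset.sum_eq_zero_iff] at h0
      have h1 : rs U α = 0 := by
        rw [charS_expand hUT hαc]
        refine Finset.sum_eq_zero fun φ hφ => ?_
        rw [mul_self_eq_zero.1 (h0 φ hφ), Nat.cast_zero, zero_smul]
      obtain ⟨n, hn0, hn1⟩ := irrS_one hα'
      have h2 := congrFun h1 1
      unfold rs at h2
      rw [if_pos U.one_mem, hn1, Pi.zero_apply] at h2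
      have : n = 0 := by exact_mod_cast h2
      omega
    · exact h0
  have hkey : ∑ α ∈ irr T, ∑ β ∈ irr T, mu T I α * mu T I β * nn α β = ∑ α ∈ irr T, mu T I α * mu T I α := by
    have h1 := hnorm4.symm.trans (hnorm3.trans (hnorm1.symm.trans hnorm2))
    exact_mod_cast h1
  have hrow : ∀ α ∈ irr T, mu T I α * mu T I α ≤ ∑ β ∈ irr T, mu T I α * mu T I β * nn α β := by
    intro α hα
    calc mu T I α * mu T I α = mu T I α * mu T I α * 1 := (mul_one _).symm
      _ ≤ mu T I α * mu T I α * nn α α := Nat.mul_le_mul_left _ (hdiag α hα)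
      _ ≤ ∑ β ∈ irr T, mu T I α * mu T I β * nn α β :=
          Finset.single_le_sum (f := fun β => mu T I α * mu T I β * nn α β) (fun _ _ => Nat.zero_le _) hα
  have hroweq : ∀ α ∈ irr T, mu T I α * mu T I α = ∑ β ∈ irr T, mu T I α * mu T I β * nn α β :=
    (Finset.sum_eq_sum_iff_of_le hrow).1 hkey.symm
  have hone : ∀ α ∈ irr T, 0 < mu T I α → nn α α = 1 := by
    intro α hα h0
    have h1 : mu T I α * mu T I α * nn α α ≤ mu T I α * mu T I α := by
      calc mu T I α * mu T I α * nn α α ≤ ∑ β ∈ irr T, mu T I α * mu T I β * nn α β :=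
            Finset.single_le_sum (f := fun β => mu T I α * mu T I β * nn α β) (fun _ _ => Nat.zero_le _) hα
        _ = mu T I α * mu T I α := (hroweq α hα).symm
    have h2 : nn α α ≤ 1 := by
      refine Nat.le_of_mul_le_mul_left ?_ (Nat.mul_pos h0 h0)
      rwa [mul_one]
    have h3 := hdiag α hα
    omega
  have hoff : ∀ α ∈ irr T, ∀ β ∈ irr T, 0 < mu T I α → 0 < mu T I β → α ≠ β → nn α β = 0 := by
    intro α hα β hβ h0 h0' hne
    have h1 : mu T I α * mu T I α * nn α α + mu T I α * mu T I β * nn α β ≤ mu T I α * mu T I α := by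
      calc mu T I α * mu T I α * nn α α + mu T I α * mu T I β * nn α β
          = ∑ γ ∈ ({α, β} : Finset (G → ℂ)), mu T I α * mu T I γ * nn α γ := by
            rw [Finset.sum_pair hne]
        _ ≤ ∑ γ ∈ irr T, mu T I α * mu T I γ * nn α γ := by
            refine Finset.sum_le_sum_of_subset ?_
            intro γ hγ
            rcases Finset.mem_insert.1 hγ with h | h
            · rw [h]; exact hα
            · rw [Finset.mem_singleton.1 h]; exact hβ
        _ = mu T I α * mu T I α := (hroweq α hα).symm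
    rw [hone α hα h0, mul_one] at h1
    have h2 : mu T I α * mu T I β * nn α β = 0 := by omega
    rcases Nat.mul_eq_zero.1 h2 with h3 | h3
    · exact absurd h3 (Nat.mul_pos h0 h0').ne'
    · exact h3
  have hover0 : Over N Θ θ := by
    unfold Over
    rw [ip_congr N (fun x hx => hres x hx) (fun _ _ => rfl), irrS_ortho hθ hθ, if_pos rfl]
    exact one_ne_zero
  have hirr : ∀ α ∈ irr T, 0 < mu T I α → rs U α ∈ IrrS U := by
    intro α hα h0
    refine irrS_of_norm_one (charS_rs hUT (charS_of_irrS (mem_irr.1 hα))) ?_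
    rw [F1_rs2, hipn α hα α hα, hone α hα h0, Nat.cast_one]
  have hmem : ∀ α, α ∈ irrOver T M Θ ↔ α ∈ irr T ∧ 0 < mu T I α := by
    intro α
    rw [mem_irrOver, mem_irr]
    refine and_congr_right fun hα => ?_
    rw [he α (mem_irr.2 hα)]
    exact A15_over_iff hMT (charS_of_irrS hα) hΘ
  refine ⟨fun α hα => ?_, fun α hα β hβ hαβ => ?_, fun β hβ => ?_⟩
  · obtain ⟨h1, h2⟩ := (hmem α).1 hα
    have h3 := (mem_irrOver.1 hα).2
    refine mem_irrOver.2 ⟨hirr α h1 h2, ?_⟩
    have h4 := over_trans hNM hMT (mem_irr.1 h1) hΘ hθ h3 hover0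
    unfold Over at h4 ⊢
    rwa [F1_rs hNU]
  · obtain ⟨h1, h2⟩ := (hmem α).1 hα
    obtain ⟨h3, h4⟩ := (hmem β).1 hβ
    by_contra hne
    have h5 := hoff α h1 β h3 h2 h4 hne
    have h6 : ip U α β = ip U α α := by
      refine ip_congr U (fun _ _ => rfl) (fun x hx => ?_)
      have h7 := congrFun hαβ x
      unfold rs at h7
      rw [if_pos hx, if_pos hx] at h7
      exact h7.symm
    rw [hipn α h1 β h3, hipn α h1 α h1, h5, hone α h1 h2] at h6
    norm_num at h6
  · obtain ⟨h1, h2⟩ := mem_irrOver.1 hβ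
    have hβcf := cf_charS (charS_of_irrS h1)
    have h3 : ip U I β ≠ 0 := by
      have h4 : ip U I β = ip U (rs U I) β := ip_congr U (fun x hx => (if_pos hx).symm) (fun _ _ => rfl)
      rw [h4, hIU, frob hNU (cf_charS (charS_of_irrS hθ)) hβcf, ip_conj N β θ]
      intro h5
      apply h2
      rw [← Complex.conj_conj (ip N β θ), h5, map_zero]
    have h4 : ip U I β = ∑ α ∈ irr T, (mu T I α : ℂ) * ip U α β := by
      conv_lhs => rw [hexp]
      rw [ip_sum_left]
      exact Finset.sum_congr rfl fun α _ => by rw [ip_smul_left]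
    rw [h4] at h3
    obtain ⟨α, hα, h5⟩ := Finset.exists_ne_zero_of_sum_ne_zero h3
    have h6 : 0 < mu T I α := by
      rcases Nat.eq_zero_or_pos (mu T I α) with h | h
      · rw [h, Nat.cast_zero, zero_mul] at h5
        exact absurd rfl h5
      · exact h
    refine ⟨α, (hmem α).2 ⟨hα, h6⟩, ?_⟩
    have h7 : ip U (rs U α) β ≠ 0 := by
      rw [F1_rs le_rfl]
      exact (mul_ne_zero_iff.1 h5).2
    rw [irrS_ortho (hirr α hα h6) h1] at h7
    by_contra h8
    rw [if_neg h8] at h7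
    exact h7 rfl

end Pool.Agent.Lib.H90Q
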