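import Pool.Agent.Lib.H90Q.A10

open scoped Classical ComplexConjugate BigOperators

noncomputable section

namespace Pool.Agent.Lib.H90Q

variable {G : Type*} [Group G] [Fintype G]

/-- elements of `N ⊔ P` when `P` normalises `N` -/
theorem mem_sup_nz {N P : Subgroup G} (hP : ∀ z ∈ P, Nz z N) {t : G} : t ∈ N ⊔ P ↔ ∃ n ∈ N, ∃ z ∈ P, t = n * z := by
  constructor
  · intro ht
    let S : Subgroup G :=
      { carrier := {t | ∃ n ∈ N, ∃ z ∈ P, t = n * z}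
        one_mem' := ⟨1, N.one_mem, 1, P.one_mem, (mul_one 1).symm⟩
        mul_mem' := by
          rintro a b ⟨n, hn, z, hz, rfl⟩ ⟨n', hn', z', hz', rfl⟩
          refine ⟨n * (z * n' * z⁻¹), N.mul_mem hn ((hP z hz n').1 hn'), z * z', P.mul_mem hz hz', ?_⟩
          group
        inv_mem' := by
          rintro a ⟨n, hn, z, hz, rfl⟩
          refine ⟨z⁻¹ * n⁻¹ * z⁻¹⁻¹, (hP z⁻¹ (P.inv_mem hz) n⁻¹).1 (N.inv_mem hn), z⁻¹, P.inv_mem hz, ?_⟩
          group }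
    have hN : N ≤ S := fun n hn => ⟨n, hn, 1, P.one_mem, (mul_one n).symm⟩
    have hP' : P ≤ S := fun z hz => ⟨1, N.one_mem, z, hz, (one_mul z).symm⟩
    exact (sup_le hN hP') ht
  · rintro ⟨n, hn, z, hz, rfl⟩
    exact Subgroup.mul_mem _ ((le_sup_left : N ≤ N ⊔ P) hn) ((le_sup_right : P ≤ N ⊔ P) hz)

/-- and in the other order -/
theorem mem_sup_nz' {N P : Subgroup G} (hP : ∀ z ∈ P, Nz z N) {t : G} : t ∈ N ⊔ P ↔ ∃ z ∈ P, ∃ n ∈ N, t = z * n := by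
  constructor
  · intro ht
    obtain ⟨n, hn, z, hz, h⟩ := (mem_sup_nz hP).1 (Subgroup.inv_mem _ ht)
    refine ⟨z⁻¹, P.inv_mem hz, n⁻¹, N.inv_mem hn, ?_⟩
    rw [← inv_inv t, h, mul_inv_rev]
  · rintro ⟨z, hz, n, hn, rfl⟩
    exact Subgroup.mul_mem _ ((le_sup_right : P ≤ N ⊔ P) hz) ((le_sup_left : N ≤ N ⊔ P) hn)

theorem nz_sup {N P : Subgroup G} (hP : ∀ z ∈ P, Nz z N) : ∀ t ∈ N ⊔ P, Nz t N := by
  intro t ht
  obtain ⟨n, hn, z, hz, rfl⟩ := (mem_sup_nz hP).1 ht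
  exact nz_mul (nz_mem hn) (hP z hz)

theorem nz_zpowers {N : Subgroup G} {g : G} (hg : Nz g N) : ∀ z ∈ Subgroup.zpowers g, Nz z N := by
  let S : Subgroup G :=
    { carrier := {z | Nz z N}
      one_mem' := by
        intro x
        rw [one_mul, inv_one, mul_one]
      mul_mem' := fun ha hb => nz_mul ha hb
      inv_mem' := fun ha => nz_inv ha }
  intro z hz
  exact ((Subgroup.zpowers_le (H := S)).2 hg) hz

/-- commutators of `N P` lie in `N` when `P` is abelian -/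
theorem comm_abel {N P : Subgroup G} (hP : ∀ z ∈ P, Nz z N) (hab : ∀ a ∈ P, ∀ b ∈ P, a * b = b * a) :
    ∀ a ∈ N ⊔ P, ∀ b ∈ N ⊔ P, a * b * a⁻¹ * b⁻¹ ∈ N := by
  intro a ha b hb
  obtain ⟨n, hn, z, hz, rfl⟩ := (mem_sup_nz hP).1 ha
  obtain ⟨n', hn', z', hz', rfl⟩ := (mem_sup_nz hP).1 hb
  have h1 : z * z' * z⁻¹ = z' := by
    rw [hab z hz z' hz', mul_inv_cancel_right]
  have e : n * z * (n' * z') * (n * z)⁻¹ * (n' * z')⁻¹ = n * (z * n' * z⁻¹) * ((z * z' * z⁻¹) * n⁻¹ * z'⁻¹) * n'⁻¹ := by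
    group
  rw [e, h1]
  exact N.mul_mem (N.mul_mem (N.mul_mem hn ((hP z hz n').1 hn')) ((hP z' hz' n⁻¹).1 (N.inv_mem hn))) (N.inv_mem hn')

theorem comm_cyclic {N T : Subgroup G} {g : G} (hg : Nz g N) (hT : T = N ⊔ Subgroup.zpowers g) :
    ∀ a ∈ T, ∀ b ∈ T, a * b * a⁻¹ * b⁻¹ ∈ N := by
  intro a ha b hb
  rw [hT] at ha hb
  refine comm_abel (nz_zpowers hg) ?_ a ha b hb
  rintro x ⟨k, rfl⟩ y ⟨l, rfl⟩
  exact (Commute.refl g).zpow_zpow k l

/-- `z` of `p`-power order, `j` prime to `p`, `n ∈ N`: the element `z ^ j * n` also generates `N ⊔ ⟨z⟩` modulo `N`. -/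
theorem sup_zpowers_coset {p : ℕ} [Fact p.Prime] {N : Subgroup G} {z : G} (hz : Nz z N) {a : ℕ} (hq : z ^ (p ^ a) = 1) {j : ℕ} (hj : j.Coprime p)
    {n : G} (hn : n ∈ N) : Nz (z ^ j * n) N ∧ N ⊔ Subgroup.zpowers (z ^ j * n) = N ⊔ Subgroup.zpowers z := by
  have h1 : Nz (z ^ j * n) N :=
    nz_mul (nz_zpowers hz (z ^ j) ((Subgroup.zpowers z).pow_mem (Subgroup.mem_zpowers z) j)) (nz_mem hn)
  refine ⟨h1, le_antisymm ?_ ?_⟩
  · refine sup_le le_sup_left ?_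
    rw [Subgroup.zpowers_le]
    exact Subgroup.mul_mem _ ((le_sup_right : Subgroup.zpowers z ≤ N ⊔ Subgroup.zpowers z) ((Subgroup.zpowers z).pow_mem (Subgroup.mem_zpowers z) j))
      ((le_sup_left : N ≤ N ⊔ Subgroup.zpowers z) hn)
  · refine sup_le le_sup_left ?_
    rw [Subgroup.zpowers_le]
    have h2 : z ^ j ∈ N ⊔ Subgroup.zpowers (z ^ j * n) := by
      have h3 := Subgroup.mul_mem (N ⊔ Subgroup.zpowers (z ^ j * n))
        ((le_sup_right : Subgroup.zpowers (z ^ j * n) ≤ N ⊔ Subgroup.zpowers (z ^ j * n)) (Subgroup.mem_zpowers _))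
        ((le_sup_left : N ≤ N ⊔ Subgroup.zpowers (z ^ j * n)) (N.inv_mem hn))
      rwa [mul_inv_cancel_right] at h3
    have h4 : j.Coprime (orderOf z) := (hj.pow_right a).coprime_dvd_right (orderOf_dvd_of_pow_eq_one hq)
    obtain ⟨m, hm⟩ := exists_pow_eq_self_of_coprime h4
    have h5 := Subgroup.pow_mem _ h2 m
    rwa [hm] at h5

/-- coprime orders -/
theorem inf_bot_of_coprime {p : ℕ} [Fact p.Prime] {N P : Subgroup G} (hN : ¬ p ∣ Nat.card N) (hP : ∀ z ∈ P, ∃ a : ℕ, z ^ (p ^ a) = 1)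
    {x : G} (hx : x ∈ N) (hx' : x ∈ P) : x = 1 := by
  obtain ⟨a, ha⟩ := hP x hx'
  have h1 : orderOf x ∣ p ^ a := orderOf_dvd_of_pow_eq_one ha
  have h2 : orderOf x ∣ Nat.card N := Subgroup.orderOf_dvd_natCard N hx
  have hp : p.Prime := Fact.out
  have h3 : Nat.Coprime (p ^ a) (Nat.card N) := Nat.Coprime.pow_left a ((Nat.Prime.coprime_iff_not_dvd hp).2 hN)
  have h4 : orderOf x = 1 := Nat.eq_one_of_dvd_coprimes h3 h1 h2
  exact orderOf_eq_one_iff.1 h4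

theorem CM_zpowers (M : Subgroup G) (z : G) : CM M ((Subgroup.zpowers z : Subgroup G) : Set G) = CM M {z} := by
  unfold CM
  rw [Subgroup.zpowers_eq_closure, Subgroup.centralizer_closure]

theorem mem_CM_single {M : Subgroup G} {z d : G} : d ∈ CM M {z} ↔ d ∈ M ∧ d * z = z * d := by
  unfold CM
  rw [Subgroup.mem_inf, Subgroup.mem_centralizer_iff]
  refine and_congr_right fun _ => ?_
  constructor
  · intro h
    exact (h z rfl).symm
  · intro h x hx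
    rw [Set.mem_singleton_iff.1 hx, h]

theorem mem_CM {M : Subgroup G} {A : Set G} {d : G} : d ∈ CM M A ↔ d ∈ M ∧ ∀ z ∈ A, d * z = z * d := by
  unfold CM
  rw [Subgroup.mem_inf, Subgroup.mem_centralizer_iff]
  refine and_congr_right fun _ => ?_
  constructor
  · intro h z hz
    exact (h z hz).symm
  · intro h z hz
    exact (h z hz).symm

/-- the order of `N P` -/
theorem card_sup_nz {N P : Subgroup G} (hP : ∀ z ∈ P, Nz z N) (hNP : ∀ x ∈ N, x ∈ P → x = 1) :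
    Nat.card (N ⊔ P : Subgroup G) = Nat.card N * Nat.card P := by
  rw [← Nat.card_prod]
  symm
  refine Nat.card_eq_of_bijective (fun x : N × P => (⟨(x.1 : G) * (x.2 : G), (mem_sup_nz hP).2 ⟨x.1, x.1.2, x.2, x.2.2, rfl⟩⟩ : (N ⊔ P : Subgroup G))) ⟨?_, ?_⟩
  · rintro ⟨⟨n, hn⟩, ⟨z, hz⟩⟩ ⟨⟨n', hn'⟩, ⟨z', hz'⟩⟩ h
    have h1 : n * z = n' * z' := congrArg Subtype.val h
    have h2 : n'⁻¹ * n = z' * z⁻¹ := by
      rw [inv_mul_eq_iff_eq_mul, ← mul_assoc, ← h1, mul_inv_cancel_right]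
    have h3 : n'⁻¹ * n = 1 := by
      refine hNP _ (N.mul_mem (N.inv_mem hn') hn) ?_
      rw [h2]
      exact P.mul_mem hz' (P.inv_mem hz)
    have h4 : n = n' := by
      have h5 := inv_mul_eq_one.1 h3
      exact h5.symm
    subst h4
    have h6 : z = z' := mul_left_cancel h1
    subst h6
    rfl
  · rintro ⟨t, ht⟩
    obtain ⟨n, hn, z, hz, h⟩ := (mem_sup_nz hP).1 ht
    exact ⟨(⟨n, hn⟩, ⟨z, hz⟩), Subtype.ext h.symm⟩

end Pool.Agent.Lib.H90Q
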