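import Pool.Agent.Lib.H90Q.A12
import Pool.Agent.Lib.H90Q.GD

open scoped Classical ComplexConjugate BigOperators

noncomputable section

namespace Pool.Agent.Lib.H90Q

variable {G : Type*} [Group G] [Fintype G]

/-- `P ∩ K = 1`: only the term `u` of the sum is not zero. -/
theorem prl_apply {P K : Subgroup G} (hPK : ∀ u ∈ P, u ∈ K → u = 1) (l : G → ℂ) {u k : G} (hu : u ∈ P) (hk : k ∈ K) :
    prl P K l (u * k) = l u := by
  unfold prl
  rw [Finset.sum_eq_single u]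
  · rw [if_pos ⟨hu, by rw [inv_mul_cancel_left]; exact hk⟩]
  · intro v _ hv
    rw [if_neg]
    rintro ⟨h1, h2⟩
    apply hv
    have h3 : v⁻¹ * u ∈ K := by
      have e : v⁻¹ * u = v⁻¹ * (u * k) * k⁻¹ := by group
      rw [e]
      exact K.mul_mem h2 (K.inv_mem hk)
    have h4 := hPK _ (P.mul_mem (P.inv_mem h1) hu) h3
    exact inv_mul_eq_one.mp h4
  · intro h
    exact absurd (Finset.mem_univ u) h

theorem prl_zero {P K : Subgroup G} (l : G → ℂ) {g : G} (hg : ∀ u ∈ P, ∀ k ∈ K, g ≠ u * k) : prl P K l g = 0 := by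
  unfold prl
  refine Finset.sum_eq_zero fun u _ => if_neg ?_
  rintro ⟨h1, h2⟩
  exact hg u h1 _ h2 (by rw [mul_inv_cancel_left])

theorem tens_apply {P K : Subgroup G} (hPK : ∀ u ∈ P, u ∈ K → u = 1) (l f : G → ℂ) {u k : G} (hu : u ∈ P) (hk : k ∈ K) :
    tens P K l f (u * k) = l u * f k := by
  unfold tens
  rw [Finset.sum_eq_single u]
  · rw [if_pos ⟨hu, by rw [inv_mul_cancel_left]; exact hk⟩, inv_mul_cancel_left]
  · intro v _ hv
    rw [if_neg]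
    rintro ⟨h1, h2⟩
    apply hv
    have h3 : v⁻¹ * u ∈ K := by
      have e : v⁻¹ * u = v⁻¹ * (u * k) * k⁻¹ := by group
      rw [e]
      exact K.mul_mem h2 (K.inv_mem hk)
    have h4 := hPK _ (P.mul_mem (P.inv_mem h1) hu) h3
    exact inv_mul_eq_one.mp h4
  · intro h
    exact absurd (Finset.mem_univ u) h

theorem tens_zero {P K : Subgroup G} (l f : G → ℂ) {g : G} (hg : ∀ u ∈ P, ∀ k ∈ K, g ≠ u * k) : tens P K l f g = 0 := by
  unfold tens
  refine Finset.sum_eq_zero fun u _ => if_neg ?_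
  rintro ⟨h1, h2⟩
  exact hg u h1 _ h2 (by rw [mul_inv_cancel_left])

/-- If every product `k u` is `u' k'` then `P ⊔ K = P K`: the set `P K` is closed under products and (finite group) is a subgroup. -/
theorem mem_PK {P K : Subgroup G} (hc : ∀ k ∈ K, ∀ u ∈ P, ∃ u' ∈ P, ∃ k' ∈ K, k * u = u' * k') {g : G} :
    g ∈ P ⊔ K ↔ ∃ u ∈ P, ∃ k ∈ K, g = u * k := by
  have hmul : ∀ a b : G, (∃ u ∈ P, ∃ k ∈ K, a = u * k) → (∃ u ∈ P, ∃ k ∈ K, b = u * k) → ∃ u ∈ P, ∃ k ∈ K, a * b = u * k := by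
    rintro _ _ ⟨u, hu, k, hk, rfl⟩ ⟨v, hv, m, hm, rfl⟩
    obtain ⟨v', hv', k', hk', e⟩ := hc k hk v hv
    refine ⟨u * v', P.mul_mem hu hv', k' * m, K.mul_mem hk' hm, ?_⟩
    calc u * k * (v * m) = u * (k * v) * m := by group
      _ = u * (v' * k') * m := by rw [e]
      _ = u * v' * (k' * m) := by group
  have hpow : ∀ (a : G) (n : ℕ), (∃ u ∈ P, ∃ k ∈ K, a = u * k) → ∃ u ∈ P, ∃ k ∈ K, a ^ n = u * k := by
    intro a n ha
    induction n with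
    | zero => exact ⟨1, P.one_mem, 1, K.one_mem, by simp⟩
    | succ n ih => rw [pow_succ]; exact hmul _ _ ih ha
  let T : Subgroup G :=
    { carrier := {g | ∃ u ∈ P, ∃ k ∈ K, g = u * k}
      mul_mem' := fun {a b} ha hb => hmul a b ha hb
      one_mem' := ⟨1, P.one_mem, 1, K.one_mem, by simp⟩
      inv_mem' := fun {a} ha => by
        have e : a⁻¹ = a ^ (orderOf a - 1) := by
          refine inv_eq_of_mul_eq_one_left ?_
          rw [← pow_succ, Nat.sub_add_cancel (orderOf_pos a), pow_orderOf_eq_one]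
        change ∃ u ∈ P, ∃ k ∈ K, a⁻¹ = u * k
        rw [e]
        exact hpow a _ ha }
  constructor
  · intro hg
    have hT : P ⊔ K ≤ T := sup_le (fun a ha => ⟨a, ha, 1, K.one_mem, by simp⟩) (fun b hb => ⟨1, P.one_mem, b, hb, by simp⟩)
    exact hT hg
  · rintro ⟨u, hu, k, hk, rfl⟩
    exact Subgroup.mul_mem _ (Subgroup.mem_sup_left hu) (Subgroup.mem_sup_right hk)

/-- `prl P K l` is a linear character of `P K` trivial on `K`. -/
theorem prl_lin {P K : Subgroup G} (hPK : ∀ u ∈ P, u ∈ K → u = 1) {l : G → ℂ} (hl : l ∈ LinS P ⊥)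
    (hc : ∀ k ∈ K, ∀ u ∈ P, ∃ u' ∈ P, ∃ k' ∈ K, k * u = u' * k' ∧ l u' = l u) : prl P K l ∈ LinS (P ⊔ K) K := by
  have hc' : ∀ k ∈ K, ∀ u ∈ P, ∃ u' ∈ P, ∃ k' ∈ K, k * u = u' * k' := fun k hk u hu => by
    obtain ⟨u', hu', k', hk', e, -⟩ := hc k hk u hu
    exact ⟨u', hu', k', hk', e⟩
  refine ⟨fun g hg => prl_zero l ?_, fun g hg => ?_, fun a ha b hb => ?_⟩
  · intro u hu k hk e
    exact hg (e ▸ Subgroup.mul_mem _ (Subgroup.mem_sup_left hu) (Subgroup.mem_sup_right hk))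
  · have e := prl_apply hPK l P.one_mem hg
    rw [one_mul] at e
    rw [e]
    exact lin_one hl
  · obtain ⟨u, hu, k, hk, rfl⟩ := (mem_PK hc').mp ha
    obtain ⟨v, hv, m, hm, rfl⟩ := (mem_PK hc').mp hb
    obtain ⟨v', hv', k', hk', e, e'⟩ := hc k hk v hv
    have e1 : u * k * (v * m) = u * v' * (k' * m) := by
      calc u * k * (v * m) = u * (k * v) * m := by group
        _ = u * (v' * k') * m := by rw [e]
        _ = u * v' * (k' * m) := by group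
    rw [e1, prl_apply hPK l (P.mul_mem hu hv') (K.mul_mem hk' hm), prl_apply hPK l hu hk, prl_apply hPK l hv hm,
      hl.2.2 u hu v' hv', e']

/-- conjugation: `b` normalises `P` and `K` (change of variables `u ↦ b⁻¹ u b`) -/
theorem prl_cj {P K : Subgroup G} {b : G} (hP : Nz b P) (hK : Nz b K) (l : G → ℂ) : cj b (prl P K l) = prl P K (cj b l) := by
  funext g
  change (∑ u : G, if u ∈ P ∧ u⁻¹ * (b⁻¹ * g * b) ∈ K then l u else 0) =
    ∑ v : G, if v ∈ P ∧ v⁻¹ * g ∈ K then l (b⁻¹ * v * b) else 0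
  refine Fintype.sum_equiv (MulAut.conj b).toEquiv _ _ fun u => ?_
  change (if u ∈ P ∧ u⁻¹ * (b⁻¹ * g * b) ∈ K then l u else 0) =
    if b * u * b⁻¹ ∈ P ∧ (b * u * b⁻¹)⁻¹ * g ∈ K then l (b⁻¹ * (b * u * b⁻¹) * b) else 0
  have e1 : b⁻¹ * (b * u * b⁻¹) * b = u := by group
  have e2 : (b * u * b⁻¹)⁻¹ * g = b * (u⁻¹ * (b⁻¹ * g * b)) * b⁻¹ := by group
  rw [e1, e2, ← hP u, ← hK (u⁻¹ * (b⁻¹ * g * b))]

theorem tens_cj {P K : Subgroup G} {b : G} (hP : Nz b P) (hK : Nz b K) (l f : G → ℂ) :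
    cj b (tens P K l f) = tens P K (cj b l) (cj b f) := by
  funext g
  change (∑ u : G, if u ∈ P ∧ u⁻¹ * (b⁻¹ * g * b) ∈ K then l u * f (u⁻¹ * (b⁻¹ * g * b)) else 0) =
    ∑ v : G, if v ∈ P ∧ v⁻¹ * g ∈ K then l (b⁻¹ * v * b) * f (b⁻¹ * (v⁻¹ * g) * b) else 0
  refine Fintype.sum_equiv (MulAut.conj b).toEquiv _ _ fun u => ?_
  change (if u ∈ P ∧ u⁻¹ * (b⁻¹ * g * b) ∈ K then l u * f (u⁻¹ * (b⁻¹ * g * b)) else 0) =
    if b * u * b⁻¹ ∈ P ∧ (b * u * b⁻¹)⁻¹ * g ∈ K then l (b⁻¹ * (b * u * b⁻¹) * b) * f (b⁻¹ * ((b * u * b⁻¹)⁻¹ * g) * b) else 0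
  have e1 : b⁻¹ * (b * u * b⁻¹) * b = u := by group
  have e2 : (b * u * b⁻¹)⁻¹ * g = b * (u⁻¹ * (b⁻¹ * g * b)) * b⁻¹ := by group
  have e3 : b⁻¹ * (b * (u⁻¹ * (b⁻¹ * g * b)) * b⁻¹) * b = u⁻¹ * (b⁻¹ * g * b) := by group
  rw [e1, e2, e3, ← hP u, ← hK (u⁻¹ * (b⁻¹ * g * b))]

/-- a conjugate of a linear character of `P` is one -/
theorem lin_cj {P : Subgroup G} {b : G} (hP : Nz b P) {l : G → ℂ} (hl : l ∈ LinS P ⊥) : cj b l ∈ LinS P ⊥ := by
  refine ⟨fun g hg => hl.1 _ fun h1 => hg ?_, fun g hg => ?_, fun a ha c hc => ?_⟩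
  · have h2 := (hP _).mp h1
    have e : b * (b⁻¹ * g * b) * b⁻¹ = g := by group
    rwa [e] at h2
  · rw [Subgroup.mem_bot.mp hg]
    change l (b⁻¹ * 1 * b) = 1
    rw [mul_one, inv_mul_cancel]
    exact hl.2.1 1 (Subgroup.one_mem _)
  · have key : ∀ g ∈ P, b⁻¹ * g * b ∈ P := fun g hg => by
      rw [hP]
      have e : b * (b⁻¹ * g * b) * b⁻¹ = g := by group
      rw [e]; exact hg
    change l (b⁻¹ * (a * c) * b) = l (b⁻¹ * a * b) * l (b⁻¹ * c * b)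
    rw [← hl.2.2 _ (key a ha) _ (key c hc)]
    congr 1
    group

end Pool.Agent.Lib.H90Q
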