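import Pool.Agent.Lib.H90Q.A17
import Pool.Agent.Lib.H90Q.A13
import Pool.Agent.Lib.H90Q.K02
import Pool.Agent.Lib.H90Q.B0

open scoped Classical ComplexConjugate BigOperators

noncomputable section

namespace Pool.Agent.Lib.H90Q

variable {G : Type*} [Group G] [Fintype G]

/-- Two extensions of `θ` to `P L` differ by a linear character of `P`. -/
theorem K03_twist {P L : Subgroup G} (hPab : ∀ a ∈ P, ∀ b ∈ P, a * b = b * a)
    (hn : ∀ u ∈ P, Nz u L) {θ θh θh' : G → ℂ} (hθ : θ ∈ IrrS L) (h : θh ∈ IrrS (P ⊔ L)) (h' : θh' ∈ IrrS (P ⊔ L))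
    (e : ∀ l ∈ L, θh l = θ l) (e' : ∀ l ∈ L, θh' l = θ l) : ∃ ν ∈ LinS (P ⊔ L) L, θh' = ν * θh := by
  have hcomm : ∀ a ∈ P ⊔ L, ∀ b ∈ P ⊔ L, a * b * a⁻¹ * b⁻¹ ∈ L := by
    intro a ha b hb
    rw [sup_comm] at ha hb
    exact comm_abel hn hPab a ha b hb
  have hov : ∀ f : G → ℂ, (∀ l ∈ L, f l = θ l) → Over L f θ := by
    intro f hf
    unfold Over
    rw [ip_congr L (f := f) (f' := θ) (g := θ) (g' := θ) hf (fun _ _ => rfl), irrS_ortho hθ hθ, if_pos rfl]
    exact one_ne_zero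
  exact abel_trans le_sup_right hcomm h h' hθ (hov _ e) (hov _ e')

/-- If the linear character is `1` on `P` the extensions are equal. -/
theorem K03_eq {P L : Subgroup G} (hn : ∀ u ∈ P, Nz u L) {θh θh' ν : G → ℂ} (hν : ν ∈ LinS (P ⊔ L) L) (he : θh' = ν * θh)
    (h : θh ∈ IrrS (P ⊔ L)) (h1 : ∀ u ∈ P, ν u = 1) : θh = θh' := by
  funext g
  rw [he, Pi.mul_apply]
  by_cases hg : g ∈ P ⊔ L
  · have hg' : g ∈ L ⊔ P := by rwa [sup_comm] at hg
    obtain ⟨l, hl, u, hu, rfl⟩ := (mem_sup_nz hn).1 hg'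
    rw [hν.2.2 l ((le_sup_right : L ≤ P ⊔ L) hl) u ((le_sup_left : P ≤ P ⊔ L) hu), hν.2.1 l hl, h1 u hu, one_mul, one_mul]
  · rw [h.1 g hg, mul_zero]

private theorem K03_map {a : G} {H : Subgroup G} (h : Nz a H) : H.map (MulAut.conj a).toMonoidHom = H := by
  ext g
  rw [Subgroup.mem_map]
  constructor
  · rintro ⟨k, hk, rfl⟩
    exact (h k).1 hk
  · intro hg
    refine ⟨a⁻¹ * g * a, ?_, ?_⟩
    · rw [h]
      have : a * (a⁻¹ * g * a) * a⁻¹ = g := by group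
      rwa [this]
    · change a * (a⁻¹ * g * a) * a⁻¹ = g
      group

theorem K03_nz_sup {a : G} {H K : Subgroup G} (h : Nz a H) (h' : Nz a K) : Nz a (H ⊔ K) := by
  have key : ∀ b : G, Nz b H → Nz b K → ∀ g ∈ H ⊔ K, b * g * b⁻¹ ∈ H ⊔ K := by
    intro b hb hb' g hg
    have e : (H ⊔ K).map (MulAut.conj b).toMonoidHom = H ⊔ K := by
      rw [Subgroup.map_sup, K03_map hb, K03_map hb']
    rw [← e]
    exact Subgroup.mem_map_of_mem (MulAut.conj b).toMonoidHom hg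
  intro g
  constructor
  · exact key a h h' g
  · intro hg
    have := key a⁻¹ (nz_inv h) (nz_inv h') _ hg
    have e : a⁻¹ * (a * g * a⁻¹) * a⁻¹⁻¹ = g := by group
    rwa [e] at this

theorem K03_conj_mem {b : G} {H : Subgroup G} (h : Nz b H) {u : G} (hu : u ∈ H) : b⁻¹ * u * b ∈ H := by
  rw [h]
  have : b * (b⁻¹ * u * b) * b⁻¹ = u := by group
  rwa [this]

/-- Uniqueness of the canonical extension. `L` is normal in `P L`, `(P L) / L` is abelian, `p` odd. By `abel_trans` `θh' = ν θh` with `ν ∈ LinS (P ⊔ L) L`. For `u ∈ P`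
`ν u = θh' u / θh u` is real, and it is a root of unity of odd order (`lin_pow`; the order of `u` is a power of the odd prime `p`), so `ν u = 1`. So `ν = 1` on `P ⊔ L`
(it is multiplicative, `1` on `P` and on `L`; the set where it is `1` is a subgroup). -/
theorem canExt_unique {p : ℕ} (hp : p.Prime) {P L : Subgroup G} (hLp : ¬ p ∣ Nat.card L) (hPp : IsPGroup p P) (hPab : ∀ a ∈ P, ∀ b ∈ P, a * b = b * a)
    (hn : ∀ u ∈ P, Nz u L) {θ θh θh' : G → ℂ} (hθ : θ ∈ IrrS L) (h : CanExt p P L θ θh) (h' : CanExt p P L θ θh') : θh = θh' := by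
  obtain ⟨ν, hν, he⟩ := K03_twist hPab hn hθ h.1 h'.1 h.2.1 h'.2.1
  refine K03_eq hn hν he h.1 (fun u hu => ?_)
  have huPL : u ∈ P ⊔ L := (le_sup_left : P ≤ P ⊔ L) hu
  obtain ⟨h0, hr, h4⟩ := h.2.2 u hu
  obtain ⟨h0', hr', h4'⟩ := h'.2.2 u hu
  have hval : θh' u = ν u * θh u := by rw [he, Pi.mul_apply]
  have hreal : conj (ν u) = ν u := by
    rw [hval, map_mul, hr] at hr'
    exact mul_right_cancel₀ h0 hr'
  have hsq : ν u * ν u = 1 := by
    have := lin_mul_conj hν huPL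
    rwa [hreal] at this
  by_cases hp2 : p = 2
  · -- the prime two: compare modulo four
    obtain ⟨n, -, hn1, hnd⟩ := irr_dvd hθ.2
    have hn1' : θ 1 = n := hn1
    obtain ⟨k, hk⟩ := h4 hp2
    obtain ⟨k', hk'⟩ := h4' hp2
    rcases mul_self_eq_one_iff.mp hsq with h1 | h1
    · exact h1
    · exfalso
      rw [h1, hk, hk', hn1'] at hval
      have h2 : ((n : ℤ) + 4 * k' : ℤ) = -1 * ((n : ℤ) + 4 * k) := by exact_mod_cast hval
      have h3 : (2 : ℤ) ∣ n := ⟨-(k + k'), by linarith⟩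
      have h5 : 2 ∣ n := by exact_mod_cast h3
      exact hLp (hp2 ▸ h5.trans hnd)
  · obtain ⟨k, hk⟩ := hPp ⟨u, hu⟩
    have hk' : u ^ p ^ k = 1 := congrArg Subtype.val hk
    have hodd : Odd (orderOf u) := by
      have h2 : Odd (p ^ k) := (hp.odd_of_ne_two hp2).pow
      exact Odd.of_dvd_nat h2 (orderOf_dvd_of_pow_eq_one hk')
    obtain ⟨m, hm⟩ := hodd
    have hpow := lin_pow hν huPL
    rw [hm, pow_succ, pow_mul, pow_two, hsq, one_pow, one_mul] at hpow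
    exact hpow

/-- equivariance -/
theorem canExt_cj {p : ℕ} {P L : Subgroup G} {b : G} (hbP : Nz b P) (hbL : Nz b L) {θ θh : G → ℂ} (h : CanExt p P L θ θh) :
    CanExt p P L (cj b θ) (cj b θh) := by
  refine ⟨cj_irrS (K03_nz_sup hbP hbL) h.1, fun l hl => ?_, fun u hu => ?_⟩
  · exact h.2.1 _ (K03_conj_mem hbL hl)
  · have e : cj b θ 1 = θ 1 := by
      change θ (b⁻¹ * 1 * b) = θ 1
      rw [mul_one, inv_mul_cancel]
    rw [e]
    exact h.2.2 _ (K03_conj_mem hbP hu)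

/-- If `P` centralises `C` and `P ∩ C = 1`, the canonical extension is `u c ↦ θ c`. Irreducible: norm one (`irrS_of_norm_one`) or `A06.isIrr_comp` for the projection `P C → C`;
its value at `u ∈ P` is the degree of `θ`. -/
theorem canExt_triv (p : ℕ) {P C : Subgroup G} (hc : ∀ c ∈ C, ∀ u ∈ P, c * u = u * c) (hPC : ∀ u ∈ P, u ∈ C → u = 1) {θ : G → ℂ}
    (hθ : θ ∈ IrrS C) : CanExt p P C θ (tens P C (fun _ => 1) θ) := by
  have hcom : ∀ k ∈ C, ∀ u ∈ P, ∃ u' ∈ P, ∃ k' ∈ C, k * u = u' * k' := fun k hk u hu => ⟨u, hu, k, hk, hc k hk u hu⟩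
  have hmem : ∀ {g : G}, g ∈ P ⊔ C ↔ ∃ u ∈ P, ∃ k ∈ C, g = u * k := mem_PK hcom
  have hex : ∀ g : (P ⊔ C : Subgroup G), ∃ c : C, ∃ u ∈ P, (g : G) = u * c := by
    intro g
    obtain ⟨u, hu, k, hk, h⟩ := hmem.1 g.2
    exact ⟨⟨k, hk⟩, u, hu, h⟩
  choose f u hu hf using hex
  have huniq : ∀ {u v c d : G}, u ∈ P → v ∈ P → c ∈ C → d ∈ C → u * c = v * d → c = d := by
    intro u v c d hu hv hc' hd h
    have h1 : v⁻¹ * u = d * c⁻¹ := by
      calc v⁻¹ * u = v⁻¹ * (u * c) * c⁻¹ := by group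
        _ = v⁻¹ * (v * d) * c⁻¹ := by rw [h]
        _ = d * c⁻¹ := by group
    have h2 := hPC (v⁻¹ * u) (P.mul_mem (P.inv_mem hv) hu) (h1 ▸ C.mul_mem hd (C.inv_mem hc'))
    rw [h1] at h2
    exact (mul_inv_eq_one.1 h2).symm
  let F : (P ⊔ C : Subgroup G) →* C := MonoidHom.mk' f (by
    intro g g'
    have e : (u (g * g')) * (f (g * g') : G) = (u g * u g') * ((f g : G) * f g') := by
      rw [← hf, Subgroup.coe_mul, hf g, hf g']
      calc u g * (f g : G) * (u g' * f g') = u g * ((f g : G) * u g') * f g' := by group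
        _ = u g * (u g' * (f g : G)) * f g' := by rw [hc (f g) (f g).2 (u g') (hu g')]
        _ = u g * u g' * ((f g : G) * f g') := by group
    exact Subtype.ext (huniq (hu _) (P.mul_mem (hu _) (hu _)) (f _).2 (C.mul_mem (f _).2 (f _).2) e))
  have hF : ∀ g, F g = f g := fun _ => rfl
  have hsurj : Function.Surjective F := by
    intro c
    have hcm : (c : G) ∈ P ⊔ C := (le_sup_right : C ≤ P ⊔ C) c.2
    refine ⟨⟨c, hcm⟩, ?_⟩
    have e : (1 : G) * (c : G) = u ⟨c, hcm⟩ * (f ⟨c, hcm⟩ : G) := by rw [← hf, one_mul]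
    rw [hF]
    exact Subtype.ext (huniq P.one_mem (hu _) c.2 (f _).2 e).symm
  have hval : ∀ {v c : G}, v ∈ P → c ∈ C → tens P C (fun _ => 1) θ (v * c) = θ c := by
    intro v c hv hc'
    rw [tens_apply hPC _ _ hv hc', one_mul]
  refine ⟨⟨fun g hg => tens_zero _ _ (fun u hu k hk h => hg (hmem.2 ⟨u, hu, k, hk, h⟩)), ?_⟩, fun l hl => ?_, fun v hv => ?_⟩
  · have h := isIrr_comp F hsurj hθ.2
    have e : (fun x : (P ⊔ C : Subgroup G) => θ (F x : G)) = fun x : (P ⊔ C : Subgroup G) => tens P C (fun _ => 1) θ x := by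
      funext g
      rw [hF]
      conv_rhs => rw [hf g]
      rw [hval (hu g) (f g).2]
    rw [← e]
    exact h
  · have h := hval P.one_mem hl
    rwa [one_mul] at h
  · have h := hval hv C.one_mem
    rw [mul_one] at h
    obtain ⟨n, hn, hn'⟩ := irrS_one hθ
    rw [h, hn']
    exact ⟨by exact_mod_cast hn.ne', by rw [Complex.conj_natCast], fun _ => ⟨0, by simp⟩⟩

end Pool.Agent.Lib.H90Q
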