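import Pool.Agent.Lib.H90Q.A17
import Pool.Agent.Lib.H90Q.B0

open scoped Classical ComplexConjugate BigOperators

noncomputable section

namespace Pool.Agent.Lib.H90Q

section abstractPart

variable {X : Type*} [CommGroup X] [Fintype X]

theorem C8_term {a b : ℂ} (ha : a ^ 2 = 1) (hb : b ^ 2 = 1) : (1 + a) * (1 + b) ∈ AddSubgroup.zmultiples (4 : ℂ) := by
  have key : ∀ c : ℂ, c ^ 2 = 1 → c = 1 ∨ c = -1 := by
    intro c hc
    have h : (c - 1) * (c + 1) = 0 := by linear_combination hc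
    rcases mul_eq_zero.1 h with h | h
    · exact Or.inl (sub_eq_zero.1 h)
    · exact Or.inr (eq_neg_of_add_eq_zero_left h)
  have ha' : a = 1 ∨ a = -1 := key a ha
  have hb' : b = 1 ∨ b = -1 := key b hb
  rcases ha' with rfl | rfl <;> rcases hb' with rfl | rfl
  · have : ((1 : ℂ) + 1) * (1 + 1) = 4 := by norm_num
    rw [this]
    exact AddSubgroup.mem_zmultiples _
  · simp
  · simp
  · simp

/-- Sum over a subgroup of a 2-group. -/
theorem C8_sub (hX : IsPGroup 2 X) (e₁ e₂ : X →* ℂ) (C : Subgroup X) :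
    ∑ y ∈ Finset.univ.filter (fun y : X => y ∈ C), (1 + e₁ y) * (1 + e₂ y) ∈ AddSubgroup.zmultiples (4 : ℂ) := by
  have h0 : ∑ y ∈ Finset.univ.filter (fun y : X => y ∈ C), (1 + e₁ y) * (1 + e₂ y) = ∑ y : C, (1 + e₁ y) * (1 + e₂ y) := by
    rw [← Finset.sum_subtype_eq_sum_filter]
    refine Finset.sum_congr ?_ (fun _ _ => rfl)
    ext y
    simp
  rw [h0]
  have hC : IsPGroup 2 C := hX.to_subgroup C
  obtain ⟨k, hk⟩ := (IsPGroup.iff_card).1 hC
  have hcard : Fintype.card C = 2 ^ k := by rw [← hk, Nat.card_eq_fintype_card]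
  have hsum : ∑ y : C, (1 + e₁ y) * (1 + e₂ y)
      = (Fintype.card C : ℂ) + (∑ y : C, (e₁.comp C.subtype) y) + (∑ y : C, (e₂.comp C.subtype) y) + ∑ y : C, ((e₁ * e₂).comp C.subtype) y := by
    have h1 : (Fintype.card C : ℂ) = ∑ y : C, (1 : ℂ) := by simp
    rw [h1, ← Finset.sum_add_distrib, ← Finset.sum_add_distrib, ← Finset.sum_add_distrib]
    refine Finset.sum_congr rfl (fun y _ => ?_)
    simp only [MonoidHom.comp_apply, MonoidHom.mul_apply, Subgroup.coe_subtype]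
    ring
  rcases Nat.lt_or_ge k 2 with hlt | hge
  · refine AddSubgroup.sum_mem _ (fun y _ => ?_)
    have h3 : y ^ 2 = 1 := by
      have h4 := pow_card_eq_one (x := y)
      rw [hcard] at h4
      have h5 : 2 ^ k ∣ 2 := by
        interval_cases k
        · norm_num
        · norm_num
      obtain ⟨c, hc⟩ := h5
      calc y ^ 2 = y ^ (2 ^ k * c) := by rw [← hc]
        _ = 1 := by rw [pow_mul, h4, one_pow]
    have h4 : (y : X) ^ 2 = 1 := by exact_mod_cast congrArg Subtype.val h3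
    refine C8_term ?_ ?_
    · rw [← map_pow, h4, map_one]
    · rw [← map_pow, h4, map_one]
  · obtain ⟨j, rfl⟩ : ∃ j, k = 2 + j := ⟨k - 2, by omega⟩
    rw [hsum, sum_hom_units, sum_hom_units, sum_hom_units, hcard]
    have h5 : ((2 ^ (2 + j) : ℕ) : ℂ) ∈ AddSubgroup.zmultiples (4 : ℂ) := by
      rw [AddSubgroup.mem_zmultiples_iff]
      refine ⟨(2 ^ j : ℤ), ?_⟩
      rw [zsmul_eq_mul]
      push_cast
      ring
    have h6 : ∀ (Q : Prop) [Decidable Q], ((if Q then 2 ^ (2 + j) else 0 : ℕ) : ℂ) ∈ AddSubgroup.zmultiples (4 : ℂ) := by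
      intro Q _
      split_ifs
      · exact h5
      · rw [Nat.cast_zero]
        exact AddSubgroup.zero_mem _
    exact AddSubgroup.add_mem _ (AddSubgroup.add_mem _ (AddSubgroup.add_mem _ h5 (h6 _)) (h6 _)) (h6 _)

/-- Sum over the elements which generate `C`. -/
theorem C8_gen (hX : IsPGroup 2 X) (e₁ e₂ : X →* ℂ) (n : ℕ) : ∀ C : Subgroup X, Nat.card C = n →
    ∑ y ∈ Finset.univ.filter (fun y : X => Subgroup.zpowers y = C), (1 + e₁ y) * (1 + e₂ y) ∈ AddSubgroup.zmultiples (4 : ℂ) := by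
  induction n using Nat.strong_induction_on with
  | _ n ih =>
    intro C hn
    have h1 := C8_sub hX e₁ e₂ C
    have h2 : ∑ y ∈ Finset.univ.filter (fun y : X => y ∈ C), (1 + e₁ y) * (1 + e₂ y)
        = ∑ D ∈ Finset.univ.filter (fun D : Subgroup X => D ≤ C), ∑ y ∈ Finset.univ.filter (fun y : X => Subgroup.zpowers y = D), (1 + e₁ y) * (1 + e₂ y) := by
      rw [← Finset.sum_fiberwise_of_maps_to (s := Finset.univ.filter (fun y : X => y ∈ C))
        (t := Finset.univ.filter (fun D : Subgroup X => D ≤ C)) (g := fun y => Subgroup.zpowers y)]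
      · refine Finset.sum_congr rfl (fun D hD => ?_)
        refine Finset.sum_congr ?_ (fun _ _ => rfl)
        ext y
        simp only [Finset.mem_filter, Finset.mem_univ, true_and] at hD ⊢
        constructor
        · rintro ⟨_, h⟩
          exact h
        · intro h
          refine ⟨hD ?_, h⟩
          rw [← h]
          exact Subgroup.mem_zpowers y
      · intro y hy
        simp only [Finset.mem_filter, Finset.mem_univ, true_and] at hy ⊢
        rw [Subgroup.zpowers_le]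
        exact hy
    have hCm : C ∈ Finset.univ.filter (fun D : Subgroup X => D ≤ C) := by simp
    rw [h2, ← Finset.add_sum_erase _ _ hCm] at h1
    have h3 : ∑ D ∈ (Finset.univ.filter (fun D : Subgroup X => D ≤ C)).erase C,
        ∑ y ∈ Finset.univ.filter (fun y : X => Subgroup.zpowers y = D), (1 + e₁ y) * (1 + e₂ y) ∈ AddSubgroup.zmultiples (4 : ℂ) := by
      refine AddSubgroup.sum_mem _ (fun D hD => ?_)
      obtain ⟨hne, hD'⟩ := Finset.mem_erase.1 hD
      have hle : D ≤ C := (Finset.mem_filter.1 hD').2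
      refine ih (Nat.card D) ?_ D rfl
      rw [← hn]
      refine lt_of_le_of_ne (Nat.le_of_dvd Nat.card_pos (Subgroup.card_dvd_of_le hle)) ?_
      intro heq
      exact hne (Subgroup.eq_of_le_of_card_ge hle heq.ge)
    exact (AddSubgroup.add_mem_cancel_right _ h3).1 h1

/-- The weighted sum. -/
theorem C8_main (hX : IsPGroup 2 X) (e₁ e₂ : X →* ℂ) (m : X → ℤ) (hm : ∀ x : X, ∀ j : ℕ, j.Coprime 2 → m (x ^ j) = m x) :
    ∑ x : X, (m x : ℂ) * ((1 + e₁ x) * (1 + e₂ x)) ∈ AddSubgroup.zmultiples (4 : ℂ) := by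
  have hconst : ∀ x y : X, Subgroup.zpowers x = Subgroup.zpowers y → m x = m y := by
    intro x y h
    have hy : y ∈ Subgroup.zpowers x := by
      rw [h]
      exact Subgroup.mem_zpowers y
    rw [mem_zpowers_iff_mem_range_orderOf] at hy
    obtain ⟨j, _, rfl⟩ := Finset.mem_image.1 hy
    obtain ⟨k, hk⟩ := (IsPGroup.iff_orderOf.1 hX) x
    by_cases hk0 : k = 0
    · rw [hk0, pow_zero, orderOf_eq_one_iff] at hk
      simp [hk]
    · have hj : j.Coprime (orderOf x) := by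
        have h1 : orderOf (x ^ j) = orderOf x := by
          rw [← Nat.card_zpowers, ← Nat.card_zpowers, h]
        rw [orderOf_pow] at h1
        have h2 : 0 < orderOf x := orderOf_pos x
        have h3 : (orderOf x).gcd j ∣ orderOf x := Nat.gcd_dvd_left _ _
        have h4 : orderOf x = orderOf x * (orderOf x).gcd j := by
          have h5 := Nat.div_mul_cancel h3
          rw [h1] at h5
          exact h5.symm
        have h5 : orderOf x * 1 = orderOf x * (orderOf x).gcd j := by rw [mul_one]; exact h4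
        have h6 := Nat.eq_of_mul_eq_mul_left h2 h5
        rw [Nat.coprime_comm]
        exact h6.symm
      rw [hk] at hj
      have hj2 : j.Coprime 2 := (Nat.coprime_pow_right_iff (Nat.pos_of_ne_zero hk0) j 2).1 hj
      exact (hm x j hj2).symm
  rw [← Finset.sum_fiberwise_of_maps_to (s := (Finset.univ : Finset X)) (t := (Finset.univ : Finset (Subgroup X)))
    (g := fun y => Subgroup.zpowers y) (fun _ _ => Finset.mem_univ _)]
  refine AddSubgroup.sum_mem _ (fun C _ => ?_)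
  by_cases hne : (Finset.univ.filter (fun y : X => Subgroup.zpowers y = C)).Nonempty
  · obtain ⟨x₀, hx₀⟩ := hne
    have hx₀' : Subgroup.zpowers x₀ = C := (Finset.mem_filter.1 hx₀).2
    have h1 : ∑ x ∈ Finset.univ.filter (fun y : X => Subgroup.zpowers y = C), (m x : ℂ) * ((1 + e₁ x) * (1 + e₂ x))
        = m x₀ • ∑ y ∈ Finset.univ.filter (fun y : X => Subgroup.zpowers y = C), (1 + e₁ y) * (1 + e₂ y) := by
      rw [zsmul_eq_mul, Finset.mul_sum]
      refine Finset.sum_congr rfl (fun x hx => ?_)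
      have hx' : Subgroup.zpowers x = C := (Finset.mem_filter.1 hx).2
      rw [hconst x x₀ (hx'.trans hx₀'.symm)]
    rw [h1]
    exact AddSubgroup.zsmul_mem _ (C8_gen hX e₁ e₂ (Nat.card C) C rfl) _
  · rw [Finset.not_nonempty_iff_eq_empty] at hne
    rw [hne, Finset.sum_empty]
    exact AddSubgroup.zero_mem _

end abstractPart

variable {G : Type*} [Group G] [Fintype G]

/-- the irreducible characters of an abelian group are linear (`abel_trans` with `N = ⊥` and the trivial character) -/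
theorem irr_abelian {P : Subgroup G} (hab : ∀ b ∈ P, ∀ c ∈ P, b * c = c * b) {l : G → ℂ} (hl : l ∈ IrrS P) : l ∈ LinS P ⊥ := by
  have hbot : (⊥ : Subgroup G) ≤ P := bot_le
  have habP : ∀ a ∈ P, ∀ b ∈ P, a * b * a⁻¹ * b⁻¹ ∈ (⊥ : Subgroup G) := by
    intro a ha b hb
    rw [Subgroup.mem_bot, hab a ha b hb]
    group
  have ht := lin_triv hbot
  have ht' := lin_triv (le_refl (⊥ : Subgroup G))
  have hval : ∀ f : G → ℂ, ip ⊥ f (fun x => if x ∈ (⊥ : Subgroup G) then (1 : ℂ) else 0) = f 1 := by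
    intro f
    unfold ip
    have h1 : ∀ x : G, (if x ∈ (⊥ : Subgroup G) then f x * conj ((fun x => if x ∈ (⊥ : Subgroup G) then (1 : ℂ) else 0) x) else 0)
        = if x = 1 then f 1 else 0 := by
      intro x
      by_cases hx : x = 1
      · simp [hx]
      · simp [hx]
    rw [Finset.sum_congr rfl (fun x _ => h1 x), Finset.sum_ite_eq' Finset.univ (1 : G) (fun _ => f 1)]
    simp
  have hθ : (fun x => if x ∈ (⊥ : Subgroup G) then (1 : ℂ) else 0) ∈ IrrS (⊥ : Subgroup G) := lin_irrS ht'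
  have h1 : Over ⊥ (fun x => if x ∈ P then (1 : ℂ) else 0) (fun x => if x ∈ (⊥ : Subgroup G) then (1 : ℂ) else 0) := by
    unfold Over
    rw [hval]
    simp [P.one_mem]
  have h2 : Over ⊥ l (fun x => if x ∈ (⊥ : Subgroup G) then (1 : ℂ) else 0) := by
    unfold Over
    rw [hval]
    obtain ⟨n, hn, hn1⟩ := irrS_one hl
    rw [hn1]
    exact_mod_cast hn.ne'
  obtain ⟨l', hl', he⟩ := abel_trans hbot habP (lin_irrS ht) hl hθ h1 h2
  rw [he]
  exact lin_mul hl' ht

/-- extension by zero of a linear character of `P` -/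
def C8_ext (P : Subgroup G) (χ : P →* ℂˣ) : G → ℂ := fun g => if h : g ∈ P then (χ ⟨g, h⟩ : ℂ) else 0

theorem C8_ext_apply {P : Subgroup G} (χ : P →* ℂˣ) {g : G} (h : g ∈ P) : C8_ext P χ g = (χ ⟨g, h⟩ : ℂ) := by
  unfold C8_ext
  rw [dif_pos h]

theorem C8_ext_mem {P : Subgroup G} (χ : P →* ℂˣ) : C8_ext P χ ∈ LinS P ⊥ := by
  refine ⟨fun g hg => ?_, fun g hg => ?_, fun a ha b hb => ?_⟩
  · unfold C8_ext
    rw [dif_neg hg]
  · rw [Subgroup.mem_bot] at hg
    subst hg
    rw [C8_ext_apply χ P.one_mem]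
    have : (⟨1, P.one_mem⟩ : P) = 1 := rfl
    rw [this, map_one]
    rfl
  · rw [C8_ext_apply χ (P.mul_mem ha hb), C8_ext_apply χ ha, C8_ext_apply χ hb]
    have : (⟨a * b, P.mul_mem ha hb⟩ : P) = ⟨a, ha⟩ * ⟨b, hb⟩ := rfl
    rw [this, map_mul]
    rfl

theorem C8_ext_inj {P : Subgroup G} : Function.Injective (C8_ext P) := by
  intro χ χ' h
  ext x
  have h1 := congrFun h (x : G)
  rw [C8_ext_apply χ x.2, C8_ext_apply χ' x.2] at h1
  exact h1

theorem C8_ext_surj {P : Subgroup G} {l : G → ℂ} (hl : l ∈ LinS P ⊥) : ∃ χ : P →* ℂˣ, C8_ext P χ = l := by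
  refine ⟨MonoidHom.toHomUnits { toFun := fun x : P => l x, map_one' := lin_one hl, map_mul' := fun a b => hl.2.2 a a.2 b b.2 }, ?_⟩
  funext g
  by_cases hg : g ∈ P
  · rw [C8_ext_apply _ hg]
    rfl
  · unfold C8_ext
    rw [dif_neg hg, hl.1 g hg]

theorem C8_finite (P : Subgroup G) : Finite (P →* ℂˣ) := by
  haveI : Finite (LinS P (⊥ : Subgroup G)) := (lin_finite P ⊥).to_subtype
  exact Finite.of_injective (fun χ : P →* ℂˣ => (⟨C8_ext P χ, C8_ext_mem χ⟩ : LinS P (⊥ : Subgroup G)))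
    (fun χ χ' h => C8_ext_inj (congrArg Subtype.val h))

/-- Four values. `f = ∑_l m l • l` over the linear characters `l` of `P` (`charS_expand'`, `irr_abelian`), `q` a power of 2 with `z^q = 1` for all `z ∈ P`. Averaging `f (z^j)` over the odd `j < q` (`hj`): `f 1 + f z + f w + f (z w) = ∑_l m l T_l`, `T_l = 1 + t (l z) + t (l w) + t (l (z w))`,
`t c = (2/q) ∑_(j odd) c^j` is `1, -1, 0` for `c = 1`, `c = -1`, other `c` in `μ_q`. `T_l` is `4` or `0` if `l z, l w` are both real; if exactly one of `l z`, `l w`, `l (z w)` is real, `T_l` is `2` or `0`; if none is real, `T_l = 1`.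
The multiplicities are invariant under `l ↦ l^j`, `j` odd (inner products, `hj`). Those `l` with `T_l = 2` come in pairs `l, l⁻¹`. If no value is real then one of `l z`, `l w` has order `2^k ≥ 8` (take the larger order; if both orders are `4` then `l (z w)` is real), and the four characters
`l^j`, `j = ±1, 2^(k-1) ± 1`, are different on `{z, w}`: these `l` come in fours. So the sum is divisible by `4`. (Any other proof is welcome.) -/
theorem four_values {P : Subgroup G} (hab : ∀ b ∈ P, ∀ c ∈ P, b * c = c * b) (hp : ∀ z ∈ P, ∃ a : ℕ, z ^ (2 ^ a) = 1)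
    {f : G → ℂ} (hf : f ∈ CharS P) (hj : ∀ z ∈ P, ∀ j : ℕ, j.Coprime 2 → f (z ^ j) = f z) {z w : G} (hz : z ∈ P) (hw : w ∈ P) :
    ∃ k : ℤ, f 1 + f z + f w + f (z * w) = 4 * k := by
  haveI := C8_finite P
  haveI := Fintype.ofFinite (P →* ℂˣ)
  have hPG : IsPGroup 2 P := by
    intro x
    obtain ⟨a, ha⟩ := hp x x.2
    exact ⟨a, Subtype.ext (by simpa using ha)⟩
  obtain ⟨n, hn⟩ := (IsPGroup.iff_card).1 hPG
  have hX : IsPGroup 2 (P →* ℂˣ) := by
    intro χ
    refine ⟨n, ?_⟩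
    ext x
    have h1 : x ^ (2 ^ n) = 1 := by
      rw [← hn]
      exact pow_card_eq_one'
    rw [MonoidHom.pow_apply, ← map_pow, h1, map_one, MonoidHom.one_apply]
  let e : P → ((P →* ℂˣ) →* ℂ) := fun x =>
    { toFun := fun χ => (χ x : ℂ)
      map_one' := by simp
      map_mul' := fun χ χ' => by simp }
  have he : ∀ (x : P) (χ : P →* ℂˣ), e x χ = (χ x : ℂ) := fun _ _ => rfl
  -- expansion
  have hexp : ∀ g : G, ∀ hg : g ∈ P, f g = ∑ χ : P →* ℂˣ, (mu P f (C8_ext P χ) : ℂ) * (χ ⟨g, hg⟩ : ℂ) := by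
    intro g hg
    have h1 := congrFun (charS_expand' hf) g
    rw [Finset.sum_apply] at h1
    rw [h1]
    symm
    refine Finset.sum_bij (fun χ _ => C8_ext P χ) ?_ ?_ ?_ ?_
    · intro χ _
      exact mem_irr.2 (lin_irrS (C8_ext_mem χ))
    · intro χ _ χ' _ h
      exact C8_ext_inj h
    · intro l hl
      obtain ⟨χ, hχ⟩ := C8_ext_surj (irr_abelian hab (mem_irr.1 hl))
      exact ⟨χ, Finset.mem_univ _, hχ⟩
    · intro χ _
      rw [Pi.smul_apply, smul_eq_mul, C8_ext_apply χ hg]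
  -- invariance of the multiplicities
  have hm : ∀ χ : P →* ℂˣ, ∀ j : ℕ, j.Coprime 2 → ((mu P f (C8_ext P (χ ^ j)) : ℕ) : ℤ) = ((mu P f (C8_ext P χ) : ℕ) : ℤ) := by
    intro χ j hj2
    have hcop : (Nat.card P).Coprime j := by
      rw [hn]
      exact (Nat.Coprime.pow_right n hj2).symm
    have h1 : ip P f (C8_ext P (χ ^ j)) = ip P f (C8_ext P χ) := by
      rw [ip_eq_sub, ip_eq_sub]
      congr 1
      refine Fintype.sum_equiv (powCoprime hcop) _ _ (fun x => ?_)
      rw [powCoprime_apply]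
      have h2 : f (((x ^ j : P) : G)) = f x := by
        rw [SubgroupClass.coe_pow]
        exact hj x x.2 j hj2
      have h3 : C8_ext P (χ ^ j) x = C8_ext P χ ((x ^ j : P) : G) := by
        rw [C8_ext_apply _ x.2, C8_ext_apply _ (x ^ j).2]
        have h4 : (⟨((x ^ j : P) : G), (x ^ j).2⟩ : P) = x ^ j := rfl
        have h5 : (⟨(x : G), x.2⟩ : P) = x := rfl
        rw [h4, h5, map_pow, MonoidHom.pow_apply]
      rw [h2, h3]
    unfold mu
    rw [h1]
  have hmain := C8_main hX (e ⟨z, hz⟩) (e ⟨w, hw⟩) (fun χ => ((mu P f (C8_ext P χ) : ℕ) : ℤ)) hm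
  obtain ⟨k, hk⟩ := AddSubgroup.mem_zmultiples_iff.1 hmain
  refine ⟨k, ?_⟩
  have h5 : (4 : ℂ) * k = k • (4 : ℂ) := by rw [zsmul_eq_mul]; ring
  rw [h5, hk, hexp 1 P.one_mem, hexp z hz, hexp w hw, hexp (z * w) (P.mul_mem hz hw), ← Finset.sum_add_distrib, ← Finset.sum_add_distrib,
    ← Finset.sum_add_distrib]
  refine Finset.sum_congr rfl (fun χ _ => ?_)
  rw [he, he]
  have h6 : (⟨z * w, P.mul_mem hz hw⟩ : P) = ⟨z, hz⟩ * ⟨w, hw⟩ := rfl
  have h7 : (⟨1, P.one_mem⟩ : P) = 1 := rfl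
  rw [h6, h7, map_mul, map_one]
  push_cast
  ring

/-- Four odd integers have sum divisible by `4` iff their product is `1 mod 4`. So `s z = ±1` with `f z ≡ s z * f 1 mod 4` is a homomorphism. -/
theorem mod4_hom {P : Subgroup G} (hab : ∀ b ∈ P, ∀ c ∈ P, b * c = c * b) (hp : ∀ z ∈ P, ∃ a : ℕ, z ^ (2 ^ a) = 1)
    {f : G → ℂ} (hf : f ∈ CharS P) (hj : ∀ z ∈ P, ∀ j : ℕ, j.Coprime 2 → f (z ^ j) = f z)
    (hodd : ∀ z ∈ P, ∃ k : ℤ, Odd k ∧ f z = k) :
    ∃ s ∈ LinS P ⊥, (∀ z ∈ P, s z = 1 ∨ s z = -1) ∧ ∀ z ∈ P, ∃ k : ℤ, f z = s z * f 1 + 4 * k := by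
  choose! v hv1 hv2 using hodd
  have h1P := P.one_mem
  -- the sign
  let σ : G → ℤ := fun z => if (4 : ℤ) ∣ v z - v 1 then 1 else -1
  have hσ : ∀ z ∈ P, (σ z = 1 ∨ σ z = -1) ∧ (4 : ℤ) ∣ v z - σ z * v 1 := by
    intro z hz
    by_cases h : (4 : ℤ) ∣ v z - v 1
    · have h1 : σ z = 1 := if_pos h
      rw [h1]
      exact ⟨Or.inl rfl, by simpa using h⟩
    · have h1 : σ z = -1 := if_neg h
      rw [h1]
      refine ⟨Or.inr rfl, ?_⟩
      obtain ⟨a, ha⟩ := hv1 z hz
      obtain ⟨b, hb⟩ := hv1 1 h1P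
      omega
  have hmul : ∀ z ∈ P, ∀ w ∈ P, σ (z * w) = σ z * σ w := by
    intro z hz w hw
    obtain ⟨k, hk⟩ := four_values hab hp hf hj hz hw
    rw [hv2 1 h1P, hv2 z hz, hv2 w hw, hv2 (z * w) (P.mul_mem hz hw)] at hk
    have hk' : v 1 + v z + v w + v (z * w) = 4 * k := by exact_mod_cast hk
    obtain ⟨h1, h2⟩ := hσ z hz
    obtain ⟨h3, h4⟩ := hσ w hw
    obtain ⟨h5, h6⟩ := hσ (z * w) (P.mul_mem hz hw)
    obtain ⟨b, hb⟩ := hv1 1 h1P
    rcases h1 with h1 | h1 <;> rcases h3 with h3 | h3 <;> rcases h5 with h5 | h5 <;> rw [h1] at h2 <;> rw [h3] at h4 <;> rw [h5] at h6 <;>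
      rw [h1, h3, h5] <;> first | rfl | (exfalso; omega)
  have hσ1 : σ 1 = 1 := by
    have : (4 : ℤ) ∣ v 1 - v 1 := by simp
    exact if_pos this
  obtain ⟨S, hS, hS0⟩ : ∃ S : G → ℂ, (∀ z ∈ P, S z = σ z) ∧ ∀ z, z ∉ P → S z = 0 :=
    ⟨fun z => if z ∈ P then (σ z : ℂ) else 0, fun z hz => if_pos hz, fun z hz => if_neg hz⟩
  refine ⟨S, ⟨hS0, fun g hg => ?_, fun a ha b hb => ?_⟩, fun z hz => ?_, fun z hz => ?_⟩
  · rw [Subgroup.mem_bot] at hg
    subst hg
    rw [hS 1 h1P, hσ1]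
    simp
  · rw [hS _ (P.mul_mem ha hb), hS a ha, hS b hb, hmul a ha b hb]
    push_cast
    ring
  · rw [hS z hz]
    rcases (hσ z hz).1 with h | h
    · left
      rw [h]
      simp
    · right
      rw [h]
      simp
  · obtain ⟨k, hk⟩ := (hσ z hz).2
    refine ⟨k, ?_⟩
    rw [hS z hz, hv2 z hz, hv2 1 h1P]
    have : v z = σ z * v 1 + 4 * k := by linarith
    rw [this]
    push_cast
    ring

end Pool.Agent.Lib.H90Q
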