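import Pool.Agent.Lib.H90Q.C7
import Pool.Agent.Lib.H90Q.C8

open scoped Classical ComplexConjugate BigOperators

noncomputable section

namespace Pool.Agent.Lib.H90Q

variable {G : Type*} [Group G] [Fintype G]

/-- The canonical extension for every prime: `Can`, and for `p = 2` all values on `P` are congruent to `θ 1` modulo `4`. -/
def CanP (p : ℕ) (L P : Subgroup G) (θ Θ : G → ℂ) : Prop :=
  Can p L P θ Θ ∧ (p = 2 → ∀ z ∈ P, ∃ k : ℤ, Θ z = θ 1 + 4 * k)

private theorem c9_nz_iff {H : Subgroup G} {b : G} (h : Nz b H) (g : G) : b⁻¹ * g * b ∈ H ↔ g ∈ H := by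
  have h1 := h (b⁻¹ * g * b)
  have e : b * (b⁻¹ * g * b) * b⁻¹ = g := by group
  rw [e] at h1
  exact h1

private theorem c9_map {H : Subgroup G} {b : G} (h : Nz b H) : H.map (MulAut.conj b).toMonoidHom = H := by
  ext y
  constructor
  · rintro ⟨x, hx, rfl⟩
    exact (h x).1 hx
  · intro hy
    refine ⟨b⁻¹ * y * b, (c9_nz_iff h y).2 hy, ?_⟩
    show b * (b⁻¹ * y * b) * b⁻¹ = y
    group

private theorem c9_nz_sup {L P : Subgroup G} {b : G} (hL : Nz b L) (hP : Nz b P) : Nz b (L ⊔ P) := by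
  have hm : (L ⊔ P).map (MulAut.conj b).toMonoidHom = L ⊔ P := by
    rw [Subgroup.map_sup, c9_map hL, c9_map hP]
  intro g
  constructor
  · intro hg
    rw [← hm]
    exact ⟨g, hg, rfl⟩
  · intro hg
    rw [← hm] at hg
    obtain ⟨x, hx, e⟩ := hg
    have e1 : b * x * b⁻¹ = b * g * b⁻¹ := e
    have e2 : x = g := mul_left_cancel (mul_right_cancel e1)
    rw [← e2]
    exact hx

private theorem c9_CM_le {L : Subgroup G} {A : Set G} : CM L A ≤ L := inf_le_left

/-- the degree of an irreducible character of a subgroup of a group of odd order is odd -/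
private theorem c9_odd {L K : Subgroup G} (hK : K ≤ L) (hL : ¬ 2 ∣ Nat.card L) {ψ : G → ℂ} (hψ : ψ ∈ IrrS K) :
    ∃ n : ℕ, Odd n ∧ ψ 1 = n := by
  obtain ⟨n, hn0, hn1, hnd⟩ := irr_dvd hψ.2
  refine ⟨n, ?_, hn1⟩
  rw [← Nat.not_even_iff_odd, even_iff_two_dvd]
  exact fun h => hL ((h.trans hnd).trans (Subgroup.card_dvd_of_le hK))

/-- `p ≠ 2`: `can_of_ext`. `p = 2`: `can_of_ext_two`, then `mod4_hom` for `rs P Θ` (`can_two_values`) gives `s`; `lin_inflate` gives `l ∈ LinS (L ⊔ P) L` with `l z = s z`; take `l * Θ`: `l z * Θ z = s z * (s z * Θ 1 + 4 k) = θ 1 ± 4 k`. -/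
theorem canP_of_ext {p : ℕ} [Fact p.Prime] {L P : Subgroup G} (hL : ¬ p ∣ Nat.card L) (hn : ∀ z ∈ P, Nz z L)
    (hp : ∀ z ∈ P, ∃ a : ℕ, z ^ (p ^ a) = 1) (hab : ∀ b ∈ P, ∀ c ∈ P, b * c = c * b) {θ Θ₀ : G → ℂ} (hθ : θ ∈ IrrS L)
    (h : Θ₀ ∈ IrrS (L ⊔ P)) (he : ∀ x ∈ L, Θ₀ x = θ x) :
    ∃ Θ, CanP p L P θ Θ := by
  rcases eq_or_ne p 2 with rfl | hp2
  · obtain ⟨Θ, hΘ⟩ := can_of_ext_two hL hn hp hθ h he
    have hrs : ∀ z ∈ P, rs P Θ z = Θ z := fun z hz => if_pos hz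
    have hf : rs P Θ ∈ CharS P := charS_rs le_sup_right (charS_of_irrS hΘ.irr)
    obtain ⟨s, hs, hs1, hs4⟩ := mod4_hom hab hp hf
      (fun z hz j hj => by
        rw [hrs z hz, hrs _ (P.pow_mem hz j)]
        exact (can_two_values hL hn hp hθ hΘ hz).2 j hj)
      (fun z hz => by
        rw [hrs z hz]
        exact (can_two_values hL hn hp hθ hΘ hz).1)
    obtain ⟨l, hl, hls⟩ := lin_inflate hn (fun x hx hx' => inf_bot_of_coprime hL hp hx hx') hs
    refine ⟨l * Θ, ⟨lin_mul_irr hl hΘ.irr, fun x hx => ?_, fun z hz => ?_⟩, fun _ z hz => ?_⟩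
    · rw [Pi.mul_apply, hl.2.1 x hx, one_mul, hΘ.ext x hx]
    · obtain ⟨ψ, ε, hε, hGC, hmod, hval⟩ := hΘ.val z hz
      have hzT : z ∈ L ⊔ P := Subgroup.mem_sup_right hz
      have hlc : ∀ c ∈ CM L {z}, l (z * c) = s z := by
        intro c hc
        have hcL : c ∈ L := c9_CM_le hc
        rw [hl.2.2 z hzT c (Subgroup.mem_sup_left hcL), hl.2.1 c hcL, mul_one, hls z hz]
      rcases hs1 z hz with h1 | h1
      · refine ⟨ψ, ε, hε, hGC, hmod, fun c hc => ?_⟩
        rw [Pi.mul_apply, hlc c hc, h1, one_mul, hval c hc]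
      · refine ⟨ψ, -ε, ?_, hGC, ?_, fun c hc => ?_⟩
        · rcases hε with rfl | rfl
          · exact Or.inr rfl
          · exact Or.inl (neg_neg 1)
        · refine hmod.trans ?_
          refine (Int.modEq_iff_dvd.2 ?_)
          exact ⟨-ε, by push_cast; ring⟩
        · rw [Pi.mul_apply, hlc c hc, h1, hval c hc]
          push_cast
          ring
    · obtain ⟨k, hk⟩ := hs4 z hz
      rw [hrs z hz, hrs 1 P.one_mem, hΘ.ext 1 L.one_mem] at hk
      rcases hs1 z hz with h1 | h1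
      · refine ⟨k, ?_⟩
        rw [Pi.mul_apply, hls z hz, hk, h1]
        ring
      · refine ⟨-k, ?_⟩
        rw [Pi.mul_apply, hls z hz, hk, h1]
        push_cast
        ring
  · obtain ⟨Θ, hΘ⟩ := can_of_ext hp2 hL hn hp hθ h he
    exact ⟨Θ, hΘ, fun h2 => absurd h2 hp2⟩

/-- `p ≠ 2`: `can_unique`. `p = 2`: `Θ' = l * Θ` with `l z = ±1` on `P`; `l z * Θ z ≡ Θ z mod 4` and `Θ z` is odd, so `l z = 1`. -/
theorem canP_unique {p : ℕ} [Fact p.Prime] {L P : Subgroup G} (hL : ¬ p ∣ Nat.card L) (hn : ∀ z ∈ P, Nz z L)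
    (hp : ∀ z ∈ P, ∃ a : ℕ, z ^ (p ^ a) = 1) (hab : ∀ b ∈ P, ∀ c ∈ P, b * c = c * b) {θ Θ Θ' : G → ℂ} (hθ : θ ∈ IrrS L)
    (h : CanP p L P θ Θ) (h' : CanP p L P θ Θ') : Θ = Θ' := by
  rcases eq_or_ne p 2 with rfl | hp2
  · have hLT : L ≤ L ⊔ P := le_sup_left
    have hov : ∀ {Ψ : G → ℂ}, (∀ x ∈ L, Ψ x = θ x) → Over L Ψ θ := by
      intro Ψ hΨ
      unfold Over
      rw [ip_congr L hΨ (fun x _ => rfl), irrS_ortho hθ hθ, if_pos rfl]
      exact one_ne_zero
    obtain ⟨l, hl, hlΘ⟩ := abel_trans hLT (comm_abel hn hab) h.1.irr h'.1.irr hθ (hov h.1.ext) (hov h'.1.ext)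
    obtain ⟨t, ht, ht1⟩ := c9_odd le_rfl hL hθ
    have hlz : ∀ z ∈ P, l z = 1 := by
      intro z hz
      obtain ⟨a, ha⟩ := hp z hz
      have hinv : cj z θ = θ :=
        ext_inv hLT (nz_sup hn) (charS_of_irrS h.1.irr) hθ h.1.ext (Subgroup.mem_sup_right hz)
      obtain ⟨ψ₀, -, huni, -⟩ := glaub_exists hL (hn z hz) ha hθ hinv
      obtain ⟨ψ, ε, hε, hGC, hmod, hval⟩ := h.1.val z hz
      obtain ⟨ψ', ε', hε', hGC', hmod', hval'⟩ := h'.1.val z hz
      have e1 : ψ = ψ₀ := by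
        by_contra hne
        exact hGC.2.2 (huni ψ hGC.2.1 hne)
      have e2 : ψ' = ψ₀ := by
        by_contra hne
        exact hGC'.2.2 (huni ψ' hGC'.2.1 hne)
      have e3 : ψ' = ψ := e2.trans e1.symm
      subst e3
      obtain ⟨n, hn0, hn1⟩ := irrS_one hGC.2.1
      have hψ1 : ψ' 1 ≠ 0 := by
        rw [hn1]
        exact_mod_cast hn0.ne'
      have h1 := hval 1 (Subgroup.one_mem _)
      have h2 := hval' 1 (Subgroup.one_mem _)
      rw [mul_one z] at h1
      rw [hlΘ, Pi.mul_apply, mul_one z, h1] at h2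
      -- `l z = ε' / ε`
      have h3 : l z = 1 ∨ l z = -1 := by
        have h4 : l z * (ε : ℂ) = (ε' : ℂ) := by
          apply mul_right_cancel₀ hψ1
          rw [← h2]
          ring
        rcases hε with rfl | rfl <;> rcases hε' with rfl | rfl
        · left
          simpa using h4
        · right
          simpa using h4
        · right
          have h5 : -(l z) = 1 := by simpa using h4
          rw [← h5]
          ring
        · left
          have h5 : -(l z) = -1 := by simpa using h4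
          exact neg_injective h5
      rcases h3 with h3 | h3
      · exact h3
      · exfalso
        obtain ⟨k, hk⟩ := h.2 rfl z hz
        obtain ⟨k', hk'⟩ := h'.2 rfl z hz
        rw [hlΘ, Pi.mul_apply, h3, hk, ht1] at hk'
        have h6 : (-1 * ((t : ℤ) + 4 * k) : ℤ) = (t : ℤ) + 4 * k' := by exact_mod_cast hk'
        obtain ⟨r, hr⟩ := ht
        omega
    funext t
    by_cases ht : t ∈ L ⊔ P
    · obtain ⟨x, hx, z, hz, rfl⟩ := (mem_sup_nz hn).1 ht
      rw [hlΘ, Pi.mul_apply, hl.2.2 x (Subgroup.mem_sup_left hx) z (Subgroup.mem_sup_right hz),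
        hl.2.1 x hx, hlz z hz, one_mul, one_mul]
    · rw [h.1.irr.1 t ht, h'.1.irr.1 t ht]
  · exact can_unique hp2 hL hn hp hab hθ h.1 h'.1

theorem canP_cj {p : ℕ} {L P : Subgroup G} {b : G} (hbL : Nz b L) (hbP : Nz b P) {θ Θ : G → ℂ} (h : CanP p L P θ Θ) :
    CanP p L P (cj b θ) (cj b Θ) := by
  refine ⟨can_cj hbL hbP h.1, fun h2 z hz => ?_⟩
  obtain ⟨k, hk⟩ := h.2 h2 (b⁻¹ * z * b) ((c9_nz_iff hbP z).2 hz)
  refine ⟨k, ?_⟩
  rw [cj_apply, cj_apply, hk]
  have e : b⁻¹ * 1 * b = 1 := by group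
  rw [e]

/-- restriction to a smaller `P' ≤ P` -/
theorem canP_rs {p : ℕ} {L P P' : Subgroup G} (hP : P' ≤ P) {θ Θ : G → ℂ} (hθ : θ ∈ IrrS L) (h : CanP p L P θ Θ) :
    CanP p L P' θ (rs (L ⊔ P') Θ) := by
  refine ⟨can_rs hP hθ h.1, fun h2 z hz => ?_⟩
  obtain ⟨k, hk⟩ := h.2 h2 z (hP hz)
  refine ⟨k, ?_⟩
  unfold rs
  rw [if_pos (Subgroup.mem_sup_right hz), hk]

/-- Existence, the same induction as `can_exists` (C4), with `canP_unique`, `canP_cj`, `canP_of_ext`. -/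
theorem canP_exists {p : ℕ} [Fact p.Prime] {L P : Subgroup G} (hL : ¬ p ∣ Nat.card L) (hn : ∀ z ∈ P, Nz z L)
    (hp : ∀ z ∈ P, ∃ a : ℕ, z ^ (p ^ a) = 1) (hab : ∀ b ∈ P, ∀ c ∈ P, b * c = c * b) {θ : G → ℂ} (hθ : θ ∈ IrrS L)
    (hinv : InvS P θ) : ∃ Θ, CanP p L P θ Θ := by
  obtain ⟨N, hN⟩ : ∃ N : ℕ, N = Nat.card P := ⟨_, rfl⟩
  induction N using Nat.strong_induction_on generalizing P with
  | _ N ih =>
    by_cases hbot : P = ⊥
    · subst hbot
      refine ⟨θ, ⟨?_, fun x _ => rfl, fun z hz => ?_⟩, fun _ z hz => ?_⟩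
      · rw [sup_bot_eq]
        exact hθ
      · have hz1 : z = 1 := Subgroup.mem_bot.1 hz
        subst hz1
        have hCM : CM L ({1} : Set G) = L := by
          ext g
          rw [mem_CM_single]
          exact ⟨fun h => h.1, fun h => ⟨h, by rw [mul_one, one_mul]⟩⟩
        have hmu : mu (CM L ({1} : Set G)) θ θ = 1 := by
          unfold mu
          rw [hCM, irrS_ortho hθ hθ, if_pos rfl]
          norm_num
        refine ⟨θ, 1, Or.inl rfl, ⟨hθ, ?_, ?_⟩, ?_, fun c _ => ?_⟩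
        · rw [hCM]
          exact hθ
        · rw [hmu]
          exact (Fact.out : p.Prime).one_lt.ne' ∘ Nat.dvd_one.1
        · rw [hmu]
          rfl
        · rw [one_mul, Int.cast_one, one_mul]
      · have hz1 : z = 1 := Subgroup.mem_bot.1 hz
        subst hz1
        exact ⟨0, by simp⟩
    · have hne : {Q : Subgroup G | Q < P}.Nonempty := ⟨⊥, bot_lt_iff_ne_bot.2 hbot⟩
      obtain ⟨P', hP'⟩ := (Set.toFinite {Q : Subgroup G | Q < P}).exists_maximal hne
      have hlt : P' < P := hP'.1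
      obtain ⟨z, hzP, hzP'⟩ := SetLike.exists_of_lt hlt
      have hsup : P' ⊔ Subgroup.zpowers z = P := by
        have h1 : P' ⊔ Subgroup.zpowers z ≤ P := sup_le hlt.le ((Subgroup.zpowers_le).2 hzP)
        rcases h1.eq_or_lt with h2 | h2
        · exact h2
        · exfalso
          have h3 : P' ⊔ Subgroup.zpowers z ≤ P' := hP'.2 h2 le_sup_left
          exact hzP' (h3 (Subgroup.mem_sup_right (Subgroup.mem_zpowers z)))
      have hcard : Nat.card P' < N := by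
        rw [hN]
        exact Set.Finite.card_lt_card (Set.toFinite _) hlt
      have hn' : ∀ z ∈ P', Nz z L := fun y hy => hn y (hlt.le hy)
      have hp' : ∀ z ∈ P', ∃ a : ℕ, z ^ (p ^ a) = 1 := fun y hy => hp y (hlt.le hy)
      have hab' : ∀ b ∈ P', ∀ c ∈ P', b * c = c * b :=
        fun y hy y' hy' => hab y (hlt.le hy) y' (hlt.le hy')
      obtain ⟨Θ', hΘ'⟩ := ih (Nat.card P') hcard hn' hp' hab' (fun a ha => hinv a (hlt.le ha)) rfl
      have hzL : Nz z L := hn z hzP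
      have hzz : Nz z P' := by
        intro g
        constructor
        · intro hg
          rw [hab z hzP g (hlt.le hg), mul_assoc, mul_inv_cancel, mul_one]
          exact hg
        · intro hg
          have h1 := hab z hzP _ (hlt.le hg)
          have h2 : g = z * g * z⁻¹ := by
            have h3 : z * (z * g * z⁻¹) = z * g := by
              rw [h1]
              group
            exact (mul_left_cancel h3).symm
          rw [h2]
          exact hg
      have hcan : CanP p L P' θ (cj z Θ') := by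
        have h1 := canP_cj hzL hzz hΘ'
        rwa [hinv z hzP] at h1
      have heq : cj z Θ' = Θ' := canP_unique hL hn' hp' hab' hθ hcan hΘ'
      have hT : L ⊔ P = (L ⊔ P') ⊔ Subgroup.zpowers z := by
        rw [sup_assoc, hsup]
      obtain ⟨Θ₀, hΘ₀, hext⟩ := ext_cyclic (c9_nz_sup hzL hzz) hT hΘ'.1.irr heq
      refine canP_of_ext hL hn hp hab hθ hΘ₀ fun x hx => ?_
      rw [hext x (Subgroup.mem_sup_left hx), hΘ'.1.ext x hx]

/-- The sign at an element `z` with `C_L(z) = C_L(P)` is the same for all these `z`: for `p ≠ 2` it is the multiplicity modulo `p` (`1` and `-1` are different modulo `p`), for `p = 2` `ε ψ 1 ≡ θ 1 mod 4` and `ψ 1` is odd.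
(`P` abelian is needed only when `p ≠ 2` and no such `z` exists.) -/
theorem canP_val {p : ℕ} [Fact p.Prime] {L P : Subgroup G} (hL : ¬ p ∣ Nat.card L) (hn : ∀ z ∈ P, Nz z L)
    (hp : ∀ z ∈ P, ∃ a : ℕ, z ^ (p ^ a) = 1) (hab : ∀ b ∈ P, ∀ c ∈ P, b * c = c * b) {θ Θ ψ : G → ℂ} (hθ : θ ∈ IrrS L)
    (h : CanP p L P θ Θ) (hψ : GC p L (P : Set G) θ ψ) :
    ∃ ε : ℤ, (ε = 1 ∨ ε = -1) ∧ ((mu (CM L (P : Set G)) θ ψ : ℤ) ≡ ε [ZMOD p]) ∧
      ∀ z ∈ P, CM L {z} = CM L (P : Set G) → ∀ c ∈ CM L {z}, Θ (z * c) = (ε : ℂ) * ψ c := by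
  have hgcz : ∀ z ∈ P, CM L {z} = CM L (P : Set G) → GC p L {z} θ ψ := by
    intro z _ hCM
    refine ⟨hψ.1, ?_, ?_⟩
    · rw [hCM]
      exact hψ.2.1
    · rw [hCM]
      exact hψ.2.2
  rcases eq_or_ne p 2 with rfl | hp2
  · obtain ⟨t, ht, ht1⟩ := c9_odd le_rfl hL hθ
    obtain ⟨n, hn', hn1⟩ := c9_odd c9_CM_le hL hψ.2.1
    obtain ⟨ε, hε, hεt⟩ : ∃ ε : ℤ, (ε = 1 ∨ ε = -1) ∧ (4 : ℤ) ∣ (t : ℤ) - ε * n := by
      obtain ⟨r, hr⟩ := ht
      obtain ⟨r', hr'⟩ := hn'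
      rcases Nat.even_or_odd (r + r') with h1 | h1
      · refine ⟨1, Or.inl rfl, ?_⟩
        obtain ⟨u, hu⟩ := h1
        omega
      · refine ⟨-1, Or.inr rfl, ?_⟩
        obtain ⟨u, hu⟩ := h1
        omega
    refine ⟨ε, hε, ?_, fun z hz hCM c hc => ?_⟩
    · have h1 : ¬ 2 ∣ mu (CM L (P : Set G)) θ ψ := hψ.2.2
      refine Int.modEq_iff_dvd.2 ?_
      rcases hε with rfl | rfl
      · push_cast
        omega
      · push_cast
        omega
    · obtain ⟨ε', hε', -, hv⟩ := can_val hL hn hp hθ h.1 z hz ψ (hgcz z hz hCM)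
      rw [hv c hc]
      have h1 := hv 1 (Subgroup.one_mem _)
      obtain ⟨k, hk⟩ := h.2 rfl z hz
      rw [mul_one z, hk, ht1, hn1] at h1
      have h2 : (t : ℤ) + 4 * k = ε' * n := by exact_mod_cast h1
      have h3 : ε' = ε := by
        obtain ⟨r', hr'⟩ := hn'
        obtain ⟨u, hu⟩ := hεt
        rcases hε with rfl | rfl <;> rcases hε' with rfl | rfl
        · rfl
        · exfalso
          omega
        · exfalso
          omega
        · rfl
      rw [h3]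
  · have hinv : InvS P θ := fun z hz =>
      ext_inv (N := L) (T := L ⊔ P) le_sup_left (nz_sup hn) (charS_of_irrS h.1.irr) hθ (fun x hx => h.1.ext x hx)
        (Subgroup.mem_sup_right hz)
    obtain ⟨ε, hε, hmod⟩ : ∃ ε : ℤ, (ε = 1 ∨ ε = -1) ∧ ((mu (CM L (P : Set G)) θ ψ : ℤ) ≡ ε [ZMOD p]) := by
      rcases (gcBij hL hn hp hab).sgn θ ψ hinv hψ with h1 | h1
      · exact ⟨1, Or.inl rfl, h1⟩
      · exact ⟨-1, Or.inr rfl, h1⟩
    refine ⟨ε, hε, hmod, fun z hz hCM c hc => ?_⟩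
    obtain ⟨ε', hε', hmod', hv⟩ := can_val hL hn hp hθ h.1 z hz ψ (hgcz z hz hCM)
    rw [hCM] at hmod'
    have hεε : ε' = ε := by
      have h1 : (ε' : ℤ) ≡ ε [ZMOD p] := hmod'.symm.trans hmod
      have h2 : (p : ℤ) ∣ ε - ε' := h1.dvd
      have h5 : ¬ (p : ℤ) ∣ 2 := by
        intro h3
        have h4 : p ∣ 2 := by exact_mod_cast h3
        exact hp2 ((Nat.prime_dvd_prime_iff_eq (Fact.out : p.Prime) Nat.prime_two).1 h4)
      rcases hε with rfl | rfl <;> rcases hε' with rfl | rfl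
      · rfl
      · exfalso
        norm_num at h2
        exact h5 h2
      · exfalso
        have h3 := (Int.dvd_neg).2 h2
        norm_num at h3
        exact h5 h3
      · rfl
    rw [hv c hc, hεε]

end Pool.Agent.Lib.H90Q
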