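import Pool.Agent.Lib.H90Q.E5

open scoped Classical ComplexConjugate BigOperators

noncomputable section

namespace Pool.Agent.Lib.H90Q

variable {G : Type*} [Group G] [Fintype G]

theorem E6_CM {L A P : Subgroup G} (hAP : A ≤ P) : CM (CM L (A : Set G)) (P : Set G) = CM L (P : Set G) := by
  ext y
  rw [mem_CM, mem_CM, mem_CM]
  constructor
  · rintro ⟨⟨h1, _⟩, h3⟩
    exact ⟨h1, h3⟩
  · rintro ⟨h1, h2⟩
    exact ⟨⟨h1, fun z hz => h2 z (hAP hz)⟩, h2⟩

theorem E6_aux {p : ℕ} [Fact p.Prime] {P S : Subgroup G} (hS : ¬ p ∣ Nat.card S)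
    (hpP : ∀ z ∈ P, ∃ a : ℕ, z ^ (p ^ a) = 1) (habP : ∀ b ∈ P, ∀ c ∈ P, b * c = c * b)
    (hnSP : ∀ s ∈ S, Nz s P) {ψ : G → ℂ} (N : ℕ) : ∀ L : Subgroup G, Nat.card L = N → ¬ p ∣ Nat.card L →
    (∀ z ∈ P, Nz z L) → (∀ s ∈ S, Nz s L) → S ⊓ L = CM L (P : Set G) → (∀ a ∈ S, ∀ b ∈ S, a * b * a⁻¹ * b⁻¹ ∈ L) →
    ∀ θ : G → ℂ, InvS P θ → InvS S θ → GC p L P θ ψ → (irrOver (L ⊔ S) L θ).card = (irrOver S (CM L (P : Set G)) ψ).card := by
  induction N using Nat.strong_induction_on with
  | _ N ih =>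
    intro L hN hL hnP hnS hSL hab θ hθ hθS h
    by_cases hne : P ≤ Subgroup.centralizer (L : Set G)
    · have h1 : CM L (P : Set G) = L := by
        apply le_antisymm
        · intro y hy
          exact (mem_CM.1 hy).1
        · intro y hy
          refine mem_CM.2 ⟨hy, fun z hz => ?_⟩
          exact (Subgroup.mem_centralizer_iff.1 (hne hz)) y hy
      have h2 : L ≤ S := by
        rw [h1] at hSL
        rw [← hSL]
        exact inf_le_left
      have h3 : θ = ψ := by
        by_contra hcon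
        have h4 := h.2.2
        have h5 := h.2.1
        rw [h1] at h4 h5
        apply h4
        have h6 := irrS_ortho h.1 h5
        rw [if_neg hcon] at h6
        have h7 : mu L θ ψ = 0 := by
          unfold mu
          rw [h6]
          simp
        rw [h7]
        exact dvd_zero p
      rw [h1, sup_eq_right.2 h2, h3]
    · have hSLc : S ⊓ L ≤ Subgroup.centralizer (P : Set G) := by
        rw [hSL]
        exact inf_le_right
      obtain ⟨A, hAP, hSA, hAL, g, hg, hgen⟩ := exists_A hS hpP habP hnS hnSP hab hSLc hne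
      have hst : Step p L A S (S ⊓ Subgroup.centralizer (A : Set G)) :=
        { hL := hL
          hS := hS
          hp := fun z hz => hpP z (hAP hz)
          hA := fun b hb c hc => habP b (hAP hb) c (hAP hc)
          hAL := fun z hz => hnP z (hAP hz)
          hSL := hnS
          hSA := hSA
          hab := hab
          hS₁ := rfl
          hC := by
            intro y hy hyL
            refine Subgroup.mem_inf.2 ⟨hy, ?_⟩
            have h1 := hSLc (Subgroup.mem_inf.2 ⟨hy, hyL⟩)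
            rw [Subgroup.mem_centralizer_iff] at h1 ⊢
            exact fun z hz => h1 z (hAP hz) }
      have hBA : GCBij p L A := gcBij hL hst.hAL hst.hp hst.hA
      have hinvA : InvS A θ := fun a ha => hθ a (hAP ha)
      obtain ⟨θ₁, hθ₁⟩ := hBA.ex θ h.1 hinvA
      have hcount := hst.count hg hgen hinvA hθS hθ₁
      rw [hcount]
      -- the induction hypothesis
      have hnPA : ∀ z ∈ P, Nz z A := by
        intro z hz y
        constructor
        · intro hy
          rw [habP z hz y (hAP hy), mul_inv_cancel_right]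
          exact hy
        · intro hy
          have h1 := habP z hz _ (hAP hy)
          have h2 : z * y * z⁻¹ = y := by
            have h3 : z * (z * y * z⁻¹) = z * y := by rw [h1]; group
            exact mul_left_cancel h3
          rwa [h2] at hy
      have hleL : CM L (A : Set G) ≤ L := inf_le_left
      have hcard : Nat.card (CM L (A : Set G)) < N := by
        rw [← hN]
        refine lt_of_le_of_ne (Nat.le_of_dvd Nat.card_pos (Subgroup.card_dvd_of_le hleL)) ?_
        intro heq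
        apply hAL
        have h1 : CM L (A : Set G) = L := Subgroup.eq_of_le_of_card_ge hleL heq.ge
        intro a ha
        rw [Subgroup.mem_centralizer_iff]
        intro y hy
        rw [SetLike.mem_coe, ← h1] at hy
        exact (mem_CM.1 hy).2 a ha
      have hL₁ : ¬ p ∣ Nat.card (CM L (A : Set G)) := fun hd => hL (hd.trans (Subgroup.card_dvd_of_le hleL))
      have hnP₁ : ∀ z ∈ P, Nz z (CM L (A : Set G)) := fun z hz => nz_CM (hnP z hz) (hnPA z hz)
      have hnS₁ : ∀ s ∈ S, Nz s (CM L (A : Set G)) := fun s hs => nz_CM (hnS s hs) (hSA s hs)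
      have hmemL₁ : ∀ y ∈ S, y ∈ L → y ∈ CM L (A : Set G) := by
        intro y hy hyL
        have h1 : y ∈ CM L (P : Set G) := by
          rw [← hSL]
          exact Subgroup.mem_inf.2 ⟨hy, hyL⟩
        rw [mem_CM] at h1 ⊢
        exact ⟨h1.1, fun z hz => h1.2 z (hAP hz)⟩
      have hSL₁ : S ⊓ CM L (A : Set G) = CM (CM L (A : Set G)) (P : Set G) := by
        rw [E6_CM hAP, ← hSL]
        apply le_antisymm
        · exact le_inf inf_le_left (inf_le_right.trans hleL)
        · intro y hy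
          obtain ⟨h1, h2⟩ := Subgroup.mem_inf.1 hy
          exact Subgroup.mem_inf.2 ⟨h1, hmemL₁ y h1 h2⟩
      have hab₁ : ∀ a ∈ S, ∀ b ∈ S, a * b * a⁻¹ * b⁻¹ ∈ CM L (A : Set G) := by
        intro a ha b hb
        refine hmemL₁ _ ?_ (hab a ha b hb)
        exact S.mul_mem (S.mul_mem (S.mul_mem ha hb) (S.inv_mem ha)) (S.inv_mem hb)
      have hθ₁P : InvS P θ₁ := fun z hz => (gc_inv_iff hBA (hnP z hz) (hnPA z hz) hinvA hθ₁).1 (hθ z hz)
      have hθ₁S : InvS S θ₁ := fun s hs => (gc_inv_iff hBA (hnS s hs) (hSA s hs) hinvA hθ₁).1 (hθS s hs)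
      have hB₁ : GCBij p (CM L (A : Set G)) P := gcBij hL₁ hnP₁ hpP habP
      have hBP : GCBij p L P := gcBij hL hnP hpP habP
      obtain ⟨ψ', hψ'⟩ := hB₁.ex θ₁ hθ₁.2.1 hθ₁P
      have h1 := (gc_trans hAP hBA hinvA hθ₁ hψ').1
      have h2 : ψ' = ψ := hBP.uniq θ ψ' ψ hθ h1 h
      rw [h2] at hψ'
      have h3 := ih _ hcard (CM L (A : Set G)) rfl hL₁ hnP₁ hnS₁ hSL₁ hab₁ θ₁ hθ₁P hθ₁S hψ'
      rw [E6_CM hAP] at h3
      exact h3

/-- The counting theorem. Strong induction on `|L|`. If `P` centralises `L` then `C_L(P) = L ≤ S`, `ψ = θ` (the multiplicity of `ψ` in `θ` on `L` is not `0`) and both sides are equal. Otherwise `exists_A`, `L₁ = C_L(A) < L` (`A` does not centralise `L`), `θ₁` the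
`A`-correspondent of `θ` (`gcBij`), `Step.count`, and the induction hypothesis for `L₁`, `P`, `S`, `θ₁`: `P` and `S` normalise `L₁`; `S ⊓ L₁ = S ⊓ L = C_L(P) = C_(L₁)(P)`; commutators of `S` lie in `S ⊓ L ≤ L₁`; `θ₁` is `P`- and `S`-invariant (`gc_inv_iff`);
`θ₁` has the `P`-correspondent `ψ`: by `gcBij` for `(L₁, P)` it has one, `ψ'`, and `gc_trans` gives `GC p L P θ ψ'`, so `ψ' = ψ` by uniqueness. -/
theorem e_count {p : ℕ} [Fact p.Prime] {L P S : Subgroup G} (hL : ¬ p ∣ Nat.card L) (hS : ¬ p ∣ Nat.card S)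
    (hnP : ∀ z ∈ P, Nz z L) (hpP : ∀ z ∈ P, ∃ a : ℕ, z ^ (p ^ a) = 1) (habP : ∀ b ∈ P, ∀ c ∈ P, b * c = c * b)
    (hnS : ∀ s ∈ S, Nz s L) (hnSP : ∀ s ∈ S, Nz s P) (hSL : S ⊓ L = CM L (P : Set G))
    (hab : ∀ a ∈ S, ∀ b ∈ S, a * b * a⁻¹ * b⁻¹ ∈ L) {θ ψ : G → ℂ} (hθ : InvS P θ) (hθS : InvS S θ) (h : GC p L P θ ψ) :
    (irrOver (L ⊔ S) L θ).card = (irrOver S (CM L (P : Set G)) ψ).card :=
  E6_aux hS hpP habP hnSP (Nat.card L) L rfl hL hnP hnS hSL hab θ hθ hθS h

end Pool.Agent.Lib.H90Q
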