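import Pool.Agent.Lib.H90Q.A17
import Pool.Agent.Lib.H90Q.B9

open scoped Classical ComplexConjugate BigOperators

noncomputable section

namespace Pool.Agent.Lib.H90Q

variable {G : Type*} [Group G] [Fintype G]

/-- Coprime action on an abelian section: `z` of `p`-power order, centralising `K / L`, fixes every `φ ∈ Irr K` over a `z`-invariant `θ ∈ Irr L`.
Proof: `cj z φ` lies over `cj z θ = θ` (`ip_cj`), so `cj z φ = l * φ` with `l ∈ LinS K L` (`abel_trans`). `cj z l = l` (on `K` the elements `z⁻¹ k z` and `k` differ by an element of `L`),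
so `cj (z ^ n) φ = l ^ n * φ` by induction, and `l ^ (p ^ a) * φ = φ`. `l ^ m = 1` on `K` for `m = L.relIndex K`, prime to `p` (`lin_pow_index`; `m` divides `|K|`). With `n p ^ a ≡ 1` modulo `m`:
`φ = l ^ (n p ^ a) * φ = l * φ`. -/
theorem inv_of_over {p : ℕ} [Fact p.Prime] {L K : Subgroup G} (hLK : L ≤ K) (hK : ¬ p ∣ Nat.card K)
    (hab : ∀ a ∈ K, ∀ b ∈ K, a * b * a⁻¹ * b⁻¹ ∈ L) {z : G} (hzL : Nz z L) (hzK : Nz z K) {a : ℕ} (hq : z ^ (p ^ a) = 1)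
    (hc : ∀ k ∈ K, z⁻¹ * k * z * k⁻¹ ∈ L) {θ φ : G → ℂ} (hθ : θ ∈ IrrS L) (hinv : cj z θ = θ) (hφ : φ ∈ IrrS K) (hov : Over L φ θ) :
    cj z φ = φ := by
  have hφ' : cj z φ ∈ IrrS K := cj_irrS hzK hφ
  have hov' : Over L (cj z φ) θ := by
    have h1 := ip_cj hzL φ θ
    rw [hinv] at h1
    show ip L (cj z φ) θ ≠ 0
    rw [h1]
    exact hov
  obtain ⟨l, hl, hlφ⟩ := abel_trans hLK hab hφ hφ' hθ hov hov'
  have hcl : cj z l = l := by
    funext g
    show l (z⁻¹ * g * z) = l g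
    by_cases hg : g ∈ K
    · have h1 : z⁻¹ * g * z = (z⁻¹ * g * z * g⁻¹) * g := by group
      rw [h1, hl.2.2 _ (hLK (hc g hg)) _ hg, hl.2.1 _ (hc g hg), one_mul]
    · rw [hl.1 g hg]
      apply hl.1
      intro h1
      apply hg
      have h2 := (hzK (z⁻¹ * g * z)).1 h1
      have h3 : z * (z⁻¹ * g * z) * z⁻¹ = g := by group
      rwa [h3] at h2
  have hpow : ∀ n : ℕ, cj (z ^ n) φ = l ^ n * φ := by
    intro n
    induction n with
    | zero => rw [pow_zero, pow_zero, one_mul, cj_one]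
    | succ n ih =>
      rw [pow_succ', ← cj_cj, ih]
      have h1 : cj z (l ^ n * φ) = (cj z l) ^ n * cj z φ := rfl
      rw [h1, hcl, hlφ, ← mul_assoc, ← pow_succ]
  have h2 := hpow (p ^ a)
  rw [hq, cj_one] at h2
  have hp : p.Prime := Fact.out
  have hcop : Nat.Coprime (p ^ a) (L.relIndex K) := by
    apply Nat.Coprime.pow_left
    rw [Nat.Prime.coprime_iff_not_dvd hp]
    intro h3
    exact hK (h3.trans (Dvd.intro_left _ (A15_relIndex hLK)))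
  rw [hlφ]
  funext x
  by_cases hx : x ∈ K
  · by_cases h0 : φ x = 0
    · simp [h0]
    · have h3 := congrFun h2 x
      simp only [Pi.mul_apply, Pi.pow_apply] at h3
      have h4 : l x ^ (p ^ a) = 1 := by
        have h5 : (l x ^ (p ^ a) - 1) * φ x = 0 := by
          rw [sub_mul, one_mul, ← h3, sub_self]
        rcases mul_eq_zero.1 h5 with h6 | h6
        · exact sub_eq_zero.1 h6
        · exact absurd h6 h0
      have h5 := lin_pow_index hLK hab hl hx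
      have h6 : l x ^ Nat.gcd (p ^ a) (L.relIndex K) = 1 := pow_gcd_eq_one.2 ⟨h4, h5⟩
      rw [hcop, pow_one] at h6
      rw [Pi.mul_apply, h6, one_mul]
  · rw [Pi.mul_apply, hφ.1 x hx, mul_zero]

/-- The ramification index is prime to `p`: `mu ^ 2 * # = |K_θ : L|` divides `|K|` (`abel_count`). -/
theorem mu_coprime {p : ℕ} [Fact p.Prime] {L K : Subgroup G} (hLK : L ≤ K) (hK : ¬ p ∣ Nat.card K)
    (hab : ∀ a ∈ K, ∀ b ∈ K, a * b * a⁻¹ * b⁻¹ ∈ L) {θ φ : G → ℂ} (hθ : θ ∈ IrrS L) (hφ : φ ∈ IrrS K) (hov : Over L φ θ) :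
    ¬ p ∣ mu L φ θ := by
  intro h
  have hcount := abel_count hLK (A17_normal hLK hab) hab hφ hθ hov
  have h1 : p ∣ L.relIndex (stS K θ) := by
    rw [← hcount, sq, mul_assoc]
    exact Dvd.dvd.mul_right h _
  have h2 : L.relIndex (stS K θ) ∣ Nat.card (stS K θ) :=
    Dvd.intro_left _ (A15_relIndex (A16_le_stS hLK (cf_charS (charS_of_irrS hθ))))
  have h3 : Nat.card (stS K θ) ∣ Nat.card K :=
    Subgroup.card_dvd_of_le (fun t ht => (mem_stS.1 ht).1)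
  exact hK (h1.trans (h2.trans h3))

/-- The correspondence over `θ`. `K` a `p'`-group, `L` normal in `K` with abelian quotient, `x` a `p`-element normalising `L` and `K` and centralising `K / L`,
`θ ∈ Irr L` invariant under `K` and `x`, with correspondent `θ₁ ∈ Irr (C_L(x))`. Then the correspondence of `x` on `K` is a bijection from the characters over `θ` to the characters over `θ₁`.
Proof: `gcBij` for `L`, `K` and the cyclic group `⟨x⟩` (`CM_zpowers`); `inv_of_over`; over `θ₁`: `gc_over`, `over_of_gc` with `mu_coprime` (for `C_K(x)` over `C_L(x)`: `C_L(x)` contains the commutators of `C_K(x)`). -/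
theorem star_bij {p : ℕ} [Fact p.Prime] {L K : Subgroup G} (hLK : L ≤ K) (hK : ¬ p ∣ Nat.card K)
    (hab : ∀ a ∈ K, ∀ b ∈ K, a * b * a⁻¹ * b⁻¹ ∈ L) {x : G} (hxL : Nz x L) (hxK : Nz x K) {a : ℕ} (hq : x ^ (p ^ a) = 1)
    (hc : ∀ k ∈ K, x⁻¹ * k * x * k⁻¹ ∈ L) {θ θ₁ : G → ℂ} (hθ : θ ∈ IrrS L) (hinv : cj x θ = θ) (hinvK : ∀ t ∈ K, cj t θ = θ)
    (h1 : GC p L {x} θ θ₁) :
    ∃ st : (G → ℂ) → (G → ℂ), Set.BijOn st (irrOver K L θ) (irrOver (CM K {x}) (CM L {x}) θ₁) ∧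
      ∀ φ ∈ irrOver K L θ, ∀ ψ, GC p K {x} φ ψ ↔ ψ = st φ := by
  have hGC : ∀ (M : Subgroup G) (χ ψ : G → ℂ),
      GC p M ((Subgroup.zpowers x : Subgroup G) : Set G) χ ψ ↔ GC p M {x} χ ψ := by
    intro M χ ψ
    unfold GC
    rw [CM_zpowers]
  have hA : ∀ z ∈ Subgroup.zpowers x, ∃ a : ℕ, z ^ (p ^ a) = 1 := by
    rintro z ⟨k, rfl⟩
    refine ⟨a, ?_⟩
    show (x ^ k) ^ (p ^ a) = 1
    rw [← zpow_natCast, ← zpow_mul, mul_comm, zpow_mul, zpow_natCast, hq, one_zpow]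
  have hcomm : ∀ b ∈ Subgroup.zpowers x, ∀ c ∈ Subgroup.zpowers x, b * c = c * b := by
    rintro b ⟨k, rfl⟩ c ⟨l, rfl⟩
    exact (Commute.refl x).zpow_zpow k l
  have hL : ¬ p ∣ Nat.card L := fun h => hK (h.trans (Subgroup.card_dvd_of_le hLK))
  have hBK : GCBij p K (Subgroup.zpowers x) := gcBij hK (nz_zpowers hxK) hA hcomm
  have hBL : GCBij p L (Subgroup.zpowers x) := gcBij hL (nz_zpowers hxL) hA hcomm
  have hInv : ∀ f : G → ℂ, cj x f = f → InvS (Subgroup.zpowers x) f := by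
    intro f hf b hb
    have h2 : Subgroup.zpowers x ≤ stS ⊤ f := by
      rw [Subgroup.zpowers_le]
      exact mem_stS.2 ⟨Subgroup.mem_top x, hf⟩
    exact (mem_stS.1 (h2 hb)).2
  have hinvφ : ∀ φ, φ ∈ irrOver K L θ → InvS (Subgroup.zpowers x) φ := by
    intro φ hφ
    obtain ⟨h2, h3⟩ := mem_irrOver.1 hφ
    exact hInv φ (inv_of_over hLK hK hab hxL hxK hq hc hθ hinv h2 h3)
  have hθI := hInv θ hinv
  have hex : ∀ φ, φ ∈ irrOver K L θ → ∃ ψ, GC p K {x} φ ψ := by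
    intro φ hφ
    obtain ⟨ψ, hψ⟩ := hBK.ex φ (mem_irrOver.1 hφ).1 (hinvφ φ hφ)
    exact ⟨ψ, (hGC _ _ _).1 hψ⟩
  let st : (G → ℂ) → (G → ℂ) := fun φ => if h : ∃ ψ, GC p K {x} φ ψ then h.choose else 0
  have hst : ∀ φ, φ ∈ irrOver K L θ → GC p K {x} φ (st φ) := by
    intro φ hφ
    have h2 : st φ = (hex φ hφ).choose := dif_pos (hex φ hφ)
    rw [h2]
    exact (hex φ hφ).choose_spec
  have huniq : ∀ φ, φ ∈ irrOver K L θ → ∀ ψ, GC p K {x} φ ψ ↔ ψ = st φ := by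
    intro φ hφ ψ
    constructor
    · intro h2
      exact hBK.uniq φ ψ (st φ) (hinvφ φ hφ) ((hGC _ _ _).2 h2) ((hGC _ _ _).2 (hst φ hφ))
    · rintro rfl
      exact hst φ hφ
  have hn := A17_normal hLK hab
  have h1' : GC p L ((Subgroup.zpowers x : Subgroup G) : Set G) θ θ₁ := (hGC _ _ _).2 h1
  refine ⟨st, ⟨?_, ?_, ?_⟩, huniq⟩
  · intro φ hφ
    have hφ' : φ ∈ irrOver K L θ := hφ
    obtain ⟨h2, h3⟩ := mem_irrOver.1 hφ'
    have h4 := gc_over hLK hn hBL hBK hθI hinvK (hinvφ φ hφ') h3 (mu_coprime hLK hK hab hθ h2 h3)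
      ((hGC _ _ _).2 (hst φ hφ')) h1'
    rw [CM_zpowers] at h4
    exact mem_irrOver.2 ⟨(hst φ hφ').2.1, h4⟩
  · intro φ hφ φ' hφ' he
    have h2 : φ ∈ irrOver K L θ := hφ
    have h3 : φ' ∈ irrOver K L θ := hφ'
    have h4 := hst φ' h3
    rw [← he] at h4
    exact hBK.inj φ φ' (st φ) (hinvφ φ h2) (hinvφ φ' h3) ((hGC _ _ _).2 (hst φ h2)) ((hGC _ _ _).2 h4)
  · intro ψ hψ
    have hψ' : ψ ∈ irrOver (CM K {x}) (CM L {x}) θ₁ := hψ
    obtain ⟨h2, h3⟩ := mem_irrOver.1 hψ'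
    have h2' : ψ ∈ IrrS (CM K ((Subgroup.zpowers x : Subgroup G) : Set G)) := by
      rw [CM_zpowers]
      exact h2
    obtain ⟨χ, hχ, h4⟩ := hBK.surj ψ h2'
    have hle : CM L {x} ≤ CM K {x} := fun d hd =>
      mem_CM_single.2 ⟨hLK (mem_CM_single.1 hd).1, (mem_CM_single.1 hd).2⟩
    have hCK : ¬ p ∣ Nat.card (CM K {x}) := fun h =>
      hK (h.trans (Subgroup.card_dvd_of_le (fun d hd => (mem_CM_single.1 hd).1)))
    have hCab : ∀ a ∈ CM K {x}, ∀ b ∈ CM K {x}, a * b * a⁻¹ * b⁻¹ ∈ CM L {x} := by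
      intro b hb c hc'
      refine ⟨hab b (mem_CM_single.1 hb).1 c (mem_CM_single.1 hc').1, ?_⟩
      have h5 := hb.2
      have h6 := hc'.2
      exact Subgroup.mul_mem _ (Subgroup.mul_mem _ (Subgroup.mul_mem _ h5 h6) (Subgroup.inv_mem _ h5)) (Subgroup.inv_mem _ h6)
    have hpe : ¬ p ∣ mu (CM L ((Subgroup.zpowers x : Subgroup G) : Set G)) ψ θ₁ := by
      rw [CM_zpowers]
      exact mu_coprime hle hCK hCab h1.2.1 h2 h3
    have h5 := over_of_gc hLK hA (nz_zpowers hxL) hBL hBK hθI hχ h4 h1' hpe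
    have h6 : χ ∈ irrOver K L θ := mem_irrOver.2 ⟨h4.1, h5⟩
    exact ⟨χ, h6, ((huniq χ h6 ψ).1 ((hGC _ _ _).1 h4)).symm⟩

end Pool.Agent.Lib.H90Q
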