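import Pool.Agent.Lib.H90Q.B5

open scoped Classical ComplexConjugate BigOperators

noncomputable section

namespace Pool.Agent.Lib.H90Q

variable {G : Type*} [Group G] [Fintype G]

/-- `value_sign` without a condition on the prime. -/
theorem F2_value_sign {p : ℕ} [Fact p.Prime] {M T : Subgroup G} (hM : ¬ p ∣ Nat.card M) {z : G} (hz : Nz z M) {a : ℕ}
    (hq : orderOf z = p ^ a) (hT : T = M ⊔ Subgroup.zpowers z) {Ψ φ φ₁ : G → ℂ} (hΨ : Ψ ∈ IrrS T) (hφ : φ ∈ IrrS M)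
    (hres : ∀ x ∈ M, Ψ x = φ x) (h1 : GC p M {z} φ φ₁) {ε : ℤ} (hε : ε = 1 ∨ ε = -1) {r : ℝ} (hr : 0 < r) (hval : Ψ z = (ε : ℂ) * r) :
    ∀ d ∈ CM M {z}, Ψ (z * d) = (ε : ℂ) * φ₁ d := by
  obtain ⟨ψ, hψ, ε', hε', w, hw, hv, hdvd, -⟩ := glaub hM hz hq hT hΨ (ip_self_of_ext hφ hres)
  have hmu : mu (CM M {z}) Ψ φ₁ = mu (CM M {z}) φ φ₁ := by
    unfold mu
    rw [ip_congr (CM M {z}) (f := Ψ) (f' := φ) (g := φ₁) (g' := φ₁) (fun x hx => hres x hx.1) (fun _ _ => rfl)]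
  have hψe : φ₁ = ψ := by
    by_contra hne
    have := hdvd φ₁ h1.2.1 hne
    rw [hmu] at this
    exact h1.2.2 this
  subst hψe
  have hj : Nat.Coprime 1 p := Nat.coprime_one_left p
  obtain ⟨n, hn0, hn⟩ := irrS_one h1.2.1
  have h0 := hv 1 hj 1 (Subgroup.one_mem _)
  rw [pow_one, mul_one, pow_one, hval, hn] at h0
  have hpa : p ^ a ≠ 0 := pow_ne_zero _ (Fact.out : p.Prime).ne_zero
  have hwn : ‖w‖ = 1 := Complex.norm_eq_one_of_pow_eq_one hw hpa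
  have hεn : ‖(ε : ℂ)‖ = 1 := by rcases hε with h | h <;> simp [h]
  have hεn' : ‖(ε' : ℂ)‖ = 1 := by rcases hε' with h | h <;> simp [h]
  have hnr : r = n := by
    have h := congrArg norm h0
    rw [norm_mul, norm_mul, norm_mul, hεn, hεn', hwn, one_mul, one_mul, one_mul, Complex.norm_real,
      Complex.norm_natCast, Real.norm_of_nonneg hr.le] at h
    exact h
  have hnc : (n : ℂ) ≠ 0 := by exact_mod_cast hn0.ne'
  have hew : (ε' : ℂ) * w = ε := by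
    have h : (ε : ℂ) * n = (ε' : ℂ) * w * n := by
      rw [← h0, hnr]; push_cast; rfl
    exact (mul_right_cancel₀ hnc h).symm
  intro d hd
  have h := hv 1 hj d hd
  rw [pow_one, pow_one, hew] at h
  exact h

/-- The value of an extension `Ψ` of `φ` to `M⟨z⟩` on the coset `z C_M(z)`, when `Ψ z` is a real number with sign `ε`.
Proof: `glaub` (`ip M Ψ Ψ = 1` because `Ψ = φ` on `M`) gives `ψ, ε', w` with `Ψ (z d) = ε' w ψ d`; `ψ = φ₁` because `p ∣ mu Ψ ψ'` for all other `ψ'` and `mu Ψ = mu φ` on `C_M(z)`.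
At `d = 1`: `ε' w ψ 1 = ε r`, `ψ 1 > 0`, `|w| = 1`: so `w = ± 1`; `w ^ (p ^ a) = 1` with `p ^ a` odd gives `w = 1`, and then `ε' = ε`. -/
theorem value_sign {p : ℕ} [Fact p.Prime] (hp2 : p ≠ 2) {M T : Subgroup G} (hM : ¬ p ∣ Nat.card M) {z : G} (hz : Nz z M) {a : ℕ}
    (hq : orderOf z = p ^ a) (hT : T = M ⊔ Subgroup.zpowers z) {Ψ φ φ₁ : G → ℂ} (hΨ : Ψ ∈ IrrS T) (hφ : φ ∈ IrrS M)
    (hres : ∀ x ∈ M, Ψ x = φ x) (h1 : GC p M {z} φ φ₁) {ε : ℤ} (hε : ε = 1 ∨ ε = -1) {r : ℝ} (hr : 0 < r) (hval : Ψ z = (ε : ℂ) * r) :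
    ∀ d ∈ CM M {z}, Ψ (z * d) = (ε : ℂ) * φ₁ d := by
  exact F2_value_sign hM hz hq hT hΨ hφ hres h1 hε hr hval

end Pool.Agent.Lib.H90Q
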