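import Pool.Agent.Lib.H90Q.A19
import Pool.Agent.Lib.H90Q.F2
import Pool.Agent.Lib.H90Q.F3

open scoped Classical ComplexConjugate BigOperators

noncomputable section

namespace Pool.Agent.Lib.H90Q

variable {G : Type*} [Group G] [Fintype G]

private theorem F5_mu_congr (K : Subgroup G) {f f' φ : G → ℂ} (h : ∀ x ∈ K, f x = f' x) : mu K f φ = mu K f' φ := by
  unfold mu
  rw [ip_congr K h (fun x _ => rfl)]

private theorem F5_mu_irr {M : Subgroup G} {χ ψ : G → ℂ} (hχ : χ ∈ IrrS M) (hψ : ψ ∈ IrrS M) :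
    mu M χ ψ = if χ = ψ then 1 else 0 := by
  unfold mu
  rw [irrS_ortho hχ hψ]
  split_ifs <;> simp

/-- a character all of whose constituents on `K` are `φ₀` -/
private theorem F5_mult {K T : Subgroup G} (hKT : K ≤ T) {f φ₀ : G → ℂ} (hf : f ∈ CharS T) (hφ₀ : φ₀ ∈ IrrS K)
    (h : ∀ φ ∈ IrrS K, φ ≠ φ₀ → mu K f φ = 0) : ∀ x ∈ K, f x = (mu K f φ₀ : ℂ) * φ₀ x := by
  intro x hx
  have h1 := congrFun (charS_expand hKT hf) x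
  rw [rs, if_pos hx] at h1
  rw [h1, Finset.sum_eq_single φ₀]
  · rfl
  · intro φ hφ hne
    rw [h φ (mem_irr.1 hφ) hne, Nat.cast_zero, zero_smul]
  · intro hn
    exact absurd (mem_irr.2 hφ₀) hn

private theorem F5_mult_pos {K T : Subgroup G} (hKT : K ≤ T) {f φ₀ : G → ℂ} (hf : f ∈ IrrS T) (hφ₀ : φ₀ ∈ IrrS K)
    (h : ∀ φ ∈ IrrS K, φ ≠ φ₀ → mu K f φ = 0) : 0 < mu K f φ₀ := by
  by_contra hcon
  have h0 : mu K f φ₀ = 0 := by omega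
  have h1 := F5_mult hKT (charS_of_irrS hf) hφ₀ h 1 K.one_mem
  obtain ⟨n, hn, hn1⟩ := irrS_one hf
  rw [h0, Nat.cast_zero, zero_mul, hn1] at h1
  have h3 : n = 0 := by exact_mod_cast h1
  omega

/-- a character whose restriction to a subgroup is irreducible is irreducible -/
private theorem F5_irr_of_ext {L T : Subgroup G} (hLT : L ≤ T) {f θ : G → ℂ} (hf : f ∈ CharS T) (hθ : θ ∈ IrrS L)
    (h : ∀ x ∈ L, f x = θ x) : f ∈ IrrS T := by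
  have hmuL : ∀ φ ∈ IrrS L, (∑ χ ∈ irr T, mu T f χ * mu L χ φ) = if θ = φ then 1 else 0 := by
    intro φ hφ
    rw [← A15_mu_trans hLT le_rfl hf hφ, F5_mu_congr L h, F5_mu_irr hθ hφ]
  have hpos : ∀ χ ∈ irr T, mu T f χ ≠ 0 → 0 < mu L χ θ := by
    intro χ hχ hne
    refine F5_mult_pos hLT (mem_irr.1 hχ) hθ fun φ hφ he => ?_
    have h1 := hmuL φ hφ
    rw [if_neg (fun h' => he h'.symm)] at h1
    have h2 := (Finset.sum_eq_zero_iff.1 h1) χ hχ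
    rcases Nat.mul_eq_zero.1 h2 with h3 | h3
    · exact absurd h3 hne
    · exact h3
  have hsum := hmuL θ hθ
  rw [if_pos rfl] at hsum
  have hle : ∑ χ ∈ irr T, mu T f χ ≤ 1 := by
    rw [← hsum]
    refine Finset.sum_le_sum fun χ hχ => ?_
    by_cases h0 : mu T f χ = 0
    · rw [h0, zero_mul]
    · exact Nat.le_mul_of_pos_right _ (hpos χ hχ h0)
  have hex : ∃ χ ∈ irr T, mu T f χ ≠ 0 := by
    by_contra hcon
    push Not at hcon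
    rw [Finset.sum_eq_zero (fun χ hχ => by rw [hcon χ hχ, zero_mul])] at hsum
    exact absurd hsum (by norm_num)
  obtain ⟨χ, hχ, hne⟩ := hex
  have hsplit := Finset.add_sum_erase (irr T) (fun χ => mu T f χ) hχ
  have h1 : mu T f χ = 1 := by
    have := Nat.pos_of_ne_zero hne
    omega
  have h2 : ∀ χ' ∈ irr T, χ' ≠ χ → mu T f χ' = 0 := by
    intro χ' hχ' hne'
    have h3 : ∑ x ∈ (irr T).erase χ, mu T f x = 0 := by omega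
    exact (Finset.sum_eq_zero_iff.1 h3) χ' (Finset.mem_erase.2 ⟨hne', hχ'⟩)
  have h3 : f = χ := by
    rw [charS_expand' hf, Finset.sum_eq_single χ]
    · rw [h1, Nat.cast_one, one_smul]
    · intro χ' hχ' hne'
      rw [h2 χ' hχ' hne', Nat.cast_zero, zero_smul]
    · intro hn
      exact absurd hχ hn
  rw [h3]
  exact mem_irr.1 hχ

/-- one constituent -/
private theorem F5_const {p : ℕ} [Fact p.Prime] (hp2 : p ≠ 2) {L K Z : Subgroup G} (hLK : L ≤ K)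
    (hK : ¬ p ∣ Nat.card K) (hab : ∀ a ∈ K, ∀ b ∈ K, a * b * a⁻¹ * b⁻¹ ∈ L) {z : G} (hzL : Nz z L) (hzK : Nz z K)
    (hZ : Z = K ⊔ Subgroup.zpowers z)
    {a : ℕ} (hq : orderOf z = p ^ a) (hc : ∀ k ∈ K, z⁻¹ * k * z * k⁻¹ ∈ L) {θ Ψ : G → ℂ} (hθ : θ ∈ IrrS L) (hθz : cj z θ = θ)
    (hΨ : Ψ ∈ IrrS Z) {n : ℕ} (hΨL : ∀ x ∈ L, Ψ x = (n : ℂ) * θ x) {st : (G → ℂ) → (G → ℂ)}
    (hst : ∀ φ ∈ irrOver K L θ, ∀ ψ, GC p K {z} φ ψ ↔ ψ = st φ) {ε : ℤ} (hε : ε = 1 ∨ ε = -1) {r : ℝ} (hr : 0 < r) (hval : Ψ z = (ε : ℂ) * r) :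
    ∀ u ∈ CM K {z}, Ψ (z * u) = (ε : ℂ) * ∑ φ ∈ irrOver K L θ, (mu K Ψ φ : ℂ) * st φ u := by
  intro u hu
  have hzp : z ^ (p ^ a) = 1 := by rw [← hq]; exact pow_orderOf_eq_one z
  have hKZ : K ≤ Z := by rw [hZ]; exact le_sup_left
  have hzZ : z ∈ Z := by rw [hZ]; exact Subgroup.mem_sup_right (Subgroup.mem_zpowers z)
  obtain ⟨φ, hφ, hov⟩ := under_exists hKZ hΨ
  obtain ⟨θ', hθ', hov'⟩ := under_exists hLK hφ
  have hov2 : Over L Ψ θ' := over_trans hLK hKZ hΨ hφ hθ' hov hov'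
  have hθθ : θ' = θ := by
    by_contra hne
    apply hov2
    have h1 : ip L Ψ θ' = ip L ((n : ℂ) • θ) θ' := ip_congr L (fun x hx => hΨL x hx) (fun _ _ => rfl)
    rw [h1, ip_smul_left, irrS_ortho hθ hθ', if_neg (fun h => hne h.symm), mul_zero]
  rw [hθθ] at hov'
  have hmem : φ ∈ irrOver K L θ := mem_irrOver.2 ⟨hφ, hov'⟩
  have hinvz : cj z φ = φ := inv_of_over hLK hK hab hzL hzK hzp hc hθ hθz hφ hov'
  have hnZ : ∀ t ∈ Z, Nz t K := by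
    rw [hZ]
    exact nz_sup (nz_zpowers hzK)
  have hstS : Z ≤ stS Z φ := by
    have h1 : K ⊔ Subgroup.zpowers z ≤ stS Z φ := by
      refine sup_le (A16_le_stS hKZ (cf_charS (charS_of_irrS hφ))) ?_
      rw [Subgroup.zpowers_le]
      exact mem_stS.2 ⟨hzZ, hinvz⟩
    exact (le_of_eq hZ).trans h1
  have hinv : ∀ t ∈ Z, cj t φ = φ := fun t ht => (mem_stS.1 (hstS ht)).2
  have hm1 : mu K Ψ φ = 1 := cyclic_mult_one hzK hZ hΨ hφ hov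
  have hres : ∀ x ∈ K, Ψ x = φ x := by
    intro x hx
    have h1 := (clifford_inv hKZ hnZ hΨ hφ hov hinv).2 x hx
    rw [hm1, Nat.cast_one, one_mul] at h1
    exact h1
  have h1 := value_sign hp2 hK hzK hq hZ hΨ hφ hres ((hst φ hmem (st φ)).2 rfl) hε hr hval u hu
  rw [h1]
  congr 1
  rw [Finset.sum_eq_single φ]
  · rw [hm1, Nat.cast_one, one_mul]
  · intro φ' hφ' hne
    have h2 : mu K Ψ φ' = 0 := by
      rw [F5_mu_congr K hres, F5_mu_irr hφ (mem_irrOver.1 hφ').1, if_neg (fun h => hne h.symm)]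
    rw [h2, Nat.cast_zero, zero_mul]
  · intro hn
    exact absurd hmem hn

/-- The value formula. `M ∋ z` (think of `M = L P`), `K` (think of `K = L C_S(x)`), `α ∈ Irr T` restricts to `e Θ` on `M`, `Θ` restricts to `θ ∈ Irr L`, `Θ z` is real with sign `ε`.
Proof. `Z = K ⊔ ⟨z⟩ ≤ T`, `Z₀ = L ⊔ ⟨z⟩ ≤ M`, `Θ₀ = rs Z₀ Θ ∈ Irr Z₀` (its restriction to `L` is irreducible: norm, `irrS_of_norm_one`). Expand `rs Z α = ∑ m_Ψ Ψ` (`charS_expand`, `m_Ψ = mu Z α Ψ`).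
Let `m_Ψ > 0`. For `ψ' ∈ Irr Z₀`, `ψ' ≠ Θ₀`: `∑_Ψ m_Ψ mu Z₀ Ψ ψ' = mu Z₀ α ψ' = 0` (`A15_mu_trans`, `α = e Θ` on `Z₀`), so `mu Z₀ Ψ ψ' = 0` and `Ψ = r Θ₀` on `Z₀` with `r = mu Z₀ Ψ Θ₀ > 0`. Hence
`Ψ z = ε * (positive)`, and `Ψ` restricted to `L` is `r θ`. `Ψ` lies over some `φ ∈ Irr K` (`under_exists`) and `φ` over `θ` (`over_trans`, `mu`), so `φ` is `z`-invariant (`inv_of_over`; `θ` is `z`-invariant because
`θ = Θ` on `L` and `z ∈ M`), hence `Z`-invariant, `mu K Ψ φ = 1` (`cyclic_mult_one`) and `Ψ = φ` on `K` (`clifford_inv`). By `value_sign` `Ψ (z u) = ε * st φ u`.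
Finally `∑_Ψ m_Ψ st (φ_Ψ) u = ∑_φ (∑_(Ψ over φ) m_Ψ) st φ u` and `mu K α φ = ∑_Ψ m_Ψ mu K Ψ φ` (`A15_mu_trans`), where `mu K Ψ φ = 1` if `φ = φ_Ψ` and `0` otherwise. -/
theorem core_value {p : ℕ} [Fact p.Prime] (hp2 : p ≠ 2) {L K M T : Subgroup G} (hLK : L ≤ K) (hKT : K ≤ T) (hMT : M ≤ T) (hLM : L ≤ M)
    (hK : ¬ p ∣ Nat.card K) (hab : ∀ a ∈ K, ∀ b ∈ K, a * b * a⁻¹ * b⁻¹ ∈ L) {z : G} (hzM : z ∈ M) (hzL : Nz z L) (hzK : Nz z K)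
    {a : ℕ} (hq : orderOf z = p ^ a) (hc : ∀ k ∈ K, z⁻¹ * k * z * k⁻¹ ∈ L) {θ Θ α : G → ℂ} (hθ : θ ∈ IrrS L) (hΘ : Θ ∈ IrrS M)
    (hres : ∀ y ∈ L, Θ y = θ y) (hα : α ∈ IrrS T) {e : ℕ} (he : 0 < e) (hαΘ : ∀ g ∈ M, α g = (e : ℂ) * Θ g) {st : (G → ℂ) → (G → ℂ)}
    (hst : ∀ φ ∈ irrOver K L θ, ∀ ψ, GC p K {z} φ ψ ↔ ψ = st φ) {ε : ℤ} (hε : ε = 1 ∨ ε = -1) {r : ℝ} (hr : 0 < r) (hval : Θ z = (ε : ℂ) * r) :
    ∀ u ∈ CM K {z}, α (z * u) = (ε : ℂ) * ∑ φ ∈ irrOver K L θ, (mu K α φ : ℂ) * st φ u := by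
  intro u hu
  have hzT : z ∈ T := hMT hzM
  obtain ⟨Z, hZ⟩ : ∃ Z : Subgroup G, Z = K ⊔ Subgroup.zpowers z := ⟨_, rfl⟩
  obtain ⟨Z₀, hZ₀⟩ : ∃ Z₀ : Subgroup G, Z₀ = L ⊔ Subgroup.zpowers z := ⟨_, rfl⟩
  have hKZ : K ≤ Z := by rw [hZ]; exact le_sup_left
  have hzZ : z ∈ Z := by rw [hZ]; exact Subgroup.mem_sup_right (Subgroup.mem_zpowers z)
  have hzZ₀ : z ∈ Z₀ := by rw [hZ₀]; exact Subgroup.mem_sup_right (Subgroup.mem_zpowers z)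
  have hLZ₀ : L ≤ Z₀ := by rw [hZ₀]; exact le_sup_left
  have hZ₀Z : Z₀ ≤ Z := by rw [hZ, hZ₀]; exact sup_le_sup_right hLK _
  have hZT : Z ≤ T := by rw [hZ]; exact sup_le hKT (by rw [Subgroup.zpowers_le]; exact hzT)
  have hZ₀M : Z₀ ≤ M := by rw [hZ₀]; exact sup_le hLM (by rw [Subgroup.zpowers_le]; exact hzM)
  have hZ₀T : Z₀ ≤ T := hZ₀Z.trans hZT
  have hαc : α ∈ CharS T := charS_of_irrS hα
  have hΘ₀c : rs Z₀ Θ ∈ CharS Z₀ := charS_rs hZ₀M (charS_of_irrS hΘ)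
  have hΘ₀L : ∀ x ∈ L, rs Z₀ Θ x = θ x := by
    intro x hx
    rw [rs, if_pos (hLZ₀ hx)]
    exact hres x hx
  have hΘ₀ : rs Z₀ Θ ∈ IrrS Z₀ := F5_irr_of_ext hLZ₀ hΘ₀c hθ hΘ₀L
  have hα0 : ∀ ψ ∈ IrrS Z₀, ψ ≠ rs Z₀ Θ → mu Z₀ α ψ = 0 := by
    intro ψ hψ hne
    have h1 : (mu Z₀ α ψ : ℂ) = 0 := by
      rw [mu_spec hZ₀T hαc hψ]
      have h2 : ip Z₀ α ψ = ip Z₀ ((e : ℂ) • rs Z₀ Θ) ψ := by
        refine ip_congr Z₀ (fun x hx => ?_) (fun _ _ => rfl)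
        rw [Pi.smul_apply, smul_eq_mul, rs, if_pos hx]
        exact hαΘ x (hZ₀M hx)
      rw [h2, ip_smul_left, irrS_ortho hΘ₀ hψ, if_neg (fun h => hne h.symm), mul_zero]
    exact_mod_cast h1
  have hθz : cj z θ = θ := by
    funext g
    unfold cj
    have hiff : z⁻¹ * g * z ∈ L ↔ g ∈ L := by
      rw [hzL (z⁻¹ * g * z)]
      have : z * (z⁻¹ * g * z) * z⁻¹ = g := by group
      rw [this]
    by_cases hg : g ∈ L
    · rw [← hres g hg, ← hres _ (hiff.2 hg)]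
      have h1 := (cf_charS (charS_of_irrS hΘ)).2 z⁻¹ (M.inv_mem hzM) g
      rw [inv_inv] at h1
      exact h1
    · rw [hθ.1 g hg, hθ.1 _ (fun h => hg (hiff.1 h))]
  have hkey : ∀ Ψ ∈ irr Z, (mu Z α Ψ : ℂ) * Ψ (z * u) =
      (mu Z α Ψ : ℂ) * ((ε : ℂ) * ∑ φ ∈ irrOver K L θ, (mu K Ψ φ : ℂ) * st φ u) := by
    intro Ψ hΨ
    by_cases hm : mu Z α Ψ = 0
    · rw [hm, Nat.cast_zero, zero_mul, zero_mul]
    · have hΨ' := mem_irr.1 hΨ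
      have h0 : ∀ ψ ∈ IrrS Z₀, ψ ≠ rs Z₀ Θ → mu Z₀ Ψ ψ = 0 := by
        intro ψ hψ hne
        have h1 := A15_mu_trans hZ₀Z hZT hαc hψ
        rw [hα0 ψ hψ hne] at h1
        have h2 := (Finset.sum_eq_zero_iff.1 h1.symm) Ψ hΨ
        rcases Nat.mul_eq_zero.1 h2 with h3 | h3
        · exact absurd h3 hm
        · exact h3
      have hpos := F5_mult_pos hZ₀Z hΨ' hΘ₀ h0
      have hmul := F5_mult hZ₀Z (charS_of_irrS hΨ') hΘ₀ h0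
      have hΨL : ∀ x ∈ L, Ψ x = ((mu Z₀ Ψ (rs Z₀ Θ) : ℕ) : ℂ) * θ x := by
        intro x hx
        rw [hmul x (hLZ₀ hx), hΘ₀L x hx]
      have hvalΨ : Ψ z = (ε : ℂ) * (((mu Z₀ Ψ (rs Z₀ Θ) : ℝ) * r : ℝ) : ℂ) := by
        rw [hmul z hzZ₀]
        have : rs Z₀ Θ z = Θ z := by rw [rs, if_pos hzZ₀]
        rw [this, hval]
        push_cast
        ring
      have hr' : 0 < (mu Z₀ Ψ (rs Z₀ Θ) : ℝ) * r := mul_pos (by exact_mod_cast hpos) hr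
      rw [F5_const hp2 hLK hK hab hzL hzK hZ hq hc hθ hθz hΨ' hΨL hst hε hr' hvalΨ u hu]
  have hzu : z * u ∈ Z := Z.mul_mem hzZ (hKZ (mem_CM_single.1 hu).1)
  have hexp := congrFun (charS_expand hZT hαc) (z * u)
  rw [rs, if_pos hzu, Finset.sum_apply] at hexp
  rw [hexp]
  have h1 : ∀ Ψ ∈ irr Z, ((mu Z α Ψ : ℂ) • Ψ) (z * u) =
      (ε : ℂ) * ∑ φ ∈ irrOver K L θ, ((mu Z α Ψ * mu K Ψ φ : ℕ) : ℂ) * st φ u := by
    intro Ψ hΨ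
    rw [Pi.smul_apply, smul_eq_mul, hkey Ψ hΨ, ← mul_assoc, mul_comm (mu Z α Ψ : ℂ), mul_assoc, Finset.mul_sum]
    congr 1
    refine Finset.sum_congr rfl fun φ _ => ?_
    push_cast
    ring
  rw [Finset.sum_congr rfl h1, ← Finset.mul_sum, Finset.sum_comm]
  congr 1
  refine Finset.sum_congr rfl fun φ hφ => ?_
  rw [← Finset.sum_mul, A15_mu_trans hKZ hZT hαc (mem_irrOver.1 hφ).1]
  push_cast
  rfl

end Pool.Agent.Lib.H90Q
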