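import Pool.Agent.Lib.H90Q.A17

open scoped Classical ComplexConjugate BigOperators

noncomputable section

namespace Pool.Agent.Lib.H90Q

theorem F6_bij {X : Type*} (A B : Finset X) (h : A.card = B.card) : ∃ g : X → X, Set.BijOn g A B := by
  have e : A ≃ B := Finset.equivOfCardEq h
  refine ⟨fun x => if hx : x ∈ A then (e ⟨x, hx⟩).1 else x, ?_, ?_, ?_⟩
  · intro x hx
    have hx' : x ∈ A := hx
    simp only [dif_pos hx']
    exact (e ⟨x, hx'⟩).2
  · intro x hx y hy hxy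
    have hx' : x ∈ A := hx
    have hy' : y ∈ A := hy
    simp only [dif_pos hx', dif_pos hy'] at hxy
    have := e.injective (Subtype.ext hxy)
    exact congrArg Subtype.val this
  · intro b hb
    have hb' : b ∈ B := hb
    refine ⟨(e.symm ⟨b, hb'⟩).1, (e.symm ⟨b, hb'⟩).2, ?_⟩
    have hx : ((e.symm ⟨b, hb'⟩ : A) : X) ∈ A := (e.symm ⟨b, hb'⟩).2
    simp only [dif_pos hx]
    have : e ⟨((e.symm ⟨b, hb'⟩ : A) : X), hx⟩ = ⟨b, hb'⟩ := by
      rw [Subtype.coe_eta, Equiv.apply_symm_apply]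
    rw [this]

/-- Two finite sets with class functions `c`, `c'` all of whose fibres have the same size. -/
theorem fiber_bij {X κ : Type*} [Nonempty X] (A B : Finset X) (c c' : X → κ)
    (h : ∀ k, (A.filter (fun a => c a = k)).card = (B.filter (fun b => c' b = k)).card) :
    ∃ g : X → X, Set.BijOn g A B ∧ ∀ a ∈ A, c' (g a) = c a := by
  choose g' hg' using fun k => F6_bij _ _ (h k)
  have hmem : ∀ x ∈ A, g' (c x) x ∈ B ∧ c' (g' (c x) x) = c x := by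
    intro x hx
    have h1 : x ∈ A.filter (fun a => c a = c x) := Finset.mem_filter.2 ⟨hx, rfl⟩
    have h2 : g' (c x) x ∈ B.filter (fun b => c' b = c x) := (hg' (c x)).1 h1
    exact Finset.mem_filter.1 h2
  refine ⟨fun x => g' (c x) x, ⟨fun x hx => (hmem x hx).1, ?_, ?_⟩, fun x hx => (hmem x hx).2⟩
  · intro x hx y hy hxy
    simp only at hxy
    have h1 : c x = c y := by rw [← (hmem x hx).2, ← (hmem y hy).2, hxy]
    rw [← h1] at hxy
    exact (hg' (c x)).2.1 (Finset.mem_filter.2 ⟨hx, rfl⟩) (Finset.mem_filter.2 ⟨hy, h1.symm⟩) hxy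
  · intro b hb
    have h1 : b ∈ B.filter (fun b' => c' b' = c' b) := Finset.mem_filter.2 ⟨hb, rfl⟩
    obtain ⟨a, ha, hab⟩ := (hg' (c' b)).2.2 h1
    have ha' : a ∈ A.filter (fun a' => c a' = c' b) := ha
    obtain ⟨ha1, ha2⟩ := Finset.mem_filter.1 ha'
    refine ⟨a, ha1, ?_⟩
    simp only [ha2]
    exact hab

variable {G : Type*} [Group G] [Fintype G]

/-- All `φ ∈ Irr(K|θ)` have the same number of characters of `U` above them: `φ' = l * φ` with `l ∈ LinS K L` (`abel_trans`), `l` extends to `l' ∈ LinS U L` (`lin_extend`), and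
`χ ↦ l' * χ` maps `irrOver U K φ` to `irrOver U K φ'` bijectively. -/
theorem over_card_const {L K U : Subgroup G} (hLK : L ≤ K) (hKU : K ≤ U) (hab : ∀ a ∈ U, ∀ b ∈ U, a * b * a⁻¹ * b⁻¹ ∈ L) {θ φ φ' : G → ℂ}
    (hθ : θ ∈ IrrS L) (hφ : φ ∈ irrOver K L θ) (hφ' : φ' ∈ irrOver K L θ) : (irrOver U K φ).card = (irrOver U K φ').card := by
  obtain ⟨hφi, hφo⟩ := mem_irrOver.1 hφ
  obtain ⟨hφi', hφo'⟩ := mem_irrOver.1 hφ'
  have habK : ∀ a ∈ K, ∀ b ∈ K, a * b * a⁻¹ * b⁻¹ ∈ L := fun a ha b hb => hab a (hKU ha) b (hKU hb)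
  obtain ⟨l, hl, hle⟩ := abel_trans hLK habK hφi hφi' hθ hφo hφo'
  obtain ⟨l', hl', hll⟩ := lin_extend hLK hKU hab hl
  have hone : ∀ x ∈ K, l' x * conj (l' x) = 1 := fun x hx => lin_mul_conj hl' (hKU hx)
  have hip : ∀ χ : G → ℂ, ip K (l' * χ) φ' = ip K χ φ := by
    intro χ
    unfold ip
    congr 1
    refine Finset.sum_congr rfl (fun x _ => ?_)
    by_cases hx : x ∈ K
    · rw [if_pos hx, if_pos hx, hle]
      simp only [Pi.mul_apply, map_mul, ← hll x hx]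
      have := hone x hx
      calc l' x * χ x * (conj (l' x) * conj (φ x)) = (l' x * conj (l' x)) * (χ x * conj (φ x)) := by ring
        _ = χ x * conj (φ x) := by rw [this, one_mul]
    · rw [if_neg hx, if_neg hx]
  refine Finset.card_nbij' (fun χ => l' * χ) (fun χ => l'⁻¹ * χ) ?_ ?_ ?_ ?_
  · intro χ hχ
    obtain ⟨h1, h2⟩ := mem_irrOver.1 hχ
    refine mem_irrOver.2 ⟨lin_mul_irr hl' h1, ?_⟩
    unfold Over at h2 ⊢
    rwa [hip]
  · intro χ hχ
    obtain ⟨h1, h2⟩ := mem_irrOver.1 hχ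
    refine mem_irrOver.2 ⟨lin_mul_irr (A17_lin_inv hl') h1, ?_⟩
    unfold Over at h2 ⊢
    have h3 := hip (l'⁻¹ * χ)
    rw [A17_mul_inv hl' h1.1] at h3
    rwa [← h3]
  · intro χ hχ
    exact A17_inv_mul hl' (mem_irrOver.1 hχ).1.1
  · intro χ hχ
    exact A17_mul_inv hl' (mem_irrOver.1 hχ).1.1

theorem F6_relIndex {K U D S : Subgroup G} (hn : ∀ t ∈ U, Nz t K) (hKU : K ≤ U) (hSU : S ≤ U)
    (hKS : ∀ t ∈ U, ∃ k ∈ K, ∃ s ∈ S, t = k * s) (hKSD : K ⊓ S = D) : K.relIndex U = D.relIndex S := by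
  have h1 : D.relIndex S = K.relIndex S := by rw [← hKSD, Subgroup.inf_relIndex_right]
  rw [h1, ← Subgroup.relIndex_subgroupOf hSU]
  haveI : (K.subgroupOf U).Normal := by
    constructor
    intro n hn' g
    rw [Subgroup.mem_subgroupOf] at hn' ⊢
    have := (hn g g.2 n).1 hn'
    simpa using this
  rw [← Subgroup.relIndex_sup_right (S.subgroupOf U) (K.subgroupOf U)]
  have h2 : S.subgroupOf U ⊔ K.subgroupOf U = ⊤ := by
    rw [eq_top_iff]
    rintro ⟨t, ht⟩ -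
    obtain ⟨k, hk, s, hs, rfl⟩ := hKS t ht
    have h3 : (⟨k * s, ht⟩ : U) = ⟨k, hKU hk⟩ * ⟨s, hSU hs⟩ := rfl
    rw [h3]
    refine Subgroup.mul_mem _ ?_ ?_
    · exact (le_sup_right : K.subgroupOf U ≤ _) (Subgroup.mem_subgroupOf.2 hk)
    · exact (le_sup_left : S.subgroupOf U ≤ _) (Subgroup.mem_subgroupOf.2 hs)
  rw [h2, Subgroup.relIndex_top_right]
  rfl

/-- The matching. `U = K S`, `K ∩ S = D`, `U / L` and `S / C` abelian, `θ ∈ Irr L` is `U`-invariant, `θ₁ ∈ Irr C` is `S`-invariant, `st : Irr(K|θ) → Irr(D|θ₁)` is an `S`-equivariant bijection, and the sets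
`Irr(U|θ)`, `Irr(S|θ₁)` have the same size. Then there is a bijection `g` between them that respects the multiplicities.
Proof. For `β ∈ Irr(U|θ)` let `c β` be the finset of the `φ ∈ Irr(K|θ)` with `Over K β φ`: a `U`-orbit (`clifford`, `clifford_mult`; `over_split`), which is an `S`-orbit because `U = K S`. For `γ ∈ Irr(S|θ₁)` let `c' γ` be
the finset of the `φ ∈ Irr(K|θ)` with `Over D γ (st φ)`: again an `S`-orbit. The fibre of `c` over the orbit of `φ` is `irrOver U K φ`, the fibre of `c'` is `irrOver S D (st φ)`. Their sizes `n`, `n'` do not depend on `φ`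
(`over_card_const`), so `|Irr(U|θ)| = k n` and `|Irr(S|θ₁)| = k n'` with the number `k > 0` of orbits: `n = n'`; `fiber_bij`. Multiplicities: `mu K β φ = a` for all `β ∈ irrOver U K φ` with
`a ^ 2 * n = |U_φ : K| = |S_φ : D|` (`abel_count`; `U_φ = K S_φ`), `mu D γ (st φ) = a'` with `a' ^ 2 * n' = |S_(st φ) : D|`, and `S_(st φ) = S_φ` (equivariance and injectivity): `a = a'`. -/
theorem match_bij {L K U C D S : Subgroup G} (hLK : L ≤ K) (hKU : K ≤ U) (habU : ∀ a ∈ U, ∀ b ∈ U, a * b * a⁻¹ * b⁻¹ ∈ L)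
    (hCD : C ≤ D) (hDS : D ≤ S) (habS : ∀ a ∈ S, ∀ b ∈ S, a * b * a⁻¹ * b⁻¹ ∈ C) (hSU : S ≤ U)
    (hKS : ∀ t ∈ U, ∃ k ∈ K, ∃ s ∈ S, t = k * s) (hKSD : K ⊓ S = D) {θ θ₁ : G → ℂ} (hθ : θ ∈ IrrS L) (hθ₁ : θ₁ ∈ IrrS C)
    (hinv : ∀ t ∈ U, cj t θ = θ) (hinv₁ : ∀ t ∈ S, cj t θ₁ = θ₁) {st : (G → ℂ) → (G → ℂ)}
    (hst : Set.BijOn st (irrOver K L θ) (irrOver D C θ₁)) (heq : ∀ s ∈ S, ∀ φ ∈ irrOver K L θ, st (cj s φ) = cj s (st φ))
    (hE : (irrOver U L θ).card = (irrOver S C θ₁).card) :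
    ∃ g : (G → ℂ) → (G → ℂ), Set.BijOn g (irrOver U L θ) (irrOver S C θ₁) ∧
      ∀ β ∈ irrOver U L θ, ∀ φ ∈ irrOver K L θ, mu D (g β) (st φ) = mu K β φ := by
  have habUK : ∀ a ∈ U, ∀ b ∈ U, a * b * a⁻¹ * b⁻¹ ∈ K := fun a ha b hb => hLK (habU a ha b hb)
  have habSD : ∀ a ∈ S, ∀ b ∈ S, a * b * a⁻¹ * b⁻¹ ∈ D := fun a ha b hb => hCD (habS a ha b hb)
  have hnK : ∀ t ∈ U, Nz t K := A17_normal hKU habUK
  have hnL : ∀ t ∈ U, Nz t L := A17_normal (hLK.trans hKU) habU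
  have hnD : ∀ t ∈ S, Nz t D := A17_normal hDS habSD
  -- `I` is stable
  have hI : ∀ φ ∈ irrOver K L θ, ∀ t ∈ U, cj t φ ∈ irrOver K L θ := by
    intro φ hφ t ht
    obtain ⟨h1, h2⟩ := mem_irrOver.1 hφ
    refine mem_irrOver.2 ⟨cj_irrS (hnK t ht) h1, ?_⟩
    unfold Over at h2 ⊢
    have h3 := ip_cj (hnL t ht) φ θ
    rw [hinv t ht] at h3
    rwa [h3]
  have hUS : ∀ φ ∈ irrOver K L θ, ∀ t ∈ U, ∃ s ∈ S, cj t φ = cj s φ := by
    intro φ hφ t ht
    obtain ⟨k, hk, s, hs, rfl⟩ := hKS t ht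
    refine ⟨s, hs, ?_⟩
    rw [← cj_cj]
    exact cj_mem hk (cf_charS (charS_of_irrS (mem_irrOver.1 (hI φ hφ s (hSU hs))).1))
  have horbI : ∀ φ ∈ irrOver K L θ, ∀ φ' ∈ orb S φ, φ' ∈ irrOver K L θ := by
    intro φ hφ φ' h
    obtain ⟨s, hs, rfl⟩ := mem_orb.1 h
    exact hI φ hφ s (hSU hs)
  -- the two classifying maps
  set c : (G → ℂ) → Finset (G → ℂ) := fun β => (irrOver K L θ).filter (fun φ => Over K β φ) with hc
  set c' : (G → ℂ) → Finset (G → ℂ) := fun γ => (irrOver K L θ).filter (fun φ => Over D γ (st φ)) with hc'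
  have hcO : ∀ φ ∈ irrOver K L θ, ∀ β ∈ irrOver U K φ, c β = orb S φ := by
    intro φ hφ β hβ
    obtain ⟨hβi, hβo⟩ := mem_irrOver.1 hβ
    ext φ'
    simp only [hc, Finset.mem_filter]
    constructor
    · rintro ⟨h1, h2⟩
      obtain ⟨t, ht, he⟩ := clifford hKU hnK hβi (mem_irrOver.1 hφ).1 (mem_irrOver.1 h1).1 hβo h2
      obtain ⟨s, hs, he'⟩ := hUS φ hφ t ht
      exact mem_orb.2 ⟨s, hs, by rw [he, he']⟩
    · intro h
      refine ⟨horbI φ hφ φ' h, ?_⟩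
      obtain ⟨s, hs, rfl⟩ := mem_orb.1 h
      unfold Over at hβo ⊢
      rwa [clifford_mult hnK hβi φ (hSU hs)]
  have hcO' : ∀ φ ∈ irrOver K L θ, ∀ γ ∈ irrOver S D (st φ), c' γ = orb S φ := by
    intro φ hφ γ hγ
    obtain ⟨hγi, hγo⟩ := mem_irrOver.1 hγ
    ext φ'
    simp only [hc', Finset.mem_filter]
    constructor
    · rintro ⟨h1, h2⟩
      obtain ⟨s, hs, he⟩ := clifford hDS hnD hγi (mem_irrOver.1 (hst.1 hφ)).1 (mem_irrOver.1 (hst.1 h1)).1 hγo h2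
      rw [← heq s hs φ hφ] at he
      have := hst.2.1 h1 (hI φ hφ s (hSU hs)) he
      exact mem_orb.2 ⟨s, hs, this.symm⟩
    · intro h
      refine ⟨horbI φ hφ φ' h, ?_⟩
      obtain ⟨s, hs, rfl⟩ := mem_orb.1 h
      unfold Over at hγo ⊢
      rw [heq s hs φ hφ]
      rwa [clifford_mult hnD hγi (st φ) hs]
  have hA : ∀ β ∈ irrOver U L θ, ∃ φ ∈ irrOver K L θ, β ∈ irrOver U K φ := by
    intro β hβ
    obtain ⟨h1, h2⟩ := mem_irrOver.1 hβ
    obtain ⟨φ, hφ, h3, h4⟩ := over_split hLK hKU h1 hθ h2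
    exact ⟨φ, mem_irrOver.2 ⟨hφ, h4⟩, mem_irrOver.2 ⟨h1, h3⟩⟩
  have hB : ∀ γ ∈ irrOver S C θ₁, ∃ φ ∈ irrOver K L θ, γ ∈ irrOver S D (st φ) := by
    intro γ hγ
    obtain ⟨h1, h2⟩ := mem_irrOver.1 hγ
    obtain ⟨ψ, hψ, h3, h4⟩ := over_split hCD hDS h1 hθ₁ h2
    obtain ⟨φ, hφ, rfl⟩ := hst.2.2 (mem_irrOver.2 ⟨hψ, h4⟩ : ψ ∈ irrOver D C θ₁)
    exact ⟨φ, hφ, mem_irrOver.2 ⟨h1, h3⟩⟩
  have hfib : ∀ φ ∈ irrOver K L θ, (irrOver U L θ).filter (fun β => c β = orb S φ) = irrOver U K φ := by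
    intro φ hφ
    ext β
    rw [Finset.mem_filter]
    constructor
    · rintro ⟨h1, h2⟩
      have h3 : φ ∈ c β := by rw [h2]; exact self_mem_orb S φ
      exact mem_irrOver.2 ⟨(mem_irrOver.1 h1).1, (Finset.mem_filter.1 h3).2⟩
    · intro h
      refine ⟨?_, hcO φ hφ β h⟩
      obtain ⟨h1, h2⟩ := mem_irrOver.1 h
      obtain ⟨h3, h4⟩ := mem_irrOver.1 hφ
      exact mem_irrOver.2 ⟨h1, over_trans hLK hKU h1 h3 hθ h2 h4⟩
  have hfib' : ∀ φ ∈ irrOver K L θ, (irrOver S C θ₁).filter (fun γ => c' γ = orb S φ) = irrOver S D (st φ) := by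
    intro φ hφ
    ext γ
    rw [Finset.mem_filter]
    constructor
    · rintro ⟨h1, h2⟩
      have h3 : φ ∈ c' γ := by rw [h2]; exact self_mem_orb S φ
      exact mem_irrOver.2 ⟨(mem_irrOver.1 h1).1, (Finset.mem_filter.1 h3).2⟩
    · intro h
      refine ⟨?_, hcO' φ hφ γ h⟩
      obtain ⟨h1, h2⟩ := mem_irrOver.1 h
      obtain ⟨h3, h4⟩ := mem_irrOver.1 (hst.1 hφ)
      exact mem_irrOver.2 ⟨h1, over_trans hCD hDS h1 h3 hθ₁ h2 h4⟩
  -- the sizes
  obtain ⟨φ₀, hφ₀⟩ := irrOver_nonempty hLK hθ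
  have hn1 : ∀ φ ∈ irrOver K L θ, (irrOver U K φ).card = (irrOver U K φ₀).card := fun φ hφ =>
    over_card_const hLK hKU habU hθ hφ hφ₀
  have hn2 : ∀ φ ∈ irrOver K L θ, (irrOver S D (st φ)).card = (irrOver S D (st φ₀)).card := fun φ hφ =>
    over_card_const hCD hDS habS hθ₁ (hst.1 hφ) (hst.1 hφ₀)
  have hmA : ∀ β ∈ irrOver U L θ, c β ∈ (irrOver K L θ).image (fun φ => orb S φ) := by
    intro β hβ
    obtain ⟨φ, hφ, h⟩ := hA β hβ
    rw [hcO φ hφ β h]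
    exact Finset.mem_image_of_mem _ hφ
  have hmB : ∀ γ ∈ irrOver S C θ₁, c' γ ∈ (irrOver K L θ).image (fun φ => orb S φ) := by
    intro γ hγ
    obtain ⟨φ, hφ, h⟩ := hB γ hγ
    rw [hcO' φ hφ γ h]
    exact Finset.mem_image_of_mem _ hφ
  have hcA : (irrOver U L θ).card = ((irrOver K L θ).image (fun φ => orb S φ)).card * (irrOver U K φ₀).card := by
    rw [Finset.card_eq_sum_card_fiberwise (f := c) (fun β hβ => hmA β hβ), ← smul_eq_mul, ← Finset.sum_const]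
    refine Finset.sum_congr rfl (fun o ho => ?_)
    obtain ⟨φ, hφ, rfl⟩ := Finset.mem_image.1 ho
    rw [hfib φ hφ, hn1 φ hφ]
  have hcB : (irrOver S C θ₁).card = ((irrOver K L θ).image (fun φ => orb S φ)).card * (irrOver S D (st φ₀)).card := by
    rw [Finset.card_eq_sum_card_fiberwise (f := c') (fun β hβ => hmB β hβ), ← smul_eq_mul, ← Finset.sum_const]
    refine Finset.sum_congr rfl (fun o ho => ?_)
    obtain ⟨φ, hφ, rfl⟩ := Finset.mem_image.1 ho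
    rw [hfib' φ hφ, hn2 φ hφ]
  have hk : 0 < ((irrOver K L θ).image (fun φ => orb S φ)).card :=
    Finset.card_pos.2 ⟨_, Finset.mem_image_of_mem _ hφ₀⟩
  have hnn : (irrOver U K φ₀).card = (irrOver S D (st φ₀)).card := by
    rw [hcA, hcB] at hE
    exact Nat.eq_of_mul_eq_mul_left hk hE
  have hkey : ∀ o : Finset (G → ℂ), ((irrOver U L θ).filter (fun β => c β = o)).card = ((irrOver S C θ₁).filter (fun γ => c' γ = o)).card := by
    intro o
    by_cases ho : o ∈ (irrOver K L θ).image (fun φ => orb S φ)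
    · obtain ⟨φ, hφ, rfl⟩ := Finset.mem_image.1 ho
      rw [hfib φ hφ, hfib' φ hφ, hn1 φ hφ, hn2 φ hφ, hnn]
    · have h1 : (irrOver U L θ).filter (fun β => c β = o) = ∅ := by
        rw [Finset.filter_eq_empty_iff]
        intro β hβ h
        exact ho (h ▸ hmA β hβ)
      have h2 : (irrOver S C θ₁).filter (fun γ => c' γ = o) = ∅ := by
        rw [Finset.filter_eq_empty_iff]
        intro γ hγ h
        exact ho (h ▸ hmB γ hγ)
      rw [h1, h2, Finset.card_empty]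
  obtain ⟨g, hg, hgc⟩ := fiber_bij (irrOver U L θ) (irrOver S C θ₁) c c' (by
    intro o
    refine Eq.trans (congrArg Finset.card ?_) (Eq.trans (hkey o) (congrArg Finset.card ?_))
    · ext β
      simp only [Finset.mem_filter]
    · ext β
      simp only [Finset.mem_filter])
  refine ⟨g, hg, ?_⟩
  intro β hβ φ hφ
  have hgβ : g β ∈ irrOver S C θ₁ := hg.1 hβ
  have hβi := (mem_irrOver.1 hβ).1
  have hγi := (mem_irrOver.1 hgβ).1
  have hφi := (mem_irrOver.1 hφ).1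
  have hψi := (mem_irrOver.1 (hst.1 hφ)).1
  by_cases hov : Over K β φ
  · have h1 : φ ∈ c' (g β) := by
      rw [hgc β hβ]
      exact Finset.mem_filter.2 ⟨hφ, hov⟩
    have hov' : Over D (g β) (st φ) := (Finset.mem_filter.1 h1).2
    have e1 := abel_count hKU hnK habUK hβi hφi hov
    have e2 := abel_count hDS hnD habSD hγi hψi hov'
    rw [hn1 φ hφ] at e1
    rw [hn2 φ hφ, ← hnn] at e2
    -- orbits
    have o1 := A16_orb_index hKU (cf_charS (charS_of_irrS hφi))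
    have o2 := A16_orb_index hDS (cf_charS (charS_of_irrS hψi))
    have o3 : orb U φ = orb S φ := by
      ext φ'
      rw [mem_orb, mem_orb]
      constructor
      · rintro ⟨t, ht, rfl⟩
        obtain ⟨s, hs, he⟩ := hUS φ hφ t ht
        exact ⟨s, hs, he.symm⟩
      · rintro ⟨s, hs, rfl⟩
        exact ⟨s, hSU hs, rfl⟩
    have o4 : (orb S (st φ)).card = (orb S φ).card := by
      symm
      refine Finset.card_bij (fun φ' _ => st φ') ?_ ?_ ?_
      · intro φ' h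
        obtain ⟨s, hs, rfl⟩ := mem_orb.1 h
        exact mem_orb.2 ⟨s, hs, (heq s hs φ hφ).symm⟩
      · intro φ' h φ'' h' he
        exact hst.2.1 (horbI φ hφ φ' h) (horbI φ hφ φ'' h') he
      · intro ψ h
        obtain ⟨s, hs, rfl⟩ := mem_orb.1 h
        exact ⟨cj s φ, mem_orb.2 ⟨s, hs, rfl⟩, heq s hs φ hφ⟩
    have o5 := F6_relIndex hnK hKU hSU hKS hKSD
    rw [o3, o5, ← o2, o4] at o1
    have hpos : 0 < (orb S φ).card := Finset.card_pos.2 ⟨φ, self_mem_orb S φ⟩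
    have o6 := Nat.eq_of_mul_eq_mul_left hpos o1
    rw [← e1, ← e2] at o6
    have hn0 : 0 < (irrOver U K φ₀).card := by
      rw [← hn1 φ hφ]
      exact Finset.card_pos.2 ⟨β, mem_irrOver.2 ⟨hβi, hov⟩⟩
    have o7 := Nat.eq_of_mul_eq_mul_right hn0 o6
    exact (Nat.pow_left_injective (n := 2) (by norm_num) o7).symm
  · have h1 : φ ∉ c' (g β) := by
      rw [hgc β hβ]
      intro h
      exact hov (Finset.mem_filter.1 h).2
    have hov' : ¬ Over D (g β) (st φ) := fun h => h1 (Finset.mem_filter.2 ⟨hφ, h⟩)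
    rw [A15_over_iff hKU (charS_of_irrS hβi) hφi] at hov
    rw [A15_over_iff hDS (charS_of_irrS hγi) hψi] at hov'
    omega

end Pool.Agent.Lib.H90Q
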