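import Pool.Agent.Lib.H90Q.A17
import Pool.Agent.Lib.H90Q.B0

open scoped Classical ComplexConjugate BigOperators

noncomputable section

namespace Pool.Agent.Lib.H90Q

variable {G : Type*} [Group G] [Fintype G]

private theorem b2_conj {N T : Subgroup G} {l : G → ℂ} (hl : l ∈ LinS T N) {t g : G} (ht : t ∈ T) (hg : g ∈ T) :
    conj (l t) * l g = l (t⁻¹ * g) := by
  have h1 : l (t⁻¹ * g) = l t⁻¹ * l g := hl.2.2 _ (T.inv_mem ht) _ hg
  have h2 : l t * l t⁻¹ = 1 := by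
    rw [← hl.2.2 _ ht _ (T.inv_mem ht), mul_inv_cancel]
    exact lin_one hl
  have h3 : l t * conj (l t) = 1 := lin_mul_conj hl ht
  have h4 : l t ≠ 0 := left_ne_zero_of_mul_eq_one h2
  have h5 : conj (l t) = l t⁻¹ := mul_left_cancel₀ h4 (h3.trans h2.symm)
  rw [h1, h5]

private theorem b2_card {N T : Subgroup G} (hNT : N ≤ T) : (N.relIndex T : ℂ) * (Nat.card N : ℂ) = (Nat.card T : ℂ) := by
  have h1 := Subgroup.card_mul_index (N.subgroupOf T)
  have h2 : Nat.card (N.subgroupOf T) = Nat.card N := Nat.card_congr (Subgroup.subgroupOfEquivOfLe hNT).toEquiv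
  have h3 : N.relIndex T = (N.subgroupOf T).index := rfl
  rw [h2, ← h3] at h1
  rw [mul_comm]
  exact_mod_cast h1

/-- Fourier inversion on `T / N` abelian: `(1/|N|) ∑_{x ∈ N} Ψ(t x) conj Ψ'(t x) = ∑_l l(t)⁻¹ ip T (l Ψ) Ψ'` (`lin_sum` applied to `t⁻¹ g`). -/
theorem coset_fourier {N T : Subgroup G} (hNT : N ≤ T) (hab : ∀ a ∈ T, ∀ b ∈ T, a * b * a⁻¹ * b⁻¹ ∈ N) (Ψ Ψ' : G → ℂ)
    {t : G} (ht : t ∈ T) :
    (Nat.card N : ℂ)⁻¹ * ∑ x : G, (if x ∈ N then Ψ (t * x) * conj (Ψ' (t * x)) else 0) =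
      ∑ l ∈ (lin_finite T N).toFinset, conj (l t) * ip T (l * Ψ) Ψ' := by
  have hT0 : (Nat.card T : ℂ) ≠ 0 := by
    have : 0 < Nat.card T := Nat.card_pos
    exact_mod_cast this.ne'
  have hN0 : (Nat.card N : ℂ) ≠ 0 := by
    have : 0 < Nat.card N := Nat.card_pos
    exact_mod_cast this.ne'
  have e1 : ∑ l ∈ (lin_finite T N).toFinset, conj (l t) * ip T (l * Ψ) Ψ' =
      (Nat.card T : ℂ)⁻¹ * ∑ g : G, (if g ∈ T then
        (∑ l ∈ (lin_finite T N).toFinset, l (t⁻¹ * g)) * (Ψ g * conj (Ψ' g)) else 0) := by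
    unfold ip
    rw [Finset.mul_sum]
    have h1 : ∀ l ∈ (lin_finite T N).toFinset, conj (l t) * ((Nat.card T : ℂ)⁻¹ *
        ∑ x : G, if x ∈ T then (l * Ψ) x * conj (Ψ' x) else 0) =
        ∑ x : G, (Nat.card T : ℂ)⁻¹ * (if x ∈ T then l (t⁻¹ * x) * (Ψ x * conj (Ψ' x)) else 0) := by
      intro l hl
      have hl' : l ∈ LinS T N := (lin_finite T N).mem_toFinset.1 hl
      rw [← Finset.mul_sum, mul_left_comm, Finset.mul_sum]
      congr 1
      refine Finset.sum_congr rfl fun x _ => ?_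
      by_cases hx : x ∈ T
      · rw [if_pos hx, if_pos hx, ← b2_conj hl' ht hx, Pi.mul_apply]
        ring
      · rw [if_neg hx, if_neg hx, mul_zero]
    rw [Finset.sum_congr rfl h1, Finset.sum_comm]
    refine Finset.sum_congr rfl fun x _ => ?_
    rw [← Finset.mul_sum]
    congr 1
    by_cases hx : x ∈ T
    · simp only [if_pos hx, Finset.sum_mul]
    · simp only [if_neg hx, Finset.sum_const_zero]
  have e2 : ∑ g : G, (if g ∈ T then
        (∑ l ∈ (lin_finite T N).toFinset, l (t⁻¹ * g)) * (Ψ g * conj (Ψ' g)) else 0) =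
      (N.relIndex T : ℂ) * ∑ x : G, (if x ∈ N then Ψ (t * x) * conj (Ψ' (t * x)) else 0) := by
    rw [← Equiv.sum_comp (Equiv.mulLeft t), Finset.mul_sum]
    refine Finset.sum_congr rfl fun x _ => ?_
    simp only [Equiv.coe_mulLeft, inv_mul_cancel_left]
    by_cases hx : x ∈ T
    · rw [if_pos (T.mul_mem ht hx), lin_sum hNT hab hx]
      by_cases hxN : x ∈ N
      · rw [if_pos hxN, if_pos hxN]
      · rw [if_neg hxN, if_neg hxN, zero_mul, mul_zero]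
    · have hx' : t * x ∉ T := fun h => hx ((T.mul_mem_cancel_left ht).1 h)
      rw [if_neg hx', if_neg (fun h => hx (hNT h)), mul_zero]
  rw [e1, e2, ← b2_card hNT]
  have hR0 : (N.relIndex T : ℂ) ≠ 0 := by
    intro h
    rw [← b2_card hNT, h, zero_mul] at hT0
    exact hT0 rfl
  rw [mul_inv, ← mul_assoc]
  congr 1
  field_simp

/-- the trivial character fixes a character of `T` -/
private theorem b2_triv {N T : Subgroup G} {Ψ : G → ℂ} (hΨ : Ψ ∈ IrrS T) :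
    (fun x => if x ∈ T then (1 : ℂ) else 0) * Ψ = Ψ := by
  funext x
  rw [Pi.mul_apply]
  by_cases hx : x ∈ T
  · simp [hx]
  · simp [hx, hΨ.1 x hx]

private theorem b2_ne {N T : Subgroup G} (hNT : N ≤ T) (hab : ∀ a ∈ T, ∀ b ∈ T, a * b * a⁻¹ * b⁻¹ ∈ N) {Ψ : G → ℂ}
    (hΨ : Ψ ∈ IrrS T) : ip N Ψ Ψ ≠ 0 := by
  rw [abel_norm hNT hab hΨ]
  have h1 : (fun x => if x ∈ T then (1 : ℂ) else 0) ∈
      (lin_finite T N).toFinset.filter (fun l => l * Ψ = Ψ) :=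
    Finset.mem_filter.2 ⟨(lin_finite T N).mem_toFinset.2 (lin_triv hNT), b2_triv (N := N) hΨ⟩
  have h2 := Finset.card_pos.2 ⟨_, h1⟩
  exact_mod_cast h2.ne'

/-- If `l * Ψ = Ψ'` then `ip N Ψ Ψ' = ip N Ψ Ψ ≠ 0`. -/
theorem coset_zero {N T : Subgroup G} (hNT : N ≤ T) (hab : ∀ a ∈ T, ∀ b ∈ T, a * b * a⁻¹ * b⁻¹ ∈ N) {Ψ Ψ' : G → ℂ}
    (hΨ : Ψ ∈ IrrS T) (hΨ' : Ψ' ∈ IrrS T) (h : ip N Ψ Ψ' = 0) {t : G} (ht : t ∈ T) :
    (Nat.card N : ℂ)⁻¹ * ∑ x : G, (if x ∈ N then Ψ (t * x) * conj (Ψ' (t * x)) else 0) = 0 := by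
  rw [coset_fourier hNT hab Ψ Ψ' ht]
  refine Finset.sum_eq_zero fun l hl => ?_
  have hl' : l ∈ LinS T N := (lin_finite T N).mem_toFinset.1 hl
  rw [irrS_ortho (lin_mul_irr hl' hΨ) hΨ']
  by_cases h1 : l * Ψ = Ψ'
  · exfalso
    apply b2_ne hNT hab hΨ
    rw [← h]
    refine ip_congr N (fun _ _ => rfl) fun x hx => ?_
    rw [← h1, Pi.mul_apply, hl'.2.1 x hx, one_mul]
  · rw [if_neg h1, mul_zero]

/-- `abel_norm`: only the trivial linear character fixes `Ψ`. -/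
theorem coset_one {N T : Subgroup G} (hNT : N ≤ T) (hab : ∀ a ∈ T, ∀ b ∈ T, a * b * a⁻¹ * b⁻¹ ∈ N) {Ψ : G → ℂ}
    (hΨ : Ψ ∈ IrrS T) (h : ip N Ψ Ψ = 1) {t : G} (ht : t ∈ T) :
    (Nat.card N : ℂ)⁻¹ * ∑ x : G, (if x ∈ N then Ψ (t * x) * conj (Ψ (t * x)) else 0) = 1 := by
  rw [coset_fourier hNT hab Ψ Ψ ht]
  rw [abel_norm hNT hab hΨ] at h
  have hcard : ((lin_finite T N).toFinset.filter (fun l => l * Ψ = Ψ)).card = 1 := by
    exact_mod_cast h
  obtain ⟨l0, hl0⟩ := Finset.card_eq_one.1 hcard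
  have h1 : (fun x => if x ∈ T then (1 : ℂ) else 0) ∈
      (lin_finite T N).toFinset.filter (fun l => l * Ψ = Ψ) :=
    Finset.mem_filter.2 ⟨(lin_finite T N).mem_toFinset.2 (lin_triv hNT), b2_triv (N := N) hΨ⟩
  have h2 : (fun x => if x ∈ T then (1 : ℂ) else 0) = l0 := by
    rw [hl0] at h1
    exact Finset.mem_singleton.1 h1
  have e1 : ∀ l ∈ (lin_finite T N).toFinset, conj (l t) * ip T (l * Ψ) Ψ =
      if l * Ψ = Ψ then conj (l t) else 0 := by
    intro l hl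
    have hl' : l ∈ LinS T N := (lin_finite T N).mem_toFinset.1 hl
    rw [irrS_ortho (lin_mul_irr hl' hΨ) hΨ]
    split_ifs <;> simp
  rw [Finset.sum_congr rfl e1, ← Finset.sum_filter, hl0, Finset.sum_singleton, ← h2]
  simp [ht]

/-- If `T / N` is generated by `g` and `Ψ` does not restrict irreducibly to `N` then `Ψ g = 0`: by `abel_norm` some linear character `l ≠ 1` of `T / N` fixes `Ψ`,
and `l g ≠ 1` because `g` generates `T` modulo `N`. -/
theorem coset_vanish {N T : Subgroup G} {g : G} (hg : Nz g N) (hT : T = N ⊔ Subgroup.zpowers g) {Ψ : G → ℂ}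
    (hΨ : Ψ ∈ IrrS T) (h : ip N Ψ Ψ ≠ 1) : Ψ g = 0 := by
  have hNT : N ≤ T := by
    rw [hT]
    exact le_sup_left
  have hgT : g ∈ T := by
    rw [hT]
    exact Subgroup.mem_sup_right (Subgroup.mem_zpowers g)
  have hab := comm_cyclic hg hT
  rw [abel_norm hNT hab hΨ] at h
  have hcard : ((lin_finite T N).toFinset.filter (fun l => l * Ψ = Ψ)).card ≠ 1 := by
    intro h1
    apply h
    rw [h1]
    simp
  have h1 : (fun x => if x ∈ T then (1 : ℂ) else 0) ∈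
      (lin_finite T N).toFinset.filter (fun l => l * Ψ = Ψ) :=
    Finset.mem_filter.2 ⟨(lin_finite T N).mem_toFinset.2 (lin_triv hNT), b2_triv (N := N) hΨ⟩
  have h2 : 1 < ((lin_finite T N).toFinset.filter (fun l => l * Ψ = Ψ)).card := by
    have h3 := Finset.card_pos.2 ⟨_, h1⟩
    omega
  obtain ⟨l, hl, hne⟩ := Finset.exists_mem_ne h2 (fun x => if x ∈ T then (1 : ℂ) else 0)
  obtain ⟨hl1, hlΨ⟩ := Finset.mem_filter.1 hl
  have hl' : l ∈ LinS T N := (lin_finite T N).mem_toFinset.1 hl1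
  have hlg : l g ≠ 1 := by
    intro hlg
    apply hne
    -- the subgroup where `l = 1`
    let K : Subgroup G :=
      { carrier := {x | x ∈ T ∧ l x = 1}
        mul_mem' := by
          rintro a b ⟨ha, ha'⟩ ⟨hb, hb'⟩
          refine ⟨T.mul_mem ha hb, ?_⟩
          rw [hl'.2.2 a ha b hb, ha', hb', one_mul]
        one_mem' := ⟨T.one_mem, lin_one hl'⟩
        inv_mem' := by
          rintro a ⟨ha, ha'⟩
          refine ⟨T.inv_mem ha, ?_⟩
          have h3 : l a * l a⁻¹ = 1 := by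
            rw [← hl'.2.2 _ ha _ (T.inv_mem ha), mul_inv_cancel]
            exact lin_one hl'
          rwa [ha', one_mul] at h3 }
    have hNK : N ≤ K := fun x hx => ⟨hNT hx, hl'.2.1 x hx⟩
    have hgK : Subgroup.zpowers g ≤ K := by
      rw [Subgroup.zpowers_le]
      exact ⟨hgT, hlg⟩
    have hTK : T ≤ K := by
      rw [hT]
      exact sup_le hNK hgK
    funext x
    by_cases hx : x ∈ T
    · rw [if_pos hx]
      exact (hTK hx).2
    · rw [if_neg hx]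
      exact hl'.1 x hx
  have h3 : l g * Ψ g = Ψ g := congrFun hlΨ g
  have h4 : (l g - 1) * Ψ g = 0 := by
    rw [sub_mul, h3, one_mul, sub_self]
  rcases mul_eq_zero.1 h4 with h5 | h5
  · exact absurd (sub_eq_zero.1 h5) hlg
  · exact h5

theorem rs_irr {N T : Subgroup G} (hNT : N ≤ T) {Ψ : G → ℂ} (hΨ : Ψ ∈ CharS T) (h : ip N Ψ Ψ = 1) : rs N Ψ ∈ IrrS N := by
  refine irrS_of_norm_one (charS_rs hNT hΨ) ?_
  rw [← h]
  refine ip_congr N (fun x hx => ?_) fun x hx => ?_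
  · simp [rs, hx]
  · simp [rs, hx]

theorem ip_self_of_ext {N : Subgroup G} {Ψ χ : G → ℂ} (hχ : χ ∈ IrrS N) (h : ∀ x ∈ N, Ψ x = χ x) : ip N Ψ Ψ = 1 := by
  rw [ip_congr N h h, irrS_ortho hχ hχ, if_pos rfl]

/-- the restriction of a class function of `T` to a normal subgroup is `T`-invariant -/
theorem ext_inv {N T : Subgroup G} (hNT : N ≤ T) (hn : ∀ t ∈ T, Nz t N) {Ψ χ : G → ℂ} (hΨ : Ψ ∈ CharS T) (hχ : χ ∈ IrrS N)
    (h : ∀ x ∈ N, Ψ x = χ x) {t : G} (ht : t ∈ T) : cj t χ = χ := by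
  funext g
  have h1 : t⁻¹ * g * t ∈ N ↔ g ∈ N := by
    rw [hn t ht]
    have h2 : t * (t⁻¹ * g * t) * t⁻¹ = g := by group
    rw [h2]
  show χ (t⁻¹ * g * t) = χ g
  by_cases hg : g ∈ N
  · rw [← h _ (h1.2 hg), ← h _ hg]
    have h3 := (cf_charS hΨ).2 t⁻¹ (T.inv_mem ht) g
    rwa [inv_inv] at h3
  · rw [hχ.1 _ (fun h4 => hg (h1.1 h4)), hχ.1 _ hg]

end Pool.Agent.Lib.H90Q
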