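import Pool.Agent.Lib.H90Q.Defs

open scoped Classical ComplexConjugate BigOperators

noncomputable section

namespace Pool.Agent.Lib.H90Q

/-- Transport of a representation along a linear equivalence. -/
private def trn {X : Type*} [Group X] {V W : Type*} [AddCommGroup V] [Module ℂ V] [AddCommGroup W] [Module ℂ W]
    (ρ : Representation ℂ X V) (e : V ≃ₗ[ℂ] W) : Representation ℂ X W where
  toFun g := e.toLinearMap ∘ₗ ρ g ∘ₗ e.symm.toLinearMap
  map_one' := by
    apply LinearMap.ext
    intro w
    simp
  map_mul' g h := by
    apply LinearMap.ext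
    intro w
    simp

private theorem trn_apply {X : Type*} [Group X] {V W : Type*} [AddCommGroup V] [Module ℂ V] [AddCommGroup W] [Module ℂ W]
    (ρ : Representation ℂ X V) (e : V ≃ₗ[ℂ] W) (g : X) (w : W) : trn ρ e g w = e (ρ g (e.symm w)) := rfl

private theorem trn_char {X : Type*} [Group X] {V W : Type*} [AddCommGroup V] [Module ℂ V] [AddCommGroup W] [Module ℂ W]
    (ρ : Representation ℂ X V) (e : V ≃ₗ[ℂ] W) : (trn ρ e).character = ρ.character := by
  funext g
  exact LinearMap.trace_conj' (ρ g) e

private theorem trn_irr {X : Type*} [Group X] {V W : Type*} [AddCommGroup V] [Module ℂ V] [AddCommGroup W] [Module ℂ W]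
    (ρ : Representation ℂ X V) (e : V ≃ₗ[ℂ] W) (hρ : ρ.IsIrreducible) : (trn ρ e).IsIrreducible := by
  let F : Subrepresentation (trn ρ e) ≃o Subrepresentation ρ :=
    { toFun := fun τ => ⟨τ.toSubmodule.comap e.toLinearMap, by
        intro g v hv
        have h1 := τ.apply_mem_toSubmodule g (v := e v) hv
        rw [trn_apply, e.symm_apply_apply] at h1
        exact h1⟩
      invFun := fun σ => ⟨σ.toSubmodule.comap e.symm.toLinearMap, by
        intro g v hv
        have h1 := σ.apply_mem_toSubmodule g (v := e.symm v) hv
        show e.symm (trn ρ e g v) ∈ σ.toSubmodule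
        rw [trn_apply, e.symm_apply_apply]
        exact h1⟩
      left_inv := by
        intro τ
        apply Subrepresentation.ext
        ext w
        simp
      right_inv := by
        intro σ
        apply Subrepresentation.ext
        ext w
        simp
      map_rel_iff' := by
        intro τ τ'
        constructor
        · intro h w hw
          have hw' : w ∈ τ.toSubmodule := hw
          have h1 : e.symm w ∈ τ.toSubmodule.comap e.toLinearMap := by
            show e (e.symm w) ∈ τ.toSubmodule
            rw [e.apply_symm_apply]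
            exact hw'
          have h2 : e.symm w ∈ τ'.toSubmodule.comap e.toLinearMap := h h1
          have h3 : e (e.symm w) ∈ τ'.toSubmodule := h2
          rw [e.apply_symm_apply] at h3
          exact h3
        · intro h v hv
          have h1 : e v ∈ τ.toSubmodule := hv
          exact h h1 }
  exact (OrderIso.isSimpleOrder_iff F).2 hρ

/-- Transport to `Fin n → ℂ` along a basis (`Module.finBasis ℂ V`, `LinearMap.trace` is invariant under conjugation
`LinearEquiv.conj`; irreducibility transports along `Representation.Equiv`, or through `asModule`). -/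
theorem isChar_of_rep {X : Type*} [Group X] {V : Type*} [AddCommGroup V] [Module ℂ V] [FiniteDimensional ℂ V]
    (ρ : Representation ℂ X V) : IsChar ρ.character := by
  exact ⟨Module.finrank ℂ V, trn ρ (Module.finBasis ℂ V).equivFun, trn_char ρ _⟩

theorem isIrr_of_rep {X : Type*} [Group X] {V : Type*} [AddCommGroup V] [Module ℂ V] [FiniteDimensional ℂ V]
    (ρ : Representation ℂ X V) (hρ : ρ.IsIrreducible) : IsIrr ρ.character := by
  exact ⟨Module.finrank ℂ V, trn ρ (Module.finBasis ℂ V).equivFun, trn_irr ρ _ hρ, trn_char ρ _⟩

theorem isChar_of_isIrr {X : Type*} [Group X] {χ : X → ℂ} (h : IsIrr χ) : IsChar χ := by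
  obtain ⟨n, ρ, _, hρ⟩ := h
  exact ⟨n, ρ, hρ⟩

/-- Sum: the representation on `V × W` (`Representation.prod` or `LinearMap.prodMap`), `LinearMap.trace_prodMap`. -/
theorem isChar_add {X : Type*} [Group X] {χ ψ : X → ℂ} (h : IsChar χ) (h' : IsChar ψ) : IsChar (χ + ψ) := by
  obtain ⟨n, ρ, rfl⟩ := h
  obtain ⟨m, σ, rfl⟩ := h'
  let τ : Representation ℂ X ((Fin n → ℂ) × (Fin m → ℂ)) :=
    { toFun := fun g => (ρ g).prodMap (σ g)
      map_one' := by
        apply LinearMap.ext
        intro w
        simp
      map_mul' := by
        intro g h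
        apply LinearMap.ext
        intro w
        simp }
  have h1 : τ.character = ρ.character + σ.character := by
    funext g
    exact LinearMap.trace_prodMap' (ρ g) (σ g)
  rw [← h1]
  exact isChar_of_rep τ

theorem isChar_zero {X : Type*} [Group X] : IsChar (0 : X → ℂ) := by
  refine ⟨0, 1, ?_⟩
  funext g
  show LinearMap.trace ℂ (Fin 0 → ℂ) _ = 0
  rw [show ((1 : Representation ℂ X (Fin 0 → ℂ)) g : (Fin 0 → ℂ) →ₗ[ℂ] (Fin 0 → ℂ)) = 0 from LinearMap.ext fun v => Subsingleton.elim _ _]
  exact map_zero _

end Pool.Agent.Lib.H90Q
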