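import Pool.Agent.Lib.H90Q.A01

open scoped Classical ComplexConjugate BigOperators

noncomputable section

namespace Pool.Agent.Lib.H90Q

private theorem a02_trace {X : Type*} [Group X] {V : Type*} [AddCommGroup V] [Module ℂ V]
    [FiniteDimensional ℂ V] (ρ : Representation ℂ X V) (W W' : Subrepresentation ρ)
    (h : IsCompl W W') :
    ρ.character = W.toRepresentation.character + W'.toRepresentation.character := by
  have hc : IsCompl W.toSubmodule W'.toSubmodule := by
    refine IsCompl.of_eq ?_ ?_
    · have h1 := congrArg Subrepresentation.toSubmodule h.inf_eq_bot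
      exact h1
    · have h1 := congrArg Subrepresentation.toSubmodule h.sup_eq_top
      exact h1
  funext g
  let e := Submodule.prodEquivOfIsCompl W.toSubmodule W'.toSubmodule hc
  have h1 : e.conj (LinearMap.prodMap (W.toRepresentation g) (W'.toRepresentation g)) = ρ g := by
    apply LinearMap.ext
    intro v
    obtain ⟨⟨a, b⟩, rfl⟩ := e.surjective v
    rw [LinearEquiv.conj_apply_apply, LinearEquiv.symm_apply_apply]
    simp only [e, LinearMap.prodMap_apply, Submodule.coe_prodEquivOfIsCompl', map_add]
    rfl
  show LinearMap.trace ℂ V (ρ g) = LinearMap.trace ℂ _ (W.toRepresentation g) +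
    LinearMap.trace ℂ _ (W'.toRepresentation g)
  rw [← h1, LinearMap.trace_conj', LinearMap.trace_prodMap']

private theorem a02_aux {X : Type*} [Group X] [Finite X] (n : ℕ) :
    ∀ (V : Type) [AddCommGroup V] [Module ℂ V] [FiniteDimensional ℂ V]
      (ρ : Representation ℂ X V), Module.finrank ℂ V = n →
        ∃ s : Multiset (X → ℂ), (∀ φ ∈ s, IsIrr φ) ∧ ρ.character = s.sum := by
  induction n using Nat.strong_induction_on with
  | _ n ih =>
    intro V _ _ _ ρ hn
    by_cases hirr : ρ.IsIrreducible
    · refine ⟨{ρ.character}, ?_, by simp⟩
      intro φ hφ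
      rw [Multiset.mem_singleton] at hφ
      rw [hφ]
      exact isIrr_of_rep ρ hirr
    · rcases Nat.eq_zero_or_pos n with h0 | hpos
      · have hs : Subsingleton V := Module.finrank_zero_iff.1 (hn.trans h0)
        refine ⟨0, by simp, ?_⟩
        funext g
        have h1 : ρ g = 0 := Subsingleton.elim _ _
        simp [Representation.character, h1]
      · have hnt : Nontrivial V := Module.nontrivial_of_finrank_pos (R := ℂ) (by omega)
        have hex : ∃ W : Subrepresentation ρ, W ≠ ⊥ ∧ W ≠ ⊤ := by
          by_contra hcon
          push Not at hcon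
          refine hirr ?_
          have hne : (⊥ : Subrepresentation ρ) ≠ ⊤ := by
            intro h
            have h1 : (⊥ : Submodule ℂ V) = ⊤ := congrArg Subrepresentation.toSubmodule h
            exact bot_ne_top h1
          have hnt2 : Nontrivial (Subrepresentation ρ) := ⟨⟨⊥, ⊤, hne⟩⟩
          exact ⟨fun W => or_iff_not_imp_left.2 (hcon W)⟩
        obtain ⟨W, hW1, hW2⟩ := hex
        have hnz : NeZero (Nat.card X : ℂ) := ⟨by exact_mod_cast Nat.card_pos.ne'⟩
        obtain ⟨W', hWW'⟩ := exists_isCompl W
        have hW'2 : W' ≠ ⊤ := by
          intro h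
          apply hW1
          have h1 := hWW'.inf_eq_bot
          rwa [h, inf_top_eq] at h1
        have hlt : ∀ U : Subrepresentation ρ, U ≠ ⊤ → Module.finrank ℂ U.toSubmodule < n := by
          intro U hU
          rw [← hn]
          refine Submodule.finrank_lt ?_
          intro h
          exact hU (Subrepresentation.toSubmodule_injective h)
        obtain ⟨s, hs1, hs2⟩ := ih _ (hlt W hW2) W.toSubmodule W.toRepresentation rfl
        obtain ⟨s', hs1', hs2'⟩ := ih _ (hlt W' hW'2) W'.toSubmodule W'.toRepresentation rfl
        refine ⟨s + s', ?_, ?_⟩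
        · intro φ hφ
          rcases Multiset.mem_add.1 hφ with h | h
          · exact hs1 φ h
          · exact hs1' φ h
        · rw [a02_trace ρ W W' hWW', hs2, hs2', Multiset.sum_add]

/-- A character of a finite group is a sum of irreducible characters (Maschke). Proof: strong induction on `n` for
`ρ : Representation ℂ X (Fin n → ℂ)`. `n = 0`: the empty multiset (the trace is 0). `n > 0`: the lattice of subrepresentations is complemented
(`IsSemisimpleRepresentation`, Mathlib Maschke) and finite dimensional, so there is an irreducible subrepresentation `W` (an atom) and a complement `W'`;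
the trace of `ρ g` is the sum of the traces on `W` and `W'` (`LinearMap.trace_eq_sum_trace_restrict` or
`LinearMap.trace_eq_trace_restrict ...` for an internal direct sum of two). `A01` gives `IsIrr` of the first, the induction
(through `A01.isChar_of_rep`, dimension smaller) handles the second. -/
theorem char_decomp {X : Type*} [Group X] [Finite X] {χ : X → ℂ} (h : IsChar χ) :
    ∃ s : Multiset (X → ℂ), (∀ φ ∈ s, IsIrr φ) ∧ χ = s.sum := by
  obtain ⟨n, ρ, rfl⟩ := h
  exact a02_aux _ (Fin n → ℂ) ρ rfl

end Pool.Agent.Lib.H90Q
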