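import Pool.Agent.Lib.H90Q.A01

open scoped Classical ComplexConjugate BigOperators

noncomputable section

namespace Pool.Agent.Lib.H90Q

open scoped ComplexOrder in
private theorem a03_unit {X : Type*} [Group X] [Fintype X] {n : ℕ}
    (A : X → Matrix (Fin n) (Fin n) ℂ) (hone : A 1 = 1) :
    IsUnit (∑ y, (A y).conjTranspose * A y).det := by
  have hpos : (∑ y, (A y).conjTranspose * A y).PosDef := by
    rw [← Finset.add_sum_erase Finset.univ _ (Finset.mem_univ (1 : X)), hone]
    refine Matrix.PosDef.add_posSemidef (by simpa using Matrix.PosDef.one) ?_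
    exact Matrix.posSemidef_sum _ fun y _ => Matrix.posSemidef_conjTranspose_mul_self (A y)
  exact (Matrix.isUnit_iff_isUnit_det _).1 hpos.isUnit

/-- `χ(x⁻¹)` is the complex conjugate: `ρ x` has finite order, so it is diagonalisable with eigenvalues roots of unity; or: average a hermitian form.
Suggested proof: `ρ x` satisfies `T ^ N = 1`, `N = orderOf x > 0`; `V` is the direct sum of the eigenspaces of `T` for the `N`-th roots of unity
(the polynomial `X ^ N - 1` is separable and split over `ℂ`: `Module.End.isInternal...` / `LinearMap.IsSemisimple`), so the trace of `T` is `∑ μ, μ * dim V_μ`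
and the trace of `T⁻¹` is `∑ μ, μ⁻¹ * dim V_μ`, and `μ⁻¹ = conj μ`. -/
theorem char_inv {X : Type*} [Group X] [Finite X] {χ : X → ℂ} (h : IsChar χ) (x : X) : χ x⁻¹ = conj (χ x) := by
  obtain ⟨n, ρ, rfl⟩ := h
  have : Fintype X := Fintype.ofFinite X
  -- the matrices
  set A : X → Matrix (Fin n) (Fin n) ℂ := fun y => LinearMap.toMatrix' (ρ y) with hA
  have hmul : ∀ y z, A (y * z) = A y * A z := fun y z => by
    simp only [hA, map_mul, LinearMap.toMatrix'_mul]
  have hone : A 1 = 1 := by simp [hA]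
  have htr : ∀ y, ρ.character y = (A y).trace := fun y => by
    rw [Representation.character, LinearMap.trace_eq_matrix_trace ℂ (Pi.basisFun ℂ (Fin n))]
    rfl
  set P : Matrix (Fin n) (Fin n) ℂ := ∑ y, (A y).conjTranspose * A y with hP
  have hinv : (A x).conjTranspose * P * A x = P := by
    rw [hP, Finset.mul_sum, Finset.sum_mul]
    rw [← Equiv.sum_comp (Equiv.mulRight x) (fun y => (A y).conjTranspose * A y)]
    refine Finset.sum_congr rfl fun y _ => ?_
    simp only [Equiv.coe_mulRight, hmul, Matrix.conjTranspose_mul, Matrix.mul_assoc]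
  have hdet : IsUnit P.det := a03_unit A hone
  have h1 : A x * A x⁻¹ = 1 := by rw [← hmul, mul_inv_cancel, hone]
  have h2 : (A x).conjTranspose * P = P * A x⁻¹ := by
    calc (A x).conjTranspose * P = (A x).conjTranspose * P * (A x * A x⁻¹) := by rw [h1, mul_one]
      _ = ((A x).conjTranspose * P * A x) * A x⁻¹ := by simp only [Matrix.mul_assoc]
      _ = P * A x⁻¹ := by rw [hinv]
  have h3 : A x⁻¹ = P⁻¹ * ((A x).conjTranspose * P) := by
    rw [h2, ← Matrix.mul_assoc, Matrix.nonsing_inv_mul P hdet, one_mul]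
  rw [htr, htr, h3, ← Matrix.mul_assoc, Matrix.trace_mul_comm, ← Matrix.mul_assoc,
    Matrix.mul_nonsing_inv P hdet, one_mul, Matrix.trace_conjTranspose]
  rfl

/-- degree -/
theorem char_one {X : Type*} [Group X] {χ : X → ℂ} (h : IsChar χ) : ∃ n : ℕ, χ 1 = n := by
  obtain ⟨n, ρ, rfl⟩ := h
  exact ⟨n, by simp⟩

theorem irr_one {X : Type*} [Group X] {χ : X → ℂ} (h : IsIrr χ) : ∃ n : ℕ, 0 < n ∧ χ 1 = n := by
  obtain ⟨n, ρ, hρ, rfl⟩ := h
  refine ⟨n, ?_, by simp⟩
  rcases Nat.eq_zero_or_pos n with hn | hn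
  · exfalso
    subst hn
    have h1 : IsSimpleModule (MonoidAlgebra ℂ X) ρ.asModule :=
      (Representation.irreducible_iff_isSimpleModule_asModule ρ).1 hρ
    have h2 : Nontrivial ρ.asModule := IsSimpleModule.nontrivial (MonoidAlgebra ℂ X) ρ.asModule
    obtain ⟨a, b, hab⟩ := h2
    exact hab (Subsingleton.elim (α := Fin 0 → ℂ) a b)
  · exact hn

theorem char_conj {X : Type*} [Group X] {χ : X → ℂ} (h : IsChar χ) (a x : X) : χ (a * x * a⁻¹) = χ x := by
  obtain ⟨n, ρ, rfl⟩ := h
  rw [Representation.char_mul_comm]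
  simp

end Pool.Agent.Lib.H90Q
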