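import Pool.Agent.Lib.H90Q.A05
import Pool.Agent.Lib.H90Q.A06

open scoped Classical ComplexConjugate BigOperators

noncomputable section

namespace Pool.Agent.Lib.H90Q

variable {G : Type*} [Group G] [Fintype G]

/-- The inner product of `H` is the abstract inner product of the restrictions (sum over a subtype). -/
theorem ip_eq_sub (H : Subgroup G) (f g : G → ℂ) :
    ip H f g = (Nat.card H : ℂ)⁻¹ * ∑ x : H, f x * conj (g x) := by
  unfold ip
  congr 1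
  rw [← Finset.sum_filter]
  exact (Finset.sum_subtype (Finset.univ.filter fun x => x ∈ H) (fun x => by simp) fun x => f x * conj (g x))

omit [Fintype G] in
private theorem a07_ext {H : Subgroup G} {φ ψ : G → ℂ} (h1 : ∀ g, g ∉ H → φ g = 0) (h2 : ∀ g, g ∉ H → ψ g = 0)
    (h : (fun x : H => φ x) = fun x : H => ψ x) : φ = ψ := by
  funext g
  by_cases hg : g ∈ H
  · exact congrFun h ⟨g, hg⟩
  · rw [h1 g hg, h2 g hg]

theorem irrS_finite (H : Subgroup G) : (IrrS H).Finite := by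
  refine Set.Finite.of_finite_image (f := fun (φ : G → ℂ) (h : H) => φ h) ?_ ?_
  · refine (irr_finite H).subset ?_
    rintro _ ⟨φ, hφ, rfl⟩
    exact hφ.2
  · intro φ hφ ψ hψ h
    exact a07_ext hφ.1 hψ.1 h

theorem mem_irr {H : Subgroup G} {φ : G → ℂ} : φ ∈ irr H ↔ φ ∈ IrrS H := by
  unfold irr
  rw [dif_pos (irrS_finite H), Set.Finite.mem_toFinset]

theorem irrS_ortho {H : Subgroup G} {φ ψ : G → ℂ} (hφ : φ ∈ IrrS H) (hψ : ψ ∈ IrrS H) :
    ip H φ ψ = if φ = ψ then 1 else 0 := by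
  rw [ip_eq_sub, irr_ortho hφ.2 hψ.2]
  by_cases h : φ = ψ
  · rw [if_pos h, if_pos (by rw [h])]
  · rw [if_neg h, if_neg fun h2 => h (a07_ext hφ.1 hψ.1 h2)]

theorem charS_of_irrS {H : Subgroup G} {φ : G → ℂ} (h : φ ∈ IrrS H) : φ ∈ CharS H := by
  exact ⟨h.1, isChar_of_isIrr h.2⟩

/-- Characters are class functions. (If `g ∉ H` and `a ∈ H` then `a * g * a⁻¹ ∉ H`.) -/
theorem cf_charS {H : Subgroup G} {f : G → ℂ} (h : f ∈ CharS H) : IsCF H f := by
  refine ⟨h.1, fun a ha g => ?_⟩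
  by_cases hg : g ∈ H
  · exact char_conj h.2 ⟨a, ha⟩ ⟨g, hg⟩
  · rw [h.1 g hg, h.1]
    intro h2
    refine hg ?_
    have h3 := H.mul_mem (H.mul_mem (H.inv_mem ha) h2) ha
    have h4 : a⁻¹ * (a * g * a⁻¹) * a = g := by group
    rwa [h4] at h3

theorem charS_inv {H : Subgroup G} {f : G → ℂ} (h : f ∈ CharS H) (x : G) : f x⁻¹ = conj (f x) := by
  by_cases hx : x ∈ H
  · exact char_inv h.2 ⟨x, hx⟩
  · rw [h.1 x hx, h.1 x⁻¹ fun h2 => hx (H.inv_mem_iff.1 h2), map_zero]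

theorem charS_one {H : Subgroup G} {f : G → ℂ} (h : f ∈ CharS H) : ∃ n : ℕ, f 1 = n := by
  obtain ⟨n, hn⟩ := char_one h.2
  exact ⟨n, hn⟩

theorem irrS_one {H : Subgroup G} {f : G → ℂ} (h : f ∈ IrrS H) : ∃ n : ℕ, 0 < n ∧ f 1 = n := by
  obtain ⟨n, h0, hn⟩ := irr_one h.2
  exact ⟨n, h0, hn⟩

end Pool.Agent.Lib.H90Q
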