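import Pool.Agent.Lib.H90Q.A07

open scoped Classical ComplexConjugate BigOperators

noncomputable section

namespace Pool.Agent.Lib.H90Q

variable {G : Type*} [Group G] [Fintype G]

/-- elementary rules -/
theorem ip_add_left (H : Subgroup G) (f f' g : G → ℂ) : ip H (f + f') g = ip H f g + ip H f' g := by
  unfold ip
  rw [← mul_add, ← Finset.sum_add_distrib]
  congr 1
  refine Finset.sum_congr rfl (fun x _ => ?_)
  by_cases hx : x ∈ H
  · simp only [hx, if_true, Pi.add_apply, add_mul]
  · simp [hx]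

theorem ip_smul_left (H : Subgroup G) (c : ℂ) (f g : G → ℂ) : ip H (c • f) g = c * ip H f g := by
  have h1 : ∀ x : G, (if x ∈ H then (c • f) x * conj (g x) else 0) =
      c * (if x ∈ H then f x * conj (g x) else 0) := by
    intro x
    by_cases hx : x ∈ H
    · simp only [hx, if_true, Pi.smul_apply, smul_eq_mul, mul_assoc]
    · simp [hx]
  unfold ip
  rw [Finset.sum_congr rfl (fun x _ => h1 x), ← Finset.mul_sum]
  ring

theorem ip_conj (H : Subgroup G) (f g : G → ℂ) : ip H g f = conj (ip H f g) := by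
  unfold ip
  rw [map_mul, map_inv₀, Complex.conj_natCast, map_sum]
  congr 1
  refine Finset.sum_congr rfl (fun x _ => ?_)
  by_cases hx : x ∈ H
  · simp only [hx, if_true, map_mul, Complex.conj_conj]
    ring
  · simp [hx]

theorem ip_sum_left {ι : Type*} (H : Subgroup G) (s : Finset ι) (f : ι → G → ℂ) (g : G → ℂ) :
    ip H (∑ i ∈ s, f i) g = ∑ i ∈ s, ip H (f i) g := by
  induction s using Finset.induction_on with
  | empty =>
    simp only [Finset.sum_empty]
    have h := ip_smul_left H 0 (0 : G → ℂ) g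
    rwa [zero_smul, zero_mul] at h
  | insert a s ha ih =>
    rw [Finset.sum_insert ha, Finset.sum_insert ha, ip_add_left, ih]

/-- only the values on `K` count -/
theorem ip_congr (K : Subgroup G) {f f' g g' : G → ℂ} (h : ∀ x ∈ K, f x = f' x) (h' : ∀ x ∈ K, g x = g' x) :
    ip K f g = ip K f' g' := by
  unfold ip
  congr 1
  refine Finset.sum_congr rfl (fun x _ => ?_)
  by_cases hx : x ∈ K
  · simp only [hx, if_true]
    rw [h x hx, h' x hx]
  · simp [hx]

/-- Expansion of a class function: `f - ∑ ip • φ` is a class function orthogonal to all `χ ∈ IrrS H`, restricted to `H` it vanishes by `complete`. -/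
theorem cf_expand {H : Subgroup G} {f : G → ℂ} (hf : IsCF H f) : f = ∑ φ ∈ irr H, ip H f φ • φ := by
  have hcf : ∀ φ ∈ irr H, IsCF H φ := fun φ hφ => cf_charS (charS_of_irrS (mem_irr.1 hφ))
  have hex : ∃ d : G → ℂ, d = f + (-1 : ℂ) • ∑ φ ∈ irr H, ip H f φ • φ := ⟨_, rfl⟩
  obtain ⟨d, hd⟩ := hex
  have hdx : ∀ x, d x = f x - ∑ φ ∈ irr H, ip H f φ * φ x := by
    intro x
    rw [hd]
    simp only [Pi.add_apply, Pi.smul_apply, Finset.sum_apply, smul_eq_mul]
    ring
  have hoff : ∀ g, g ∉ H → d g = 0 := by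
    intro g hg
    rw [hdx, hf.1 g hg]
    rw [Finset.sum_eq_zero, sub_zero]
    intro φ hφ
    rw [(hcf φ hφ).1 g hg, mul_zero]
  have hinv : ∀ a ∈ H, ∀ g, d (a * g * a⁻¹) = d g := by
    intro a ha g
    rw [hdx, hdx, hf.2 a ha g]
    congr 1
    refine Finset.sum_congr rfl (fun φ hφ => ?_)
    rw [(hcf φ hφ).2 a ha g]
  have horth : ∀ ψ ∈ IrrS H, ip H d ψ = 0 := by
    intro ψ hψ
    rw [hd, ip_add_left, ip_smul_left, ip_sum_left]
    have h1 : ∀ φ ∈ irr H, ip H (ip H f φ • φ) ψ = if φ = ψ then ip H f φ else 0 := by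
      intro φ hφ
      rw [ip_smul_left, irrS_ortho (mem_irr.1 hφ) hψ]
      by_cases h : φ = ψ
      · simp [h]
      · simp [h]
    rw [Finset.sum_congr rfl h1, Finset.sum_ite_eq' (irr H) ψ, if_pos (mem_irr.2 hψ)]
    ring
  have hzero : (fun x : H => d x) = 0 := by
    refine complete (X := H) (fun x : H => d x) ?_ ?_
    · intro a x
      have h := hinv a a.2 x
      simpa using h
    · intro χ hχ
      have hψ : (fun g : G => if h : g ∈ H then χ ⟨g, h⟩ else 0) ∈ IrrS H := by
        refine ⟨fun g hg => by simp [hg], ?_⟩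
        have h1 : (fun h : H => (fun g : G => if h : g ∈ H then χ ⟨g, h⟩ else 0) (h : G)) = χ := by
          funext h
          simp
        rw [h1]
        exact hχ
      have h2 := horth _ hψ
      rw [ip_eq_sub] at h2
      have h3 : (Nat.card H : ℂ)⁻¹ ≠ 0 := by
        apply inv_ne_zero
        exact_mod_cast Nat.card_pos.ne'
      have h4 := (mul_eq_zero.1 h2).resolve_left h3
      rw [← h4]
      refine Finset.sum_congr rfl (fun x _ => ?_)
      simp
  have hall : ∀ x, d x = 0 := by
    intro x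
    by_cases hx : x ∈ H
    · have h := congrFun hzero ⟨x, hx⟩
      exact h
    · exact hoff x hx
  funext x
  have h := hall x
  rw [hdx] at h
  rw [Finset.sum_apply]
  have h5 := sub_eq_zero.1 h
  rw [h5]
  rfl

/-- Parseval. -/
theorem parseval {H : Subgroup G} {f g : G → ℂ} (hf : IsCF H f) (hg : IsCF H g) :
    ip H f g = ∑ φ ∈ irr H, ip H f φ * conj (ip H g φ) := by
  have h1 : ip H f g = ip H (∑ φ ∈ irr H, ip H f φ • φ) g := by
    rw [← cf_expand hf]
  rw [h1, ip_sum_left]
  refine Finset.sum_congr rfl (fun φ _ => ?_)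
  rw [ip_smul_left, ip_conj H g φ]

theorem cf_ext {H : Subgroup G} {f g : G → ℂ} (hf : IsCF H f) (hg : IsCF H g) (h : ∀ φ ∈ IrrS H, ip H f φ = ip H g φ) : f = g := by
  rw [cf_expand hf, cf_expand hg]
  refine Finset.sum_congr rfl (fun φ hφ => ?_)
  rw [h φ (mem_irr.1 hφ)]

end Pool.Agent.Lib.H90Q
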