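import Pool.Agent.Lib.H90Q.A08

open scoped Classical ComplexConjugate BigOperators

noncomputable section

namespace Pool.Agent.Lib.H90Q

variable {G : Type*} [Group G] [Fintype G]

/-- Restriction of a character to a smaller subgroup. -/
theorem charS_rs {H K : Subgroup G} (hKH : K ≤ H) {f : G → ℂ} (hf : f ∈ CharS H) : rs K f ∈ CharS K := by
  refine ⟨fun g hg => if_neg hg, ?_⟩
  have h1 := isChar_comp (Subgroup.inclusion hKH) hf.2
  have h2 : (fun h : K => rs K f h) = fun x : K => f ((Subgroup.inclusion hKH x : H) : G) := by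
    funext x
    unfold rs
    rw [if_pos x.2]
    rfl
  rw [h2]
  exact h1

/-- The product of a sum of irreducible characters with an irreducible one is a natural number. -/
private theorem A09_nat {X : Type*} [Group X] [Fintype X] {ψ : X → ℂ} (hψ : IsIrr ψ)
    (s : Multiset (X → ℂ)) : (∀ φ ∈ s, IsIrr φ) →
    ∃ m : ℕ, (Nat.card X : ℂ)⁻¹ * ∑ x, s.sum x * conj (ψ x) = m := by
  induction s using Multiset.induction_on with
  | empty =>
    intro _
    refine ⟨0, ?_⟩
    simp
  | cons φ s ih =>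
    intro h
    obtain ⟨m, hm⟩ := ih (fun χ hχ => h χ (Multiset.mem_cons_of_mem hχ))
    have h1 := irr_ortho (h φ (Multiset.mem_cons_self φ s)) hψ
    have h2 : (Nat.card X : ℂ)⁻¹ * ∑ x, (φ ::ₘ s).sum x * conj (ψ x)
        = (Nat.card X : ℂ)⁻¹ * (∑ x, φ x * conj (ψ x))
          + (Nat.card X : ℂ)⁻¹ * ∑ x, s.sum x * conj (ψ x) := by
      rw [← mul_add, ← Finset.sum_add_distrib]
      congr 1
      refine Finset.sum_congr rfl (fun x _ => ?_)
      rw [Multiset.sum_cons, Pi.add_apply, add_mul]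
    rw [h2, hm, h1]
    by_cases hc : φ = ψ
    · refine ⟨1 + m, ?_⟩
      rw [if_pos hc]
      push_cast
      ring
    · refine ⟨m, ?_⟩
      rw [if_neg hc]
      ring

private theorem A09_ip_nat {K : Subgroup G} {f φ : G → ℂ} (hf : f ∈ CharS K) (hφ : φ ∈ IrrS K) :
    ∃ m : ℕ, ip K f φ = m := by
  obtain ⟨s, hs, hfs⟩ := char_decomp hf.2
  obtain ⟨m, hm⟩ := A09_nat hφ.2 s hs
  refine ⟨m, ?_⟩
  rw [ip_eq_sub, ← hm]
  congr 1
  refine Finset.sum_congr rfl (fun x _ => ?_)
  rw [← hfs]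

/-- The multiplicity of `φ ∈ Irr K` in the restriction of a character `f` of `H ≥ K` is the natural number `mu K f φ`.
Proof: `char_decomp` for the restriction to `K`; the inner product is the number of entries of the multiset equal to `φ`; `Nat.floor_natCast`. -/
theorem mu_spec {H K : Subgroup G} (hKH : K ≤ H) {f φ : G → ℂ} (hf : f ∈ CharS H) (hφ : φ ∈ IrrS K) :
    (mu K f φ : ℂ) = ip K f φ := by
  have h1 : ip K f φ = ip K (rs K f) φ :=
    ip_congr K (fun x hx => (if_pos hx).symm) (fun _ _ => rfl)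
  obtain ⟨m, hm⟩ := A09_ip_nat (charS_rs hKH hf) hφ
  unfold mu
  rw [h1, hm, Complex.natCast_re, Nat.floor_natCast]

/-- A character of `H`, restricted to `K`, is the sum of the irreducible ones with multiplicities. -/
theorem charS_expand {H K : Subgroup G} (hKH : K ≤ H) {f : G → ℂ} (hf : f ∈ CharS H) :
    rs K f = ∑ φ ∈ irr K, (mu K f φ : ℂ) • φ := by
  have h0 := cf_expand (cf_charS (charS_rs hKH hf))
  refine h0.trans (Finset.sum_congr rfl (fun φ hφ => ?_))
  have h1 : ip K f φ = ip K (rs K f) φ :=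
    ip_congr K (fun x hx => (if_pos hx).symm) (fun _ _ => rfl)
  rw [mu_spec hKH hf (mem_irr.mp hφ), h1]

theorem charS_expand' {H : Subgroup G} {f : G → ℂ} (hf : f ∈ CharS H) :
    f = ∑ φ ∈ irr H, (mu H f φ : ℂ) • φ := by
  have h1 : f = rs H f := by
    funext g
    unfold rs
    by_cases hg : g ∈ H
    · rw [if_pos hg]
    · rw [if_neg hg, hf.1 g hg]
  have h2 := charS_expand (le_refl H) hf
  rw [← h1] at h2
  exact h2

private theorem A09_add {H : Subgroup G} {f g : G → ℂ} (hf : f ∈ CharS H) (hg : g ∈ CharS H) : f + g ∈ CharS H := by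
  refine ⟨fun x hx => ?_, ?_⟩
  · rw [Pi.add_apply, hf.1 x hx, hg.1 x hx, add_zero]
  · have h1 := isChar_add hf.2 hg.2
    exact h1

private theorem A09_zero {H : Subgroup G} : (0 : G → ℂ) ∈ CharS H :=
  ⟨fun _ _ => rfl, isChar_zero⟩

private theorem A09_smul {H : Subgroup G} {f : G → ℂ} (hf : f ∈ CharS H) (n : ℕ) : (n : ℂ) • f ∈ CharS H := by
  induction n with
  | zero =>
    rw [Nat.cast_zero, zero_smul]
    exact A09_zero
  | succ n ih =>
    rw [Nat.cast_succ, add_smul, one_smul]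
    exact A09_add ih hf

/-- natural combinations are characters -/
theorem charS_combo {H : Subgroup G} (m : (G → ℂ) → ℕ) : (∑ φ ∈ irr H, (m φ : ℂ) • φ) ∈ CharS H := by
  have key : ∀ s : Finset (G → ℂ), s ⊆ irr H → (∑ φ ∈ s, (m φ : ℂ) • φ) ∈ CharS H := by
    intro s
    induction s using Finset.induction_on with
    | empty =>
      intro _
      rw [Finset.sum_empty]
      exact A09_zero
    | insert a s ha ih =>
      intro hs
      rw [Finset.sum_insert ha]
      refine A09_add (A09_smul (charS_of_irrS (mem_irr.mp (hs (Finset.mem_insert_self a s)))) _) ?_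
      exact ih (fun x hx => hs (Finset.mem_insert_of_mem hx))
  exact key _ (Finset.Subset.refl _)

theorem charS_add {H : Subgroup G} {f g : G → ℂ} (hf : f ∈ CharS H) (hg : g ∈ CharS H) : f + g ∈ CharS H :=
  A09_add hf hg

/-- A character of norm 1 is irreducible: `1 = ∑ mu ^ 2`. -/
theorem irrS_of_norm_one {H : Subgroup G} {f : G → ℂ} (hf : f ∈ CharS H) (h : ip H f f = 1) : f ∈ IrrS H := by
  have h1 := parseval (cf_charS hf) (cf_charS hf)
  rw [h] at h1
  have h2 : ((∑ φ ∈ irr H, mu H f φ ^ 2 : ℕ) : ℂ) = 1 := by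
    rw [h1]
    push_cast
    refine Finset.sum_congr rfl (fun φ hφ => ?_)
    rw [← mu_spec (le_refl H) hf (mem_irr.mp hφ), Complex.conj_natCast]
    ring
  have h3 : ∑ φ ∈ irr H, mu H f φ ^ 2 = 1 := by exact_mod_cast h2
  obtain ⟨φ, hφ, hφ1⟩ : ∃ φ ∈ irr H, mu H f φ ^ 2 ≠ 0 := by
    by_contra hcon
    have hcon' : ∀ φ ∈ irr H, mu H f φ ^ 2 = 0 := fun φ hφ => by
      by_contra hne
      exact hcon ⟨φ, hφ, hne⟩
    rw [Finset.sum_eq_zero hcon'] at h3
    exact absurd h3 (by norm_num)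
  have h4 : mu H f φ ^ 2 + ∑ ψ ∈ (irr H).erase φ, mu H f ψ ^ 2 = ∑ ψ ∈ irr H, mu H f ψ ^ 2 :=
    Finset.add_sum_erase (irr H) (fun φ => mu H f φ ^ 2) hφ
  rw [h3] at h4
  have h5 : mu H f φ ^ 2 = 1 := by
    have := Nat.pos_of_ne_zero hφ1
    omega
  have h6 : ∑ ψ ∈ (irr H).erase φ, mu H f ψ ^ 2 = 0 := by omega
  have h7 : mu H f φ = 1 := by
    nlinarith [h5]
  have h8 : ∀ ψ ∈ (irr H).erase φ, mu H f ψ = 0 := by
    intro ψ hψ
    have h9 := (Finset.sum_eq_zero_iff.mp h6) ψ hψ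
    exact pow_eq_zero_iff (two_ne_zero) |>.mp h9
  have h10 := charS_expand' hf
  rw [← Finset.add_sum_erase (irr H) _ hφ, h7,
    Finset.sum_eq_zero (fun ψ hψ => by rw [h8 ψ hψ, Nat.cast_zero, zero_smul]), Nat.cast_one, one_smul,
    add_zero] at h10
  rw [h10]
  exact mem_irr.mp hφ

end Pool.Agent.Lib.H90Q
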