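import Pool.Agent.Lib.H90Q.A09

open scoped Classical ComplexConjugate BigOperators

noncomputable section

namespace Pool.Agent.Lib.H90Q

variable {G : Type*} [Group G] [Fintype G]

theorem cj_cj (a b : G) (f : G → ℂ) : cj a (cj b f) = cj (a * b) f := by
  funext g
  simp only [cj, mul_inv_rev, mul_assoc]

theorem cj_one (f : G → ℂ) : cj 1 f = f := by
  funext g
  simp only [cj, inv_one, one_mul, mul_one]

/-- membership is transported by conjugation -/
private theorem a10_mem {H : Subgroup G} {a : G} (ha : Nz a H) (y : G) : a⁻¹ * y * a ∈ H ↔ y ∈ H := by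
  have h := ha (a⁻¹ * y * a)
  have e : a * (a⁻¹ * y * a) * a⁻¹ = y := by group
  rw [e] at h
  exact h

/-- substitution `x = a * y * a⁻¹` -/
theorem ip_cj {H : Subgroup G} {a : G} (ha : Nz a H) (f g : G → ℂ) : ip H (cj a f) (cj a g) = ip H f g := by
  unfold ip
  congr 1
  refine Fintype.sum_equiv (MulAut.conj a⁻¹).toEquiv _ _ fun x => ?_
  have e : (MulAut.conj a⁻¹).toEquiv x = a⁻¹ * x * a := by
    simp [MulAut.conj_apply]
  rw [e]
  by_cases hx : x ∈ H
  · rw [if_pos hx, if_pos ((a10_mem ha x).2 hx)]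
    rfl
  · rw [if_neg hx, if_neg (fun h => hx ((a10_mem ha x).1 h))]

/-- the automorphism of `H` induced by `x ↦ a⁻¹ * x * a` -/
private def a10_aut {H : Subgroup G} {a : G} (ha : Nz a H) : H ≃* H where
  toFun x := ⟨a⁻¹ * x * a, (a10_mem ha x).2 x.2⟩
  invFun x := ⟨a * x * a⁻¹, (ha x).1 x.2⟩
  left_inv x := by
    apply Subtype.ext
    show a * (a⁻¹ * (x : G) * a) * a⁻¹ = x
    group
  right_inv x := by
    apply Subtype.ext
    show a⁻¹ * (a * (x : G) * a⁻¹) * a = x
    group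
  map_mul' x y := by
    apply Subtype.ext
    show a⁻¹ * ((x : G) * y) * a = a⁻¹ * x * a * (a⁻¹ * y * a)
    group

/-- `a` normalises `H`: the conjugate of an irreducible character is irreducible (`A06.isIrr_comp` with the automorphism of `H`). -/
theorem cj_irrS {H : Subgroup G} {a : G} (ha : Nz a H) {φ : G → ℂ} (h : φ ∈ IrrS H) : cj a φ ∈ IrrS H := by
  refine ⟨fun g hg => ?_, ?_⟩
  · exact h.1 _ fun h1 => hg ((a10_mem ha g).1 h1)
  · exact isIrr_comp (a10_aut ha).toMonoidHom (a10_aut ha).surjective h.2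

theorem cj_charS {H : Subgroup G} {a : G} (ha : Nz a H) {φ : G → ℂ} (h : φ ∈ CharS H) : cj a φ ∈ CharS H := by
  refine ⟨fun g hg => ?_, ?_⟩
  · exact h.1 _ fun h1 => hg ((a10_mem ha g).1 h1)
  · obtain ⟨n, ρ, hχ⟩ := h.2
    refine ⟨n, ρ.comp (a10_aut ha).toMonoidHom, ?_⟩
    funext x
    have h2 := congrFun hχ (a10_aut ha x)
    exact h2

/-- class functions of `H` are fixed by `cj a`, `a ∈ H` -/
theorem cj_mem {H : Subgroup G} {a : G} (ha : a ∈ H) {f : G → ℂ} (h : IsCF H f) : cj a f = f := by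
  funext g
  have h1 := h.2 a⁻¹ (H.inv_mem ha) g
  rw [inv_inv] at h1
  exact h1

theorem cj_inj {a : G} {f g : G → ℂ} (h : cj a f = cj a g) : f = g := by
  have h1 := congrArg (cj a⁻¹) h
  rw [cj_cj, cj_cj, inv_mul_cancel, cj_one, cj_one] at h1
  exact h1

/-- if `a` normalises `K` and `f` is `a`-invariant then multiplicities of conjugates agree -/
theorem ip_cj_inv {K : Subgroup G} {a : G} (ha : Nz a K) {f : G → ℂ} (hf : ∀ x ∈ K, f (a⁻¹ * x * a) = f x) (φ : G → ℂ) :
    ip K f (cj a φ) = ip K f φ := by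
  rw [← ip_cj ha f φ]
  exact ip_congr K (fun x hx => (hf x hx).symm) fun x _ => rfl

theorem nz_mul {a b : G} {H : Subgroup G} (ha : Nz a H) (hb : Nz b H) : Nz (a * b) H := by
  intro g
  rw [hb g, ha (b * g * b⁻¹)]
  have e : a * (b * g * b⁻¹) * a⁻¹ = a * b * g * (a * b)⁻¹ := by group
  rw [e]

theorem nz_inv {a : G} {H : Subgroup G} (ha : Nz a H) : Nz a⁻¹ H := by
  intro g
  rw [inv_inv]
  exact (a10_mem ha g).symm

theorem nz_mem {a : G} {H : Subgroup G} (ha : a ∈ H) : Nz a H := by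
  intro g
  constructor
  · intro hg
    exact H.mul_mem (H.mul_mem ha hg) (H.inv_mem ha)
  · intro hg
    have h1 := H.mul_mem (H.mul_mem (H.inv_mem ha) hg) ha
    have e : a⁻¹ * (a * g * a⁻¹) * a = g := by group
    rw [e] at h1
    exact h1

/-- if `a` normalises `M` and the set `A` (as a subgroup) then it normalises `C_M(A)` -/
theorem nz_CM {a : G} {M A : Subgroup G} (hM : Nz a M) (hA : Nz a A) : Nz a (CM M (A : Set G)) := by
  intro g
  unfold CM
  rw [Subgroup.mem_inf, Subgroup.mem_inf, ← hM g]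
  refine and_congr_right fun _ => ?_
  rw [Subgroup.mem_centralizer_iff, Subgroup.mem_centralizer_iff]
  constructor
  · intro h x hx
    have h1 := h (a⁻¹ * x * a) ((a10_mem hA x).2 hx)
    have e1 : x * (a * g * a⁻¹) = a * ((a⁻¹ * x * a) * g) * a⁻¹ := by group
    have e2 : a * g * a⁻¹ * x = a * (g * (a⁻¹ * x * a)) * a⁻¹ := by group
    rw [e1, e2, h1]
  · intro h x hx
    have h1 := h (a * x * a⁻¹) ((hA x).1 hx)
    have e1 : x * g = a⁻¹ * ((a * x * a⁻¹) * (a * g * a⁻¹)) * a := by group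
    have e2 : g * x = a⁻¹ * (a * g * a⁻¹ * (a * x * a⁻¹)) * a := by group
    rw [e1, e2, h1]

end Pool.Agent.Lib.H90Q
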