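import Pool.Agent.Lib.H90Q.A10

open scoped Classical ComplexConjugate BigOperators

noncomputable section

namespace Pool.Agent.Lib.H90Q

variable {G : Type*} [Group G] [Fintype G]

private theorem a11_one {H N : Subgroup G} {l : G → ℂ} (hl : l ∈ LinS H N) : l 1 = 1 :=
  hl.2.1 1 N.one_mem

private theorem a11_irrS {H N : Subgroup G} {l : G → ℂ} (hl : l ∈ LinS H N) : l ∈ IrrS H :=
  ⟨hl.1, isIrr_lin (X := H) (a11_one hl) (fun a b => hl.2.2 a a.2 b b.2)⟩

private theorem a11_pow {H N : Subgroup G} {l : G → ℂ} (hl : l ∈ LinS H N) {x : G} (hx : x ∈ H) (n : ℕ) :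
    l (x ^ n) = l x ^ n := by
  induction n with
  | zero => rw [pow_zero, pow_zero, a11_one hl]
  | succ n ih => rw [pow_succ, pow_succ, hl.2.2 _ (H.pow_mem hx n) x hx, ih]

/-- Values of linear characters: `l 1 = 1`, absolute value one on `H`. -/
theorem lin_one {H N : Subgroup G} {l : G → ℂ} (hl : l ∈ LinS H N) : l 1 = 1 := a11_one hl

theorem lin_irrS {H N : Subgroup G} {l : G → ℂ} (hl : l ∈ LinS H N) : l ∈ IrrS H := a11_irrS hl

theorem lin_mul_conj {H N : Subgroup G} {l : G → ℂ} (hl : l ∈ LinS H N) {x : G} (hx : x ∈ H) : l x * conj (l x) = 1 := by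
  rw [← charS_inv (charS_of_irrS (a11_irrS hl)) x, ← hl.2.2 x hx x⁻¹ (H.inv_mem hx),
    mul_inv_cancel, a11_one hl]

/-- roots of unity: `(l x) ^ orderOf x = 1`. -/
theorem lin_pow {H N : Subgroup G} {l : G → ℂ} (hl : l ∈ LinS H N) {x : G} (hx : x ∈ H) : l x ^ orderOf x = 1 := by
  rw [← a11_pow hl hx, pow_orderOf_eq_one, a11_one hl]

/-- `N ≤ H`, all commutators of `H` lie in `N`: then `l x` is a root of unity of order dividing the index. -/
theorem lin_pow_index {H N : Subgroup G} (hN : N ≤ H) (hab : ∀ a ∈ H, ∀ b ∈ H, a * b * a⁻¹ * b⁻¹ ∈ N) {l : G → ℂ}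
    (hl : l ∈ LinS H N) {x : G} (hx : x ∈ H) : l x ^ (N.relIndex H) = 1 := by
  have hnorm : (N.subgroupOf H).Normal := by
    constructor
    intro n hn g
    rw [Subgroup.mem_subgroupOf] at hn ⊢
    have h1 := hab (g : G) g.2 (n : G) n.2
    have h2 := N.mul_mem h1 hn
    rw [inv_mul_cancel_right] at h2
    simpa using h2
  have h3 : (⟨x, hx⟩ : H) ^ (N.subgroupOf H).index ∈ N.subgroupOf H :=
    Subgroup.pow_index_mem (N.subgroupOf H) (⟨x, hx⟩ : H)
  rw [Subgroup.mem_subgroupOf] at h3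
  have h4 : x ^ ((N.subgroupOf H).index) ∈ N := by simpa using h3
  show l x ^ ((N.subgroupOf H).index) = 1
  rw [← a11_pow hl hx]
  exact hl.2.1 _ h4

theorem lin_mul {H N : Subgroup G} {l l' : G → ℂ} (hl : l ∈ LinS H N) (hl' : l' ∈ LinS H N) : l * l' ∈ LinS H N := by
  refine ⟨fun g hg => ?_, fun g hg => ?_, fun a ha b hb => ?_⟩
  · simp [hl.1 g hg]
  · simp [hl.2.1 g hg, hl'.2.1 g hg]
  · simp only [Pi.mul_apply, hl.2.2 a ha b hb, hl'.2.2 a ha b hb]
    ring

theorem lin_conj {H N : Subgroup G} {l : G → ℂ} (hl : l ∈ LinS H N) : (fun x => conj (l x)) ∈ LinS H N := by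
  refine ⟨fun g hg => ?_, fun g hg => ?_, fun a ha b hb => ?_⟩
  · simp [hl.1 g hg]
  · simp [hl.2.1 g hg]
  · simp only [hl.2.2 a ha b hb, map_mul]

/-- the trivial character -/
theorem lin_triv {H N : Subgroup G} (hN : N ≤ H) : (fun x => if x ∈ H then (1 : ℂ) else 0) ∈ LinS H N := by
  refine ⟨fun g hg => if_neg hg, fun g hg => if_pos (hN hg), fun a ha b hb => ?_⟩
  simp [ha, hb, H.mul_mem ha hb]

/-- Twist: `l * φ ∈ Irr H`. -/
theorem lin_mul_irr {H N : Subgroup G} {l φ : G → ℂ} (hl : l ∈ LinS H N) (hφ : φ ∈ IrrS H) : l * φ ∈ IrrS H := by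
  refine ⟨fun g hg => ?_, ?_⟩
  · simp [hl.1 g hg]
  · exact isIrr_twist (X := H) (l := fun x : H => l x) hφ.2 (a11_one hl) (fun a b => hl.2.2 a a.2 b b.2)

theorem lin_mul_char {H N : Subgroup G} {l φ : G → ℂ} (hl : l ∈ LinS H N) (hφ : φ ∈ CharS H) : l * φ ∈ CharS H := by
  refine ⟨fun g hg => ?_, ?_⟩
  · simp [hl.1 g hg]
  · obtain ⟨n, ρ, hρ⟩ := hφ.2
    let σ : Representation ℂ H (Fin n → ℂ) :=
      { toFun := fun x => l x • ρ x
        map_one' := by rw [OneMemClass.coe_one, a11_one hl, map_one, one_smul]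
        map_mul' := fun a b => by
          rw [Subgroup.coe_mul, hl.2.2 a a.2 b b.2, map_mul, smul_mul_smul_comm] }
    refine ⟨n, σ, ?_⟩
    funext x
    have h1 := congrFun hρ x
    show LinearMap.trace ℂ _ (l x • ρ x) = l x * φ x
    rw [map_smul, smul_eq_mul, ← h1]
    rfl

theorem lin_finite (H N : Subgroup G) : (LinS H N).Finite :=
  (irrS_finite H).subset fun _ hl => a11_irrS hl

end Pool.Agent.Lib.H90Q
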