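import Pool.Agent.Lib.H90Q.A11

open scoped Classical ComplexConjugate BigOperators

noncomputable section

namespace Pool.Agent.Lib.H90Q

variable {G : Type*} [Group G] [Fintype G]

private theorem a12_normal {N H : Subgroup G} (hab : ∀ a ∈ H, ∀ b ∈ H, a * b * a⁻¹ * b⁻¹ ∈ N)
    (hN : N ≤ H) : (N.subgroupOf H).Normal := by
  constructor
  intro n hn g
  rw [Subgroup.mem_subgroupOf] at hn ⊢
  have h1 := hab (g : G) g.2 (n : G) n.2
  have h2 := N.mul_mem h1 hn
  rw [inv_mul_cancel_right] at h2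
  simpa using h2

private theorem a12_quot {N H : Subgroup G} (hN : N ≤ H) (hab : ∀ a ∈ H, ∀ b ∈ H, a * b * a⁻¹ * b⁻¹ ∈ N) :
    ((∀ x ∈ H, x ∉ N → ∃ l ∈ LinS H N, l x ≠ 1) ∧ Nat.card (LinS H N) = N.relIndex H) ∧
      ∀ K : Subgroup G, N ≤ K → K ≤ H → ∀ l ∈ LinS K N, ∃ l' ∈ LinS H N, ∀ x ∈ K, l' x = l x := by
  haveI hNn : (N.subgroupOf H).Normal := a12_normal hab hN
  have hcomm : ∀ a b : H ⧸ (N.subgroupOf H), a * b = b * a := by
    intro a b
    obtain ⟨a, rfl⟩ := QuotientGroup.mk_surjective a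
    obtain ⟨b, rfl⟩ := QuotientGroup.mk_surjective b
    rw [← QuotientGroup.mk_mul, ← QuotientGroup.mk_mul, QuotientGroup.eq, Subgroup.mem_subgroupOf]
    have h := hab (b : G)⁻¹ (H.inv_mem b.2) (a : G)⁻¹ (H.inv_mem a.2)
    have e : (b : G)⁻¹ * (a : G)⁻¹ * ((b : G)⁻¹)⁻¹ * ((a : G)⁻¹)⁻¹ = (((a * b)⁻¹ * (b * a) : H) : G) := by
      simp [mul_assoc]
    rw [e] at h
    exact h
  letI : CommGroup (H ⧸ (N.subgroupOf H)) := { (inferInstance : Group (H ⧸ (N.subgroupOf H))) with mul_comm := hcomm }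
  haveI : NeZero (Monoid.exponent (H ⧸ (N.subgroupOf H)) : ℂ) :=
    ⟨by exact_mod_cast (Monoid.exponent_ne_zero_of_finite (G := H ⧸ (N.subgroupOf H)))⟩
  let Φ : ((H ⧸ (N.subgroupOf H)) →* ℂˣ) → (G → ℂ) := fun φ g => if h : g ∈ H then ((φ (QuotientGroup.mk ⟨g, h⟩) : ℂˣ) : ℂ) else 0
  have hΦmem : ∀ φ, Φ φ ∈ LinS H N := by
    intro φ
    refine ⟨fun g hg => dif_neg hg, fun g hg => ?_, fun a ha b hb => ?_⟩
    · have h1 : (QuotientGroup.mk ⟨g, hN hg⟩ : H ⧸ (N.subgroupOf H)) = 1 := by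
        rw [QuotientGroup.eq_one_iff, Subgroup.mem_subgroupOf]
        exact hg
      simp only [Φ, dif_pos (hN hg), h1, map_one, Units.val_one]
    · simp only [Φ, dif_pos ha, dif_pos hb, dif_pos (H.mul_mem ha hb)]
      rw [← Units.val_mul, ← map_mul, ← QuotientGroup.mk_mul]
      rfl
  have hΦinj : Function.Injective Φ := by
    intro φ ψ h
    refine MonoidHom.ext (fun q => ?_)
    obtain ⟨⟨g, hg⟩, rfl⟩ := QuotientGroup.mk_surjective q
    have h1 := congrFun h g
    simp only [Φ, dif_pos hg] at h1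
    exact Units.ext h1
  have hΦsurj : ∀ l ∈ LinS H N, ∃ φ, Φ φ = l := by
    intro l hl
    let l1 : H →* ℂ := { toFun := fun g => l g, map_one' := lin_one hl, map_mul' := fun a b => hl.2.2 a a.2 b b.2 }
    let l2 : H →* ℂˣ := l1.toHomUnits
    have hker : N.subgroupOf H ≤ l2.ker := by
      intro g hg
      rw [MonoidHom.mem_ker]
      apply Units.ext
      change l g = 1
      exact hl.2.1 g (by rwa [Subgroup.mem_subgroupOf] at hg)
    refine ⟨QuotientGroup.lift _ l2 hker, ?_⟩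
    funext g
    by_cases hg : g ∈ H
    · simp only [Φ, dif_pos hg]
      rw [QuotientGroup.lift_mk]
      rfl
    · simp only [Φ, dif_neg hg]
      exact (hl.1 g hg).symm
  refine ⟨⟨?_, ?_⟩, ?_⟩
  · intro x hx hxN
    have h1 : (QuotientGroup.mk ⟨x, hx⟩ : H ⧸ (N.subgroupOf H)) ≠ 1 := by
      intro h
      rw [QuotientGroup.eq_one_iff, Subgroup.mem_subgroupOf] at h
      exact hxN h
    obtain ⟨φ, hφ⟩ := CommGroup.exists_apply_ne_one_of_hasEnoughRootsOfUnity (H ⧸ (N.subgroupOf H)) ℂ h1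
    refine ⟨Φ φ, hΦmem φ, fun h => hφ ?_⟩
    simp only [Φ, dif_pos hx] at h
    exact Units.ext h
  · have h1 : Nat.card (LinS H N) = Nat.card ((H ⧸ (N.subgroupOf H)) →* ℂˣ) := by
      symm
      refine Nat.card_congr (Equiv.ofBijective (fun φ => (⟨Φ φ, hΦmem φ⟩ : LinS H N)) ⟨?_, ?_⟩)
      · intro φ ψ h
        exact hΦinj (congrArg Subtype.val h)
      · rintro ⟨l, hl⟩
        obtain ⟨φ, hφ⟩ := hΦsurj l hl
        exact ⟨φ, Subtype.ext hφ⟩
    rw [h1, CommGroup.card_monoidHom_of_hasEnoughRootsOfUnity]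
    rfl
  · intro K hNK hKH l hl
    let l1 : (K.subgroupOf H) →* ℂ :=
      { toFun := fun g => l g
        map_one' := lin_one hl
        map_mul' := fun a b => hl.2.2 a a.2 b b.2 }
    let l2 : (K.subgroupOf H) →* ℂˣ := l1.toHomUnits
    let q : (K.subgroupOf H) →* (H ⧸ (N.subgroupOf H)) := (QuotientGroup.mk' (N.subgroupOf H)).comp (K.subgroupOf H).subtype
    have hker : q.rangeRestrict.ker ≤ l2.ker := by
      intro g hg
      rw [MonoidHom.ker_rangeRestrict, MonoidHom.mem_ker] at hg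
      have h2 : ((g : H) : G) ∈ N := by
        have h3 : (QuotientGroup.mk (g : H) : H ⧸ (N.subgroupOf H)) = 1 := hg
        rw [QuotientGroup.eq_one_iff, Subgroup.mem_subgroupOf] at h3
        exact h3
      rw [MonoidHom.mem_ker]
      apply Units.ext
      change l g = 1
      exact hl.2.1 _ h2
    let m : q.range →* ℂˣ := q.rangeRestrict.liftOfSurjective q.rangeRestrict_surjective ⟨l2, hker⟩
    have hm : ∀ g, m (q.rangeRestrict g) = l2 g := by
      intro g
      exact MonoidHom.liftOfRightInverse_comp_apply _ _ _ _ g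
    obtain ⟨φ, hφ⟩ := MonoidHom.domRestrict_surjective (G := H ⧸ (N.subgroupOf H)) (M := ℂ) q.range m
    refine ⟨Φ φ, hΦmem φ, fun x hx => ?_⟩
    have hxH : x ∈ H := hKH hx
    have h4 := hm ⟨⟨x, hxH⟩, by rw [Subgroup.mem_subgroupOf]; exact hx⟩
    rw [← hφ] at h4
    simp only [Φ, dif_pos hxH]
    have h5 := congrArg (fun u : ℂˣ => (u : ℂ)) h4
    exact h5

/-- Extension of linear characters in abelian quotients. `N ≤ K ≤ H`, commutators of `H` in `N`: `Q = H / N` is a finite abelian group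
(the subgroup `N` is normal in `H`), `K / N` a subgroup; a homomorphism `K/N → ℂˣ` extends to `Q → ℂˣ` (`ℂˣ` is divisible; Mathlib:
`MonoidHom` extension for finite commutative groups, e.g. `CommGroup.exists_...`, `MulChar`/`AddChar` files, or `Subgroup` form
`MonoidHom.exists_extend...`/`HasEnoughRootsOfUnity`: surjectivity of the restriction map for finite commutative groups). -/
theorem lin_extend {N K H : Subgroup G} (hNK : N ≤ K) (hKH : K ≤ H) (hab : ∀ a ∈ H, ∀ b ∈ H, a * b * a⁻¹ * b⁻¹ ∈ N)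
    {l : G → ℂ} (hl : l ∈ LinS K N) : ∃ l' ∈ LinS H N, ∀ x ∈ K, l' x = l x :=
  (a12_quot (hNK.trans hKH) hab).2 K hNK hKH l hl

/-- Separation of points. -/
theorem lin_sep {N H : Subgroup G} (hN : N ≤ H) (hab : ∀ a ∈ H, ∀ b ∈ H, a * b * a⁻¹ * b⁻¹ ∈ N) {x : G} (hx : x ∈ H) (hxN : x ∉ N) :
    ∃ l ∈ LinS H N, l x ≠ 1 :=
  (a12_quot hN hab).1.1 x hx hxN

/-- The number of linear characters of `H / N` is the index (`card (Q →* ℂˣ) = card Q` for finite commutative `Q`). -/
theorem lin_card {N H : Subgroup G} (hN : N ≤ H) (hab : ∀ a ∈ H, ∀ b ∈ H, a * b * a⁻¹ * b⁻¹ ∈ N) :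
    (LinS H N).ncard = N.relIndex H := by
  rw [← Nat.card_coe_set_eq]
  exact (a12_quot hN hab).1.2

/-- Orthogonality: the sum over all linear characters. -/
theorem lin_sum {N H : Subgroup G} (hN : N ≤ H) (hab : ∀ a ∈ H, ∀ b ∈ H, a * b * a⁻¹ * b⁻¹ ∈ N) {x : G} (hx : x ∈ H) :
    ∑ l ∈ (lin_finite H N).toFinset, l x = if x ∈ N then (N.relIndex H : ℂ) else 0 := by
  by_cases hxN : x ∈ N
  · rw [if_pos hxN]
    rw [Finset.sum_congr rfl (fun l hl => ((lin_finite H N).mem_toFinset.1 hl).2.1 x hxN)]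
    rw [← lin_card hN hab, Set.ncard_eq_toFinset_card _ (lin_finite H N)]
    simp
  · rw [if_neg hxN]
    obtain ⟨l₀, h₀, hne⟩ := lin_sep hN hab hx hxN
    have h1 : ∑ l ∈ (lin_finite H N).toFinset, (l₀ * l) x = ∑ l ∈ (lin_finite H N).toFinset, l x := by
      have hinv : ∀ l : G → ℂ, (∀ g, g ∉ H → l g = 0) → (fun y => conj (l₀ y)) * (l₀ * l) = l := by
        intro l hl
        funext g
        by_cases hg : g ∈ H
        · have h2 := lin_mul_conj h₀ hg
          simp only [Pi.mul_apply]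
          rw [← mul_assoc, mul_comm (conj (l₀ g)), h2, one_mul]
        · simp [hl g hg]
      have hinv' : ∀ l : G → ℂ, (∀ g, g ∉ H → l g = 0) → l₀ * ((fun y => conj (l₀ y)) * l) = l := by
        intro l hl
        funext g
        by_cases hg : g ∈ H
        · have h2 := lin_mul_conj h₀ hg
          simp only [Pi.mul_apply]
          rw [← mul_assoc, h2, one_mul]
        · simp [hl g hg]
      refine Finset.sum_nbij' (fun l => l₀ * l) (fun l => (fun y => conj (l₀ y)) * l) ?_ ?_ ?_ ?_ ?_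
      · intro l hl
        exact (lin_finite H N).mem_toFinset.2 (lin_mul h₀ ((lin_finite H N).mem_toFinset.1 hl))
      · intro l hl
        exact (lin_finite H N).mem_toFinset.2 (lin_mul (lin_conj h₀) ((lin_finite H N).mem_toFinset.1 hl))
      · intro l hl
        exact hinv l ((lin_finite H N).mem_toFinset.1 hl).1
      · intro l hl
        exact hinv' l ((lin_finite H N).mem_toFinset.1 hl).1
      · intro l _
        rfl
    simp only [Pi.mul_apply] at h1
    rw [← Finset.mul_sum] at h1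
    have h2 : (l₀ x - 1) * ∑ l ∈ (lin_finite H N).toFinset, l x = 0 := by
      rw [sub_mul, one_mul, h1, sub_self]
    rcases mul_eq_zero.1 h2 with h3 | h3
    · exact absurd (sub_eq_zero.1 h3) hne
    · exact h3

end Pool.Agent.Lib.H90Q
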