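import Pool.Agent.Lib.H90Q.A09

open scoped Classical ComplexConjugate BigOperators

noncomputable section

namespace Pool.Agent.Lib.H90Q

variable {G : Type*} [Group G] [Fintype G]

/-- Eigenspaces of a central-like element. `z ∈ H` has order dividing `q > 0`, `D ≤ H` centralises `z`. For a representation `ρ` of `H` with character `f`,
`V` is the direct sum of the eigenspaces `V_k` of `ρ z` for the eigenvalues `ζ ^ k`, `k ∈ ZMod q`, `ζ = exp (2 π i / q)`; they are `D`-stable, and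
`trace (ρ (z ^ i * d)) = ∑ k, ζ ^ (i * k) * trace (ρ d on V_k)`. -/
theorem eigen {H D : Subgroup G} (hDH : D ≤ H) {z : G} (hz : z ∈ H) {q : ℕ} (hq : 0 < q) (hzq : z ^ q = 1) (hzD : ∀ d ∈ D, d * z = z * d)
    {f : G → ℂ} (hf : f ∈ CharS H) :
    ∃ F : Fin q → G → ℂ, (∀ k, F k ∈ CharS D) ∧
      ∀ (i : ℕ), ∀ d ∈ D, f (z ^ i * d) = ∑ k : Fin q, Complex.exp (2 * Real.pi * Complex.I * (i * (k : ℕ)) / q) * F k d := by
  obtain ⟨hf0, n, ρ, hρ⟩ := hf
  have hq0 : (q : ℂ) ≠ 0 := by exact_mod_cast hq.ne'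
  -- the root of unity
  set ζ : ℂ := Complex.exp (2 * Real.pi * Complex.I / q) with hζ
  have hprim : IsPrimitiveRoot ζ q := Complex.isPrimitiveRoot_exp q hq.ne'
  have hζq : ζ ^ q = 1 := hprim.pow_eq_one
  have hζ0 : ζ ≠ 0 := Complex.exp_ne_zero _
  have hexp : ∀ (i k : ℕ), Complex.exp (2 * Real.pi * Complex.I * (i * k) / q) = ζ ^ (i * k) := by
    intro i k
    rw [hζ, ← Complex.exp_nat_mul]
    congr 1
    push_cast
    ring
  let zH : H := ⟨z, hz⟩
  have hzH : zH ^ q = 1 := Subtype.ext (by simpa [zH] using hzq)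
  set T : (Fin n → ℂ) →ₗ[ℂ] (Fin n → ℂ) := ρ zH with hT
  have hTq : T ^ q = 1 := by rw [hT, ← map_pow, hzH, map_one]
  -- U_k and the projections
  let U : Fin q → Module.End ℂ (Fin n → ℂ) := fun k => ((ζ ^ (k : ℕ))⁻¹) • T
  have hUpow : ∀ (k : Fin q) (j : ℕ), U k ^ j = ((ζ ^ ((k : ℕ) * j))⁻¹) • T ^ j := by
    intro k j
    simp only [U, smul_pow, inv_pow, ← pow_mul]
  have hUq : ∀ k : Fin q, U k ^ q = 1 := by
    intro k
    rw [hUpow, hTq, mul_comm, pow_mul, hζq, one_pow, inv_one, one_smul]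
  let P : Fin q → Module.End ℂ (Fin n → ℂ) := fun k => ((q : ℂ)⁻¹) • ∑ j ∈ Finset.range q, U k ^ j
  have hUP : ∀ k : Fin q, U k * P k = P k := by
    intro k
    have h1 : ∑ j ∈ Finset.range q, U k * U k ^ j = ∑ j ∈ Finset.range q, U k ^ j := by
      have h2 := Finset.sum_range_succ (fun j => U k ^ j) q
      have h3 := Finset.sum_range_succ' (fun j => U k ^ j) q
      rw [h2] at h3
      rw [hUq k, pow_zero] at h3
      have h4 := add_right_cancel h3
      rw [h4]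
      exact Finset.sum_congr rfl fun j _ => (pow_succ' _ _).symm
    simp only [P]
    rw [mul_smul_comm, Finset.mul_sum, h1]
  have hUjP : ∀ (k : Fin q) (j : ℕ), U k ^ j * P k = P k := by
    intro k j
    induction j with
    | zero => rw [pow_zero, one_mul]
    | succ j ih => rw [pow_succ, mul_assoc, hUP, ih]
  have hPP : ∀ k : Fin q, P k * P k = P k := by
    intro k
    have h1 : P k * P k = ((q : ℂ)⁻¹) • ∑ j ∈ Finset.range q, U k ^ j * P k := by
      conv_lhs => rw [show P k = ((q : ℂ)⁻¹) • ∑ j ∈ Finset.range q, U k ^ j from rfl]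
      rw [smul_mul_assoc, Finset.sum_mul]
    rw [h1, Finset.sum_congr rfl fun j _ => hUjP k j, Finset.sum_const, Finset.card_range,
      ← Nat.cast_smul_eq_nsmul ℂ, smul_smul, inv_mul_cancel₀ hq0, one_smul]
  have hcomm : ∀ d : D, ρ ⟨d, hDH d.2⟩ * T = T * ρ ⟨d, hDH d.2⟩ := by
    intro d
    rw [hT, ← map_mul, ← map_mul]
    congr 1
    exact Subtype.ext (hzD d d.2)
  have hcommP : ∀ (k : Fin q) (d : D), ρ ⟨d, hDH d.2⟩ * P k = P k * ρ ⟨d, hDH d.2⟩ := by
    intro k d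
    have h1 : Commute (ρ ⟨d, hDH d.2⟩) (U k) := (show Commute (ρ ⟨d, hDH d.2⟩) T from hcomm d).smul_right _
    have h2 : Commute (ρ ⟨d, hDH d.2⟩) (P k) :=
      (Commute.sum_right _ _ _ fun j _ => h1.pow_right j).smul_right _
    exact h2
  -- the representation of D on the range of P k
  have hstab : ∀ (k : Fin q) (d : D), LinearMap.range (P k) ≤ (LinearMap.range (P k)).comap (ρ ⟨d, hDH d.2⟩) := by
    rintro k d _ ⟨v, rfl⟩
    refine ⟨ρ ⟨d, hDH d.2⟩ v, ?_⟩
    have h1 := congrArg (fun A : Module.End ℂ (Fin n → ℂ) => A v) (hcommP k d)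
    simpa using h1.symm
  let ρD : Representation ℂ D (Fin n → ℂ) := ρ.comp (Subgroup.inclusion hDH)
  have hρD : ∀ d : D, ρD d = ρ ⟨d, hDH d.2⟩ := fun d => rfl
  let σ : (k : Fin q) → Representation ℂ D (LinearMap.range (P k)) := fun k =>
    Representation.subrepresentation ρD (LinearMap.range (P k)) (fun d => hstab k d)
  have htr : ∀ (k : Fin q) (d : D), (σ k).character d = LinearMap.trace ℂ _ (P k * ρ ⟨d, hDH d.2⟩) := by
    intro k d
    have hmem : ∀ v, (P k * ρ ⟨d, hDH d.2⟩) v ∈ LinearMap.range (P k) := fun v => ⟨_, rfl⟩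
    have h1 := LinearMap.trace_restrict_eq_of_forall_mem (LinearMap.range (P k)) (P k * ρ ⟨d, hDH d.2⟩) hmem
    rw [← h1]
    show LinearMap.trace ℂ _ (σ k d) = _
    congr 1
    apply LinearMap.ext
    rintro ⟨_, v, rfl⟩
    apply Subtype.ext
    show ρ ⟨d, hDH d.2⟩ (P k v) = P k (ρ ⟨d, hDH d.2⟩ (P k v))
    have h2 := congrArg (fun A : Module.End ℂ (Fin n → ℂ) => A v) (hcommP k d)
    have h3 := congrArg (fun A : Module.End ℂ (Fin n → ℂ) => A (ρ ⟨d, hDH d.2⟩ v)) (hPP k)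
    simp only [Module.End.mul_apply] at h2 h3
    rw [h2, h3]
  -- the formula in terms of f
  have hval : ∀ (k : Fin q) (d : D), LinearMap.trace ℂ _ (P k * ρ ⟨d, hDH d.2⟩) =
      (q : ℂ)⁻¹ * ∑ j ∈ Finset.range q, (ζ ^ ((k : ℕ) * j))⁻¹ * f (z ^ j * d) := by
    intro k d
    simp only [P]
    rw [smul_mul_assoc, Finset.sum_mul, map_smul, map_sum, smul_eq_mul]
    congr 1
    refine Finset.sum_congr rfl fun j _ => ?_
    rw [hUpow, smul_mul_assoc, map_smul, smul_eq_mul]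
    congr 1
    rw [hT, ← map_pow, ← map_mul]
    have h1 := congrFun hρ (zH ^ j * ⟨d, hDH d.2⟩)
    exact h1
  refine ⟨fun k g => if hg : g ∈ D then (σ k).character ⟨g, hg⟩ else 0, ?_, ?_⟩
  · intro k
    refine ⟨fun g hg => dif_neg hg, ?_⟩
    have h1 : (fun h : D => (fun g => if hg : g ∈ D then (σ k).character ⟨g, hg⟩ else 0) (h : G)) = (σ k).character := by
      funext h
      simp
    rw [h1]
    exact isChar_of_rep (σ k)
  · intro i d hd
    have h1 : ∀ k : Fin q, Complex.exp (2 * Real.pi * Complex.I * (i * (k : ℕ)) / q) *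
        (if hg : d ∈ D then (σ k).character ⟨d, hg⟩ else 0) =
        ∑ j ∈ Finset.range q, (q : ℂ)⁻¹ * f (z ^ j * d) * (ζ ^ (i * (k : ℕ)) * (ζ ^ ((k : ℕ) * j))⁻¹) := by
      intro k
      rw [dif_pos hd, htr, hval, hexp, Finset.mul_sum, Finset.mul_sum]
      refine Finset.sum_congr rfl fun j _ => ?_
      ring
    show f (z ^ i * d) = ∑ k : Fin q, Complex.exp (2 * Real.pi * Complex.I * (i * (k : ℕ)) / q) *
        (if hg : d ∈ D then (σ k).character ⟨d, hg⟩ else 0)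
    rw [Finset.sum_congr rfl fun k _ => h1 k, Finset.sum_comm]
    -- inner sums over k
    have h2 : ∀ j ∈ Finset.range q, ∑ k : Fin q, (q : ℂ)⁻¹ * f (z ^ j * d) * (ζ ^ (i * (k : ℕ)) * (ζ ^ ((k : ℕ) * j))⁻¹) =
        if j = i % q then f (z ^ j * d) else 0 := by
      intro j hj
      rw [Finset.mem_range] at hj
      rw [← Finset.mul_sum]
      have h3 : ∀ k : Fin q, ζ ^ (i * (k : ℕ)) * (ζ ^ ((k : ℕ) * j))⁻¹ = (ζ ^ i * (ζ ^ j)⁻¹) ^ (k : ℕ) := by
        intro k
        rw [mul_pow, inv_pow, ← pow_mul, ← pow_mul, mul_comm (k : ℕ) j]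
      rw [Finset.sum_congr rfl fun k _ => h3 k, Fin.sum_univ_eq_sum_range (fun k => (ζ ^ i * (ζ ^ j)⁻¹) ^ k) q]
      have hzi : ζ ^ i = ζ ^ (i % q) := by
        conv_lhs => rw [← Nat.div_add_mod i q, pow_add, pow_mul, hζq, one_pow, one_mul]
      split_ifs with hji
      · rw [hzi, hji, mul_inv_cancel₀ (pow_ne_zero _ hζ0)]
        simp only [one_pow, Finset.sum_const, Finset.card_range, nsmul_eq_mul, mul_one]
        field_simp
      · have hne : ζ ^ i * (ζ ^ j)⁻¹ ≠ 1 := by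
          intro h
          apply hji
          have h4 : ζ ^ (i % q) = ζ ^ j := by
            rw [← hzi]
            exact (mul_inv_eq_one₀ (pow_ne_zero _ hζ0)).1 h
          exact (hprim.pow_inj (Nat.mod_lt _ hq) hj h4).symm
        have h5 : (ζ ^ i * (ζ ^ j)⁻¹) ^ q = 1 := by
          rw [mul_pow, inv_pow, ← pow_mul, ← pow_mul, mul_comm i q, mul_comm j q, pow_mul, pow_mul, hζq, one_pow, one_pow,
            inv_one, mul_one]
        have h6 := geom_sum_mul (ζ ^ i * (ζ ^ j)⁻¹) q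
        rw [h5, sub_self] at h6
        have h7 : ∑ k ∈ Finset.range q, (ζ ^ i * (ζ ^ j)⁻¹) ^ k = 0 :=
          (mul_eq_zero.1 h6).resolve_right (sub_ne_zero.2 hne)
        rw [h7, mul_zero]
    rw [Finset.sum_congr rfl h2, Finset.sum_ite_eq' (Finset.range q) (i % q) (fun j => f (z ^ j * d)),
      if_pos (Finset.mem_range.2 (Nat.mod_lt _ hq))]
    have hzi : z ^ i = z ^ (i % q) := by
      conv_lhs => rw [← Nat.div_add_mod i q, pow_add, pow_mul, hzq, one_pow, one_mul]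
    rw [hzi]

/-- With multiplicities: natural numbers `m k ψ`. -/
theorem eigen_mult {H D : Subgroup G} (hDH : D ≤ H) {z : G} (hz : z ∈ H) {q : ℕ} (hq : 0 < q) (hzq : z ^ q = 1) (hzD : ∀ d ∈ D, d * z = z * d)
    {f : G → ℂ} (hf : f ∈ CharS H) :
    ∃ m : (G → ℂ) → Fin q → ℕ,
      (∀ ψ ∈ IrrS D, mu D f ψ = ∑ k, m ψ k) ∧
      ∀ (i : ℕ), ∀ d ∈ D, f (z ^ i * d) =
        ∑ ψ ∈ irr D, (∑ k : Fin q, (m ψ k : ℂ) * Complex.exp (2 * Real.pi * Complex.I * (i * (k : ℕ)) / q)) * ψ d := by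
  obtain ⟨F, hF, hsum⟩ := eigen hDH hz hq hzq hzD hf
  refine ⟨fun ψ k => mu D (F k) ψ, ?_, ?_⟩
  · intro ψ hψ
    have h1 : (mu D f ψ : ℂ) = ∑ k, (mu D (F k) ψ : ℂ) := by
      rw [mu_spec hDH hf hψ, Finset.sum_congr rfl fun k _ => mu_spec (le_refl D) (hF k) hψ, ← ip_sum_left]
      refine ip_congr D (fun x hx => ?_) (fun x _ => rfl)
      have h2 := hsum 0 x hx
      rw [pow_zero, one_mul] at h2
      rw [h2, Finset.sum_apply]
      refine Finset.sum_congr rfl fun k _ => ?_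
      simp
    exact_mod_cast h1
  · intro i d hd
    rw [hsum i d hd]
    have h1 : ∀ k : Fin q, F k d = ∑ ψ ∈ irr D, (mu D (F k) ψ : ℂ) * ψ d := by
      intro k
      have h2 := congrFun (charS_expand' (hF k)) d
      rw [h2, Finset.sum_apply]
      refine Finset.sum_congr rfl fun ψ _ => ?_
      rw [Pi.smul_apply, smul_eq_mul]
    rw [Finset.sum_congr rfl fun k _ => by rw [h1 k, Finset.mul_sum], Finset.sum_comm]
    refine Finset.sum_congr rfl fun ψ _ => ?_
    rw [Finset.sum_mul]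
    refine Finset.sum_congr rfl fun k _ => ?_
    ring

end Pool.Agent.Lib.H90Q
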