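import Pool.Agent.Lib.H90Q.A10

open scoped Classical ComplexConjugate BigOperators

noncomputable section

namespace Pool.Agent.Lib.H90Q

variable {G : Type*} [Group G] [Fintype G]

theorem A15_sum_mem (K : Subgroup G) (c : ℂ) : ∑ a : G, (if a ∈ K then c else 0) = (Nat.card K : ℂ) * c := by
  rw [← Finset.sum_filter, Finset.sum_const, nsmul_eq_mul, Nat.card_eq_fintype_card, Fintype.card_subtype]

theorem A15_card_ne (K : Subgroup G) : (Nat.card K : ℂ) ≠ 0 := by
  have : 0 < Nat.card K := Nat.card_pos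
  exact_mod_cast this.ne'

/-- Conjugation inside `K` does not change membership. -/
theorem A15_conj_mem {K : Subgroup G} {a : G} (ha : a ∈ K) (g : G) : a * g * a⁻¹ ∈ K ↔ g ∈ K := by
  constructor
  · intro h
    have := K.mul_mem (K.mul_mem (K.inv_mem ha) h) ha
    simpa [mul_assoc] using this
  · intro h
    exact K.mul_mem (K.mul_mem ha h) (K.inv_mem ha)

/-- Every induced function is a class function. -/
theorem A15_ind_cf (H K : Subgroup G) (f : G → ℂ) : IsCF K (ind H K f) := by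
  refine ⟨fun g hg => if_neg hg, fun b hb g => ?_⟩
  unfold ind
  by_cases hg : g ∈ K
  · rw [if_pos hg, if_pos ((A15_conj_mem hb g).2 hg)]
    congr 1
    refine Fintype.sum_equiv (Equiv.mulRight b) _ _ (fun a => ?_)
    simp only [Equiv.coe_mulRight]
    have h1 : a * b ∈ K ↔ a ∈ K := K.mul_mem_cancel_right hb
    by_cases ha : a ∈ K
    · rw [if_pos ha, if_pos (h1.2 ha)]
      congr 1
      group
    · rw [if_neg ha, if_neg (fun h => ha (h1.1 h))]
  · rw [if_neg hg, if_neg (fun h => hg ((A15_conj_mem hb g).1 h))]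

/-- Frobenius reciprocity. -/
theorem A15_frob {H K : Subgroup G} (hHK : H ≤ K) {f ψ : G → ℂ} (hf : ∀ g, g ∉ H → f g = 0) (hψ : IsCF K ψ) :
    ip K (ind H K f) ψ = ip H f ψ := by
  set S : ℂ := ∑ x : G, (if x ∈ H then f x * conj (ψ x) else 0) with hS
  have key : ∀ a ∈ K, ∑ x : G, (if x ∈ K then f (a * x * a⁻¹) * conj (ψ x) else 0) = S := by
    intro a ha
    rw [hS]
    refine Fintype.sum_equiv (MulAut.conj a).toEquiv _ _ (fun x => ?_)
    simp only [MulEquiv.toEquiv_eq_coe, EquivLike.coe_coe, MulAut.conj_apply]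
    rw [hψ.2 a ha x]
    by_cases hx : x ∈ K
    · rw [if_pos hx]
      by_cases hH : a * x * a⁻¹ ∈ H
      · rw [if_pos hH]
      · rw [if_neg hH, hf _ hH, zero_mul]
    · rw [if_neg hx, if_neg]
      intro h
      exact hx ((A15_conj_mem ha x).1 (hHK h))
  have h1 : ∀ x : G, (if x ∈ K then ind H K f x * conj (ψ x) else 0)
      = (Nat.card H : ℂ)⁻¹ * ∑ a : G, (if a ∈ K then (if x ∈ K then f (a * x * a⁻¹) * conj (ψ x) else 0) else 0) := by
    intro x
    by_cases hx : x ∈ K
    · simp only [if_pos hx, ind]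
      rw [mul_assoc, Finset.sum_mul]
      congr 1
      refine Finset.sum_congr rfl (fun a _ => ?_)
      by_cases ha : a ∈ K
      · simp only [if_pos ha]
      · simp only [if_neg ha, zero_mul]
    · simp only [if_neg hx, ite_self, Finset.sum_const_zero, mul_zero]
  have h2 : ∑ x : G, (if x ∈ K then ind H K f x * conj (ψ x) else 0) = (Nat.card H : ℂ)⁻¹ * ((Nat.card K : ℂ) * S) := by
    rw [Finset.sum_congr rfl (fun x _ => h1 x), ← Finset.mul_sum, Finset.sum_comm]
    congr 1
    rw [← A15_sum_mem]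
    refine Finset.sum_congr rfl (fun a _ => ?_)
    by_cases ha : a ∈ K
    · simp only [if_pos ha]
      exact key a ha
    · simp only [if_neg ha, Finset.sum_const_zero]
  unfold ip
  rw [h2, ← hS]
  have := A15_card_ne K
  field_simp

theorem A15_frob' {H K : Subgroup G} (hHK : H ≤ K) {f ψ : G → ℂ} (hf : ∀ g, g ∉ H → f g = 0) (hψ : IsCF K ψ) :
    ip K ψ (ind H K f) = ip H ψ f := by
  rw [ip_conj K (ind H K f) ψ, A15_frob hHK hf hψ, ← ip_conj]

/-- The induced function of a character is a character. -/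
theorem ind_charS {H K : Subgroup G} (hHK : H ≤ K) {f : G → ℂ} (hf : f ∈ CharS H) : ind H K f ∈ CharS K := by
  have hz : ∀ g, g ∉ H → f g = 0 := hf.1
  have h1 : ∀ φ ∈ irr K, ∃ n : ℕ, ip K (ind H K f) φ = n := by
    intro φ hφ
    have hφ' : φ ∈ IrrS K := mem_irr.1 hφ
    have hc : φ ∈ CharS K := charS_of_irrS hφ'
    rw [A15_frob hHK hz (cf_charS hc)]
    have e1 : ip H f φ = ip H f (rs H φ) := by
      refine ip_congr H (fun x _ => rfl) (fun x hx => ?_)
      simp [rs, hx]
    have hr : rs H φ ∈ CharS H := charS_rs hHK hc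
    rw [e1, parseval (cf_charS hf) (cf_charS hr)]
    refine ⟨∑ χ ∈ irr H, mu H f χ * mu H (rs H φ) χ, ?_⟩
    push_cast
    refine Finset.sum_congr rfl (fun χ hχ => ?_)
    rw [← mu_spec le_rfl hf (mem_irr.1 hχ), ← mu_spec le_rfl hr (mem_irr.1 hχ)]
    simp
  choose! n hn using h1
  rw [cf_expand (A15_ind_cf H K f)]
  have h2 : ∑ φ ∈ irr K, ip K (ind H K f) φ • φ = ∑ φ ∈ irr K, (n φ : ℂ) • φ :=
    Finset.sum_congr rfl (fun φ hφ => by rw [hn φ hφ])
  rw [h2]
  exact charS_combo n

theorem A15_ind_one (H K : Subgroup G) (f : G → ℂ) : ind H K f 1 = (Nat.card K : ℂ) / (Nat.card H : ℂ) * f 1 := by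
  unfold ind
  rw [if_pos K.one_mem]
  simp only [mul_one, mul_inv_cancel]
  rw [A15_sum_mem]
  ring

theorem ind_add (H K : Subgroup G) (f g : G → ℂ) : ind H K (f + g) = ind H K f + ind H K g := by
  funext x
  by_cases hx : x ∈ K
  · simp only [ind, Pi.add_apply, if_pos hx]
    rw [← mul_add, ← Finset.sum_add_distrib]
    congr 1
    refine Finset.sum_congr rfl (fun a _ => ?_)
    by_cases ha : a ∈ K
    · simp only [if_pos ha]
    · simp only [if_neg ha, add_zero]
  · simp only [ind, Pi.add_apply, if_neg hx, add_zero]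

theorem ind_smul (H K : Subgroup G) (c : ℂ) (f : G → ℂ) : ind H K (c • f) = c • ind H K f := by
  funext x
  by_cases hx : x ∈ K
  · simp only [ind, Pi.smul_apply, smul_eq_mul, if_pos hx]
    have e : ∑ a : G, (if a ∈ K then c * f (a * x * a⁻¹) else 0)
        = c * ∑ a : G, (if a ∈ K then f (a * x * a⁻¹) else 0) := by
      rw [Finset.mul_sum]
      refine Finset.sum_congr rfl (fun a _ => ?_)
      by_cases ha : a ∈ K
      · simp only [if_pos ha]
      · simp only [if_neg ha, mul_zero]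
    rw [e]
    ring
  · simp only [ind, Pi.smul_apply, smul_eq_mul, if_neg hx, mul_zero]

theorem ind_sum {ι : Type*} (H K : Subgroup G) (s : Finset ι) (f : ι → G → ℂ) :
    ind H K (∑ i ∈ s, f i) = ∑ i ∈ s, ind H K (f i) := by
  induction s using Finset.induction_on with
  | empty =>
    have h := ind_smul H K 0 (0 : G → ℂ)
    simp only [zero_smul] at h
    simp only [Finset.sum_empty]
    exact h
  | insert a s ha ih => rw [Finset.sum_insert ha, Finset.sum_insert ha, ind_add, ih]

/-- Transitivity of induction. -/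
theorem ind_trans {H K L : Subgroup G} (hHK : H ≤ K) (hKL : K ≤ L) {f : G → ℂ} (hf : ∀ g, g ∉ H → f g = 0) :
    ind K L (ind H K f) = ind H L f := by
  funext x
  by_cases hx : x ∈ L
  · -- both sides are sums over L
    have hz : ∀ g, g ∉ K → f g = 0 := fun g hg => hf g (fun h => hg (hHK h))
    have h1 : ∀ y : G, ind H K f y = (Nat.card H : ℂ)⁻¹ * ∑ a : G, (if a ∈ K then f (a * y * a⁻¹) else 0) := by
      intro y
      by_cases hy : y ∈ K
      · simp only [ind, if_pos hy]
      · simp only [ind, if_neg hy]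
        rw [eq_comm, mul_eq_zero]
        right
        refine Finset.sum_eq_zero (fun a _ => ?_)
        by_cases ha : a ∈ K
        · rw [if_pos ha]
          exact hz _ (fun h => hy ((A15_conj_mem ha y).1 h))
        · rw [if_neg ha]
    have h2 : ∀ a ∈ K, ∑ b : G, (if b ∈ L then f (a * (b * x * b⁻¹) * a⁻¹) else 0)
        = ∑ b : G, (if b ∈ L then f (b * x * b⁻¹) else 0) := by
      intro a ha
      refine Fintype.sum_equiv (Equiv.mulLeft a) _ _ (fun b => ?_)
      simp only [Equiv.coe_mulLeft]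
      have h3 : a * b ∈ L ↔ b ∈ L := L.mul_mem_cancel_left (hKL ha)
      by_cases hb : b ∈ L
      · rw [if_pos hb, if_pos (h3.2 hb)]
        congr 1
        group
      · rw [if_neg hb, if_neg (fun h => hb (h3.1 h))]
    have h4 : ind K L (ind H K f) x
        = (Nat.card K : ℂ)⁻¹ * ((Nat.card H : ℂ)⁻¹ * ∑ a : G, (if a ∈ K then
            ∑ b : G, (if b ∈ L then f (a * (b * x * b⁻¹) * a⁻¹) else 0) else 0)) := by
      have e : ∀ y, ind K L (ind H K f) y = if y ∈ L then (Nat.card K : ℂ)⁻¹ * ∑ b : G,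
          (if b ∈ L then ind H K f (b * y * b⁻¹) else 0) else 0 := fun y => rfl
      rw [e, if_pos hx]
      congr 1
      have e2 : ∀ b : G, (if b ∈ L then ind H K f (b * x * b⁻¹) else 0)
          = (Nat.card H : ℂ)⁻¹ * ∑ a : G, (if a ∈ K then (if b ∈ L then f (a * (b * x * b⁻¹) * a⁻¹) else 0) else 0) := by
        intro b
        by_cases hb : b ∈ L
        · simp only [if_pos hb]
          exact h1 _
        · simp only [if_neg hb, ite_self, Finset.sum_const_zero, mul_zero]
      rw [Finset.sum_congr rfl (fun b _ => e2 b), ← Finset.mul_sum, Finset.sum_comm]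
      congr 1
      refine Finset.sum_congr rfl (fun a _ => ?_)
      by_cases ha : a ∈ K
      · simp only [if_pos ha]
      · simp only [if_neg ha, Finset.sum_const_zero]
    rw [h4]
    have h5 : ∑ a : G, (if a ∈ K then ∑ b : G, (if b ∈ L then f (a * (b * x * b⁻¹) * a⁻¹) else 0) else 0)
        = (Nat.card K : ℂ) * ∑ b : G, (if b ∈ L then f (b * x * b⁻¹) else 0) := by
      rw [← A15_sum_mem]
      refine Finset.sum_congr rfl (fun a _ => ?_)
      by_cases ha : a ∈ K
      · simp only [if_pos ha]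
        exact h2 a ha
      · simp only [if_neg ha]
    rw [h5]
    have e3 : ind H L f x = (Nat.card H : ℂ)⁻¹ * ∑ b : G, (if b ∈ L then f (b * x * b⁻¹) else 0) := by
      simp only [ind, if_pos hx]
    rw [e3]
    have := A15_card_ne K
    field_simp
  · simp only [ind, if_neg hx]

/-- The induced function is a class function of `K`. -/
theorem ind_cf {H K : Subgroup G} (hHK : H ≤ K) {f : G → ℂ} (hf : IsCF H f) : IsCF K (ind H K f) :=
  A15_ind_cf H K f

/-- Frobenius reciprocity: interchange the sums and substitute. -/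
theorem frob {H K : Subgroup G} (hHK : H ≤ K) {f g : G → ℂ} (hf : IsCF H f) (hg : IsCF K g) :
    ip K (ind H K f) g = ip H f g :=
  A15_frob hHK hf.1 hg

theorem A15_relIndex {H K : Subgroup G} (hHK : H ≤ K) : Nat.card H * H.relIndex K = Nat.card K := by
  have h1 := (H.subgroupOf K).card_mul_index
  have h2 : Nat.card (H.subgroupOf K) = Nat.card H := Nat.card_congr (Subgroup.subgroupOfEquivOfLe hHK).toEquiv
  rw [h2] at h1
  exact h1

theorem ind_one {H K : Subgroup G} (hHK : H ≤ K) {f : G → ℂ} (hf : IsCF H f) : ind H K f 1 = (H.relIndex K : ℂ) * f 1 := by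
  rw [A15_ind_one H K f]
  congr 1
  rw [div_eq_iff (A15_card_ne H)]
  have := A15_relIndex hHK
  rw [mul_comm] at this
  exact_mod_cast this.symm

/-- `N` normal in `T`: on `N` the induced function is the normalised sum of the conjugates. -/
theorem ind_normal {N T : Subgroup G} (hNT : N ≤ T) (hn : ∀ t ∈ T, Nz t N) {f : G → ℂ} (hf : IsCF N f) {x : G} (hx : x ∈ N) :
    ind N T f x = (Nat.card N : ℂ)⁻¹ * ∑ t : G, if t ∈ T then cj t f x else 0 := by
  simp only [ind, if_pos (hNT hx)]
  congr 1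
  refine Fintype.sum_equiv (Equiv.inv G) _ _ (fun a => ?_)
  simp only [Equiv.inv_apply, cj, inv_inv, T.inv_mem_iff]

/-- existence of characters over `θ` -/
theorem over_exists {N T : Subgroup G} (hNT : N ≤ T) {θ : G → ℂ} (hθ : θ ∈ IrrS N) : ∃ χ ∈ IrrS T, Over N χ θ := by
  by_contra hcon
  push Not at hcon
  have hc : θ ∈ CharS N := charS_of_irrS hθ
  have h0 : ind N T θ = 0 := by
    rw [cf_expand (A15_ind_cf N T θ)]
    refine Finset.sum_eq_zero (fun φ hφ => ?_)
    have hφ' := mem_irr.1 hφ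
    have h1 : ip T (ind N T θ) φ = 0 := by
      rw [A15_frob hNT hc.1 (cf_charS (charS_of_irrS hφ')), ip_conj]
      have h2 : ip N φ θ = 0 := by
        by_contra h2
        exact hcon φ hφ' h2
      rw [h2, map_zero]
    rw [h1, zero_smul]
  obtain ⟨n, hn, h1⟩ := irrS_one hθ
  have h2 := A15_ind_one N T θ
  rw [h0, h1] at h2
  have h3 : (n : ℂ) ≠ 0 := by exact_mod_cast hn.ne'
  have h4 := A15_card_ne T
  have h5 := A15_card_ne N
  have : (Nat.card T : ℂ) / (Nat.card N : ℂ) * (n : ℂ) ≠ 0 := mul_ne_zero (div_ne_zero h4 h5) h3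
  exact this (by simpa using h2.symm)

/-- existence of constituents -/
theorem under_exists {N T : Subgroup G} (hNT : N ≤ T) {χ : G → ℂ} (hχ : χ ∈ IrrS T) : ∃ θ ∈ IrrS N, Over N χ θ := by
  by_contra hcon
  push Not at hcon
  have hc : χ ∈ CharS T := charS_of_irrS hχ
  have h0 : rs N χ = 0 := by
    rw [charS_expand hNT hc]
    refine Finset.sum_eq_zero (fun φ hφ => ?_)
    have h1 : (mu N χ φ : ℂ) = 0 := by
      rw [mu_spec hNT hc (mem_irr.1 hφ)]
      by_contra h2
      exact hcon φ (mem_irr.1 hφ) h2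
    rw [h1, zero_smul]
  obtain ⟨n, hn, h1⟩ := irrS_one hχ
  have h2 : rs N χ 1 = χ 1 := by simp [rs, N.one_mem]
  rw [h0, h1] at h2
  have : (n : ℂ) = 0 := by simpa using h2.symm
  exact hn.ne' (by exact_mod_cast this)

theorem A15_over_iff {H K : Subgroup G} (hKH : K ≤ H) {f φ : G → ℂ} (hf : f ∈ CharS H) (hφ : φ ∈ IrrS K) :
    Over K f φ ↔ 0 < mu K f φ := by
  unfold Over
  rw [← mu_spec hKH hf hφ]
  simp [Nat.pos_iff_ne_zero]

/-- The multiplicity on `N` through an intermediate subgroup `M`. -/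
theorem A15_mu_trans {N M T : Subgroup G} (hNM : N ≤ M) (hMT : M ≤ T) {χ θ : G → ℂ} (hχ : χ ∈ CharS T) (hθ : θ ∈ IrrS N) :
    mu N χ θ = ∑ φ ∈ irr M, mu M χ φ * mu N φ θ := by
  have h1 : (mu N χ θ : ℂ) = ((∑ φ ∈ irr M, mu M χ φ * mu N φ θ : ℕ) : ℂ) := by
    rw [mu_spec (hNM.trans hMT) hχ hθ]
    have e : ip N χ θ = ip N (rs M χ) θ := ip_congr N (fun x hx => by simp [rs, hNM hx]) (fun _ _ => rfl)
    rw [e, charS_expand hMT hχ, ip_sum_left]
    push_cast
    refine Finset.sum_congr rfl (fun φ hφ => ?_)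
    rw [ip_smul_left, mu_spec hNM (charS_of_irrS (mem_irr.1 hφ)) hθ]
  exact_mod_cast h1

/-- transitivity of the relation Over: `N ≤ M ≤ T`, `χ` over `φ` over `θ` gives `χ` over `θ`; conversely a constituent `θ` of `χ` lies under some constituent `φ`. -/
theorem over_trans {N M T : Subgroup G} (hNM : N ≤ M) (hMT : M ≤ T) {χ φ θ : G → ℂ} (hχ : χ ∈ IrrS T) (hφ : φ ∈ IrrS M) (hθ : θ ∈ IrrS N)
    (h : Over M χ φ) (h' : Over N φ θ) : Over N χ θ := by
  have hc := charS_of_irrS hχ
  rw [A15_over_iff (hNM.trans hMT) hc hθ, A15_mu_trans hNM hMT hc hθ]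
  rw [A15_over_iff hMT hc hφ] at h
  rw [A15_over_iff hNM (charS_of_irrS hφ) hθ] at h'
  exact Finset.sum_pos' (fun _ _ => Nat.zero_le _) ⟨φ, mem_irr.2 hφ, Nat.mul_pos h h'⟩

theorem over_split {N M T : Subgroup G} (hNM : N ≤ M) (hMT : M ≤ T) {χ θ : G → ℂ} (hχ : χ ∈ IrrS T) (hθ : θ ∈ IrrS N)
    (h : Over N χ θ) : ∃ φ ∈ IrrS M, Over M χ φ ∧ Over N φ θ := by
  have hc := charS_of_irrS hχ
  rw [A15_over_iff (hNM.trans hMT) hc hθ, A15_mu_trans hNM hMT hc hθ] at h
  obtain ⟨φ, hφ, hne⟩ := Finset.exists_ne_zero_of_sum_ne_zero h.ne'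
  have hφ' := mem_irr.1 hφ
  refine ⟨φ, hφ', (A15_over_iff hMT hc hφ').2 ?_, (A15_over_iff hNM (charS_of_irrS hφ') hθ).2 ?_⟩
  · exact Nat.pos_of_ne_zero (left_ne_zero_of_mul hne)
  · exact Nat.pos_of_ne_zero (right_ne_zero_of_mul hne)

end Pool.Agent.Lib.H90Q
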