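import Pool.Agent.Lib.H90Q.A15
import Pool.Agent.Lib.H90Q.A12

open scoped Classical ComplexConjugate BigOperators

noncomputable section

namespace Pool.Agent.Lib.H90Q

variable {G : Type*} [Group G] [Fintype G]

omit [Fintype G] in
theorem cj_apply (a : G) (f : G → ℂ) (g : G) : cj a f g = f (a⁻¹ * g * a) := rfl

theorem A16_cj_inv_cj (a : G) (f : G → ℂ) : cj a⁻¹ (cj a f) = f := by
  rw [cj_cj, inv_mul_cancel, cj_one]

/-- The multiplicity in a class function of `T` does not change under conjugation by `T`. -/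
theorem A16_mu_cj {N T : Subgroup G} (hn : ∀ a ∈ T, Nz a N) {χ : G → ℂ} (hχ : IsCF T χ) (θ : G → ℂ) {a : G} (ha : a ∈ T) :
    mu N χ (cj a θ) = mu N χ θ := by
  have h := ip_cj (hn a ha) χ θ
  rw [cj_mem ha hχ] at h
  unfold mu
  rw [h]

/-- The `T`-orbit of `θ`. -/
def orb (T : Subgroup G) (θ : G → ℂ) : Finset (G → ℂ) :=
  (Finset.univ.filter (fun a : G => a ∈ T)).image (fun a => cj a θ)

theorem mem_orb {T : Subgroup G} {θ φ : G → ℂ} : φ ∈ orb T θ ↔ ∃ a ∈ T, cj a θ = φ := by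
  simp [orb]

theorem self_mem_orb (T : Subgroup G) (θ : G → ℂ) : θ ∈ orb T θ := mem_orb.2 ⟨1, T.one_mem, cj_one θ⟩

theorem orb_cj {T : Subgroup G} (θ : G → ℂ) {a : G} (ha : a ∈ T) : orb T (cj a θ) = orb T θ := by
  ext φ
  rw [mem_orb, mem_orb]
  constructor
  · rintro ⟨b, hb, rfl⟩
    exact ⟨b * a, T.mul_mem hb ha, (cj_cj b a θ).symm⟩
  · rintro ⟨b, hb, rfl⟩
    refine ⟨b * a⁻¹, T.mul_mem hb (T.inv_mem ha), ?_⟩
    rw [cj_cj]
    congr 1
    group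

theorem orb_irrS {N T : Subgroup G} (hn : ∀ a ∈ T, Nz a N) {θ φ : G → ℂ} (hθ : θ ∈ IrrS N) (h : φ ∈ orb T θ) : φ ∈ IrrS N := by
  obtain ⟨a, ha, rfl⟩ := mem_orb.1 h
  exact cj_irrS (hn a ha) hθ

/-- The multiplicity of `φ ∈ Irr N` in the induced character of `θ ∈ Irr N` counts the elements of `T` that move `θ` to `φ`. -/
theorem ip_ind_res {N T : Subgroup G} (hn : ∀ a ∈ T, Nz a N) (hNT : N ≤ T) {θ φ : G → ℂ} (hθ : θ ∈ IrrS N) (hφ : φ ∈ IrrS N) :
    ip N (ind N T θ) φ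
      = (Nat.card N : ℂ)⁻¹ * ((Finset.univ.filter (fun a : G => a ∈ T ∧ cj a⁻¹ θ = φ)).card : ℂ) := by
  have h1 : ∀ x ∈ N, ind N T θ x = ((Nat.card N : ℂ)⁻¹ • ∑ a ∈ Finset.univ.filter (fun a : G => a ∈ T), cj a⁻¹ θ) x := by
    intro x hx
    rw [Pi.smul_apply, Finset.sum_apply, Finset.sum_filter, smul_eq_mul]
    simp only [ind, if_pos (hNT hx)]
    congr 1
    refine Finset.sum_congr rfl (fun a _ => ?_)
    by_cases ha : a ∈ T
    · simp [if_pos ha, cj_apply]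
    · simp only [if_neg ha]
  rw [ip_congr N h1 (fun x _ => rfl), ip_smul_left, ip_sum_left]
  congr 1
  have h2 : ∀ a ∈ Finset.univ.filter (fun a : G => a ∈ T), ip N (cj a⁻¹ θ) φ = if cj a⁻¹ θ = φ then 1 else 0 := by
    intro a ha
    have ha' : a ∈ T := (Finset.mem_filter.1 ha).2
    exact irrS_ortho (cj_irrS (hn _ (T.inv_mem ha')) hθ) hφ
  rw [Finset.sum_congr rfl h2, ← Finset.sum_filter, Finset.sum_const, nsmul_eq_mul, mul_one, Finset.filter_filter]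

/-- Clifford: the constituents of the restriction of `χ ∈ Irr T` to the normal subgroup `N` are conjugate in `T`. -/
theorem clifford {N T : Subgroup G} (hNT : N ≤ T) (hn : ∀ t ∈ T, Nz t N) {χ θ θ' : G → ℂ} (hχ : χ ∈ IrrS T) (hθ : θ ∈ IrrS N) (hθ' : θ' ∈ IrrS N)
    (h : Over N χ θ) (h' : Over N χ θ') : ∃ t ∈ T, θ' = cj t θ := by
  obtain ⟨φ, hφe⟩ : ∃ φ, φ = θ' := ⟨θ', rfl⟩
  have hφ : φ ∈ IrrS N := by rw [hφe]; exact hθ'
  have h2 : Over N χ φ := by rw [hφe]; exact h'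
  have h1 := h
  suffices hs : ∃ a ∈ T, φ = cj a θ by
    obtain ⟨a, ha, he⟩ := hs
    exact ⟨a, ha, by rw [← hφe]; exact he⟩
  clear h' hθ' h
  by_contra hcon
  push Not at hcon
  have hcθ : θ ∈ CharS N := charS_of_irrS hθ
  have hcχ : χ ∈ CharS T := charS_of_irrS hχ
  have hI : ind N T θ ∈ CharS T := ind_charS hNT hcθ
  -- the multiplicity of `φ` in the induced character is zero
  have h3 : ip N (ind N T θ) φ = 0 := by
    rw [ip_ind_res hn hNT hθ hφ]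
    have : (Finset.univ.filter (fun a : G => a ∈ T ∧ cj a⁻¹ θ = φ)) = ∅ := by
      rw [Finset.filter_eq_empty_iff]
      rintro a - ⟨ha, he⟩
      exact hcon a⁻¹ (T.inv_mem ha) he.symm
    rw [this]
    simp
  -- but `χ` is a constituent of it
  have h4 : ip N (ind N T θ) φ = ((∑ ψ ∈ irr T, mu T (ind N T θ) ψ * mu N ψ φ : ℕ) : ℂ) := by
    have e1 : ip N (ind N T θ) φ = ip N (∑ ψ ∈ irr T, (mu T (ind N T θ) ψ : ℂ) • ψ) φ := by
      rw [← charS_expand' hI]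
    rw [e1, ip_sum_left]
    push_cast
    refine Finset.sum_congr rfl (fun ψ hψ => ?_)
    rw [ip_smul_left, mu_spec hNT (charS_of_irrS (mem_irr.1 hψ)) hφ]
  have h5 : 0 < mu T (ind N T θ) χ := by
    rw [← A15_over_iff le_rfl hI hχ]
    unfold Over
    rw [A15_frob hNT hcθ.1 (cf_charS hcχ), ip_conj]
    intro h
    exact h1 (by simpa using congrArg conj h)
  have h6 : 0 < mu N χ φ := (A15_over_iff hNT hcχ hφ).1 h2
  have h7 : 0 < ∑ ψ ∈ irr T, mu T (ind N T θ) ψ * mu N ψ φ := by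
    refine Finset.sum_pos' (fun _ _ => Nat.zero_le _) ⟨χ, mem_irr.2 hχ, Nat.mul_pos h5 h6⟩
  rw [h3] at h4
  have h8 : (∑ ψ ∈ irr T, mu T (ind N T θ) ψ * mu N ψ φ : ℕ) = 0 := by exact_mod_cast h4.symm
  omega

/-- Clifford, multiplicities. -/
theorem clifford_mu {N T : Subgroup G} (hNT : N ≤ T) (hn : ∀ a ∈ T, Nz a N) {χ : G → ℂ} (hχ : χ ∈ IrrS T) {θ φ : G → ℂ}
    (hθ : θ ∈ IrrS N) (h1 : Over N χ θ) (hφ : φ ∈ IrrS N) :
    mu N χ φ = if φ ∈ orb T θ then mu N χ θ else 0 := by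
  have hcχ : χ ∈ CharS T := charS_of_irrS hχ
  by_cases h : φ ∈ orb T θ
  · rw [if_pos h]
    obtain ⟨a, ha, rfl⟩ := mem_orb.1 h
    exact A16_mu_cj hn (cf_charS hcχ) θ ha
  · rw [if_neg h]
    by_contra h2
    have h3 : Over N χ φ := (A15_over_iff hNT hcχ hφ).2 (Nat.pos_of_ne_zero h2)
    obtain ⟨a, ha, he⟩ := clifford hNT hn hχ hθ hφ h1 h3
    exact h (mem_orb.2 ⟨a, ha, he.symm⟩)

/-- Clifford: the restriction. -/
theorem clifford_res {N T : Subgroup G} (hNT : N ≤ T) (hn : ∀ a ∈ T, Nz a N) {χ : G → ℂ} (hχ : χ ∈ IrrS T) {θ : G → ℂ}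
    (hθ : θ ∈ IrrS N) (h1 : Over N χ θ) : rs N χ = (mu N χ θ : ℂ) • ∑ φ ∈ orb T θ, φ := by
  have hcχ : χ ∈ CharS T := charS_of_irrS hχ
  rw [charS_expand hNT hcχ, Finset.smul_sum]
  have hsub : orb T θ ⊆ irr N := fun φ hφ => mem_irr.2 (orb_irrS hn hθ hφ)
  symm
  rw [← Finset.sum_subset hsub]
  · refine Finset.sum_congr rfl (fun φ hφ => ?_)
    rw [clifford_mu hNT hn hχ hθ h1 (mem_irr.1 (hsub hφ)), if_pos hφ]
  · intro φ hφ hno
    rw [clifford_mu hNT hn hχ hθ h1 (mem_irr.1 hφ), if_neg hno]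
    simp

/-- Inner product on `N` of two irreducible characters of `T` over the same `θ`. -/
theorem ip_res_over {N T : Subgroup G} (hNT : N ≤ T) (hn : ∀ a ∈ T, Nz a N) {χ χ' : G → ℂ} (hχ : χ ∈ IrrS T) (hχ' : χ' ∈ IrrS T)
    {θ : G → ℂ} (hθ : θ ∈ IrrS N) (h1 : Over N χ θ) (h2 : Over N χ' θ) :
    ip N χ χ' = ((mu N χ θ * mu N χ' θ * (orb T θ).card : ℕ) : ℂ) := by
  have hc : χ ∈ CharS T := charS_of_irrS hχ
  have hc' : χ' ∈ CharS T := charS_of_irrS hχ'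
  have e : ip N χ χ' = ip N (rs N χ) (rs N χ') :=
    ip_congr N (fun x hx => by simp [rs, hx]) (fun x hx => by simp [rs, hx])
  rw [e, parseval (cf_charS (charS_rs hNT hc)) (cf_charS (charS_rs hNT hc'))]
  have h3 : ∀ φ ∈ irr N, ip N (rs N χ) φ * conj (ip N (rs N χ') φ)
      = if φ ∈ orb T θ then ((mu N χ θ * mu N χ' θ : ℕ) : ℂ) else 0 := by
    intro φ hφ
    have hφ' := mem_irr.1 hφ
    have a1 : ip N (rs N χ) φ = (mu N χ φ : ℂ) := by
      rw [mu_spec hNT hc hφ']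
      exact ip_congr N (fun x hx => by simp [rs, hx]) (fun _ _ => rfl)
    have a2 : ip N (rs N χ') φ = (mu N χ' φ : ℂ) := by
      rw [mu_spec hNT hc' hφ']
      exact ip_congr N (fun x hx => by simp [rs, hx]) (fun _ _ => rfl)
    rw [a1, a2, clifford_mu hNT hn hχ hθ h1 hφ', clifford_mu hNT hn hχ' hθ h2 hφ']
    by_cases h : φ ∈ orb T θ
    · simp [if_pos h]
    · simp [if_neg h]
  rw [Finset.sum_congr rfl h3, ← Finset.sum_filter, Finset.sum_const, nsmul_eq_mul]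
  have h4 : (irr N).filter (fun φ => φ ∈ orb T θ) = orb T θ := by
    ext φ
    rw [Finset.mem_filter]
    exact ⟨fun h => h.2, fun h => ⟨mem_irr.2 (orb_irrS hn hθ h), h⟩⟩
  rw [h4]
  push_cast
  ring

/-- and conjugates have the same multiplicity. -/
theorem clifford_mult {N T : Subgroup G} (hn : ∀ t ∈ T, Nz t N) {χ : G → ℂ} (hχ : χ ∈ IrrS T) (θ : G → ℂ) {t : G} (ht : t ∈ T) :
    ip N χ (cj t θ) = ip N χ θ := by
  have h := ip_cj (hn t ht) χ θ
  rwa [cj_mem ht (cf_charS (charS_of_irrS hχ))] at h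

/-- Invariant `θ`: `χ` restricts to a multiple of `θ`, for all `x ∈ N`: `χ x = (mu N χ θ) * θ x`, and `mu > 0`. -/
theorem clifford_inv {N T : Subgroup G} (hNT : N ≤ T) (hn : ∀ t ∈ T, Nz t N) {χ θ : G → ℂ} (hχ : χ ∈ IrrS T) (hθ : θ ∈ IrrS N)
    (h : Over N χ θ) (hinv : ∀ t ∈ T, cj t θ = θ) : 0 < mu N χ θ ∧ ∀ x ∈ N, χ x = (mu N χ θ : ℂ) * θ x := by
  refine ⟨(A15_over_iff hNT (charS_of_irrS hχ) hθ).1 h, fun x hx => ?_⟩
  have ho : orb T θ = {θ} := by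
    ext φ
    rw [mem_orb, Finset.mem_singleton]
    constructor
    · rintro ⟨a, ha, rfl⟩
      exact hinv a ha
    · rintro rfl
      exact ⟨1, T.one_mem, cj_one _⟩
  have h1 := congrFun (clifford_res hNT hn hχ hθ h) x
  rw [ho, Finset.sum_singleton] at h1
  simpa [rs, hx] using h1

/-- The stabiliser in `T` of `θ`. -/
def stS (T : Subgroup G) (θ : G → ℂ) : Subgroup G where
  carrier := {t | t ∈ T ∧ cj t θ = θ}
  mul_mem' := by
    rintro a b ⟨ha, ha'⟩ ⟨hb, hb'⟩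
    refine ⟨T.mul_mem ha hb, ?_⟩
    rw [← cj_cj, hb', ha']
  one_mem' := ⟨T.one_mem, cj_one θ⟩
  inv_mem' := by
    rintro a ⟨ha, ha'⟩
    refine ⟨T.inv_mem ha, ?_⟩
    conv_lhs => rw [← ha']
    rw [cj_cj, inv_mul_cancel, cj_one]

theorem mem_stS {T : Subgroup G} {θ : G → ℂ} {t : G} : t ∈ stS T θ ↔ t ∈ T ∧ cj t θ = θ := Iff.rfl

/-- Orbit and stabiliser. -/
theorem orb_card (T : Subgroup G) (θ : G → ℂ) : (orb T θ).card * Nat.card (stS T θ) = Nat.card T := by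
  have h1 : (Finset.univ.filter (fun a : G => a ∈ T)).card
      = ∑ φ ∈ orb T θ, ((Finset.univ.filter (fun a : G => a ∈ T)).filter (fun a => cj a θ = φ)).card :=
    Finset.card_eq_sum_card_fiberwise (fun a ha => Finset.mem_image_of_mem _ ha)
  have hcard : ∀ K : Subgroup G, (Finset.univ.filter (fun a : G => a ∈ K)).card = Nat.card K := by
    intro K
    rw [Nat.card_eq_fintype_card, Fintype.card_subtype]
  have h2 : ∀ φ ∈ orb T θ, ((Finset.univ.filter (fun a : G => a ∈ T)).filter (fun a => cj a θ = φ)).card = Nat.card (stS T θ) := by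
    intro φ hφ
    obtain ⟨b, hb, rfl⟩ := mem_orb.1 hφ
    rw [← hcard]
    refine Finset.card_nbij' (fun a => b⁻¹ * a) (fun a => b * a) ?_ ?_ ?_ ?_
    · intro a ha
      simp only [Finset.coe_filter, Finset.mem_filter, Finset.mem_univ, true_and, Set.mem_setOf_eq, mem_stS] at ha ⊢
      refine ⟨T.mul_mem (T.inv_mem hb) ha.1, ?_⟩
      rw [← cj_cj, ha.2, A16_cj_inv_cj]
    · intro a ha
      simp only [Finset.coe_filter, Finset.mem_filter, Finset.mem_univ, true_and, Set.mem_setOf_eq, mem_stS] at ha ⊢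
      refine ⟨T.mul_mem hb ha.1, ?_⟩
      rw [← cj_cj, ha.2]
    · intro a _
      simp
    · intro a _
      simp
  rw [← hcard T, h1, Finset.sum_congr rfl h2, Finset.sum_const, smul_eq_mul]

/-- `N ≤ T_θ`. -/
theorem A16_le_stS {N T : Subgroup G} (hNT : N ≤ T) {θ : G → ℂ} (hθ : IsCF N θ) : N ≤ stS T θ :=
  fun _ ha => mem_stS.2 ⟨hNT ha, cj_mem ha hθ⟩

theorem A16_orb_index {N T : Subgroup G} (hNT : N ≤ T) {θ : G → ℂ} (hθ : IsCF N θ) :
    (orb T θ).card * N.relIndex (stS T θ) = N.relIndex T := by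
  have h1 := A15_relIndex (A16_le_stS hNT hθ)
  have h2 := A15_relIndex hNT
  have h3 := orb_card T θ
  have h4 : 0 < Nat.card N := Nat.card_pos
  apply Nat.eq_of_mul_eq_mul_left h4
  rw [h2, ← h3, ← h1]
  ring

/-- Norm of the restriction: `ip N χ χ = e ^ 2 * t` with `e = mu N χ θ` and `t` the length of the orbit: `t * |T_θ : N| = |T : N|`. -/
theorem clifford_norm {N T : Subgroup G} (hNT : N ≤ T) (hn : ∀ t ∈ T, Nz t N) {χ θ : G → ℂ} (hχ : χ ∈ IrrS T) (hθ : θ ∈ IrrS N)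
    (h : Over N χ θ) : ip N χ χ * (N.relIndex (stS T θ) : ℂ) = (mu N χ θ : ℂ) ^ 2 * (N.relIndex T : ℂ) := by
  rw [ip_res_over hNT hn hχ hχ hθ h h, ← A16_orb_index hNT (cf_charS (charS_of_irrS hθ))]
  push_cast
  ring

/-- degree: `χ 1 * |T_θ : N| = e * |T : N| * θ 1`. -/
theorem clifford_degree {N T : Subgroup G} (hNT : N ≤ T) (hn : ∀ t ∈ T, Nz t N) {χ θ : G → ℂ} (hχ : χ ∈ IrrS T) (hθ : θ ∈ IrrS N)
    (h : Over N χ θ) : χ 1 * (N.relIndex (stS T θ) : ℂ) = (mu N χ θ : ℂ) * (N.relIndex T : ℂ) * θ 1 := by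
  have h1 := congrFun (clifford_res hNT hn hχ hθ h) 1
  have h2 : rs N χ 1 = χ 1 := by simp [rs, N.one_mem]
  have h3 : ∀ φ ∈ orb T θ, φ 1 = θ 1 := by
    intro φ hφ
    obtain ⟨a, _, rfl⟩ := mem_orb.1 hφ
    simp [cj_apply]
  rw [h2, Pi.smul_apply, Finset.sum_apply, Finset.sum_congr rfl h3, Finset.sum_const, nsmul_eq_mul, smul_eq_mul] at h1
  rw [h1, ← A16_orb_index hNT (cf_charS (charS_of_irrS hθ))]
  push_cast
  ring

end Pool.Agent.Lib.H90Q
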