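import Pool.Agent.Lib.H90Q.A16

open scoped Classical ComplexConjugate BigOperators

noncomputable section

namespace Pool.Agent.Lib.H90Q

variable {G : Type*} [Group G] [Fintype G]

/-- Sum over the linear characters of `T / N` picks the inner product on `N`:
`∑ l, ip T (l * χ) χ' = ip N χ χ'` (`lin_sum`). -/
theorem sum_twist {N T : Subgroup G} (hNT : N ≤ T) (hab : ∀ a ∈ T, ∀ b ∈ T, a * b * a⁻¹ * b⁻¹ ∈ N) (χ χ' : G → ℂ) :
    ∑ l ∈ (lin_finite T N).toFinset, ip T (l * χ) χ' = ip N χ χ' := by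
  have h1 : ∀ x : G, ∑ l ∈ (lin_finite T N).toFinset, (if x ∈ T then (l * χ) x * conj (χ' x) else 0)
      = if x ∈ N then (N.relIndex T : ℂ) * (χ x * conj (χ' x)) else 0 := by
    intro x
    by_cases hx : x ∈ T
    · simp only [if_pos hx, Pi.mul_apply]
      have h2 := lin_sum hNT hab hx
      have h3 : ∑ l ∈ (lin_finite T N).toFinset, l x * χ x * conj (χ' x)
          = (∑ l ∈ (lin_finite T N).toFinset, l x) * (χ x * conj (χ' x)) := by
        rw [Finset.sum_mul]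
        exact Finset.sum_congr rfl (fun l _ => by ring)
      rw [h3, h2]
      by_cases hxN : x ∈ N
      · simp only [if_pos hxN]
      · simp only [if_neg hxN, zero_mul]
    · have hxN : x ∉ N := fun h => hx (hNT h)
      simp only [if_neg hx, if_neg hxN, Finset.sum_const_zero]
  unfold ip
  rw [← Finset.mul_sum, Finset.sum_comm, Finset.sum_congr rfl (fun x _ => h1 x)]
  have h4 : ∑ x : G, (if x ∈ N then (N.relIndex T : ℂ) * (χ x * conj (χ' x)) else 0)
      = (N.relIndex T : ℂ) * ∑ x : G, (if x ∈ N then χ x * conj (χ' x) else 0) := by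
    rw [Finset.mul_sum]
    refine Finset.sum_congr rfl (fun x _ => ?_)
    by_cases hx : x ∈ N
    · simp only [if_pos hx]
    · simp only [if_neg hx, mul_zero]
  rw [h4]
  have h5 : (Nat.card N : ℂ) * (N.relIndex T : ℂ) = (Nat.card T : ℂ) := by exact_mod_cast A15_relIndex hNT
  have h6 := A15_card_ne T
  have h7 := A15_card_ne N
  rw [← h5] at h6 ⊢
  have h8 : (N.relIndex T : ℂ) ≠ 0 := right_ne_zero_of_mul h6
  field_simp

theorem A17_normal {N T : Subgroup G} (hNT : N ≤ T) (hab : ∀ a ∈ T, ∀ b ∈ T, a * b * a⁻¹ * b⁻¹ ∈ N) : ∀ t ∈ T, Nz t N := by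
  have h1 : ∀ t ∈ T, ∀ g ∈ N, t * g * t⁻¹ ∈ N := by
    intro t ht g hg
    have h := N.mul_mem (hab t ht g (hNT hg)) hg
    simpa using h
  intro t ht g
  refine ⟨h1 t ht g, fun h => ?_⟩
  have h2 := h1 t⁻¹ (T.inv_mem ht) _ h
  simpa [mul_assoc] using h2

theorem A17_lin_ne {T N : Subgroup G} {l : G → ℂ} (hl : l ∈ LinS T N) {x : G} (hx : x ∈ T) : l x ≠ 0 := by
  intro h
  have h1 := hl.2.2 x hx x⁻¹ (T.inv_mem hx)
  rw [mul_inv_cancel, lin_one hl, h, zero_mul] at h1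
  exact one_ne_zero h1

theorem A17_lin_inv {T N : Subgroup G} {l : G → ℂ} (hl : l ∈ LinS T N) : l⁻¹ ∈ LinS T N := by
  refine ⟨fun g hg => ?_, fun g hg => ?_, fun a ha b hb => ?_⟩
  · simp [hl.1 g hg]
  · simp [hl.2.1 g hg]
  · simp only [Pi.inv_apply, hl.2.2 a ha b hb, mul_inv]

theorem A17_inv_mul {T N : Subgroup G} {l : G → ℂ} (hl : l ∈ LinS T N) {f : G → ℂ} (hf : ∀ g, g ∉ T → f g = 0) :
    l⁻¹ * (l * f) = f := by
  funext g
  by_cases hg : g ∈ T
  · have := A17_lin_ne hl hg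
    simp only [Pi.mul_apply, Pi.inv_apply]
    field_simp
  · simp [hf g hg]

theorem A17_mul_inv {T N : Subgroup G} {l : G → ℂ} (hl : l ∈ LinS T N) {f : G → ℂ} (hf : ∀ g, g ∉ T → f g = 0) :
    l * (l⁻¹ * f) = f := by
  funext g
  by_cases hg : g ∈ T
  · have := A17_lin_ne hl hg
    simp only [Pi.mul_apply, Pi.inv_apply]
    field_simp
  · simp [hf g hg]

theorem A17_mem {T N : Subgroup G} {l : G → ℂ} : l ∈ (lin_finite T N).toFinset ↔ l ∈ LinS T N := by
  simp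

/-- Abelian quotient: two irreducible characters of `T` over the same `θ ∈ Irr N` differ by a linear character of `T / N`.
Proof: `ip N χ χ' ≠ 0` (both contain `θ`; natural multiplicities), so by `sum_twist` some `ip T (l * χ) χ' ≠ 0`, hence `l * χ = χ'`. -/
theorem abel_trans {N T : Subgroup G} (hNT : N ≤ T) (hab : ∀ a ∈ T, ∀ b ∈ T, a * b * a⁻¹ * b⁻¹ ∈ N) {χ χ' θ : G → ℂ}
    (hχ : χ ∈ IrrS T) (hχ' : χ' ∈ IrrS T) (hθ : θ ∈ IrrS N) (h : Over N χ θ) (h' : Over N χ' θ) : ∃ l ∈ LinS T N, χ' = l * χ := by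
  have hn := A17_normal hNT hab
  by_contra hcon
  push Not at hcon
  have h1 := sum_twist hNT hab χ χ'
  have h2 : ∑ l ∈ (lin_finite T N).toFinset, ip T (l * χ) χ' = 0 := by
    refine Finset.sum_eq_zero (fun l hl => ?_)
    have hl' := A17_mem.1 hl
    rw [irrS_ortho (lin_mul_irr hl' hχ) hχ', if_neg (fun he => hcon l hl' he.symm)]
  rw [h2, ip_res_over hNT hn hχ hχ' hθ h h'] at h1
  have a1 : 0 < mu N χ θ := (A15_over_iff hNT (charS_of_irrS hχ) hθ).1 h
  have a2 : 0 < mu N χ' θ := (A15_over_iff hNT (charS_of_irrS hχ') hθ).1 h'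
  have a3 : 0 < (orb T θ).card := Finset.card_pos.2 ⟨θ, self_mem_orb T θ⟩
  have a4 : 0 < mu N χ θ * mu N χ' θ * (orb T θ).card := Nat.mul_pos (Nat.mul_pos a1 a2) a3
  have a5 : mu N χ θ * mu N χ' θ * (orb T θ).card = 0 := by exact_mod_cast h1.symm
  omega

/-- `ip N χ χ` is the number of linear characters fixing `χ`. -/
theorem abel_norm {N T : Subgroup G} (hNT : N ≤ T) (hab : ∀ a ∈ T, ∀ b ∈ T, a * b * a⁻¹ * b⁻¹ ∈ N) {χ : G → ℂ}
    (hχ : χ ∈ IrrS T) : ip N χ χ = (((lin_finite T N).toFinset.filter (fun l => l * χ = χ)).card : ℂ) := by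
  rw [← sum_twist hNT hab χ χ]
  have h1 : ∀ l ∈ (lin_finite T N).toFinset, ip T (l * χ) χ = if l * χ = χ then 1 else 0 := by
    intro l hl
    exact irrS_ortho (lin_mul_irr (A17_mem.1 hl) hχ) hχ
  rw [Finset.sum_congr rfl h1, ← Finset.sum_filter, Finset.sum_const, nsmul_eq_mul, mul_one]

theorem A17_ip_twist {T N : Subgroup G} {l : G → ℂ} (hl : l ∈ LinS T N) (f g : G → ℂ) : ip N (l * f) g = ip N f g := by
  refine ip_congr N (fun x hx => ?_) (fun _ _ => rfl)
  simp [hl.2.1 x hx]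

theorem A17_mu_twist {T N : Subgroup G} {l : G → ℂ} (hl : l ∈ LinS T N) (f g : G → ℂ) : mu N (l * f) g = mu N f g := by
  unfold mu
  rw [A17_ip_twist hl]

/-- twisting by a linear character of `T / N` does not change the constituents on `N` -/
theorem over_twist {N T : Subgroup G} (hNT : N ≤ T) {χ θ l : G → ℂ} (hl : l ∈ LinS T N) : Over N (l * χ) θ ↔ Over N χ θ := by
  unfold Over
  rw [A17_ip_twist hl]

theorem mem_irrOver {T K : Subgroup G} {θ χ : G → ℂ} : χ ∈ irrOver T K θ ↔ χ ∈ IrrS T ∧ Over K χ θ := by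
  simp [irrOver, mem_irr]

theorem irrOver_nonempty {T N : Subgroup G} (hNT : N ≤ T) {θ : G → ℂ} (hθ : θ ∈ IrrS N) : (irrOver T N θ).Nonempty := by
  obtain ⟨χ, hχ, ho⟩ := over_exists hNT hθ
  exact ⟨χ, mem_irrOver.2 ⟨hχ, ho⟩⟩

/-- All characters over `θ` have the same multiplicity. -/
theorem mu_over_eq {N T : Subgroup G} (hNT : N ≤ T) (hab : ∀ a ∈ T, ∀ b ∈ T, a * b * a⁻¹ * b⁻¹ ∈ N) {χ χ' θ : G → ℂ}
    (hχ : χ ∈ IrrS T) (hχ' : χ' ∈ IrrS T) (hθ : θ ∈ IrrS N) (h : Over N χ θ) (h' : Over N χ' θ) : mu N χ' θ = mu N χ θ := by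
  obtain ⟨l, hl, rfl⟩ := abel_trans hNT hab hχ hχ' hθ h h'
  exact A17_mu_twist hl χ θ

/-- The sets over conjugate characters agree. -/
theorem irrOver_cj {T N : Subgroup G} (hn : ∀ a ∈ T, Nz a N) (θ : G → ℂ) {a : G} (ha : a ∈ T) :
    irrOver T N (cj a θ) = irrOver T N θ := by
  ext χ
  rw [mem_irrOver, mem_irrOver]
  constructor
  · rintro ⟨h1, h2⟩
    refine ⟨h1, ?_⟩
    unfold Over at h2 ⊢
    rwa [clifford_mult hn h1 θ ha] at h2
  · rintro ⟨h1, h2⟩
    refine ⟨h1, ?_⟩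
    unfold Over at h2 ⊢
    rwa [clifford_mult hn h1 θ ha]

/-- Counting: `e ^ 2 * #Irr(T|θ) = |T_θ : N|` for abelian `T / N` (`e = mu N χ θ`, any `χ ∈ Irr(T|θ)`).
Proof: the group of linear characters acts transitively on `Irr(T|θ)` (`abel_trans`) with stabilisers of size `ip N χ χ` (`abel_norm`), so
`#Irr(T|θ) * ip N χ χ = |T : N|` (`lin_card`); use `clifford_norm`. (Count the fibres of `l ↦ l * χ`: each fibre is `l₀` times the stabiliser.) -/
theorem abel_count {N T : Subgroup G} (hNT : N ≤ T) (hn : ∀ t ∈ T, Nz t N) (hab : ∀ a ∈ T, ∀ b ∈ T, a * b * a⁻¹ * b⁻¹ ∈ N) {χ θ : G → ℂ}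
    (hχ : χ ∈ IrrS T) (hθ : θ ∈ IrrS N) (h : Over N χ θ) :
    (mu N χ θ) ^ 2 * (irrOver T N θ).card = N.relIndex (stS T θ) := by
  have hz : ∀ g, g ∉ T → χ g = 0 := hχ.1
  have hst : ((lin_finite T N).toFinset.filter (fun l => l * χ = χ)).card = mu N χ θ ^ 2 * (orb T θ).card := by
    have h0 := abel_norm hNT hab hχ
    rw [ip_res_over hNT hn hχ hχ hθ h h] at h0
    have h' : ((lin_finite T N).toFinset.filter (fun l => l * χ = χ)).card = mu N χ θ * mu N χ θ * (orb T θ).card := by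
      exact_mod_cast h0.symm
    rw [h', sq]
  have hcard : (lin_finite T N).toFinset.card = N.relIndex T := by
    rw [← lin_card hNT hab]
    exact (Set.ncard_eq_toFinset_card _ (lin_finite T N)).symm
  have h1 : (lin_finite T N).toFinset.card = ∑ χ' ∈ irrOver T N θ, ((lin_finite T N).toFinset.filter (fun l => l * χ = χ')).card := by
    refine Finset.card_eq_sum_card_fiberwise (fun l hl => ?_)
    have hl' := A17_mem.1 hl
    exact mem_irrOver.2 ⟨lin_mul_irr hl' hχ, (over_twist hNT hl').2 h⟩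
  have h2 : ∀ χ' ∈ irrOver T N θ, ((lin_finite T N).toFinset.filter (fun l => l * χ = χ')).card = mu N χ θ ^ 2 * (orb T θ).card := by
    intro χ' hχ'
    obtain ⟨hi, ho⟩ := mem_irrOver.1 hχ'
    obtain ⟨l₀, h₀, rfl⟩ := abel_trans hNT hab hχ hi hθ h ho
    rw [← hst]
    symm
    refine Finset.card_nbij' (fun l => l₀ * l) (fun l => l₀⁻¹ * l) ?_ ?_ ?_ ?_
    · intro l hl
      have hl' := Finset.mem_filter.1 hl
      refine Finset.mem_filter.2 ⟨A17_mem.2 (lin_mul h₀ (A17_mem.1 hl'.1)), ?_⟩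
      rw [mul_assoc, hl'.2]
    · intro l hl
      have hl' := Finset.mem_filter.1 hl
      refine Finset.mem_filter.2 ⟨A17_mem.2 (lin_mul (A17_lin_inv h₀) (A17_mem.1 hl'.1)), ?_⟩
      rw [mul_assoc, hl'.2]
      exact A17_inv_mul h₀ hz
    · intro l hl
      exact A17_inv_mul h₀ (A17_mem.1 (Finset.mem_filter.1 hl).1).1
    · intro l hl
      exact A17_mul_inv h₀ (A17_mem.1 (Finset.mem_filter.1 hl).1).1
  rw [hcard, Finset.sum_congr rfl h2, Finset.sum_const, smul_eq_mul] at h1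
  have h3 := A16_orb_index hNT (cf_charS (charS_of_irrS hθ)) (T := T)
  have h4 : 0 < (orb T θ).card := Finset.card_pos.2 ⟨θ, self_mem_orb T θ⟩
  apply Nat.eq_of_mul_eq_mul_left h4
  rw [h3, h1]
  ring

end Pool.Agent.Lib.H90Q
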