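import Pool.Agent.Lib.H90Q.A10

open scoped Classical ComplexConjugate BigOperators

noncomputable section

namespace Pool.Agent.Lib.H90Q

/-- A representation whose operators include those of an irreducible representation on the same space is irreducible. -/
private lemma a18_irr {A B V : Type*} [Group A] [Group B] [AddCommGroup V] [Module ℂ V] (ρ : Representation ℂ A V)
    (hρ : ρ.IsIrreducible) (σ : Representation ℂ B V) (h : ∀ a, ∃ b, σ b = ρ a) : σ.IsIrreducible := by
  have hbot : (⊥ : Subrepresentation σ).toSubmodule = ⊥ := rfl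
  have htop : (⊤ : Subrepresentation σ).toSubmodule = ⊤ := rfl
  have hbot' : (⊥ : Subrepresentation ρ).toSubmodule = ⊥ := rfl
  have htop' : (⊤ : Subrepresentation ρ).toSubmodule = ⊤ := rfl
  refine { exists_pair_ne := ⟨⊥, ⊤, fun e => ?_⟩, eq_bot_or_eq_top := fun W => ?_ }
  · have h1 : (⊥ : Submodule ℂ V) = ⊤ := by rw [← hbot, ← htop, e]
    have h2 : (⊥ : Subrepresentation ρ) = ⊤ := Subrepresentation.toSubmodule_injective (by rw [hbot', htop', h1])
    exact hρ.bot_ne_top h2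
  · let W' : Subrepresentation ρ := ⟨W.toSubmodule, fun a v hv => by
      obtain ⟨b, hb⟩ := h a
      rw [← hb]
      exact W.apply_mem_toSubmodule b hv⟩
    rcases hρ.eq_bot_or_eq_top W' with h1 | h1
    · left
      refine Subrepresentation.toSubmodule_injective ?_
      rw [hbot]
      have h2 := congrArg Subrepresentation.toSubmodule h1
      rw [hbot'] at h2
      exact h2
    · right
      refine Subrepresentation.toSubmodule_injective ?_
      rw [htop]
      have h2 := congrArg Subrepresentation.toSubmodule h1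
      rw [htop'] at h2
      exact h2

/-- Irreducible representations with the same character are intertwined by an invertible operator. -/
private lemma a18_equiv {A V : Type*} [Group A] [Finite A] [AddCommGroup V] [Module ℂ V] [FiniteDimensional ℂ V]
    (ρ σ : Representation ℂ A V) (hρ : ρ.IsIrreducible) (hσ : σ.IsIrreducible) (h : ρ.character = σ.character) :
    ∃ X : V ≃ₗ[ℂ] V, ∀ a v, X (ρ a v) = σ a (X v) := by
  have : Fintype A := Fintype.ofFinite A
  have hne : (Nat.card A : ℂ) ≠ 0 := by exact_mod_cast Nat.card_pos.ne'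
  have : Invertible (Nat.card A : ℂ) := invertibleOfNonzero hne
  have h1 := Representation.char_orthonormal ρ ρ
  have h2 := Representation.char_orthonormal σ ρ
  rw [if_pos ⟨Representation.Equiv.refl ρ⟩] at h1
  rw [← h, h1] at h2
  by_cases hn : Nonempty (Representation.Equiv ρ σ)
  · obtain ⟨e⟩ := hn
    refine ⟨e.toLinearEquiv, fun a v => ?_⟩
    exact LinearMap.congr_fun (e.isIntertwining' a) v
  · rw [if_neg hn] at h2
    exact absurd h2 one_ne_zero

variable {G : Type*} [Group G] [Fintype G]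

/-- Extension over a cyclic quotient. `g` normalises `N`, `T = N⟨g⟩`, `φ ∈ Irr N` is `g`-invariant: `φ` extends to `T`.
Proof. Let `ρ : Representation ℂ N V` be irreducible with character `φ`. `n ↦ ρ (g n g⁻¹)` has the same character, so the two representations are equivalent
(`Representation.char_orthonormal` or `A04`): there is an invertible `X : V → V` with `X ρ(n) X⁻¹ = ρ(g n g⁻¹)`. Let `k` be the least positive integer with
`g ^ k ∈ N`. `ρ(g^k)⁻¹ X^k` commutes with `ρ(N)`, so it is a scalar `c ≠ 0` (Schur); replace `X` by a scalar multiple: `X ^ k = ρ (g ^ k)`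
(a `k`-th root of `c` exists in `ℂ`). Every `t ∈ T` is `n * g ^ i`, `0 ≤ i < k`, uniquely; define `σ (n * g ^ i) = ρ n * X ^ i`; multiplicativity: `X ρ(n) = ρ(g n g⁻¹) X` and
`X ^ k = ρ (g ^ k)`. `σ` is irreducible because its restriction to `N` is. -/
theorem ext_cyclic {N T : Subgroup G} {g : G} (hg : Nz g N) (hT : T = N ⊔ Subgroup.zpowers g) {φ : G → ℂ} (hφ : φ ∈ IrrS N)
    (hinv : cj g φ = φ) : ∃ ψ ∈ IrrS T, ∀ x ∈ N, ψ x = φ x := by
  obtain ⟨hφ0, n, ρ, hρ, hχ⟩ := hφ
  -- conjugation by `g` on `N`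
  let α : N →* N :=
    { toFun := fun x => ⟨g * x * g⁻¹, (hg x).mp x.2⟩
      map_one' := Subtype.ext (by simp)
      map_mul' := fun a b => Subtype.ext (by simp only [Subgroup.coe_mul]; group) }
  have hα : ∀ x : N, ((α x : N) : G) = g * x * g⁻¹ := fun x => rfl
  have hαs : ∀ y : N, ∃ x : N, α x = y := by
    intro y
    refine ⟨⟨g⁻¹ * y * g, ?_⟩, Subtype.ext ?_⟩
    · rw [hg]
      have : g * (g⁻¹ * (y : G) * g) * g⁻¹ = y := by group
      rw [this]; exact y.2
    · rw [hα]; group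
  let ρ' : Representation ℂ N (Fin n → ℂ) := ρ.comp α
  have hρ'x : ∀ x, ρ' x = ρ (α x) := fun x => rfl
  have hρ' : ρ'.IsIrreducible := by
    refine a18_irr ρ hρ ρ' fun y => ?_
    obtain ⟨x, hx⟩ := hαs y
    exact ⟨x, by rw [hρ'x, hx]⟩
  have hchar : ρ.character = ρ'.character := by
    funext x
    have h1 : ρ'.character x = ρ.character (α x) := rfl
    rw [h1, hχ]
    change φ x = φ (g * x * g⁻¹)
    have h2 := congrFun hinv (g * x * g⁻¹)
    rw [← h2]
    change φ x = φ (g⁻¹ * (g * x * g⁻¹) * g)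
    congr 1
    group
  obtain ⟨X, hX⟩ := a18_equiv ρ ρ' hρ hρ' hchar
  -- the least positive power of `g` in `N`
  have hex : ∃ k : ℕ, 0 < k ∧ g ^ k ∈ N := ⟨orderOf g, orderOf_pos g, by rw [pow_orderOf_eq_one]; exact N.one_mem⟩
  obtain ⟨k, ⟨hk0, hkN⟩, hkmin⟩ : ∃ k : ℕ, (0 < k ∧ g ^ k ∈ N) ∧ ∀ m : ℕ, 0 < m → g ^ m ∈ N → k ≤ m :=
    ⟨Nat.find hex, Nat.find_spec hex, fun m h1 h2 => Nat.find_min' hex ⟨h1, h2⟩⟩
  have hkdvd : ∀ m : ℕ, g ^ m ∈ N → k ∣ m := by
    intro m hm
    by_contra hnd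
    have h1 : 0 < m % k := Nat.pos_of_ne_zero fun h => hnd (Nat.dvd_of_mod_eq_zero h)
    have h2 : g ^ (m % k) ∈ N := by
      have h3 : g ^ m = (g ^ k) ^ (m / k) * g ^ (m % k) := by
        rw [← pow_mul, ← pow_add, Nat.div_add_mod]
      have h4 : g ^ (m % k) = ((g ^ k) ^ (m / k))⁻¹ * g ^ m := by rw [h3, inv_mul_cancel_left]
      rw [h4]
      exact N.mul_mem (N.inv_mem (N.pow_mem hkN _)) hm
    exact absurd (hkmin _ h1 h2) (not_le.mpr (Nat.mod_lt _ hk0))
  -- powers
  have hgi : ∀ i : ℕ, ∀ x ∈ N, g ^ i * x * (g ^ i)⁻¹ ∈ N := by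
    intro i
    induction i with
    | zero => intro x hx; simpa using hx
    | succ i ih =>
      intro x hx
      have h1 := (hg _).mp (ih x hx)
      have h2 : g ^ (i + 1) * x * (g ^ (i + 1))⁻¹ = g * (g ^ i * x * (g ^ i)⁻¹) * g⁻¹ := by
        rw [pow_succ']; group
      rw [h2]; exact h1
  have key : ∀ Z : Module.End ℂ (Fin n → ℂ), (∀ x : N, Z * ρ x = ρ (α x) * Z) →
      ∀ (i : ℕ) (x : N), Z ^ i * ρ x = ρ ⟨g ^ i * x * (g ^ i)⁻¹, hgi i x x.2⟩ * Z ^ i := by
    intro Z hZ i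
    induction i with
    | zero =>
      intro x
      have h1 : (⟨g ^ 0 * (x : G) * (g ^ 0)⁻¹, hgi 0 x x.2⟩ : N) = x := Subtype.ext (by simp)
      rw [h1, pow_zero, one_mul, mul_one]
    | succ i ih =>
      intro x
      have h1 : (⟨g ^ (i + 1) * (x : G) * (g ^ (i + 1))⁻¹, hgi (i + 1) x x.2⟩ : N) =
          α ⟨g ^ i * x * (g ^ i)⁻¹, hgi i x x.2⟩ := Subtype.ext (by
        rw [hα]
        change g ^ (i + 1) * (x : G) * (g ^ (i + 1))⁻¹ = g * (g ^ i * x * (g ^ i)⁻¹) * g⁻¹
        rw [pow_succ']; group)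
      rw [h1, pow_succ', mul_assoc, ih, ← mul_assoc, hZ, mul_assoc]
  have hX1 : ∀ x : N, (X : Module.End ℂ (Fin n → ℂ)) * ρ x = ρ (α x) * (X : Module.End ℂ (Fin n → ℂ)) := fun x =>
    LinearMap.ext fun v => hX x v
  set b : N := ⟨g ^ k, hkN⟩ with hb
  -- the scalar
  obtain ⟨c, hc⟩ : ∃ c : ℂ, (X : Module.End ℂ (Fin n → ℂ)) ^ k = c • ρ b := by
    have hS : ∀ x : N, (ρ b⁻¹ * (X : Module.End ℂ (Fin n → ℂ)) ^ k) * ρ x = ρ x * (ρ b⁻¹ * (X : Module.End ℂ (Fin n → ℂ)) ^ k) := by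
      intro x
      rw [mul_assoc, key _ hX1 k x, ← mul_assoc, ← mul_assoc, ← map_mul, ← map_mul]
      congr 2
      refine Subtype.ext ?_
      change (g ^ k)⁻¹ * (g ^ k * (x : G) * (g ^ k)⁻¹) = x * (g ^ k)⁻¹
      group
    let f : Representation.IntertwiningMap ρ ρ := ⟨ρ b⁻¹ * (X : Module.End ℂ (Fin n → ℂ)) ^ k, fun x => hS x⟩
    obtain ⟨c, hc⟩ := (Representation.IsIrreducible.algebraMap_intertwiningMap_bijective_of_isAlgClosed
      (ρ := ρ)).2 f
    refine ⟨c, ?_⟩
    have h1 : ρ b⁻¹ * (X : Module.End ℂ (Fin n → ℂ)) ^ k = c • 1 := by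
      have h2 := congrArg Representation.IntertwiningMap.toLinearMap hc
      exact h2.symm
    have h2 : (X : Module.End ℂ (Fin n → ℂ)) ^ k = ρ b * (ρ b⁻¹ * (X : Module.End ℂ (Fin n → ℂ)) ^ k) := by
      rw [← mul_assoc, ← map_mul, mul_inv_cancel, map_one, one_mul]
    rw [h2, h1, mul_smul_comm, mul_one]
  have hnt : Nontrivial (Fin n → ℂ) := by
    by_contra h
    rw [not_nontrivial_iff_subsingleton] at h
    refine hρ.bot_ne_top (Subrepresentation.toSubmodule_injective ?_)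
    exact Subsingleton.elim _ _
  have hc0 : c ≠ 0 := by
    intro h
    rw [h, zero_smul] at hc
    have h1 : IsUnit ((X : Module.End ℂ (Fin n → ℂ)) ^ k) := by
      refine IsUnit.pow k ?_
      exact (Module.End.isUnit_iff _).mpr X.bijective
    rw [hc] at h1
    exact not_isUnit_zero h1
  obtain ⟨d, hd⟩ := IsAlgClosed.exists_pow_nat_eq (c⁻¹) hk0
  set Y : Module.End ℂ (Fin n → ℂ) := d • (X : Module.End ℂ (Fin n → ℂ)) with hY
  have hYk : Y ^ k = ρ b := by
    rw [hY, smul_pow, hc, hd, smul_smul, inv_mul_cancel₀ hc0, one_smul]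
  have hY1 : ∀ x : N, Y * ρ x = ρ (α x) * Y := by
    intro x
    rw [hY, smul_mul_assoc, hX1, mul_smul_comm]
  have hYm : ∀ (m : ℕ) (hm : g ^ m ∈ N), Y ^ m = ρ ⟨g ^ m, hm⟩ := by
    intro m hm
    obtain ⟨l, rfl⟩ := hkdvd m hm
    rw [pow_mul, hYk, ← map_pow]
    congr 1
    exact Subtype.ext (by rw [Subgroup.coe_pow, hb, ← pow_mul])
  -- well defined
  have hwd0 : ∀ (x y : N) (i j : ℕ), i ≤ j → (x : G) * g ^ i = y * g ^ j → ρ x * Y ^ i = ρ y * Y ^ j := by
    intro x y i j hij h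
    obtain ⟨m, rfl⟩ := Nat.exists_eq_add_of_le hij
    have h1 : g ^ m = (y : G)⁻¹ * x := by
      rw [add_comm, pow_add, ← mul_assoc] at h
      have h2 := mul_right_cancel h
      rw [h2, inv_mul_cancel_left]
    have hm : g ^ m ∈ N := by rw [h1]; exact N.mul_mem (N.inv_mem y.2) x.2
    rw [add_comm, pow_add, hYm m hm, ← mul_assoc, ← map_mul]
    congr 2
    refine Subtype.ext ?_
    change (x : G) = y * g ^ m
    rw [h1, mul_inv_cancel_left]
  have hwd : ∀ (x y : N) (i j : ℕ), (x : G) * g ^ i = y * g ^ j → ρ x * Y ^ i = ρ y * Y ^ j := by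
    intro x y i j h
    rcases le_total i j with hij | hij
    · exact hwd0 x y i j hij h
    · exact (hwd0 y x j i hij h.symm).symm
  -- the elements of `T`
  have hTel : ∀ t ∈ T, ∃ (x : N) (i : ℕ), t = x * g ^ i := by
    let S : Subgroup G :=
      { carrier := {t | ∃ (x : N) (i : ℕ), t = x * g ^ i}
        mul_mem' := by
          rintro _ _ ⟨x, i, rfl⟩ ⟨y, j, rfl⟩
          refine ⟨x * ⟨g ^ i * y * (g ^ i)⁻¹, hgi i y y.2⟩, i + j, ?_⟩
          rw [Subgroup.coe_mul, pow_add]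
          group
        one_mem' := ⟨1, 0, by simp⟩
        inv_mem' := by
          rintro _ ⟨x, i, rfl⟩
          have h1 : (g ^ i)⁻¹ = g ^ ((orderOf g - 1) * i) := by
            refine inv_eq_of_mul_eq_one_left ?_
            rw [← pow_add]
            have h2 : (orderOf g - 1) * i + i = orderOf g * i := by
              have h3 : orderOf g - 1 + 1 = orderOf g := Nat.sub_add_cancel (orderOf_pos g)
              calc (orderOf g - 1) * i + i = (orderOf g - 1 + 1) * i := by ring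
                _ = orderOf g * i := by rw [h3]
            rw [h2, pow_mul, pow_orderOf_eq_one, one_pow]
          refine ⟨⟨g ^ ((orderOf g - 1) * i) * (x : G)⁻¹ * (g ^ ((orderOf g - 1) * i))⁻¹, hgi _ _ (N.inv_mem x.2)⟩,
            (orderOf g - 1) * i, ?_⟩
          rw [mul_inv_rev, h1]
          change _ = g ^ ((orderOf g - 1) * i) * (x : G)⁻¹ * (g ^ ((orderOf g - 1) * i))⁻¹ * g ^ ((orderOf g - 1) * i)
          rw [inv_mul_cancel_right] }
    have hTS : T ≤ S := by
      rw [hT]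
      refine sup_le (fun x hx => ⟨⟨x, hx⟩, 0, by simp⟩) ?_
      rw [Subgroup.zpowers_le]
      exact ⟨1, 1, by simp⟩
    exact fun t ht => hTS ht
  choose! ex ei he using hTel
  let σ : Representation ℂ T (Fin n → ℂ) :=
    { toFun := fun t => ρ (ex t) * Y ^ (ei t)
      map_one' := by
        have h1 := hwd (ex ((1 : T) : G)) 1 (ei ((1 : T) : G)) 0 (by rw [← he _ (1 : T).2]; simp)
        rw [h1, map_one, pow_zero, one_mul]
      map_mul' := fun s t => by
        have h1 : ρ (ex s) * Y ^ (ei s) * (ρ (ex t) * Y ^ (ei t)) =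
            ρ (ex s * ⟨g ^ (ei s) * (ex t : G) * (g ^ (ei s))⁻¹, hgi _ _ (ex t).2⟩) * Y ^ (ei s + ei t) := by
          have h2 := key Y hY1 (ei (s : G)) (ex (t : G))
          calc ρ (ex s) * Y ^ (ei s) * (ρ (ex t) * Y ^ (ei t))
              = ρ (ex s) * (Y ^ (ei s) * ρ (ex t)) * Y ^ (ei t) := by simp only [mul_assoc]
            _ = ρ (ex s) * (ρ ⟨g ^ (ei s) * (ex t : G) * (g ^ (ei s))⁻¹, hgi _ _ (ex t).2⟩ * Y ^ (ei s)) * Y ^ (ei t) := by
              rw [h2]
            _ = _ := by rw [map_mul, pow_add]; simp only [mul_assoc]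
        rw [h1]
        refine hwd _ _ _ _ ?_
        rw [← he _ (s * t).2, Subgroup.coe_mul, Subgroup.coe_mul]
        change (s : G) * t = (ex s) * (g ^ (ei s) * (ex t : G) * (g ^ (ei s))⁻¹) * g ^ (ei s + ei t)
        rw [pow_add]
        calc (s : G) * t = ((ex s : G) * g ^ (ei s)) * ((ex t : G) * g ^ (ei t)) := by rw [← he _ s.2, ← he _ t.2]
          _ = _ := by group }
  have hσ : ∀ t : T, σ t = ρ (ex t) * Y ^ (ei t) := fun t => rfl
  have hNT : N ≤ T := by rw [hT]; exact le_sup_left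
  have hσN : ∀ (x : G) (hx : x ∈ N), σ ⟨x, hNT hx⟩ = ρ ⟨x, hx⟩ := by
    intro x hx
    rw [hσ]
    have h1 := hwd (ex x) ⟨x, hx⟩ (ei x) 0 (by rw [← he _ (hNT hx)]; simp)
    rw [pow_zero, mul_one] at h1
    exact h1
  have hσi : σ.IsIrreducible := a18_irr ρ hρ σ fun x => ⟨⟨x, hNT x.2⟩, hσN x x.2⟩
  refine ⟨fun t => if h : t ∈ T then σ.character ⟨t, h⟩ else 0, ⟨fun t ht => dif_neg ht, n, σ, hσi, ?_⟩, ?_⟩
  · funext t
    change σ.character t = if h : (t : G) ∈ T then σ.character ⟨t, h⟩ else 0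
    rw [dif_pos t.2]
  · intro x hx
    change (if h : x ∈ T then σ.character ⟨x, h⟩ else 0) = φ x
    rw [dif_pos (hNT hx)]
    have h1 := congrFun hχ ⟨x, hx⟩
    change ρ.character ⟨x, hx⟩ = φ x at h1
    rw [← h1]
    change LinearMap.trace ℂ _ (σ ⟨x, hNT hx⟩) = LinearMap.trace ℂ _ (ρ ⟨x, hx⟩)
    rw [hσN]

end Pool.Agent.Lib.H90Q
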