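import Pool.Agent.Lib.H90Q.A17
import Pool.Agent.Lib.H90Q.A18
import Pool.Agent.Lib.H90Q.B0

open scoped Classical ComplexConjugate BigOperators

noncomputable section

namespace Pool.Agent.Lib.H90Q

variable {G : Type*} [Group G] [Fintype G]

private theorem A19_gen {N T T₁ : Subgroup G} {g : G} (hg : Nz g N) (hT : T = N ⊔ Subgroup.zpowers g) (h1 : N ≤ T₁)
    (h2 : T₁ ≤ T) : ∃ g₁ ∈ T₁, T₁ = N ⊔ Subgroup.zpowers g₁ := by
  obtain ⟨x, hx⟩ := (inferInstance : IsCyclic ((T₁.subgroupOf (Subgroup.zpowers g)) : Subgroup _)).exists_generator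
  have hxT : ((x : Subgroup.zpowers g) : G) ∈ T₁ := x.2
  refine ⟨((x : Subgroup.zpowers g) : G), hxT, le_antisymm ?_ ?_⟩
  · intro t ht
    have ht2 : t ∈ N ⊔ Subgroup.zpowers g := hT ▸ h2 ht
    obtain ⟨n, hn, z, hz, rfl⟩ := (mem_sup_nz (nz_zpowers hg)).1 ht2
    have hzT : z ∈ T₁ := by
      have := T₁.mul_mem (T₁.inv_mem (h1 hn)) ht
      rwa [inv_mul_cancel_left] at this
    obtain ⟨k, hk⟩ := Subgroup.mem_zpowers_iff.1 (hx ⟨⟨z, hz⟩, hzT⟩)
    have hk' : (((x : Subgroup.zpowers g) : G)) ^ k = z := by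
      have := congrArg (fun y : (T₁.subgroupOf (Subgroup.zpowers g)) => ((y : Subgroup.zpowers g) : G)) hk
      simpa using this
    exact Subgroup.mul_mem _ (Subgroup.mem_sup_left hn)
      (Subgroup.mem_sup_right (Subgroup.mem_zpowers_iff.2 ⟨k, hk'⟩))
  · exact sup_le h1 ((Subgroup.zpowers_le).2 hxT)

/-- Cyclic quotient: the restriction is multiplicity free. `T = N⟨g⟩`.
Proof: `T₁ = stS T θ`; `T₁/N` is cyclic, generated by some `g₁ = g ^ i` with `T₁ = N⟨g₁⟩`. `χ` on `T₁` has a constituent `α` over `θ` (`over_split`), and `θ` extends to `θ₁ ∈ Irr T₁`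
(`ext_cyclic`); by `abel_trans` (`T₁/N` abelian) `α = l * θ₁`, so `α 1 = θ 1`. `χ` is a constituent of `ind T₁ T α`, which has degree `|T : T₁| θ 1`
(`ind_one`), so `χ 1 ≤ |T : T₁| θ 1`. With `clifford_degree`: `χ 1 * |T₁ : N| = e |T : N| θ 1`, i.e. `χ 1 = e |T : T₁| θ 1`. So `e = 1`. -/
theorem cyclic_mult_one {N T : Subgroup G} {g : G} (hg : Nz g N) (hT : T = N ⊔ Subgroup.zpowers g) {χ θ : G → ℂ} (hχ : χ ∈ IrrS T) (hθ : θ ∈ IrrS N)
    (h : Over N χ θ) : mu N χ θ = 1 := by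
  have hNT : N ≤ T := hT ▸ le_sup_left
  have hn : ∀ t ∈ T, Nz t N := by
    intro t ht
    exact nz_sup (nz_zpowers hg) t (hT ▸ ht)
  have hab := comm_cyclic hg hT
  have hcf : IsCF N θ := cf_charS (charS_of_irrS hθ)
  obtain ⟨T₁, hT₁⟩ : ∃ T₁, T₁ = stS T θ := ⟨_, rfl⟩
  have hNT1 : N ≤ T₁ := hT₁ ▸ A16_le_stS hNT hcf
  have hT1T : T₁ ≤ T := by
    intro t ht
    rw [hT₁, mem_stS] at ht
    exact ht.1
  obtain ⟨g₁, hg₁, hgen⟩ := A19_gen hg hT hNT1 hT1T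
  have hinv : cj g₁ θ = θ := by
    have h1 := hg₁
    rw [hT₁, mem_stS] at h1
    exact h1.2
  obtain ⟨θ₁, hθ₁, hres⟩ := ext_cyclic (hn g₁ (hT1T hg₁)) hgen hθ hinv
  have hover : Over N θ₁ θ := by
    have h1 : ip N θ₁ θ = ip N θ θ := ip_congr N (fun x hx => hres x hx) (fun _ _ => rfl)
    unfold Over
    rw [h1, irrS_ortho hθ hθ, if_pos rfl]
    exact one_ne_zero
  obtain ⟨α, hα, h1, h2⟩ := over_split hNT1 hT1T hχ hθ h
  obtain ⟨l, hl, hαl⟩ := abel_trans hNT1 (fun a ha b hb => hab a (hT1T ha) b (hT1T hb)) hθ₁ hα hθ hover h2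
  have hα1 : α 1 = θ 1 := by
    rw [hαl, Pi.mul_apply, lin_one hl, one_mul, hres 1 N.one_mem]
  have hαcf : IsCF T₁ α := cf_charS (charS_of_irrS hα)
  have hindc : ind T₁ T α ∈ CharS T := ind_charS hT1T (charS_of_irrS hα)
  have hmuc : (mu T (ind T₁ T α) χ : ℂ) = ip T₁ α χ := by
    rw [mu_spec le_rfl hindc hχ, frob hT1T hαcf (cf_charS (charS_of_irrS hχ))]
  have hmu1 : 1 ≤ mu T (ind T₁ T α) χ := by
    rcases Nat.eq_zero_or_pos (mu T (ind T₁ T α) χ) with h0 | h0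
    · exfalso
      rw [h0, Nat.cast_zero] at hmuc
      apply h1
      rw [ip_conj T₁ α χ, ← hmuc, map_zero]
    · exact h0
  -- degrees
  have hdeg : ∀ φ ∈ irr T, ∃ n : ℕ, 0 < n ∧ φ 1 = n := fun φ hφ => irrS_one (mem_irr.1 hφ)
  obtain ⟨x1, hx1, hχ1⟩ := irrS_one hχ
  obtain ⟨t1, ht1, hθ1⟩ := irrS_one hθ
  have hexp : ind T₁ T α 1 = ∑ φ ∈ irr T, (mu T (ind T₁ T α) φ : ℂ) * φ 1 := by
    have h3 := congrFun (charS_expand' hindc) 1
    rw [h3, Finset.sum_apply]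
    rfl
  choose! dg hdg0 hdg using hdeg
  have hexp2 : (T₁.relIndex T : ℕ) * t1 = ∑ φ ∈ irr T, mu T (ind T₁ T α) φ * dg φ := by
    have h4 : ((T₁.relIndex T * t1 : ℕ) : ℂ) = ((∑ φ ∈ irr T, mu T (ind T₁ T α) φ * dg φ : ℕ) : ℂ) := by
      push_cast
      rw [← hθ1, ← hα1, ← ind_one hT1T hαcf, hexp]
      exact Finset.sum_congr rfl fun φ hφ => by rw [hdg φ hφ]
    exact_mod_cast h4
  have hχdg : dg χ = x1 := by
    have h5 := hdg χ (mem_irr.2 hχ)
    rw [hχ1] at h5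
    exact_mod_cast h5.symm
  have hle : x1 ≤ T₁.relIndex T * t1 := by
    rw [hexp2]
    calc x1 = 1 * dg χ := by rw [hχdg, one_mul]
      _ ≤ mu T (ind T₁ T α) χ * dg χ := Nat.mul_le_mul_right _ hmu1
      _ ≤ ∑ φ ∈ irr T, mu T (ind T₁ T α) φ * dg φ :=
          Finset.single_le_sum (f := fun φ => mu T (ind T₁ T α) φ * dg φ) (fun _ _ => Nat.zero_le _)
            (mem_irr.2 hχ)
  have hcd := clifford_degree hNT hn hχ hθ h
  rw [← hT₁, hχ1, hθ1] at hcd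
  have hcd' : x1 * N.relIndex T₁ = mu N χ θ * N.relIndex T * t1 := by exact_mod_cast hcd
  have hidx : N.relIndex T₁ * T₁.relIndex T = N.relIndex T := Subgroup.relIndex_mul_relIndex N T₁ T hNT1 hT1T
  have hpos1 : 0 < N.relIndex T₁ := by
    have h6 := A15_relIndex hNT1
    have h7 : 0 < Nat.card T₁ := Nat.card_pos
    rcases Nat.eq_zero_or_pos (N.relIndex T₁) with h8 | h8
    · rw [h8, mul_zero] at h6
      omega
    · exact h8
  have hpos2 : 0 < T₁.relIndex T := by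
    have h6 := A15_relIndex hT1T
    have h7 : 0 < Nat.card T := Nat.card_pos
    rcases Nat.eq_zero_or_pos (T₁.relIndex T) with h8 | h8
    · rw [h8, mul_zero] at h6
      omega
    · exact h8
  have he1 : 0 < mu N χ θ := (A15_over_iff hNT (charS_of_irrS hχ) hθ).1 h
  have he2 : mu N χ θ ≤ 1 := by
    have h9 : mu N χ θ * (N.relIndex T₁ * T₁.relIndex T * t1) ≤ 1 * (N.relIndex T₁ * T₁.relIndex T * t1) := by
      calc mu N χ θ * (N.relIndex T₁ * T₁.relIndex T * t1) = x1 * N.relIndex T₁ := by rw [hcd', ← hidx]; ring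
        _ ≤ (T₁.relIndex T * t1) * N.relIndex T₁ := Nat.mul_le_mul_right _ hle
        _ = 1 * (N.relIndex T₁ * T₁.relIndex T * t1) := by ring
    exact Nat.le_of_mul_le_mul_right h9 (by positivity)
  omega

/-- Hence for a cyclic quotient `#Irr(T|θ) = |T_θ : N|`. (`abel_count`; commutators of `T` lie in `N`.) -/
theorem cyclic_count {N T : Subgroup G} {g : G} (hg : Nz g N) (hT : T = N ⊔ Subgroup.zpowers g) {θ : G → ℂ} (hθ : θ ∈ IrrS N) :
    (irrOver T N θ).card = N.relIndex (stS T θ) := by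
  have hNT : N ≤ T := hT ▸ le_sup_left
  have hn : ∀ t ∈ T, Nz t N := by
    intro t ht
    exact nz_sup (nz_zpowers hg) t (hT ▸ ht)
  have hab := comm_cyclic hg hT
  obtain ⟨χ, hχ⟩ := irrOver_nonempty hNT hθ
  obtain ⟨hχ1, hχ2⟩ := mem_irrOver.1 hχ
  have h1 := abel_count hNT hn hab hχ1 hθ hχ2
  rw [cyclic_mult_one hg hT hχ1 hθ hχ2, one_pow, one_mul] at h1
  exact h1

end Pool.Agent.Lib.H90Q
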