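import Pool.Agent.Lib.H90Q.B0

open scoped Classical ComplexConjugate BigOperators

noncomputable section

namespace Pool.Agent.Lib.H90Q

variable {G : Type*} [Group G] [Fintype G]

/-- `M` a `p'`-subgroup normalised by `z` of `p`-power order, `D = C_M(z)`, `j` prime to `p`. If `m⁻¹ (z^j d) m = z^j d'` with `m ∈ M`, `d, d' ∈ D`, then `m ∈ D`.
Proof: choose `n` with `n ≡ 1 mod p^a`, `n ≡ 0 mod |M|` (`Nat.chineseRemainder`) and take `n`-th powers: `(z^j d)^n = z^j` because `z` and `d` commute. So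
`m` commutes with `z ^ j`, hence with `z` (a power of `z ^ j`). -/
theorem coset_fibre {p : ℕ} [Fact p.Prime] {M : Subgroup G} (hM : ¬ p ∣ Nat.card M) {z : G} {a : ℕ} (hq : z ^ (p ^ a) = 1)
    {j : ℕ} (hj : j.Coprime p) {m d d' : G} (hm : m ∈ M) (hd : d ∈ CM M {z}) (hd' : d' ∈ CM M {z}) (h : m⁻¹ * (z ^ j * d) * m = z ^ j * d') :
    m ∈ CM M {z} := by
  have hp : p.Prime := Fact.out
  have hcop : Nat.Coprime (p ^ a) (Nat.card M) := Nat.Coprime.pow_left a (hp.coprime_iff_not_dvd.2 hM)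
  obtain ⟨n, hn1, hn2⟩ := Nat.chineseRemainder hcop 1 0
  have hzn : z ^ n = z := by
    have h1 : z ^ n = z ^ 1 :=
      pow_eq_pow_iff_modEq.2 (hn1.of_dvd (orderOf_dvd_of_pow_eq_one hq))
    rwa [pow_one] at h1
  have hMn : Nat.card M ∣ n := (Nat.modEq_zero_iff_dvd).1 hn2
  have hxn : ∀ x ∈ M, x ^ n = 1 := by
    intro x hx
    exact orderOf_dvd_iff_pow_eq_one.1 ((Subgroup.orderOf_dvd_natCard M hx).trans hMn)
  have hpow : ∀ x ∈ CM M {z}, (z ^ j * x) ^ n = z ^ j := by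
    intro x hx
    obtain ⟨hxM, hxz⟩ := mem_CM_single.1 hx
    have hc : Commute (z ^ j) x := by
      have : Commute z x := hxz.symm
      exact this.pow_left j
    rw [hc.mul_pow, hxn x hxM, mul_one, ← pow_mul, mul_comm j n, pow_mul, hzn]
  have h1 := congrArg (fun y => y ^ n) h
  have h2 : (m⁻¹ * (z ^ j * d) * m) ^ n = m⁻¹ * (z ^ j * d) ^ n * m := by
    have h3 := conj_pow (i := n) (a := m⁻¹) (b := z ^ j * d)
    rw [inv_inv] at h3
    exact h3
  simp only [h2] at h1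
  rw [hpow d hd, hpow d' hd'] at h1
  -- `m` commutes with `z ^ j`
  have hc : Commute (z ^ j) m := by
    have h3 : z ^ j * m = m * z ^ j := by
      calc z ^ j * m = m * (m⁻¹ * z ^ j * m) := by group
        _ = m * z ^ j := by rw [h1]
    exact h3
  have hcop2 : Nat.gcd j (p ^ a) = 1 := Nat.Coprime.pow_right a hj
  have hz : z = (z ^ j) ^ (Nat.gcdA j (p ^ a)) := by
    have h3 := Nat.gcd_eq_gcd_ab j (p ^ a)
    rw [hcop2] at h3
    calc z = z ^ (((1 : ℕ) : ℤ)) := by simp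
      _ = z ^ ((j : ℤ) * Nat.gcdA j (p ^ a) + ((p ^ a : ℕ) : ℤ) * Nat.gcdB j (p ^ a)) := by
        rw [h3]
      _ = (z ^ j) ^ (Nat.gcdA j (p ^ a)) := by
        rw [zpow_add, zpow_mul, zpow_mul, zpow_natCast, zpow_natCast, hq, one_zpow, mul_one]
  refine mem_CM_single.2 ⟨hm, ?_⟩
  have h4 : Commute z m := by
    rw [hz]
    exact hc.zpow_left _
  exact h4.symm

private theorem b1_card (H : Subgroup G) :
    Nat.card H = (Finset.univ.filter (fun g : G => g ∈ H)).card :=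
  Nat.subtype_card _ (by simp)

/-- The map `(m, d) ↦ m (z^j d) m⁻¹` from `M × D` to the coset `z^j M` has all non-empty fibres of size `|D|` (`coset_fibre`: `(m, d)`, `(m', d')` have the
same image iff `m' = m c`, `c ∈ D`, `d' = c⁻¹ d c`), so its image has `|M|` elements and is the whole coset. Summing `F` over `M × D` in two ways gives the claim. -/
theorem coset_count {p : ℕ} [Fact p.Prime] {M : Subgroup G} (hM : ¬ p ∣ Nat.card M) {z : G} (hz : Nz z M) {a : ℕ} (hq : z ^ (p ^ a) = 1)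
    {j : ℕ} (hj : j.Coprime p) {F : G → ℂ} (hF : ∀ m ∈ M, ∀ g, F (m * g * m⁻¹) = F g) :
    (Nat.card M : ℂ)⁻¹ * ∑ m : G, (if m ∈ M then F (z ^ j * m) else 0) =
      (Nat.card (CM M {z}) : ℂ)⁻¹ * ∑ d : G, if d ∈ CM M {z} then F (z ^ j * d) else 0 := by
  have hzj : Nz (z ^ j) M := nz_zpowers hz _ (Subgroup.npow_mem_zpowers z j)
  set S : Finset G := Finset.univ.filter (fun g : G => g ∈ M) with hS
  set Dd : Finset G := Finset.univ.filter (fun g : G => g ∈ CM M {z}) with hDd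
  have hmemS : ∀ g, g ∈ S ↔ g ∈ M := fun g => by simp [hS]
  have hmemD : ∀ g, g ∈ Dd ↔ g ∈ CM M {z} := fun g => by simp [hDd]
  set Φ : G × G → G := fun x => x.1 * (z ^ j * x.2) * x.1⁻¹ with hΦ
  set T : Finset G := S.image (fun m => z ^ j * m) with hT
  have hTcard : T.card = S.card := Finset.card_image_of_injective _ (mul_right_injective (z ^ j))
  have hmaps : ∀ x ∈ S ×ˢ Dd, Φ x ∈ T := by
    rintro ⟨m, d⟩ hx
    obtain ⟨hm, hd⟩ := Finset.mem_product.1 hx
    have hm' : m ∈ M := (hmemS m).1 hm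
    have hd' : d ∈ M := (mem_CM_single.1 ((hmemD d).1 hd)).1
    have h1 : (z ^ j)⁻¹ * m * z ^ j ∈ M := by
      rw [hzj]
      have h2 : z ^ j * ((z ^ j)⁻¹ * m * z ^ j) * (z ^ j)⁻¹ = m := by group
      rw [h2]
      exact hm'
    refine Finset.mem_image.2 ⟨(z ^ j)⁻¹ * m * z ^ j * d * m⁻¹, ?_, ?_⟩
    · exact (hmemS _).2 (M.mul_mem (M.mul_mem h1 hd') (M.inv_mem hm'))
    · simp only [hΦ]
      group
  have hfib : ∀ g ∈ T, ((S ×ˢ Dd).filter (fun x => Φ x = g)).card ≤ Dd.card := by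
    intro g _
    rcases ((S ×ˢ Dd).filter (fun x => Φ x = g)).eq_empty_or_nonempty with h0 | ⟨⟨m0, d0⟩, h0⟩
    · rw [h0]
      simp
    · obtain ⟨h1, h2⟩ := Finset.mem_filter.1 h0
      obtain ⟨hm0, hd0⟩ := Finset.mem_product.1 h1
      have hm0' : m0 ∈ M := (hmemS m0).1 hm0
      have hd0' := (hmemD d0).1 hd0
      have key : ∀ x ∈ (S ×ˢ Dd).filter (fun x => Φ x = g),
          (m0⁻¹ * x.1)⁻¹ * (z ^ j * d0) * (m0⁻¹ * x.1) = z ^ j * x.2 := by
        rintro ⟨m', d'⟩ hx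
        obtain ⟨-, h4⟩ := Finset.mem_filter.1 hx
        have h5 : m' * (z ^ j * d') * m'⁻¹ = m0 * (z ^ j * d0) * m0⁻¹ := h4.trans h2.symm
        calc (m0⁻¹ * m')⁻¹ * (z ^ j * d0) * (m0⁻¹ * m')
            = m'⁻¹ * (m0 * (z ^ j * d0) * m0⁻¹) * m' := by group
          _ = m'⁻¹ * (m' * (z ^ j * d') * m'⁻¹) * m' := by rw [h5]
          _ = z ^ j * d' := by group
      refine Finset.card_le_card_of_injOn (fun x => m0⁻¹ * x.1) ?_ ?_
      · rintro ⟨m', d'⟩ hx
        have hx' : (m', d') ∈ (S ×ˢ Dd).filter (fun x => Φ x = g) := hx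
        obtain ⟨h3, -⟩ := Finset.mem_filter.1 hx'
        obtain ⟨hm', hd'⟩ := Finset.mem_product.1 h3
        have h6 := coset_fibre hM hq hj (M.mul_mem (M.inv_mem hm0') ((hmemS m').1 hm')) hd0'
          ((hmemD d').1 hd') (key _ hx')
        exact Finset.mem_coe.2 ((hmemD _).2 h6)
      · rintro x hx y hy hxy
        have hx' : x ∈ (S ×ˢ Dd).filter (fun x => Φ x = g) := hx
        have hy' : y ∈ (S ×ˢ Dd).filter (fun x => Φ x = g) := hy
        have hxy' : m0⁻¹ * x.1 = m0⁻¹ * y.1 := hxy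
        have h7 := key x hx'
        have h8 := key y hy'
        rw [hxy', h8] at h7
        exact Prod.ext (mul_left_cancel hxy') (mul_left_cancel h7).symm
  have hcount : ∑ g ∈ T, ((S ×ˢ Dd).filter (fun x => Φ x = g)).card = ∑ g ∈ T, Dd.card := by
    rw [← Finset.card_eq_sum_card_fiberwise hmaps, Finset.card_product, Finset.sum_const, hTcard,
      smul_eq_mul]
  have hfib' : ∀ g ∈ T, ((S ×ˢ Dd).filter (fun x => Φ x = g)).card = Dd.card :=
    (Finset.sum_eq_sum_iff_of_le hfib).1 hcount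
  have e1 : ∑ x ∈ S ×ˢ Dd, F (Φ x) = (Dd.card : ℂ) * ∑ m ∈ S, F (z ^ j * m) := by
    rw [← Finset.sum_fiberwise_of_maps_to hmaps]
    have h1 : ∀ g ∈ T, ∑ x ∈ (S ×ˢ Dd).filter (fun x => Φ x = g), F (Φ x) = (Dd.card : ℂ) * F g := by
      intro g hg
      have h2 : ∑ x ∈ (S ×ˢ Dd).filter (fun x => Φ x = g), F (Φ x) =
          ∑ _x ∈ (S ×ˢ Dd).filter (fun x => Φ x = g), F g := by
        refine Finset.sum_congr rfl fun x hx => ?_
        rw [(Finset.mem_filter.1 hx).2]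
      rw [h2, Finset.sum_const, hfib' g hg, nsmul_eq_mul]
    rw [Finset.sum_congr rfl h1, ← Finset.mul_sum, hT,
      Finset.sum_image fun x _ y _ hxy => mul_left_cancel hxy]
  have e2 : ∑ x ∈ S ×ˢ Dd, F (Φ x) = (S.card : ℂ) * ∑ d ∈ Dd, F (z ^ j * d) := by
    rw [Finset.sum_product]
    have h1 : ∀ m ∈ S, ∑ d ∈ Dd, F (Φ (m, d)) = ∑ d ∈ Dd, F (z ^ j * d) := by
      intro m hm
      refine Finset.sum_congr rfl fun d _ => ?_
      exact hF m ((hmemS m).1 hm) _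
    rw [Finset.sum_congr rfl h1, Finset.sum_const, nsmul_eq_mul]
  have hS0 : (S.card : ℂ) ≠ 0 := by
    have : 0 < S.card := Finset.card_pos.2 ⟨1, (hmemS 1).2 M.one_mem⟩
    exact_mod_cast this.ne'
  have hD0 : (Dd.card : ℂ) ≠ 0 := by
    have : 0 < Dd.card := Finset.card_pos.2 ⟨1, (hmemD 1).2 (Subgroup.one_mem _)⟩
    exact_mod_cast this.ne'
  rw [b1_card M, b1_card (CM M {z}), ← Finset.sum_filter, ← Finset.sum_filter, ← hS, ← hDd]
  have e3 := e1.symm.trans e2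
  field_simp
  linear_combination e3

end Pool.Agent.Lib.H90Q
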