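import Mathlib

/-!
Arithmetic of Fourier transforms on `ℤ/q`, `q` a prime power. No group theory here.
-/

open scoped Classical ComplexConjugate BigOperators

noncomputable section

namespace Pool.Agent.Lib.H90Q

/-- `exp (2 π i n / q)` -/
def ze (q n : ℕ) : ℂ := Complex.exp (2 * Real.pi * Complex.I * (n : ℂ) / (q : ℂ))

/-- Fourier transform of `m` (only the values `m 0, …, m (q-1)` count). -/
def vf (q : ℕ) (m : ℕ → ℤ) (i : ℕ) : ℂ := ∑ k ∈ Finset.range q, (m k : ℂ) * ze q (i * k)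

theorem ze_add (q m n : ℕ) : ze q (m + n) = ze q m * ze q n := by
  unfold ze
  rw [← Complex.exp_add]
  congr 1
  push_cast
  ring

theorem ze_self {q : ℕ} (hq : 0 < q) : ze q q = 1 := by
  unfold ze
  have h : (q : ℂ) ≠ 0 := by exact_mod_cast hq.ne'
  rw [mul_div_assoc, div_self h, mul_one]
  exact Complex.exp_two_pi_mul_I

private theorem b3_pow (q n k : ℕ) : ze q (k * n) = ze q n ^ k := by
  unfold ze
  rw [← Complex.exp_nat_mul]
  congr 1
  push_cast
  ring

theorem ze_mod {q : ℕ} (hq : 0 < q) (n : ℕ) : ze q (n % q) = ze q n := by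
  have h1 : ze q (q * (n / q)) = 1 := by
    rw [mul_comm, b3_pow, ze_self hq, one_pow]
  calc ze q (n % q) = ze q (n % q) * ze q (q * (n / q)) := by rw [h1, mul_one]
    _ = ze q (n % q + q * (n / q)) := (ze_add q _ _).symm
    _ = ze q n := by rw [Nat.mod_add_div]

theorem ze_conj_mul (q n : ℕ) : ze q n * conj (ze q n) = 1 := by
  have h1 : ze q n = Complex.exp (((2 * Real.pi * n / q : ℝ) : ℂ) * Complex.I) := by
    unfold ze
    congr 1
    push_cast
    ring
  rw [Complex.mul_conj, Complex.normSq_eq_norm_sq, h1, Complex.norm_exp_ofReal_mul_I]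
  norm_num

theorem ze_mul_pow (q n k : ℕ) : ze q (k * n) = ze q n ^ k := by
  exact b3_pow q n k

/-- `ze q n = 1` iff `q ∣ n` -/
theorem ze_eq_one_iff {q : ℕ} (hq : 0 < q) (n : ℕ) : ze q n = 1 ↔ q ∣ n := by
  have hq0 : (q : ℂ) ≠ 0 := by exact_mod_cast hq.ne'
  have hpi : (2 * (Real.pi : ℂ) * Complex.I) ≠ 0 := Complex.two_pi_I_ne_zero
  constructor
  · intro h
    unfold ze at h
    rw [Complex.exp_eq_one_iff] at h
    obtain ⟨k, hk⟩ := h
    have h2 : (n : ℂ) = (k : ℂ) * (q : ℂ) := by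
      have h3 : 2 * (Real.pi : ℂ) * Complex.I * (n : ℂ) = (k : ℂ) * (2 * (Real.pi : ℂ) * Complex.I) * (q : ℂ) := by
        rw [← hk]
        field_simp
      have h4 : (2 * (Real.pi : ℂ) * Complex.I) * (n : ℂ) = (2 * (Real.pi : ℂ) * Complex.I) * ((k : ℂ) * (q : ℂ)) := by
        rw [h3]
        ring
      exact mul_left_cancel₀ hpi h4
    have h5 : (n : ℤ) = k * (q : ℤ) := by exact_mod_cast h2
    have h6 : (q : ℤ) ∣ (n : ℤ) := ⟨k, by rw [h5]; ring⟩
    exact_mod_cast h6
  · rintro ⟨k, rfl⟩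
    rw [mul_comm, b3_pow, ze_self hq, one_pow]

/-- all `q`-th roots of unity -/
theorem ze_surj {q : ℕ} (hq : 0 < q) {w : ℂ} (hw : w ^ q = 1) : ∃ k < q, w = ze q k := by
  have : NeZero q := ⟨hq.ne'⟩
  have h1 := Complex.isPrimitiveRoot_exp q hq.ne'
  obtain ⟨i, hi, hw2⟩ := h1.eq_pow_of_pow_eq_one hw
  refine ⟨i, hi, ?_⟩
  rw [← hw2]
  unfold ze
  rw [← Complex.exp_nat_mul]
  congr 1
  ring

/-- `p * q'`-th roots raised to the `p` -/
theorem ze_cancel {p q : ℕ} (hp : 0 < p) (hq : 0 < q) (n : ℕ) : ze (p * q) (p * n) = ze q n := by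
  have hp0 : (p : ℂ) ≠ 0 := by exact_mod_cast hp.ne'
  have hq0 : (q : ℂ) ≠ 0 := by exact_mod_cast hq.ne'
  unfold ze
  congr 1
  push_cast
  field_simp

theorem vf_mod {q : ℕ} (hq : 0 < q) (m : ℕ → ℤ) (i : ℕ) : vf q m (i % q) = vf q m i := by
  unfold vf
  refine Finset.sum_congr rfl (fun k _ => ?_)
  rw [mul_comm (i % q) k, mul_comm i k, b3_pow, b3_pow, ze_mod hq]

/-- Parseval -/
private theorem b3_ze_inj {q : ℕ} (hq : 0 < q) {k l : ℕ} (hk : k < q) (hl : l < q) (h : ze q k = ze q l) : k = l := by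
  have hne : ∀ n, ze q n ≠ 0 := fun n => Complex.exp_ne_zero _
  rcases le_total k l with hkl | hkl
  · have h1 : ze q (k + (l - k)) = ze q k := by rw [Nat.add_sub_cancel' hkl, h]
    rw [ze_add] at h1
    have h2 : ze q (l - k) = 1 := by
      have h3 : ze q k * ze q (l - k) = ze q k * 1 := by rw [h1, mul_one]
      exact mul_left_cancel₀ (hne k) h3
    rw [ze_eq_one_iff hq] at h2
    have h4 : l - k = 0 := Nat.eq_zero_of_dvd_of_lt h2 (by omega)
    omega
  · have h1 : ze q (l + (k - l)) = ze q l := by rw [Nat.add_sub_cancel' hkl, h]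
    rw [ze_add] at h1
    have h2 : ze q (k - l) = 1 := by
      have h3 : ze q l * ze q (k - l) = ze q l * 1 := by rw [h1, mul_one]
      exact mul_left_cancel₀ (hne l) h3
    rw [ze_eq_one_iff hq] at h2
    have h4 : k - l = 0 := Nat.eq_zero_of_dvd_of_lt h2 (by omega)
    omega

private theorem b3_orth {q : ℕ} (hq : 0 < q) {k l : ℕ} (hk : k < q) (hl : l < q) :
    ∑ i ∈ Finset.range q, ze q (i * k) * conj (ze q (i * l)) = if k = l then (q : ℂ) else 0 := by
  have h0 : ∀ i ∈ Finset.range q, ze q (i * k) * conj (ze q (i * l)) = (ze q k * conj (ze q l)) ^ i := by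
    intro i _
    rw [b3_pow, b3_pow, map_pow, mul_pow]
  rw [Finset.sum_congr rfl h0]
  split_ifs with hkl
  · subst hkl
    rw [ze_conj_mul]
    simp
  · have hne : ze q k * conj (ze q l) ≠ 1 := by
      intro h1
      apply hkl
      apply b3_ze_inj hq hk hl
      have h2 := ze_conj_mul q l
      calc ze q k = ze q k * (ze q l * conj (ze q l)) := by rw [h2, mul_one]
        _ = (ze q k * conj (ze q l)) * ze q l := by ring
        _ = ze q l := by rw [h1, one_mul]
    have hpow : (ze q k * conj (ze q l)) ^ q = 1 := by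
      rw [mul_pow, ← map_pow, ← b3_pow, ← b3_pow, mul_comm q k, mul_comm q l, b3_pow, b3_pow, ze_self hq]
      simp
    have hg := mul_geom_sum (ze q k * conj (ze q l)) q
    rw [hpow, sub_self] at hg
    rcases mul_eq_zero.mp hg with h | h
    · exact absurd (sub_eq_zero.mp h) hne
    · exact h

theorem vf_parseval {q : ℕ} (hq : 0 < q) (m : ℕ → ℤ) :
    ∑ i ∈ Finset.range q, Complex.normSq (vf q m i) = q * ∑ k ∈ Finset.range q, (m k : ℝ) ^ 2 := by
  have hC : ((∑ i ∈ Finset.range q, Complex.normSq (vf q m i) : ℝ) : ℂ) = ((q * ∑ k ∈ Finset.range q, (m k : ℝ) ^ 2 : ℝ) : ℂ) := by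
    push_cast
    have h1 : ∀ i ∈ Finset.range q, ((Complex.normSq (vf q m i) : ℝ) : ℂ) =
        ∑ k ∈ Finset.range q, ∑ l ∈ Finset.range q, (m k : ℂ) * (m l : ℂ) * (ze q (i * k) * conj (ze q (i * l))) := by
      intro i _
      rw [← Complex.mul_conj]
      unfold vf
      rw [map_sum, Finset.sum_mul_sum]
      refine Finset.sum_congr rfl (fun k _ => Finset.sum_congr rfl (fun l _ => ?_))
      rw [map_mul, map_intCast]
      ring
    rw [Finset.sum_congr rfl h1, Finset.sum_comm]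
    rw [Finset.mul_sum]
    refine Finset.sum_congr rfl (fun k hk => ?_)
    rw [Finset.sum_comm]
    have h2 : ∀ l ∈ Finset.range q, ∑ i ∈ Finset.range q, (m k : ℂ) * (m l : ℂ) * (ze q (i * k) * conj (ze q (i * l))) =
        if l = k then (q : ℂ) * (m k : ℂ) ^ 2 else 0 := by
      intro l hl
      rw [← Finset.mul_sum, b3_orth hq (Finset.mem_range.mp hk) (Finset.mem_range.mp hl)]
      by_cases hkl : l = k
      · subst hkl
        simp only [if_true]
        ring
      · rw [if_neg (fun h => hkl h.symm), if_neg hkl, mul_zero]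
    rw [Finset.sum_congr rfl h2, Finset.sum_ite_eq' (Finset.range q) k]
    rw [if_pos hk]
  exact_mod_cast hC

/-- Fourier inversion in the form of injectivity -/
theorem vf_inj {q : ℕ} (hq : 0 < q) (m m' : ℕ → ℤ) (h : ∀ i < q, vf q m i = vf q m' i) : ∀ k < q, m k = m' k := by
  have hP := vf_parseval hq (fun k => m k - m' k)
  have h0 : ∀ i ∈ Finset.range q, Complex.normSq (vf q (fun k => m k - m' k) i) = 0 := by
    intro i hi
    have h1 : vf q (fun k => m k - m' k) i = vf q m i - vf q m' i := by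
      unfold vf
      rw [← Finset.sum_sub_distrib]
      refine Finset.sum_congr rfl (fun k _ => ?_)
      push_cast
      ring
    rw [h1, h i (Finset.mem_range.mp hi), sub_self, map_zero]
  rw [Finset.sum_eq_zero h0] at hP
  have hq0 : (q : ℝ) ≠ 0 := by exact_mod_cast hq.ne'
  have h2 : ∑ k ∈ Finset.range q, (((m k - m' k : ℤ)) : ℝ) ^ 2 = 0 := by
    rcases mul_eq_zero.mp hP.symm with h3 | h3
    · exact absurd h3 hq0
    · exact h3
  intro k hk
  have h3 := (Finset.sum_eq_zero_iff_of_nonneg (fun k _ => sq_nonneg _)).mp h2 k (Finset.mem_range.mpr hk)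
  have h4 : (((m k - m' k : ℤ)) : ℝ) = 0 := by
    exact pow_eq_zero_iff (two_ne_zero) |>.mp h3
  have h5 : m k - m' k = 0 := by exact_mod_cast h4
  omega

/-- `q = p * r`, the values at multiples of `p` are the Fourier transform on `ℤ/r` of the sums over the fibres `k, k + r, …, k + (p-1) r` -/
private theorem b3_split {M : Type*} [AddCommMonoid M] (p r : ℕ) (f : ℕ → M) :
    ∑ n ∈ Finset.range (p * r), f n = ∑ k ∈ Finset.range r, ∑ t ∈ Finset.range p, f (k + r * t) := by
  induction p with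
  | zero => simp
  | succ p ih =>
    rw [Nat.succ_mul, Finset.sum_range_add, ih, ← Finset.sum_add_distrib]
    refine Finset.sum_congr rfl (fun k _ => ?_)
    rw [Finset.sum_range_succ]
    congr 2
    ring

theorem vf_push {p r : ℕ} (hp : 0 < p) (hr : 0 < r) (m : ℕ → ℤ) (i : ℕ) :
    vf (p * r) m (p * i) = vf r (fun k => ∑ t ∈ Finset.range p, m (k + r * t)) i := by
  unfold vf
  rw [b3_split p r]
  refine Finset.sum_congr rfl (fun k _ => ?_)
  push_cast
  rw [Finset.sum_mul]
  refine Finset.sum_congr rfl (fun t _ => ?_)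
  congr 1
  rw [mul_assoc, ze_cancel hp hr]
  have h1 : i * (k + r * t) = i * k + (i * t) * r := by ring
  rw [h1, ze_add, b3_pow r r (i * t), ze_self hr, one_pow, mul_one]

/-- if `m` is constant on the fibres then its transform vanishes at `j` prime to `p` -/
theorem vf_const {p r : ℕ} (hp : 1 < p) (hr : 0 < r) (m : ℕ → ℤ) (hm : ∀ k < r, ∀ t < p, m (k + r * t) = m k) {j : ℕ} (hj : j.Coprime p) :
    vf (p * r) m j = 0 := by
  unfold vf
  rw [b3_split p r]
  refine Finset.sum_eq_zero (fun k hk => ?_)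
  have hk' := Finset.mem_range.mp hk
  have h1 : ∀ t ∈ Finset.range p, (m (k + r * t) : ℂ) * ze (p * r) (j * (k + r * t)) =
      ((m k : ℂ) * ze (p * r) (j * k)) * (ze p j) ^ t := by
    intro t ht
    rw [hm k hk' t (Finset.mem_range.mp ht)]
    have h2 : j * (k + r * t) = j * k + r * (t * j) := by ring
    rw [h2, ze_add, mul_comm p r, ze_cancel hr (by omega : 0 < p), b3_pow p j t, mul_assoc]
  rw [Finset.sum_congr rfl h1, ← Finset.mul_sum]
  have hne : ze p j ≠ 1 := by
    intro h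
    rw [ze_eq_one_iff (by omega : 0 < p)] at h
    have h3 : p ∣ Nat.gcd j p := Nat.dvd_gcd h dvd_rfl
    rw [hj] at h3
    have := Nat.le_of_dvd one_pos h3
    omega
  have hpow : (ze p j) ^ p = 1 := by
    rw [← b3_pow, mul_comm, b3_pow, ze_self (by omega : 0 < p), one_pow]
  have hg := mul_geom_sum (ze p j) p
  rw [hpow, sub_self] at hg
  rcases mul_eq_zero.mp hg with h | h
  · exact absurd (sub_eq_zero.mp h) hne
  · rw [h, mul_zero]

/-- The sum over the indices prime to `p`: `q = p * r`, `r` a power of `p`. By `vf_parseval` for `q` and (through `vf_push`) for `r`. -/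
theorem vf_units {p : ℕ} [Fact p.Prime] {a : ℕ} (m : ℕ → ℤ) :
    ∑ i ∈ (Finset.range (p * p ^ a)).filter (fun i => i.Coprime p), Complex.normSq (vf (p * p ^ a) m i) =
      (p : ℝ) ^ a * ∑ k ∈ Finset.range (p ^ a), ((p : ℝ) * ∑ t ∈ Finset.range p, (m (k + p ^ a * t) : ℝ) ^ 2
        - (∑ t ∈ Finset.range p, (m (k + p ^ a * t) : ℝ)) ^ 2) := by
  have hpp : p.Prime := Fact.out
  have hp : 0 < p := hpp.pos
  have hr : 0 < p ^ a := pow_pos hp a
  have hq : 0 < p * p ^ a := Nat.mul_pos hp hr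
  have hT := vf_parseval hq m
  have hS := vf_parseval hr (fun k => ∑ t ∈ Finset.range p, m (k + p ^ a * t))
  have hsplit := Finset.sum_filter_add_sum_filter_not (Finset.range (p * p ^ a)) (fun i => i.Coprime p) (fun i => Complex.normSq (vf (p * p ^ a) m i))
  have hM : ∑ i ∈ (Finset.range (p * p ^ a)).filter (fun i => ¬ i.Coprime p), Complex.normSq (vf (p * p ^ a) m i) =
      ∑ i ∈ Finset.range (p ^ a), Complex.normSq (vf (p ^ a) (fun k => ∑ t ∈ Finset.range p, m (k + p ^ a * t)) i) := by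
    symm
    refine Finset.sum_bij (fun i _ => p * i) ?_ ?_ ?_ ?_
    · intro i hi
      rw [Finset.mem_filter, Finset.mem_range]
      refine ⟨Nat.mul_lt_mul_of_pos_left (Finset.mem_range.mp hi) hp, ?_⟩
      intro h
      have h1 : p ∣ Nat.gcd (p * i) p := Nat.dvd_gcd (dvd_mul_right p i) dvd_rfl
      rw [h] at h1
      exact hpp.one_lt.ne' (Nat.dvd_one.mp h1)
    · intro i _ j _ h
      exact Nat.eq_of_mul_eq_mul_left hp h
    · intro n hn
      rw [Finset.mem_filter, Finset.mem_range] at hn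
      have hdvd : p ∣ n := by
        by_contra hnd
        exact hn.2 ((Nat.Prime.coprime_iff_not_dvd hpp).mpr hnd).symm
      obtain ⟨c, rfl⟩ := hdvd
      exact ⟨c, Finset.mem_range.mpr (Nat.lt_of_mul_lt_mul_left hn.1), rfl⟩
    · intro i _
      rw [vf_push hp hr]
  have hfull : (((p * p ^ a : ℕ)) : ℝ) * ∑ k ∈ Finset.range (p * p ^ a), (m k : ℝ) ^ 2 =
      (p : ℝ) ^ a * ∑ k ∈ Finset.range (p ^ a), (p : ℝ) * ∑ t ∈ Finset.range p, (m (k + p ^ a * t) : ℝ) ^ 2 := by
    rw [b3_split p (p ^ a), ← Finset.mul_sum]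
    push_cast
    ring
  have hS' : ∑ i ∈ Finset.range (p ^ a), Complex.normSq (vf (p ^ a) (fun k => ∑ t ∈ Finset.range p, m (k + p ^ a * t)) i) =
      (p : ℝ) ^ a * ∑ k ∈ Finset.range (p ^ a), (∑ t ∈ Finset.range p, (m (k + p ^ a * t) : ℝ)) ^ 2 := by
    rw [hS]
    push_cast
    rfl
  rw [hT, hM, hfull, hS'] at hsplit
  rw [Finset.sum_sub_distrib, mul_sub]
  linarith

end Pool.Agent.Lib.H90Q
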