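import Pool.Agent.Lib.H90Q.B3

open scoped Classical ComplexConjugate BigOperators

noncomputable section

namespace Pool.Agent.Lib.H90Q

/-- Integers on one fibre. `p ∑ u² - (∑ u)² = ∑_{s < t} (u s - u t)²`. If `u` is not constant let `A` be the set where `u` is minimal, `r = |A|`, `1 ≤ r ≤ p - 1`;
the pairs between `A` and its complement contribute at least `r (p - r) ≥ p - 1`, with equality iff `r = 1` or `r = p - 1` and all other values are `min + 1`. -/
theorem fibre_lemma {p : ℕ} (hp : 2 ≤ p) (u : ℕ → ℤ) :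
    ((p : ℤ) * ∑ t ∈ Finset.range p, u t ^ 2 - (∑ t ∈ Finset.range p, u t) ^ 2 = 0 ∧ ∀ t < p, u t = u 0) ∨
    ((p : ℤ) - 1 < (p : ℤ) * ∑ t ∈ Finset.range p, u t ^ 2 - (∑ t ∈ Finset.range p, u t) ^ 2) ∨
    ((p : ℤ) * ∑ t ∈ Finset.range p, u t ^ 2 - (∑ t ∈ Finset.range p, u t) ^ 2 = (p : ℤ) - 1 ∧
      ∃ t₀ < p, ∃ ε : ℤ, (ε = 1 ∨ ε = -1) ∧ ∃ c : ℤ, ∀ t < p, u t = c + if t = t₀ then ε else 0) := by
  obtain ⟨a, ha, hamin⟩ := Finset.exists_min_image (Finset.range p) u ⟨0, Finset.mem_range.2 (by omega)⟩
  set m := u a with hm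
  set v : ℕ → ℤ := fun t => u t - m with hv
  have hv0 : ∀ t ∈ Finset.range p, 0 ≤ v t := fun t ht => sub_nonneg.2 (hamin t ht)
  -- the quadratic form of `u` is the one of `v`
  have hQ : (p : ℤ) * ∑ t ∈ Finset.range p, u t ^ 2 - (∑ t ∈ Finset.range p, u t) ^ 2 =
      (p : ℤ) * ∑ t ∈ Finset.range p, v t ^ 2 - (∑ t ∈ Finset.range p, v t) ^ 2 := by
    have h1 : ∑ t ∈ Finset.range p, u t = ∑ t ∈ Finset.range p, v t + p * m := by
      have : ∀ t ∈ Finset.range p, u t = v t + m := fun t _ => by simp [hv]
      rw [Finset.sum_congr rfl this, Finset.sum_add_distrib]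
      simp
    have h2 : ∑ t ∈ Finset.range p, u t ^ 2 =
        ∑ t ∈ Finset.range p, v t ^ 2 + 2 * m * ∑ t ∈ Finset.range p, v t + p * m ^ 2 := by
      have : ∀ t ∈ Finset.range p, u t ^ 2 = v t ^ 2 + 2 * m * v t + m ^ 2 := fun t _ => by
        simp only [hv]; ring
      rw [Finset.sum_congr rfl this, Finset.sum_add_distrib, Finset.sum_add_distrib, Finset.mul_sum]
      simp
    rw [h1, h2]
    ring
  set B := (Finset.range p).filter (fun t => v t ≠ 0) with hB
  have hBs : B ⊆ Finset.range p := Finset.filter_subset _ _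
  have hs1 : ∑ t ∈ Finset.range p, v t = ∑ t ∈ B, v t :=
    (Finset.sum_filter_ne_zero (s := Finset.range p) (f := v)).symm
  have hs2 : ∑ t ∈ Finset.range p, v t ^ 2 = ∑ t ∈ B, v t ^ 2 := by
    symm
    refine Finset.sum_subset hBs fun t ht ht' => ?_
    have : v t = 0 := by
      by_contra h
      exact ht' (Finset.mem_filter.2 ⟨ht, h⟩)
    rw [this]; ring
  set b := B.card with hb
  have hbp : b < p := by
    have h1 : B ⊂ Finset.range p := by
      refine Finset.ssubset_iff_subset_ne.2 ⟨hBs, fun h => ?_⟩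
      have : a ∈ B := by rw [h]; exact ha
      exact (Finset.mem_filter.1 this).2 (by simp [hv, hm])
    have := Finset.card_lt_card h1
    rwa [Finset.card_range] at this
  have hge1 : ∀ t ∈ B, 1 ≤ v t := fun t ht => by
    have h1 := hv0 t (hBs ht)
    have h2 := (Finset.mem_filter.1 ht).2
    omega
  have hCS : (∑ t ∈ B, v t) ^ 2 ≤ (b : ℤ) * ∑ t ∈ B, v t ^ 2 := sq_sum_le_card_mul_sum_sq
  have hW : (b : ℤ) ≤ ∑ t ∈ B, v t ^ 2 := by
    have h1 : ∑ t ∈ B, (1 : ℤ) ≤ ∑ t ∈ B, v t ^ 2 :=
      Finset.sum_le_sum fun t ht => by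
        have := hge1 t ht
        nlinarith
    simpa using h1
  rw [hQ, hs1, hs2]
  set W := ∑ t ∈ B, v t ^ 2 with hWdef
  rcases Nat.eq_zero_or_pos b with hb0 | hbpos
  · -- constant case
    left
    have hBe : B = ∅ := Finset.card_eq_zero.1 hb0
    have hc : ∀ t < p, u t = m := fun t ht => by
      by_contra h
      have : t ∈ B := Finset.mem_filter.2 ⟨Finset.mem_range.2 ht, fun h' => h (by
        simp only [hv] at h'; omega)⟩
      rw [hBe] at this
      simp at this
    refine ⟨?_, fun t ht => by rw [hc t ht, hc 0 (by omega)]⟩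
    rw [hWdef, hBe]
    simp
  · by_cases hlt : (p : ℤ) - 1 < (p : ℤ) * W - (∑ t ∈ B, v t) ^ 2
    · exact Or.inr (Or.inl hlt)
    · right; right
      push Not at hlt
      have hb1 : (1 : ℤ) ≤ b := by exact_mod_cast hbpos
      have hb2 : (b : ℤ) + 1 ≤ p := by exact_mod_cast hbp
      have h1 : ((p : ℤ) - b) * W ≤ (p : ℤ) - 1 := by nlinarith
      have h2 : ((p : ℤ) - b) * b ≤ ((p : ℤ) - b) * W := by
        apply mul_le_mul_of_nonneg_left hW; linarith
      have h3 : (p : ℤ) - 1 ≤ ((p : ℤ) - b) * b := by nlinarith [mul_nonneg (sub_nonneg.2 hb1) (sub_nonneg.2 hb2)]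
      have hWb : W = b := by
        have h4 : ((p : ℤ) - b) * (W - b) ≤ 0 := by nlinarith
        have h5 : (0 : ℤ) < (p : ℤ) - b := by linarith
        have h6 : W - b ≤ 0 := by
          by_contra h
          push Not at h
          have := mul_pos h5 h
          linarith
        linarith
      have h7 : (((p : ℤ) - b) - 1) * ((b : ℤ) - 1) = 0 := by
        have : ((p : ℤ) - b) * b = p - 1 := le_antisymm (h2.trans h1) h3
        linarith [this, mul_comm ((p : ℤ) - b) b]
      have hone : ∀ t ∈ B, v t = 1 := by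
        have h8 : ∑ t ∈ B, (v t ^ 2 - 1) = 0 := by
          rw [Finset.sum_sub_distrib, ← hWdef, hWb]
          simp [hb]
        have h9 := (Finset.sum_eq_zero_iff_of_nonneg (s := B) (f := fun t => v t ^ 2 - 1)
          (fun t ht => by have := hge1 t ht; nlinarith)).1 h8
        intro t ht
        have h10 := h9 t ht
        have h11 := hge1 t ht
        nlinarith
      have hsum : ∑ t ∈ B, v t = b := by
        rw [Finset.sum_congr rfl hone]
        simp [hb]
      have hval : (p : ℤ) * W - (∑ t ∈ B, v t) ^ 2 = (p : ℤ) - 1 := by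
        rw [hsum, hWb]
        nlinarith
      refine ⟨hval, ?_⟩
      have huv : ∀ t, u t = m + v t := fun t => by simp [hv]
      have hnot : ∀ t < p, t ∉ B → v t = 0 := fun t ht htB => by
        by_contra h
        exact htB (Finset.mem_filter.2 ⟨Finset.mem_range.2 ht, h⟩)
      rcases mul_eq_zero.1 h7 with h8 | h8
      · -- `b = p - 1`: one value is smaller
        have hcard : (Finset.range p \ B).card = 1 := by
          rw [Finset.card_sdiff_of_subset hBs, Finset.card_range]
          omega
        obtain ⟨t₀, ht₀⟩ := Finset.card_eq_one.1 hcard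
        have ht₀' : t₀ ∈ Finset.range p \ B := by rw [ht₀]; exact Finset.mem_singleton_self _
        have ht₁ := Finset.mem_sdiff.1 ht₀'
        refine ⟨t₀, Finset.mem_range.1 ht₁.1, -1, Or.inr rfl, m + 1, fun t ht => ?_⟩
        by_cases h : t = t₀
        · rw [if_pos h, huv, h, hnot t₀ (Finset.mem_range.1 ht₁.1) ht₁.2]
          ring
        · rw [if_neg h, huv]
          have : t ∈ B := by
            by_contra hc
            have : t ∈ Finset.range p \ B := Finset.mem_sdiff.2 ⟨Finset.mem_range.2 ht, hc⟩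
            rw [ht₀] at this
            exact h (Finset.mem_singleton.1 this)
          rw [hone t this]
          ring
      · -- `b = 1`: one value is larger
        have hcard : B.card = 1 := by omega
        obtain ⟨t₀, ht₀⟩ := Finset.card_eq_one.1 hcard
        have ht₁ : t₀ ∈ B := by rw [ht₀]; exact Finset.mem_singleton_self _
        refine ⟨t₀, Finset.mem_range.1 (hBs ht₁), 1, Or.inl rfl, m, fun t ht => ?_⟩
        by_cases h : t = t₀
        · rw [if_pos h, huv, h, hone t₀ ht₁]
        · rw [if_neg h, huv, hnot t ht (by rw [ht₀]; simpa using h)]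

private theorem B4_vf_zero (q : ℕ) (m : ℕ → ℤ) : vf q m 0 = ((∑ k ∈ Finset.range q, m k : ℤ) : ℂ) := by
  unfold vf ze
  simp

private theorem B4_sum_dvd {p r : ℕ} (hp : 0 < p) (hr : 0 < r) (m : ℕ → ℤ)
    (hm : ∀ k < r, ∀ t < p, m (k + r * t) = m k) : (p : ℤ) ∣ ∑ k ∈ Finset.range (p * r), m k := by
  have h1 := vf_push hp hr m 0
  rw [mul_zero, B4_vf_zero, B4_vf_zero] at h1
  have h2 : ∑ k ∈ Finset.range (p * r), m k =
      ∑ k ∈ Finset.range r, ∑ t ∈ Finset.range p, m (k + r * t) := by exact_mod_cast h1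
  rw [h2]
  refine Finset.dvd_sum fun k hk => ?_
  rw [Finset.sum_congr rfl fun t ht => hm k (Finset.mem_range.1 hk) t (Finset.mem_range.1 ht)]
  simp

/-- Main arithmetic lemma. `q = p * p ^ a`, `S = ∑ |vf q m i|²` over the `i < q` prime to `p`. By `vf_units` and `fibre_lemma`: `S = 0` and `m` is constant on all fibres
(then `vf_const`), or `S > φ(q) = (p - 1) p ^ a`, or `S = φ(q)`, exactly one fibre is not constant and there exactly one value `m k₀` differs by `ε = ± 1`. -/
theorem arith_main {p : ℕ} [Fact p.Prime] {a : ℕ} (m : ℕ → ℤ) :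
    (∑ i ∈ (Finset.range (p * p ^ a)).filter (fun i => i.Coprime p), Complex.normSq (vf (p * p ^ a) m i) = 0 ∧
      (∀ k < p ^ a, ∀ t < p, m (k + p ^ a * t) = m k) ∧
      (∀ j : ℕ, j.Coprime p → vf (p * p ^ a) m j = 0) ∧ (p : ℤ) ∣ ∑ k ∈ Finset.range (p * p ^ a), m k) ∨
    (((p : ℝ) - 1) * p ^ a < ∑ i ∈ (Finset.range (p * p ^ a)).filter (fun i => i.Coprime p), Complex.normSq (vf (p * p ^ a) m i)) ∨
    (∑ i ∈ (Finset.range (p * p ^ a)).filter (fun i => i.Coprime p), Complex.normSq (vf (p * p ^ a) m i) = ((p : ℝ) - 1) * p ^ a ∧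
      ∃ k₀ < p * p ^ a, ∃ ε : ℤ, (ε = 1 ∨ ε = -1) ∧ (∀ j : ℕ, j.Coprime p → vf (p * p ^ a) m j = (ε : ℂ) * ze (p * p ^ a) (j * k₀)) ∧
        ∑ k ∈ Finset.range (p * p ^ a), m k ≡ ε [ZMOD p]) := by
  have hpp : p.Prime := Fact.out
  have hp2 : 2 ≤ p := hpp.two_le
  have hr : 0 < p ^ a := pow_pos hpp.pos a
  have hR : (0 : ℝ) < (p : ℝ) ^ a := by positivity
  set q : ℕ → ℤ := fun k => (p : ℤ) * ∑ t ∈ Finset.range p, m (k + p ^ a * t) ^ 2
        - (∑ t ∈ Finset.range p, m (k + p ^ a * t)) ^ 2 with hq
  have hS : ∑ i ∈ (Finset.range (p * p ^ a)).filter (fun i => i.Coprime p),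
      Complex.normSq (vf (p * p ^ a) m i) = (p : ℝ) ^ a * ((∑ k ∈ Finset.range (p ^ a), q k : ℤ) : ℝ) := by
    rw [vf_units m]
    congr 1
    push_cast [hq]
    rfl
  have hfib : ∀ k, (q k = 0 ∧ ∀ t < p, m (k + p ^ a * t) = m k) ∨ ((p : ℤ) - 1 < q k) ∨
      (q k = (p : ℤ) - 1 ∧ ∃ t₀ < p, ∃ ε : ℤ, (ε = 1 ∨ ε = -1) ∧ ∃ c : ℤ,
        ∀ t < p, m (k + p ^ a * t) = c + if t = t₀ then ε else 0) := by
    intro k
    have h := fibre_lemma hp2 (fun t => m (k + p ^ a * t))
    simpa only [mul_zero, add_zero] using h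
  have hp1 : (1 : ℤ) ≤ (p : ℤ) - 1 := by
    have : (2 : ℤ) ≤ p := by exact_mod_cast hp2
    linarith
  have hq0 : ∀ k, 0 ≤ q k := by
    intro k
    rcases hfib k with h | h | h
    · exact h.1.ge
    · linarith
    · rw [h.1]; linarith
  have hqp : ∀ k, q k ≠ 0 → (p : ℤ) - 1 ≤ q k := by
    intro k hk
    rcases hfib k with h | h | h
    · exact absurd h.1 hk
    · exact h.le
    · exact h.1.ge
  have hlt : (p : ℤ) - 1 < ∑ k ∈ Finset.range (p ^ a), q k →
      ((p : ℝ) - 1) * p ^ a < ∑ i ∈ (Finset.range (p * p ^ a)).filter (fun i => i.Coprime p),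
        Complex.normSq (vf (p * p ^ a) m i) := by
    intro h
    rw [hS, mul_comm ((p : ℝ) - 1)]
    refine mul_lt_mul_of_pos_left ?_ hR
    have h' : (((p : ℤ) - 1 : ℤ) : ℝ) < ((∑ k ∈ Finset.range (p ^ a), q k : ℤ) : ℝ) := by
      exact_mod_cast h
    push_cast at h' ⊢
    exact h'
  by_cases hall : ∀ k ∈ Finset.range (p ^ a), q k = 0
  · left
    have hconst : ∀ k < p ^ a, ∀ t < p, m (k + p ^ a * t) = m k := by
      intro k hk
      have h0 := hall k (Finset.mem_range.2 hk)
      rcases hfib k with h | h | h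
      · exact h.2
      · rw [h0] at h; linarith
      · rw [h0] at h; linarith [h.1]
    refine ⟨?_, hconst, fun j hj => vf_const hpp.one_lt hr m hconst hj, B4_sum_dvd hpp.pos hr m hconst⟩
    rw [hS, Finset.sum_eq_zero hall]
    simp
  · push Not at hall
    obtain ⟨k₁, hk₁, hk₁0⟩ := hall
    by_cases hother : ∃ k ∈ Finset.range (p ^ a), k ≠ k₁ ∧ q k ≠ 0
    · right; left
      obtain ⟨k₂, hk₂, hne, hk₂0⟩ := hother
      apply hlt
      have h1 : q k₂ + q k₁ ≤ ∑ k ∈ Finset.range (p ^ a), q k := by
        rw [← Finset.sum_pair hne]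
        refine Finset.sum_le_sum_of_subset_of_nonneg ?_ fun k _ _ => hq0 k
        intro x hx
        rcases Finset.mem_insert.1 hx with h | h
        · rw [h]; exact hk₂
        · rw [Finset.mem_singleton.1 h]; exact hk₁
      have h2 := hqp k₁ hk₁0
      have h3 := hqp k₂ hk₂0
      linarith
    · push Not at hother
      have hsum : ∑ k ∈ Finset.range (p ^ a), q k = q k₁ :=
        Finset.sum_eq_single_of_mem k₁ hk₁ fun k hk hne => hother k hk hne
      rcases hfib k₁ with h | h | h
      · exact absurd h.1 hk₁0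
      · right; left
        apply hlt
        rw [hsum]
        exact h
      · right; right
        obtain ⟨hval, t₀, ht₀, ε, hε, c, hc⟩ := h
        have hk₁' := Finset.mem_range.1 hk₁
        refine ⟨?_, k₁ + p ^ a * t₀, ?_, ε, hε, ?_⟩
        · rw [hS, hsum, hval, mul_comm]
          push_cast
          ring
        · calc k₁ + p ^ a * t₀ < p ^ a + p ^ a * t₀ := by omega
            _ = p ^ a * (t₀ + 1) := by ring
            _ ≤ p ^ a * p := Nat.mul_le_mul_left _ ht₀
            _ = p * p ^ a := mul_comm _ _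
        · set k₀ := k₁ + p ^ a * t₀ with hk₀
          have hk₀lt : k₀ < p * p ^ a := by
            calc k₁ + p ^ a * t₀ < p ^ a + p ^ a * t₀ := by omega
              _ = p ^ a * (t₀ + 1) := by ring
              _ ≤ p ^ a * p := Nat.mul_le_mul_left _ ht₀
              _ = p * p ^ a := mul_comm _ _
          set m' : ℕ → ℤ := fun k => m k - if k = k₀ then ε else 0 with hm'
          have hfix : ∀ k < p ^ a, ∀ t, k + p ^ a * t = k₀ ↔ k = k₁ ∧ t = t₀ := by
            intro k hk t
            constructor
            · intro h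
              have h1 : (k + p ^ a * t) % p ^ a = (k₁ + p ^ a * t₀) % p ^ a := by rw [h]
              rw [Nat.add_mul_mod_self_left, Nat.add_mul_mod_self_left, Nat.mod_eq_of_lt hk,
                Nat.mod_eq_of_lt hk₁'] at h1
              refine ⟨h1, ?_⟩
              rw [hk₀, h1] at h
              have h2 := Nat.add_left_cancel h
              exact Nat.eq_of_mul_eq_mul_left hr h2
            · rintro ⟨h1, h2⟩
              rw [h1, h2]
          have hm'c : ∀ k < p ^ a, ∀ t < p, m' (k + p ^ a * t) = m' k := by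
            intro k hk t ht
            by_cases hkk : k = k₁
            · have h1 : ∀ s < p, m' (k + p ^ a * s) = c := by
                intro s hs
                simp only [hm']
                rw [hkk, hc s hs]
                by_cases hst : s = t₀
                · rw [if_pos hst, if_pos (by rw [hst])]
                  ring
                · rw [if_neg hst, if_neg (fun h => hst ((hfix k₁ hk₁' s).1 h).2)]
                  ring
              have h2 := h1 0 (by omega)
              rw [mul_zero, add_zero] at h2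
              rw [h1 t ht, h2]
            · have h1 : ∀ s < p, m' (k + p ^ a * s) = m (k + p ^ a * s) := by
                intro s _
                simp only [hm']
                rw [if_neg (fun h => hkk ((hfix k hk s).1 h).1)]
                ring
              have h2 := h1 0 (by omega)
              rw [mul_zero, add_zero] at h2
              rw [h1 t ht, h2]
              rcases hfib k with h | h | h
              · exact h.2 t ht
              · rw [hother k (Finset.mem_range.2 hk) hkk] at h; linarith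
              · rw [hother k (Finset.mem_range.2 hk) hkk] at h; linarith [h.1]
          have hmm' : ∀ k, m k = m' k + if k = k₀ then ε else 0 := fun k => by simp [hm']
          constructor
          · intro j hj
            have h1 := vf_const hpp.one_lt hr m' hm'c hj
            have h2 : vf (p * p ^ a) m j = vf (p * p ^ a) m' j + (ε : ℂ) * ze (p * p ^ a) (j * k₀) := by
              unfold vf
              have h3 : ∀ k ∈ Finset.range (p * p ^ a), (m k : ℂ) * ze (p * p ^ a) (j * k) =
                  (m' k : ℂ) * ze (p * p ^ a) (j * k) +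
                    if k = k₀ then (ε : ℂ) * ze (p * p ^ a) (j * k₀) else 0 := by
                intro k _
                rw [hmm' k]
                by_cases h : k = k₀
                · rw [if_pos h, if_pos h, h]
                  push_cast
                  ring
                · rw [if_neg h, if_neg h]
                  push_cast
                  ring
              rw [Finset.sum_congr rfl h3, Finset.sum_add_distrib, Finset.sum_ite_eq',
                if_pos (Finset.mem_range.2 hk₀lt)]
            rw [h2, h1, zero_add]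
          · have h1 := B4_sum_dvd hpp.pos hr m' hm'c
            have h2 : ∑ k ∈ Finset.range (p * p ^ a), m k = ∑ k ∈ Finset.range (p * p ^ a), m' k + ε := by
              rw [Finset.sum_congr rfl fun k _ => hmm' k, Finset.sum_add_distrib, Finset.sum_ite_eq',
                if_pos (Finset.mem_range.2 hk₀lt)]
            rw [h2]
            refine (Int.modEq_iff_dvd.2 ?_)
            have h3 : ε - (∑ k ∈ Finset.range (p * p ^ a), m' k + ε) =
                - ∑ k ∈ Finset.range (p * p ^ a), m' k := by ring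
            rw [h3]
            exact (dvd_neg).2 h1

/-- If the transform vanishes at all indices prime to `p` then `m` is constant on the fibres. (Case 1 of `arith_main`.) -/
theorem const_of_vf_zero {p : ℕ} [Fact p.Prime] {a : ℕ} (m : ℕ → ℤ) (h : ∀ j : ℕ, j.Coprime p → vf (p * p ^ a) m j = 0) :
    ∀ k < p ^ a, ∀ t < p, m (k + p ^ a * t) = m k := by
  have hpp : p.Prime := Fact.out
  have hS : ∑ i ∈ (Finset.range (p * p ^ a)).filter (fun i => i.Coprime p),
      Complex.normSq (vf (p * p ^ a) m i) = 0 := by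
    refine Finset.sum_eq_zero fun i hi => ?_
    rw [h i (Finset.mem_filter.1 hi).2]
    simp
  have hpos : (0 : ℝ) < ((p : ℝ) - 1) * p ^ a := by
    have h1 : (1 : ℝ) < p := by exact_mod_cast hpp.one_lt
    have h2 : (0 : ℝ) < (p : ℝ) ^ a := by positivity
    exact mul_pos (by linarith) h2
  rcases arith_main (p := p) (a := a) m with h1 | h1 | h1
  · exact h1.2.1
  · rw [hS] at h1
    linarith
  · rw [hS] at h1
    linarith [h1.1]

end Pool.Agent.Lib.H90Q
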