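import Pool.Agent.Lib.H90Q.A14
import Pool.Agent.Lib.H90Q.B1
import Pool.Agent.Lib.H90Q.B2
import Pool.Agent.Lib.H90Q.B4

open scoped Classical ComplexConjugate BigOperators

noncomputable section

namespace Pool.Agent.Lib.H90Q

variable {G : Type*} [Group G] [Fintype G]

/-- `coset_count` for `F g = Ψ g * conj (Ψ' g)` and `coset_zero`. -/
theorem glaub_zero {p : ℕ} [Fact p.Prime] {M T : Subgroup G} (hM : ¬ p ∣ Nat.card M) {z : G} (hz : Nz z M) {a : ℕ} (hq : z ^ (p ^ a) = 1)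
    (hT : T = M ⊔ Subgroup.zpowers z) {Ψ Ψ' : G → ℂ} (hΨ : Ψ ∈ IrrS T) (hΨ' : Ψ' ∈ IrrS T) (h0 : ip M Ψ Ψ' = 0) {j : ℕ} (hj : j.Coprime p) :
    (Nat.card (CM M {z}) : ℂ)⁻¹ * ∑ d : G, (if d ∈ CM M {z} then Ψ (z ^ j * d) * conj (Ψ' (z ^ j * d)) else 0) = 0 := by
  have hMT : M ≤ T := by rw [hT]; exact le_sup_left
  have hzT : z ∈ T := by rw [hT]; exact (le_sup_right : Subgroup.zpowers z ≤ M ⊔ Subgroup.zpowers z) (Subgroup.mem_zpowers z)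
  have hF : ∀ m ∈ M, ∀ g, (fun g => Ψ g * conj (Ψ' g)) (m * g * m⁻¹) = (fun g => Ψ g * conj (Ψ' g)) g := by
    intro m hm g
    show Ψ (m * g * m⁻¹) * conj (Ψ' (m * g * m⁻¹)) = Ψ g * conj (Ψ' g)
    rw [(cf_charS (charS_of_irrS hΨ)).2 m (hMT hm) g, (cf_charS (charS_of_irrS hΨ')).2 m (hMT hm) g]
  have h1 := coset_count (F := fun g => Ψ g * conj (Ψ' g)) hM hz hq hj hF
  have h2 := coset_zero hMT (comm_cyclic hz hT) hΨ hΨ' h0 (Subgroup.pow_mem T hzT j)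
  rw [← h1]
  exact h2

theorem glaub_norm {p : ℕ} [Fact p.Prime] {M T : Subgroup G} (hM : ¬ p ∣ Nat.card M) {z : G} (hz : Nz z M) {a : ℕ} (hq : z ^ (p ^ a) = 1)
    (hT : T = M ⊔ Subgroup.zpowers z) {Ψ : G → ℂ} (hΨ : Ψ ∈ IrrS T) (h1 : ip M Ψ Ψ = 1) {j : ℕ} (hj : j.Coprime p) :
    (Nat.card (CM M {z}) : ℂ)⁻¹ * ∑ d : G, (if d ∈ CM M {z} then Ψ (z ^ j * d) * conj (Ψ (z ^ j * d)) else 0) = 1 := by
  have hMT : M ≤ T := by rw [hT]; exact le_sup_left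
  have hzT : z ∈ T := by rw [hT]; exact (le_sup_right : Subgroup.zpowers z ≤ M ⊔ Subgroup.zpowers z) (Subgroup.mem_zpowers z)
  have hF : ∀ m ∈ M, ∀ g, (fun g => Ψ g * conj (Ψ g)) (m * g * m⁻¹) = (fun g => Ψ g * conj (Ψ g)) g := by
    intro m hm g
    show Ψ (m * g * m⁻¹) * conj (Ψ (m * g * m⁻¹)) = Ψ g * conj (Ψ g)
    rw [(cf_charS (charS_of_irrS hΨ)).2 m (hMT hm) g]
  have h3 := coset_count (F := fun g => Ψ g * conj (Ψ g)) hM hz hq hj hF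
  have h2 := coset_one hMT (comm_cyclic hz hT) hΨ h1 (Subgroup.pow_mem T hzT j)
  rw [← h3]
  exact h2

private theorem B5_card {p : ℕ} [Fact p.Prime] (a : ℕ) :
    ((Finset.range (p * p ^ a)).filter (fun i => i.Coprime p)).card = (p - 1) * p ^ a := by
  have hpp : p.Prime := Fact.out
  have h1 := Nat.totient_prime_pow_succ hpp a
  rw [Nat.totient] at h1
  rw [mul_comm (p - 1), ← h1]
  have h2 : p ^ (a + 1) = p * p ^ a := by rw [pow_succ, mul_comm]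
  rw [h2]
  congr 1
  ext i
  simp only [Finset.mem_filter, Finset.mem_range]
  have h3 : i.Coprime p ↔ (p * p ^ a).Coprime i := by
    rw [← h2, Nat.coprime_pow_left_iff (Nat.succ_pos a), Nat.coprime_comm]
  rw [h3]

private def B5_ext {q : ℕ} (m : Fin q → ℕ) (k : ℕ) : ℤ := if h : k < q then (m ⟨k, h⟩ : ℤ) else 0

private theorem B5_vf {q : ℕ} (m : Fin q → ℕ) (i : ℕ) :
    (∑ k : Fin q, (m k : ℂ) * Complex.exp (2 * Real.pi * Complex.I * (i * (k : ℕ)) / q)) = vf q (B5_ext m) i := by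
  unfold vf
  rw [← Fin.sum_univ_eq_sum_range (fun k => (B5_ext m k : ℂ) * ze q (i * k)) q]
  refine Finset.sum_congr rfl fun k _ => ?_
  have h1 : B5_ext m (k : ℕ) = (m k : ℤ) := by
    unfold B5_ext
    rw [dif_pos k.2]
  rw [h1]
  unfold ze
  push_cast
  rfl

private theorem B5_sum {q : ℕ} (m : Fin q → ℕ) : ∑ k ∈ Finset.range q, B5_ext m k = ((∑ k, m k : ℕ) : ℤ) := by
  rw [← Fin.sum_univ_eq_sum_range (fun k => B5_ext m k) q]
  push_cast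
  refine Finset.sum_congr rfl fun k _ => ?_
  unfold B5_ext
  rw [dif_pos k.2]

private theorem B5_norm {D : Subgroup G} (c : (G → ℂ) → ℂ) {f : G → ℂ} (hf : ∀ d ∈ D, f d = ∑ ψ ∈ irr D, c ψ * ψ d) :
    ip D f f = ((∑ ψ ∈ irr D, Complex.normSq (c ψ) : ℝ) : ℂ) := by
  have h1 : ip D f f = ip D (∑ ψ ∈ irr D, c ψ • ψ) (∑ ψ ∈ irr D, c ψ • ψ) := by
    refine ip_congr D (fun x hx => ?_) (fun x hx => ?_)
    · rw [hf x hx, Finset.sum_apply]
      exact Finset.sum_congr rfl fun ψ _ => rfl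
    · rw [hf x hx, Finset.sum_apply]
      exact Finset.sum_congr rfl fun ψ _ => rfl
  have h2 : ∀ φ ∈ irr D, ip D (∑ ψ ∈ irr D, c ψ • ψ) φ = c φ := by
    intro φ hφ
    rw [ip_sum_left]
    have h3 : ∀ ψ ∈ irr D, ip D (c ψ • ψ) φ = if ψ = φ then c φ else 0 := by
      intro ψ hψ
      rw [ip_smul_left, irrS_ortho (mem_irr.1 hψ) (mem_irr.1 hφ)]
      split_ifs with h
      · rw [h, mul_one]
      · rw [mul_zero]
    rw [Finset.sum_congr rfl h3, Finset.sum_ite_eq' (irr D) φ (fun _ => c φ), if_pos hφ]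
  rw [h1, ip_sum_left]
  push_cast
  refine Finset.sum_congr rfl fun φ hφ => ?_
  rw [ip_smul_left, ip_conj, h2 φ hφ, Complex.mul_conj]

/-- Main theorem, `z ^ (p * p ^ a) = 1`. Proof: `eigen_mult` with `H = T`, `D = C_M(z)`, `q = p * p ^ a`: natural numbers `m ψ k` with
`Ψ(z^i d) = ∑_ψ vf q (m ψ) i * ψ d`. For `j` prime to `p`, `glaub_norm` and orthonormality give `∑_ψ |vf q (m ψ) j|² = 1`; the sum over the `(p-1) p^a` indices `j < q` prime to `p`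
is `∑_ψ S(m ψ) = (p-1) p^a`. By `arith_main` each `S` is `0` or at least `(p-1) p^a`, so exactly one `ψ` has `S ≠ 0`, and it has `S = (p-1) p^a`. -/
theorem glaub_pos {p : ℕ} [Fact p.Prime] {M T : Subgroup G} (hM : ¬ p ∣ Nat.card M) {z : G} (hz : Nz z M) {a : ℕ} (hq : z ^ (p * p ^ a) = 1)
    (hT : T = M ⊔ Subgroup.zpowers z) {Ψ : G → ℂ} (hΨ : Ψ ∈ IrrS T) (h1 : ip M Ψ Ψ = 1) :
    ∃ ψ ∈ IrrS (CM M {z}), ∃ ε : ℤ, (ε = 1 ∨ ε = -1) ∧ ∃ w : ℂ, w ^ (p * p ^ a) = 1 ∧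
      (∀ j : ℕ, j.Coprime p → ∀ d ∈ CM M {z}, Ψ (z ^ j * d) = (ε : ℂ) * w ^ j * ψ d) ∧
      (∀ ψ' ∈ IrrS (CM M {z}), ψ' ≠ ψ → p ∣ mu (CM M {z}) Ψ ψ') ∧
      ((mu (CM M {z}) Ψ ψ : ℤ) ≡ ε [ZMOD p]) := by
  have hpp : p.Prime := Fact.out
  have hqpos : 0 < p * p ^ a := Nat.mul_pos hpp.pos (pow_pos hpp.pos a)
  have hMT : M ≤ T := by rw [hT]; exact le_sup_left
  have hzT : z ∈ T := by rw [hT]; exact (le_sup_right : Subgroup.zpowers z ≤ M ⊔ Subgroup.zpowers z) (Subgroup.mem_zpowers z)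
  have hDM : CM M {z} ≤ M := fun d hd => (mem_CM_single.1 hd).1
  have hDT : CM M {z} ≤ T := hDM.trans hMT
  obtain ⟨m, hmu, hval⟩ := eigen_mult hDT hzT hqpos hq (fun d hd => (mem_CM_single.1 hd).2) (charS_of_irrS hΨ)
  set c : ℕ → (G → ℂ) → ℂ := fun j ψ => vf (p * p ^ a) (B5_ext (m ψ)) j with hc
  have hval' : ∀ j : ℕ, ∀ d ∈ CM M {z}, Ψ (z ^ j * d) = ∑ ψ ∈ irr (CM M {z}), c j ψ * ψ d := by
    intro j d hd
    rw [hval j d hd]
    refine Finset.sum_congr rfl fun ψ _ => ?_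
    rw [B5_vf]
  have hq' : z ^ (p ^ (a + 1)) = 1 := by rw [pow_succ, mul_comm (p ^ a) p]; exact hq
  -- the norm identity
  have hone : ∀ j : ℕ, j.Coprime p → ∑ ψ ∈ irr (CM M {z}), Complex.normSq (c j ψ) = 1 := by
    intro j hj
    have h2 := glaub_norm hM hz hq' hT hΨ h1 hj
    have h3 : ip (CM M {z}) (fun d => Ψ (z ^ j * d)) (fun d => Ψ (z ^ j * d)) = 1 := h2
    rw [B5_norm (c j) (fun d hd => hval' j d hd)] at h3
    exact_mod_cast h3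
  set S : (G → ℂ) → ℝ := fun ψ => ∑ i ∈ (Finset.range (p * p ^ a)).filter (fun i => i.Coprime p),
    Complex.normSq (vf (p * p ^ a) (B5_ext (m ψ)) i) with hS
  have hS0 : ∀ ψ, 0 ≤ S ψ := fun ψ => Finset.sum_nonneg fun i _ => Complex.normSq_nonneg _
  have hsum : ∑ ψ ∈ irr (CM M {z}), S ψ = ((p : ℝ) - 1) * p ^ a := by
    rw [hS, Finset.sum_comm]
    have h2 : ∀ i ∈ (Finset.range (p * p ^ a)).filter (fun i => i.Coprime p),
        ∑ ψ ∈ irr (CM M {z}), Complex.normSq (vf (p * p ^ a) (B5_ext (m ψ)) i) = 1 :=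
      fun i hi => hone i (Finset.mem_filter.1 hi).2
    rw [Finset.sum_congr rfl h2, Finset.sum_const, B5_card, nsmul_eq_mul, mul_one]
    push_cast [Nat.cast_sub hpp.one_lt.le]
    ring
  have hBpos : (0 : ℝ) < ((p : ℝ) - 1) * p ^ a := by
    have h2 : (1 : ℝ) < p := by exact_mod_cast hpp.one_lt
    have h3 : (0 : ℝ) < (p : ℝ) ^ a := by positivity
    exact mul_pos (by linarith) h3
  have hle : ∀ ψ ∈ irr (CM M {z}), S ψ ≤ ((p : ℝ) - 1) * p ^ a := by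
    intro ψ hψ
    rw [← hsum]
    exact Finset.single_le_sum (fun φ _ => hS0 φ) hψ
  have hex : ∃ ψ ∈ irr (CM M {z}), S ψ ≠ 0 := by
    by_contra hcon
    push Not at hcon
    rw [Finset.sum_eq_zero hcon] at hsum
    rw [← hsum] at hBpos
    exact lt_irrefl _ hBpos
  obtain ⟨ψ₀, hψ₀, hSne⟩ := hex
  have hmain₀ := arith_main (p := p) (a := a) (B5_ext (m ψ₀))
  have hcase : S ψ₀ = ((p : ℝ) - 1) * p ^ a ∧
      ∃ k₀ < p * p ^ a, ∃ ε : ℤ, (ε = 1 ∨ ε = -1) ∧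
        (∀ j : ℕ, j.Coprime p → vf (p * p ^ a) (B5_ext (m ψ₀)) j = (ε : ℂ) * ze (p * p ^ a) (j * k₀)) ∧
        ∑ k ∈ Finset.range (p * p ^ a), B5_ext (m ψ₀) k ≡ ε [ZMOD p] := by
    rcases hmain₀ with h2 | h2 | h2
    · exact absurd h2.1 hSne
    · exact absurd (hle ψ₀ hψ₀) (not_le.2 h2)
    · exact h2
  obtain ⟨hSval, k₀, -, ε, hε, hvf, hmod⟩ := hcase
  -- the other characters
  have hother : ∀ ψ ∈ irr (CM M {z}), ψ ≠ ψ₀ → S ψ = 0 := by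
    intro ψ hψ hne
    have h2 : S ψ + S ψ₀ ≤ ∑ φ ∈ irr (CM M {z}), S φ := by
      rw [← Finset.sum_pair hne]
      refine Finset.sum_le_sum_of_subset_of_nonneg ?_ fun φ _ _ => hS0 φ
      intro φ hφ
      rcases Finset.mem_insert.1 hφ with h | h
      · rw [h]; exact hψ
      · rw [Finset.mem_singleton.1 h]; exact hψ₀
    rw [hsum, hSval] at h2
    exact le_antisymm (by linarith) (hS0 ψ)
  have hothercase : ∀ ψ ∈ irr (CM M {z}), ψ ≠ ψ₀ →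
      (∀ j : ℕ, j.Coprime p → vf (p * p ^ a) (B5_ext (m ψ)) j = 0) ∧
        (p : ℤ) ∣ ∑ k ∈ Finset.range (p * p ^ a), B5_ext (m ψ) k := by
    intro ψ hψ hne
    have h2 := hother ψ hψ hne
    rcases arith_main (p := p) (a := a) (B5_ext (m ψ)) with h3 | h3 | h3
    · exact ⟨h3.2.2.1, h3.2.2.2⟩
    · have h4 : ((p : ℝ) - 1) * p ^ a < S ψ := h3
      rw [h2] at h4
      exact absurd h4 (not_lt.2 hBpos.le)
    · have h4 : S ψ = ((p : ℝ) - 1) * p ^ a := h3.1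
      rw [h2] at h4
      exact absurd h4 hBpos.ne
  refine ⟨ψ₀, mem_irr.1 hψ₀, ε, hε, ze (p * p ^ a) k₀, ?_, ?_, ?_, ?_⟩
  · rw [← ze_mul_pow, ze_eq_one_iff hqpos]
    exact dvd_mul_right _ _
  · intro j hj d hd
    rw [hval' j d hd, Finset.sum_eq_single_of_mem ψ₀ hψ₀]
    · have h2 : c j ψ₀ = (ε : ℂ) * ze (p * p ^ a) (j * k₀) := hvf j hj
      rw [h2, ze_mul_pow]
    · intro ψ hψ hne
      have h2 : c j ψ = 0 := (hothercase ψ hψ hne).1 j hj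
      rw [h2, zero_mul]
  · intro ψ' hψ' hne
    have h2 := (hothercase ψ' (mem_irr.2 hψ') hne).2
    rw [B5_sum] at h2
    rw [hmu ψ' hψ']
    exact_mod_cast h2
  · rw [B5_sum] at hmod
    rw [hmu ψ₀ (mem_irr.1 hψ₀)]
    exact hmod

/-- The same with the exact order of `z` (for `z = 1` take `ψ = Ψ`, `ε = 1`, `w = 1`). -/
theorem glaub {p : ℕ} [Fact p.Prime] {M T : Subgroup G} (hM : ¬ p ∣ Nat.card M) {z : G} (hz : Nz z M) {a : ℕ} (hq : orderOf z = p ^ a)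
    (hT : T = M ⊔ Subgroup.zpowers z) {Ψ : G → ℂ} (hΨ : Ψ ∈ IrrS T) (h1 : ip M Ψ Ψ = 1) :
    ∃ ψ ∈ IrrS (CM M {z}), ∃ ε : ℤ, (ε = 1 ∨ ε = -1) ∧ ∃ w : ℂ, w ^ (p ^ a) = 1 ∧
      (∀ j : ℕ, j.Coprime p → ∀ d ∈ CM M {z}, Ψ (z ^ j * d) = (ε : ℂ) * w ^ j * ψ d) ∧
      (∀ ψ' ∈ IrrS (CM M {z}), ψ' ≠ ψ → p ∣ mu (CM M {z}) Ψ ψ') ∧
      ((mu (CM M {z}) Ψ ψ : ℤ) ≡ ε [ZMOD p]) := by
  have hpp : p.Prime := Fact.out
  rcases a with _ | b
  · rw [pow_zero, orderOf_eq_one_iff] at hq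
    subst hq
    have hTM : T = M := by
      rw [hT, Subgroup.zpowers_one_eq_bot, sup_bot_eq]
    subst hTM
    have hD : CM T {(1 : G)} = T := by
      ext d
      rw [mem_CM_single]
      simp
    have hmu' : ∀ ψ' ∈ IrrS T, (mu T Ψ ψ' : ℂ) = if Ψ = ψ' then 1 else 0 := by
      intro ψ' hψ'
      rw [mu_spec (le_refl T) (charS_of_irrS hΨ) hψ', irrS_ortho hΨ hψ']
    rw [hD]
    refine ⟨Ψ, hΨ, 1, Or.inl rfl, 1, one_pow _, ?_, ?_, ?_⟩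
    · intro j _ d _
      rw [one_pow, one_mul, one_pow]
      push_cast
      ring
    · intro ψ' hψ' hne
      have h2 := hmu' ψ' hψ'
      rw [if_neg (fun h => hne h.symm)] at h2
      have h3 : mu T Ψ ψ' = 0 := by exact_mod_cast h2
      rw [h3]
      exact dvd_zero _
    · have h2 := hmu' Ψ hΨ
      rw [if_pos rfl] at h2
      have h3 : mu T Ψ Ψ = 1 := by exact_mod_cast h2
      rw [h3]
      rfl
  · have hz1 : z ^ (p * p ^ b) = 1 := by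
      have h2 := pow_orderOf_eq_one z
      rw [hq, pow_succ, mul_comm (p ^ b) p] at h2
      exact h2
    have h2 := glaub_pos hM hz hz1 hT hΨ h1
    rw [pow_succ, mul_comm (p ^ b) p]
    exact h2

end Pool.Agent.Lib.H90Q
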