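import Pool.Agent.Lib.H90Q.A18
import Pool.Agent.Lib.H90Q.B5

open scoped Classical ComplexConjugate BigOperators

noncomputable section

namespace Pool.Agent.Lib.H90Q

variable {G : Type*} [Group G] [Fintype G]

private theorem b6_mu_congr (K : Subgroup G) {f f' φ : G → ℂ} (h : ∀ x ∈ K, f x = f' x) : mu K f φ = mu K f' φ := by
  unfold mu
  rw [ip_congr K h (fun x _ => rfl)]

private theorem b6_not_dvd {p : ℕ} [Fact p.Prime] {n : ℕ} {ε : ℤ} (hε : ε = 1 ∨ ε = -1) (h : (n : ℤ) ≡ ε [ZMOD p]) : ¬ p ∣ n := by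
  intro hd
  have hp : p.Prime := Fact.out
  have h1 : ((p : ℕ) : ℤ) ∣ (n : ℤ) := by exact_mod_cast hd
  have h2 : ((p : ℕ) : ℤ) ∣ ε - n := h.dvd
  have h3 : ((p : ℕ) : ℤ) ∣ ε := by
    have := dvd_add h2 h1
    rwa [sub_add_cancel] at this
  have h4 : ((p : ℕ) : ℤ) ∣ 1 := by
    rcases hε with rfl | rfl
    · exact h3
    · exact (Int.dvd_neg.mp h3)
  have h5 : p ∣ 1 := by exact_mod_cast h4
  exact hp.one_lt.ne' (Nat.dvd_one.mp h5)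

/-- the data of `glaub` for an invariant character `χ` -/
private theorem b6_data {p : ℕ} [Fact p.Prime] {M : Subgroup G} (hM : ¬ p ∣ Nat.card M) {z : G} (hz : Nz z M) {a : ℕ} (hq : z ^ (p ^ a) = 1)
    {χ : G → ℂ} (hχ : χ ∈ IrrS M) (hinv : cj z χ = χ) :
    ∃ Ψ ∈ IrrS (M ⊔ Subgroup.zpowers z), (∀ x ∈ M, Ψ x = χ x) ∧
    ∃ ψ ∈ IrrS (CM M {z}), ∃ ε : ℤ, (ε = 1 ∨ ε = -1) ∧ ∃ w : ℂ, w ≠ 0 ∧
      (∀ d ∈ CM M {z}, Ψ (z ^ 1 * d) = (ε : ℂ) * w * ψ d) ∧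
      (∀ ψ' ∈ IrrS (CM M {z}), ψ' ≠ ψ → p ∣ mu (CM M {z}) χ ψ') ∧
      ((mu (CM M {z}) χ ψ : ℤ) ≡ ε [ZMOD p]) := by
  have hp : p.Prime := Fact.out
  obtain ⟨Ψ, hΨ, hext⟩ := ext_cyclic hz rfl hχ hinv
  have h1 : ip M Ψ Ψ = 1 := ip_self_of_ext hχ hext
  obtain ⟨b, -, hb⟩ := (Nat.dvd_prime_pow hp).mp (orderOf_dvd_of_pow_eq_one hq)
  obtain ⟨ψ, hψ, ε, hε, w, hw, hval, hdiv, hmod⟩ := glaub hM hz hb rfl hΨ h1
  have hmu : ∀ φ, mu (CM M {z}) Ψ φ = mu (CM M {z}) χ φ := fun φ =>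
    b6_mu_congr _ (fun x hx => hext x (show x ∈ M from (Subgroup.mem_inf.mp hx).1))
  refine ⟨Ψ, hΨ, hext, ψ, hψ, ε, hε, w, ?_, ?_, ?_, ?_⟩
  · rintro rfl
    rw [zero_pow (pow_ne_zero _ hp.ne_zero)] at hw
    exact zero_ne_one hw
  · intro d hd
    have := hval 1 (Nat.coprime_one_left p) d hd
    rwa [pow_one w] at this
  · intro ψ' h h'
    rw [← hmu]
    exact hdiv ψ' h h'
  · rw [← hmu]
    exact hmod

/-- Existence and uniqueness of the Glauberman correspondent for one `p`-element `z` normalising the `p'`-group `M`: `ext_cyclic` gives an extension `Ψ` of `χ` to `M⟨z⟩`,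
then `glaub` (the multiplicities of `Ψ` and `χ` on `C_M(z) ≤ M` are the same; `ε` is not `0` mod `p`). -/
theorem glaub_exists {p : ℕ} [Fact p.Prime] {M : Subgroup G} (hM : ¬ p ∣ Nat.card M) {z : G} (hz : Nz z M) {a : ℕ} (hq : z ^ (p ^ a) = 1)
    {χ : G → ℂ} (hχ : χ ∈ IrrS M) (hinv : cj z χ = χ) :
    ∃ ψ, GC p M {z} χ ψ ∧ (∀ ψ' ∈ IrrS (CM M {z}), ψ' ≠ ψ → p ∣ mu (CM M {z}) χ ψ') ∧
      ((mu (CM M {z}) χ ψ : ℤ) ≡ 1 [ZMOD p] ∨ (mu (CM M {z}) χ ψ : ℤ) ≡ -1 [ZMOD p]) := by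
  obtain ⟨Ψ, hΨ, hext, ψ, hψ, ε, hε, w, hw, hval, hdiv, hmod⟩ := b6_data hM hz hq hχ hinv
  refine ⟨ψ, ⟨hχ, hψ, b6_not_dvd hε hmod⟩, hdiv, ?_⟩
  rcases hε with rfl | rfl
  · exact Or.inl hmod
  · exact Or.inr hmod

/-- Injectivity: extensions `Ψ, Ψ'` of `χ ≠ χ'`; `glaub_zero` with `j = 1`, but `Ψ(z d) = ε w ψ(d)`, `Ψ'(z d) = ε' w' ψ(d)` with the same `ψ` (uniqueness in `glaub_exists`)
and the sum is `ε ε' w conj w' ≠ 0`. -/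
theorem glaub_inj {p : ℕ} [Fact p.Prime] {M : Subgroup G} (hM : ¬ p ∣ Nat.card M) {z : G} (hz : Nz z M) {a : ℕ} (hq : z ^ (p ^ a) = 1)
    {χ χ' ψ : G → ℂ} (hinv : cj z χ = χ) (hinv' : cj z χ' = χ') (h : GC p M {z} χ ψ) (h' : GC p M {z} χ' ψ) : χ = χ' := by
  by_contra hne
  obtain ⟨Ψ, hΨ, hext, ψ₁, hψ₁, ε, hε, w, hw, hval, hdiv, -⟩ := b6_data hM hz hq h.1 hinv
  obtain ⟨Ψ', hΨ', hext', ψ₂, hψ₂, ε', hε', w', hw', hval', hdiv', -⟩ := b6_data hM hz hq h'.1 hinv'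
  have e1 : ψ = ψ₁ := by
    by_contra h1
    exact h.2.2 (hdiv ψ h.2.1 h1)
  have e2 : ψ = ψ₂ := by
    by_contra h1
    exact h'.2.2 (hdiv' ψ h'.2.1 h1)
  subst e1
  subst e2
  have h0 : ip M Ψ Ψ' = 0 := by
    rw [ip_congr M hext hext', irrS_ortho h.1 h'.1, if_neg hne]
  have hz0 := glaub_zero hM hz hq rfl hΨ hΨ' h0 (Nat.coprime_one_left p)
  have hs : ∀ d : G, (if d ∈ CM M {z} then Ψ (z ^ 1 * d) * conj (Ψ' (z ^ 1 * d)) else 0) =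
      ((ε : ℂ) * w * conj ((ε' : ℂ) * w')) * (if d ∈ CM M {z} then ψ d * conj (ψ d) else 0) := by
    intro d
    by_cases hd : d ∈ CM M {z}
    · rw [if_pos hd, if_pos hd, hval d hd, hval' d hd, map_mul (starRingEnd ℂ) ((ε' : ℂ) * w') (ψ d)]
      ring
    · rw [if_neg hd, if_neg hd, mul_zero]
  have h1 := irrS_ortho h.2.1 h.2.1
  rw [if_pos rfl] at h1
  unfold ip at h1
  rw [Finset.sum_congr rfl (fun d _ => hs d), ← Finset.mul_sum, mul_left_comm, h1, mul_one] at hz0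
  have hεc : ∀ e : ℤ, (e = 1 ∨ e = -1) → (e : ℂ) ≠ 0 := by
    intro e he
    rcases he with rfl | rfl <;> norm_num
  have h2 : conj ((ε' : ℂ) * w') ≠ 0 := by
    rw [Ne, map_eq_zero]
    exact mul_ne_zero (hεc ε' hε') hw'
  exact (mul_ne_zero (mul_ne_zero (hεc ε hε) hw) h2) hz0

end Pool.Agent.Lib.H90Q
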