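import Pool.Agent.Lib.H90Q.B6

open scoped Classical ComplexConjugate BigOperators

noncomputable section

namespace Pool.Agent.Lib.H90Q

variable {G : Type*} [Group G] [Fintype G]

private theorem b7_mu_congr (K : Subgroup G) {f f' φ : G → ℂ} (h : ∀ x ∈ K, f x = f' x) : mu K f φ = mu K f' φ := by
  unfold mu
  rw [ip_congr K h (fun x _ => rfl)]

private theorem b7_not_dvd {p : ℕ} [Fact p.Prime] {n : ℕ} {ε : ℤ} (hε : ε = 1 ∨ ε = -1) (h : (n : ℤ) ≡ ε [ZMOD p]) : ¬ p ∣ n := by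
  intro hd
  have hp : p.Prime := Fact.out
  have h1 : ((p : ℕ) : ℤ) ∣ (n : ℤ) := by exact_mod_cast hd
  have h2 : ((p : ℕ) : ℤ) ∣ ε - n := h.dvd
  have h3 : ((p : ℕ) : ℤ) ∣ ε := by
    have := dvd_add h2 h1
    rwa [sub_add_cancel] at this
  have h4 : ((p : ℕ) : ℤ) ∣ 1 := by
    rcases hε with rfl | rfl
    · exact h3
    · exact (Int.dvd_neg.mp h3)
  have h5 : p ∣ 1 := by exact_mod_cast h4
  exact hp.one_lt.ne' (Nat.dvd_one.mp h5)

/-- the average over `M` of the function `g ↦ ψ (z⁻¹ g)` -/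
private def b7_F (M : Subgroup G) (z : G) (ψ : G → ℂ) (g : G) : ℂ :=
  ∑ m : G, if m ∈ M then ψ (z⁻¹ * (m⁻¹ * g * m)) else 0

private theorem b7_F_M (M : Subgroup G) (z : G) (ψ : G → ℂ) {a : G} (ha : a ∈ M) (g : G) :
    b7_F M z ψ (a * g * a⁻¹) = b7_F M z ψ g := by
  unfold b7_F
  rw [← Equiv.sum_comp (Equiv.mulLeft a)]
  refine Finset.sum_congr rfl fun m _ => ?_
  have e1 : (Equiv.mulLeft a) m = a * m := rfl
  rw [e1]
  by_cases hm : m ∈ M
  · rw [if_pos hm, if_pos (M.mul_mem ha hm)]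
    have e2 : (a * m)⁻¹ * (a * g * a⁻¹) * (a * m) = m⁻¹ * g * m := by group
    rw [e2]
  · rw [if_neg hm, if_neg (fun h => hm ((M.mul_mem_cancel_left ha).1 h))]

private theorem b7_comm {M : Subgroup G} {z : G} {ψ : G → ℂ} (hψ : ψ ∈ IrrS (CM M {z})) (y : G) :
    ψ (y * z⁻¹) = ψ (z⁻¹ * y) := by
  by_cases h1 : z⁻¹ * y ∈ CM M {z}
  · have h2 := (mem_CM_single.1 h1).2
    have h3 : y * z⁻¹ = z⁻¹ * y := by
      have h4 : z⁻¹ * y * z = y := by
        rw [h2]
        group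
      calc y * z⁻¹ = (z⁻¹ * y * z) * z⁻¹ := by rw [h4]
        _ = z⁻¹ * y := by group
    rw [h3]
  · by_cases h2 : y * z⁻¹ ∈ CM M {z}
    · have h3 := (mem_CM_single.1 h2).2
      have h4 : z⁻¹ * y = y * z⁻¹ := by
        have h5 : y = z * (y * z⁻¹) := by
          rw [← h3]
          group
        calc z⁻¹ * y = z⁻¹ * (z * (y * z⁻¹)) := by rw [← h5]
          _ = y * z⁻¹ := by group
      rw [h4]
    · rw [hψ.1 _ h1, hψ.1 _ h2]

private theorem b7_F_z {M : Subgroup G} {z : G} (hz : Nz z M) {ψ : G → ℂ} (hψ : ψ ∈ IrrS (CM M {z})) (g : G) :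
    b7_F M z ψ (z * g * z⁻¹) = b7_F M z ψ g := by
  unfold b7_F
  rw [← Equiv.sum_comp (MulAut.conj z).toEquiv]
  refine Finset.sum_congr rfl fun m _ => ?_
  have e1 : (MulAut.conj z).toEquiv m = z * m * z⁻¹ := rfl
  rw [e1]
  by_cases hm : m ∈ M
  · rw [if_pos hm, if_pos ((hz m).1 hm), ← b7_comm hψ (m⁻¹ * g * m)]
    congr 1
    group
  · rw [if_neg hm, if_neg (fun h => hm ((hz m).2 h))]

private theorem b7_cf {M : Subgroup G} {z : G} (hz : Nz z M) {ψ : G → ℂ} (hψ : ψ ∈ IrrS (CM M {z})) :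
    IsCF (M ⊔ Subgroup.zpowers z) (b7_F M z ψ) := by
  have hMT : M ≤ M ⊔ Subgroup.zpowers z := le_sup_left
  have hzT : z ∈ M ⊔ Subgroup.zpowers z := Subgroup.mem_sup_right (Subgroup.mem_zpowers z)
  constructor
  · intro g hg
    unfold b7_F
    refine Finset.sum_eq_zero fun m _ => ?_
    by_cases hm : m ∈ M
    · rw [if_pos hm]
      refine hψ.1 _ fun h => hg ?_
      have h1 : z⁻¹ * (m⁻¹ * g * m) ∈ M ⊔ Subgroup.zpowers z := hMT (mem_CM_single.1 h).1
      have h2 : g = m * (z * (z⁻¹ * (m⁻¹ * g * m))) * m⁻¹ := by group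
      rw [h2]
      exact Subgroup.mul_mem _ (Subgroup.mul_mem _ (hMT hm) (Subgroup.mul_mem _ hzT h1)) (Subgroup.inv_mem _ (hMT hm))
    · rw [if_neg hm]
  · let S : Subgroup G :=
      { carrier := {a | ∀ g, b7_F M z ψ (a * g * a⁻¹) = b7_F M z ψ g}
        one_mem' := by
          intro g
          rw [one_mul, inv_one, mul_one]
        mul_mem' := by
          intro a b ha hb g
          have e1 : a * b * g * (a * b)⁻¹ = a * (b * g * b⁻¹) * a⁻¹ := by group
          rw [e1, ha, hb]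
        inv_mem' := by
          intro a ha g
          have h1 := ha (a⁻¹ * g * a⁻¹⁻¹)
          have e1 : a * (a⁻¹ * g * a⁻¹⁻¹) * a⁻¹ = g := by group
          rw [e1] at h1
          exact h1.symm }
    have hMS : M ≤ S := fun m hm g => b7_F_M M z ψ hm g
    have hzS : Subgroup.zpowers z ≤ S := by
      rw [Subgroup.zpowers_le]
      exact fun g => b7_F_z hz hψ g
    intro a ha
    exact (sup_le hMS hzS) ha

/-- the inner product with a class function of `T` -/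
private theorem b7_sum {M : Subgroup G} {z : G} {ψ : G → ℂ} (hψ : ψ ∈ IrrS (CM M {z}))
    {Φ : G → ℂ} (hΦ : IsCF (M ⊔ Subgroup.zpowers z) Φ) :
    ∑ g : G, (if g ∈ M ⊔ Subgroup.zpowers z then b7_F M z ψ g * conj (Φ g) else 0) =
      (Nat.card M : ℂ) * ∑ d : G, (if d ∈ CM M {z} then ψ d * conj (Φ (z ^ 1 * d)) else 0) := by
  have hMT : M ≤ M ⊔ Subgroup.zpowers z := le_sup_left
  have hzT : z ∈ M ⊔ Subgroup.zpowers z := Subgroup.mem_sup_right (Subgroup.mem_zpowers z)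
  have e1 : ∀ g : G, (if g ∈ M ⊔ Subgroup.zpowers z then b7_F M z ψ g * conj (Φ g) else 0) =
      ∑ m : G, (if m ∈ M then (if g ∈ M ⊔ Subgroup.zpowers z then ψ (z⁻¹ * (m⁻¹ * g * m)) * conj (Φ g) else 0) else 0) := by
    intro g
    by_cases hg : g ∈ M ⊔ Subgroup.zpowers z
    · rw [if_pos hg]
      unfold b7_F
      rw [Finset.sum_mul]
      refine Finset.sum_congr rfl fun m _ => ?_
      by_cases hm : m ∈ M
      · rw [if_pos hm, if_pos hm, if_pos hg]
      · rw [if_neg hm, if_neg hm, zero_mul]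
    · rw [if_neg hg]
      symm
      refine Finset.sum_eq_zero fun m _ => ?_
      by_cases hm : m ∈ M
      · rw [if_pos hm, if_neg hg]
      · rw [if_neg hm]
  have e2 : ∀ m : G, ∑ g : G, (if m ∈ M then (if g ∈ M ⊔ Subgroup.zpowers z then ψ (z⁻¹ * (m⁻¹ * g * m)) * conj (Φ g) else 0) else 0) =
      if m ∈ M then ∑ d : G, (if d ∈ CM M {z} then ψ d * conj (Φ (z ^ 1 * d)) else 0) else 0 := by
    intro m
    by_cases hm : m ∈ M
    · rw [if_pos hm]
      rw [← Equiv.sum_comp ((Equiv.mulLeft z).trans (MulAut.conj m).toEquiv)]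
      refine Finset.sum_congr rfl fun d _ => ?_
      have e3 : ((Equiv.mulLeft z).trans (MulAut.conj m).toEquiv) d = m * (z * d) * m⁻¹ := rfl
      rw [e3, if_pos hm]
      have e4 : z⁻¹ * (m⁻¹ * (m * (z * d) * m⁻¹) * m) = d := by group
      rw [e4, hΦ.2 m (hMT hm) (z * d), pow_one]
      by_cases hd : d ∈ CM M {z}
      · rw [if_pos hd, if_pos]
        exact Subgroup.mul_mem _ (Subgroup.mul_mem _ (hMT hm) (Subgroup.mul_mem _ hzT (hMT (mem_CM_single.1 hd).1))) (Subgroup.inv_mem _ (hMT hm))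
      · rw [if_neg hd, hψ.1 d hd, zero_mul]
        split_ifs <;> rfl
    · rw [if_neg hm]
      refine Finset.sum_eq_zero fun g _ => ?_
      rw [if_neg hm]
  rw [Finset.sum_congr rfl (fun g _ => e1 g), Finset.sum_comm, Finset.sum_congr rfl (fun m _ => e2 m), A15_sum_mem]

private theorem b7_F_ne {p : ℕ} [Fact p.Prime] {M : Subgroup G} (hM : ¬ p ∣ Nat.card M) {z : G} {a : ℕ} (hq : z ^ (p ^ a) = 1)
    {ψ : G → ℂ} (hψ : ψ ∈ IrrS (CM M {z})) : b7_F M z ψ z ≠ 0 := by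
  have e1 : b7_F M z ψ z = ∑ m : G, (if m ∈ CM M {z} then ψ 1 else 0) := by
    unfold b7_F
    refine Finset.sum_congr rfl fun m _ => ?_
    by_cases hD : m ∈ CM M {z}
    · obtain ⟨hm, hc⟩ := mem_CM_single.1 hD
      rw [if_pos hm, if_pos hD]
      have e2 : z⁻¹ * (m⁻¹ * z * m) = 1 := by
        have e3 : m⁻¹ * z * m = m⁻¹ * (m * z) := by rw [hc, mul_assoc]
        rw [e3]
        group
      rw [e2]
    · rw [if_neg hD]
      by_cases hm : m ∈ M
      · rw [if_pos hm]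
        refine hψ.1 _ fun h => hD ?_
        refine coset_fibre hM hq (Nat.coprime_one_left p) hm (Subgroup.one_mem _) h ?_
        rw [pow_one, mul_one]
        group
      · rw [if_neg hm]
  obtain ⟨n, hn, hn1⟩ := irrS_one hψ
  rw [e1, A15_sum_mem, hn1]
  refine mul_ne_zero (A15_card_ne _) ?_
  exact_mod_cast hn.ne'

/-- Surjectivity. `D = C_M(z)`, `T = M⟨z⟩`. Suppose `ψ ∈ Irr D` is not a correspondent. Let `u g = ψ (z⁻¹ g)` (so `u (z d) = ψ d` for `d ∈ D`, `u` vanishes off `z D`) and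
`F g = ∑_(m ∈ M) u (m⁻¹ g m)`. `F` is a class function of `T`: invariant under `M` by substitution, and under `z` because `u (z y z⁻¹) = u y` (for `y = z d` we have `z y z⁻¹ = y`),
and `m ↦ z m z⁻¹` permutes `M`. For a class function `Φ` of `T`: `∑_(g ∈ T) F g conj (Φ g) = |M| ∑_(d ∈ D) ψ d conj (Φ (z d))`. For `Φ ∈ Irr T` with `ip M Φ Φ ≠ 1` this is `0` by
`coset_vanish` (each `z d` generates `T` modulo `M`: `sup_zpowers_coset`); otherwise `Φ` restricts to `χ ∈ Irr M`, `z`-invariant, and `Φ (z d) = ε w ψ'(d)` with `ψ'` the correspondent of `χ`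
(`glaub`), `ψ' ≠ ψ`, so it is `0` too. By `cf_expand` `F = 0`. But all non-zero terms of `F z` are `ψ 1` (`coset_fibre`: `m⁻¹ z m = z d` forces `m ∈ D`, `d = 1`) and `m = 1` gives one: `F z ≠ 0`. -/
theorem glaub_surj {p : ℕ} [Fact p.Prime] {M : Subgroup G} (hM : ¬ p ∣ Nat.card M) {z : G} (hz : Nz z M) {a : ℕ} (hq : z ^ (p ^ a) = 1)
    {ψ : G → ℂ} (hψ : ψ ∈ IrrS (CM M {z})) : ∃ χ, cj z χ = χ ∧ GC p M {z} χ ψ := by
  have hp : p.Prime := Fact.out
  by_contra hcon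
  push Not at hcon
  have hMT : M ≤ M ⊔ Subgroup.zpowers z := le_sup_left
  have hzT : z ∈ M ⊔ Subgroup.zpowers z := Subgroup.mem_sup_right (Subgroup.mem_zpowers z)
  have hDM : ∀ x ∈ CM M {z}, x ∈ M := fun x hx => (mem_CM_single.1 hx).1
  have hn : ∀ t ∈ M ⊔ Subgroup.zpowers z, Nz t M := nz_sup (nz_zpowers hz)
  obtain ⟨b, -, hb⟩ := (Nat.dvd_prime_pow hp).mp (orderOf_dvd_of_pow_eq_one hq)
  have hkey : ∀ Φ ∈ IrrS (M ⊔ Subgroup.zpowers z), ∑ d : G, (if d ∈ CM M {z} then ψ d * conj (Φ (z ^ 1 * d)) else 0) = 0 := by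
    intro Φ hΦ
    by_cases h1 : ip M Φ Φ = 1
    · obtain ⟨ψ', hψ', ε, hε, w, -, hval, -, hmod⟩ := glaub hM hz hb rfl hΦ h1
      have hχ : rs M Φ ∈ IrrS M := rs_irr hMT (charS_of_irrS hΦ) h1
      have hres : ∀ x ∈ M, Φ x = rs M Φ x := by
        intro x hx
        unfold rs
        rw [if_pos hx]
      have hinv : cj z (rs M Φ) = rs M Φ := ext_inv hMT hn (charS_of_irrS hΦ) hχ hres hzT
      have hne : ψ ≠ ψ' := by
        rintro rfl
        refine hcon (rs M Φ) hinv ⟨hχ, hψ, ?_⟩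
        rw [← b7_mu_congr (CM M {z}) (fun x hx => hres x (hDM x hx))]
        exact b7_not_dvd hε hmod
      have h0 := irrS_ortho hψ hψ'
      rw [if_neg hne] at h0
      unfold ip at h0
      have h2 := (mul_eq_zero.1 h0).resolve_left (inv_ne_zero (A15_card_ne _))
      have h3 : ∀ d : G, (if d ∈ CM M {z} then ψ d * conj (Φ (z ^ 1 * d)) else 0) =
          conj ((ε : ℂ) * w ^ 1) * (if d ∈ CM M {z} then ψ d * conj (ψ' d) else 0) := by
        intro d
        by_cases hd : d ∈ CM M {z}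
        · rw [if_pos hd, if_pos hd, hval 1 (Nat.coprime_one_left p) d hd, map_mul (starRingEnd ℂ) ((ε : ℂ) * w ^ 1) (ψ' d)]
          ring
        · rw [if_neg hd, if_neg hd, mul_zero]
      rw [Finset.sum_congr rfl (fun d _ => h3 d), ← Finset.mul_sum, h2, mul_zero]
    · refine Finset.sum_eq_zero fun d _ => ?_
      by_cases hd : d ∈ CM M {z}
      · obtain ⟨h4, h5⟩ := sup_zpowers_coset hz hq (Nat.coprime_one_left p) (hDM d hd)
        rw [if_pos hd, coset_vanish h4 h5.symm hΦ h1, map_zero, mul_zero]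
      · rw [if_neg hd]
  have hF0 : b7_F M z ψ = 0 := by
    rw [cf_expand (b7_cf hz hψ)]
    refine Finset.sum_eq_zero fun Φ hΦ => ?_
    have hΦ' := mem_irr.1 hΦ
    have h6 : ip (M ⊔ Subgroup.zpowers z) (b7_F M z ψ) Φ = 0 := by
      unfold ip
      rw [b7_sum hψ (cf_charS (charS_of_irrS hΦ')), hkey Φ hΦ', mul_zero, mul_zero]
    rw [h6, zero_smul]
  exact b7_F_ne hM hq hψ (congrFun hF0 z)

end Pool.Agent.Lib.H90Q
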