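import Pool.Agent.Lib.H90Q.B7

open scoped Classical ComplexConjugate BigOperators

noncomputable section

namespace Pool.Agent.Lib.H90Q

variable {G : Type*} [Group G] [Fintype G]

/-- transitivity of multiplicities -/
theorem mu_trans {H M D : Subgroup G} (h1 : M ≤ H) (h2 : D ≤ M) {χ ψ : G → ℂ} (hχ : χ ∈ CharS H) (hψ : ψ ∈ IrrS D) :
    mu D χ ψ = ∑ φ ∈ irr M, mu M χ φ * mu D φ ψ := by
  have e0 : ip D χ ψ = ip D (rs M χ) ψ :=
    ip_congr D (fun x hx => (if_pos (h2 hx)).symm) (fun _ _ => rfl)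
  have e1 : ((mu D χ ψ : ℕ) : ℂ) = ((∑ φ ∈ irr M, mu M χ φ * mu D φ ψ : ℕ) : ℂ) := by
    rw [mu_spec (h2.trans h1) hχ hψ, e0, charS_expand h1 hχ, ip_sum_left, Nat.cast_sum]
    refine Finset.sum_congr rfl fun φ hφ => ?_
    rw [ip_smul_left, Nat.cast_mul, mu_spec h2 (charS_of_irrS (mem_irr.1 hφ)) hψ]
  exact_mod_cast e1

/-- `f` is invariant under the subgroup `A` -/
def InvS (A : Subgroup G) (f : G → ℂ) : Prop := ∀ a ∈ A, cj a f = f

/-- The Glauberman correspondence of `A` on `M` exists and is a bijection from the `A`-invariant characters in `Irr M` to `Irr (C_M(A))`; the correspondent is the only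
constituent with multiplicity prime to `p`, and this multiplicity is `±1` modulo `p`. -/
structure GCBij (p : ℕ) (M A : Subgroup G) : Prop where
  ex : ∀ χ ∈ IrrS M, InvS A χ → ∃ ψ, GC p M A χ ψ
  sgn : ∀ χ ψ, InvS A χ → GC p M A χ ψ → ((mu (CM M A) χ ψ : ℤ) ≡ 1 [ZMOD p] ∨ (mu (CM M A) χ ψ : ℤ) ≡ -1 [ZMOD p])
  uniq : ∀ χ ψ ψ', InvS A χ → GC p M A χ ψ → GC p M A χ ψ' → ψ = ψ'
  inj : ∀ χ χ' ψ, InvS A χ → InvS A χ' → GC p M A χ ψ → GC p M A χ' ψ → χ = χ'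
  surj : ∀ ψ ∈ IrrS (CM M A), ∃ χ, InvS A χ ∧ GC p M A χ ψ

/-- equivariance -/
theorem gc_cj {p : ℕ} {M A : Subgroup G} {b : G} (hM : Nz b M) (hA : Nz b A) {χ ψ : G → ℂ} (h : GC p M A χ ψ) :
    GC p M A (cj b χ) (cj b ψ) := by
  have hC : Nz b (CM M (A : Set G)) := nz_CM hM hA
  refine ⟨cj_irrS hM h.1, cj_irrS hC h.2.1, ?_⟩
  have e : mu (CM M (A : Set G)) (cj b χ) (cj b ψ) = mu (CM M (A : Set G)) χ ψ := by
    unfold mu
    rw [ip_cj hC]
  rw [e]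
  exact h.2.2

private theorem b8_CM_CM {M A' B : Subgroup G} (hAB : A' ≤ B) :
    CM (CM M (A' : Set G)) (B : Set G) = CM M (B : Set G) := by
  ext d
  rw [mem_CM, mem_CM, mem_CM]
  exact ⟨fun h => ⟨h.1.1, h.2⟩, fun h => ⟨⟨h.1, fun z hz => h.2 z (hAB hz)⟩, h.2⟩⟩

private theorem b8_CM_le {M : Subgroup G} {A : Set G} : CM M A ≤ M := inf_le_left

/-- the multiplicity modulo `p` for a general constituent -/
private theorem b8_mod {p : ℕ} {M A' B : Subgroup G} (hAB : A' ≤ B) (h0 : GCBij p M A')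
    {χ χ' ψ : G → ℂ} (hinv : InvS A' χ) (h : GC p M A' χ χ') (hψ : ψ ∈ IrrS (CM M (B : Set G))) :
    (mu (CM M B) χ ψ : ℤ) ≡ (mu (CM M A') χ χ' : ℤ) * (mu (CM M B) χ' ψ : ℤ) [ZMOD p] := by
  have hD : CM M (B : Set G) ≤ CM M (A' : Set G) := by
    rw [← b8_CM_CM hAB]
    exact b8_CM_le
  have e := mu_trans (b8_CM_le : CM M (A' : Set G) ≤ M) hD (charS_of_irrS h.1) hψ
  rw [← Finset.add_sum_erase _ _ (mem_irr.2 h.2.1)] at e
  rw [e]
  push_cast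
  have hz : ((∑ φ ∈ (irr (CM M (A' : Set G))).erase χ',
      (mu (CM M (A' : Set G)) χ φ : ℤ) * (mu (CM M (B : Set G)) φ ψ : ℤ)) ≡ 0 [ZMOD p]) := by
    apply Int.modEq_zero_iff_dvd.2
    refine Finset.dvd_sum fun φ hφ => ?_
    have hne := Finset.ne_of_mem_erase hφ
    have hmem := mem_irr.1 (Finset.mem_of_mem_erase hφ)
    have hd : p ∣ mu (CM M (A' : Set G)) χ φ := by
      by_contra hcon
      exact hne (h0.uniq χ φ χ' hinv ⟨h.1, hmem, hcon⟩ h)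
    exact Dvd.dvd.mul_right (by exact_mod_cast hd) _
  have := Int.ModEq.add_left ((mu (CM M (A' : Set G)) χ χ' : ℤ) * (mu (CM M (B : Set G)) χ' ψ : ℤ)) hz
  rw [add_zero] at this
  exact this

private theorem b8_gc_cm {p : ℕ} {M A' B : Subgroup G} (hAB : A' ≤ B) {χ' ψ : G → ℂ} :
    GC p (CM M (A' : Set G)) B χ' ψ ↔
      χ' ∈ IrrS (CM M (A' : Set G)) ∧ ψ ∈ IrrS (CM M (B : Set G)) ∧ ¬ p ∣ mu (CM M (B : Set G)) χ' ψ := by
  unfold GC
  rw [b8_CM_CM hAB]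

/-- `A' ≤ B`: composition of correspondents. `CM (CM M A') B = CM M B`; by `mu_trans` modulo `p` the multiplicity of `ψ` in `χ` is the product of the two multiplicities. -/
theorem gc_trans {p : ℕ} [Fact p.Prime] {M A' B : Subgroup G} (hAB : A' ≤ B) (h0 : GCBij p M A') {χ χ' ψ : G → ℂ} (hinv : InvS A' χ)
    (h : GC p M A' χ χ') (h' : GC p (CM M A') B χ' ψ) : GC p M B χ ψ ∧
      ((mu (CM M B) χ ψ : ℤ) ≡ (mu (CM M A') χ χ' : ℤ) * (mu (CM M B) χ' ψ : ℤ) [ZMOD p]) := by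
  obtain ⟨h1, h2, h3⟩ := (b8_gc_cm hAB).1 h'
  have hmod := b8_mod hAB h0 hinv h h2
  refine ⟨⟨h.1, h2, ?_⟩, hmod⟩
  intro hd
  have hp : Prime ((p : ℕ) : ℤ) := Nat.prime_iff_prime_int.1 Fact.out
  have hd' : ((p : ℕ) : ℤ) ∣ (mu (CM M (B : Set G)) χ ψ : ℤ) := by exact_mod_cast hd
  have hd2 : ((p : ℕ) : ℤ) ∣ (mu (CM M (A' : Set G)) χ χ' : ℤ) * (mu (CM M (B : Set G)) χ' ψ : ℤ) :=
    (Int.ModEq.dvd_iff hmod).1 hd'
  rcases hp.dvd_or_dvd hd2 with h4 | h4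
  · exact h.2.2 (by exact_mod_cast h4)
  · exact h3 (by exact_mod_cast h4)

/-- the converse: a constituent with multiplicity prime to `p` comes from the correspondent -/
private theorem b8_back {p : ℕ} {M A' B : Subgroup G} (hAB : A' ≤ B) (h0 : GCBij p M A')
    {χ χ' ψ : G → ℂ} (hinv : InvS A' χ) (h : GC p M A' χ χ') (h' : GC p M B χ ψ) :
    GC p (CM M (A' : Set G)) B χ' ψ := by
  refine (b8_gc_cm hAB).2 ⟨h.2.1, h'.2.1, fun hd => h'.2.2 ?_⟩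
  have hmod := b8_mod hAB h0 hinv h h'.2.1
  have hd' : ((p : ℕ) : ℤ) ∣ (mu (CM M (B : Set G)) χ' ψ : ℤ) := by exact_mod_cast hd
  have hd2 : ((p : ℕ) : ℤ) ∣ (mu (CM M (B : Set G)) χ ψ : ℤ) :=
    (Int.ModEq.dvd_iff hmod).2 (Dvd.dvd.mul_left hd' _)
  exact_mod_cast hd2

private theorem b8_mu_irr {M : Subgroup G} {χ ψ : G → ℂ} (hχ : χ ∈ IrrS M) (hψ : ψ ∈ IrrS M) :
    mu M χ ψ = if χ = ψ then 1 else 0 := by
  unfold mu
  rw [irrS_ortho hχ hψ]
  by_cases h : χ = ψ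
  · rw [if_pos h, if_pos h]
    simp
  · rw [if_neg h, if_neg h]
    simp

theorem gcBij_bot (p : ℕ) [Fact p.Prime] (M : Subgroup G) : GCBij p M ⊥ := by
  have hp : p.Prime := Fact.out
  have hC : CM M ((⊥ : Subgroup G) : Set G) = M := by
    ext d
    rw [mem_CM]
    refine ⟨fun h => h.1, fun h => ⟨h, fun z hz => ?_⟩⟩
    have : z = 1 := Subgroup.mem_bot.1 hz
    rw [this, mul_one, one_mul]
  have hgc : ∀ χ ψ : G → ℂ, GC p M ((⊥ : Subgroup G) : Set G) χ ψ → χ = ψ := by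
    intro χ ψ h
    obtain ⟨h1, h2, h3⟩ := h
    rw [hC] at h2 h3
    by_contra hne
    rw [b8_mu_irr h1 h2, if_neg hne] at h3
    exact h3 (dvd_zero p)
  have hgc' : ∀ χ : G → ℂ, χ ∈ IrrS M → GC p M ((⊥ : Subgroup G) : Set G) χ χ := by
    intro χ hχ
    refine ⟨hχ, by rw [hC]; exact hχ, ?_⟩
    rw [hC, b8_mu_irr hχ hχ, if_pos rfl]
    exact hp.one_lt.ne' ∘ Nat.dvd_one.1
  refine ⟨fun χ hχ _ => ⟨χ, hgc' χ hχ⟩, fun χ ψ _ h => Or.inl ?_, fun χ ψ ψ' _ h h' => ?_,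
    fun χ χ' ψ _ _ h h' => ?_, fun ψ hψ => ?_⟩
  · have e := hgc χ ψ h
    subst e
    rw [hC, b8_mu_irr h.1 h.1, if_pos rfl]
    exact Int.ModEq.refl _
  · rw [← hgc χ ψ h, ← hgc χ ψ' h']
  · rw [hgc χ ψ h, hgc χ' ψ h']
  · rw [hC] at hψ
    refine ⟨ψ, fun a ha => ?_, hgc' ψ hψ⟩
    rw [Subgroup.mem_bot.1 ha, cj_one]

/-- One more generator. `B = A' ⊔ ⟨z⟩`, `M' = C_M(A')`, `z` normalises `M'`, `C_M(B) = C_(M')(z)`; `glaub_exists`, `glaub_inj`, `glaub_surj` for `(M', z)` (`M'` is a `p'`-group).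
`χ` `B`-invariant: its `A'`-correspondent `χ'` is `z`-invariant (`gc_cj`, `uniq`). Conversely, if `χ'` is `z`-invariant then `χ` is `z`-invariant (`gc_cj`, `inj`; `cj z χ` is `A'`-invariant because
`z` commutes with `A'`), hence `B`-invariant. Multiplicities modulo `p`: as in `gc_trans`. -/
theorem gcBij_step {p : ℕ} [Fact p.Prime] {M A' : Subgroup G} (hM : ¬ p ∣ Nat.card M) (hn : ∀ b ∈ A', Nz b M) {z : G} (hz : Nz z M)
    {a : ℕ} (hq : z ^ (p ^ a) = 1) (hc : ∀ b ∈ A', b * z = z * b) (h0 : GCBij p M A') : GCBij p M (A' ⊔ Subgroup.zpowers z) := by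
  have hzA : Nz z A' := by
    intro g
    constructor
    · intro hg
      have : z * g * z⁻¹ = g := by rw [← hc g hg]; group
      rwa [this]
    · intro hg
      have h1 := hc _ hg
      have : z * g * z⁻¹ = g := by
        have h2 : z * g = z * (z * g * z⁻¹) := by rw [← h1]; group
        have h3 := mul_left_cancel h2
        exact h3.symm
      rwa [this] at hg
  have hzM' : Nz z (CM M (A' : Set G)) := nz_CM hz hzA
  have hM' : ¬ p ∣ Nat.card (CM M (A' : Set G)) := fun h =>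
    hM (h.trans (Subgroup.card_dvd_of_le b8_CM_le))
  have hAB : A' ≤ A' ⊔ Subgroup.zpowers z := le_sup_left
  have hzB : z ∈ A' ⊔ Subgroup.zpowers z :=
    (le_sup_right : Subgroup.zpowers z ≤ _) (Subgroup.mem_zpowers z)
  -- `C_(M')(B) = C_(M')(z)`
  have hCz : CM (CM M (A' : Set G)) ((A' ⊔ Subgroup.zpowers z : Subgroup G) : Set G) =
      CM (CM M (A' : Set G)) {z} := by
    ext d
    rw [mem_CM, mem_CM_single]
    constructor
    · intro h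
      exact ⟨h.1, h.2 z hzB⟩
    · intro h
      refine ⟨h.1, fun y hy => ?_⟩
      have hle : A' ⊔ Subgroup.zpowers z ≤ Subgroup.centralizer {d} := by
        refine sup_le (fun b hb => ?_) ?_
        · rw [Subgroup.mem_centralizer_singleton_iff]
          exact ((mem_CM.1 h.1).2 b hb).symm
        · rw [Subgroup.zpowers_le, Subgroup.mem_centralizer_singleton_iff]
          exact h.2.symm
      have h3 := hle hy
      rw [Subgroup.mem_centralizer_singleton_iff] at h3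
      exact h3.symm
  have hGC : ∀ χ' ψ : G → ℂ, GC p (CM M (A' : Set G)) ((A' ⊔ Subgroup.zpowers z : Subgroup G) : Set G) χ' ψ ↔
      GC p (CM M (A' : Set G)) {z} χ' ψ := by
    intro χ' ψ
    unfold GC
    rw [hCz]
  -- invariance
  have hI1 : ∀ f : G → ℂ, InvS (A' ⊔ Subgroup.zpowers z) f → InvS A' f ∧ cj z f = f := fun f hf =>
    ⟨fun b hb => hf b (hAB hb), hf z hzB⟩
  have hI2 : ∀ f : G → ℂ, InvS A' f → cj z f = f → InvS (A' ⊔ Subgroup.zpowers z) f := by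
    intro f h1 h2 b hb
    let S : Subgroup G :=
      { carrier := {b | cj b f = f}
        mul_mem' := fun {x y} hx hy => by
          show cj (x * y) f = f
          rw [← cj_cj, show cj y f = f from hy, show cj x f = f from hx]
        one_mem' := cj_one f
        inv_mem' := fun {x} hx => by
          show cj x⁻¹ f = f
          have hx' : cj x f = f := hx
          conv_lhs => rw [← hx', cj_cj, inv_mul_cancel, cj_one] }
    have hle : A' ⊔ Subgroup.zpowers z ≤ S := sup_le (fun x hx => h1 x hx) (by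
      rw [Subgroup.zpowers_le]
      exact h2)
    exact hle hb
  -- the `A'`-correspondent of a `B`-invariant character is `z`-invariant
  have hzinv : ∀ χ χ' : G → ℂ, InvS (A' ⊔ Subgroup.zpowers z) χ → GC p M A' χ χ' → cj z χ' = χ' := by
    intro χ χ' hχ h
    have h1 := gc_cj hz hzA h
    rw [(hI1 χ hχ).2] at h1
    exact h0.uniq χ _ _ (hI1 χ hχ).1 h1 h
  have key : ∀ χ : G → ℂ, χ ∈ IrrS M → InvS (A' ⊔ Subgroup.zpowers z) χ →
      ∃ χ' ψ, GC p M A' χ χ' ∧ cj z χ' = χ' ∧ GC p (CM M (A' : Set G)) {z} χ' ψ ∧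
        GC p M ((A' ⊔ Subgroup.zpowers z : Subgroup G) : Set G) χ ψ ∧
        (∀ ψ', GC p M ((A' ⊔ Subgroup.zpowers z : Subgroup G) : Set G) χ ψ' → ψ' = ψ) ∧
        ((mu (CM M ((A' ⊔ Subgroup.zpowers z : Subgroup G) : Set G)) χ ψ : ℤ) ≡ 1 [ZMOD p] ∨
          (mu (CM M ((A' ⊔ Subgroup.zpowers z : Subgroup G) : Set G)) χ ψ : ℤ) ≡ -1 [ZMOD p]) := by
    intro χ hχ hinv
    obtain ⟨χ', h1⟩ := h0.ex χ hχ (hI1 χ hinv).1
    have h2 := hzinv χ χ' hinv h1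
    obtain ⟨ψ, h3, h4, h5⟩ := glaub_exists hM' hzM' hq h1.2.1 h2
    have h6 := gc_trans hAB h0 (hI1 χ hinv).1 h1 ((hGC χ' ψ).2 h3)
    refine ⟨χ', ψ, h1, h2, h3, h6.1, fun ψ' h7 => ?_, ?_⟩
    · have h8 := (hGC χ' ψ').1 (b8_back hAB h0 (hI1 χ hinv).1 h1 h7)
      by_contra hne
      exact h8.2.2 (h4 ψ' h8.2.1 hne)
    · have h7 := h0.sgn χ χ' (hI1 χ hinv).1 h1
      have h8 := h6.2
      rw [← b8_CM_CM (M := M) hAB, hCz] at h8 ⊢
      rcases h7 with h7 | h7 <;> rcases h5 with h5 | h5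
      · exact Or.inl (h8.trans (by simpa using h7.mul h5))
      · exact Or.inr (h8.trans (by simpa using h7.mul h5))
      · exact Or.inr (h8.trans (by simpa using h7.mul h5))
      · exact Or.inl (h8.trans (by simpa using h7.mul h5))
  refine ⟨fun χ hχ hinv => ?_, fun χ ψ hinv h => ?_, fun χ ψ ψ' hinv h h' => ?_,
    fun χ₁ χ₂ ψ hi₁ hi₂ h h' => ?_, fun ψ hψ => ?_⟩
  · obtain ⟨_, ψ, _, _, _, h, _⟩ := key χ hχ hinv
    exact ⟨ψ, h⟩
  · obtain ⟨_, ψ₁, _, _, _, _, hu, hs⟩ := key χ h.1 hinv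
    rw [hu ψ h]
    exact hs
  · obtain ⟨_, ψ₁, _, _, _, _, hu, _⟩ := key χ h.1 hinv
    rw [hu ψ h, hu ψ' h']
  · obtain ⟨χ₁', _, a1, a2, _, _, _⟩ := key χ₁ h.1 hi₁
    obtain ⟨χ₂', _, b1, b2, _, _, _⟩ := key χ₂ h'.1 hi₂
    have c1 := (hGC χ₁' ψ).1 (b8_back hAB h0 (hI1 χ₁ hi₁).1 a1 h)
    have c2 := (hGC χ₂' ψ).1 (b8_back hAB h0 (hI1 χ₂ hi₂).1 b1 h')
    have e := glaub_inj hM' hzM' hq a2 b2 c1 c2
    rw [e] at a1
    exact h0.inj χ₁ χ₂ χ₂' (hI1 χ₁ hi₁).1 (hI1 χ₂ hi₂).1 a1 b1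
  · have hψ' : ψ ∈ IrrS (CM (CM M (A' : Set G)) {z}) := by
      rw [← hCz, b8_CM_CM hAB]
      exact hψ
    obtain ⟨χ', h1, h2⟩ := glaub_surj hM' hzM' hq hψ'
    obtain ⟨χ, h3, h4⟩ := h0.surj χ' h2.1
    have h5 := gc_cj hz hzA h4
    rw [h1] at h5
    have h6 : InvS A' (cj z χ) := by
      intro b hb
      rw [cj_cj, hc b hb, ← cj_cj, h3 b hb]
    have h7 : cj z χ = χ := h0.inj _ _ χ' h6 h3 h5 h4
    exact ⟨χ, hI2 χ h3 h7, (gc_trans hAB h0 h3 h4 ((hGC χ' ψ).2 h2)).1⟩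

end Pool.Agent.Lib.H90Q
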