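import Pool.Agent.Lib.H90Q.B8

open scoped Classical ComplexConjugate BigOperators

noncomputable section

namespace Pool.Agent.Lib.H90Q

variable {G : Type*} [Group G] [Fintype G]

/-- A group `A` of elements of `p`-power order permutes the finite set `S`, `F` is constant on orbits and divisible by `p` on the
fixed points: then the sum of `F` over `S` is divisible by `p`. -/
theorem b9o_orbit {p : ℕ} [Fact p.Prime] {A : Subgroup G} (hA : ∀ z ∈ A, ∃ a : ℕ, z ^ (p ^ a) = 1)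
    (S : Finset (G → ℂ)) (hS : ∀ a ∈ A, ∀ φ ∈ S, cj a φ ∈ S) (F : (G → ℂ) → ℕ)
    (hF : ∀ a ∈ A, ∀ φ ∈ S, F (cj a φ) = F φ) (hfix : ∀ φ ∈ S, InvS A φ → p ∣ F φ) :
    p ∣ ∑ φ ∈ S, F φ := by
  have hcomp := Finset.sum_comp (s := S) (fun v : ℕ => v) F
  rw [hcomp]
  refine Finset.dvd_sum fun v hv => ?_
  rw [smul_eq_mul]
  by_cases hpv : p ∣ v
  · exact Dvd.dvd.mul_left hpv _
  · refine Dvd.dvd.mul_right ?_ _
    set T : Finset (G → ℂ) := S.filter (fun φ => F φ = v) with hT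
    have hTS : ∀ (a : A) (φ : {φ // φ ∈ T}), cj (a : G) φ.1 ∈ T := by
      intro a φ
      obtain ⟨h1, h2⟩ := Finset.mem_filter.1 φ.2
      exact Finset.mem_filter.2 ⟨hS a a.2 _ h1, (hF a a.2 _ h1).trans h2⟩
    letI act : MulAction A {φ // φ ∈ T} :=
      { smul := fun a φ => ⟨cj (a : G) φ.1, hTS a φ⟩
        one_smul := fun φ => Subtype.ext (cj_one φ.1)
        mul_smul := fun a b φ => Subtype.ext (cj_cj (a : G) (b : G) φ.1).symm }
    have hP : IsPGroup p A := by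
      intro z
      obtain ⟨a, ha⟩ := hA z z.2
      exact ⟨a, Subtype.ext (by rw [SubmonoidClass.coe_pow, ha]; rfl)⟩
    have h1 := hP.card_modEq_card_fixedPoints {φ // φ ∈ T}
    have h2 : MulAction.fixedPoints A {φ // φ ∈ T} = ∅ := by
      ext φ
      simp only [Set.mem_empty_iff_false, iff_false]
      intro hφ
      obtain ⟨h3, h4⟩ := Finset.mem_filter.1 φ.2
      apply hpv
      rw [← h4]
      refine hfix _ h3 fun a ha => ?_
      exact congrArg Subtype.val (hφ ⟨a, ha⟩)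
    rw [h2] at h1
    have h3 : Nat.card {φ // φ ∈ T} = T.card := by simp
    have h4 : Nat.card (∅ : Set {φ // φ ∈ T}) = 0 := by simp
    rw [h3, h4] at h1
    exact (Nat.modEq_zero_iff_dvd).1 h1

theorem b9_over_of_gc {p : ℕ} [Fact p.Prime] {L M A : Subgroup G} (hLM : L ≤ M) (hA : ∀ z ∈ A, ∃ a : ℕ, z ^ (p ^ a) = 1)
    (hnL : ∀ b ∈ A, Nz b L) (hL : GCBij p L A) (hM : GCBij p M A) {χ θ ψ θ₁ : G → ℂ} (hθ : InvS A θ) (hχ : InvS A χ)
    (h : GC p M A χ ψ) (h1 : GC p L A θ θ₁) (hpe : ¬ p ∣ mu (CM L A) ψ θ₁) : Over L χ θ := by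
  have hp : p.Prime := Fact.out
  have hDL : CM L (A : Set G) ≤ L := inf_le_left
  have hDM : CM M (A : Set G) ≤ M := inf_le_left
  have hDD : CM L (A : Set G) ≤ CM M (A : Set G) := inf_le_inf_right _ hLM
  have hχM : χ ∈ CharS M := charS_of_irrS h.1
  intro h0
  have hmu0 : mu L χ θ = 0 := by
    unfold mu
    rw [h0]
    simp
  -- the multiplicity of `θ₁` in `χ`, through `C_M(A)`
  have e1 := mu_trans hDM hDD hχM h1.2.1
  have e2 := mu_trans hLM hDL hχM h1.2.1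
  -- divisible by `p`
  have hdiv : p ∣ mu (CM L A) χ θ₁ := by
    rw [e2]
    refine b9o_orbit hA (irr L) (fun a ha φ hφ => ?_) _ (fun a ha φ hφ => ?_) fun φ hφ hinv => ?_
    · exact mem_irr.2 (cj_irrS (hnL a ha) (mem_irr.1 hφ))
    · have k1 : mu L χ (cj a φ) = mu L χ φ := by
        unfold mu
        rw [ip_cj_inv (hnL a ha) (fun x _ => congrFun (hχ a ha) x) φ]
      have k2 : mu (CM L A) (cj a φ) θ₁ = mu (CM L A) φ θ₁ := by
        unfold mu
        rw [ip_congr (CM L (A : Set G)) (f := cj a φ) (f' := φ) (fun x hx => ?_) fun x _ => rfl]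
        have hx2 : a * x = x * a := Subgroup.mem_centralizer_iff.1 (Subgroup.mem_inf.1 hx).2 a ha
        show φ (a⁻¹ * x * a) = φ x
        rw [mul_assoc, ← hx2, inv_mul_cancel_left]
      rw [k1, k2]
    · by_cases hpd : p ∣ mu (CM L A) φ θ₁
      · exact Dvd.dvd.mul_left hpd _
      · have hGC : GC p L A φ θ₁ := ⟨mem_irr.1 hφ, h1.2.1, hpd⟩
        have hφθ : φ = θ := hL.inj φ θ θ₁ hinv hθ hGC h1
        rw [hφθ, hmu0, zero_mul]
        exact dvd_zero p
  -- not divisible by `p`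
  rw [e1, ← Finset.add_sum_erase _ _ (mem_irr.2 h.2.1)] at hdiv
  have hrest : p ∣ ∑ φ ∈ (irr (CM M (A : Set G))).erase ψ, mu (CM M A) χ φ * mu (CM L A) φ θ₁ := by
    refine Finset.dvd_sum fun φ hφ => ?_
    obtain ⟨hne, hmem⟩ := Finset.mem_erase.1 hφ
    by_cases hpd : p ∣ mu (CM M A) χ φ
    · exact Dvd.dvd.mul_right hpd _
    · exact absurd (hM.uniq χ φ ψ hχ ⟨h.1, mem_irr.1 hmem, hpd⟩ h) hne
  have hmain : p ∣ mu (CM M A) χ ψ * mu (CM L A) ψ θ₁ := (Nat.dvd_add_left hrest).1 hdiv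
  rcases hp.dvd_mul.1 hmain with h2 | h2
  · exact h.2.2 h2
  · exact hpe h2

end Pool.Agent.Lib.H90Q
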