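import Pool.Agent.Lib.H90Q.A12
import Pool.Agent.Lib.H90Q.B0
import Pool.Agent.Lib.H90Q.B3



open scoped Classical ComplexConjugate BigOperators

noncomputable section

namespace Pool.Agent.Lib.H90Q

variable {G : Type*} [Group G] [Fintype G]

private theorem C0_basis {V : Type*} [AddCommGroup V] [Module ℂ V] [FiniteDimensional ℂ V] (T : Module.End ℂ V) {q : ℕ} (hq : 0 < q)
    (hT : T ^ q = 1) : ∃ (ι : Type) (_ : Fintype ι) (b : Module.Basis ι ℂ V) (μ : ι → ℂ), ∀ i, T (b i) = μ i • b i := by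
  have hq0 : (q : ℂ) ≠ 0 := by exact_mod_cast hq.ne'
  have hsep : (Polynomial.X ^ q - 1 : Polynomial ℂ).Separable := by
    have h := Polynomial.separable_X_pow_sub_C (1 : ℂ) hq0 one_ne_zero
    simpa using h
  have hsemi : T.IsSemisimple := by
    refine Module.End.isSemisimple_of_squarefree_aeval_eq_zero hsep.squarefree ?_
    simp [hT]
  have hfs := hsemi.isFinitelySemisimple
  have htop : ⨆ μ : ℂ, T.eigenspace μ = ⊤ := by
    rw [← Module.End.iSup_maxGenEigenspace_eq_top T]
    refine iSup_congr fun μ => ?_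
    exact (hfs.maxGenEigenspace_eq_eigenspace μ).symm
  have hind := T.eigenspaces_iSupIndep
  have hint : DirectSum.IsInternal (fun μ : ℂ => T.eigenspace μ) :=
    DirectSum.isInternal_submodule_of_iSupIndep_of_iSup_eq_top hind htop
  let b := hint.collectedBasis (fun μ => Module.finBasis ℂ (T.eigenspace μ))
  haveI : Finite (Σ μ : ℂ, Fin (Module.finrank ℂ (T.eigenspace μ))) := Module.Finite.finite_basis b
  refine ⟨_, Fintype.ofFinite _, b, fun i => i.1, ?_⟩
  intro i
  have h1 : b i ∈ T.eigenspace i.1 := hint.collectedBasis_mem _ i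
  exact Module.End.mem_eigenspace_iff.1 h1

private theorem C0_det {V : Type*} [AddCommGroup V] [Module ℂ V] [FiniteDimensional ℂ V] (T : Module.End ℂ V) {q : ℕ} (hq : 0 < q)
    (hT : T ^ q = 1) (m : ℕ → ℕ) (hm : ∀ i : ℕ, LinearMap.trace ℂ V (T ^ i) = vf q (fun k => (m k : ℤ)) i) :
    LinearMap.det T = ze q (∑ k ∈ Finset.range q, k * m k) := by
  obtain ⟨ι, hι, b, μ, hb⟩ := C0_basis T hq hT
  have hpow : ∀ (i : ℕ) (j : ι), (T ^ i) (b j) = μ j ^ i • b j := by
    intro i
    induction i with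
    | zero => intro j; simp
    | succ i ih =>
      intro j
      rw [pow_succ, Module.End.mul_apply, hb j, map_smul, ih j, smul_smul, pow_succ, mul_comm]
  have hμ : ∀ j, μ j ^ q = 1 := by
    intro j
    have h1 := hpow q j
    rw [hT, Module.End.one_apply] at h1
    have h2 : (μ j ^ q - 1) • b j = 0 := by rw [sub_smul, one_smul, ← h1, sub_self]
    rcases smul_eq_zero.1 h2 with h3 | h3
    · exact sub_eq_zero.1 h3
    · exact absurd h3 (b.ne_zero j)
  choose k hk hμk using fun j => ze_surj hq (hμ j)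
  have hmat : ∀ i : ℕ, LinearMap.toMatrix b b (T ^ i) = Matrix.diagonal (fun j => μ j ^ i) := by
    intro i
    ext j l
    rw [LinearMap.toMatrix_apply, hpow, map_smul, Finsupp.smul_apply, Module.Basis.repr_self, Matrix.diagonal_apply,
      Finsupp.single_apply]
    by_cases h : j = l
    · subst h
      simp
    · rw [if_neg (fun h' => h h'.symm), if_neg h, smul_zero]
  have htr : ∀ i : ℕ, LinearMap.trace ℂ V (T ^ i) = ∑ j, μ j ^ i := by
    intro i
    rw [LinearMap.trace_eq_matrix_trace ℂ b, hmat, Matrix.trace_diagonal]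
  have hdet : LinearMap.det T = ∏ j, μ j := by
    rw [← LinearMap.det_toMatrix b, ← pow_one T, hmat 1, Matrix.det_diagonal]
    simp
  -- the multiplicities
  let m' : ℕ → ℕ := fun c => (Finset.univ.filter (fun j => k j = c)).card
  have hfib : ∀ (F : ℕ → ℂ), ∑ j, F (k j) = ∑ c ∈ Finset.range q, (m' c : ℂ) * F c := by
    intro F
    rw [← Finset.sum_fiberwise_of_maps_to (s := Finset.univ) (t := Finset.range q) (g := k)
      (fun j _ => Finset.mem_range.2 (hk j))]
    refine Finset.sum_congr rfl fun c _ => ?_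
    rw [Finset.sum_congr rfl (fun j hj => by rw [(Finset.mem_filter.1 hj).2]), Finset.sum_const, nsmul_eq_mul]
  have hvf : ∀ i : ℕ, vf q (fun c => (m' c : ℤ)) i = vf q (fun c => (m c : ℤ)) i := by
    intro i
    rw [← hm i, htr i]
    have h1 : ∀ j, μ j ^ i = ze q (i * k j) := by
      intro j
      rw [hμk j, ze_mul_pow]
    rw [Finset.sum_congr rfl fun j _ => h1 j, hfib (fun c => ze q (i * c))]
    unfold vf
    refine Finset.sum_congr rfl fun c _ => ?_
    push_cast
    ring
  have hmm : ∀ c < q, m' c = m c := by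
    intro c hc
    have h := vf_inj hq _ _ (fun i _ => hvf i) c hc
    exact_mod_cast h
  have hprod : ∀ s : Finset ι, ∏ j ∈ s, ze q (k j) = ze q (∑ j ∈ s, k j) := by
    intro s
    induction s using Finset.induction_on with
    | empty => simp [ze]
    | insert a s ha ih => rw [Finset.prod_insert ha, Finset.sum_insert ha, ze_add, ih]
  have hsum : ∑ j, k j = ∑ c ∈ Finset.range q, c * m' c := by
    rw [← Finset.sum_fiberwise_of_maps_to (s := Finset.univ) (t := Finset.range q) (g := k)
      (fun j _ => Finset.mem_range.2 (hk j))]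
    refine Finset.sum_congr rfl fun c _ => ?_
    rw [Finset.sum_congr rfl (fun j hj => (Finset.mem_filter.1 hj).2), Finset.sum_const, smul_eq_mul, mul_comm]
  rw [hdet, Finset.prod_congr rfl (fun j _ => hμk j), hprod, hsum]
  congr 1
  refine Finset.sum_congr rfl fun c hc => ?_
  rw [hmm c (Finset.mem_range.1 hc)]

/-- The determinant of a representation with character `f` is a linear character `δ` of `H`; if `z ^ q = 1` and `f (z^i) = ∑_(k < q) m k ζ^(i k)` for all `i` then
`m k` is the dimension of the eigenspace of `ρ z` for `ζ ^ k` (`vf_inj`) and `δ z = det (ρ z) = ζ ^ (∑ k m k)`.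
Proof: `ρ` with character `f`, `δ g = LinearMap.det (ρ g)` on `H`, `0` off `H`. `V` is the internal direct sum of the eigenspaces of `ρ z` (`ρ z` is annihilated by the separable polynomial
`X^q - 1`); in an adapted basis the matrix is diagonal. -/
theorem det_char {H : Subgroup G} {f : G → ℂ} (hf : f ∈ CharS H) :
    ∃ δ ∈ LinS H ⊥, ∀ z ∈ H, ∀ q : ℕ, 0 < q → z ^ q = 1 → ∀ m : ℕ → ℕ,
      (∀ i : ℕ, f (z ^ i) = vf q (fun k => (m k : ℤ)) i) → δ z = ze q (∑ k ∈ Finset.range q, k * m k) := by
  obtain ⟨-, n, ρ, hρ⟩ := hf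
  refine ⟨fun g => if h : g ∈ H then LinearMap.det (ρ ⟨g, h⟩) else 0, ⟨fun g hg => dif_neg hg, ?_, ?_⟩, ?_⟩
  · intro g hg
    rw [Subgroup.mem_bot] at hg
    subst hg
    simp only
    rw [dif_pos H.one_mem]
    have h1 : (⟨1, H.one_mem⟩ : H) = 1 := rfl
    rw [h1, map_one, map_one]
  · intro a ha b hb
    simp only
    rw [dif_pos ha, dif_pos hb, dif_pos (H.mul_mem ha hb)]
    have h1 : (⟨a * b, H.mul_mem ha hb⟩ : H) = ⟨a, ha⟩ * ⟨b, hb⟩ := rfl
    rw [h1, map_mul, map_mul]
  · intro z hz q hq hzq m hm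
    simp only
    rw [dif_pos hz]
    refine C0_det (ρ ⟨z, hz⟩) hq ?_ m ?_
    · rw [← map_pow]
      have h1 : (⟨z, hz⟩ : H) ^ q = 1 := Subtype.ext (by simpa using hzq)
      rw [h1, map_one]
    · intro i
      rw [← hm i, ← map_pow]
      have h1 := congrFun hρ ((⟨z, hz⟩ : H) ^ i)
      exact h1

end Pool.Agent.Lib.H90Q
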