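import Pool.Agent.Lib.H90Q.A12
import Pool.Agent.Lib.H90Q.B0

open scoped Classical ComplexConjugate BigOperators

noncomputable section

namespace Pool.Agent.Lib.H90Q

variable {G : Type*} [Group G] [Fintype G]

theorem lin_npow {H N : Subgroup G} {l : G → ℂ} (hl : l ∈ LinS H N) {k : ℕ} (hk : 0 < k) : (fun x => l x ^ k) ∈ LinS H N := by
  obtain ⟨h0, h1, h2⟩ := hl
  refine ⟨fun g hg => ?_, fun g hg => ?_, fun a ha b hb => ?_⟩
  · simp only
    rw [h0 g hg, zero_pow hk.ne']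
  · simp only
    rw [h1 g hg, one_pow]
  · simp only
    rw [h2 a ha b hb, mul_pow]

/-- `L` a `p'`-group normalised by the `p`-group `P`, `δ` a linear character of `L P`, `n` prime to `p`. Choose `k` with `n |L| k + 1 ≡ 0 mod |P|` and take `l = δ ^ (|L| k)` (with `k > 0`): it is trivial on `L`
(`lin_pow`) and `l(z)^n δ(z) = δ(z)^(n |L| k + 1) = 1`. -/
theorem lin_root {p : ℕ} [Fact p.Prime] {L P : Subgroup G} (hL : ¬ p ∣ Nat.card L) (hn : ∀ z ∈ P, Nz z L)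
    (hp : ∀ z ∈ P, ∃ a : ℕ, z ^ (p ^ a) = 1) {δ : G → ℂ} (hδ : δ ∈ LinS (L ⊔ P) ⊥) {n : ℕ} (hnp : n.Coprime p) :
    ∃ l ∈ LinS (L ⊔ P) L, ∀ z ∈ P, l z ^ n * δ z = 1 := by
  have hp2 : 2 ≤ p := (Fact.out : p.Prime).two_le
  obtain ⟨q, hqd⟩ : ∃ q : ℕ, q = p ^ (Nat.card G) := ⟨_, rfl⟩
  have hG0 : 0 < Nat.card G := Nat.card_pos
  have hq1 : 1 < q := by
    rw [hqd]
    exact Nat.one_lt_pow hG0.ne' hp2
  have hzq : ∀ z ∈ P, orderOf z ∣ q := by
    intro z hz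
    obtain ⟨a, ha⟩ := hp z hz
    obtain ⟨j, hj, hj'⟩ := (Nat.dvd_prime_pow (Fact.out : p.Prime)).1 (orderOf_dvd_of_pow_eq_one ha)
    rw [hj', hqd]
    refine Nat.pow_dvd_pow p ?_
    have h1 : j < p ^ j := Nat.lt_pow_self hp2
    have h2 : orderOf z ≤ Nat.card G := Nat.le_of_dvd hG0 (orderOf_dvd_natCard z)
    rw [hj'] at h2
    omega
  have hcop : Nat.Coprime (n * Nat.card L) q := by
    rw [hqd]
    refine Nat.Coprime.pow_right _ ?_
    exact Nat.Coprime.mul_left hnp ((Nat.Prime.coprime_iff_not_dvd (Fact.out : p.Prime)).2 hL).symm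
  obtain ⟨m, -, hm⟩ := Nat.exists_mul_mod_eq_one_of_coprime hcop hq1
  have hm' : n * Nat.card L * m % q = 1 := hm
  have hm0 : 0 < m := by
    rcases Nat.eq_zero_or_pos m with h | h
    · rw [h, mul_zero, Nat.zero_mod] at hm'
      omega
    · exact h
  have hq0 : 0 < q - 1 := by omega
  have hdiv : q ∣ n * Nat.card L * m * (q - 1) + 1 := by
    have e1 := Nat.div_add_mod (n * Nat.card L * m) q
    rw [hm'] at e1
    obtain ⟨t, ht⟩ : ∃ t, t = n * Nat.card L * m / q := ⟨_, rfl⟩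
    rw [← ht] at e1
    rw [← e1]
    obtain ⟨r, hr⟩ : ∃ r, q = r + 1 := ⟨q - 1, by omega⟩
    refine ⟨t * (q - 1) + 1, ?_⟩
    rw [hr]
    simp only [Nat.add_sub_cancel]
    ring
  have hL0 : 0 < Nat.card L := Nat.card_pos
  have hk : 0 < Nat.card L * (m * (q - 1)) := by positivity
  have hl1 := lin_npow hδ hk
  refine ⟨fun x => δ x ^ (Nat.card L * (m * (q - 1))), ⟨hl1.1, fun g hg => ?_, hl1.2.2⟩, fun z hz => ?_⟩
  · have h1 := lin_pow hδ (Subgroup.mem_sup_left hg)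
    have h2 : orderOf g ∣ Nat.card L := Subgroup.orderOf_dvd_natCard L hg
    obtain ⟨c, hc⟩ := h2
    simp only
    rw [hc, mul_assoc, pow_mul, h1, one_pow]
  · have h1 := lin_pow hδ (Subgroup.mem_sup_right hz : z ∈ L ⊔ P)
    obtain ⟨c, hc⟩ := (hzq z hz).trans hdiv
    simp only
    have h2 : (δ z ^ (Nat.card L * (m * (q - 1)))) ^ n * δ z = δ z ^ (n * Nat.card L * m * (q - 1) + 1) := by
      rw [← pow_mul, ← pow_succ]
      congr 1
      ring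
    rw [h2, hc, pow_mul, h1, one_pow]

/-- A linear character of `P` extends uniquely to a linear character of `L P` trivial on `L` (`L ⊓ P` trivial, `P` normalises `L`): `l (x z) = l0 z`. -/
theorem lin_inflate {L P : Subgroup G} (hn : ∀ z ∈ P, Nz z L) (hLP : ∀ x ∈ L, x ∈ P → x = 1) {l0 : G → ℂ} (hl0 : l0 ∈ LinS P ⊥) :
    ∃ l ∈ LinS (L ⊔ P) L, ∀ z ∈ P, l z = l0 z := by
  obtain ⟨h0, h1, h2⟩ := hl0
  have hex : ∀ t : (L ⊔ P : Subgroup G), ∃ z ∈ P, ∃ x ∈ L, (t : G) = x * z := by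
    intro t
    obtain ⟨x, hx, z, hz, ht⟩ := (mem_sup_nz hn).1 t.2
    exact ⟨z, hz, x, hx, ht⟩
  choose f hf g hg hfg using hex
  have huni : ∀ x ∈ L, ∀ z ∈ P, ∀ x' ∈ L, ∀ z' ∈ P, x * z = x' * z' → z = z' := by
    intro x hx z hz x' hx' z' hz' h
    have e1 : x'⁻¹ * x = z' * z⁻¹ := by
      rw [inv_mul_eq_iff_eq_mul, ← mul_assoc, ← h, mul_assoc, mul_inv_cancel, mul_one]
    have e2 : z' * z⁻¹ = 1 := by
      refine hLP _ ?_ (P.mul_mem hz' (P.inv_mem hz))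
      rw [← e1]
      exact L.mul_mem (L.inv_mem hx') hx
    exact (mul_inv_eq_one.1 e2).symm
  obtain ⟨l, hl⟩ : ∃ l : G → ℂ, l = fun t => if h : t ∈ L ⊔ P then l0 (f ⟨t, h⟩) else 0 := ⟨_, rfl⟩
  have hlv : ∀ x ∈ L, ∀ z ∈ P, l (x * z) = l0 z := by
    intro x hx z hz
    have hm : x * z ∈ L ⊔ P := (mem_sup_nz hn).2 ⟨x, hx, z, hz, rfl⟩
    rw [hl]
    simp only
    rw [dif_pos hm]
    exact congrArg l0 (huni x hx z hz _ (hg ⟨x * z, hm⟩) _ (hf ⟨x * z, hm⟩) (hfg ⟨x * z, hm⟩)).symm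
  have h01 : l0 1 = 1 := h1 1 (Subgroup.mem_bot.2 rfl)
  refine ⟨l, ⟨fun t ht => ?_, fun t ht => ?_, fun a ha b hb => ?_⟩, fun z hz => ?_⟩
  · rw [hl]
    simp only
    rw [dif_neg ht]
  · have := hlv t ht 1 P.one_mem
    rwa [mul_one, h01] at this
  · obtain ⟨x, hx, z, hz, rfl⟩ := (mem_sup_nz hn).1 ha
    obtain ⟨x', hx', z', hz', rfl⟩ := (mem_sup_nz hn).1 hb
    have e1 : x * z * (x' * z') = (x * (z * x' * z⁻¹)) * (z * z') := by group
    rw [e1, hlv _ (L.mul_mem hx ((hn z hz x').1 hx')) _ (P.mul_mem hz hz'), hlv x hx z hz,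
      hlv x' hx' z' hz', h2 z hz z' hz']
  · have := hlv 1 L.one_mem z hz
    rwa [one_mul] at this

/-- Linear characters of `L P` trivial on `L` are determined by their values on `P`. -/
theorem lin_ext_P {L P : Subgroup G} (hn : ∀ z ∈ P, Nz z L) {l l' : G → ℂ} (hl : l ∈ LinS (L ⊔ P) L) (hl' : l' ∈ LinS (L ⊔ P) L)
    (h : ∀ z ∈ P, l z = l' z) : l = l' := by
  funext t
  by_cases ht : t ∈ L ⊔ P
  · obtain ⟨x, hx, z, hz, rfl⟩ := (mem_sup_nz hn).1 ht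
    have hx1 : x ∈ L ⊔ P := Subgroup.mem_sup_left hx
    have hz1 : z ∈ L ⊔ P := Subgroup.mem_sup_right hz
    rw [hl.2.2 x hx1 z hz1, hl'.2.2 x hx1 z hz1, hl.2.1 x hx, hl'.2.1 x hx, h z hz]
  · rw [hl.1 t ht, hl'.1 t ht]

end Pool.Agent.Lib.H90Q
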