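import Pool.Agent.Lib.H90Q.B4

open scoped Classical ComplexConjugate BigOperators

noncomputable section

namespace Pool.Agent.Lib.H90Q

private theorem C2_ze_congr {q : ℕ} (hq : 0 < q) {a b : ℕ} (h : a ≡ b [MOD q]) :
    ze q a = ze q b := by
  have h' : a % q = b % q := h
  have h1 := ze_mod hq a
  have h2 := ze_mod hq b
  rw [← h1, ← h2, h']

private theorem C2_ze_zero (q : ℕ) : ze q 0 = 1 := by simp [ze]

private theorem C2_shift {A : Type*} [AddCommMonoid A] {q : ℕ} (hq : 0 < q) (c : ℕ) :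
    ∀ F : ℕ → A, ∑ k ∈ Finset.range q, F ((k + c) % q) = ∑ k ∈ Finset.range q, F k := by
  induction c with
  | zero =>
    intro F
    refine Finset.sum_congr rfl fun k hk => ?_
    rw [Nat.add_zero, Nat.mod_eq_of_lt (Finset.mem_range.mp hk)]
  | succ c ih =>
    intro F
    have h1 : ∀ G : ℕ → A,
        ∑ k ∈ Finset.range q, G ((k + 1) % q) = ∑ k ∈ Finset.range q, G k := by
      intro G
      obtain ⟨n, rfl⟩ : ∃ n, q = n + 1 := ⟨q - 1, by omega⟩
      rw [Finset.sum_range_succ, Finset.sum_range_succ' G n, Nat.mod_self]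
      congr 1
      refine Finset.sum_congr rfl fun k hk => ?_
      rw [Nat.mod_eq_of_lt (by have := Finset.mem_range.mp hk; omega)]
    calc ∑ k ∈ Finset.range q, F ((k + (c + 1)) % q)
        = ∑ k ∈ Finset.range q, F (((k + 1) % q + c) % q) := by
          refine Finset.sum_congr rfl fun k _ => ?_
          have h2 : k + (c + 1) = k + 1 + c := by omega
          rw [h2, Nat.mod_add_mod]
      _ = ∑ k ∈ Finset.range q, F ((k + c) % q) := h1 (fun x => F ((x + c) % q))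
      _ = ∑ k ∈ Finset.range q, F k := ih F

private theorem C2_vf_sub (q : ℕ) (m m' : ℕ → ℤ) (i : ℕ) :
    vf q (fun k => m k - m' k) i = vf q m i - vf q m' i := by
  unfold vf
  rw [← Finset.sum_sub_distrib]
  refine Finset.sum_congr rfl fun k _ => ?_
  push_cast
  ring

private theorem C2_vf_single {q c : ℕ} (hc : c < q) (n : ℤ) (i : ℕ) :
    vf q (fun k => if k = c then n else 0) i = (n : ℂ) * ze q (i * c) := by
  unfold vf
  rw [Finset.sum_eq_single c]
  · beta_reduce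
    rw [if_pos rfl]
  · intro k _ hk
    beta_reduce
    rw [if_neg hk]
    simp
  · intro h
    exact absurd (Finset.mem_range.mpr hc) h

private theorem C2_step {p : ℕ} [Fact p.Prime] (hp : p ≠ 2) {b : ℕ} (M : ℕ → ℤ) (n0 n1 : ℤ)
    (κ : ℂ) (hn1 : ¬ (p : ℤ) ∣ n1) (hκ : κ ≠ 0)
    (h0 : ∀ j : ℕ, j.Coprime p → vf (p * p ^ (b + 1)) M j = (n0 : ℂ))
    (h1 : ∀ j : ℕ, j.Coprime p →
      vf (p * p ^ b) (fun k => ∑ t ∈ Finset.range p, M (k + p ^ (b + 1) * t)) j =
        (n1 : ℂ) * κ ^ j) : κ = 1 := by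
  have hpp : p.Prime := Fact.out
  have hp3 : 3 ≤ p := by
    have := hpp.two_le
    omega
  have hp0 : 0 < p := by omega
  have hpb : 0 < p ^ b := pow_pos hp0 b
  have hq : 0 < p * p ^ b := Nat.mul_pos hp0 hpb
  have hq' : 0 < p * p ^ (b + 1) := Nat.mul_pos hp0 (pow_pos hp0 _)
  have hqe : p ^ (b + 1) = p * p ^ b := by rw [pow_succ, mul_comm]
  have hn10 : n1 ≠ 0 := by
    rintro rfl
    exact hn1 (dvd_zero _)
  have hn1c : (n1 : ℂ) ≠ 0 := by exact_mod_cast hn10
  set M' : ℕ → ℤ := fun k => ∑ t ∈ Finset.range p, M (k + p ^ (b + 1) * t) with hM'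
  -- divisibility of `M'`
  have hdiv : ∀ k : ℕ, 0 < k → k < p * p ^ b → (p : ℤ) ∣ M' k := by
    have hc := const_of_vf_zero (p := p) (a := b + 1) (fun k => M k - if k = 0 then n0 else 0)
      (fun j hj => by
        rw [C2_vf_sub, h0 j hj, C2_vf_single hq' n0 j, Nat.mul_zero, C2_ze_zero, mul_one,
          sub_self])
    intro k hk0 hk
    have h2 : M' k = (p : ℤ) * M k := by
      rw [hM']
      change ∑ t ∈ Finset.range p, M (k + p ^ (b + 1) * t) = (p : ℤ) * M k
      have h3 : ∀ t ∈ Finset.range p, M (k + p ^ (b + 1) * t) = M k := by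
        intro t ht
        have h4 := hc k (by rw [hqe]; exact hk) t (Finset.mem_range.mp ht)
        have h5 : k + p ^ (b + 1) * t ≠ 0 := by omega
        have h6 : k ≠ 0 := by omega
        change M (k + p ^ (b + 1) * t) - (if k + p ^ (b + 1) * t = 0 then n0 else 0) =
          M k - (if k = 0 then n0 else 0) at h4
        rw [if_neg h5, if_neg h6, sub_zero, sub_zero] at h4
        exact h4
      rw [Finset.sum_congr rfl h3, Finset.sum_const, Finset.card_range, nsmul_eq_mul]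
    rw [h2]
    exact dvd_mul_right _ _
  -- `κ` is a root of unity
  have hroot : κ ^ (p * p ^ b) = 1 := by
    have e1 := h1 1 (Nat.coprime_one_left p)
    have e2 := h1 (1 + p * p ^ b) (by
      have : Nat.Coprime (1 + p * p ^ b) p ↔ Nat.Coprime 1 p := Nat.coprime_add_mul_left_left 1 p _
      rw [this]
      exact Nat.coprime_one_left p)
    have e3 : vf (p * p ^ b) M' (1 + p * p ^ b) = vf (p * p ^ b) M' 1 := by
      rw [← vf_mod hq M' (1 + p * p ^ b), Nat.add_mod_right, vf_mod hq M' 1]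
    rw [e3, e1] at e2
    have e4 := mul_left_cancel₀ hn1c e2
    rw [pow_one, pow_add, pow_one] at e4
    have e5 : κ * 1 = κ * κ ^ (p * p ^ b) := by rw [mul_one]; exact e4
    exact (mul_left_cancel₀ hκ e5).symm
  obtain ⟨c, hc, hκc⟩ := ze_surj hq hroot
  have hconst := const_of_vf_zero (p := p) (a := b) (fun k => M' k - if k = c then n1 else 0)
    (fun j hj => by
      rw [C2_vf_sub, h1 j hj, C2_vf_single hc n1 j, hκc, ← ze_mul_pow, sub_self])
  by_contra hne
  have hc0 : c ≠ 0 := by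
    rintro rfl
    exact hne (hκc.trans (C2_ze_zero _))
  have hk : c % p ^ b < p ^ b := Nat.mod_lt _ hpb
  have ht0 : c / p ^ b < p := Nat.div_lt_of_lt_mul (by rw [mul_comm]; exact hc)
  have hdecomp : c % p ^ b + p ^ b * (c / p ^ b) = c := Nat.mod_add_div c (p ^ b)
  have e1 := hconst (c % p ^ b) hk (c / p ^ b) ht0
  rw [hdecomp] at e1
  change M' c - (if c = c then n1 else 0) =
    M' (c % p ^ b) - (if c % p ^ b = c then n1 else 0) at e1
  rw [if_pos rfl] at e1
  obtain ⟨t1, ht1, ht1p, ht1pos⟩ : ∃ t1, t1 ≠ c / p ^ b ∧ t1 < p ∧ 0 < t1 := by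
    by_cases h : c / p ^ b = 1
    · exact ⟨2, by omega, by omega, by omega⟩
    · exact ⟨1, fun h' => h h'.symm, by omega, by omega⟩
  have e2 := hconst (c % p ^ b) hk t1 ht1p
  change M' (c % p ^ b + p ^ b * t1) - (if c % p ^ b + p ^ b * t1 = c then n1 else 0) =
    M' (c % p ^ b) - (if c % p ^ b = c then n1 else 0) at e2
  have hxc : c % p ^ b + p ^ b * t1 ≠ c := by
    intro h
    have h3 : p ^ b * t1 = p ^ b * (c / p ^ b) := by omega
    exact ht1 (Nat.eq_of_mul_eq_mul_left hpb h3)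
  rw [if_neg hxc, sub_zero] at e2
  have hx0 : 0 < c % p ^ b + p ^ b * t1 :=
    Nat.add_pos_right _ (Nat.mul_pos hpb ht1pos)
  have hxq : c % p ^ b + p ^ b * t1 < p * p ^ b := by
    have h3 : p ^ b * (t1 + 1) ≤ p ^ b * p := Nat.mul_le_mul_left _ ht1p
    rw [mul_add, mul_one] at h3
    rw [mul_comm p (p ^ b)]
    exact lt_of_lt_of_le (by linarith) h3
  have d1 := hdiv _ hx0 hxq
  have d2 := hdiv c (Nat.pos_of_ne_zero hc0) hc
  have h4 : n1 = M' c - M' (c % p ^ b + p ^ b * t1) := by rw [e2, ← e1]; ring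
  exact hn1 (h4 ▸ dvd_sub d2 d1)

/-- If the transform is real then `m k = m (-k)`, so `∑ k m k` is congruent to its negative; `q` is odd. -/
theorem sum_of_real {q : ℕ} (hq : Odd q) (m : ℕ → ℤ) (h : ∀ i : ℕ, conj (vf q m i) = vf q m i) :
    (q : ℤ) ∣ ∑ k ∈ Finset.range q, (k : ℤ) * m k := by
  have hq0 : 0 < q := hq.pos
  obtain ⟨n, rfl⟩ : ∃ n, q = n + 1 := ⟨q - 1, by omega⟩
  have hconj : ∀ i k : ℕ, k ≤ n →
      ze (n + 1) (i * (n + 1 - k)) = conj (ze (n + 1) (i * k)) := by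
    intro i k hk
    have h1 : ze (n + 1) (i * k) * ze (n + 1) (i * (n + 1 - k)) = 1 := by
      rw [← ze_add, ← Nat.mul_add]
      have h2 : k + (n + 1 - k) = n + 1 := by omega
      rw [h2, ze_mul_pow, ze_self hq0, one_pow]
    have h2 := ze_conj_mul (n + 1) (i * k)
    have h3 : ze (n + 1) (i * k) ≠ 0 := left_ne_zero_of_mul_eq_one h2
    exact mul_left_cancel₀ h3 (h1.trans h2.symm)
  have hsym : ∀ k < n, m (n - k) = m (k + 1) := by
    have h1 := vf_inj hq0 (fun k => if k = 0 then m 0 else m (n + 1 - k)) m (by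
      intro i _
      rw [← h i]
      unfold vf
      rw [map_sum, Finset.sum_range_succ', Finset.sum_range_succ']
      have h2 : ∑ k ∈ Finset.range n,
          (((if k + 1 = 0 then m 0 else m (n + 1 - (k + 1)) : ℤ)) : ℂ) * ze (n + 1) (i * (k + 1)) =
          ∑ k ∈ Finset.range n, conj ((m (k + 1) : ℂ) * ze (n + 1) (i * (k + 1))) := by
        rw [← Finset.sum_range_reflect]
        refine Finset.sum_congr rfl fun k hk => ?_
        have hk' := Finset.mem_range.mp hk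
        have e1 : n - 1 - k + 1 ≠ 0 := by omega
        have e2 : n + 1 - (n - 1 - k + 1) = k + 1 := by omega
        have e3 : n - 1 - k + 1 = n + 1 - (k + 1) := by omega
        rw [if_neg e1, e2, e3, hconj i (k + 1) (by omega), map_mul, map_intCast]
      rw [h2]
      congr 1
      beta_reduce
      rw [if_pos rfl, Nat.mul_zero, C2_ze_zero, mul_one, map_intCast])
    intro k hk
    have h2 := h1 (k + 1) (by omega)
    change (if k + 1 = 0 then m 0 else m (n + 1 - (k + 1))) = m (k + 1) at h2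
    have e1 : k + 1 ≠ 0 := by omega
    have e2 : n + 1 - (k + 1) = n - k := by omega
    rw [if_neg e1, e2] at h2
    exact h2
  have hS : ∑ k ∈ Finset.range (n + 1), (k : ℤ) * m k =
      ∑ k ∈ Finset.range n, ((k : ℤ) + 1) * m (k + 1) := by
    rw [Finset.sum_range_succ']
    push_cast
    ring
  have hS2 : ∑ k ∈ Finset.range (n + 1), (k : ℤ) * m k =
      ∑ k ∈ Finset.range n, ((n : ℤ) - k) * m (k + 1) := by
    rw [hS, ← Finset.sum_range_reflect]
    refine Finset.sum_congr rfl fun k hk => ?_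
    have hk' := Finset.mem_range.mp hk
    have e1 : n - 1 - k + 1 = n - k := by omega
    rw [e1, hsym k hk']
    have e2 : ((n - 1 - k : ℕ) : ℤ) + 1 = (n : ℤ) - k := by omega
    rw [e2]
  have h2S : 2 * ∑ k ∈ Finset.range (n + 1), (k : ℤ) * m k =
      ((n + 1 : ℕ) : ℤ) * ∑ k ∈ Finset.range n, m (k + 1) := by
    rw [two_mul]
    nth_rewrite 1 [hS]
    rw [hS2, ← Finset.sum_add_distrib, Finset.mul_sum]
    refine Finset.sum_congr rfl fun k _ => ?_
    push_cast
    ring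
  obtain ⟨t, ht⟩ := hq
  have h3 : ∑ k ∈ Finset.range (n + 1), (k : ℤ) * m k =
      ((n + 1 : ℕ) : ℤ) * (∑ k ∈ Finset.range (n + 1), (k : ℤ) * m k) -
        (t : ℤ) * (2 * ∑ k ∈ Finset.range (n + 1), (k : ℤ) * m k) := by
    rw [ht]
    push_cast
    ring
  rw [h3]
  refine dvd_sub (dvd_mul_right _ _) ?_
  rw [h2S]
  exact Dvd.dvd.mul_left (dvd_mul_right _ _) _

/-- The level argument. `q = p ^ a`, `p` odd; `vf q m (p^s j) = n_s κ_s^j` for all `j` prime to `p` and `κ_0 = 1`; then all `κ_s = 1`. Let `q_s = p^(a-s)` and `M^s` the push-forward of `m` to `ℤ/q_s`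
(`vf_push`): `vf q_s M^s i = vf q m (p^s i)`. `κ_s` is a `q_s`-th root of unity (replace `j` by `j + q_s`; for `s = a` compare `j = 1, 2`), `κ_s = ζ^(c_s)`; for `s < a` the function `M^s - n_s δ_(c_s)` has transform zero at all `j` prime
to `p`, so it is constant on the fibres of `ℤ/q_s → ℤ/q_(s+1)` (`const_of_vf_zero`). Hence `M^(s+1)` is divisible by `p` except at `c_s mod q_(s+1)`, where it is congruent to `n_s`. If `s + 1 < a`, look at the fibre of `c_(s+1)` for `ℤ/q_(s+1) → ℤ/q_(s+2)`: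
it has `p ≥ 3` elements, all values but the one at `c_(s+1)` are equal to some `C`, and the value at `c_(s+1)` is `C + n_(s+1)`, `n_(s+1)` prime to `p`. Because only one element of `ℤ/q_(s+1)` has value prime to `p`, `C ≡ 0` and `c_(s+1) = c_s mod q_(s+1)`. So
`c_0 = 0` gives `c_s = 0` for all `s`. -/
theorem kappa_one {p : ℕ} [Fact p.Prime] (hp : p ≠ 2) {a : ℕ} (m : ℕ → ℤ) (n : ℕ → ℤ) (κ : ℕ → ℂ) (hn : ∀ s ≤ a, ¬ (p : ℤ) ∣ n s)
    (hκ : ∀ s ≤ a, κ s ≠ 0)
    (h : ∀ s ≤ a, ∀ j : ℕ, j.Coprime p → vf (p ^ a) m (p ^ s * j) = (n s : ℂ) * κ s ^ j) (h0 : κ 0 = 1) :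
    ∀ s ≤ a, κ s = 1 := by
  have hpp : p.Prime := Fact.out
  have hp0 : 0 < p := hpp.pos
  have hq : 0 < p ^ a := pow_pos hp0 a
  have hcop2 : Nat.Coprime 2 p := by
    rw [Nat.coprime_primes Nat.prime_two hpp]
    exact fun h => hp h.symm
  have hpush : ∀ s ≤ a, ∃ M : ℕ → ℤ, ∀ i, vf (p ^ (a - s)) M i = vf (p ^ a) m (p ^ s * i) := by
    intro s
    induction s with
    | zero =>
      intro _
      exact ⟨m, fun i => by rw [pow_zero, one_mul, Nat.sub_zero]⟩
    | succ s ih =>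
      intro hs
      obtain ⟨M, hM⟩ := ih (by omega)
      refine ⟨fun k => ∑ t ∈ Finset.range p, M (k + p ^ (a - (s + 1)) * t), fun i => ?_⟩
      rw [← vf_push hp0 (pow_pos hp0 _) M i]
      have e1 : p * p ^ (a - (s + 1)) = p ^ (a - s) := by
        rw [← pow_succ']
        congr 1
        omega
      rw [e1, hM, pow_succ, mul_assoc]
  have hlt : ∀ s, s < a → κ s = 1 := by
    intro s
    induction s with
    | zero => intro _; exact h0
    | succ s ih =>
      intro hs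
      have hs1 : κ s = 1 := ih (by omega)
      obtain ⟨M, hM⟩ := hpush s (by omega)
      obtain ⟨b, hb⟩ : ∃ b, a = s + 2 + b := ⟨a - (s + 2), by omega⟩
      refine C2_step hp (b := b) M (n s) (n (s + 1)) (κ (s + 1)) (hn _ (by omega))
        (hκ _ (by omega)) ?_ ?_
      · intro j hj
        have e1 : p * p ^ (b + 1) = p ^ (a - s) := by
          rw [← pow_succ']
          congr 1
          omega
        rw [e1, hM, h s (by omega) j hj, hs1, one_pow, mul_one]
      · intro j hj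
        have e1 : p * p ^ b = p ^ (b + 1) := by rw [← pow_succ']
        rw [e1, ← vf_push hp0 (pow_pos hp0 _) M j]
        have e2 : p * p ^ (b + 1) = p ^ (a - s) := by
          rw [← pow_succ']
          congr 1
          omega
        rw [e2, hM, ← mul_assoc, ← pow_succ]
        exact h (s + 1) (by omega) j hj
  intro s hs
  rcases Nat.lt_or_ge s a with h2 | h2
  · exact hlt s h2
  · have hsa : s = a := le_antisymm hs h2
    subst hsa
    have e1 := h s le_rfl 1 (Nat.coprime_one_left p)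
    have e2 := h s le_rfl 2 hcop2
    have e3 : vf (p ^ s) m (p ^ s * 1) = vf (p ^ s) m (p ^ s * 2) := by
      rw [← vf_mod hq m (p ^ s * 1), ← vf_mod hq m (p ^ s * 2), Nat.mul_mod_right,
        Nat.mul_mod_right]
    rw [e1, e2] at e3
    have hnz : (n s : ℂ) ≠ 0 := by
      have : n s ≠ 0 := by
        intro h3
        exact hn s le_rfl (h3 ▸ dvd_zero _)
      exact_mod_cast this
    have e4 := mul_left_cancel₀ hnz e3
    have e5 : κ s * 1 = κ s * κ s := by
      rw [mul_one]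
      rw [pow_one, pow_two] at e4
      exact e4
    exact (mul_left_cancel₀ (hκ s le_rfl) e5).symm

/-- Hence the determinant. First `κ_0 = 1`: by `kappa_one` the transform is real (every `i` is `p^s j` modulo `q`), `sum_of_real`. In general `κ_0 = ζ^c`; replace `m` by `m' k = m ((k + c) mod q)`: `vf q m' i = ζ^(-i c) vf q m i`, so `κ'_s = κ_s ζ^(-c p^s)` and `∑ k m' k ≡ ∑ k m k - c ∑ m k mod q`. -/
theorem det_arith {p : ℕ} [Fact p.Prime] (hp : p ≠ 2) {a : ℕ} (m : ℕ → ℕ) (n : ℕ → ℤ) (κ : ℕ → ℂ) (hn : ∀ s ≤ a, ¬ (p : ℤ) ∣ n s)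
    (hκ : κ 0 ^ (p ^ a) = 1) (hκ' : ∀ s ≤ a, κ s ≠ 0)
    (h : ∀ s ≤ a, ∀ j : ℕ, j.Coprime p → vf (p ^ a) (fun k => (m k : ℤ)) (p ^ s * j) = (n s : ℂ) * κ s ^ j) :
    ze (p ^ a) (∑ k ∈ Finset.range (p ^ a), k * m k) = κ 0 ^ (∑ k ∈ Finset.range (p ^ a), m k) := by
  have hpp : p.Prime := Fact.out
  have hp0 : 0 < p := hpp.pos
  have hq : 0 < p ^ a := pow_pos hp0 a
  obtain ⟨c, hc, hκc⟩ := ze_surj hq hκ
  -- the shifted function
  have hvf : ∀ i : ℕ, vf (p ^ a) (fun k => ((m ((k + c) % p ^ a) : ℕ) : ℤ)) i =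
      ze (p ^ a) (i * (p ^ a - c)) * vf (p ^ a) (fun k => (m k : ℤ)) i := by
    intro i
    have h1 := C2_shift hq c (fun x => ((m x : ℤ) : ℂ) * ze (p ^ a) (i * (x + (p ^ a - c))))
    have h2 : vf (p ^ a) (fun k => ((m ((k + c) % p ^ a) : ℕ) : ℤ)) i =
        ∑ k ∈ Finset.range (p ^ a), (fun x => ((m x : ℤ) : ℂ) *
          ze (p ^ a) (i * (x + (p ^ a - c)))) ((k + c) % p ^ a) := by
      unfold vf
      refine Finset.sum_congr rfl fun k _ => ?_
      change ((m ((k + c) % p ^ a) : ℤ) : ℂ) * ze (p ^ a) (i * k) =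
        ((m ((k + c) % p ^ a) : ℤ) : ℂ) * ze (p ^ a) (i * ((k + c) % p ^ a + (p ^ a - c)))
      congr 1
      refine C2_ze_congr hq ?_
      have h3 : (k + c) % p ^ a + (p ^ a - c) ≡ k + c + (p ^ a - c) [MOD p ^ a] :=
        (Nat.mod_modEq (k + c) (p ^ a)).add_right _
      have h4 : k + c + (p ^ a - c) = k + p ^ a := by omega
      rw [h4] at h3
      have h5 : k + p ^ a ≡ k [MOD p ^ a] := by
        unfold Nat.ModEq
        exact Nat.add_mod_right k (p ^ a)
      exact ((h3.trans h5).mul_left i).symm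
    rw [h2, h1]
    unfold vf
    rw [Finset.mul_sum]
    refine Finset.sum_congr rfl fun k _ => ?_
    change ((m k : ℤ) : ℂ) * ze (p ^ a) (i * (k + (p ^ a - c))) =
      ze (p ^ a) (i * (p ^ a - c)) * (((m k : ℤ) : ℂ) * ze (p ^ a) (i * k))
    rw [mul_add, ze_add]
    ring
  have hze0 : ∀ x, ze (p ^ a) x ≠ 0 := fun x => left_ne_zero_of_mul_eq_one (ze_conj_mul (p ^ a) x)
  have hk1 := kappa_one hp (a := a) (fun k => ((m ((k + c) % p ^ a) : ℕ) : ℤ)) n
    (fun s => κ s * ze (p ^ a) (p ^ s * (p ^ a - c))) hn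
    (fun s hs => mul_ne_zero (hκ' s hs) (hze0 _))
    (by
      intro s hs j hj
      rw [hvf, h s hs j hj]
      have e1 : p ^ s * j * (p ^ a - c) = j * (p ^ s * (p ^ a - c)) := by ring
      rw [e1, ze_mul_pow, mul_pow]
      ring)
    (by
      rw [pow_zero, one_mul, hκc, ← ze_add]
      have e1 : c + (p ^ a - c) = p ^ a := by omega
      rw [e1, ze_self hq])
  have hval : ∀ s ≤ a, ∀ j : ℕ, j.Coprime p →
      vf (p ^ a) (fun k => ((m ((k + c) % p ^ a) : ℕ) : ℤ)) (p ^ s * j) = (n s : ℂ) := by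
    intro s hs j hj
    have e0 := hk1 s hs
    change κ s * ze (p ^ a) (p ^ s * (p ^ a - c)) = 1 at e0
    rw [hvf, h s hs j hj]
    have e1 : p ^ s * j * (p ^ a - c) = j * (p ^ s * (p ^ a - c)) := by ring
    rw [e1, ze_mul_pow]
    calc ze (p ^ a) (p ^ s * (p ^ a - c)) ^ j * ((n s : ℂ) * κ s ^ j)
        = (n s : ℂ) * (κ s * ze (p ^ a) (p ^ s * (p ^ a - c))) ^ j := by rw [mul_pow]; ring
      _ = (n s : ℂ) := by rw [e0, one_pow, mul_one]
  have hreal : ∀ i : ℕ, conj (vf (p ^ a) (fun k => ((m ((k + c) % p ^ a) : ℕ) : ℤ)) i) =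
      vf (p ^ a) (fun k => ((m ((k + c) % p ^ a) : ℕ) : ℤ)) i := by
    intro i
    by_cases hi : i % p ^ a = 0
    · have e1 : vf (p ^ a) (fun k => ((m ((k + c) % p ^ a) : ℕ) : ℤ)) i = (n a : ℂ) := by
        rw [← hval a le_rfl 1 (Nat.coprime_one_left p), ← vf_mod hq _ i,
          ← vf_mod hq _ (p ^ a * 1), hi, Nat.mul_mod_right]
      rw [e1, map_intCast]
    · obtain ⟨s, j, hj, hsj⟩ := Nat.exists_eq_pow_mul_and_not_dvd hi p hpp.one_lt.ne'
      have hj0 : 0 < j := by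
        rcases Nat.eq_zero_or_pos j with h1 | h1
        · rw [h1] at hj
          exact absurd (dvd_zero p) hj
        · exact h1
      have hlt : i % p ^ a < p ^ a := Nat.mod_lt _ hq
      have hsa : s < a := by
        by_contra hcon
        have h1 : p ^ a ≤ p ^ s := Nat.pow_le_pow_right hp0 (by omega)
        have h2 : p ^ s * 1 ≤ p ^ s * j := Nat.mul_le_mul_left _ hj0
        omega
      have e1 : vf (p ^ a) (fun k => ((m ((k + c) % p ^ a) : ℕ) : ℤ)) i = (n s : ℂ) := by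
        rw [← vf_mod hq _ i, hsj]
        exact hval s hsa.le j ((Nat.Prime.coprime_iff_not_dvd hpp).mpr hj).symm
      rw [e1, map_intCast]
  have hodd : Odd (p ^ a) := (hpp.odd_of_ne_two hp).pow
  have hsum := sum_of_real hodd (fun k => ((m ((k + c) % p ^ a) : ℕ) : ℤ)) hreal
  have h1 := C2_shift hq c (fun x => ((x : ℤ) - c) * (m x : ℤ))
  have h2 : ((p ^ a : ℕ) : ℤ) ∣
      (∑ k ∈ Finset.range (p ^ a), (k : ℤ) * ((m ((k + c) % p ^ a) : ℕ) : ℤ)) -
        ∑ k ∈ Finset.range (p ^ a), (fun x : ℕ => ((x : ℤ) - c) * (m x : ℤ)) ((k + c) % p ^ a) := by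
    rw [← Finset.sum_sub_distrib]
    refine Finset.dvd_sum fun k _ => ?_
    change ((p ^ a : ℕ) : ℤ) ∣ (k : ℤ) * ((m ((k + c) % p ^ a) : ℕ) : ℤ) -
      ((((k + c) % p ^ a : ℕ) : ℤ) - c) * ((m ((k + c) % p ^ a) : ℕ) : ℤ)
    rw [← sub_mul]
    refine Dvd.dvd.mul_right ?_ _
    refine ⟨(((k + c) / p ^ a : ℕ) : ℤ), ?_⟩
    have e1 := Nat.mod_add_div (k + c) (p ^ a)
    have e2 : ((((k + c) % p ^ a : ℕ) : ℤ)) + ((p ^ a : ℕ) : ℤ) * (((k + c) / p ^ a : ℕ) : ℤ) =
        (k : ℤ) + c := by exact_mod_cast e1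
    linarith
  rw [h1] at h2
  have h3 : ((p ^ a : ℕ) : ℤ) ∣
      ∑ k ∈ Finset.range (p ^ a), ((k : ℤ) - c) * (m k : ℤ) := by
    have h4 := dvd_sub hsum h2
    have h5 : (∑ k ∈ Finset.range (p ^ a), (k : ℤ) * ((m ((k + c) % p ^ a) : ℕ) : ℤ)) -
        ((∑ k ∈ Finset.range (p ^ a), (k : ℤ) * ((m ((k + c) % p ^ a) : ℕ) : ℤ)) -
        ∑ k ∈ Finset.range (p ^ a), ((k : ℤ) - c) * (m k : ℤ)) =
        ∑ k ∈ Finset.range (p ^ a), ((k : ℤ) - c) * (m k : ℤ) := by ring
    rw [← h5]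
    exact h4
  have h6 : (∑ k ∈ Finset.range (p ^ a), m k) * c ≡
      ∑ k ∈ Finset.range (p ^ a), k * m k [MOD p ^ a] := by
    rw [Nat.modEq_iff_dvd]
    have h7 : ((∑ k ∈ Finset.range (p ^ a), k * m k : ℕ) : ℤ) -
        (((∑ k ∈ Finset.range (p ^ a), m k) * c : ℕ) : ℤ) =
        ∑ k ∈ Finset.range (p ^ a), ((k : ℤ) - c) * (m k : ℤ) := by
      push_cast
      rw [Finset.sum_mul, ← Finset.sum_sub_distrib]
      refine Finset.sum_congr rfl fun k _ => ?_
      ring
    rw [h7]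
    exact h3
  rw [← C2_ze_congr hq h6, ze_mul_pow, ← hκc]

end Pool.Agent.Lib.H90Q
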