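import Pool.Agent.Lib.H90Q.A13
import Pool.Agent.Lib.H90Q.B9
import Pool.Agent.Lib.H90Q.C0
import Pool.Agent.Lib.H90Q.C1
import Pool.Agent.Lib.H90Q.C2



open scoped Classical ComplexConjugate BigOperators

noncomputable section

namespace Pool.Agent.Lib.H90Q

variable {G : Type*} [Group G] [Fintype G]

private theorem C3_mu_congr (K : Subgroup G) {f f' φ : G → ℂ} (h : ∀ x ∈ K, f x = f' x) : mu K f φ = mu K f' φ := by
  unfold mu
  rw [ip_congr K h (fun x _ => rfl)]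

private theorem C3_mu_irr {M : Subgroup G} {χ ψ : G → ℂ} (hχ : χ ∈ IrrS M) (hψ : ψ ∈ IrrS M) :
    mu M χ ψ = if χ = ψ then 1 else 0 := by
  unfold mu
  rw [irrS_ortho hχ hψ]
  split_ifs <;> simp

/-- a character whose restriction to a subgroup is irreducible is irreducible -/
theorem irrS_of_ext {L T : Subgroup G} (hLT : L ≤ T) {f θ : G → ℂ} (hf : f ∈ CharS T) (hθ : θ ∈ IrrS L) (h : ∀ x ∈ L, f x = θ x) : f ∈ IrrS T := by
  have hmuL : ∀ φ ∈ IrrS L, (∑ χ ∈ irr T, mu T f χ * mu L χ φ) = if θ = φ then 1 else 0 := by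
    intro φ hφ
    rw [← mu_trans le_rfl hLT hf hφ, C3_mu_congr L h, C3_mu_irr hθ hφ]
  -- constituents of `f` restrict to multiples of `θ`
  have hpos : ∀ χ ∈ irr T, mu T f χ ≠ 0 → mu L χ θ ≠ 0 := by
    intro χ hχ hne h0
    have hχ' := mem_irr.1 hχ
    have hz : ∀ φ ∈ irr L, mu L χ φ = 0 := by
      intro φ hφ
      by_cases he : φ = θ
      · rw [he, h0]
      · have h1 := hmuL φ (mem_irr.1 hφ)
        rw [if_neg (fun h' => he h'.symm)] at h1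
        have h2 := (Finset.sum_eq_zero_iff.1 h1) χ hχ
        rcases Nat.mul_eq_zero.1 h2 with h3 | h3
        · exact absurd h3 hne
        · exact h3
    have h1 := charS_expand hLT (charS_of_irrS hχ')
    rw [Finset.sum_eq_zero (fun φ hφ => by rw [hz φ hφ, Nat.cast_zero, zero_smul])] at h1
    have h2 := congrFun h1 1
    rw [rs, if_pos L.one_mem, Pi.zero_apply] at h2
    obtain ⟨n, hn, hn1⟩ := irrS_one hχ'
    rw [hn1] at h2
    have h3 : n = 0 := by exact_mod_cast h2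
    omega
  have hsum := hmuL θ hθ
  rw [if_pos rfl] at hsum
  have hle : ∑ χ ∈ irr T, mu T f χ ≤ 1 := by
    rw [← hsum]
    refine Finset.sum_le_sum fun χ hχ => ?_
    by_cases h0 : mu T f χ = 0
    · rw [h0, zero_mul]
    · exact Nat.le_mul_of_pos_right _ (Nat.pos_of_ne_zero (hpos χ hχ h0))
  have hex : ∃ χ ∈ irr T, mu T f χ ≠ 0 := by
    by_contra hcon
    push Not at hcon
    rw [Finset.sum_eq_zero (fun χ hχ => by rw [hcon χ hχ, zero_mul])] at hsum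
    exact absurd hsum (by norm_num)
  obtain ⟨χ, hχ, hne⟩ := hex
  have hsplit := Finset.add_sum_erase (irr T) (fun χ => mu T f χ) hχ
  have h1 : mu T f χ = 1 := by
    have := Nat.pos_of_ne_zero hne
    omega
  have h2 : ∀ χ' ∈ irr T, χ' ≠ χ → mu T f χ' = 0 := by
    intro χ' hχ' hne'
    have h3 : ∑ x ∈ (irr T).erase χ, mu T f x = 0 := by
      omega
    exact (Finset.sum_eq_zero_iff.1 h3) χ' (Finset.mem_erase.2 ⟨hne', hχ'⟩)
  have h3 := charS_expand' hf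
  rw [Finset.sum_eq_single χ (fun b hb hbne => by rw [h2 b hb hbne, Nat.cast_zero, zero_smul]) (fun hn => absurd hχ hn), h1,
    Nat.cast_one, one_smul] at h3
  rw [h3]
  exact mem_irr.1 hχ

/-- The canonical extension `Θ` of `θ ∈ Irr L` to `L P`: for all `z ∈ P`, `c ∈ C_L(z)`, `Θ (z c) = ε_z ψ_z(c)` with `ψ_z` the `z`-correspondent of `θ` and `ε_z = ±1` congruent to its multiplicity modulo `p`. -/
structure Can (p : ℕ) (L P : Subgroup G) (θ Θ : G → ℂ) : Prop where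
  irr : Θ ∈ IrrS (L ⊔ P)
  ext : ∀ x ∈ L, Θ x = θ x
  val : ∀ z ∈ P, ∃ ψ, ∃ ε : ℤ, (ε = 1 ∨ ε = -1) ∧ GC p L {z} θ ψ ∧ ((mu (CM L {z}) θ ψ : ℤ) ≡ ε [ZMOD p]) ∧
    ∀ c ∈ CM L {z}, Θ (z * c) = (ε : ℂ) * ψ c

private theorem C3_not_dvd {p : ℕ} [Fact p.Prime] {n : ℕ} {ε : ℤ} (hε : ε = 1 ∨ ε = -1) (h : (n : ℤ) ≡ ε [ZMOD p]) : ¬ p ∣ n := by
  intro hd
  have hp : p.Prime := Fact.out
  have h1 : (p : ℤ) ∣ (n : ℤ) := by exact_mod_cast hd
  have h2 : (p : ℤ) ∣ ε := by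
    have h3 := dvd_add h.dvd h1
    rwa [sub_add_cancel] at h3
  have h3 : (p : ℤ) ∣ 1 := by
    rcases hε with rfl | rfl
    · exact h2
    · exact (Int.dvd_neg).1 h2
  have h4 : p ∣ 1 := by exact_mod_cast h3
  exact hp.one_lt.ne' (Nat.dvd_one.1 h4)

/-- Values of any extension: restrict `Θ₀` to `L⟨z⟩` (`irrS_of_ext`) and apply `glaub`. -/
theorem ext_val {p : ℕ} [Fact p.Prime] {L P : Subgroup G} (hL : ¬ p ∣ Nat.card L) (hn : ∀ z ∈ P, Nz z L) {θ Θ₀ : G → ℂ}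
    (hθ : θ ∈ IrrS L) (h : Θ₀ ∈ IrrS (L ⊔ P)) (he : ∀ x ∈ L, Θ₀ x = θ x) {z : G} (hz : z ∈ P) {a : ℕ} (hq : orderOf z = p ^ a) :
    ∃ ψ, ∃ ε : ℤ, (ε = 1 ∨ ε = -1) ∧ ∃ w : ℂ, w ^ (p ^ a) = 1 ∧ GC p L {z} θ ψ ∧ ((mu (CM L {z}) θ ψ : ℤ) ≡ ε [ZMOD p]) ∧
      ∀ j : ℕ, j.Coprime p → ∀ c ∈ CM L {z}, Θ₀ (z ^ j * c) = (ε : ℂ) * w ^ j * ψ c := by
  have hle : L ⊔ Subgroup.zpowers z ≤ L ⊔ P := sup_le_sup_left (by rw [Subgroup.zpowers_le]; exact hz) L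
  have hΨ : rs (L ⊔ Subgroup.zpowers z) Θ₀ ∈ CharS (L ⊔ Subgroup.zpowers z) := charS_rs hle (charS_of_irrS h)
  have hLT : L ≤ L ⊔ Subgroup.zpowers z := le_sup_left
  have hΨL : ∀ x ∈ L, rs (L ⊔ Subgroup.zpowers z) Θ₀ x = θ x := by
    intro x hx
    rw [rs, if_pos (hLT hx), he x hx]
  have hΨI := irrS_of_ext hLT hΨ hθ hΨL
  have h1 : ip L (rs (L ⊔ Subgroup.zpowers z) Θ₀) (rs (L ⊔ Subgroup.zpowers z) Θ₀) = 1 := by
    rw [ip_congr L hΨL hΨL, irrS_ortho hθ hθ, if_pos rfl]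
  obtain ⟨ψ, hψ, ε, hε, w, hw, hval, -, hmu⟩ := glaub hL (hn z hz) hq rfl hΨI h1
  have hDL : ∀ x ∈ CM L {z}, x ∈ L := fun x hx => (mem_CM_single.1 hx).1
  rw [C3_mu_congr (CM L {z}) (fun x hx => hΨL x (hDL x hx))] at hmu
  refine ⟨ψ, ε, hε, w, hw, ⟨hθ, hψ, C3_not_dvd hε hmu⟩, hmu, ?_⟩
  intro j hj c hc
  rw [← hval j hj c hc, rs, if_pos]
  exact Subgroup.mul_mem _ (Subgroup.mem_sup_right (Subgroup.pow_mem _ (Subgroup.mem_zpowers z) j)) (hLT (hDL c hc))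

/-- The determinant of the extension at `z` is `w ^ θ(1)`. Proof: `eigen_mult` (A14) with `H = L P`, `D = C_L(z)`, `q = p ^ a`; `m k = ∑_ψ m ψ k * ψ 1`, so `Θ₀ (z^i) = vf q m i` and `∑ m k = Θ₀ 1 = n`. For `s ≤ a` apply `ext_val` to `z ^ (p ^ s)`:
`Θ₀ (z^(p^s j)) = ε_s w_s^j ψ_s(1)`, `n_s = ε_s ψ_s(1)` is prime to `p` (`irr_dvd` in A13: `ψ_s(1)` divides the order of a subgroup of `L`). Use `det_arith` with `κ_0 = w`, `κ_s = w_s` for `s > 0`. -/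
theorem ext_det {p : ℕ} [Fact p.Prime] (hp2 : p ≠ 2) {L P : Subgroup G} (hL : ¬ p ∣ Nat.card L) (hn : ∀ z ∈ P, Nz z L) {θ Θ₀ δ : G → ℂ}
    (hθ : θ ∈ IrrS L) (h : Θ₀ ∈ IrrS (L ⊔ P)) (he : ∀ x ∈ L, Θ₀ x = θ x)
    (hδ : ∀ z ∈ L ⊔ P, ∀ q : ℕ, 0 < q → z ^ q = 1 → ∀ m : ℕ → ℕ,
      (∀ i : ℕ, Θ₀ (z ^ i) = vf q (fun k => (m k : ℤ)) i) → δ z = ze q (∑ k ∈ Finset.range q, k * m k))
    {n : ℕ} (hn1 : θ 1 = n) {z : G} (hz : z ∈ P) {a : ℕ} (hq : orderOf z = p ^ a) {w : ℂ} {ε : ℤ} {ψ : G → ℂ}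
    (hψ : GC p L {z} θ ψ) (hε : ε = 1 ∨ ε = -1) (hw : w ^ (p ^ a) = 1)
    (hv : ∀ j : ℕ, j.Coprime p → ∀ c ∈ CM L {z}, Θ₀ (z ^ j * c) = (ε : ℂ) * w ^ j * ψ c) : δ z = w ^ n := by
  have hp : p.Prime := Fact.out
  have hp0 : 0 < p := hp.pos
  have hqpos : 0 < p ^ a := pow_pos hp0 a
  have hzq : z ^ (p ^ a) = 1 := by rw [← hq]; exact pow_orderOf_eq_one z
  have hzT : z ∈ L ⊔ P := Subgroup.mem_sup_right hz
  have hDL : ∀ x ∈ CM L {z}, x ∈ L := fun x hx => (mem_CM_single.1 hx).1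
  -- degrees
  have hdeg : ∀ (M : Subgroup G) (φ : G → ℂ), φ ∈ IrrS M → ∃ d : ℕ, φ 1 = d ∧ d ∣ Nat.card M := by
    intro M φ hφ
    obtain ⟨d, -, hd, hdd⟩ := irr_dvd hφ.2
    exact ⟨d, hd, hdd⟩
  have hdeg' : ∀ y : G, ∀ φ ∈ IrrS (CM L {y}), ∃ d : ℕ, φ 1 = d ∧ ¬ p ∣ d := by
    intro y φ hφ
    obtain ⟨d, hd, hdd⟩ := hdeg _ φ hφ
    refine ⟨d, hd, fun hpd => hL ?_⟩
    have h1 : Nat.card (CM L {y}) ∣ Nat.card L :=
      Subgroup.card_dvd_of_le (fun x hx => (mem_CM_single.1 hx).1)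
    exact (hpd.trans hdd).trans h1
  -- multiplicities
  obtain ⟨m, -, hm⟩ := eigen_mult (D := CM L {z}) (fun x hx => Subgroup.mem_sup_left (hDL x hx)) hzT hqpos hzq
    (fun d hd => (mem_CM_single.1 hd).2) (charS_of_irrS h)
  choose! deg hdg using fun (φ : G → ℂ) (hφ : φ ∈ IrrS (CM L {z})) => hdeg (CM L {z}) φ hφ
  let M : ℕ → ℕ := fun k => if hk : k < p ^ a then ∑ φ ∈ irr (CM L {z}), m φ ⟨k, hk⟩ * deg φ else 0
  have hM : ∀ i : ℕ, Θ₀ (z ^ i) = vf (p ^ a) (fun k => (M k : ℤ)) i := by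
    intro i
    have h1 := hm i 1 (Subgroup.one_mem _)
    rw [mul_one] at h1
    rw [h1]
    unfold vf
    rw [← Fin.sum_univ_eq_sum_range (fun k => (((M k : ℤ) : ℂ)) * ze (p ^ a) (i * k)) (p ^ a)]
    have h2 : ∀ φ ∈ irr (CM L {z}), (∑ k : Fin (p ^ a), (m φ k : ℂ) * Complex.exp (2 * Real.pi * Complex.I * (i * (k : ℕ)) / (p ^ a : ℕ))) * φ 1 =
        ∑ k : Fin (p ^ a), ((m φ k : ℂ) * deg φ) * ze (p ^ a) (i * k) := by
      intro φ hφ
      rw [(hdg φ (mem_irr.1 hφ)).1, Finset.sum_mul]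
      refine Finset.sum_congr rfl fun k _ => ?_
      unfold ze
      push_cast
      ring
    rw [Finset.sum_congr rfl h2, Finset.sum_comm]
    refine Finset.sum_congr rfl fun k _ => ?_
    simp only [M]
    rw [dif_pos k.2]
    push_cast
    rw [Finset.sum_mul]
  have hdel := hδ z hzT (p ^ a) hqpos hzq M hM
  -- the values at the other levels
  have hlev : ∀ s : ℕ, s ≤ a → ∃ (d : ℤ) (κ : ℂ), ¬ (p : ℤ) ∣ d ∧ κ ≠ 0 ∧ (∀ j : ℕ, j.Coprime p → Θ₀ (z ^ (p ^ s * j)) = (d : ℂ) * κ ^ j) := by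
    intro s hs
    have ho : orderOf (z ^ (p ^ s)) = p ^ (a - s) := by
      rw [orderOf_pow' z (pow_ne_zero s hp0.ne'), hq, Nat.gcd_eq_right (Nat.pow_dvd_pow p hs), Nat.pow_div hs hp0]
    obtain ⟨φ, e, hee, v, hv1, hG, -, hvv⟩ := ext_val hL hn hθ h he (P.pow_mem hz (p ^ s)) ho
    obtain ⟨d, hd, hpd⟩ := hdeg' _ φ hG.2.1
    refine ⟨e * d, v, ?_, ?_, ?_⟩
    · intro hdv
      apply hpd
      rcases hee with rfl | rfl
      · rw [one_mul] at hdv; exact_mod_cast hdv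
      · rw [neg_one_mul, Int.dvd_neg] at hdv; exact_mod_cast hdv
    · intro hv0
      rw [hv0, zero_pow (pow_ne_zero _ hp0.ne')] at hv1
      exact zero_ne_one hv1
    · intro j hj
      have h1 := hvv j hj 1 (Subgroup.one_mem _)
      rw [mul_one, hd] at h1
      rw [pow_mul, h1]
      push_cast
      ring
  choose! dd κ hdd hκ hval using hlev
  obtain ⟨d0, hd0, hpd0⟩ := hdeg' z ψ hψ.2.1
  have hw0 : w ≠ 0 := by
    intro hw0
    rw [hw0, zero_pow hqpos.ne'] at hw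
    exact zero_ne_one hw
  have hmain := det_arith hp2 (a := a) M (fun s => if s = 0 then ε * d0 else dd s) (fun s => if s = 0 then w else κ s) ?_ ?_ ?_ ?_
  · rw [hdel, hmain]
    simp only [if_true]
    congr 1
    have h1 := hM 0
    rw [pow_zero, he 1 L.one_mem, hn1] at h1
    unfold vf at h1
    have h2 : ∀ k, ze (p ^ a) (0 * k) = 1 := by intro k; simp [ze]
    simp only [h2, mul_one] at h1
    have h3 : (n : ℂ) = ((∑ k ∈ Finset.range (p ^ a), M k : ℕ) : ℂ) := by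
      rw [h1]; push_cast; rfl
    have h4 : n = ∑ k ∈ Finset.range (p ^ a), M k := by exact_mod_cast h3
    exact h4.symm
  · intro s hs
    split_ifs with h0
    · intro hdv
      apply hpd0
      rcases hε with rfl | rfl
      · rw [one_mul] at hdv; exact_mod_cast hdv
      · rw [neg_one_mul, Int.dvd_neg] at hdv; exact_mod_cast hdv
    · exact hdd s hs
  · simp only [if_true]
    exact hw
  · intro s hs
    split_ifs with h0
    · exact hw0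
    · exact hκ s hs
  · intro s hs j hj
    rw [← hM]
    split_ifs with h0
    · subst h0
      have h1 := hv j hj 1 (Subgroup.one_mem _)
      rw [mul_one, hd0] at h1
      rw [pow_zero, one_mul, h1]
      push_cast
      ring
    · exact hval s hs j hj

end Pool.Agent.Lib.H90Q
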