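import Pool.Agent.Lib.H90Q.C3

open scoped Classical ComplexConjugate BigOperators

noncomputable section

namespace Pool.Agent.Lib.H90Q

variable {G : Type*} [Group G] [Fintype G]

private theorem c4_ord {p : ℕ} [Fact p.Prime] {z : G} (h : ∃ a : ℕ, z ^ (p ^ a) = 1) :
    ∃ a : ℕ, orderOf z = p ^ a := by
  obtain ⟨a, ha⟩ := h
  obtain ⟨b, -, hb⟩ := (Nat.dvd_prime_pow (Fact.out : p.Prime)).mp (orderOf_dvd_of_pow_eq_one ha)
  exact ⟨b, hb⟩

private theorem c4_CM_le {L : Subgroup G} {z c : G} (h : c ∈ CM L {z}) : c ∈ L :=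
  (mem_CM_single.1 h).1

/-- conjugation by `b` carries `K` to `K'` -/
private theorem c4_ip {K K' : Subgroup G} {b : G} (hK : ∀ g, b⁻¹ * g * b ∈ K ↔ g ∈ K') (f g : G → ℂ) :
    ip K' (cj b f) (cj b g) = ip K f g := by
  have hcard : Nat.card K' = Nat.card K := by
    refine Nat.card_congr ⟨fun x => ⟨b⁻¹ * x * b, (hK x).2 x.2⟩, fun x => ⟨b * x * b⁻¹, ?_⟩, ?_, ?_⟩
    · rw [← hK]
      have e : b⁻¹ * (b * (x : G) * b⁻¹) * b = x := by group
      rw [e]
      exact x.2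
    · intro x
      apply Subtype.ext
      show b * (b⁻¹ * (x : G) * b) * b⁻¹ = x
      group
    · intro x
      apply Subtype.ext
      show b⁻¹ * (b * (x : G) * b⁻¹) * b = x
      group
  unfold ip
  rw [hcard]
  congr 1
  refine Fintype.sum_equiv (MulAut.conj b⁻¹).toEquiv _ _ fun x => ?_
  have e : (MulAut.conj b⁻¹).toEquiv x = b⁻¹ * x * b := by
    simp [MulAut.conj_apply]
  rw [e]
  by_cases hx : x ∈ K'
  · rw [if_pos hx, if_pos ((hK x).2 hx)]
    rfl
  · rw [if_neg hx, if_neg (fun h => hx ((hK x).1 h))]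

private theorem c4_irr {K K' : Subgroup G} {b : G} (hK : ∀ g, b⁻¹ * g * b ∈ K ↔ g ∈ K') {φ : G → ℂ}
    (h : φ ∈ IrrS K) : cj b φ ∈ IrrS K' := by
  refine ⟨fun g hg => h.1 _ fun h1 => hg ((hK g).1 h1), ?_⟩
  let e : K' →* K :=
    { toFun := fun x => ⟨b⁻¹ * x * b, (hK x).2 x.2⟩
      map_one' := by
        apply Subtype.ext
        show b⁻¹ * (1 : G) * b = 1
        group
      map_mul' := fun x y => by
        apply Subtype.ext
        show b⁻¹ * ((x : G) * y) * b = b⁻¹ * x * b * (b⁻¹ * y * b)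
        group }
  have he : Function.Surjective e := by
    intro x
    have hx : b * (x : G) * b⁻¹ ∈ K' := by
      rw [← hK]
      have e1 : b⁻¹ * (b * (x : G) * b⁻¹) * b = x := by group
      rw [e1]
      exact x.2
    refine ⟨⟨b * x * b⁻¹, hx⟩, ?_⟩
    apply Subtype.ext
    show b⁻¹ * (b * (x : G) * b⁻¹) * b = x
    group
  exact isIrr_comp e he h.2

private theorem c4_nz_iff {H : Subgroup G} {b : G} (h : Nz b H) (g : G) : b⁻¹ * g * b ∈ H ↔ g ∈ H := by
  have h1 := h (b⁻¹ * g * b)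
  have e : b * (b⁻¹ * g * b) * b⁻¹ = g := by group
  rw [e] at h1
  exact h1

private theorem c4_map {H : Subgroup G} {b : G} (h : Nz b H) : H.map (MulAut.conj b).toMonoidHom = H := by
  ext y
  constructor
  · rintro ⟨x, hx, rfl⟩
    exact (h x).1 hx
  · intro hy
    refine ⟨b⁻¹ * y * b, (c4_nz_iff h y).2 hy, ?_⟩
    show b * (b⁻¹ * y * b) * b⁻¹ = y
    group

private theorem c4_nz_sup {L P : Subgroup G} {b : G} (hL : Nz b L) (hP : Nz b P) : Nz b (L ⊔ P) := by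
  have hm : (L ⊔ P).map (MulAut.conj b).toMonoidHom = L ⊔ P := by
    rw [Subgroup.map_sup, c4_map hL, c4_map hP]
  intro g
  constructor
  · intro hg
    rw [← hm]
    exact ⟨g, hg, rfl⟩
  · intro hg
    rw [← hm] at hg
    obtain ⟨x, hx, e⟩ := hg
    have e1 : b * x * b⁻¹ = b * g * b⁻¹ := e
    have e2 : x = g := mul_left_cancel (mul_right_cancel e1)
    rw [← e2]
    exact hx

/-- Any extension can be twisted to a canonical one. `δ` = determinant (`det_char`); `lin_root` with `n = θ 1` (prime to `p` by A13) gives `l ∈ LinS (L ⊔ P) L` with `l(z)^n δ(z) = 1`; `Θ = l * Θ₀`. For `z ∈ P`, `w` of `ext_val`: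
`(l(z) w)^n = 1` and `(l(z) w)^(orderOf z) = 1`, coprime exponents, so `l(z) w = 1`. -/
theorem can_of_ext {p : ℕ} [Fact p.Prime] (hp2 : p ≠ 2) {L P : Subgroup G} (hL : ¬ p ∣ Nat.card L) (hn : ∀ z ∈ P, Nz z L)
    (hp : ∀ z ∈ P, ∃ a : ℕ, z ^ (p ^ a) = 1) {θ Θ₀ : G → ℂ} (hθ : θ ∈ IrrS L) (h : Θ₀ ∈ IrrS (L ⊔ P)) (he : ∀ x ∈ L, Θ₀ x = θ x) :
    ∃ Θ, Can p L P θ Θ := by
  have hp0 : p.Prime := Fact.out
  obtain ⟨n, hn0, hn1, hnd⟩ := irr_dvd hθ.2
  have hn1' : θ 1 = (n : ℂ) := hn1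
  have hcop : n.Coprime p := by
    refine ((Nat.Prime.coprime_iff_not_dvd hp0).2 fun hd => hL ?_).symm
    exact hd.trans hnd
  obtain ⟨δ, hδ, hδ'⟩ := det_char (charS_of_irrS h)
  obtain ⟨l, hl, hlz⟩ := lin_root hL hn hp hδ hcop
  refine ⟨l * Θ₀, ⟨lin_mul_irr hl h, fun x hx => ?_, fun z hz => ?_⟩⟩
  · rw [Pi.mul_apply, hl.2.1 x hx, one_mul, he x hx]
  · obtain ⟨a, ha⟩ := c4_ord (hp z hz)
    obtain ⟨ψ, ε, hε, w, hw, hGC, hmod, hval⟩ := ext_val hL hn hθ h he hz ha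
    have hdet : δ z = w ^ n := ext_det hp2 hL hn hθ h he hδ' hn1' hz ha hGC hε hw hval
    have hzT : z ∈ L ⊔ P := Subgroup.mem_sup_right hz
    have h1 : (l z * w) ^ n = 1 := by
      have := hlz z hz
      rw [hdet] at this
      rw [mul_pow]
      exact this
    have h2 : (l z * w) ^ (p ^ a) = 1 := by
      have := lin_pow hl hzT
      rw [ha] at this
      rw [mul_pow, this, hw, one_mul]
    have h3 : l z * w = 1 := by
      have h4 : (l z * w) ^ Nat.gcd n (p ^ a) = 1 := pow_gcd_eq_one.2 ⟨h1, h2⟩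
      have h5 : Nat.gcd n (p ^ a) = 1 := Nat.Coprime.pow_right a hcop
      rw [h5, pow_one] at h4
      exact h4
    refine ⟨ψ, ε, hε, hGC, hmod, fun c hc => ?_⟩
    have hcL : c ∈ L := c4_CM_le hc
    have h6 : l (z * c) = l z := by
      rw [hl.2.2 z hzT c (Subgroup.mem_sup_left hcL), hl.2.1 c hcL, mul_one]
    have h7 := hval 1 (Nat.coprime_one_left p) c hc
    rw [pow_one z, pow_one w] at h7
    rw [Pi.mul_apply, h6, h7]
    calc l z * ((ε : ℂ) * w * ψ c) = (l z * w) * ((ε : ℂ) * ψ c) := by ring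
      _ = (ε : ℂ) * ψ c := by rw [h3, one_mul]

/-- Uniqueness: `Θ' = l * Θ` (`abel_trans`), at `z ∈ P`: `l(z) ε ψ(1) = ε' ψ'(1)`, `ψ = ψ'` by uniqueness (`glaub_exists`; `θ` is `z`-invariant by `ext_inv`), so `l(z) = ±1`; the order of `z` is odd, so `l(z) = 1`. -/
theorem can_unique {p : ℕ} [Fact p.Prime] (hp2 : p ≠ 2) {L P : Subgroup G} (hL : ¬ p ∣ Nat.card L) (hn : ∀ z ∈ P, Nz z L)
    (hp : ∀ z ∈ P, ∃ a : ℕ, z ^ (p ^ a) = 1) (hab : ∀ b ∈ P, ∀ c ∈ P, b * c = c * b) {θ Θ Θ' : G → ℂ} (hθ : θ ∈ IrrS L)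
    (h : Can p L P θ Θ) (h' : Can p L P θ Θ') : Θ = Θ' := by
  have hp0 : p.Prime := Fact.out
  have hLT : L ≤ L ⊔ P := le_sup_left
  have hov : ∀ {Ψ : G → ℂ}, (∀ x ∈ L, Ψ x = θ x) → Over L Ψ θ := by
    intro Ψ hΨ
    unfold Over
    rw [ip_congr L hΨ (fun x _ => rfl), irrS_ortho hθ hθ, if_pos rfl]
    exact one_ne_zero
  obtain ⟨l, hl, hlΘ⟩ := abel_trans hLT (comm_abel hn hab) h.irr h'.irr hθ (hov h.ext) (hov h'.ext)
  have hlz : ∀ z ∈ P, l z = 1 := by
    intro z hz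
    obtain ⟨a, ha⟩ := hp z hz
    have hinv : cj z θ = θ :=
      ext_inv hLT (nz_sup hn) (charS_of_irrS h.irr) hθ h.ext (Subgroup.mem_sup_right hz)
    obtain ⟨ψ₀, -, huni, -⟩ := glaub_exists hL (hn z hz) ha hθ hinv
    obtain ⟨ψ, ε, hε, hGC, hmod, hval⟩ := h.val z hz
    obtain ⟨ψ', ε', hε', hGC', hmod', hval'⟩ := h'.val z hz
    have e1 : ψ = ψ₀ := by
      by_contra hne
      exact hGC.2.2 (huni ψ hGC.2.1 hne)
    have e2 : ψ' = ψ₀ := by
      by_contra hne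
      exact hGC'.2.2 (huni ψ' hGC'.2.1 hne)
    have e3 : ψ' = ψ := e2.trans e1.symm
    subst e3
    have hεε : ε = ε' := by
      have h1 : (ε : ℤ) ≡ ε' [ZMOD p] := hmod.symm.trans hmod'
      have h2 : (p : ℤ) ∣ ε' - ε := h1.dvd
      rcases hε with rfl | rfl <;> rcases hε' with rfl | rfl
      · rfl
      · exfalso
        have h3 : (p : ℤ) ∣ 2 := by
          have := (Int.dvd_neg).2 h2
          norm_num at this
          exact this
        have h4 : p ∣ 2 := by exact_mod_cast h3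
        exact hp2 ((Nat.prime_dvd_prime_iff_eq hp0 Nat.prime_two).1 h4)
      · exfalso
        have h3 : (p : ℤ) ∣ 2 := by
          norm_num at h2
          exact h2
        have h4 : p ∣ 2 := by exact_mod_cast h3
        exact hp2 ((Nat.prime_dvd_prime_iff_eq hp0 Nat.prime_two).1 h4)
      · rfl
    have h1 := hval 1 (Subgroup.one_mem _)
    have h2 := hval' 1 (Subgroup.one_mem _)
    rw [hlΘ, Pi.mul_apply, h1, mul_one z] at h2
    rw [hεε] at h2
    obtain ⟨n, hn0, hn1⟩ := irrS_one hGC.2.1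
    have hne : (ε' : ℂ) * ψ' 1 ≠ 0 := by
      refine mul_ne_zero ?_ ?_
      · rcases hε' with rfl | rfl <;> norm_num
      · rw [hn1]
        exact_mod_cast hn0.ne'
    exact mul_right_cancel₀ hne (h2.trans (one_mul _).symm)
  funext t
  by_cases ht : t ∈ L ⊔ P
  · obtain ⟨x, hx, z, hz, rfl⟩ := (mem_sup_nz hn).1 ht
    rw [hlΘ, Pi.mul_apply, hl.2.2 x (Subgroup.mem_sup_left hx) z (Subgroup.mem_sup_right hz),
      hl.2.1 x hx, hlz z hz, one_mul, one_mul]
  · rw [h.irr.1 t ht, h'.irr.1 t ht]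

theorem can_cj {p : ℕ} {L P : Subgroup G} {b : G} (hbL : Nz b L) (hbP : Nz b P) {θ Θ : G → ℂ} (h : Can p L P θ Θ) :
    Can p L P (cj b θ) (cj b Θ) := by
  refine ⟨cj_irrS (c4_nz_sup hbL hbP) h.irr, fun x hx => h.ext _ ((c4_nz_iff hbL x).2 hx), fun z hz => ?_⟩
  obtain ⟨ψ, ε, hε, hGC, hmod, hval⟩ := h.val (b⁻¹ * z * b) ((c4_nz_iff hbP z).2 hz)
  have hK : ∀ g, b⁻¹ * g * b ∈ CM L {b⁻¹ * z * b} ↔ g ∈ CM L {z} := by
    intro g
    rw [mem_CM_single, mem_CM_single, c4_nz_iff hbL g]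
    refine and_congr_right fun _ => ?_
    constructor
    · intro h1
      have h2 : b⁻¹ * (g * z) * b = b⁻¹ * (z * g) * b := by
        calc b⁻¹ * (g * z) * b = b⁻¹ * g * b * (b⁻¹ * z * b) := by group
          _ = b⁻¹ * z * b * (b⁻¹ * g * b) := h1
          _ = b⁻¹ * (z * g) * b := by group
      exact mul_left_cancel (mul_right_cancel h2)
    · intro h1
      calc b⁻¹ * g * b * (b⁻¹ * z * b) = b⁻¹ * (g * z) * b := by group
        _ = b⁻¹ * (z * g) * b := by rw [h1]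
        _ = b⁻¹ * z * b * (b⁻¹ * g * b) := by group
  have hmu : mu (CM L {z}) (cj b θ) (cj b ψ) = mu (CM L {b⁻¹ * z * b}) θ ψ := by
    unfold mu
    rw [c4_ip hK]
  refine ⟨cj b ψ, ε, hε, ⟨cj_irrS hbL hGC.1, c4_irr hK hGC.2.1, ?_⟩, ?_, fun c hc => ?_⟩
  · rw [hmu]
    exact hGC.2.2
  · rw [hmu]
    exact hmod
  · have h1 := hval (b⁻¹ * c * b) ((hK c).2 hc)
    have e : b⁻¹ * z * b * (b⁻¹ * c * b) = b⁻¹ * (z * c) * b := by group
    rw [e] at h1
    exact h1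

/-- restriction to a smaller `P' ≤ P` -/
theorem can_rs {p : ℕ} {L P P' : Subgroup G} (hP : P' ≤ P) {θ Θ : G → ℂ} (hθ : θ ∈ IrrS L) (h : Can p L P θ Θ) :
    Can p L P' θ (rs (L ⊔ P') Θ) := by
  have hle : L ⊔ P' ≤ L ⊔ P := sup_le_sup_left hP L
  have hext : ∀ x ∈ L, rs (L ⊔ P') Θ x = θ x := by
    intro x hx
    unfold rs
    rw [if_pos (Subgroup.mem_sup_left hx), h.ext x hx]
  refine ⟨irrS_of_ext le_sup_left (charS_rs hle (charS_of_irrS h.irr)) hθ hext, hext, fun z hz => ?_⟩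
  obtain ⟨ψ, ε, hε, hGC, hmod, hval⟩ := h.val z (hP hz)
  refine ⟨ψ, ε, hε, hGC, hmod, fun c hc => ?_⟩
  have hm : z * c ∈ L ⊔ P' :=
    Subgroup.mul_mem _ (Subgroup.mem_sup_right hz) (Subgroup.mem_sup_left (c4_CM_le hc))
  unfold rs
  rw [if_pos hm]
  exact hval c hc

/-- Existence. Induction on `P` (for instance strong induction on `|P|`): `P = ⊥`: `Θ = θ`. `P = P' ⊔ ⟨z⟩` with `P' < P`: `Θ'` canonical for `P'`; `cj z Θ'` is canonical too (`can_cj`, `θ` is `z`-invariant, `P` abelian), so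
`cj z Θ' = Θ'` (`can_unique`); `ext_cyclic` (A18) extends `Θ'` to `(L ⊔ P') ⊔ ⟨z⟩ = L ⊔ P`; `can_of_ext`. -/
theorem can_exists {p : ℕ} [Fact p.Prime] (hp2 : p ≠ 2) {L P : Subgroup G} (hL : ¬ p ∣ Nat.card L) (hn : ∀ z ∈ P, Nz z L)
    (hp : ∀ z ∈ P, ∃ a : ℕ, z ^ (p ^ a) = 1) (hab : ∀ b ∈ P, ∀ c ∈ P, b * c = c * b) {θ : G → ℂ} (hθ : θ ∈ IrrS L)
    (hinv : InvS P θ) : ∃ Θ, Can p L P θ Θ := by
  obtain ⟨N, hN⟩ : ∃ N : ℕ, N = Nat.card P := ⟨_, rfl⟩
  induction N using Nat.strong_induction_on generalizing P with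
  | _ N ih =>
    by_cases hbot : P = ⊥
    · subst hbot
      refine ⟨θ, ⟨?_, fun x _ => rfl, fun z hz => ?_⟩⟩
      · rw [sup_bot_eq]
        exact hθ
      · have hz1 : z = 1 := Subgroup.mem_bot.1 hz
        subst hz1
        have hCM : CM L ({1} : Set G) = L := by
          ext g
          rw [mem_CM_single]
          exact ⟨fun h => h.1, fun h => ⟨h, by rw [mul_one, one_mul]⟩⟩
        have hmu : mu (CM L ({1} : Set G)) θ θ = 1 := by
          unfold mu
          rw [hCM, irrS_ortho hθ hθ, if_pos rfl]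
          norm_num
        refine ⟨θ, 1, Or.inl rfl, ⟨hθ, ?_, ?_⟩, ?_, fun c _ => ?_⟩
        · rw [hCM]
          exact hθ
        · rw [hmu]
          exact (Fact.out : p.Prime).one_lt.ne' ∘ Nat.dvd_one.1
        · rw [hmu]
          rfl
        · rw [one_mul, Int.cast_one, one_mul]
    · have hne : {Q : Subgroup G | Q < P}.Nonempty := ⟨⊥, bot_lt_iff_ne_bot.2 hbot⟩
      obtain ⟨P', hP'⟩ := (Set.toFinite {Q : Subgroup G | Q < P}).exists_maximal hne
      have hlt : P' < P := hP'.1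
      obtain ⟨z, hzP, hzP'⟩ := SetLike.exists_of_lt hlt
      have hsup : P' ⊔ Subgroup.zpowers z = P := by
        have h1 : P' ⊔ Subgroup.zpowers z ≤ P := sup_le hlt.le ((Subgroup.zpowers_le).2 hzP)
        rcases h1.eq_or_lt with h2 | h2
        · exact h2
        · exfalso
          have h3 : P' ⊔ Subgroup.zpowers z ≤ P' := hP'.2 h2 le_sup_left
          exact hzP' (h3 (Subgroup.mem_sup_right (Subgroup.mem_zpowers z)))
      have hcard : Nat.card P' < N := by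
        rw [hN]
        exact Set.Finite.card_lt_card (Set.toFinite _) hlt
      have hn' : ∀ z ∈ P', Nz z L := fun y hy => hn y (hlt.le hy)
      have hp' : ∀ z ∈ P', ∃ a : ℕ, z ^ (p ^ a) = 1 := fun y hy => hp y (hlt.le hy)
      have hab' : ∀ b ∈ P', ∀ c ∈ P', b * c = c * b :=
        fun y hy y' hy' => hab y (hlt.le hy) y' (hlt.le hy')
      obtain ⟨Θ', hΘ'⟩ := ih (Nat.card P') hcard hn' hp' hab' (fun a ha => hinv a (hlt.le ha)) rfl
      have hzL : Nz z L := hn z hzP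
      have hzz : Nz z P' := by
        intro g
        constructor
        · intro hg
          rw [hab z hzP g (hlt.le hg), mul_assoc, mul_inv_cancel, mul_one]
          exact hg
        · intro hg
          have h1 := hab z hzP _ (hlt.le hg)
          have h2 : g = z * g * z⁻¹ := by
            have h3 : z * (z * g * z⁻¹) = z * g := by
              rw [h1]
              group
            exact (mul_left_cancel h3).symm
          rw [h2]
          exact hg
      have hcan : Can p L P' θ (cj z Θ') := by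
        have h1 := can_cj hzL hzz hΘ'
        rwa [hinv z hzP] at h1
      have heq : cj z Θ' = Θ' := can_unique hp2 hL hn' hp' hab' hθ hcan hΘ'
      have hT : L ⊔ P = (L ⊔ P') ⊔ Subgroup.zpowers z := by
        rw [sup_assoc, hsup]
      obtain ⟨Θ₀, hΘ₀, hext⟩ := ext_cyclic (c4_nz_sup hzL hzz) hT hΘ'.irr heq
      refine can_of_ext hp2 hL hn hp hθ hΘ₀ fun x hx => ?_
      rw [hext x (Subgroup.mem_sup_left hx), hΘ'.ext x hx]

end Pool.Agent.Lib.H90Q
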