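import Pool.Agent.Lib.H90Q.C4

open scoped Classical ComplexConjugate BigOperators

noncomputable section

namespace Pool.Agent.Lib.H90Q

variable {G : Type*} [Group G] [Fintype G]

/-- the canonical extension with any correspondent of `z` -/
theorem can_val {p : ℕ} [Fact p.Prime] {L P : Subgroup G} (hL : ¬ p ∣ Nat.card L) (hn : ∀ z ∈ P, Nz z L)
    (hp : ∀ z ∈ P, ∃ a : ℕ, z ^ (p ^ a) = 1) {θ Θ : G → ℂ} (hθ : θ ∈ IrrS L) (h : Can p L P θ Θ) :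
    ∀ z ∈ P, ∀ ψ, GC p L {z} θ ψ → ∃ ε : ℤ, (ε = 1 ∨ ε = -1) ∧ ((mu (CM L {z}) θ ψ : ℤ) ≡ ε [ZMOD p]) ∧
      ∀ c ∈ CM L {z}, Θ (z * c) = (ε : ℂ) * ψ c := by
  intro z hz ψ hψ
  obtain ⟨ψ₀, ε, hε, hgc, hmu, hv⟩ := h.val z hz
  obtain ⟨a, ha⟩ := hp z hz
  have hinv : cj z θ = θ := by
    refine ext_inv (N := L) (T := L ⊔ P) le_sup_left (nz_sup hn) (charS_of_irrS h.irr) hθ (fun x hx => h.ext x hx) ?_
    exact Subgroup.mem_sup_right hz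
  obtain ⟨ψ₁, h1, h2, -⟩ := glaub_exists hL (hn z hz) ha hθ hinv
  have e0 : ψ₀ = ψ₁ := by
    by_contra hne
    exact hgc.2.2 (h2 ψ₀ hgc.2.1 hne)
  have e1 : ψ = ψ₁ := by
    by_contra hne
    exact hψ.2.2 (h2 ψ hψ.2.1 hne)
  subst e0
  subst e1
  exact ⟨ε, hε, hmu, hv⟩

end Pool.Agent.Lib.H90Q
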