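import Pool.Agent.Lib.H90Q.C2

open scoped Classical ComplexConjugate BigOperators

noncomputable section

namespace Pool.Agent.Lib.H90Q

private theorem C6_ze_congr {q : ℕ} (hq : 0 < q) {a b : ℕ} (h : a ≡ b [MOD q]) :
    ze q a = ze q b := by
  have h' : a % q = b % q := h
  have h1 := ze_mod hq a
  have h2 := ze_mod hq b
  rw [← h1, ← h2, h']

private theorem C6_ze_zero (q : ℕ) : ze q 0 = 1 := by simp [ze]

private theorem C6_shift {A : Type*} [AddCommMonoid A] {q : ℕ} (hq : 0 < q) (c : ℕ) :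
    ∀ F : ℕ → A, ∑ k ∈ Finset.range q, F ((k + c) % q) = ∑ k ∈ Finset.range q, F k := by
  induction c with
  | zero =>
    intro F
    refine Finset.sum_congr rfl fun k hk => ?_
    rw [Nat.add_zero, Nat.mod_eq_of_lt (Finset.mem_range.mp hk)]
  | succ c ih =>
    intro F
    have h1 : ∀ G : ℕ → A,
        ∑ k ∈ Finset.range q, G ((k + 1) % q) = ∑ k ∈ Finset.range q, G k := by
      intro G
      obtain ⟨n, rfl⟩ : ∃ n, q = n + 1 := ⟨q - 1, by omega⟩
      rw [Finset.sum_range_succ, Finset.sum_range_succ' G n, Nat.mod_self]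
      congr 1
      refine Finset.sum_congr rfl fun k hk => ?_
      rw [Nat.mod_eq_of_lt (by have := Finset.mem_range.mp hk; omega)]
    calc ∑ k ∈ Finset.range q, F ((k + (c + 1)) % q)
        = ∑ k ∈ Finset.range q, F (((k + 1) % q + c) % q) := by
          refine Finset.sum_congr rfl fun k _ => ?_
          have h2 : k + (c + 1) = k + 1 + c := by omega
          rw [h2, Nat.mod_add_mod]
      _ = ∑ k ∈ Finset.range q, F ((k + c) % q) := h1 (fun x => F ((x + c) % q))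
      _ = ∑ k ∈ Finset.range q, F k := ih F

private theorem C6_vf_sub (q : ℕ) (m m' : ℕ → ℤ) (i : ℕ) :
    vf q (fun k => m k - m' k) i = vf q m i - vf q m' i := by
  unfold vf
  rw [← Finset.sum_sub_distrib]
  refine Finset.sum_congr rfl fun k _ => ?_
  push_cast
  ring

private theorem C6_vf_single {q c : ℕ} (hc : c < q) (n : ℤ) (i : ℕ) :
    vf q (fun k => if k = c then n else 0) i = (n : ℂ) * ze q (i * c) := by
  unfold vf
  rw [Finset.sum_eq_single c]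
  · beta_reduce
    rw [if_pos rfl]
  · intro k _ hk
    beta_reduce
    rw [if_neg hk]
    simp
  · intro h
    exact absurd (Finset.mem_range.mpr hc) h

/-- one level: the position of the exceptional fibre. -/
private theorem C6_sq {b : ℕ} (κ : ℂ) (c : ℕ) (hκ : κ = ze (2 * 2 ^ b) c) :
    κ ^ 2 = 1 ↔ 2 ^ b ∣ c := by
  rw [hκ, ← ze_mul_pow, ze_eq_one_iff (by positivity)]
  constructor
  · exact fun h => Nat.dvd_of_mul_dvd_mul_left (by norm_num) h
  · exact fun h => Nat.mul_dvd_mul_left 2 h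

private theorem C6_root {q : ℕ} (hq : 0 < q) (hq2 : 2 ∣ q) (M : ℕ → ℤ) (n : ℤ) (hn : ¬ (2 : ℤ) ∣ n)
    (κ : ℂ) (hκ : κ ≠ 0) (h : ∀ j : ℕ, j.Coprime 2 → vf q M j = (n : ℂ) * κ ^ j) : κ ^ q = 1 := by
  have hnc : (n : ℂ) ≠ 0 := by
    have : n ≠ 0 := by
      rintro rfl
      exact hn (dvd_zero _)
    exact_mod_cast this
  have e1 := h 1 (Nat.coprime_one_left 2)
  have e2 := h (1 + q) (by
    obtain ⟨r, rfl⟩ := hq2
    have : Nat.Coprime (1 + 2 * r) 2 ↔ Nat.Coprime 1 2 := Nat.coprime_add_mul_left_left 1 2 _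
    rw [this]
    exact Nat.coprime_one_left 2)
  have e3 : vf q M (1 + q) = vf q M 1 := by
    rw [← vf_mod hq M (1 + q), Nat.add_mod_right, vf_mod hq M 1]
  rw [e3, e1] at e2
  have e4 := mul_left_cancel₀ hnc e2
  rw [pow_one, pow_add, pow_one] at e4
  have e5 : κ * 1 = κ * κ ^ q := by rw [mul_one]; exact e4
  exact (mul_left_cancel₀ hκ e5).symm

private theorem C6_step {b : ℕ} (M : ℕ → ℤ) (n0 n1 : ℤ) (κ0 κ1 : ℂ)
    (hn0 : ¬ (2 : ℤ) ∣ n0) (hn1 : ¬ (2 : ℤ) ∣ n1) (hκ0 : κ0 ≠ 0) (hκ1 : κ1 ≠ 0)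
    (h0 : ∀ j : ℕ, j.Coprime 2 → vf (2 * 2 ^ (b + 1)) M j = (n0 : ℂ) * κ0 ^ j)
    (h1 : ∀ j : ℕ, j.Coprime 2 →
      vf (2 * 2 ^ b) (fun k => ∑ t ∈ Finset.range 2, M (k + 2 ^ (b + 1) * t)) j =
        (n1 : ℂ) * κ1 ^ j) (hsq : κ0 ^ 2 = 1) : κ1 ^ 2 = 1 := by
  have : Fact (Nat.Prime 2) := ⟨Nat.prime_two⟩
  have hq : 0 < 2 * 2 ^ b := by positivity
  have hq' : 0 < 2 * 2 ^ (b + 1) := by positivity
  have hqe : 2 ^ (b + 1) = 2 * 2 ^ b := by rw [pow_succ, mul_comm]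
  have hpb : 0 < 2 ^ b := by positivity
  set M' : ℕ → ℤ := fun k => ∑ t ∈ Finset.range 2, M (k + 2 ^ (b + 1) * t) with hM'
  obtain ⟨c0, hc0, hκc0⟩ := ze_surj hq' (C6_root hq' (Dvd.intro _ rfl) M n0 hn0 κ0 hκ0 h0)
  have hd0 : 2 ^ (b + 1) ∣ c0 := (C6_sq κ0 c0 hκc0).1 hsq
  have hdiv : ∀ k : ℕ, 0 < k → k < 2 * 2 ^ b → (2 : ℤ) ∣ M' k := by
    have hc := const_of_vf_zero (p := 2) (a := b + 1) (fun k => M k - if k = c0 then n0 else 0)
      (fun j hj => by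
        rw [C6_vf_sub, h0 j hj, C6_vf_single hc0 n0 j, hκc0, ← ze_mul_pow, sub_self])
    intro k hk0 hk
    have hkc : k ≠ c0 := by
      rintro rfl
      have := Nat.le_of_dvd hk0 hd0
      omega
    have hkc' : k + 2 ^ (b + 1) * 1 ≠ c0 := by
      rintro rfl
      rw [mul_one] at hd0
      have h2 : 2 ^ (b + 1) ∣ k := (Nat.dvd_add_left (dvd_refl _)).1 hd0
      have := Nat.le_of_dvd hk0 h2
      omega
    have h4 := hc k (by rw [hqe]; exact hk) 1 (by norm_num)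
    change M (k + 2 ^ (b + 1) * 1) - (if k + 2 ^ (b + 1) * 1 = c0 then n0 else 0) =
      M k - (if k = c0 then n0 else 0) at h4
    rw [if_neg hkc, if_neg hkc', sub_zero, sub_zero] at h4
    have h2 : M' k = 2 * M k := by
      rw [hM']
      change ∑ t ∈ Finset.range 2, M (k + 2 ^ (b + 1) * t) = 2 * M k
      rw [Finset.sum_range_succ, Finset.sum_range_one, h4, Nat.mul_zero, Nat.add_zero]
      ring
    rw [h2]
    exact dvd_mul_right _ _
  obtain ⟨c, hc, hκc⟩ := ze_surj hq (C6_root hq (Dvd.intro _ rfl) M' n1 hn1 κ1 hκ1 h1)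
  rw [C6_sq κ1 c hκc]
  by_contra hnd
  have hconst := const_of_vf_zero (p := 2) (a := b) (fun k => M' k - if k = c then n1 else 0)
    (fun j hj => by
      rw [C6_vf_sub, h1 j hj, C6_vf_single hc n1 j, hκc, ← ze_mul_pow, sub_self])
  have hr0 : c % 2 ^ b ≠ 0 := fun h => hnd (Nat.dvd_of_mod_eq_zero h)
  have hr : c % 2 ^ b < 2 ^ b := Nat.mod_lt _ hpb
  have e0 := hconst (c % 2 ^ b) hr 1 (by norm_num)
  change M' (c % 2 ^ b + 2 ^ b * 1) - (if c % 2 ^ b + 2 ^ b * 1 = c then n1 else 0) =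
    M' (c % 2 ^ b) - (if c % 2 ^ b = c then n1 else 0) at e0
  have hdm := Nat.mod_add_div c (2 ^ b)
  have hdl : c / 2 ^ b < 2 := Nat.div_lt_of_lt_mul (by rw [mul_comm]; exact hc)
  have d1 := hdiv (c % 2 ^ b) (by omega) (by omega)
  have d2 := hdiv (c % 2 ^ b + 2 ^ b * 1) (by omega) (by omega)
  have hcase : ∀ x : ℕ, x < 2 → x = 0 ∨ x = 1 := by omega
  rcases hcase _ hdl with h2 | h2
  · have h3 : c % 2 ^ b = c := by rw [h2] at hdm; omega
    have h4 : c % 2 ^ b + 2 ^ b * 1 ≠ c := by omega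
    rw [if_pos h3, if_neg h4, sub_zero] at e0
    have h5 : n1 = M' (c % 2 ^ b) - M' (c % 2 ^ b + 2 ^ b * 1) := by rw [e0]; ring
    exact hn1 (h5 ▸ dvd_sub d1 d2)
  · have h3 : c % 2 ^ b + 2 ^ b * 1 = c := by rw [h2] at hdm; omega
    have h4 : c % 2 ^ b ≠ c := by omega
    rw [if_neg h4, sub_zero] at e0
    have h5 : n1 = M' (c % 2 ^ b + 2 ^ b * 1) - M' (c % 2 ^ b) := by
      rw [← e0, if_pos h3]; ring
    exact hn1 (h5 ▸ dvd_sub d2 d1)

/-- The level argument for `p = 2`. `q_s = 2^(a-s)`, `M^s` the push-forward of `m` to `ℤ/q_s` (`vf_push`), `vf q_s M^s i = vf q m (2^s i)`. For `s < a` `κ_s` is a `q_s`-th root of unity (replace `j` by `j + q_s`), `κ_s = ζ^(c_s)`,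
and `M^s - n_s δ_(c_s)` is constant on the fibres `{t, t + q_(s+1)}` (`const_of_vf_zero`). Hence `M^(s+1)` is even except at `c_s mod q_(s+1)`, where it is odd. If `s + 1 < a` the two points of the fibre of `c_(s+1)` (for `ℤ/q_(s+1) → ℤ/q_(s+2)`) have the
values `C` and `C + n_(s+1)`, exactly one of them is odd, so `c_s mod q_(s+1)` is one of `c_(s+1)`, `c_(s+1) + q_(s+2)`. Induction: `κ_s = ±1`, i.e. `c_s ≡ 0 mod q_(s+1)`, implies `c_(s+1) ∈ {0, q_(s+2)}`, i.e. `κ_(s+1) = ±1`. For `s = a` compare `j = 1` and `j = 3`. -/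
theorem kappa_two {a : ℕ} (m : ℕ → ℤ) (n : ℕ → ℤ) (κ : ℕ → ℂ) (hn : ∀ s ≤ a, ¬ (2 : ℤ) ∣ n s) (hκ : ∀ s ≤ a, κ s ≠ 0)
    (h : ∀ s ≤ a, ∀ j : ℕ, j.Coprime 2 → vf (2 ^ a) m (2 ^ s * j) = (n s : ℂ) * κ s ^ j) (h0 : κ 0 = 1) :
    ∀ s ≤ a, κ s = 1 ∨ κ s = -1 := by
  have : Fact (Nat.Prime 2) := ⟨Nat.prime_two⟩
  have hq : 0 < 2 ^ a := by positivity
  have hpush : ∀ s ≤ a, ∃ M : ℕ → ℤ, ∀ i, vf (2 ^ (a - s)) M i = vf (2 ^ a) m (2 ^ s * i) := by
    intro s
    induction s with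
    | zero =>
      intro _
      exact ⟨m, fun i => by rw [pow_zero, one_mul, Nat.sub_zero]⟩
    | succ s ih =>
      intro hs
      obtain ⟨M, hM⟩ := ih (by omega)
      refine ⟨fun k => ∑ t ∈ Finset.range 2, M (k + 2 ^ (a - (s + 1)) * t), fun i => ?_⟩
      rw [← vf_push (by norm_num : 0 < 2) (pow_pos (by norm_num) _) M i]
      have e1 : 2 * 2 ^ (a - (s + 1)) = 2 ^ (a - s) := by
        rw [← pow_succ']
        congr 1
        omega
      rw [e1, hM, pow_succ, mul_assoc]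
  have hlt : ∀ s, s < a → κ s ^ 2 = 1 := by
    intro s
    induction s with
    | zero => intro _; rw [h0, one_pow]
    | succ s ih =>
      intro hs
      have hs1 : κ s ^ 2 = 1 := ih (by omega)
      obtain ⟨M, hM⟩ := hpush s (by omega)
      obtain ⟨b, hb⟩ : ∃ b, a = s + 2 + b := ⟨a - (s + 2), by omega⟩
      refine C6_step (b := b) M (n s) (n (s + 1)) (κ s) (κ (s + 1)) (hn _ (by omega))
        (hn _ (by omega)) (hκ _ (by omega)) (hκ _ (by omega)) ?_ ?_ hs1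
      · intro j hj
        have e1 : 2 * 2 ^ (b + 1) = 2 ^ (a - s) := by
          rw [← pow_succ']
          congr 1
          omega
        rw [e1, hM, h s (by omega) j hj]
      · intro j hj
        have e1 : 2 * 2 ^ b = 2 ^ (b + 1) := by rw [← pow_succ']
        rw [e1, ← vf_push (by norm_num : 0 < 2) (pow_pos (by norm_num) _) M j]
        have e2 : 2 * 2 ^ (b + 1) = 2 ^ (a - s) := by
          rw [← pow_succ']
          congr 1
          omega
        rw [e2, hM, ← mul_assoc, ← pow_succ]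
        exact h (s + 1) (by omega) j hj
  have hsq : ∀ s ≤ a, κ s ^ 2 = 1 := by
    intro s hs
    rcases Nat.lt_or_ge s a with h2 | h2
    · exact hlt s h2
    · have hsa : s = a := le_antisymm hs h2
      subst hsa
      have e1 := h s le_rfl 1 (Nat.coprime_one_left 2)
      have e2 := h s le_rfl 3 (by norm_num)
      have e3 : vf (2 ^ s) m (2 ^ s * 1) = vf (2 ^ s) m (2 ^ s * 3) := by
        rw [← vf_mod hq m (2 ^ s * 1), ← vf_mod hq m (2 ^ s * 3), Nat.mul_mod_right,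
          Nat.mul_mod_right]
      rw [e1, e2] at e3
      have hnz : (n s : ℂ) ≠ 0 := by
        have : n s ≠ 0 := by
          intro h3
          exact hn s le_rfl (h3 ▸ dvd_zero _)
        exact_mod_cast this
      have e4 := mul_left_cancel₀ hnz e3
      have e5 : κ s * 1 = κ s * κ s ^ 2 := by
        rw [mul_one]
        rw [pow_one] at e4
        linear_combination e4
      exact (mul_left_cancel₀ (hκ s le_rfl) e5).symm
  intro s hs
  have := hsq s hs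
  rw [pow_two] at this
  exact mul_self_eq_one_iff.1 this

/-- If the transform is real then `m k = m (-k)` and `2 ∑ k m k` is divisible by `q` (any `q > 0`). -/
theorem two_sum_of_real {q : ℕ} (hq : 0 < q) (m : ℕ → ℤ) (h : ∀ i : ℕ, conj (vf q m i) = vf q m i) :
    (q : ℤ) ∣ 2 * ∑ k ∈ Finset.range q, (k : ℤ) * m k := by
  have hq0 : 0 < q := hq
  obtain ⟨n, rfl⟩ : ∃ n, q = n + 1 := ⟨q - 1, by omega⟩
  have hconj : ∀ i k : ℕ, k ≤ n →
      ze (n + 1) (i * (n + 1 - k)) = conj (ze (n + 1) (i * k)) := by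
    intro i k hk
    have h1 : ze (n + 1) (i * k) * ze (n + 1) (i * (n + 1 - k)) = 1 := by
      rw [← ze_add, ← Nat.mul_add]
      have h2 : k + (n + 1 - k) = n + 1 := by omega
      rw [h2, ze_mul_pow, ze_self hq0, one_pow]
    have h2 := ze_conj_mul (n + 1) (i * k)
    have h3 : ze (n + 1) (i * k) ≠ 0 := left_ne_zero_of_mul_eq_one h2
    exact mul_left_cancel₀ h3 (h1.trans h2.symm)
  have hsym : ∀ k < n, m (n - k) = m (k + 1) := by
    have h1 := vf_inj hq0 (fun k => if k = 0 then m 0 else m (n + 1 - k)) m (by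
      intro i _
      rw [← h i]
      unfold vf
      rw [map_sum, Finset.sum_range_succ', Finset.sum_range_succ']
      have h2 : ∑ k ∈ Finset.range n,
          (((if k + 1 = 0 then m 0 else m (n + 1 - (k + 1)) : ℤ)) : ℂ) * ze (n + 1) (i * (k + 1)) =
          ∑ k ∈ Finset.range n, conj ((m (k + 1) : ℂ) * ze (n + 1) (i * (k + 1))) := by
        rw [← Finset.sum_range_reflect]
        refine Finset.sum_congr rfl fun k hk => ?_
        have hk' := Finset.mem_range.mp hk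
        have e1 : n - 1 - k + 1 ≠ 0 := by omega
        have e2 : n + 1 - (n - 1 - k + 1) = k + 1 := by omega
        have e3 : n - 1 - k + 1 = n + 1 - (k + 1) := by omega
        rw [if_neg e1, e2, e3, hconj i (k + 1) (by omega), map_mul, map_intCast]
      rw [h2]
      congr 1
      beta_reduce
      rw [if_pos rfl, Nat.mul_zero, C6_ze_zero, mul_one, map_intCast])
    intro k hk
    have h2 := h1 (k + 1) (by omega)
    change (if k + 1 = 0 then m 0 else m (n + 1 - (k + 1))) = m (k + 1) at h2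
    have e1 : k + 1 ≠ 0 := by omega
    have e2 : n + 1 - (k + 1) = n - k := by omega
    rw [if_neg e1, e2] at h2
    exact h2
  have hS : ∑ k ∈ Finset.range (n + 1), (k : ℤ) * m k =
      ∑ k ∈ Finset.range n, ((k : ℤ) + 1) * m (k + 1) := by
    rw [Finset.sum_range_succ']
    push_cast
    ring
  have hS2 : ∑ k ∈ Finset.range (n + 1), (k : ℤ) * m k =
      ∑ k ∈ Finset.range n, ((n : ℤ) - k) * m (k + 1) := by
    rw [hS, ← Finset.sum_range_reflect]
    refine Finset.sum_congr rfl fun k hk => ?_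
    have hk' := Finset.mem_range.mp hk
    have e1 : n - 1 - k + 1 = n - k := by omega
    rw [e1, hsym k hk']
    have e2 : ((n - 1 - k : ℕ) : ℤ) + 1 = (n : ℤ) - k := by omega
    rw [e2]
  have h2S : 2 * ∑ k ∈ Finset.range (n + 1), (k : ℤ) * m k =
      ((n + 1 : ℕ) : ℤ) * ∑ k ∈ Finset.range n, m (k + 1) := by
    rw [two_mul]
    nth_rewrite 1 [hS]
    rw [hS2, ← Finset.sum_add_distrib, Finset.mul_sum]
    refine Finset.sum_congr rfl fun k _ => ?_
    push_cast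
    ring
  rw [h2S]
  exact dvd_mul_right _ _

/-- As `det_arith`, with `kappa_two` and `two_sum_of_real`: `κ_0 = ζ^c`, `m' k = m ((k + c) mod q)`, `κ'_s = κ_s ζ^(-c 2^s) = ±1`, so `vf q m'` is real and `2 ∑ k m' k ≡ 0`, `∑ k m' k ≡ ∑ k m k - c ∑ m k mod q`. -/
theorem det_arith_two {a : ℕ} (m : ℕ → ℕ) (n : ℕ → ℤ) (κ : ℕ → ℂ) (hn : ∀ s ≤ a, ¬ (2 : ℤ) ∣ n s)
    (hκ : κ 0 ^ (2 ^ a) = 1) (hκ' : ∀ s ≤ a, κ s ≠ 0)
    (h : ∀ s ≤ a, ∀ j : ℕ, j.Coprime 2 → vf (2 ^ a) (fun k => (m k : ℤ)) (2 ^ s * j) = (n s : ℂ) * κ s ^ j) :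
    ze (2 ^ a) (∑ k ∈ Finset.range (2 ^ a), k * m k) ^ 2 = κ 0 ^ (2 * ∑ k ∈ Finset.range (2 ^ a), m k) := by
  have : Fact (Nat.Prime 2) := ⟨Nat.prime_two⟩
  have hpp : Nat.Prime 2 := Nat.prime_two
  have hp0 : 0 < 2 := hpp.pos
  have hq : 0 < 2 ^ a := pow_pos hp0 a
  obtain ⟨c, hc, hκc⟩ := ze_surj hq hκ
  -- the shifted function
  have hvf : ∀ i : ℕ, vf (2 ^ a) (fun k => ((m ((k + c) % 2 ^ a) : ℕ) : ℤ)) i =
      ze (2 ^ a) (i * (2 ^ a - c)) * vf (2 ^ a) (fun k => (m k : ℤ)) i := by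
    intro i
    have h1 := C6_shift hq c (fun x => ((m x : ℤ) : ℂ) * ze (2 ^ a) (i * (x + (2 ^ a - c))))
    have h2 : vf (2 ^ a) (fun k => ((m ((k + c) % 2 ^ a) : ℕ) : ℤ)) i =
        ∑ k ∈ Finset.range (2 ^ a), (fun x => ((m x : ℤ) : ℂ) *
          ze (2 ^ a) (i * (x + (2 ^ a - c)))) ((k + c) % 2 ^ a) := by
      unfold vf
      refine Finset.sum_congr rfl fun k _ => ?_
      change ((m ((k + c) % 2 ^ a) : ℤ) : ℂ) * ze (2 ^ a) (i * k) =
        ((m ((k + c) % 2 ^ a) : ℤ) : ℂ) * ze (2 ^ a) (i * ((k + c) % 2 ^ a + (2 ^ a - c)))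
      congr 1
      refine C6_ze_congr hq ?_
      have h3 : (k + c) % 2 ^ a + (2 ^ a - c) ≡ k + c + (2 ^ a - c) [MOD 2 ^ a] :=
        (Nat.mod_modEq (k + c) (2 ^ a)).add_right _
      have h4 : k + c + (2 ^ a - c) = k + 2 ^ a := by omega
      rw [h4] at h3
      have h5 : k + 2 ^ a ≡ k [MOD 2 ^ a] := by
        unfold Nat.ModEq
        exact Nat.add_mod_right k (2 ^ a)
      exact ((h3.trans h5).mul_left i).symm
    rw [h2, h1]
    unfold vf
    rw [Finset.mul_sum]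
    refine Finset.sum_congr rfl fun k _ => ?_
    change ((m k : ℤ) : ℂ) * ze (2 ^ a) (i * (k + (2 ^ a - c))) =
      ze (2 ^ a) (i * (2 ^ a - c)) * (((m k : ℤ) : ℂ) * ze (2 ^ a) (i * k))
    rw [mul_add, ze_add]
    ring
  have hze0 : ∀ x, ze (2 ^ a) x ≠ 0 := fun x => left_ne_zero_of_mul_eq_one (ze_conj_mul (2 ^ a) x)
  have hk1 := kappa_two (a := a) (fun k => ((m ((k + c) % 2 ^ a) : ℕ) : ℤ)) n
    (fun s => κ s * ze (2 ^ a) (2 ^ s * (2 ^ a - c))) hn
    (fun s hs => mul_ne_zero (hκ' s hs) (hze0 _))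
    (by
      intro s hs j hj
      rw [hvf, h s hs j hj]
      have e1 : 2 ^ s * j * (2 ^ a - c) = j * (2 ^ s * (2 ^ a - c)) := by ring
      rw [e1, ze_mul_pow, mul_pow]
      ring)
    (by
      rw [pow_zero, one_mul, hκc, ← ze_add]
      have e1 : c + (2 ^ a - c) = 2 ^ a := by omega
      rw [e1, ze_self hq])
  have hval : ∀ s ≤ a, ∀ j : ℕ, j.Coprime 2 →
      ∃ N : ℤ, vf (2 ^ a) (fun k => ((m ((k + c) % 2 ^ a) : ℕ) : ℤ)) (2 ^ s * j) = (N : ℂ) := by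
    intro s hs j hj
    have e0 := hk1 s hs
    change κ s * ze (2 ^ a) (2 ^ s * (2 ^ a - c)) = 1 ∨
      κ s * ze (2 ^ a) (2 ^ s * (2 ^ a - c)) = -1 at e0
    have e1 : 2 ^ s * j * (2 ^ a - c) = j * (2 ^ s * (2 ^ a - c)) := by ring
    have e2 : ze (2 ^ a) (2 ^ s * (2 ^ a - c)) ^ j * ((n s : ℂ) * κ s ^ j)
        = (n s : ℂ) * (κ s * ze (2 ^ a) (2 ^ s * (2 ^ a - c))) ^ j := by rw [mul_pow]; ring
    rcases e0 with e0 | e0
    · refine ⟨n s, ?_⟩
      rw [hvf, h s hs j hj, e1, ze_mul_pow, e2, e0, one_pow, mul_one]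
    · refine ⟨n s * (-1) ^ j, ?_⟩
      rw [hvf, h s hs j hj, e1, ze_mul_pow, e2, e0]
      push_cast
      ring
  have hreal : ∀ i : ℕ, conj (vf (2 ^ a) (fun k => ((m ((k + c) % 2 ^ a) : ℕ) : ℤ)) i) =
      vf (2 ^ a) (fun k => ((m ((k + c) % 2 ^ a) : ℕ) : ℤ)) i := by
    intro i
    by_cases hi : i % 2 ^ a = 0
    · obtain ⟨N, hN⟩ := hval a le_rfl 1 (Nat.coprime_one_left 2)
      have e1 : vf (2 ^ a) (fun k => ((m ((k + c) % 2 ^ a) : ℕ) : ℤ)) i = (N : ℂ) := by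
        rw [← hN, ← vf_mod hq _ i,
          ← vf_mod hq _ (2 ^ a * 1), hi, Nat.mul_mod_right]
      rw [e1, map_intCast]
    · obtain ⟨s, j, hj, hsj⟩ := Nat.exists_eq_pow_mul_and_not_dvd hi 2 hpp.one_lt.ne'
      have hj0 : 0 < j := by
        rcases Nat.eq_zero_or_pos j with h1 | h1
        · rw [h1] at hj
          exact absurd (dvd_zero 2) hj
        · exact h1
      have hlt : i % 2 ^ a < 2 ^ a := Nat.mod_lt _ hq
      have hsa : s < a := by
        by_contra hcon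
        have h1 : 2 ^ a ≤ 2 ^ s := Nat.pow_le_pow_right hp0 (by omega)
        have h2 : 2 ^ s * 1 ≤ 2 ^ s * j := Nat.mul_le_mul_left _ hj0
        omega
      obtain ⟨N, hN⟩ := hval s hsa.le j ((Nat.Prime.coprime_iff_not_dvd hpp).mpr hj).symm
      have e1 : vf (2 ^ a) (fun k => ((m ((k + c) % 2 ^ a) : ℕ) : ℤ)) i = (N : ℂ) := by
        rw [← vf_mod hq _ i, hsj]
        exact hN
      rw [e1, map_intCast]
  have hsum := two_sum_of_real hq (fun k => ((m ((k + c) % 2 ^ a) : ℕ) : ℤ)) hreal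
  have h1 := C6_shift hq c (fun x => ((x : ℤ) - c) * (m x : ℤ))
  have h2 : ((2 ^ a : ℕ) : ℤ) ∣
      (∑ k ∈ Finset.range (2 ^ a), (k : ℤ) * ((m ((k + c) % 2 ^ a) : ℕ) : ℤ)) -
        ∑ k ∈ Finset.range (2 ^ a), (fun x : ℕ => ((x : ℤ) - c) * (m x : ℤ)) ((k + c) % 2 ^ a) := by
    rw [← Finset.sum_sub_distrib]
    refine Finset.dvd_sum fun k _ => ?_
    change ((2 ^ a : ℕ) : ℤ) ∣ (k : ℤ) * ((m ((k + c) % 2 ^ a) : ℕ) : ℤ) -
      ((((k + c) % 2 ^ a : ℕ) : ℤ) - c) * ((m ((k + c) % 2 ^ a) : ℕ) : ℤ)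
    rw [← sub_mul]
    refine Dvd.dvd.mul_right ?_ _
    refine ⟨(((k + c) / 2 ^ a : ℕ) : ℤ), ?_⟩
    have e1 := Nat.mod_add_div (k + c) (2 ^ a)
    have e2 : ((((k + c) % 2 ^ a : ℕ) : ℤ)) + ((2 ^ a : ℕ) : ℤ) * (((k + c) / 2 ^ a : ℕ) : ℤ) =
        (k : ℤ) + c := by exact_mod_cast e1
    linarith
  rw [h1] at h2
  have h3 : ((2 ^ a : ℕ) : ℤ) ∣
      2 * ∑ k ∈ Finset.range (2 ^ a), ((k : ℤ) - c) * (m k : ℤ) := by
    have h4 := dvd_sub hsum (Dvd.dvd.mul_left h2 2)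
    have h5 : 2 * (∑ k ∈ Finset.range (2 ^ a), (k : ℤ) * ((m ((k + c) % 2 ^ a) : ℕ) : ℤ)) -
        2 * ((∑ k ∈ Finset.range (2 ^ a), (k : ℤ) * ((m ((k + c) % 2 ^ a) : ℕ) : ℤ)) -
        ∑ k ∈ Finset.range (2 ^ a), ((k : ℤ) - c) * (m k : ℤ)) =
        2 * ∑ k ∈ Finset.range (2 ^ a), ((k : ℤ) - c) * (m k : ℤ) := by ring
    rw [← h5]
    exact h4
  have h6 : (2 * ∑ k ∈ Finset.range (2 ^ a), m k) * c ≡
      2 * ∑ k ∈ Finset.range (2 ^ a), k * m k [MOD 2 ^ a] := by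
    rw [Nat.modEq_iff_dvd]
    have h7 : ((2 * ∑ k ∈ Finset.range (2 ^ a), k * m k : ℕ) : ℤ) -
        (((2 * ∑ k ∈ Finset.range (2 ^ a), m k) * c : ℕ) : ℤ) =
        2 * ∑ k ∈ Finset.range (2 ^ a), ((k : ℤ) - c) * (m k : ℤ) := by
      push_cast
      rw [mul_assoc, ← mul_sub, Finset.sum_mul, ← Finset.sum_sub_distrib]
      congr 1
      refine Finset.sum_congr rfl fun k _ => ?_
      ring
    rw [h7]
    exact h3
  rw [← ze_mul_pow, ← C6_ze_congr hq h6, ze_mul_pow, ← hκc]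

end Pool.Agent.Lib.H90Q
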