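import Pool.Agent.Lib.H90Q.C5
import Pool.Agent.Lib.H90Q.C6

open scoped Classical ComplexConjugate BigOperators

noncomputable section

namespace Pool.Agent.Lib.H90Q

variable {G : Type*} [Group G] [Fintype G]

/-- As `ext_det` (C3), with `det_arith_two`. -/
theorem ext_det_two {L P : Subgroup G} (hL : ¬ 2 ∣ Nat.card L) (hn : ∀ z ∈ P, Nz z L) {θ Θ₀ δ : G → ℂ}
    (hθ : θ ∈ IrrS L) (h : Θ₀ ∈ IrrS (L ⊔ P)) (he : ∀ x ∈ L, Θ₀ x = θ x)
    (hδ : ∀ z ∈ L ⊔ P, ∀ q : ℕ, 0 < q → z ^ q = 1 → ∀ m : ℕ → ℕ,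
      (∀ i : ℕ, Θ₀ (z ^ i) = vf q (fun k => (m k : ℤ)) i) → δ z = ze q (∑ k ∈ Finset.range q, k * m k))
    {n : ℕ} (hn1 : θ 1 = n) {z : G} (hz : z ∈ P) {a : ℕ} (hq : orderOf z = 2 ^ a) {w : ℂ} {ε : ℤ} {ψ : G → ℂ}
    (hψ : GC 2 L {z} θ ψ) (hε : ε = 1 ∨ ε = -1) (hw : w ^ (2 ^ a) = 1)
    (hv : ∀ j : ℕ, j.Coprime 2 → ∀ c ∈ CM L {z}, Θ₀ (z ^ j * c) = (ε : ℂ) * w ^ j * ψ c) : δ z ^ 2 = w ^ (2 * n) := by
  have hp0 : 0 < 2 := two_pos
  have hqpos : 0 < 2 ^ a := pow_pos hp0 a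
  have hzq : z ^ (2 ^ a) = 1 := by rw [← hq]; exact pow_orderOf_eq_one z
  have hzT : z ∈ L ⊔ P := Subgroup.mem_sup_right hz
  have hDL : ∀ x ∈ CM L {z}, x ∈ L := fun x hx => (mem_CM_single.1 hx).1
  -- degrees
  have hdeg : ∀ (M : Subgroup G) (φ : G → ℂ), φ ∈ IrrS M → ∃ d : ℕ, φ 1 = d ∧ d ∣ Nat.card M := by
    intro M φ hφ
    obtain ⟨d, -, hd, hdd⟩ := irr_dvd hφ.2
    exact ⟨d, hd, hdd⟩
  have hdeg' : ∀ y : G, ∀ φ ∈ IrrS (CM L {y}), ∃ d : ℕ, φ 1 = d ∧ ¬ 2 ∣ d := by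
    intro y φ hφ
    obtain ⟨d, hd, hdd⟩ := hdeg _ φ hφ
    refine ⟨d, hd, fun hpd => hL ?_⟩
    have h1 : Nat.card (CM L {y}) ∣ Nat.card L :=
      Subgroup.card_dvd_of_le (fun x hx => (mem_CM_single.1 hx).1)
    exact (hpd.trans hdd).trans h1
  -- multiplicities
  obtain ⟨m, -, hm⟩ := eigen_mult (D := CM L {z}) (fun x hx => Subgroup.mem_sup_left (hDL x hx)) hzT hqpos hzq
    (fun d hd => (mem_CM_single.1 hd).2) (charS_of_irrS h)
  choose! deg hdg using fun (φ : G → ℂ) (hφ : φ ∈ IrrS (CM L {z})) => hdeg (CM L {z}) φ hφ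
  let M : ℕ → ℕ := fun k => if hk : k < 2 ^ a then ∑ φ ∈ irr (CM L {z}), m φ ⟨k, hk⟩ * deg φ else 0
  have hM : ∀ i : ℕ, Θ₀ (z ^ i) = vf (2 ^ a) (fun k => (M k : ℤ)) i := by
    intro i
    have h1 := hm i 1 (Subgroup.one_mem _)
    rw [mul_one] at h1
    rw [h1]
    unfold vf
    rw [← Fin.sum_univ_eq_sum_range (fun k => (((M k : ℤ) : ℂ)) * ze (2 ^ a) (i * k)) (2 ^ a)]
    have h2 : ∀ φ ∈ irr (CM L {z}), (∑ k : Fin (2 ^ a), (m φ k : ℂ) * Complex.exp (2 * Real.pi * Complex.I * (i * (k : ℕ)) / (2 ^ a : ℕ))) * φ 1 =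
        ∑ k : Fin (2 ^ a), ((m φ k : ℂ) * deg φ) * ze (2 ^ a) (i * k) := by
      intro φ hφ
      rw [(hdg φ (mem_irr.1 hφ)).1, Finset.sum_mul]
      refine Finset.sum_congr rfl fun k _ => ?_
      unfold ze
      push_cast
      ring
    rw [Finset.sum_congr rfl h2, Finset.sum_comm]
    refine Finset.sum_congr rfl fun k _ => ?_
    simp only [M]
    rw [dif_pos k.2]
    push_cast
    rw [Finset.sum_mul]
  have hdel := hδ z hzT (2 ^ a) hqpos hzq M hM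
  -- the values at the other levels
  have hlev : ∀ s : ℕ, s ≤ a → ∃ (d : ℤ) (κ : ℂ), ¬ (2 : ℤ) ∣ d ∧ κ ≠ 0 ∧ (∀ j : ℕ, j.Coprime 2 → Θ₀ (z ^ (2 ^ s * j)) = (d : ℂ) * κ ^ j) := by
    intro s hs
    have ho : orderOf (z ^ (2 ^ s)) = 2 ^ (a - s) := by
      rw [orderOf_pow' z (pow_ne_zero s hp0.ne'), hq, Nat.gcd_eq_right (Nat.pow_dvd_pow 2 hs), Nat.pow_div hs hp0]
    obtain ⟨φ, e, hee, v, hv1, hG, -, hvv⟩ := ext_val hL hn hθ h he (P.pow_mem hz (2 ^ s)) ho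
    obtain ⟨d, hd, hpd⟩ := hdeg' _ φ hG.2.1
    refine ⟨e * d, v, ?_, ?_, ?_⟩
    · intro hdv
      apply hpd
      rcases hee with rfl | rfl
      · rw [one_mul] at hdv; exact_mod_cast hdv
      · rw [neg_one_mul, Int.dvd_neg] at hdv; exact_mod_cast hdv
    · intro hv0
      rw [hv0, zero_pow (pow_ne_zero _ hp0.ne')] at hv1
      exact zero_ne_one hv1
    · intro j hj
      have h1 := hvv j hj 1 (Subgroup.one_mem _)
      rw [mul_one, hd] at h1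
      rw [pow_mul, h1]
      push_cast
      ring
  choose! dd κ hdd hκ hval using hlev
  obtain ⟨d0, hd0, hpd0⟩ := hdeg' z ψ hψ.2.1
  have hw0 : w ≠ 0 := by
    intro hw0
    rw [hw0, zero_pow hqpos.ne'] at hw
    exact zero_ne_one hw
  have hmain := det_arith_two (a := a) M (fun s => if s = 0 then ε * d0 else dd s) (fun s => if s = 0 then w else κ s) ?_ ?_ ?_ ?_
  · rw [hdel, hmain]
    simp only [if_true]
    congr 2
    have h1 := hM 0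
    rw [pow_zero, he 1 L.one_mem, hn1] at h1
    unfold vf at h1
    have h2 : ∀ k, ze (2 ^ a) (0 * k) = 1 := by intro k; simp [ze]
    simp only [h2, mul_one] at h1
    have h3 : (n : ℂ) = ((∑ k ∈ Finset.range (2 ^ a), M k : ℕ) : ℂ) := by
      rw [h1]; push_cast; rfl
    have h4 : n = ∑ k ∈ Finset.range (2 ^ a), M k := by exact_mod_cast h3
    exact h4.symm
  · intro s hs
    split_ifs with h0
    · intro hdv
      apply hpd0
      rcases hε with rfl | rfl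
      · rw [one_mul] at hdv; exact_mod_cast hdv
      · rw [neg_one_mul, Int.dvd_neg] at hdv; exact_mod_cast hdv
    · exact hdd s hs
  · simp only [if_true]
    exact hw
  · intro s hs
    split_ifs with h0
    · exact hw0
    · exact hκ s hs
  · intro s hs j hj
    rw [← hM]
    split_ifs with h0
    · subst h0
      have h1 := hv j hj 1 (Subgroup.one_mem _)
      rw [mul_one, hd0] at h1
      rw [pow_zero, one_mul, h1]
      push_cast
      ring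
    · exact hval s hs j hj

private theorem c7_ord {z : G} (h : ∃ a : ℕ, z ^ (2 ^ a) = 1) : ∃ a : ℕ, orderOf z = 2 ^ a := by
  obtain ⟨a, ha⟩ := h
  obtain ⟨b, -, hb⟩ := (Nat.dvd_prime_pow Nat.prime_two).mp (orderOf_dvd_of_pow_eq_one ha)
  exact ⟨b, hb⟩

private theorem c7_sq {u : ℂ} (h : u ^ 2 = 1) : u = 1 ∨ u = -1 := by
  have h1 : (u - 1) * (u + 1) = 0 := by
    have h2 : (u - 1) * (u + 1) = u ^ 2 - 1 := by ring
    rw [h2, h, sub_self]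
  rcases mul_eq_zero.1 h1 with h2 | h2
  · exact Or.inl (sub_eq_zero.1 h2)
  · exact Or.inr (eq_neg_of_add_eq_zero_left h2)

/-- `det_char`, `lin_root` with `n = θ 1` (odd by A13): `l(z)^n δ(z) = 1`; `Θ = l * Θ₀`; `(l(z) w)^(2 n) = 1` and `(l(z) w)` has 2-power order, so `(l(z) w)^2 = 1` and `Θ (z c) = ±ε ψ c`. -/
theorem can_of_ext_two {L P : Subgroup G} (hL : ¬ 2 ∣ Nat.card L) (hn : ∀ z ∈ P, Nz z L)
    (hp : ∀ z ∈ P, ∃ a : ℕ, z ^ (2 ^ a) = 1) {θ Θ₀ : G → ℂ} (hθ : θ ∈ IrrS L) (h : Θ₀ ∈ IrrS (L ⊔ P)) (he : ∀ x ∈ L, Θ₀ x = θ x) :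
    ∃ Θ, Can 2 L P θ Θ := by
  obtain ⟨n, hn0, hn1, hnd⟩ := irr_dvd hθ.2
  have hn1' : θ 1 = (n : ℂ) := hn1
  have hcop : n.Coprime 2 := by
    refine ((Nat.Prime.coprime_iff_not_dvd Nat.prime_two).2 fun hd => hL ?_).symm
    exact hd.trans hnd
  obtain ⟨δ, hδ, hδ'⟩ := det_char (charS_of_irrS h)
  obtain ⟨l, hl, hlz⟩ := lin_root hL hn hp hδ hcop
  refine ⟨l * Θ₀, ⟨lin_mul_irr hl h, fun x hx => ?_, fun z hz => ?_⟩⟩
  · rw [Pi.mul_apply, hl.2.1 x hx, one_mul, he x hx]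
  · obtain ⟨a, ha⟩ := c7_ord (hp z hz)
    obtain ⟨ψ, ε, hε, w, hw, hGC, hmod, hval⟩ := ext_val hL hn hθ h he hz ha
    have hdet : δ z ^ 2 = w ^ (2 * n) := ext_det_two hL hn hθ h he hδ' hn1' hz ha hGC hε hw hval
    have hzT : z ∈ L ⊔ P := Subgroup.mem_sup_right hz
    have h1 : ((l z * w) ^ 2) ^ n = 1 := by
      have h0 : (l z ^ n * δ z) ^ 2 = 1 := by rw [hlz z hz, one_pow]
      rw [mul_pow, hdet] at h0
      rw [← pow_mul, mul_pow, ← h0, ← pow_mul, mul_comm n 2]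
    have h2 : ((l z * w) ^ 2) ^ (2 ^ a) = 1 := by
      have h0 := lin_pow hl hzT
      rw [ha] at h0
      rw [← pow_mul, mul_comm 2, pow_mul, mul_pow, h0, hw, one_mul, one_pow]
    have h3 : (l z * w) ^ 2 = 1 := by
      have h4 : ((l z * w) ^ 2) ^ Nat.gcd n (2 ^ a) = 1 := pow_gcd_eq_one.2 ⟨h1, h2⟩
      have h5 : Nat.gcd n (2 ^ a) = 1 := Nat.Coprime.pow_right a hcop
      rw [h5, pow_one] at h4
      exact h4
    obtain ⟨s, hs, hs1⟩ : ∃ s : ℤ, (s = 1 ∨ s = -1) ∧ l z * w = (s : ℂ) := by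
      rcases c7_sq h3 with h4 | h4
      · exact ⟨1, Or.inl rfl, by rw [h4, Int.cast_one]⟩
      · exact ⟨-1, Or.inr rfl, by rw [h4, Int.cast_neg, Int.cast_one]⟩
    refine ⟨ψ, s * ε, ?_, hGC, ?_, fun c hc => ?_⟩
    · rcases hs with rfl | rfl
      · rw [one_mul]
        exact hε
      · rcases hε with rfl | rfl
        · exact Or.inr (by norm_num)
        · exact Or.inl (by norm_num)
    · refine hmod.trans ?_
      rcases hs with rfl | rfl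
      · rw [one_mul]
      · rcases hε with rfl | rfl
        · decide
        · decide
    · have hcL : c ∈ L := (mem_CM_single.1 hc).1
      have h6 : l (z * c) = l z := by
        rw [hl.2.2 z hzT c (Subgroup.mem_sup_left hcL), hl.2.1 c hcL, mul_one]
      have h7 := hval 1 (Nat.coprime_one_left 2) c hc
      rw [pow_one z, pow_one w] at h7
      rw [Pi.mul_apply, h6, h7]
      calc l z * ((ε : ℂ) * w * ψ c) = (l z * w) * ((ε : ℂ) * ψ c) := by ring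
        _ = ((s * ε : ℤ) : ℂ) * ψ c := by rw [hs1]; push_cast; ring

/-- The values of a `Can` extension on `P` for `p = 2`: odd integers, the same at `z` and `z ^ j`, `j` odd. Proof: `Can.val` at `z`, `c = 1`: `Θ z = ε ψ 1`, `ψ 1` divides the order of a subgroup of `L` (`irr_dvd`, A13). `ext_val` for `Θ`: `Θ (z^j) = ε' w^j ψ 1`
with `w` a root of unity; `j = 1` shows `w` is real, `w = ±1`, so `w^j = w`. -/
theorem can_two_values {L P : Subgroup G} (hL : ¬ 2 ∣ Nat.card L) (hn : ∀ z ∈ P, Nz z L)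
    (hp : ∀ z ∈ P, ∃ a : ℕ, z ^ (2 ^ a) = 1) {θ Θ : G → ℂ} (hθ : θ ∈ IrrS L) (h : Can 2 L P θ Θ) {z : G} (hz : z ∈ P) :
    (∃ k : ℤ, Odd k ∧ Θ z = k) ∧ ∀ j : ℕ, j.Coprime 2 → Θ (z ^ j) = Θ z := by
  have hodd : ∀ φ ∈ IrrS (CM L {z}), ∃ d : ℕ, φ 1 = d ∧ ¬ 2 ∣ d ∧ d ≠ 0 := by
    intro φ hφ
    obtain ⟨d, hd0, hd, hdd⟩ := irr_dvd hφ.2
    refine ⟨d, hd, fun h2 => hL ?_, hd0.ne'⟩
    exact (h2.trans hdd).trans (Subgroup.card_dvd_of_le (fun x hx => (mem_CM_single.1 hx).1))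
  obtain ⟨ψ, ε, hε, hGC, hmod, hval⟩ := h.val z hz
  obtain ⟨d, hd, hd2, hd0⟩ := hodd ψ hGC.2.1
  have hΘz : Θ z = ((ε * d : ℤ) : ℂ) := by
    have h1 := hval 1 (Subgroup.one_mem _)
    rw [mul_one, hd] at h1
    rw [h1]
    push_cast
    ring
  obtain ⟨a, ha⟩ := c7_ord (hp z hz)
  obtain ⟨ψ', ε', hε', w, hw, hGC', -, hval'⟩ := ext_val hL hn hθ h.irr h.ext hz ha
  obtain ⟨d', hd', -, hd0'⟩ := hodd ψ' hGC'.2.1
  have hv : ∀ j : ℕ, j.Coprime 2 → Θ (z ^ j) = (ε' : ℂ) * w ^ j * d' := by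
    intro j hj
    have h1 := hval' j hj 1 (Subgroup.one_mem _)
    rw [mul_one, hd'] at h1
    exact h1
  have hv1 := hv 1 (Nat.coprime_one_left 2)
  rw [pow_one, pow_one, hΘz] at hv1
  have hε0 : (ε' : ℂ) * d' ≠ 0 := by
    refine mul_ne_zero ?_ (by exact_mod_cast hd0')
    rcases hε' with rfl | rfl <;> norm_num
  have hwr : conj w = w := by
    have h1 : w = ((ε * d : ℤ) : ℂ) / ((ε' : ℂ) * d') := by
      rw [eq_div_iff hε0, hv1]
      ring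
    rw [h1]
    simp
  have hw2 : w ^ 2 = 1 := by
    have h1 : ‖w‖ = 1 := Complex.norm_eq_one_of_pow_eq_one hw (pow_ne_zero a two_ne_zero)
    have h2 := Complex.mul_conj w
    rw [hwr, Complex.normSq_eq_norm_sq, h1] at h2
    rw [sq, h2]
    norm_num
  refine ⟨⟨ε * d, ?_, hΘz⟩, fun j hj => ?_⟩
  · have h1 : Odd (d : ℤ) := by
      have h2 : Odd d := Nat.not_even_iff_odd.1 fun h3 => hd2 h3.two_dvd
      exact_mod_cast h2
    rcases hε with rfl | rfl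
    · rw [one_mul]
      exact h1
    · rw [neg_one_mul]
      exact h1.neg
  · rw [hv j hj, hΘz, hv1]
    obtain ⟨t, ht⟩ : Odd j := Nat.coprime_two_right.1 hj
    rw [ht, pow_succ, pow_mul, hw2, one_pow, one_mul]

end Pool.Agent.Lib.H90Q
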