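import Mathlib

/-!
Definitions for MP_a8e959_al (p-solvable case). All characters of subgroups `H` of a fixed finite group `G` are functions
`G → ℂ` that vanish off `H`.
-/

open scoped Classical ComplexConjugate BigOperators

noncomputable section

namespace Pool.Agent.Lib.H90Q

/-- `χ` is the character of an irreducible complex representation of the group `X`. -/
def IsIrr {X : Type*} [Group X] (χ : X → ℂ) : Prop :=
  ∃ (n : ℕ) (ρ : Representation ℂ X (Fin n → ℂ)), ρ.IsIrreducible ∧ ρ.character = χ

/-- `χ` is the character of a complex representation of the group `X` (the zero character is allowed). -/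
def IsChar {X : Type*} [Group X] (χ : X → ℂ) : Prop :=
  ∃ (n : ℕ) (ρ : Representation ℂ X (Fin n → ℂ)), ρ.character = χ

variable {G : Type*} [Group G]

/-- Irreducible characters of the subgroup `H`, extended by zero to `G`. -/
def IrrS (H : Subgroup G) : Set (G → ℂ) :=
  {φ | (∀ g, g ∉ H → φ g = 0) ∧ IsIrr (fun h : H => φ h)}

/-- Characters of the subgroup `H`, extended by zero to `G`. -/
def CharS (H : Subgroup G) : Set (G → ℂ) :=
  {φ | (∀ g, g ∉ H → φ g = 0) ∧ IsChar (fun h : H => φ h)}

/-- Restriction to `K`, extended by zero. -/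
def rs (K : Subgroup G) (f : G → ℂ) : G → ℂ := fun g => if g ∈ K then f g else 0

/-- The conjugate function: if `f` lives on `H` then `cj a f` lives on `a H a⁻¹`. -/
def cj (a : G) (f : G → ℂ) : G → ℂ := fun g => f (a⁻¹ * g * a)

/-- Class function on `H`: zero off `H` and invariant under conjugation by `H`. -/
def IsCF (H : Subgroup G) (f : G → ℂ) : Prop :=
  (∀ g, g ∉ H → f g = 0) ∧ ∀ a ∈ H, ∀ g, f (a * g * a⁻¹) = f g

variable [Fintype G]

/-- The inner product of class functions of `H`; only the values on `H` count. -/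
def ip (H : Subgroup G) (f g : G → ℂ) : ℂ :=
  (Nat.card H : ℂ)⁻¹ * ∑ x : G, if x ∈ H then f x * conj (g x) else 0

/-- The finite set of irreducible characters of `H`. -/
def irr (H : Subgroup G) : Finset (G → ℂ) :=
  if h : (IrrS H).Finite then h.toFinset else ∅

/-- Multiplicity as a natural number (for a character `f` and an irreducible `φ` of `H`). -/
def mu (H : Subgroup G) (f φ : G → ℂ) : ℕ := ⌊(ip H f φ).re⌋₊

/-- Induction of a function `f` that lives on `H` (zero off `H`) to `K`. -/
def ind (H K : Subgroup G) (f : G → ℂ) : G → ℂ := fun g =>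
  if g ∈ K then (Nat.card H : ℂ)⁻¹ * ∑ a : G, (if a ∈ K then f (a * g * a⁻¹) else 0) else 0

/-- Linear characters of `H` (zero off `H`) that are trivial on `N`. -/
def LinS (H N : Subgroup G) : Set (G → ℂ) :=
  {l | (∀ g, g ∉ H → l g = 0) ∧ (∀ g ∈ N, l g = 1) ∧ ∀ a ∈ H, ∀ b ∈ H, l (a * b) = l a * l b}

/-- `θ` (irreducible on `K`) is a constituent of the restriction of `χ`. -/
def Over (K : Subgroup G) (χ θ : G → ℂ) : Prop := ip K χ θ ≠ 0

/-- Irreducible characters of `T` over `θ ∈ Irr K`. -/
def irrOver (T K : Subgroup G) (θ : G → ℂ) : Finset (G → ℂ) := (irr T).filter (fun χ => Over K χ θ)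

/-- `f` is invariant under conjugation by `a`. -/
def Inv (a : G) (f : G → ℂ) : Prop := cj a f = f

/-- `a` normalises `H`. -/
def Nz (a : G) (H : Subgroup G) : Prop := ∀ g, g ∈ H ↔ a * g * a⁻¹ ∈ H

/-- The centraliser in `M` of the subset `A`. -/
def CM (M : Subgroup G) (A : Set G) : Subgroup G := M ⊓ Subgroup.centralizer A

/-- The Glauberman relation: `ψ ∈ Irr (C_M(A))` has multiplicity prime to `p` in `χ ∈ Irr M`. -/
def GC (p : ℕ) (M : Subgroup G) (A : Set G) (χ ψ : G → ℂ) : Prop :=
  χ ∈ IrrS M ∧ ψ ∈ IrrS (CM M A) ∧ ¬ p ∣ mu (CM M A) χ ψ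

end Pool.Agent.Lib.H90Q
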