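import Pool.Agent.Lib.H90Q.A19
import Pool.Agent.Lib.H90Q.B0

open scoped Classical ComplexConjugate BigOperators

noncomputable section

namespace Pool.Agent.Lib.H90Q

variable {G : Type*} [Group G] [Fintype G]

/-- Double counting of the pairs `(χ, φ)`, `χ ∈ Irr(T|θ)`, `φ ∈ Irr(M|θ)`, `χ` over `φ`, with weight `|T_φ : M|`. `θ ∈ Irr N` is `T`-invariant. For fixed `χ` the `φ` form one `T`-orbit (Clifford; all its members lie over `θ`; the orbit is
not empty and its members are over `θ` because `χ` is: `over_split`), of length `|T : T_φ|`. -/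
theorem count_two_step {N M T : Subgroup G} (hNM : N ≤ M) (hMT : M ≤ T) (hn : ∀ t ∈ T, Nz t M) (hnN : ∀ t ∈ T, Nz t N) {θ : G → ℂ} (hθ : θ ∈ IrrS N)
    (hinv : ∀ t ∈ T, cj t θ = θ) :
    ∑ φ ∈ irrOver M N θ, (irrOver T M φ).card * M.relIndex (stS T φ) = (irrOver T N θ).card * M.relIndex T := by
  have h1 : ∀ φ ∈ irrOver M N θ, (irrOver T M φ).card * M.relIndex (stS T φ)
      = ∑ χ ∈ irrOver T N θ, if Over M χ φ then M.relIndex (stS T φ) else 0 := by
    intro φ hφ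
    obtain ⟨hφ1, hφ2⟩ := mem_irrOver.1 hφ
    rw [← Finset.sum_filter, Finset.sum_const, smul_eq_mul]
    congr 2
    ext χ
    rw [Finset.mem_filter, mem_irrOver, mem_irrOver]
    constructor
    · rintro ⟨hχ, ho⟩
      exact ⟨⟨hχ, over_trans hNM hMT hχ hφ1 hθ ho hφ2⟩, ho⟩
    · rintro ⟨⟨hχ, _⟩, ho⟩
      exact ⟨hχ, ho⟩
  rw [Finset.sum_congr rfl h1, Finset.sum_comm]
  have h2 : ∀ χ ∈ irrOver T N θ, (∑ φ ∈ irrOver M N θ, if Over M χ φ then M.relIndex (stS T φ) else 0) = M.relIndex T := by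
    intro χ hχ
    obtain ⟨hχ1, hχ2⟩ := mem_irrOver.1 hχ
    obtain ⟨φ₀, hφ₀, ho, ho'⟩ := over_split hNM hMT hχ1 hθ hχ2
    rw [← Finset.sum_filter]
    have h3 : (irrOver M N θ).filter (fun φ => Over M χ φ) = orb T φ₀ := by
      ext φ
      rw [Finset.mem_filter, mem_irrOver, mem_orb]
      constructor
      · rintro ⟨⟨hφ, _⟩, h⟩
        obtain ⟨t, ht, e⟩ := clifford hMT hn hχ1 hφ₀ hφ ho h
        exact ⟨t, ht, e.symm⟩
      · rintro ⟨t, ht, rfl⟩
        refine ⟨⟨cj_irrS (hn t ht) hφ₀, ?_⟩, ?_⟩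
        · unfold Over
          have h4 := ip_cj (hnN t ht) φ₀ θ
          rw [hinv t ht] at h4
          rw [h4]
          exact ho'
        · unfold Over
          rw [clifford_mult hn hχ1 φ₀ ht]
          exact ho
    rw [h3]
    have hcf : IsCF M φ₀ := cf_charS (charS_of_irrS hφ₀)
    have h5 := A16_orb_index hMT hcf
    have h6 : ∀ φ ∈ orb T φ₀, M.relIndex (stS T φ) = M.relIndex (stS T φ₀) := by
      intro φ hφ
      have hφ1 := orb_irrS hn hφ₀ hφ
      have h7 := A16_orb_index hMT (cf_charS (charS_of_irrS hφ1))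
      obtain ⟨t, ht, rfl⟩ := mem_orb.1 hφ
      rw [orb_cj φ₀ ht, ← h5] at h7
      exact Nat.eq_of_mul_eq_mul_left (Finset.card_pos.2 ⟨φ₀, self_mem_orb T φ₀⟩) h7
    rw [Finset.sum_congr rfl h6, Finset.sum_const, smul_eq_mul]
    exact h5
  rw [Finset.sum_congr rfl h2, Finset.sum_const, smul_eq_mul]

/-- For `T = M⟨g⟩` (`cyclic_count`). -/
theorem count_cyclic_step {N M T : Subgroup G} (hNM : N ≤ M) {g : G} (hg : Nz g M) (hT : T = M ⊔ Subgroup.zpowers g) (hnN : ∀ t ∈ T, Nz t N)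
    {θ : G → ℂ} (hθ : θ ∈ IrrS N) (hinv : ∀ t ∈ T, cj t θ = θ) :
    ∑ φ ∈ irrOver M N θ, (M.relIndex (stS T φ)) ^ 2 = (irrOver T N θ).card * M.relIndex T := by
  have hMT : M ≤ T := hT ▸ le_sup_left
  have hn : ∀ t ∈ T, Nz t M := by
    intro t ht
    exact nz_sup (nz_zpowers hg) t (hT ▸ ht)
  rw [← count_two_step hNM hMT hn hnN hθ hinv]
  refine Finset.sum_congr rfl fun φ hφ => ?_
  rw [cyclic_count hg hT (mem_irrOver.1 hφ).1, pow_two]

/-- `T = M ⊔ S`, `S` normalises `M`, `φ ∈ Irr M`: `T_φ = M S_φ`, so `|T_φ : M| = |S_φ : M ⊓ S|`. -/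
theorem relIndex_st {M S T : Subgroup G} (hS : ∀ s ∈ S, Nz s M) (hT : T = M ⊔ S) {φ : G → ℂ} (hφ : φ ∈ IrrS M) :
    M.relIndex (stS T φ) = (M ⊓ S).relIndex (stS S φ) := by
  have hcf : IsCF M φ := cf_charS (charS_of_irrS hφ)
  have hMT : M ≤ T := hT ▸ le_sup_left
  have hST : S ≤ T := hT ▸ le_sup_right
  have hle : stS S φ ≤ stS T φ := by
    intro s hs
    obtain ⟨h1, h2⟩ := mem_stS.1 hs
    exact mem_stS.2 ⟨hST h1, h2⟩
  have hM : M ≤ stS T φ := A16_le_stS hMT hcf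
  have hnorm : (M.subgroupOf (stS T φ)).Normal := by
    constructor
    intro m hm g
    rw [Subgroup.mem_subgroupOf] at hm ⊢
    have h1 : (g : G) ∈ M ⊔ S := by
      rw [← hT]
      exact (mem_stS.1 g.2).1
    have h2 := (nz_sup hS (g : G) h1 (m : G)).1 hm
    simpa using h2
  let f : stS S φ →* (stS T φ) ⧸ (M.subgroupOf (stS T φ)) :=
    (QuotientGroup.mk' _).comp (Subgroup.inclusion hle)
  have hker : f.ker = (M ⊓ S).subgroupOf (stS S φ) := by
    ext x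
    rw [MonoidHom.mem_ker, Subgroup.mem_subgroupOf]
    have h1 : f x = ((Subgroup.inclusion hle x : stS T φ) : (stS T φ) ⧸ (M.subgroupOf (stS T φ))) := rfl
    rw [h1, QuotientGroup.eq_one_iff, Subgroup.mem_subgroupOf, Subgroup.mem_inf]
    exact ⟨fun h => ⟨h, (mem_stS.1 x.2).1⟩, fun h => h.1⟩
  have hsurj : Function.Surjective f := by
    intro y
    obtain ⟨k, rfl⟩ := QuotientGroup.mk_surjective y
    have hk : (k : G) ∈ M ⊔ S := by
      rw [← hT]
      exact (mem_stS.1 k.2).1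
    obtain ⟨s, hs, m, hm, e⟩ := (mem_sup_nz' hS).1 hk
    have hsT : s ∈ stS T φ := by
      have h1 : s = (k : G) * m⁻¹ := by
        rw [e, mul_inv_cancel_right]
      rw [h1]
      exact (stS T φ).mul_mem k.2 ((stS T φ).inv_mem (hM hm))
    have hsS : s ∈ stS S φ := mem_stS.2 ⟨hs, (mem_stS.1 hsT).2⟩
    refine ⟨⟨s, hsS⟩, ?_⟩
    show (((⟨s, hsT⟩ : stS T φ)) : (stS T φ) ⧸ (M.subgroupOf (stS T φ))) = k
    rw [QuotientGroup.eq, Subgroup.mem_subgroupOf]
    show s⁻¹ * (k : G) ∈ M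
    rw [e, inv_mul_cancel_left]
    exact hm
  have h1 : f.ker.index = Nat.card f.range := Subgroup.index_ker f
  rw [hker, MonoidHom.range_eq_top.2 hsurj] at h1
  show (M.subgroupOf (stS T φ)).index = ((M ⊓ S).subgroupOf (stS S φ)).index
  rw [h1, Subgroup.index_eq_card]
  exact (Nat.card_congr (Equiv.Set.univ _)).symm

end Pool.Agent.Lib.H90Q
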