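import Mathlib

/-!
A finite abelian group acting fixed point freely on a finite abelian group is cyclic.
-/

namespace Pool.Agent.Lib.H90Q

/-- Proof. Let `W` be a minimal non-trivial `Q`-invariant subgroup of `A` (finite). Let `R` be the subring of `End (Additive W)` generated by the image of `Q` (`Subring.closure` or `Algebra.adjoin ℤ`); `R` is commutative because `Q` is. For `r ∈ R`, `r ≠ 0`, the kernel of `r` is
`Q`-invariant and not `W`, so it is trivial; hence `R` has no zero divisors, and it is a commutative domain. `Q → R` is injective (an element acting trivially on `W ≠ 1` is `1`), so `Q` is cyclic (`isCyclic_of_subgroup_isDomain`). -/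
theorem fpf_cyclic {Q A : Type*} [CommGroup Q] [Finite Q] [CommGroup A] [Finite A] [Nontrivial A] (ρ : Q →* MulAut A)
    (h : ∀ q a, ρ q a = a → a ≠ 1 → q = 1) : IsCyclic Q := by
  classical
  -- the ring hom
  let f0 : Q →* AddMonoid.End (Additive A) :=
    { toFun := fun q => MonoidHom.toAdditive (ρ q : A ≃* A).toMonoidHom
      map_one' := by
        refine AddMonoidHom.ext fun a => ?_
        change Additive.ofMul ((ρ 1) a.toMul) = a
        rw [map_one]
        rfl
      map_mul' := by
        intro x y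
        refine AddMonoidHom.ext fun a => ?_
        change Additive.ofMul ((ρ (x * y)) a.toMul) = Additive.ofMul ((ρ x) ((ρ y) a.toMul))
        rw [map_mul]
        rfl }
  let F : MonoidAlgebra ℤ Q →ₐ[ℤ] AddMonoid.End (Additive A) := MonoidAlgebra.lift ℤ _ Q f0
  let inst : Module (MonoidAlgebra ℤ Q) (Additive A) := Module.compHom (Additive A) F.toRingHom
  have hsm : ∀ (q : Q) (a : Additive A), (MonoidAlgebra.of ℤ Q q) • a = Additive.ofMul (ρ q a.toMul) := by
    intro q a
    change F (MonoidAlgebra.of ℤ Q q) a = _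
    have h1 : F (MonoidAlgebra.of ℤ Q q) = f0 q := by
      simp [F]
    rw [h1]
    rfl
  have hfin : Module.Finite ℤ (MonoidAlgebra ℤ Q) := inferInstance
  have hN : IsNoetherianRing (MonoidAlgebra ℤ Q) := by
    have h1 : IsNoetherian ℤ (MonoidAlgebra ℤ Q) := isNoetherian_of_isNoetherianRing_of_finite ℤ _
    exact isNoetherian_of_tower ℤ h1
  have hnt : Nontrivial (Additive A) := inferInstance
  obtain ⟨P, hP⟩ := associatedPrimes.nonempty (MonoidAlgebra ℤ Q) (Additive A)
  have hP' : IsAssociatedPrime P (Additive A) := hP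
  rw [isAssociatedPrime_iff] at hP'
  obtain ⟨hPp, x, hx⟩ := hP'
  have hx0 : x ≠ 0 := by
    rintro rfl
    apply hPp.ne_top
    rw [hx]
    simp
  let g : Q →* (MonoidAlgebra ℤ Q ⧸ P) := ((Ideal.Quotient.mk P : MonoidAlgebra ℤ Q →+* _) : MonoidAlgebra ℤ Q →* _).comp (MonoidAlgebra.of ℤ Q)
  have hg : Function.Injective g := by
    intro q1 q2 h12
    have h3 : (Ideal.Quotient.mk P) (MonoidAlgebra.of ℤ Q q1) = (Ideal.Quotient.mk P) (MonoidAlgebra.of ℤ Q q2) := h12
    rw [Ideal.Quotient.eq, hx, Submodule.mem_colon_singleton, Submodule.mem_bot, sub_smul, sub_eq_zero, hsm, hsm] at h3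
    have h4 : ρ q1 x.toMul = ρ q2 x.toMul := h3
    have h5 : ρ (q2⁻¹ * q1) x.toMul = x.toMul := by
      rw [map_mul, map_inv, MulAut.mul_apply, h4, MulAut.inv_apply_self]
    have h6 := h _ _ h5 (by
      intro h7
      exact hx0 h7)
    rw [inv_mul_eq_one] at h6
    exact h6.symm
  have hdom : IsDomain (MonoidAlgebra ℤ Q ⧸ P) := Ideal.Quotient.isDomain P
  exact isCyclic_of_injective_ringHom g hg

end Pool.Agent.Lib.H90Q
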