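import Pool.Agent.Lib.H90Q.B0
import Pool.Agent.Lib.H90Q.E2

open scoped Classical ComplexConjugate BigOperators

noncomputable section

namespace Pool.Agent.Lib.H90Q

variable {G : Type*} [Group G] [Fintype G]

/-- Coprime action of one element `g` of order prime to `p` on an abelian `p`-group `A`: every element is a product of a commutator and a centralised element:
with `n = orderOf g`, `∏_(i < n) g^i a g^(-i)` is centralised by `g` and congruent to `a^n` modulo the subgroup `{b⁻¹ g b g⁻¹}`; `n` is prime to the order of `a`. -/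
theorem coprime_split {p : ℕ} [Fact p.Prime] {A : Subgroup G} (hab : ∀ b ∈ A, ∀ c ∈ A, b * c = c * b) (hp : ∀ z ∈ A, ∃ a : ℕ, z ^ (p ^ a) = 1)
    {g : G} (hg : Nz g A) (hgp : ¬ p ∣ orderOf g) {x : G} (hx : x ∈ A) :
    ∃ b ∈ A, ∃ c ∈ A, g * c = c * g ∧ x = b⁻¹ * (g * b * g⁻¹) * c := by
  letI : CommGroup A := { (inferInstance : Group A) with mul_comm := fun a b => Subtype.ext (hab a a.2 b b.2) }
  let φ : A →* A :=
    { toFun := fun b => ⟨g * b * g⁻¹, (hg b).1 b.2⟩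
      map_one' := Subtype.ext (by simp)
      map_mul' := fun a b => Subtype.ext (by simp [mul_assoc]) }
  have hφ : ∀ b : A, ((φ b : A) : G) = g * b * g⁻¹ := fun b => rfl
  let ψ : A →* A :=
    { toFun := fun b => b⁻¹ * φ b
      map_one' := by simp
      map_mul' := fun a b => by
        rw [map_mul, mul_inv]
        exact mul_mul_mul_comm _ _ _ _ }
  have hψ : ∀ b : A, b * ψ b = φ b := fun b => mul_inv_cancel_left b (φ b)
  set n := orderOf g with hn
  have hit : ∀ (i : ℕ) (b : A), ((φ^[i] b : A) : G) = g ^ i * b * (g ^ i)⁻¹ := by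
    intro i b
    induction i with
    | zero => simp
    | succ i ih =>
      rw [Function.iterate_succ_apply', hφ, ih, pow_succ']
      group
  have hitn : ∀ b : A, φ^[n] b = b := by
    intro b
    apply Subtype.ext
    rw [hit, hn, pow_orderOf_eq_one]
    simp
  set X : A := ⟨x, hx⟩ with hX
  have h1 : ∀ i : ℕ, ∃ s : A, φ^[i] X = X * ψ s := by
    intro i
    induction i with
    | zero => exact ⟨1, by simp⟩
    | succ i ih =>
      obtain ⟨s, hs⟩ := ih
      refine ⟨s * φ^[i] X, ?_⟩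
      rw [Function.iterate_succ_apply', map_mul, ← mul_assoc, ← hs, hψ]
  have h2 : ∀ k : ℕ, ∃ s : A, ∏ i ∈ Finset.range k, φ^[i] X = X ^ k * ψ s := by
    intro k
    induction k with
    | zero => exact ⟨1, by simp⟩
    | succ k ih =>
      obtain ⟨s, hs⟩ := ih
      obtain ⟨t, ht⟩ := h1 k
      refine ⟨s * t, ?_⟩
      rw [Finset.prod_range_succ, hs, ht, map_mul, pow_succ]
      exact mul_mul_mul_comm _ _ _ _
  set Y : A := ∏ i ∈ Finset.range n, φ^[i] X with hY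
  have hYφ : φ Y = Y := by
    have h3 := Finset.prod_range_succ (fun i => φ^[i] X) n
    have h4 := Finset.prod_range_succ' (fun i => φ^[i] X) n
    rw [h3] at h4
    have h5 : φ^[n] X = φ^[0] X := by rw [hitn]; rfl
    rw [h5] at h4
    have h6 := mul_right_cancel h4
    rw [hY, map_prod, h6]
    exact Finset.prod_congr rfl fun i _ => (Function.iterate_succ_apply' φ i X).symm
  obtain ⟨s, hs⟩ := h2 n
  have hYs : X ^ n = Y * ψ s⁻¹ := by
    rw [map_inv, show Y = X ^ n * ψ s from hs]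
    exact (mul_inv_cancel_right _ _).symm
  -- coprimality
  obtain ⟨a, ha⟩ := hp x hx
  have hpp : p.Prime := Fact.out
  have hcop : n.Coprime (orderOf X) := by
    have h3 : orderOf X ∣ p ^ a := orderOf_dvd_of_pow_eq_one (Subtype.ext (by simpa [hX] using ha))
    have h4 : n.Coprime (p ^ a) := Nat.Coprime.pow_right a (Nat.Coprime.symm ((Nat.Prime.coprime_iff_not_dvd hpp).2 hgp))
    exact h4.coprime_dvd_right h3
  obtain ⟨m, hm⟩ := exists_pow_eq_self_of_coprime hcop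
  have hxm : X = ψ (s⁻¹ ^ m) * Y ^ m := by
    rw [map_pow, ← mul_pow, mul_comm (ψ s⁻¹) Y, ← hYs, hm]
  refine ⟨((s⁻¹ ^ m : A) : G), (s⁻¹ ^ m : A).2, ((Y ^ m : A) : G), (Y ^ m : A).2, ?_, ?_⟩
  · have h3 : φ (Y ^ m) = Y ^ m := by rw [map_pow, hYφ]
    have h4 := congrArg (Subtype.val : A → G) h3
    rw [hφ] at h4
    rw [mul_inv_eq_iff_eq_mul] at h4
    exact h4
  · exact congrArg (Subtype.val : A → G) hxm

/-- Existence of the subgroup `A`. Let `A ≤ P` be minimal among the `S`-invariant subgroups of `P` that do not centralise `L` (`P` is one). Let `g ∈ S`, `C = {a ∈ A : g a = a g}` and `B = {b⁻¹ g b g⁻¹ : b ∈ A}`; both are subgroups (`A` abelian),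
both are `S`-invariant (`s g s⁻¹ = g c` with `c ∈ S ⊓ L` centralising `P`), and `A = B C` (`coprime_split`). If `g` does not centralise `A` then `C ≠ A` centralises `L` by minimality, so `B` does not, so `B = A`: the endomorphism `b ↦ b⁻¹ g b g⁻¹` of the finite
group `A` is surjective, hence injective: `g` has no fixed point `≠ 1` on `A`. So `S / C_S(A)` (abelian, because `S ⊓ L` centralises `A`) acts fixed point freely on `A ≠ 1`: `fpf_cyclic`. -/
theorem exists_A {p : ℕ} [Fact p.Prime] {L P S : Subgroup G} (hS : ¬ p ∣ Nat.card S) (hpP : ∀ z ∈ P, ∃ a : ℕ, z ^ (p ^ a) = 1)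
    (habP : ∀ b ∈ P, ∀ c ∈ P, b * c = c * b) (hnS : ∀ s ∈ S, Nz s L) (hnSP : ∀ s ∈ S, Nz s P)
    (hab : ∀ a ∈ S, ∀ b ∈ S, a * b * a⁻¹ * b⁻¹ ∈ L) (hSL : S ⊓ L ≤ Subgroup.centralizer (P : Set G))
    (hne : ¬ P ≤ Subgroup.centralizer (L : Set G)) :
    ∃ A : Subgroup G, A ≤ P ∧ (∀ s ∈ S, Nz s A) ∧ ¬ A ≤ Subgroup.centralizer (L : Set G) ∧
      ∃ g ∈ S, S = (S ⊓ Subgroup.centralizer (A : Set G)) ⊔ Subgroup.zpowers g := by
  -- the action of commutators
  have hact : ∀ s ∈ S, ∀ t ∈ S, ∀ a ∈ P, (s * t * s⁻¹) * a * (s * t * s⁻¹)⁻¹ = t * a * t⁻¹ := by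
    intro s hs t ht a ha
    have hc1 : t⁻¹ * s * t⁻¹⁻¹ * s⁻¹ ∈ L := hab t⁻¹ (S.inv_mem ht) s hs
    have hc2 : t⁻¹ * s * t⁻¹⁻¹ * s⁻¹ ∈ S :=
      S.mul_mem (S.mul_mem (S.mul_mem (S.inv_mem ht) hs) (S.inv_mem (S.inv_mem ht))) (S.inv_mem hs)
    have hc3 := hSL ⟨hc2, hc1⟩
    rw [Subgroup.mem_centralizer_iff] at hc3
    have hc4 := hc3 a ha
    have e1 : s * t * s⁻¹ = t * (t⁻¹ * s * t⁻¹⁻¹ * s⁻¹) := by group
    rw [e1]
    generalize t⁻¹ * s * t⁻¹⁻¹ * s⁻¹ = c at hc4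
    have e2 : t * c * a * (t * c)⁻¹ = t * (c * a * c⁻¹) * t⁻¹ := by group
    rw [e2, ← hc4, mul_inv_cancel_right]
  -- minimal A
  obtain ⟨A, ⟨hAP, hAS, hAL⟩, hmin⟩ : ∃ A : Subgroup G, (A ≤ P ∧ (∀ s ∈ S, Nz s A) ∧ ¬ A ≤ Subgroup.centralizer (L : Set G)) ∧
      ∀ B : Subgroup G, B < A → B ≤ P → (∀ s ∈ S, Nz s B) → B ≤ Subgroup.centralizer (L : Set G) := by
    obtain ⟨A, hA⟩ := (Set.toFinite {A : Subgroup G | A ≤ P ∧ (∀ s ∈ S, Nz s A) ∧ ¬ A ≤ Subgroup.centralizer (L : Set G)}).exists_minimal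
      ⟨P, le_refl P, hnSP, hne⟩
    refine ⟨A, hA.prop, fun B hBA hBP hBS => ?_⟩
    by_contra h
    exact hA.not_lt ⟨hBP, hBS, h⟩ hBA
  have hAab : ∀ b ∈ A, ∀ c ∈ A, b * c = c * b := fun b hb c hc => habP b (hAP hb) c (hAP hc)
  have hAp : ∀ z ∈ A, ∃ a : ℕ, z ^ (p ^ a) = 1 := fun z hz => hpP z (hAP hz)
  have hSmem : ∀ s ∈ S, ∀ a ∈ A, s * a * s⁻¹ ∈ A := fun s hs a ha => (hAS s hs a).1 ha
  have nzOf : ∀ B : Subgroup G, (∀ s ∈ S, ∀ b ∈ B, s * b * s⁻¹ ∈ B) → ∀ s ∈ S, Nz s B := by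
    intro B hB s hs x
    constructor
    · exact hB s hs x
    · intro h
      have h1 := hB s⁻¹ (S.inv_mem hs) _ h
      have e : s⁻¹ * (s * x * s⁻¹) * s⁻¹⁻¹ = x := by group
      rwa [e] at h1
  -- dichotomy
  have hdich : ∀ g ∈ S, (∀ a ∈ A, g * a * g⁻¹ = a) ∨ (∀ a ∈ A, g * a * g⁻¹ = a → a = 1) := by
    intro g hg
    have hgp : ¬ p ∣ orderOf g := fun h => hS (h.trans (Subgroup.orderOf_dvd_natCard S hg))
    let C : Subgroup G :=
      { carrier := {a | a ∈ A ∧ g * a * g⁻¹ = a}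
        one_mem' := ⟨A.one_mem, by simp⟩
        mul_mem' := by
          rintro a b ⟨ha, ha'⟩ ⟨hb, hb'⟩
          refine ⟨A.mul_mem ha hb, ?_⟩
          have e : g * (a * b) * g⁻¹ = (g * a * g⁻¹) * (g * b * g⁻¹) := by group
          rw [e, ha', hb']
        inv_mem' := by
          rintro a ⟨ha, ha'⟩
          refine ⟨A.inv_mem ha, ?_⟩
          have e : g * a⁻¹ * g⁻¹ = (g * a * g⁻¹)⁻¹ := by group
          rw [e, ha'] }
    have hCm : ∀ a, a ∈ C ↔ a ∈ A ∧ g * a * g⁻¹ = a := fun a => Iff.rfl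
    let B : Subgroup G :=
      { carrier := {x | ∃ b ∈ A, x = b⁻¹ * (g * b * g⁻¹)}
        one_mem' := ⟨1, A.one_mem, by simp⟩
        mul_mem' := by
          rintro x y ⟨b, hb, rfl⟩ ⟨c, hc, rfl⟩
          refine ⟨b * c, A.mul_mem hb hc, ?_⟩
          have hgb := hSmem g hg b hb
          have hgc := hSmem g hg c hc
          have h1 : (g * b * g⁻¹) * c⁻¹ = c⁻¹ * (g * b * g⁻¹) := hAab _ hgb _ (A.inv_mem hc)
          have h2 : b⁻¹ * c⁻¹ = c⁻¹ * b⁻¹ := hAab _ (A.inv_mem hb) _ (A.inv_mem hc)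
          calc b⁻¹ * (g * b * g⁻¹) * (c⁻¹ * (g * c * g⁻¹)) = b⁻¹ * ((g * b * g⁻¹) * c⁻¹) * (g * c * g⁻¹) := by group
            _ = b⁻¹ * (c⁻¹ * (g * b * g⁻¹)) * (g * c * g⁻¹) := by rw [h1]
            _ = (b⁻¹ * c⁻¹) * (g * b * g⁻¹) * (g * c * g⁻¹) := by group
            _ = (c⁻¹ * b⁻¹) * (g * b * g⁻¹) * (g * c * g⁻¹) := by rw [h2]
            _ = (b * c)⁻¹ * (g * (b * c) * g⁻¹) := by group
        inv_mem' := by
          rintro x ⟨b, hb, rfl⟩
          refine ⟨b⁻¹, A.inv_mem hb, ?_⟩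
          have hgb := hSmem g hg b hb
          have h1 : (g * b * g⁻¹)⁻¹ * b = b * (g * b * g⁻¹)⁻¹ := hAab _ (A.inv_mem hgb) _ hb
          calc (b⁻¹ * (g * b * g⁻¹))⁻¹ = (g * b * g⁻¹)⁻¹ * b := by group
            _ = b * (g * b * g⁻¹)⁻¹ := h1
            _ = b⁻¹⁻¹ * (g * b⁻¹ * g⁻¹) := by group }
    have hBm : ∀ x, x ∈ B ↔ ∃ b ∈ A, x = b⁻¹ * (g * b * g⁻¹) := fun x => Iff.rfl
    have hCA : C ≤ A := fun a ha => ha.1
    have hBA : B ≤ A := by
      rintro x ⟨b, hb, rfl⟩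
      exact A.mul_mem (A.inv_mem hb) (hSmem g hg b hb)
    have hCS : ∀ s ∈ S, Nz s C := by
      refine nzOf C fun s hs a ha => ?_
      refine ⟨hSmem s hs a ha.1, ?_⟩
      have h1 := hact s⁻¹ (S.inv_mem hs) g hg a (hAP ha.1)
      rw [ha.2] at h1
      have e : g * (s * a * s⁻¹) * g⁻¹ = s * ((s⁻¹ * g * s⁻¹⁻¹) * a * (s⁻¹ * g * s⁻¹⁻¹)⁻¹) * s⁻¹ := by group
      rw [e, h1]
    have hBS : ∀ s ∈ S, Nz s B := by
      refine nzOf B ?_
      rintro s hs x ⟨b, hb, rfl⟩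
      refine ⟨s * b * s⁻¹, hSmem s hs b hb, ?_⟩
      have h1 := hact s hs g hg (s * b * s⁻¹) (hAP (hSmem s hs b hb))
      rw [← h1]
      group
    by_cases hCeq : C = A
    · left
      intro a ha
      rw [← hCeq] at ha
      exact ha.2
    · right
      have hClt : C < A := lt_of_le_of_ne hCA hCeq
      have hCc : C ≤ Subgroup.centralizer (L : Set G) := hmin C hClt (hCA.trans hAP) hCS
      have hBeq : B = A := by
        by_contra hBne
        have hBlt : B < A := lt_of_le_of_ne hBA hBne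
        have hBc : B ≤ Subgroup.centralizer (L : Set G) := hmin B hBlt (hBA.trans hAP) hBS
        apply hAL
        intro x hx
        obtain ⟨b, hb, c, hc, hgc, hxe⟩ := coprime_split hAab hAp (hAS g hg) hgp hx
        rw [hxe]
        refine Subgroup.mul_mem _ (hBc ⟨b, hb, rfl⟩) (hCc ⟨hc, ?_⟩)
        rw [hgc, mul_inv_cancel_right]
      -- surjective, so injective
      have hsurj : Function.Surjective (fun b : A => (⟨(b : G)⁻¹ * (g * b * g⁻¹), A.mul_mem (A.inv_mem b.2) (hSmem g hg b b.2)⟩ : A)) := by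
        rintro ⟨x, hx⟩
        have hx' := hx
        rw [← hBeq] at hx'
        obtain ⟨b, hb, hxb⟩ := (hBm x).1 hx'
        exact ⟨⟨b, hb⟩, Subtype.ext hxb.symm⟩
      have hinj := Finite.injective_iff_surjective.2 hsurj
      intro a ha hga
      have h1 : (⟨a, ha⟩ : A) = 1 := by
        apply hinj
        apply Subtype.ext
        show a⁻¹ * (g * a * g⁻¹) = (1 : G)⁻¹ * (g * 1 * g⁻¹)
        rw [hga]
        simp
      exact congrArg (Subtype.val : A → G) h1
  -- the action of S on A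
  let σ : S →* MulAut A :=
    { toFun := fun s =>
        { toFun := fun a => ⟨s * a * (s : G)⁻¹, hSmem s s.2 a a.2⟩
          invFun := fun a => ⟨(s : G)⁻¹ * a * s, by
            have h1 := hSmem (s : G)⁻¹ (S.inv_mem s.2) a a.2
            rwa [inv_inv] at h1⟩
          left_inv := fun a => Subtype.ext (by
            show (s : G)⁻¹ * (s * a * (s : G)⁻¹) * s = a
            group)
          right_inv := fun a => Subtype.ext (by
            show (s : G) * ((s : G)⁻¹ * a * s) * (s : G)⁻¹ = a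
            group)
          map_mul' := fun a b => Subtype.ext (by
            show (s : G) * (a * b) * (s : G)⁻¹ = (s * a * (s : G)⁻¹) * (s * b * (s : G)⁻¹)
            group) }
      map_one' := by
        ext a
        show ((1 : S) : G) * a * ((1 : S) : G)⁻¹ = a
        simp
      map_mul' := fun s t => by
        ext a
        show ((s * t : S) : G) * a * ((s * t : S) : G)⁻¹ = s * (t * a * (t : G)⁻¹) * (s : G)⁻¹
        push_cast
        group }
  have hσ : ∀ (s : S) (a : A), ((σ s a : A) : G) = s * a * (s : G)⁻¹ := fun s a => rfl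
  have hcommσ : ∀ s t : S, σ s * σ t = σ t * σ s := by
    intro s t
    apply MulEquiv.ext
    intro a
    apply Subtype.ext
    show (s : G) * (t * a * (t : G)⁻¹) * (s : G)⁻¹ = t * (s * a * (s : G)⁻¹) * (t : G)⁻¹
    have h1 := hact s s.2 t t.2 (s * a * (s : G)⁻¹) (hAP (hSmem s s.2 a a.2))
    rw [← h1]
    group
  letI : CommGroup A := { (inferInstance : Group A) with mul_comm := fun a b => Subtype.ext (hAab a a.2 b b.2) }
  letI : CommGroup σ.range :=
    { (inferInstance : Group σ.range) with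
      mul_comm := by
        rintro ⟨_, s, rfl⟩ ⟨_, t, rfl⟩
        exact Subtype.ext (hcommσ s t) }
  haveI : Nontrivial A := by
    rw [Subgroup.nontrivial_iff_ne_bot]
    rintro rfl
    exact hAL bot_le
  have hcyc : IsCyclic σ.range := by
    refine fpf_cyclic (σ.range.subtype) ?_
    rintro ⟨_, s, rfl⟩ a ha hane
    apply Subtype.ext
    have hsa : (s : G) * a * (s : G)⁻¹ = a := congrArg (Subtype.val : A → G) ha
    rcases hdich s s.2 with h | h
    · apply MulEquiv.ext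
      intro b
      exact Subtype.ext (h b b.2)
    · exact absurd (Subtype.ext (h a a.2 hsa)) hane
  obtain ⟨⟨_, g, rfl⟩, hgen⟩ := hcyc.exists_generator
  refine ⟨A, hAP, hAS, hAL, g, g.2, le_antisymm ?_ ?_⟩
  · intro s hs
    obtain ⟨k, hk⟩ := Subgroup.mem_zpowers_iff.1 (hgen ⟨σ ⟨s, hs⟩, ⟨s, hs⟩, rfl⟩)
    have hk1 : (σ g) ^ k = σ ⟨s, hs⟩ := congrArg (Subtype.val : σ.range → MulAut A) hk
    have hk2 : σ (⟨s, hs⟩ * (g ^ k)⁻¹) = 1 := by
      rw [map_mul, map_inv, map_zpow, hk1, mul_inv_cancel]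
    have hk3 : s * ((g : G) ^ k)⁻¹ ∈ S ⊓ Subgroup.centralizer (A : Set G) := by
      refine ⟨S.mul_mem hs (S.inv_mem (S.zpow_mem g.2 k)), ?_⟩
      show s * ((g : G) ^ k)⁻¹ ∈ Subgroup.centralizer (A : Set G)
      rw [Subgroup.mem_centralizer_iff]
      intro a ha
      have h1 := congrArg (fun e : MulAut A => ((e ⟨a, ha⟩ : A) : G)) hk2
      have h2 : (s * ((g : G) ^ k)⁻¹) * a * (s * ((g : G) ^ k)⁻¹)⁻¹ = a := by
        have h3 := hσ (⟨s, hs⟩ * (g ^ k)⁻¹) ⟨a, ha⟩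
        rw [h1] at h3
        simpa using h3.symm
      rw [mul_inv_eq_iff_eq_mul] at h2
      exact h2.symm
    have e : s = (s * ((g : G) ^ k)⁻¹) * (g : G) ^ k := by group
    rw [e]
    exact Subgroup.mul_mem _ ((le_sup_left : S ⊓ Subgroup.centralizer (A : Set G) ≤ _) hk3)
      ((le_sup_right : Subgroup.zpowers (g : G) ≤ _) ⟨k, rfl⟩)
  · refine sup_le inf_le_left ?_
    rw [Subgroup.zpowers_le]
    exact g.2

end Pool.Agent.Lib.H90Q
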