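import Pool.Agent.Lib.H90Q.B9
import Pool.Agent.Lib.H90Q.E1
import Pool.Agent.Lib.H90Q.F3

open scoped Classical ComplexConjugate BigOperators

noncomputable section

namespace Pool.Agent.Lib.H90Q

variable {G : Type*} [Group G] [Fintype G]

/-- The data of one step: `A ≤ P`; `S₁` = the centraliser of `A` in `S`. -/
structure Step (p : ℕ) (L A S S₁ : Subgroup G) : Prop where
  hL : ¬ p ∣ Nat.card L
  hS : ¬ p ∣ Nat.card S
  hp : ∀ z ∈ A, ∃ a : ℕ, z ^ (p ^ a) = 1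
  hA : ∀ b ∈ A, ∀ c ∈ A, b * c = c * b
  hAL : ∀ z ∈ A, Nz z L
  hSL : ∀ s ∈ S, Nz s L
  hSA : ∀ s ∈ S, Nz s A
  hab : ∀ a ∈ S, ∀ b ∈ S, a * b * a⁻¹ * b⁻¹ ∈ L
  hS₁ : S₁ = S ⊓ Subgroup.centralizer (A : Set G)
  hC : ∀ x ∈ S, x ∈ L → x ∈ S₁

private theorem e4_map {a : G} {H : Subgroup G} (h : Nz a H) : H.map (MulAut.conj a).toMonoidHom = H := by
  ext g
  rw [Subgroup.mem_map]
  constructor
  · rintro ⟨k, hk, rfl⟩
    exact (h k).1 hk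
  · intro hg
    refine ⟨a⁻¹ * g * a, ?_, ?_⟩
    · rw [h]
      have : a * (a⁻¹ * g * a) * a⁻¹ = g := by group
      rwa [this]
    · change a * (a⁻¹ * g * a) * a⁻¹ = g
      group

private theorem e4_nz_sup {a : G} {H K : Subgroup G} (h : Nz a H) (h' : Nz a K) : Nz a (H ⊔ K) := by
  have key : ∀ b : G, Nz b H → Nz b K → ∀ g ∈ H ⊔ K, b * g * b⁻¹ ∈ H ⊔ K := by
    intro b hb hb' g hg
    have e : (H ⊔ K).map (MulAut.conj b).toMonoidHom = H ⊔ K := by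
      rw [Subgroup.map_sup, e4_map hb, e4_map hb']
    rw [← e]
    exact Subgroup.mem_map_of_mem (MulAut.conj b).toMonoidHom hg
  intro g
  constructor
  · exact key a h h' g
  · intro hg
    have := key a⁻¹ (nz_inv h) (nz_inv h') _ hg
    have e : a⁻¹ * (a * g * a⁻¹) * a⁻¹⁻¹ = g := by group
    rwa [e] at this

private theorem e4_card {p : ℕ} [Fact p.Prime] {L S₁ : Subgroup G} (hn : ∀ s ∈ S₁, Nz s L) (hL : ¬ p ∣ Nat.card L)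
    (hS : ¬ p ∣ Nat.card S₁) : ¬ p ∣ Nat.card (L ⊔ S₁ : Subgroup G) := by
  intro h
  have hp : p.Prime := Fact.out
  obtain ⟨g, hg⟩ := exists_prime_orderOf_dvd_card' p h
  obtain ⟨l, hl, s, hs, e⟩ := (mem_sup_nz hn).1 g.2
  have hpow : ∀ k : ℕ, ∃ l' ∈ L, (l * s) ^ k = l' * s ^ k := by
    intro k
    induction k with
    | zero => exact ⟨1, L.one_mem, by simp⟩
    | succ k ih =>
      obtain ⟨l', hl', h'⟩ := ih
      refine ⟨l' * (s ^ k * l * (s ^ k)⁻¹), L.mul_mem hl' ((hn _ (S₁.pow_mem hs k) l).1 hl), ?_⟩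
      rw [pow_succ, h', pow_succ]
      group
  obtain ⟨l', hl', h'⟩ := hpow (Nat.card S₁)
  have hs1 : s ^ Nat.card S₁ = 1 := by
    have := pow_card_eq_one' (x := (⟨s, hs⟩ : S₁))
    exact congrArg Subtype.val this
  have hl1 : l' ^ Nat.card L = 1 := by
    have := pow_card_eq_one' (x := (⟨l', hl'⟩ : L))
    exact congrArg Subtype.val this
  rw [hs1, mul_one] at h'
  have h1 : (g : G) ^ (Nat.card S₁ * Nat.card L) = 1 := by rw [pow_mul, e, h', hl1]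
  have h2 : g ^ (Nat.card S₁ * Nat.card L) = 1 := Subtype.ext h1
  have h3 := orderOf_dvd_of_pow_eq_one h2
  rw [hg] at h3
  rcases (Nat.Prime.dvd_mul hp).1 h3 with h4 | h4
  · exact hS h4
  · exact hL h4

private theorem e4_comm {N S₁ : Subgroup G} (hn : ∀ s ∈ S₁, Nz s N) (hab : ∀ a ∈ S₁, ∀ b ∈ S₁, a * b * a⁻¹ * b⁻¹ ∈ N) :
    ∀ a ∈ N ⊔ S₁, ∀ b ∈ N ⊔ S₁, a * b * a⁻¹ * b⁻¹ ∈ N := by
  intro a ha b hb
  obtain ⟨l, hl, s, hs, rfl⟩ := (mem_sup_nz hn).1 ha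
  obtain ⟨m, hm, t, ht, rfl⟩ := (mem_sup_nz hn).1 hb
  have e : l * s * (m * t) * (l * s)⁻¹ * (m * t)⁻¹ =
      l * (s * m * s⁻¹) * (s * t * s⁻¹ * t⁻¹) * (t * l⁻¹ * t⁻¹) * m⁻¹ := by group
  rw [e]
  exact N.mul_mem (N.mul_mem (N.mul_mem (N.mul_mem hl ((hn s hs m).1 hm)) (hab s hs t ht)) ((hn t ht _).1 (N.inv_mem hl)))
    (N.inv_mem hm)

private theorem e4_inf {L S S₁ : Subgroup G} (hn : ∀ s ∈ S₁, Nz s L) (hle : S₁ ≤ S) (hC : ∀ x ∈ S, x ∈ L → x ∈ S₁) :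
    (L ⊔ S₁) ⊓ S = S₁ := by
  apply le_antisymm
  · rintro g ⟨hg, hgS⟩
    obtain ⟨l, hl, s, hs, rfl⟩ := (mem_sup_nz hn).1 hg
    have h1 : l ∈ S := by
      have := S.mul_mem hgS (S.inv_mem (hle hs))
      rwa [mul_inv_cancel_right] at this
    exact S₁.mul_mem (hC l h1 hl) hs
  · exact le_inf le_sup_right hle

private theorem e4_le {p : ℕ} {L A S S₁ : Subgroup G} (h : Step p L A S S₁) : S₁ ≤ S := by
  rw [h.hS₁]
  exact inf_le_left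

private theorem e4_cz {p : ℕ} {L A S S₁ : Subgroup G} (h : Step p L A S S₁) {s z : G} (hs : s ∈ S₁) (hz : z ∈ A) :
    s * z = z * s := by
  rw [h.hS₁] at hs
  exact (Subgroup.mem_centralizer_iff.1 hs.2 z hz).symm

/-- group theory of a step -/
theorem Step.nz {p : ℕ} {L A S S₁ : Subgroup G} (h : Step p L A S S₁) :
    (∀ s ∈ S, Nz s S₁) ∧ (∀ s ∈ S, Nz s (L ⊔ S₁)) ∧ (∀ z ∈ A, Nz z (L ⊔ S₁)) ∧ (∀ s ∈ S, Nz s (CM L A)) ∧
      (∀ t ∈ L ⊔ S, Nz t L) ∧ (∀ t ∈ CM L A ⊔ S, Nz t (CM L A)) := by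
  have h1 : ∀ s ∈ S, Nz s S₁ := by
    intro s hs
    rw [h.hS₁]
    exact nz_CM (nz_mem hs) (h.hSA s hs)
  have h2 : ∀ s ∈ S, Nz s (CM L (A : Set G)) := fun s hs => nz_CM (h.hSL s hs) (h.hSA s hs)
  have h3 : ∀ z ∈ A, Nz z S₁ := by
    intro z hz g
    constructor
    · intro hg
      have e : z * g * z⁻¹ = g := by rw [← e4_cz h hg hz, mul_inv_cancel_right]
      rwa [e]
    · intro hg
      have e := e4_cz h hg hz
      have e2 : g = z * g * z⁻¹ := by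
        have e3 : z * g = z * (z * g * z⁻¹) := by rw [← e, inv_mul_cancel_right]
        exact mul_left_cancel e3
      rw [e2]
      exact hg
  exact ⟨h1, fun s hs => e4_nz_sup (h.hSL s hs) (h1 s hs), fun z hz => e4_nz_sup (h.hAL z hz) (h3 z hz), h2,
    nz_sup h.hSL, nz_sup h2⟩

/-- `C_(L S₁)(A) = C_L(A) S₁` because `A` centralises `S₁`; orders prime to `p`; `L S₁ ⊓ S = S₁` (because `L ⊓ S ≤ S₁`). -/
theorem Step.cm {p : ℕ} [Fact p.Prime] {L A S S₁ : Subgroup G} (h : Step p L A S S₁) :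
    CM (L ⊔ S₁) A = CM L A ⊔ S₁ ∧ ¬ p ∣ Nat.card (L ⊔ S₁ : Subgroup G) ∧ (L ⊔ S₁) ⊓ S = S₁ ∧ (CM L A ⊔ S₁) ⊓ S = S₁ ∧
      (∀ a ∈ L ⊔ S₁, ∀ b ∈ L ⊔ S₁, a * b * a⁻¹ * b⁻¹ ∈ L) ∧
      (∀ a ∈ CM L A ⊔ S₁, ∀ b ∈ CM L A ⊔ S₁, a * b * a⁻¹ * b⁻¹ ∈ CM L A) := by
  have hle := e4_le h
  have hn : ∀ s ∈ S₁, Nz s L := fun s hs => h.hSL s (hle hs)
  have hn' : ∀ s ∈ S₁, Nz s (CM L (A : Set G)) := fun s hs => h.nz.2.2.2.1 s (hle hs)
  have hS₁p : ¬ p ∣ Nat.card S₁ := fun hd => h.hS (hd.trans (Subgroup.card_dvd_of_le hle))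
  refine ⟨?_, e4_card hn h.hL hS₁p, e4_inf hn hle h.hC, e4_inf hn' hle (fun x hx hx' => h.hC x hx hx'.1),
    e4_comm hn (fun a ha b hb => h.hab a (hle ha) b (hle hb)), e4_comm hn' (fun a ha b hb => ?_)⟩
  · apply le_antisymm
    · intro g hg
      obtain ⟨hg1, hg2⟩ := mem_CM.1 hg
      obtain ⟨l, hl, s, hs, rfl⟩ := (mem_sup_nz hn).1 hg1
      refine Subgroup.mul_mem _ (Subgroup.mem_sup_left (mem_CM.2 ⟨hl, fun z hz => ?_⟩)) (Subgroup.mem_sup_right hs)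
      have e := hg2 z hz
      have e2 : l * z * s = z * l * s := by
        calc l * z * s = l * (z * s) := by group
          _ = l * (s * z) := by rw [e4_cz h hs hz]
          _ = l * s * z := by group
          _ = z * (l * s) := e
          _ = z * l * s := by group
      exact mul_right_cancel e2
    · refine sup_le (fun g hg => ?_) (fun g hg => ?_)
      · obtain ⟨hg1, hg2⟩ := mem_CM.1 hg
        exact mem_CM.2 ⟨Subgroup.mem_sup_left hg1, hg2⟩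
      · exact mem_CM.2 ⟨Subgroup.mem_sup_right hg, fun z hz => e4_cz h hg hz⟩
  · have hc : a * b * a⁻¹ * b⁻¹ ∈ S₁ := S₁.mul_mem (S₁.mul_mem (S₁.mul_mem ha hb) (S₁.inv_mem ha)) (S₁.inv_mem hb)
    exact mem_CM.2 ⟨h.hab a (hle ha) b (hle hb), fun z hz => e4_cz h hc hz⟩

/-- (a) All `φ ∈ Irr(L S₁ | θ)` are `A`-invariant, `θ` being `A`-invariant. For `z ∈ A`, `z ^ q = 1`, `q` a power of `p`: `cj z φ` lies over `cj z θ = θ`, so `cj z φ = l * φ` with `l` a linear character of `L S₁ / L` (`abel_trans`); `cj z l = l` (`l (x s) = l s`, `z` centralises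
`S₁`), so `cj (z^i) φ = l^i * φ`, `φ = l^q * φ`; and `l^r = 1` for `r = |L S₁ : L|` prime to `p` (`lin_pow_index`), hence `l * φ = φ`. -/
theorem Step.inv {p : ℕ} [Fact p.Prime] {L A S S₁ : Subgroup G} (h : Step p L A S S₁) {θ φ : G → ℂ} (hθ : θ ∈ IrrS L) (hinv : InvS A θ)
    (hφ : φ ∈ irrOver (L ⊔ S₁) L θ) : InvS A φ := by
  intro z hz
  obtain ⟨hφ1, hφ2⟩ := mem_irrOver.1 hφ
  have hle := e4_le h
  have hn : ∀ s ∈ S₁, Nz s L := fun s hs => h.hSL s (hle hs)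
  obtain ⟨a, ha⟩ := h.hp z hz
  refine inv_of_over le_sup_left h.cm.2.1 h.cm.2.2.2.2.1 (h.hAL z hz) (h.nz.2.2.1 z hz) ha (fun k hk => ?_) hθ (hinv z hz) hφ1 hφ2
  obtain ⟨l, hl, s, hs, rfl⟩ := (mem_sup_nz hn).1 hk
  have e : z⁻¹ * (l * s) * z * (l * s)⁻¹ = (z⁻¹ * l * z) * l⁻¹ := by
    calc z⁻¹ * (l * s) * z * (l * s)⁻¹ = z⁻¹ * l * (s * z) * s⁻¹ * l⁻¹ := by group
      _ = z⁻¹ * l * (z * s) * s⁻¹ * l⁻¹ := by rw [e4_cz h hs hz]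
      _ = (z⁻¹ * l * z) * l⁻¹ := by group
  rw [e]
  have h1 : z⁻¹ * l * z ∈ L := by
    rw [h.hAL z hz]
    have e2 : z * (z⁻¹ * l * z) * z⁻¹ = l := by group
    rwa [e2]
  exact L.mul_mem h1 (L.inv_mem hl)

/-- (b) The correspondence of `A` maps `Irr(L S₁ | θ)` to `Irr(C_L(A) S₁ | θ₁)`. `e = mu L φ θ` satisfies `e ^ 2 ∣ |L S₁ : L|` (`abel_count`; `θ` is `L S`-invariant), so `p` does not divide `e`: `gc_over`. -/
theorem Step.gc_mem {p : ℕ} [Fact p.Prime] {L A S S₁ : Subgroup G} (h : Step p L A S S₁) {θ θ₁ φ ψ : G → ℂ} (hinv : InvS A θ) (hinvS : InvS S θ)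
    (hgc : GC p L A θ θ₁) (hφ : φ ∈ irrOver (L ⊔ S₁) L θ) (hψ : GC p (L ⊔ S₁) A φ ψ) : ψ ∈ irrOver (CM L A ⊔ S₁) (CM L A) θ₁ := by
  obtain ⟨hφ1, hφ2⟩ := mem_irrOver.1 hφ
  have hle := e4_le h
  have hn : ∀ s ∈ S₁, Nz s L := fun s hs => h.hSL s (hle hs)
  have hnM : ∀ t ∈ L ⊔ S₁, Nz t L := nz_sup hn
  have hBL : GCBij p L A := gcBij h.hL h.hAL h.hp h.hA
  have hBM : GCBij p (L ⊔ S₁) A := gcBij h.cm.2.1 h.nz.2.2.1 h.hp h.hA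
  have hθM : ∀ t ∈ L ⊔ S₁, cj t θ = θ := by
    intro t ht
    obtain ⟨l, hl, s, hs, rfl⟩ := (mem_sup_nz hn).1 ht
    rw [← cj_cj, hinvS s (hle hs)]
    exact cj_mem hl (cf_charS (charS_of_irrS hgc.1))
  have hpe : ¬ p ∣ mu L φ θ := mu_coprime le_sup_left h.cm.2.1 h.cm.2.2.2.2.1 hgc.1 hφ1 hφ2
  have hov := gc_over le_sup_left hnM hBL hBM hinv hθM (h.inv hgc.1 hinv hφ) hφ2 hpe hψ hgc
  refine mem_irrOver.2 ⟨?_, hov⟩
  have h1 := hψ.2.1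
  rwa [h.cm.1] at h1

/-- and onto: `over_of_gc`; the multiplicity of `θ₁` in `ψ ∈ Irr(C_L(A) S₁ | θ₁)` is prime to `p` for the same reason (`θ₁` is `S`-invariant: `gc_inv_iff`). -/
theorem Step.gc_onto {p : ℕ} [Fact p.Prime] {L A S S₁ : Subgroup G} (h : Step p L A S S₁) {θ θ₁ ψ : G → ℂ} (hinv : InvS A θ) (hinvS : InvS S θ)
    (hgc : GC p L A θ θ₁) (hψ : ψ ∈ irrOver (CM L A ⊔ S₁) (CM L A) θ₁) : ∃ φ ∈ irrOver (L ⊔ S₁) L θ, GC p (L ⊔ S₁) A φ ψ := by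
  obtain ⟨hψ1, hψ2⟩ := mem_irrOver.1 hψ
  have hBL : GCBij p L A := gcBij h.hL h.hAL h.hp h.hA
  have hBM : GCBij p (L ⊔ S₁) A := gcBij h.cm.2.1 h.nz.2.2.1 h.hp h.hA
  have hψ1' : ψ ∈ IrrS (CM (L ⊔ S₁) (A : Set G)) := by rwa [h.cm.1]
  obtain ⟨φ, hφA, hφ⟩ := hBM.surj ψ hψ1'
  have hle : CM L (A : Set G) ⊔ S₁ ≤ L ⊔ S₁ := sup_le_sup_right inf_le_left _
  have hcard : ¬ p ∣ Nat.card (CM L (A : Set G) ⊔ S₁ : Subgroup G) := fun hd => h.cm.2.1 (hd.trans (Subgroup.card_dvd_of_le hle))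
  have hpe : ¬ p ∣ mu (CM L (A : Set G)) ψ θ₁ := mu_coprime le_sup_left hcard h.cm.2.2.2.2.2 hgc.2.1 hψ1 hψ2
  exact ⟨φ, mem_irrOver.2 ⟨hφ.1, over_of_gc le_sup_left h.hp h.hAL hBL hBM hinv hφA hφ hgc hpe⟩, hφ⟩

end Pool.Agent.Lib.H90Q
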