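import Pool.Agent.Lib.H90Q.E3
import Pool.Agent.Lib.H90Q.E4

open scoped Classical ComplexConjugate BigOperators

noncomputable section

namespace Pool.Agent.Lib.H90Q

variable {G : Type*} [Group G] [Fintype G]

theorem E5_relIndex {K U D S : Subgroup G} (hn : ∀ t ∈ S, Nz t K) (hU : U = K ⊔ S) (hKSD : K ⊓ S = D) : K.relIndex U = D.relIndex S := by
  have hKU : K ≤ U := by rw [hU]; exact le_sup_left
  have hSU : S ≤ U := by rw [hU]; exact le_sup_right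
  have h1 : D.relIndex S = K.relIndex S := by rw [← hKSD, Subgroup.inf_relIndex_right]
  rw [h1, ← Subgroup.relIndex_subgroupOf hSU]
  haveI : (K.subgroupOf U).Normal := by
    constructor
    intro n hn' g
    rw [Subgroup.mem_subgroupOf] at hn' ⊢
    have h2 : Nz (g : G) K := nz_sup hn g (by rw [← hU]; exact g.2)
    have := (h2 n).1 hn'
    simpa using this
  rw [← Subgroup.relIndex_sup_right (S.subgroupOf U) (K.subgroupOf U)]
  have h2 : S.subgroupOf U ⊔ K.subgroupOf U = ⊤ := by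
    rw [eq_top_iff]
    rintro ⟨t, ht⟩ -
    have ht' := ht
    rw [hU] at ht'
    obtain ⟨k, hk, s, hs, rfl⟩ := (mem_sup_nz hn).1 ht'
    have h3 : (⟨k * s, ht⟩ : U) = ⟨k, hKU hk⟩ * ⟨s, hSU hs⟩ := rfl
    rw [h3]
    refine Subgroup.mul_mem _ ?_ ?_
    · exact (le_sup_right : K.subgroupOf U ≤ _) (Subgroup.mem_subgroupOf.2 hk)
    · exact (le_sup_left : S.subgroupOf U ≤ _) (Subgroup.mem_subgroupOf.2 hs)
  rw [h2, Subgroup.relIndex_top_right]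
  rfl

/-- The count of one step. `count_cyclic_step` for `(L, L S₁, L S)` and `(C_L(A), C_L(A) S₁, C_L(A) S)` with the same `g` (`S = S₁⟨g⟩`); the bijection `φ ↦ ψ` of (b) (`Step.gc_mem`, `Step.gc_onto`, `GCBij.uniq`, `GCBij.inj` for `(L S₁, A)`) preserves
`|T_φ : L S₁| = |S_φ : S₁|` (`relIndex_st`, `gc_inv_iff`: `s ∈ S` fixes `φ` iff it fixes `ψ`), and `|L S : L S₁| = |S : S₁| = |C_L(A) S : C_L(A) S₁|`. -/
theorem Step.count {p : ℕ} [Fact p.Prime] {L A S S₁ : Subgroup G} (h : Step p L A S S₁) {g : G} (hg : g ∈ S) (hcyc : S = S₁ ⊔ Subgroup.zpowers g)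
    {θ θ₁ : G → ℂ} (hinv : InvS A θ) (hinvS : InvS S θ) (hgc : GC p L A θ θ₁) :
    (irrOver (L ⊔ S) L θ).card = (irrOver (CM L A ⊔ S) (CM L A) θ₁).card := by
  obtain ⟨n1, n2, n3, n4, n5, n6⟩ := h.nz
  obtain ⟨c1, c2, c3, c4, c5, c6⟩ := h.cm
  have hθ : θ ∈ IrrS L := hgc.1
  have hθ₁ : θ₁ ∈ IrrS (CM L A) := hgc.2.1
  have hBL : GCBij p L A := gcBij h.hL h.hAL h.hp h.hA
  have hS₁S : S₁ ≤ S := by rw [hcyc]; exact le_sup_left
  have hgS : Subgroup.zpowers g ≤ S := by rw [Subgroup.zpowers_le]; exact hg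
  have hT : L ⊔ S = (L ⊔ S₁) ⊔ Subgroup.zpowers g := by
    rw [sup_assoc, ← hcyc]
  have hT₁ : CM L A ⊔ S = (CM L A ⊔ S₁) ⊔ Subgroup.zpowers g := by
    rw [sup_assoc, ← hcyc]
  -- invariance
  have hinvT : ∀ t ∈ L ⊔ S, cj t θ = θ := by
    intro t ht
    obtain ⟨l, hl, s, hs, rfl⟩ := (mem_sup_nz h.hSL).1 ht
    rw [← cj_cj, hinvS s hs, cj_mem hl (cf_charS (charS_of_irrS hθ))]
  have hinvS₁ : ∀ s ∈ S, cj s θ₁ = θ₁ := fun s hs => (gc_inv_iff hBL (h.hSL s hs) (h.hSA s hs) hinv hgc).1 (hinvS s hs)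
  have hinvT₁ : ∀ t ∈ CM L A ⊔ S, cj t θ₁ = θ₁ := by
    intro t ht
    obtain ⟨l, hl, s, hs, rfl⟩ := (mem_sup_nz n4).1 ht
    rw [← cj_cj, hinvS₁ s hs, cj_mem hl (cf_charS (charS_of_irrS hθ₁))]
  -- `g` normalises the two groups in the middle
  have hg1 : Nz g (L ⊔ S₁) := n2 g hg
  have n2' : ∀ s ∈ S, Nz s (CM L A ⊔ S₁) := by
    have key : ∀ s ∈ S, ∀ y ∈ CM L A ⊔ S₁, s * y * s⁻¹ ∈ CM L A ⊔ S₁ := by
      intro s hs y hy
      obtain ⟨c, hc, t, ht, rfl⟩ := (mem_sup_nz (fun z hz => n4 z (hS₁S hz))).1 hy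
      refine (mem_sup_nz (fun z hz => n4 z (hS₁S hz))).2 ⟨s * c * s⁻¹, (n4 s hs c).1 hc, s * t * s⁻¹, (n1 s hs t).1 ht, ?_⟩
      group
    intro s hs y
    refine ⟨key s hs y, fun hy => ?_⟩
    have h2 := key s⁻¹ (S.inv_mem hs) _ hy
    simpa [mul_assoc] using h2
  have e1 := count_cyclic_step (N := L) (M := L ⊔ S₁) (T := L ⊔ S) le_sup_left hg1 hT n5 hθ hinvT
  have e2 := count_cyclic_step (N := CM L A) (M := CM L A ⊔ S₁) (T := CM L A ⊔ S) le_sup_left (n2' g hg) hT₁ n6 hθ₁ hinvT₁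
  have hTS : L ⊔ S = (L ⊔ S₁) ⊔ S := by rw [sup_assoc, sup_eq_right.2 hS₁S]
  have hTS₁ : CM L A ⊔ S = (CM L A ⊔ S₁) ⊔ S := by rw [sup_assoc, sup_eq_right.2 hS₁S]
  have r1 : (L ⊔ S₁).relIndex (L ⊔ S) = S₁.relIndex S := E5_relIndex n2 hTS c3
  have r2 : (CM L A ⊔ S₁).relIndex (CM L A ⊔ S) = S₁.relIndex S := E5_relIndex n2' hTS₁ c4
  rw [r1] at e1
  rw [r2] at e2
  -- the sums agree
  have hB : GCBij p (L ⊔ S₁) A := gcBij c2 n3 h.hp h.hA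
  have hex : ∀ φ ∈ irrOver (L ⊔ S₁) L θ, ∃ ψ, GC p (L ⊔ S₁) A φ ψ := fun φ hφ =>
    hB.ex φ (mem_irrOver.1 hφ).1 (h.inv hθ hinv hφ)
  choose! st hst using hex
  have hsum : ∑ φ ∈ irrOver (L ⊔ S₁) L θ, ((L ⊔ S₁).relIndex (stS (L ⊔ S) φ)) ^ 2
      = ∑ ψ ∈ irrOver (CM L A ⊔ S₁) (CM L A) θ₁, ((CM L A ⊔ S₁).relIndex (stS (CM L A ⊔ S) ψ)) ^ 2 := by
    refine Finset.sum_nbij st (fun φ hφ => h.gc_mem hinv hinvS hgc hφ (hst φ hφ)) ?_ ?_ ?_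
    · intro φ hφ φ' hφ' he
      have h1 := hst φ hφ
      have h2 := hst φ' hφ'
      rw [← he] at h2
      exact hB.inj φ φ' (st φ) (h.inv hθ hinv hφ) (h.inv hθ hinv hφ') h1 h2
    · intro ψ hψ
      obtain ⟨φ, hφ, h1⟩ := h.gc_onto hinv hinvS hgc hψ
      exact ⟨φ, hφ, hB.uniq φ (st φ) ψ (h.inv hθ hinv hφ) (hst φ hφ) h1⟩
    · intro φ hφ
      have hφi := (mem_irrOver.1 hφ).1
      have hψ := h.gc_mem hinv hinvS hgc hφ (hst φ hφ)
      have hψi := (mem_irrOver.1 hψ).1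
      rw [relIndex_st n2 hTS hφi, relIndex_st n2' hTS₁ hψi, c3, c4]
      have hst' : stS S φ = stS S (st φ) := by
        ext s
        rw [mem_stS, mem_stS]
        exact and_congr_right (fun hs => gc_inv_iff hB (n2 s hs) (h.hSA s hs) (h.inv hθ hinv hφ) (hst φ hφ))
      rw [hst']
  rw [hsum, e2] at e1
  have hpos : 0 < S₁.relIndex S := by
    have h1 := A15_relIndex hS₁S
    have h2 : 0 < Nat.card S := Nat.card_pos
    rw [← h1] at h2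
    exact Nat.pos_of_mul_pos_left h2
  exact (Nat.eq_of_mul_eq_mul_right hpos e1).symm

end Pool.Agent.Lib.H90Q
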