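import Pool.Agent.Lib.H90Q.F5G
import Pool.Agent.Lib.H90Q.F7

open scoped Classical ComplexConjugate BigOperators

noncomputable section

namespace Pool.Agent.Lib.H90Q

variable {G : Type*} [Group G] [Fintype G]

/-- The core for every prime: the correspondence between the characters of `L P S` over an extension `Θ` of `θ` and the characters of `S` over the correspondent `θ₁` of `θ`. -/
theorem core_gen {p : ℕ} [Fact p.Prime] {L P H S : Subgroup G} {x : G} (hs : Setup p L P H x) (hSH : S ≤ H) (hCS : L ⊓ H ≤ S)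
    {θ Θ θ₁ : G → ℂ} (hP : InvS P θ) (hS : InvS S θ) (hΘ : Can p L P θ Θ) (hΘS : ∀ s ∈ S, cj s Θ = Θ)
    (h4 : p = 2 → ∀ z ∈ P, ∃ k : ℤ, Θ z = θ 1 + 4 * k) (hgc : GC p L (P : Set G) θ θ₁) :
    ∃ ε : ℤ, (ε = 1 ∨ ε = -1) ∧ ((mu (CM L (P : Set G)) θ θ₁ : ℤ) ≡ ε [ZMOD p]) ∧
      ∃ f : (G → ℂ) → (G → ℂ), Set.BijOn f (irrOver (L ⊔ P ⊔ S) (L ⊔ P) Θ) (irrOver S (L ⊓ H) θ₁) ∧
        ∀ α ∈ irrOver (L ⊔ P ⊔ S) (L ⊔ P) Θ, ∀ h ∈ H, ∀ u ∈ S, u * x = x * u → α (h * x * h⁻¹ * u) = (ε : ℂ) * f α u := by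
  have hp : p.Prime := Fact.out
  have hθ : θ ∈ IrrS L := hgc.1
  have hθcf := cf_charS (charS_of_irrS hθ)
  have hCP := F4_C hs
  have hCx := F4_Cx hs
  have hPn : ∀ z ∈ P, Nz z L := fun z _ => F4_nzL hs z
  have hPp : ∀ z ∈ P, ∃ a : ℕ, z ^ (p ^ a) = 1 := by
    intro z hz
    obtain ⟨k, hk⟩ := hs.hPp ⟨z, hz⟩
    exact ⟨k, congrArg Subtype.val hk⟩
  have hSp : ¬ p ∣ Nat.card S := fun h => hs.hHp (h.trans (Subgroup.card_dvd_of_le hSH))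
  have hnS : ∀ s ∈ S, Nz s L := fun s _ => F4_nzL hs s
  have hnSP : ∀ s ∈ S, Nz s P := fun s h => F4_nzP hs (hSH h)
  have hSL : S ⊓ L = CM L (P : Set G) := by
    rw [hCP]
    apply le_antisymm
    · intro y hy
      obtain ⟨h1, h2⟩ := Subgroup.mem_inf.1 hy
      exact Subgroup.mem_inf.2 ⟨h2, hSH h1⟩
    · intro y hy
      exact Subgroup.mem_inf.2 ⟨hCS hy, (Subgroup.mem_inf.1 hy).1⟩
  have habS : ∀ a ∈ S, ∀ b ∈ S, a * b * a⁻¹ * b⁻¹ ∈ L := fun a ha b hb => hs.hab a (hSH ha) b (hSH hb)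
  have hE : (irrOver (L ⊔ S) L θ).card = (irrOver S (L ⊓ H) θ₁).card := by
    rw [← hCP]
    exact e_count hs.hLp hSp hPn hPp hs.hPab hnS hnSP hSL habS hP hS hgc
  have hθ₁ : θ₁ ∈ IrrS (L ⊓ H) := by
    rw [← hCP]
    exact hgc.2.1
  -- invariance of `θ₁`
  have hB : GCBij p L P := gcBij hs.hLp hPn hPp hs.hPab
  have hθ₁S : ∀ s ∈ S, cj s θ₁ = θ₁ := fun s h => (gc_inv_iff hB (hnS s h) (hnSP s h) hP hgc).1 (hS s h)
  -- invariance of `θ` under `L S`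
  have hθU : ∀ t ∈ L ⊔ S, cj t θ = θ := by
    intro t ht
    obtain ⟨l, hl, s, hs', rfl⟩ := (F4_mem hs).1 ht
    rw [← cj_cj, hS s hs', cj_mem hl hθcf]
  have hDS : CM S {x} ≤ S := fun y hy => (F4_mem_CM.1 hy).1
  have hDH : CM S {x} ≤ H := hDS.trans hSH
  obtain ⟨hKS, hKU, hUK⟩ := F4_KS hs hSH hCS
  have hθK : ∀ t ∈ L ⊔ CM S {x}, cj t θ = θ := fun t ht => hθU t (hKU ht)
  -- invariance of `Θ`
  have hΘcf := cf_charS (charS_of_irrS hΘ.irr)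
  obtain ⟨hnM, hTM, hMU⟩ := F4_T hs hSH
  have hΘT : ∀ t ∈ L ⊔ P ⊔ S, cj t Θ = Θ := by
    intro t ht
    obtain ⟨m, hm, u, hu, rfl⟩ := hTM t ht
    obtain ⟨l, hl, s, hs', rfl⟩ := (F4_mem hs).1 hu
    rw [← cj_cj, ← cj_cj, hΘS s hs', cj_mem ((le_sup_left : L ≤ L ⊔ P) hl) hΘcf, cj_mem hm hΘcf]
  have hMT : L ⊔ P ≤ L ⊔ P ⊔ S := le_sup_left
  have hUT : L ⊔ S ≤ L ⊔ P ⊔ S := sup_le (le_sup_left.trans le_sup_left) le_sup_right
  have hres := res_bij hMT hUT hTM hMU (fun t _ => hnM t) hΘ.irr hθ hΘ.ext hΘT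
  -- the correspondence on `K`
  have hx1 : (1 : G) * x * 1⁻¹ = x := by simp
  obtain ⟨hxK, hxc, hxD⟩ := F4_K hs hSH hCS H.one_mem
  rw [hx1] at hxK hxc hxD
  obtain ⟨a₀, ha₀⟩ := hPp x hs.hxP
  have hgx : GC p L {x} θ θ₁ := F7_gc_of_CM (hCP.trans hCx.symm) hgc
  obtain ⟨st, hst, hstGC⟩ := star_bij (K := L ⊔ CM S {x}) le_sup_left (F4_card hs hDH) (F4_comm hs hDH) (F4_nzL hs x) hxK ha₀ hxc hθ
    (hP x hs.hxP) hθK hgx
  rw [hxD, hCx] at hst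
  have hstD : ∀ φ ∈ irrOver (L ⊔ CM S {x}) L θ, st φ ∈ IrrS (CM S {x}) ∧ ¬ p ∣ mu (CM S {x}) φ (st φ) := by
    intro φ hφ
    have h1 := (hstGC φ hφ (st φ)).2 rfl
    unfold GC at h1
    rw [hxD] at h1
    exact h1.2
  have heq : ∀ s ∈ S, ∀ φ ∈ irrOver (L ⊔ CM S {x}) L θ, st (cj s φ) = cj s (st φ) := by
    intro s hs' φ hφ
    have hsH := hSH hs'
    have hnK := F4_nzK hs hSH hCS hsH
    have hnD := F4_nzD hs hSH hCS hsH
    obtain ⟨h1, h2⟩ := mem_irrOver.1 hφ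
    have h3 : cj s φ ∈ irrOver (L ⊔ CM S {x}) L θ := by
      refine mem_irrOver.2 ⟨cj_irrS hnK h1, ?_⟩
      unfold Over at h2 ⊢
      have h4 := ip_cj (hnS s hs') φ θ
      rw [hS s hs'] at h4
      rwa [h4]
    symm
    rw [← hstGC (cj s φ) h3]
    unfold GC
    rw [hxD]
    obtain ⟨h5, h6⟩ := hstD φ hφ
    refine ⟨cj_irrS hnK h1, cj_irrS hnD h5, ?_⟩
    have h7 : mu (CM S {x}) (cj s φ) (cj s (st φ)) = mu (CM S {x}) φ (st φ) := by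
      unfold mu
      rw [ip_cj hnD]
    rwa [h7]
  obtain ⟨g, hg, hgmu⟩ := match_bij (U := L ⊔ S) (C := L ⊓ H) (D := CM S {x}) (S := S) le_sup_left hKU (F4_comm hs hSH) (F4_CD hs hCS) hDS
    (F4_commS hs hSH) le_sup_right hUK hKS hθ hθ₁ hθU hθ₁S hst heq hE
  -- the sign
  obtain ⟨ε, hε, hmod, hval⟩ := can_val hs.hLp hPn hPp hθ hΘ x hs.hxP θ₁ hgx
  rw [hCx] at hmod hval
  refine ⟨ε, hε, by rw [hCP]; exact hmod, fun α => g (rs (L ⊔ S) α), hg.comp hres, ?_⟩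
  intro α hα h hh u huS hux
  have huD : u ∈ CM S {x} := F4_mem_CM.2 ⟨huS, hux⟩
  obtain ⟨hαi, hαo⟩ := mem_irrOver.1 hα
  obtain ⟨hzP, ⟨a, ha⟩, hzC⟩ := F4_z hs hh
  obtain ⟨hzK, hzc, hzD⟩ := F4_K hs hSH hCS hh
  -- the value of `Θ` at `z`
  have hgz : GC p L {h * x * h⁻¹} θ θ₁ := F7_gc_of_CM (hCP.trans hzC.symm) hgc
  obtain ⟨ε', hε', hmod', hval'⟩ := can_val hs.hLp hPn hPp hθ hΘ _ hzP θ₁ hgz
  rw [hzC] at hmod' hval'
  have hvx := hval 1 (Subgroup.one_mem _)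
  have hvz := hval' 1 (Subgroup.one_mem _)
  rw [mul_one] at hvx hvz
  have hεε : ε' = ε := by
    by_cases hp2 : p = 2
    · -- the values modulo 4
      obtain ⟨k, hk⟩ := h4 hp2 x hs.hxP
      obtain ⟨k', hk'⟩ := h4 hp2 _ hzP
      obtain ⟨n, hn, hn1, hnd⟩ := irr_dvd hθ₁.2
      have hn1' : θ₁ 1 = (n : ℂ) := hn1
      have hodd : ¬ (2 : ℤ) ∣ n := by
        intro h2
        have h3 : 2 ∣ n := by exact_mod_cast h2
        apply hs.hLp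
        rw [hp2]
        exact h3.trans (hnd.trans (Subgroup.card_dvd_of_le inf_le_left))
      rw [hn1'] at hvx hvz
      have h5 : ((ε' * n - ε * n : ℤ) : ℂ) = ((4 * (k' - k) : ℤ) : ℂ) := by
        push_cast
        rw [← hvx, ← hvz, hk, hk']
        ring
      have h6 : ε' * n - ε * n = 4 * (k' - k) := by exact_mod_cast h5
      rcases hε with h | h <;> rcases hε' with h' | h' <;> rw [h, h'] at h6 ⊢
      · exfalso
        apply hodd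
        omega
      · exfalso
        apply hodd
        omega
    · have h1 : ε ≡ ε' [ZMOD p] := hmod.symm.trans hmod'
      have hp3 : 3 ≤ p := by
        have := hp.two_le
        omega
      have h2 : (p : ℤ) ∣ ε' - ε := Int.modEq_iff_dvd.1 h1
      rcases hε with rfl | rfl <;> rcases hε' with rfl | rfl
      · rfl
      · exfalso
        have := Int.le_of_dvd (by norm_num) ((dvd_neg).2 h2)
        norm_num at this
        omega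
      · exfalso
        have := Int.le_of_dvd (by norm_num) h2
        norm_num at this
        omega
      · rfl
  obtain ⟨n₁, hn₁, hθ₁1⟩ := irrS_one hθ₁
  have hΘz : Θ (h * x * h⁻¹) = (ε : ℂ) * ((n₁ : ℝ) : ℂ) := by
    rw [hvz, hθ₁1, hεε]
    simp
  obtain ⟨he, hαΘ⟩ := clifford_inv hMT (fun t _ => hnM t) hαi hΘ.irr hαo hΘT
  have hstz : ∀ φ ∈ irrOver (L ⊔ CM S {x}) L θ, ∀ ψ, GC p (L ⊔ CM S {x}) {h * x * h⁻¹} φ ψ ↔ ψ = st φ := by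
    intro φ hφ ψ
    rw [← hstGC φ hφ ψ]
    exact ⟨F7_gc_of_CM (hzD.trans hxD.symm), F7_gc_of_CM (hxD.trans hzD.symm)⟩
  have huK : u ∈ CM (L ⊔ CM S {x}) {h * x * h⁻¹} := by
    rw [hzD]
    exact huD
  have hcv := F5_core_value (M := L ⊔ P) (T := L ⊔ P ⊔ S) (le_sup_left : L ≤ L ⊔ CM S {x}) (hKU.trans hUT) hMT le_sup_left
    (F4_card hs hDH) (F4_comm hs hDH) ((le_sup_right : P ≤ L ⊔ P) hzP) (F4_nzL hs _) hzK ha hzc hθ hΘ.irr hΘ.ext hαi he hαΘ hstz hε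
    (by exact_mod_cast hn₁ : (0 : ℝ) < (n₁ : ℝ)) hΘz u huK
  rw [hcv]
  congr 1
  -- the value of `f α`
  have hβ : rs (L ⊔ S) α ∈ irrOver (L ⊔ S) L θ := hres.1 hα
  have hγ : g (rs (L ⊔ S) α) ∈ irrOver S (L ⊓ H) θ₁ := hg.1 hβ
  change _ = g (rs (L ⊔ S) α) u
  rw [F7_value (F4_CD hs hCS) hDS (fun s h => F4_nzC hs (hSH h)) hθ₁ hθ₁S hγ huD]
  have hmuα : ∀ φ, mu (L ⊔ CM S {x}) (rs (L ⊔ S) α) φ = mu (L ⊔ CM S {x}) α φ := by
    intro φ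
    unfold mu
    rw [ip_congr (L ⊔ CM S {x}) (f := rs (L ⊔ S) α) (f' := α) (g := φ) (g' := φ) (fun y hy => by simp [rs, hKU hy]) (fun _ _ => rfl)]
  refine Finset.sum_nbij st (fun φ hφ => hst.1 hφ) hst.2.1 hst.2.2 (fun φ hφ => ?_)
  rw [hgmu _ hβ φ hφ, hmuα]

end Pool.Agent.Lib.H90Q
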