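import Pool.Agent.Lib.H90Q.A17

open scoped Classical ComplexConjugate BigOperators

noncomputable section

namespace Pool.Agent.Lib.H90Q

variable {G : Type*} [Group G] [Fintype G]

/-- The main step of the Clifford correspondence: if `χ` lies over `α` and `α` over `φ`, then `χ` is induced from `α` and `α` is the
only constituent of `χ` on `T` that lies over `φ`. -/
theorem K01_main {M T K : Subgroup G} (hMT : M ≤ T) (hTK : T ≤ K) (hn : ∀ t ∈ K, Nz t M) {φ : G → ℂ} (hφ : φ ∈ IrrS M)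
    (hst : ∀ t ∈ K, t ∈ T ↔ cj t φ = φ) {α χ : G → ℂ} (hα : α ∈ IrrS T) (hαφ : Over M α φ) (hχ : χ ∈ IrrS K) (hχα : Over T χ α) :
    Over M χ φ ∧ ind T K α = χ ∧ ∀ β ∈ IrrS T, Over M β φ → Over T χ β → β = α := by
  have hMK : M ≤ K := hMT.trans hTK
  have hχφ : Over M χ φ := over_trans hMT hTK hχ hα hφ hχα hαφ
  have hstS : stS K φ = T := by
    ext t
    rw [mem_stS]
    exact ⟨fun h => (hst t h.1).2 h.2, fun h => ⟨hTK h, (hst t (hTK h)).1 h⟩⟩
  obtain ⟨d, hd0, hd⟩ := irrS_one hφ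
  obtain ⟨n, hn0, hχ1⟩ := irrS_one hχ
  -- degrees
  have hdeg := clifford_degree hMK hn hχ hφ hχφ
  rw [hstS, hd, hχ1] at hdeg
  have hrel : M.relIndex T * T.relIndex K = M.relIndex K := Subgroup.relIndex_mul_relIndex M T K hMT hTK
  have hr0 : 0 < M.relIndex T := by
    have h := A15_relIndex hMT
    rcases Nat.eq_zero_or_pos (M.relIndex T) with h0 | h0
    · rw [h0, mul_zero] at h
      exact absurd h.symm Nat.card_pos.ne'
    · exact h0
  have hr1 : 0 < T.relIndex K := by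
    have h := A15_relIndex hTK
    rcases Nat.eq_zero_or_pos (T.relIndex K) with h0 | h0
    · rw [h0, mul_zero] at h
      exact absurd h.symm Nat.card_pos.ne'
    · exact h0
  have hdegN : n * M.relIndex T = mu M χ φ * M.relIndex K * d := by exact_mod_cast hdeg
  have hn1 : n = mu M χ φ * T.relIndex K * d := by
    rw [← hrel] at hdegN
    have : n * M.relIndex T = (mu M χ φ * T.relIndex K * d) * M.relIndex T := by rw [hdegN]; ring
    exact Nat.eq_of_mul_eq_mul_right hr0 this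
  have hαinv := clifford_inv hMT (fun t ht => hn t (hTK ht)) hα hφ hαφ (fun t ht => (hst t (hTK ht)).1 ht)
  have hα1 : α 1 = (mu M α φ : ℂ) * (d : ℂ) := by rw [hαinv.2 1 M.one_mem, hd]
  have hind1 : ind T K α 1 = ((T.relIndex K * (mu M α φ * d) : ℕ) : ℂ) := by
    rw [ind_one hTK (cf_charS (charS_of_irrS hα)), hα1]
    push_cast
    ring
  have hindS : ind T K α ∈ CharS K := ind_charS hTK (charS_of_irrS hα)
  -- the multiplicity of `χ`
  have hmuχ : mu K (ind T K α) χ = mu T χ α := by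
    have h1 := mu_spec le_rfl hindS hχ
    have h2 := mu_spec hTK (charS_of_irrS hχ) hα
    have h3 : ip K (ind T K α) χ = ip T α χ := frob hTK (cf_charS (charS_of_irrS hα)) (cf_charS (charS_of_irrS hχ))
    have h4 : ip T α χ = conj (ip T χ α) := ip_conj T χ α
    rw [h3, h4, ← h2, Complex.conj_natCast] at h1
    exact_mod_cast h1
  have ha : 0 < mu T χ α := (A15_over_iff hTK (charS_of_irrS hχ) hα).1 hχα
  have hmuM : mu M χ φ = ∑ β ∈ irr T, mu T χ β * mu M β φ := A15_mu_trans hMT hTK (charS_of_irrS hχ) hφ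
  -- natural degrees of all irreducible characters of `K`
  have hdegs : ∀ ψ : G → ℂ, ∃ m : ℕ, ψ ∈ irr K → 0 < m ∧ ψ 1 = m := by
    intro ψ
    by_cases h : ψ ∈ irr K
    · obtain ⟨m, hm⟩ := irrS_one (mem_irr.1 h)
      exact ⟨m, fun _ => hm⟩
    · exact ⟨0, fun h' => absurd h' h⟩
  choose dg hdg using hdegs
  have hdgχ : dg χ = n := by
    have h := (hdg χ (mem_irr.2 hχ)).2
    rw [hχ1] at h
    exact_mod_cast h.symm
  have hexp : T.relIndex K * (mu M α φ * d) = ∑ ψ ∈ irr K, mu K (ind T K α) ψ * dg ψ := by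
    have h1 : ind T K α 1 = ∑ ψ ∈ irr K, (mu K (ind T K α) ψ : ℂ) * ψ 1 := by
      have h2 := congrFun (charS_expand' hindS) 1
      rw [Finset.sum_apply] at h2
      simpa only [Pi.smul_apply, smul_eq_mul] using h2
    rw [hind1] at h1
    have h3 : ∑ ψ ∈ irr K, (mu K (ind T K α) ψ : ℂ) * ψ 1 = ((∑ ψ ∈ irr K, mu K (ind T K α) ψ * dg ψ : ℕ) : ℂ) := by
      push_cast
      exact Finset.sum_congr rfl (fun ψ hψ => by rw [(hdg ψ hψ).2])
    rw [h3] at h1
    exact_mod_cast h1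
  have hχmem : χ ∈ irr K := mem_irr.2 hχ
  have hαmem : α ∈ irr T := mem_irr.2 hα
  have hsplit : ∑ ψ ∈ irr K, mu K (ind T K α) ψ * dg ψ
      = mu T χ α * n + ∑ ψ ∈ (irr K).erase χ, mu K (ind T K α) ψ * dg ψ := by
    rw [← Finset.add_sum_erase _ _ hχmem, hmuχ, hdgχ]
  have hsplit2 : mu M χ φ = mu T χ α * mu M α φ + ∑ β ∈ (irr T).erase α, mu T χ β * mu M β φ := by
    rw [hmuM, ← Finset.add_sum_erase _ _ hαmem]
  set R := ∑ ψ ∈ (irr K).erase χ, mu K (ind T K α) ψ * dg ψ with hR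
  set R2 := ∑ β ∈ (irr T).erase α, mu T χ β * mu M β φ with hR2
  set r := T.relIndex K with hr
  set e := mu M α φ with he
  set a := mu T χ α with haa
  have key : r * (e * d) = a * ((a * e + R2) * r * d) + R := by
    rw [hexp, hsplit, hn1, hsplit2]
  have hrd : 0 < r * d := Nat.mul_pos hr1 hd0
  have he0 : 0 < e := hαinv.1
  have hR0 : R = 0 ∧ R2 = 0 ∧ a = 1 := by
    have h1 : (r * d) * e = (r * d) * (a * (a * e + R2)) + R := by
      rw [show (r * d) * e = r * (e * d) by ring, key]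
      ring
    have h2 : (r * d) * (a * (a * e + R2)) ≤ (r * d) * e := by omega
    have h3 : a * (a * e + R2) ≤ e := Nat.le_of_mul_le_mul_left h2 hrd
    have h4 : a * (a * e + R2) = a * a * e + a * R2 := by ring
    have h5 : e ≤ a * a * e := Nat.le_mul_of_pos_left e (Nat.mul_pos ha ha)
    have h6 : a * R2 = 0 := by omega
    have h7 : a * a * e = e := by omega
    have h8 : R2 = 0 := (Nat.mul_eq_zero.1 h6).resolve_left ha.ne'
    have h9 : a * a = 1 := by
      have : a * a * e = 1 * e := by rw [h7, one_mul]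
      exact Nat.eq_of_mul_eq_mul_right he0 this
    have h10 : a = 1 := by
      have := Nat.eq_one_of_mul_eq_one_left h9
      exact this
    refine ⟨?_, h8, h10⟩
    rw [h10, h8] at h1
    simp only [one_mul, add_zero] at h1
    omega
  obtain ⟨hRz, hR2z, ha1⟩ := hR0
  refine ⟨hχφ, ?_, ?_⟩
  · have hz : ∀ ψ ∈ irr K, ψ ≠ χ → mu K (ind T K α) ψ = 0 := by
      intro ψ hψ hne
      have h1 := (Finset.sum_eq_zero_iff.1 (hR.symm.trans hRz)) ψ (Finset.mem_erase.2 ⟨hne, hψ⟩)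
      exact (Nat.mul_eq_zero.1 h1).resolve_right (hdg ψ hψ).1.ne'
    have h2 := charS_expand' hindS
    rw [Finset.sum_eq_single χ] at h2
    · rw [hmuχ, ha1, Nat.cast_one, one_smul] at h2
      exact h2
    · intro ψ hψ hne
      rw [hz ψ hψ hne, Nat.cast_zero, zero_smul]
    · intro h
      exact absurd hχmem h
  · intro β hβ hβφ hχβ
    by_contra hne
    have h1 := (Finset.sum_eq_zero_iff.1 (hR2.symm.trans hR2z)) β (Finset.mem_erase.2 ⟨hne, mem_irr.2 hβ⟩)
    have h2 : 0 < mu T χ β := (A15_over_iff hTK (charS_of_irrS hχ) hβ).1 hχβ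
    have h3 : 0 < mu M β φ := (A15_over_iff hMT (charS_of_irrS hβ) hφ).1 hβφ
    exact absurd h1 (Nat.mul_pos h2 h3).ne'

/-- Clifford correspondence. `M` normal in `K`, `T` the stabiliser of `φ ∈ Irr M` in `K`: induction is a bijection from `Irr(T|φ)` onto `Irr(K|φ)`.
Proof. Let `α ∈ Irr(T|φ)`, `e = mu M α φ > 0`; `clifford_inv` (with `T`): `α 1 = e * φ 1`. `ind T K α` is a character of `K` (`ind_charS`), not zero
(`ind_one`), so it has an irreducible constituent `χ`: by `frob` `ip T α χ ≠ 0`, i.e. `α` is a constituent of `χ` on `T` with multiplicity `a ≥ 1`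
(`charS_expand`, `mu_spec`), so `χ` lies over `φ` (`over_trans`) and `mu M χ φ ≥ a * e ≥ e` (`A15_mu_trans`). `clifford_degree` for `χ` (with `stS K φ = T`):
`χ 1 = mu M χ φ * |K : T| * φ 1 ≥ e |K : T| φ 1 = |K : T| α 1 = (ind T K α) 1` (`ind_one`, `Subgroup.relIndex_mul_relIndex`).
As `χ` is a constituent of the character `ind T K α` (`charS_expand'`: the degree is the sum of `mu * degree`), equality holds and `ind T K α = χ`.
In particular `mu M χ φ = e`, so `a = 1` and no other `β ∈ Irr(T|φ)` is a constituent of `χ` on `T`: injective (if `ind T K β = χ` then `ip T β χ = 1`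
by `frob`). Surjective: for `χ ∈ Irr(K|φ)` take `α ∈ Irr T` with `Over T χ α`, `Over M α φ` (`over_split`); by `frob` `χ` is a constituent of the
irreducible `ind T K α`. -/
theorem clifford_corr {M T K : Subgroup G} (hMT : M ≤ T) (hTK : T ≤ K) (hn : ∀ t ∈ K, Nz t M) {φ : G → ℂ} (hφ : φ ∈ IrrS M)
    (hst : ∀ t ∈ K, t ∈ T ↔ cj t φ = φ) :
    Set.BijOn (ind T K) {α | α ∈ IrrS T ∧ Over M α φ} {χ | χ ∈ IrrS K ∧ Over M χ φ} := by
  refine ⟨?_, ?_, ?_⟩
  · rintro α ⟨hα, hαφ⟩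
    obtain ⟨χ, hχ, hχα⟩ := over_exists hTK hα
    obtain ⟨h1, h2, -⟩ := K01_main hMT hTK hn hφ hst hα hαφ hχ hχα
    exact ⟨h2 ▸ hχ, h2 ▸ h1⟩
  · rintro α ⟨hα, hαφ⟩ β ⟨hβ, hβφ⟩ hab
    obtain ⟨χ, hχ, hχα⟩ := over_exists hTK hα
    obtain ⟨-, h2, h3⟩ := K01_main hMT hTK hn hφ hst hα hαφ hχ hχα
    have h4 : Over T χ β := by
      unfold Over
      have h5 : ip K χ (ind T K β) = ip T χ β := A15_frob' hTK hβ.1 (cf_charS (charS_of_irrS hχ))
      rw [← h5, ← hab, h2, irrS_ortho hχ hχ, if_pos rfl]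
      exact one_ne_zero
    exact (h3 β hβ hβφ h4).symm
  · rintro χ ⟨hχ, hχφ⟩
    obtain ⟨α, hα, hχα, hαφ⟩ := over_split hMT hTK hχ hφ hχφ
    obtain ⟨-, h2, -⟩ := K01_main hMT hTK hn hφ hst hα hαφ hχ hχα
    exact ⟨α, ⟨hα, hαφ⟩, h2⟩

end Pool.Agent.Lib.H90Q
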