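import Pool.Agent.Lib.H90Q.K03

open scoped Classical ComplexConjugate BigOperators

noncomputable section

namespace Pool.Agent.Lib.H90Q

variable {G : Type*} [Group G] [Fintype G]

omit [Fintype G] in
/-- An element of a `p`-group killed by a power prime to `p` is trivial. -/
private lemma K04_one {p : ℕ} (hp : p.Prime) {P : Subgroup G} (hPp : IsPGroup p P) {w : G} (hw : w ∈ P) {n : ℕ}
    (hn : ¬ p ∣ n) (h : w ^ n = 1) : w = 1 := by
  obtain ⟨k, hk⟩ := hPp ⟨w, hw⟩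
  have hk' : w ^ p ^ k = 1 := congrArg Subtype.val hk
  have h1 : orderOf w ∣ Nat.gcd (p ^ k) n := Nat.dvd_gcd (orderOf_dvd_of_pow_eq_one hk') (orderOf_dvd_of_pow_eq_one h)
  have h2 : Nat.gcd (p ^ k) n = 1 := Nat.Coprime.pow_left k ((Nat.Prime.coprime_iff_not_dvd hp).mpr hn)
  rw [h2, Nat.dvd_one] at h1
  exact orderOf_eq_one_iff.mp h1

omit [Fintype G] in
/-- The elements of `A ⊔ B`, `B` normalising `A`. -/
private lemma K04_sup {A B : Subgroup G} (hn : ∀ b ∈ B, ∀ a ∈ A, b * a * b⁻¹ ∈ A) {g : G} (hg : g ∈ A ⊔ B) :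
    ∃ a ∈ A, ∃ b ∈ B, g = a * b := by
  let T : Subgroup G :=
    { carrier := {g | ∃ a ∈ A, ∃ b ∈ B, g = a * b}
      mul_mem' := by
        rintro _ _ ⟨a, ha, b, hb, rfl⟩ ⟨a', ha', b', hb', rfl⟩
        exact ⟨a * (b * a' * b⁻¹), A.mul_mem ha (hn b hb a' ha'), b * b', B.mul_mem hb hb', by group⟩
      one_mem' := ⟨1, A.one_mem, 1, B.one_mem, by simp⟩
      inv_mem' := by
        rintro _ ⟨a, ha, b, hb, rfl⟩
        exact ⟨b⁻¹ * a⁻¹ * b⁻¹⁻¹, hn _ (B.inv_mem hb) _ (A.inv_mem ha), b⁻¹, B.inv_mem hb, by group⟩ }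
  have hT : A ⊔ B ≤ T := sup_le (fun a ha => ⟨a, ha, 1, B.one_mem, by simp⟩) (fun b hb => ⟨1, A.one_mem, b, hb, by simp⟩)
  exact hT hg

omit [Fintype G] in
/-- Powers of `a b` modulo the normalised subgroup `A`. -/
private lemma K04_pow {A : Subgroup G} {a b : G} (hn : ∀ c ∈ A, b * c * b⁻¹ ∈ A) (ha : a ∈ A) (m : ℕ) :
    ∃ c ∈ A, (a * b) ^ m = c * b ^ m := by
  have hnm : ∀ m : ℕ, ∀ c ∈ A, b ^ m * c * (b ^ m)⁻¹ ∈ A := by
    intro m
    induction m with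
    | zero => intro c hc; simpa using hc
    | succ m ih =>
      intro c hc
      have e : b ^ (m + 1) * c * (b ^ (m + 1))⁻¹ = b * (b ^ m * c * (b ^ m)⁻¹) * b⁻¹ := by rw [pow_succ']; group
      rw [e]
      exact hn _ (ih c hc)
  induction m with
  | zero => exact ⟨1, A.one_mem, by simp⟩
  | succ m ih =>
    obtain ⟨c, hc, e⟩ := ih
    refine ⟨c * (b ^ m * a * (b ^ m)⁻¹), A.mul_mem hc (hnm m a ha), ?_⟩
    rw [pow_succ, e, pow_succ]
    group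

/-- `P ∩ L = 1`. -/
theorem tri_PL {p : ℕ} (hp : p.Prime) {K L P H : Subgroup G} (h : Tri p K L P H) : ∀ u ∈ P, u ∈ L → u = 1 := by
  intro u hu hL
  refine K04_one hp h.hPp hu h.hLp ?_
  have h1 := pow_card_eq_one' (G := L) (x := ⟨u, hL⟩)
  exact congrArg Subtype.val h1

/-- `(P L) ∩ H = L ∩ H`. Proof: let `g = u * l ∈ H`, `m = Nat.card H`; `g ^ m = 1` and `g ^ m ∈ u ^ m * L`, so `u ^ m ∈ P ∩ L = 1`, `p` does not divide `m`, `u = 1`. -/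
theorem tri_cap {p : ℕ} (hp : p.Prime) {K L P H : Subgroup G} (h : Tri p K L P H) {g : G} (hg : g ∈ P ⊔ L) (hgH : g ∈ H) : g ∈ L := by
  rw [sup_comm] at hg
  have hn : ∀ b ∈ P, ∀ a ∈ L, b * a * b⁻¹ ∈ L := fun b hb a ha => (h.hL b (h.hPK hb) a).mp ha
  obtain ⟨l, hl, u, hu, rfl⟩ := K04_sup hn hg
  obtain ⟨c, hc, e⟩ := K04_pow (hn u hu) hl (Nat.card H)
  have h1 : (l * u) ^ Nat.card H = 1 := congrArg Subtype.val (pow_card_eq_one' (G := H) (x := ⟨l * u, hgH⟩))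
  rw [h1] at e
  have h2 : u ^ Nat.card H ∈ L := by
    have h3 : u ^ Nat.card H = c⁻¹ := by rw [eq_inv_iff_mul_eq_one, ← inv_eq_iff_mul_eq_one, eq_comm, eq_inv_iff_mul_eq_one]; exact e.symm
    rw [h3]
    exact L.inv_mem hc
  have h3 : u ^ Nat.card H = 1 := tri_PL hp h _ (P.pow_mem hu _) h2
  have h4 : u = 1 := K04_one hp h.hPp hu h.hHp h3
  rw [h4, mul_one]
  exact hl

/-- For `L ∩ H ≤ S ≤ H`: an element of `P ⊔ L ⊔ S` is a product `u * (l * s)`. -/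
theorem tri_mem {p : ℕ} {K L P H S : Subgroup G} (h : Tri p K L P H) (hSH : S ≤ H) {g : G} :
    g ∈ P ⊔ L ⊔ S ↔ ∃ u ∈ P, ∃ l ∈ L, ∃ s ∈ S, g = u * (l * s) := by
  constructor
  · intro hg
    obtain ⟨m, hm, s, hs, rfl⟩ := K04_sup (fun b hb a ha => (h.hPL b (h.hHK (hSH hb)) a).mp ha) hg
    rw [sup_comm] at hm
    obtain ⟨l, hl, u, hu, rfl⟩ := K04_sup (fun b hb a ha => (h.hL b (h.hPK hb) a).mp ha) hm
    refine ⟨u, hu, u⁻¹ * l * u⁻¹⁻¹, (h.hL _ (h.hPK (P.inv_mem hu)) l).mp hl, s, hs, ?_⟩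
    group
  · rintro ⟨u, hu, l, hl, s, hs, rfl⟩
    rw [← mul_assoc]
    exact Subgroup.mul_mem _ (Subgroup.mem_sup_left (Subgroup.mul_mem _ (Subgroup.mem_sup_left hu) (Subgroup.mem_sup_right hl)))
      (Subgroup.mem_sup_right hs)

/-- `P ∩ (L S) = 1` (the elements of `L ⊔ S` are `l * s`; `L S` has order prime to `p`: its order divides `|L| |S|`). -/
theorem tri_PLS {p : ℕ} (hp : p.Prime) {K L P H S : Subgroup G} (h : Tri p K L P H) (hSH : S ≤ H) : ∀ u ∈ P, u ∈ L ⊔ S → u = 1 := by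
  intro u hu huL
  have hn : ∀ b ∈ S, ∀ a ∈ L, b * a * b⁻¹ ∈ L := fun b hb a ha => (h.hL b (h.hHK (hSH hb)) a).mp ha
  obtain ⟨l, hl, s, hs, e⟩ := K04_sup hn huL
  obtain ⟨c, hc, e2⟩ := K04_pow (hn s hs) hl (Nat.card S)
  have h1 : s ^ Nat.card S = 1 := congrArg Subtype.val (pow_card_eq_one' (G := S) (x := ⟨s, hs⟩))
  rw [← e, h1, mul_one] at e2
  have h2 : u ^ Nat.card S = 1 := tri_PL hp h _ (P.pow_mem hu _) (e2 ▸ hc)
  exact K04_one hp h.hPp hu (fun hd => h.hHp (hd.trans (Subgroup.card_dvd_of_le hSH))) h2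

/-- `(P L S) ∩ H = S` for `L ∩ H ≤ S ≤ H`: `t = u l s` gives `u l = t s⁻¹ ∈ (P L) ∩ H`, so `u l ∈ L ∩ H ≤ S`. -/
theorem tri_capS {p : ℕ} (hp : p.Prime) {K L P H S : Subgroup G} (h : Tri p K L P H) (hSH : S ≤ H) (hCS : L ⊓ H ≤ S) {g : G}
    (hgH : g ∈ H) : g ∈ P ⊔ L ⊔ S ↔ g ∈ S := by
  constructor
  · intro hg
    obtain ⟨u, hu, l, hl, s, hs, rfl⟩ := (tri_mem h hSH).mp hg
    have h1 : u * l ∈ H := by
      have e : u * l = u * (l * s) * s⁻¹ := by group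
      rw [e]
      exact H.mul_mem hgH (H.inv_mem (hSH hs))
    have h2 : u * l ∈ L := tri_cap hp h (Subgroup.mul_mem _ (Subgroup.mem_sup_left hu) (Subgroup.mem_sup_right hl)) h1
    have h3 : u * l ∈ S := hCS ⟨h2, h1⟩
    rw [← mul_assoc]
    exact S.mul_mem h3 hs
  · intro hg
    exact Subgroup.mem_sup_right hg

end Pool.Agent.Lib.H90Q
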