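import Pool.Agent.Lib.H90Q.K04

open scoped Classical ComplexConjugate BigOperators

noncomputable section

namespace Pool.Agent.Lib.H90Q

variable {G : Type*} [Group G] [Fintype G]

/-- the commutation rule for `k ∈ L S`, `u ∈ P`: `(l s) u = (s u s⁻¹) l' s`, and `ll` is fixed by `S`. -/
theorem tri_comm {p : ℕ} {K L P H S : Subgroup G} (h : Tri p K L P H) (hSH : S ≤ H) {ll : G → ℂ} (hl : ll ∈ LinS P ⊥)
    (hS : ∀ s ∈ S, cj s ll = ll) : ∀ k ∈ L ⊔ S, ∀ u ∈ P, ∃ u' ∈ P, ∃ k' ∈ L ⊔ S, k * u = u' * k' ∧ ll u' = ll u := by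
  intro k hk u hu
  have hn : ∀ b ∈ S, Nz b L := fun b hb => h.hL b (h.hHK (hSH hb))
  have hk' : k ∈ P ⊔ L ⊔ S := by
    rw [sup_assoc]
    exact Subgroup.mem_sup_right hk
  have hmem : ∃ l ∈ L, ∃ s ∈ S, k = l * s := by
    let T : Subgroup G :=
      { carrier := {g | ∃ a ∈ L, ∃ b ∈ S, g = a * b}
        mul_mem' := by
          rintro _ _ ⟨a, ha, b, hb, rfl⟩ ⟨a', ha', b', hb', rfl⟩
          exact ⟨a * (b * a' * b⁻¹), L.mul_mem ha ((hn b hb a').mp ha'), b * b', S.mul_mem hb hb', by group⟩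
        one_mem' := ⟨1, L.one_mem, 1, S.one_mem, by simp⟩
        inv_mem' := by
          rintro _ ⟨a, ha, b, hb, rfl⟩
          exact ⟨b⁻¹ * a⁻¹ * b⁻¹⁻¹, (hn _ (S.inv_mem hb) _).mp (L.inv_mem ha), b⁻¹, S.inv_mem hb, by group⟩ }
    have hT : L ⊔ S ≤ T := sup_le (fun a ha => ⟨a, ha, 1, S.one_mem, by simp⟩) (fun b hb => ⟨1, L.one_mem, b, hb, by simp⟩)
    exact hT hk
  obtain ⟨l, hl', s, hs, rfl⟩ := hmem
  have hu' : s * u * s⁻¹ ∈ P := (h.hHP s (hSH hs) u).mp hu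
  refine ⟨s * u * s⁻¹, hu', ((s * u * s⁻¹)⁻¹ * l * (s * u * s⁻¹)⁻¹⁻¹) * s, ?_, by group, ?_⟩
  · exact Subgroup.mul_mem _ (Subgroup.mem_sup_left ((h.hL _ (h.hPK (P.inv_mem hu')) l).mp hl')) (Subgroup.mem_sup_right hs)
  · have e := congrFun (hS s hs) (s * u * s⁻¹)
    rw [← e]
    change ll (s⁻¹ * (s * u * s⁻¹) * s) = ll u
    congr 1
    group

/-- The linear character `u l s ↦ ll u` of `P L S`. -/
theorem tri_lin {p : ℕ} (hp : p.Prime) {K L P H S : Subgroup G} (h : Tri p K L P H) (hSH : S ≤ H) {ll : G → ℂ} (hl : ll ∈ LinS P ⊥)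
    (hS : ∀ s ∈ S, cj s ll = ll) : prl P (L ⊔ S) ll ∈ LinS (P ⊔ L ⊔ S) (L ⊔ S) ∧ ∀ g ∈ P ⊔ L, prl P (L ⊔ S) ll g = prl P L ll g := by
  have h1 := prl_lin (tri_PLS hp h hSH) hl (tri_comm h hSH hl hS)
  rw [← sup_assoc] at h1
  refine ⟨h1, fun g hg => ?_⟩
  have hc : ∀ k ∈ L, ∀ u ∈ P, ∃ u' ∈ P, ∃ k' ∈ L, k * u = u' * k' := fun k hk u hu =>
    ⟨u, hu, u⁻¹ * k * u⁻¹⁻¹, (h.hL _ (h.hPK (P.inv_mem hu)) k).mp hk, by group⟩
  obtain ⟨u, hu, k, hk, rfl⟩ := (mem_PK hc).mp hg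
  rw [prl_apply (tri_PLS hp h hSH) ll hu (Subgroup.mem_sup_left hk), prl_apply (tri_PL hp h) ll hu hk]

/-- `θh * prl P L ll` is irreducible on `P L` (`lin_mul_irr`). -/
theorem tri_phi {p : ℕ} (hp : p.Prime) {K L P H : Subgroup G} (h : Tri p K L P H) {ll : G → ℂ} (hl : ll ∈ LinS P ⊥) {θ θh : G → ℂ}
    (hθh : CanExt p P L θ θh) : θh * prl P L ll ∈ IrrS (P ⊔ L) := by
  have h1 : prl P L ll ∈ LinS (P ⊔ L) L := prl_lin (tri_PL hp h) hl fun k hk u hu =>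
    ⟨u, hu, u⁻¹ * k * u⁻¹⁻¹, (h.hL _ (h.hPK (P.inv_mem hu)) k).mp hk, by group, rfl⟩
  rw [mul_comm]
  exact lin_mul_irr h1 hθh.1

/-- Conjugates by `b ∈ H`: `cj b (θh * prl P L ll) = cj b θh * prl P L (cj b ll)` (`prl_cj`). -/
theorem tri_phi_cj {p : ℕ} {K L P H : Subgroup G} (h : Tri p K L P H) {b : G} (hb : b ∈ H) (θh ll : G → ℂ) :
    cj b (θh * prl P L ll) = cj b θh * prl P L (cj b ll) := by
  rw [← prl_cj (h.hHP b hb) (h.hL b (h.hHK hb)) ll]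
  rfl

/-- Two of these characters are equal only if the data are: restrict to `L`; `canExt_unique`; then compare on `P` (`θh u ≠ 0`). -/
theorem tri_phi_inj {p : ℕ} (hp : p.Prime) {K L P H : Subgroup G} (h : Tri p K L P H) {ll ll' : G → ℂ} (hl : ll ∈ LinS P ⊥)
    (hl' : ll' ∈ LinS P ⊥) {θ θ' θh θh' : G → ℂ} (hθ : θ ∈ IrrS L) (hθ' : θ' ∈ IrrS L) (hθh : CanExt p P L θ θh) (hθh' : CanExt p P L θ' θh')
    (he : θh * prl P L ll = θh' * prl P L ll') : θ = θ' ∧ ll = ll' := by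
  have h1 : ∀ g ∈ L, prl P L ll g = 1 := fun g hg => by
    have e := prl_apply (tri_PL hp h) ll P.one_mem hg
    rw [one_mul] at e
    rw [e]; exact lin_one hl
  have h1' : ∀ g ∈ L, prl P L ll' g = 1 := fun g hg => by
    have e := prl_apply (tri_PL hp h) ll' P.one_mem hg
    rw [one_mul] at e
    rw [e]; exact lin_one hl'
  have hθθ : θ = θ' := by
    funext g
    by_cases hg : g ∈ L
    · have e := congrFun he g
      change θh g * prl P L ll g = θh' g * prl P L ll' g at e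
      rw [h1 g hg, h1' g hg, mul_one, mul_one, hθh.2.1 g hg, hθh'.2.1 g hg] at e
      exact e
    · rw [hθ.1 g hg, hθ'.1 g hg]
  subst hθθ
  refine ⟨rfl, ?_⟩
  have hhh : θh = θh' := canExt_unique hp h.hLp h.hPp h.hPab (fun u hu => h.hL u (h.hPK hu)) hθ hθh hθh'
  subst hhh
  funext g
  by_cases hg : g ∈ P
  · have e := congrFun he g
    change θh g * prl P L ll g = θh g * prl P L ll' g at e
    have e1 := prl_apply (tri_PL hp h) ll hg L.one_mem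
    have e2 := prl_apply (tri_PL hp h) ll' hg L.one_mem
    rw [mul_one] at e1 e2
    rw [e1, e2] at e
    exact mul_left_cancel₀ (hθh.2.2 g hg).1 e
  · rw [hl.1 g hg, hl'.1 g hg]

/-- The stabiliser in `K` of `θh * prl P L ll` is `P L S`, `S` the stabiliser in `H` of the pair. Proof: `k = l u b` (`h.hK`), `l u ∈ P ⊔ L` fixes the class function of `P ⊔ L` (`cj_mem`, `cj_cj`), so
`k` fixes it iff `b` does, iff (`tri_phi_cj`, `canExt_cj`, `tri_phi_inj`) `cj b θ = θ` and `cj b ll = ll` (for the converse `canExt_unique`), iff `b ∈ S` iff `k ∈ P L S` (`tri_capS`). -/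
theorem tri_stab {p : ℕ} (hp : p.Prime) {K L P H S : Subgroup G} (h : Tri p K L P H) {ll θ θh : G → ℂ} (hl : ll ∈ LinS P ⊥)
    (hθ : θ ∈ IrrS L) (hθh : CanExt p P L θ θh) (hS : (S : Set G) = stPair H θ ll) :
    ∀ t ∈ K, t ∈ P ⊔ L ⊔ S ↔ cj t (θh * prl P L ll) = θh * prl P L ll := by
  have hmemS : ∀ b, b ∈ S ↔ b ∈ H ∧ cj b θ = θ ∧ cj b ll = ll := fun b => by
    have e : b ∈ (S : Set G) ↔ b ∈ stPair H θ ll := by rw [hS]
    exact e
  have hSH : S ≤ H := fun b hb => ((hmemS b).mp hb).1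
  have hφ := tri_phi hp h hl hθh
  have hcf := cf_charS (charS_of_irrS hφ)
  have hCS : L ⊓ H ≤ S := by
    intro c hc
    rw [hmemS]
    refine ⟨hc.2, cj_mem hc.1 (cf_charS (charS_of_irrS hθ)), ?_⟩
    funext g
    change ll (c⁻¹ * g * c) = ll g
    by_cases hg : g ∈ P
    · have e : c⁻¹ * g * c = g := by rw [mul_assoc, ← (h.hC c hc.1).mp hc.2 g hg, inv_mul_cancel_left]
      rw [e]
    · have hg' : c⁻¹ * g * c ∉ P := by
        intro h1
        have h2 := (h.hHP c hc.2 _).mp h1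
        have e : c * (c⁻¹ * g * c) * c⁻¹ = g := by group
        rw [e] at h2
        exact hg h2
      rw [hl.1 _ hg, hl.1 _ hg']
  have key : ∀ b ∈ H, b ∈ S ↔ cj b (θh * prl P L ll) = θh * prl P L ll := by
    intro b hb
    rw [hmemS, tri_phi_cj h hb]
    have hcan := canExt_cj (h.hHP b hb) (h.hL b (h.hHK hb)) hθh
    constructor
    · rintro ⟨-, e1, e2⟩
      rw [e1] at hcan
      rw [e2, canExt_unique hp h.hLp h.hPp h.hPab (fun u hu => h.hL u (h.hPK hu)) hθ hcan hθh]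
    · intro e
      obtain ⟨e1, e2⟩ := tri_phi_inj hp h (lin_cj (h.hHP b hb) hl) hl (cj_irrS (h.hL b (h.hHK hb)) hθ) hθ hcan hθh e
      exact ⟨hb, e1, e2⟩
  intro t ht
  obtain ⟨l, hl', u, hu, b, hb, rfl⟩ := h.hK t ht
  have h1 : l * u ∈ P ⊔ L := Subgroup.mul_mem _ (Subgroup.mem_sup_right hl') (Subgroup.mem_sup_left hu)
  have h2 : l * u * b ∈ P ⊔ L ⊔ S ↔ b ∈ P ⊔ L ⊔ S := Subgroup.mul_mem_cancel_left _ (Subgroup.mem_sup_left h1)
  rw [h2, tri_capS hp h hSH hCS hb, key b hb]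
  have h3 : cj (l * u * b) (θh * prl P L ll) = cj b (θh * prl P L ll) := by
    rw [← cj_cj]
    exact cj_mem h1 (cf_charS (charS_of_irrS (cj_irrS (h.hPL b (h.hHK hb)) hφ)))
  rw [h3]

end Pool.Agent.Lib.H90Q
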