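import Pool.Agent.Lib.H90Q.K05
import Pool.Agent.Lib.H90Q.K01

open scoped Classical ComplexConjugate BigOperators

noncomputable section

namespace Pool.Agent.Lib.H90Q

variable {G : Type*} [Group G] [Fintype G]

private theorem k06_ip (M T N : Subgroup G) (hMT : M ≤ T) {l : G → ℂ} (hl : l ∈ LinS T N) {m α θ : G → ℂ}
    (hm : ∀ g ∈ M, l g = m g) : ip M (l * α) (θ * m) = ip M α θ := by
  unfold ip
  refine congrArg _ (Finset.sum_congr rfl fun x _ => ?_)
  by_cases hx : x ∈ M
  · rw [if_pos hx, if_pos hx]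
    have h1 := lin_mul_conj hl (hMT hx)
    show l x * α x * conj (θ x * m x) = α x * conj (θ x)
    rw [← hm x hx, map_mul]
    calc l x * α x * (conj (θ x) * conj (l x)) = (l x * conj (l x)) * (α x * conj (θ x)) := by ring
      _ = α x * conj (θ x) := by rw [h1, one_mul]
  · rw [if_neg hx, if_neg hx]

private theorem k06_twist (M T N : Subgroup G) (hMT : M ≤ T) {l : G → ℂ} (hl : l ∈ LinS T N) {m θ : G → ℂ}
    (hm : ∀ g ∈ M, l g = m g) :
    Set.BijOn (fun α => l * α) {α | α ∈ IrrS T ∧ Over M α θ} {α | α ∈ IrrS T ∧ Over M α (θ * m)} := by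
  refine ⟨?_, ?_, ?_⟩
  · rintro α ⟨hα, ho⟩
    refine ⟨lin_mul_irr hl hα, ?_⟩
    show ip M (l * α) (θ * m) ≠ 0
    rw [k06_ip M T N hMT hl hm]
    exact ho
  · rintro α ⟨hα, -⟩ β ⟨hβ, -⟩ he
    funext x
    by_cases hx : x ∈ T
    · have h1 := lin_mul_conj hl hx
      have h2 : l x * α x = l x * β x := congrFun he x
      have h3 : l x ≠ 0 := by
        intro h
        rw [h, zero_mul] at h1
        exact zero_ne_one h1
      exact mul_left_cancel₀ h3 h2
    · rw [hα.1 x hx, hβ.1 x hx]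
  · rintro β ⟨hβ, ho⟩
    have he : l * ((fun x => conj (l x)) * β) = β := by
      funext x
      show l x * (conj (l x) * β x) = β x
      by_cases hx : x ∈ T
      · rw [← mul_assoc, lin_mul_conj hl hx, one_mul]
      · rw [hβ.1 x hx, mul_zero, mul_zero]
    refine ⟨(fun x => conj (l x)) * β, ⟨lin_mul_irr (lin_conj hl) hβ, ?_⟩, he⟩
    show ip M ((fun x => conj (l x)) * β) θ ≠ 0
    rw [← k06_ip M T N hMT hl hm, he]
    exact ho

/-- The block bijection. `T = P L S` is the stabiliser (`tri_stab`), so induction is a bijection (`clifford_corr`, `M = P ⊔ L`) onto the block; multiplication by the linear character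
`prl P (L ⊔ S) ll` of `T` (`tri_lin`) is a bijection from the characters over `θh` onto those over `θh * prl P L ll` (inverse: multiplication by the conjugate; `ip_congr`, `lin_mul_conj`). -/
theorem blk_bij {p : ℕ} (hp : p.Prime) {K L P H S : Subgroup G} (h : Tri p K L P H) {ll θ θh : G → ℂ} (hl : ll ∈ LinS P ⊥)
    (hθ : θ ∈ IrrS L) (hθh : CanExt p P L θ θh) (hS : (S : Set G) = stPair H θ ll) (hCS : L ⊓ H ≤ S) :
    Set.BijOn (fun α => ind (P ⊔ L ⊔ S) K (prl P (L ⊔ S) ll * α)) {α | α ∈ IrrS (P ⊔ L ⊔ S) ∧ Over (P ⊔ L) α θh} (Blk K P L θh ll) := by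
  have hSH : S ≤ H := by
    intro s hs
    have h1 : s ∈ (S : Set G) := hs
    rw [hS] at h1
    exact h1.1
  have hfix : ∀ s ∈ S, cj s ll = ll := by
    intro s hs
    have h1 : s ∈ (S : Set G) := hs
    rw [hS] at h1
    exact h1.2.2
  obtain ⟨h1, h2⟩ := tri_lin hp h hSH hl hfix
  have h3 := k06_twist (P ⊔ L) (P ⊔ L ⊔ S) (L ⊔ S) le_sup_left h1 (θ := θh) h2
  have h4 := clifford_corr (M := P ⊔ L) (T := P ⊔ L ⊔ S) (K := K) le_sup_left
    (sup_le (sup_le h.hPK h.hLK) (hSH.trans h.hHK)) h.hPL (tri_phi hp h hl hθh)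
    (tri_stab hp h hl hθ hθh hS)
  exact h4.comp h3

end Pool.Agent.Lib.H90Q
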