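import Pool.Agent.Lib.H90Q.F7
import Pool.Agent.Lib.H90Q.K14

/-!
# MP_a8e959_al: the final theorem (helper61)
-/

open scoped Classical ComplexConjugate BigOperators

noncomputable section

namespace Pool.Agent.Lib.H90Q

variable {G : Type*} [Group G] [Fintype G]

/-- A canonical extension has real non-zero values on `P`. -/
theorem canExt_of_can {p : ℕ} (hp2 : p ≠ 2) {L P : Subgroup G} {θ Θ : G → ℂ} (h : Can p L P θ Θ) : CanExt p P L θ Θ := by
  refine ⟨?_, h.ext, fun u hu => ?_⟩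
  · rw [sup_comm]
    exact h.irr
  · obtain ⟨ψ, ε, hε, hgc, -, hv⟩ := h.val u hu
    obtain ⟨n, hn, hn1⟩ := irrS_one hgc.2.1
    have h1 := hv 1 (Subgroup.one_mem _)
    rw [mul_one, hn1] at h1
    rw [h1]
    have hn0 : (n : ℂ) ≠ 0 := by exact_mod_cast hn.ne'
    have hε0 : (ε : ℂ) ≠ 0 := by
      rcases hε with rfl | rfl <;> norm_num
    refine ⟨mul_ne_zero hε0 hn0, ?_, fun h2 => absurd h2 hp2⟩
    rw [map_mul, map_natCast, map_intCast]

/-- The core in the form used by `block_bij`. -/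
theorem core_stmt {p : ℕ} [Fact p.Prime] (hp2 : p ≠ 2) {L P H : Subgroup G} {x : G} (hs : Setup p L P H x) : CoreStmt p L P H x := by
  intro S hSH hCS θ θs θh hθ hinv hGC hθh hSθ
  have hp : p.Prime := Fact.out
  have hPn : ∀ z ∈ P, Nz z L := fun z _ => F4_nzL hs z
  have hPp : ∀ z ∈ P, ∃ a : ℕ, z ^ (p ^ a) = 1 := by
    intro z hz
    obtain ⟨k, hk⟩ := hs.hPp ⟨z, hz⟩
    exact ⟨k, congrArg Subtype.val hk⟩
  obtain ⟨Θ, hΘ⟩ := can_exists hp2 hs.hLp hPn hPp hs.hPab hθ hinv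
  have e : θh = Θ := canExt_unique hp hs.hLp hs.hPp hs.hPab hPn hθ hθh (canExt_of_can hp2 hΘ)
  subst e
  obtain ⟨ε, hε, -, f, hf, hv⟩ := core hp2 hs hSH hCS hinv hSθ hΘ hGC
  have e1 : ({α | α ∈ IrrS (P ⊔ L ⊔ S) ∧ Over (P ⊔ L) α θh} : Set (G → ℂ)) = (irrOver (L ⊔ P ⊔ S) (L ⊔ P) θh : Set (G → ℂ)) := by
    ext α
    rw [Finset.mem_coe, mem_irrOver, sup_comm L P]
    rfl
  have e2 : ({β | β ∈ IrrS S ∧ Over (L ⊓ H) β θs} : Set (G → ℂ)) = (irrOver S (L ⊓ H) θs : Set (G → ℂ)) := by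
    ext β
    rw [Finset.mem_coe, mem_irrOver]
    rfl
  refine ⟨(ε : ℂ), ?_, f, ?_, ?_⟩
  · rcases hε with rfl | rfl
    · left; norm_num
    · right; norm_num
  · rw [e1, e2]
    exact hf
  · intro α hα hαo
    have hαm : α ∈ irrOver (L ⊔ P ⊔ S) (L ⊔ P) θh := by
      rw [← Finset.mem_coe, ← e1]
      exact ⟨hα, hαo⟩
    refine ⟨?_, hv α hαm⟩
    -- the degree: the restriction to `L S` is irreducible
    have hθcf := cf_charS (charS_of_irrS hθ)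
    have hΘcf := cf_charS (charS_of_irrS hΘ.irr)
    have hΘS : ∀ s ∈ S, cj s θh = θh := by
      intro s hs'
      have h1 := can_cj (F4_nzL hs s) (F4_nzP hs (hSH hs')) hΘ
      rw [hSθ s hs'] at h1
      exact can_unique hp2 hs.hLp hPn hPp hs.hPab hθ h1 hΘ
    obtain ⟨hnM, hTM, hMU⟩ := F4_T hs hSH
    have hΘT : ∀ t ∈ L ⊔ P ⊔ S, cj t θh = θh := by
      intro t ht
      obtain ⟨m, hm, u, hu, rfl⟩ := hTM t ht
      obtain ⟨l, hl, s, hs', rfl⟩ := (F4_mem hs).1 hu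
      rw [← cj_cj, ← cj_cj, hΘS s hs', cj_mem ((le_sup_left : L ≤ L ⊔ P) hl) hΘcf, cj_mem hm hΘcf]
    have hMT : L ⊔ P ≤ L ⊔ P ⊔ S := le_sup_left
    have hUT : L ⊔ S ≤ L ⊔ P ⊔ S := sup_le (le_sup_left.trans le_sup_left) le_sup_right
    have hres := res_bij hMT hUT hTM hMU (fun t _ => hnM t) hΘ.irr hθ hΘ.ext hΘT
    have h1 : rs (L ⊔ S) α ∈ IrrS (L ⊔ S) := (mem_irrOver.1 (hres.mapsTo (Finset.mem_coe.2 hαm))).1
    obtain ⟨n, -, hn, hd⟩ := irr_dvd h1.2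
    refine ⟨n, ?_, fun hpn => F4_card hs hSH (hpn.trans hd)⟩
    have h2 : rs (L ⊔ S) α 1 = α 1 := if_pos (Subgroup.one_mem _)
    rw [← h2]
    exact hn

/-- **Main theorem.** `p` an odd prime, `G` a `p`-solvable finite group with an abelian Sylow `p`-subgroup `P` such that `N_G(P) / C_G(P)` is abelian, `x ∈ P` picky. Then the subnormalizer `p`-section conjecture holds
for `x`, with a sign which depends only on the character. -/
theorem q1_psolvable {p : ℕ} (hp : p.Prime) (hp2 : p ≠ 2) (hs : PSolvable p G) (P : Sylow p G) (hP : ∀ a ∈ P, ∀ b ∈ P, a * b = b * a)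
    (hab : ∀ a ∈ Subgroup.normalizer ((P : Subgroup G) : Set G), ∀ b ∈ Subgroup.normalizer ((P : Subgroup G) : Set G),
      a * b * a⁻¹ * b⁻¹ ∈ Subgroup.centralizer ((P : Subgroup G) : Set G))
    {x : G} (hx : Picky p x) (hxP : x ∈ P) {S : Set G} (hS : S ⊆ SecSet p x) : Q1Sharp p x S := by
  have : Fact p.Prime := ⟨hp⟩
  refine q1_of_core hp hs P hP hab hx hxP hS ?_ ?_
  · intro L H h θ hθ hinv
    have hPp : ∀ z ∈ (P : Subgroup G), ∃ a : ℕ, z ^ (p ^ a) = 1 := by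
      intro z hz
      obtain ⟨k, hk⟩ := h.hPp ⟨z, hz⟩
      exact ⟨k, congrArg Subtype.val hk⟩
    obtain ⟨Θ, hΘ⟩ := can_exists hp2 h.hLp (fun z _ => F4_nzL h z) hPp h.hPab hθ hinv
    exact ⟨Θ, canExt_of_can hp2 hΘ⟩
  · intro L H h
    exact core_stmt hp2 h

end Pool.Agent.Lib.H90Q
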